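import Mathlib

/-!
# FVL, module Lin83: integral linear systems with short rows (Cramer and Hadamard)
-/

set_option autoImplicit false

namespace Pool.Agent.Lib.MP_e3aa0a_gt.FVL

open Finset Module

variable {T : Type*} [Fintype T] [DecidableEq T]

/-- a vector with integral coordinates -/
def IsInt83 (v : EuclideanSpace ℝ T) : Prop := ∀ t, ∃ z : ℤ, v t = z

/-- the standard basis, enumerated -/
noncomputable def sb83 (T : Type*) [Fintype T] [DecidableEq T] {n : ℕ} (e : T ≃ Fin n) :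
    OrthonormalBasis (Fin n) ℝ (EuclideanSpace ℝ T) :=
  (EuclideanSpace.basisFun T ℝ).reindex e

theorem hadamard83 {n : ℕ} (e : T ≃ Fin n) (v : Fin n → EuclideanSpace ℝ T) :
    |(sb83 T e).toBasis.det v| ≤ ∏ i, ‖v i‖ := by
  have : Fact (finrank ℝ (EuclideanSpace ℝ T) = n) :=
    ⟨by rw [finrank_euclideanSpace, Fintype.card_congr e, Fintype.card_fin]⟩
  have h := (sb83 T e).toBasis.orientation.abs_volumeForm_apply_le v
  rwa [Orientation.volumeForm_robust _ (sb83 T e) rfl] at h

theorem det_int83 {n : ℕ} (e : T ≃ Fin n) (v : Fin n → EuclideanSpace ℝ T)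
    (hv : ∀ i, IsInt83 (v i)) : ∃ z : ℤ, (sb83 T e).toBasis.det v = z := by
  classical
  choose z hz using hv
  refine ⟨(Matrix.of fun i j => z j (e.symm i)).det, ?_⟩
  rw [Module.Basis.det_apply, Matrix.det_apply, Matrix.det_apply]
  push_cast
  refine Finset.sum_congr rfl fun σ _ => ?_
  have h1 : ∀ i : Fin n, (sb83 T e).toBasis.toMatrix v (σ i) i = ((z i (e.symm (σ i)) : ℤ) : ℝ) := by
    intro i
    rw [Module.Basis.toMatrix_apply]
    simp [sb83, hz]
  rw [Finset.prod_congr rfl fun i _ => h1 i]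
  simp [Matrix.of_apply, Units.smul_def, zsmul_eq_mul]

theorem prod_sub83 {α : Type*} [DecidableEq α] (s t : Finset α) (hst : s ⊆ t) (P : α → ℝ)
    (hP : ∀ a, 1 ≤ P a) : ∏ a ∈ s, P a ≤ ∏ a ∈ t, P a := by
  rw [← Finset.prod_sdiff hst]
  have h1 : 1 ≤ ∏ a ∈ t \ s, P a := by
    calc (1:ℝ) = ∏ a ∈ t \ s, (1:ℝ) := by simp
      _ ≤ _ := Finset.prod_le_prod (fun _ _ => zero_le_one) (fun a _ => hP a)
  have h2 : 0 ≤ ∏ a ∈ s, P a := Finset.prod_nonneg fun a _ => zero_le_one.trans (hP a)
  nlinarith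

theorem cramer83 {κ : Type*} [Fintype κ] [DecidableEq κ] (R : κ → EuclideanSpace ℝ T)
    (hR : ∀ i, IsInt83 (R i)) (p : κ → ℝ) (hp : ∀ i, ‖R i‖ ≤ p i) (hp1 : ∀ i, 1 ≤ p i)
    (f : EuclideanSpace ℝ T) (hmem : f ∈ Submodule.span ℝ (Set.range R)) :
    ∃ c : κ → ℝ, f = ∑ i, c i • R i ∧ ∀ i, |c i| ≤ ‖f‖ * ∏ j, p j := by
  classical
  set v : κ ⊕ T → EuclideanSpace ℝ T := Sum.elim R (fun t => EuclideanSpace.single t (1:ℝ)) with hv
  obtain ⟨b1, hb1t, -, hb1s, hb1⟩ := exists_linearIndepOn_extension (K := ℝ) (v := v)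
    (s := ∅) (t := Set.range Sum.inl) (linearIndepOn_empty ℝ v) (Set.empty_subset _)
  obtain ⟨b2, -, hb12, hb2s, hb2⟩ := exists_linearIndepOn_extension (K := ℝ) (v := v)
    (s := b1) (t := Set.univ) hb1 (Set.subset_univ _)
  have hspan : ⊤ ≤ Submodule.span ℝ (Set.range fun x : b2 => v x) := by
    have h1 : Submodule.span ℝ (Set.range (EuclideanSpace.basisFun T ℝ).toBasis) = ⊤ :=
      (EuclideanSpace.basisFun T ℝ).toBasis.span_eq
    rw [← h1, Submodule.span_le]
    rintro _ ⟨t, rfl⟩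
    have h2 := hb2s ⟨Sum.inr t, Set.mem_univ _, rfl⟩
    have h3 : Set.range (fun x : b2 => v x) = v '' b2 := by
      rw [Set.image_eq_range]
    rw [h3]
    simpa [v] using h2
  let B : Basis b2 ℝ (EuclideanSpace ℝ T) := Basis.mk hb2 hspan
  have hBv : ∀ x : b2, B x = v x := fun x => Basis.mk_apply hb2 hspan x
  have : Fintype b2 := Fintype.ofFinite b2
  have hcard : Fintype.card b2 = Fintype.card T := by
    have h1 := finrank_eq_card_basis B
    rw [finrank_euclideanSpace] at h1
    exact h1.symm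
  let e : T ≃ Fin (Fintype.card T) := Fintype.equivFin T
  let g : b2 ≃ Fin (Fintype.card T) := Fintype.equivFinOfCardEq hcard
  let C : Basis (Fin (Fintype.card T)) ℝ (EuclideanSpace ℝ T) := B.reindex g
  have hCv : ∀ i, C i = v (g.symm i) := fun i => by simp [C, hBv]
  have hint : ∀ x : κ ⊕ T, IsInt83 (v x) := by
    rintro (i | t)
    · exact hR i
    · intro s
      by_cases hst : s = t
      · exact ⟨1, by simp [v, hst]⟩
      · exact ⟨0, by simp [v, hst]⟩
  set D := (sb83 T e).toBasis.det with hD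
  have hD0 : D C ≠ 0 := by
    have := (sb83 T e).toBasis.isUnit_det C
    exact this.ne_zero
  have hD1 : 1 ≤ |D C| := by
    obtain ⟨z, hz⟩ := det_int83 e C (fun i => by rw [hCv]; exact hint _)
    rw [← hD] at hz
    rw [hz] at hD0 ⊢
    have : z ≠ 0 := by exact_mod_cast hD0
    exact_mod_cast Int.one_le_abs this
  -- coordinates of f
  have hcoef : ∀ i, |C.repr f i| ≤ ‖f‖ * ∏ j ∈ univ.erase i, ‖C j‖ := by
    intro i
    have h1 : D (Function.update C i f) = C.repr f i * D C := by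
      conv_lhs => rw [← C.sum_repr f]
      rw [AlternatingMap.map_update_sum]
      rw [Finset.sum_eq_single i]
      · rw [AlternatingMap.map_update_smul, Function.update_eq_self, smul_eq_mul]
      · intro j _ hj
        rw [AlternatingMap.map_update_smul, AlternatingMap.map_update_self _ _ (Ne.symm hj), smul_zero]
      · intro h; exact absurd (mem_univ _) h
    have h2 := hadamard83 e (Function.update C i f)
    rw [← hD, h1, abs_mul] at h2
    have h3 : ∏ j, ‖Function.update (⇑C) i f j‖ = ‖f‖ * ∏ j ∈ univ.erase i, ‖C j‖ := by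
      rw [← Finset.mul_prod_erase univ _ (mem_univ i), Function.update_self]
      congr 1
      refine Finset.prod_congr rfl fun j hj => ?_
      rw [Function.update_of_ne (Finset.ne_of_mem_erase hj)]
    rw [h3] at h2
    calc |C.repr f i| = |C.repr f i| * 1 := (mul_one _).symm
      _ ≤ |C.repr f i| * |D C| := mul_le_mul_of_nonneg_left hD1 (abs_nonneg _)
      _ ≤ _ := h2
  have hcoefB : ∀ x : b2, |B.repr f x| ≤ ‖f‖ * ∏ j, p j := by
    intro x
    have h1 := hcoef (g x)
    have h2 : C.repr f (g x) = B.repr f x := by simp [C]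
    rw [h2] at h1
    refine h1.trans (mul_le_mul_of_nonneg_left ?_ (norm_nonneg _))
    set P : κ ⊕ T → ℝ := Sum.elim p (fun _ => 1) with hP
    have hP1 : ∀ z, 1 ≤ P z := by
      rintro (i | t)
      · exact hp1 i
      · exact le_refl _
    have hvP : ∀ z, ‖v z‖ ≤ P z := by
      rintro (i | t)
      · exact hp i
      · simp [v, P]
    calc ∏ j ∈ univ.erase (g x), ‖C j‖ ≤ ∏ j ∈ univ.erase (g x), P (g.symm j) := by
          refine Finset.prod_le_prod (fun _ _ => norm_nonneg _) fun j _ => ?_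
          rw [hCv]; exact hvP _
      _ ≤ ∏ j, P (g.symm j) :=
          prod_sub83 _ _ (Finset.erase_subset _ _) (fun j => P (g.symm j)) (fun j => hP1 _)
      _ = ∏ y : b2, P y := Equiv.prod_comp g.symm (fun y : b2 => P y)
      _ = ∏ y ∈ b2.toFinset, P y := by
          rw [← Finset.prod_coe_sort b2.toFinset P]
          refine Fintype.prod_equiv (Equiv.setCongr (by simp)) _ _ fun _ => rfl
      _ ≤ ∏ y, P y :=
          prod_sub83 _ _ (Finset.subset_univ _) P hP1
      _ = ∏ j, p j := by simp [P, Fintype.prod_sum_type]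
  have hzero : ∀ x : b2, (x : κ ⊕ T) ∉ b1 → B.repr f x = 0 := by
    intro x hx
    have h1 : f ∈ Submodule.span ℝ (B '' {y : b2 | (y : κ ⊕ T) ∈ b1}) := by
      have h2 : Submodule.span ℝ (Set.range R) ≤ Submodule.span ℝ (v '' b1) := by
        rw [Submodule.span_le]
        rintro _ ⟨i, rfl⟩
        exact hb1s ⟨Sum.inl i, ⟨i, rfl⟩, rfl⟩
      have h3 : v '' b1 ⊆ B '' {y : b2 | (y : κ ⊕ T) ∈ b1} := by
        rintro _ ⟨z, hz, rfl⟩
        exact ⟨⟨z, hb12 hz⟩, hz, hBv _⟩
      exact Submodule.span_mono h3 (h2 hmem)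
    rw [Basis.mem_span_image] at h1
    by_contra h
    exact hx (h1 (Finsupp.mem_support_iff.mpr h))
  refine ⟨fun i => if h : Sum.inl i ∈ b2 then B.repr f ⟨Sum.inl i, h⟩ else 0, ?_, ?_⟩
  · conv_lhs => rw [← B.sum_repr f]
    have h1 : ∑ x : b2, B.repr f x • B x =
        ∑ z : κ ⊕ T, (if h : z ∈ b2 then B.repr f ⟨z, h⟩ else 0) • v z := by
      rw [← Finset.sum_subset (Finset.subset_univ b2.toFinset)]
      · rw [← Finset.sum_coe_sort b2.toFinset]
        refine Fintype.sum_equiv (Equiv.setCongr (by simp)) _ _ fun x => ?_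
        have hx : (((Equiv.setCongr (by simp)) x : {z // z ∈ b2.toFinset}) : κ ⊕ T) ∈ b2 := x.2
        rw [dif_pos hx, hBv]
        rfl
      · intro z _ hz
        have : z ∉ b2 := fun h => hz (by simpa using h)
        simp [this]
    rw [h1, Fintype.sum_sum_type]
    have h2 : ∀ t : T, (if h : Sum.inr t ∈ b2 then B.repr f ⟨Sum.inr t, h⟩ else 0) •
        v (Sum.inr t) = 0 := by
      intro t
      split_ifs with h
      · rw [hzero ⟨Sum.inr t, h⟩, zero_smul]
        intro h3
        obtain ⟨i, hi⟩ := hb1t h3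
        exact absurd hi (by simp)
      · rw [zero_smul]
    rw [Finset.sum_congr rfl fun t _ => h2 t, Finset.sum_const_zero, add_zero]
    rfl
  · intro i
    dsimp only
    split_ifs with h
    · exact hcoefB _
    · rw [abs_zero]
      exact mul_nonneg (norm_nonneg _) (Finset.prod_nonneg fun j _ => zero_le_one.trans (hp1 j))

/-- the unit vector of a label -/
noncomputable def uv83 (l : T) : EuclideanSpace ℝ T := EuclideanSpace.single l (1:ℝ)

theorem uv_norm83 (l : T) : ‖uv83 l‖ = 1 := by simp [uv83]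

theorem uv_inner83 (l : T) (v : EuclideanSpace ℝ T) : inner ℝ (uv83 l) v = v l := by
  simp [uv83, EuclideanSpace.inner_single_left]

theorem uv_apply83 (l t : T) : uv83 l t = if t = l then (1:ℝ) else 0 := by
  simp [uv83]

theorem uv_int83 (l : T) : IsInt83 (uv83 l) := by
  intro t
  rw [uv_apply83]
  split_ifs
  · exact ⟨1, by simp⟩
  · exact ⟨0, by simp⟩

theorem row_norm83 (a b c d : T) : ‖uv83 a + uv83 b - uv83 c - uv83 d‖ ≤ √8 := by
  refine Real.le_sqrt_of_sq_le ?_
  rw [← real_inner_self_eq_norm_sq]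
  simp only [inner_sub_left, inner_add_left, uv_inner83, PiLp.sub_apply, PiLp.add_apply,
    uv_apply83]
  have key : ∀ l l' : T, (0:ℝ) ≤ (if l = l' then (1:ℝ) else 0) ∧
      (if l = l' then (1:ℝ) else 0) ≤ 1 := by
    intro l l'; split_ifs <;> norm_num
  have kab := key a b
  have kba := key b a
  have kcd := key c d
  have kdc := key d c
  have kac := key a c
  have kca := key c a
  have kad := key a d
  have kda := key d a
  have kbc := key b c
  have kcb := key c b
  have kbd := key b d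
  have kdb := key d b
  simp only [if_true]
  linarith [kab.2, kba.2, kcd.2, kdc.2, kac.1, kca.1, kad.1, kda.1, kbc.1, kcb.1, kbd.1, kdb.1]

theorem dif_norm83 (x y : T) : ‖uv83 x - uv83 y‖ ≤ √2 := by
  refine Real.le_sqrt_of_sq_le ?_
  rw [← real_inner_self_eq_norm_sq]
  simp only [inner_sub_left, uv_inner83, PiLp.sub_apply, uv_apply83]
  by_cases hxy : x = y
  · simp [hxy]
  · simp only [if_true, hxy, Ne.symm hxy, if_false]; norm_num

theorem boundFin83 {N : ℕ} (q : Fin N → Fin 4 → T) (S : Finset T) (x y : T)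
    (h : ∀ w : T → ℝ, (∀ j, w (q j 0) + w (q j 1) = w (q j 2) + w (q j 3)) →
      (∀ e ∈ S, w e = 0) → w x = w y)
    (w : T → ℝ) (hw : ∀ j, w (q j 0) + w (q j 1) = w (q j 2) + w (q j 3)) :
    |w x - w y| ≤ √2 * √8 ^ N * ∑ e ∈ S, |w e| := by
  let R : Fin N ⊕ S → EuclideanSpace ℝ T := Sum.elim
    (fun j => uv83 (q j 0) + uv83 (q j 1) - uv83 (q j 2) - uv83 (q j 3))
    (fun e => uv83 (e : T))
  let p : Fin N ⊕ S → ℝ := Sum.elim (fun _ => √8) (fun _ => 1)
  have h81 : (1:ℝ) ≤ √8 := by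
    rw [Real.one_le_sqrt]; norm_num
  have hRint : ∀ i, IsInt83 (R i) := by
    rintro (j | e)
    · intro t
      obtain ⟨a, ha⟩ := uv_int83 (q j 0) t
      obtain ⟨b, hb⟩ := uv_int83 (q j 1) t
      obtain ⟨c, hc⟩ := uv_int83 (q j 2) t
      obtain ⟨d, hd⟩ := uv_int83 (q j 3) t
      refine ⟨a + b - c - d, ?_⟩
      simp only [R, Sum.elim_inl, PiLp.sub_apply, PiLp.add_apply, ha, hb, hc, hd]
      push_cast; ring
    · exact uv_int83 _
  have hRn : ∀ i, ‖R i‖ ≤ p i := by
    rintro (j | e)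
    · exact row_norm83 _ _ _ _
    · exact (uv_norm83 _).le
  have hp1 : ∀ i, 1 ≤ p i := by
    rintro (j | e)
    · exact h81
    · exact le_refl _
  let f : EuclideanSpace ℝ T := uv83 x - uv83 y
  have hmem : f ∈ Submodule.span ℝ (Set.range R) := by
    rw [← Submodule.orthogonal_orthogonal (Submodule.span ℝ (Set.range R))]
    rw [Submodule.mem_orthogonal]
    intro v hv
    rw [Submodule.mem_orthogonal] at hv
    have hv' : ∀ i, inner ℝ (R i) v = 0 := fun i => hv _ (Submodule.subset_span ⟨i, rfl⟩)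
    have h1 : v x = v y := by
      refine h v (fun j => ?_) fun e he => ?_
      · have h2 := hv' (Sum.inl j)
        simp only [R, Sum.elim_inl, inner_sub_left, inner_add_left, uv_inner83] at h2
        linarith
      · have h2 := hv' (Sum.inr ⟨e, he⟩)
        simp only [R, Sum.elim_inr, uv_inner83] at h2
        exact h2
    rw [real_inner_comm]
    simp only [f, inner_sub_left, uv_inner83]
    linarith
  obtain ⟨c, hc, hcb⟩ := cramer83 R hRint p hRn hp1 f hmem
  have hprod : ∏ j, p j = √8 ^ N := by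
    simp [p, Fintype.prod_sum_type]
  have hcb' : ∀ i, |c i| ≤ √2 * √8 ^ N := fun i => by
    refine (hcb i).trans ?_
    rw [hprod]
    exact mul_le_mul_of_nonneg_right (dif_norm83 x y) (pow_nonneg (Real.sqrt_nonneg _) _)
  let v : EuclideanSpace ℝ T := WithLp.toLp 2 w
  have hvl : ∀ l, v l = w l := fun l => rfl
  have h2 : w x - w y = ∑ i, c i * inner ℝ (R i) v := by
    have h3 : inner ℝ f v = w x - w y := by
      simp only [f, inner_sub_left, uv_inner83, hvl]
    rw [← h3, hc, sum_inner]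
    exact Finset.sum_congr rfl fun i _ => by rw [real_inner_smul_left]
  have h3 : ∑ i, c i * inner ℝ (R i) v = ∑ e : S, c (Sum.inr e) * w e := by
    rw [Fintype.sum_sum_type]
    have h4 : ∀ j : Fin N, c (Sum.inl j) * inner ℝ (R (Sum.inl j)) v = 0 := by
      intro j
      simp only [R, Sum.elim_inl, inner_sub_left, inner_add_left, uv_inner83, hvl]
      rw [show w (q j 0) + w (q j 1) - w (q j 2) - w (q j 3) = 0 by linarith [hw j], mul_zero]
    rw [Finset.sum_congr rfl fun j _ => h4 j, Finset.sum_const_zero, zero_add]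
    refine Finset.sum_congr rfl fun e _ => ?_
    simp only [R, Sum.elim_inr, uv_inner83, hvl]
  rw [h2, h3, Finset.mul_sum, ← Finset.sum_coe_sort S]
  refine (Finset.abs_sum_le_sum_abs _ _).trans (Finset.sum_le_sum fun e _ => ?_)
  rw [abs_mul]
  exact mul_le_mul_of_nonneg_right (hcb' _) (abs_nonneg _)

/-- **The Cramer-Hadamard bound.** If the equations `w(q0) + w(q1) = w(q2) + w(q3)` (`N` of them)
and `w = 0` on `S` imply `w x = w y`, then on all solutions
`|w x - w y| ≤ √2 √8^N Σ_S |w|`. -/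
theorem bound83 {ι : Type*} {N : ℕ} (q : Fin N → Fin 4 → ι) (S : Finset ι) (x y : ι)
    (h : ∀ w : ι → ℝ, (∀ j, w (q j 0) + w (q j 1) = w (q j 2) + w (q j 3)) →
      (∀ e ∈ S, w e = 0) → w x = w y)
    (w : ι → ℝ) (hw : ∀ j, w (q j 0) + w (q j 1) = w (q j 2) + w (q j 3)) :
    |w x - w y| ≤ √2 * √8 ^ N * ∑ e ∈ S, |w e| := by
  classical
  let U : Finset ι := (univ.biUnion fun j : Fin N => univ.image (q j)) ∪ S ∪ {x, y}
  have hqU : ∀ j k, q j k ∈ U := fun j k => by
    simp only [U, mem_union, mem_biUnion, mem_image, mem_univ, true_and]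
    exact Or.inl (Or.inl ⟨j, k, rfl⟩)
  have hSU : ∀ e ∈ S, e ∈ U := fun e he => by
    simp only [U, mem_union]; exact Or.inl (Or.inr he)
  have hxU : x ∈ U := by simp [U]
  have hyU : y ∈ U := by simp [U]
  have h1 := boundFin83 (T := U) (fun j k => ⟨q j k, hqU j k⟩)
    (S.attach.image fun e => (⟨e.1, hSU e.1 e.2⟩ : U)) ⟨x, hxU⟩ ⟨y, hyU⟩ ?_
    (fun l => w l) (fun j => hw j)
  · refine h1.trans (le_of_eq ?_)
    congr 1
    rw [Finset.sum_image]
    · exact Finset.sum_attach S fun e => |w e|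
    · intro a _ b _ hab
      exact Subtype.ext (Subtype.mk.inj hab)
  · intro v hv hv0
    let w' : ι → ℝ := fun l => if hl : l ∈ U then v ⟨l, hl⟩ else 0
    have hw' : ∀ l (hl : l ∈ U), w' l = v ⟨l, hl⟩ := fun l hl => dif_pos hl
    have h2 := h w' (fun j => ?_) fun e he => ?_
    · rw [hw' _ hxU, hw' _ hyU] at h2
      exact h2
    · rw [hw' _ (hqU j 0), hw' _ (hqU j 1), hw' _ (hqU j 2), hw' _ (hqU j 3)]
      exact hv j
    · rw [hw' _ (hSU e he)]
      exact hv0 _ (mem_image.mpr ⟨⟨e, he⟩, mem_attach _ _, rfl⟩)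

end Pool.Agent.Lib.MP_e3aa0a_gt.FVL
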