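import Pool.Agent.Lib.FVol.Bar

/-!
# FVL, module Stk83: the tropical 2-form and its Stokes formula
-/

set_option autoImplicit false

namespace Pool.Agent.Lib.MP_e3aa0a_gt.FVL

open Pool.Agent.Lib.FVol

variable {Γ : Type*} [Group Γ]

/-- `a ∧ b` for the pair of label functions `w, w'` -/
def wdg (w w' : Γ → ℝ) (a b : Γ) : ℝ := w a * w' b - w' a * w b

/-- the 2-form on the triangle `[a|b]` with edges `a, b, ab` -/
def omT (w w' : Γ → ℝ) (a b : Γ) : ℝ :=
  wdg w w' a b + wdg w w' b (a * b) + wdg w w' (a * b) a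

/-- the 2-form on 2-chains -/
noncomputable def om (w w' : Γ → ℝ) : C2 Γ →ₗ[ℤ] ℝ :=
  Finsupp.linearCombination ℤ (fun x : Γ × Γ => omT w w' x.1 x.2)

theorem om_e2 (w w' : Γ → ℝ) (a b : Γ) : om w w' (e2 a b) = omT w w' a b := by
  simp [om, e2, Finsupp.linearCombination_single]

/-- the three sums of opposite edges of the simplex `[a|b|c]` -/
def opp (w : Γ → ℝ) (x : Γ × Γ × Γ) : Fin 3 → ℝ
  | 0 => w x.1 + w x.2.2
  | 1 => w (x.1 * x.2.1) + w (x.2.1 * x.2.2)
  | 2 => w (x.1 * x.2.1 * x.2.2) + w x.2.1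

/-- the pairs of opposite edges -/
def oppE (x : Γ × Γ × Γ) : Fin 3 → Fin 2 → Γ
  | 0 => ![x.1, x.2.2]
  | 1 => ![x.1 * x.2.1, x.2.1 * x.2.2]
  | 2 => ![x.1 * x.2.1 * x.2.2, x.2.1]

theorem opp_eq (w : Γ → ℝ) (x : Γ × Γ × Γ) (i : Fin 3) :
    opp w x i = w (oppE x i 0) + w (oppE x i 1) := by
  fin_cases i <;> simp [opp, oppE]

/-- the chosen equality of a simplex: all sums of opposite edges except the one numbered `k` are
equal -/
def Rl (w : Γ → ℝ) (k : Fin 3) (x : Γ × Γ × Γ) : Prop := opp w x (k + 1) = opp w x (k + 2)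

theorem omT_stokes (w w' : Γ → ℝ) (a b c : Γ) :
    omT w w' b c - omT w w' (a * b) c + omT w w' a (b * c) - omT w w' a b =
      (opp w (a, b, c) 0 * opp w' (a, b, c) 1 - opp w' (a, b, c) 0 * opp w (a, b, c) 1) +
      (opp w (a, b, c) 1 * opp w' (a, b, c) 2 - opp w' (a, b, c) 1 * opp w (a, b, c) 2) +
      (opp w (a, b, c) 2 * opp w' (a, b, c) 0 - opp w' (a, b, c) 2 * opp w (a, b, c) 0) := by
  simp only [omT, wdg, opp, mul_assoc a b c]
  ring

theorem omT_stokes_zero {w w' : Γ → ℝ} {a b c : Γ} {k : Fin 3} (h : Rl w k (a, b, c))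
    (h' : Rl w' k (a, b, c)) :
    omT w w' b c - omT w w' (a * b) c + omT w w' a (b * c) - omT w w' a b = 0 := by
  rw [omT_stokes]
  fin_cases k
  · have e1 : opp w (a, b, c) 1 = opp w (a, b, c) 2 := h
    have e2 : opp w' (a, b, c) 1 = opp w' (a, b, c) 2 := h'
    rw [e1, e2]; ring
  · have e1 : opp w (a, b, c) 2 = opp w (a, b, c) 0 := h
    have e2 : opp w' (a, b, c) 2 = opp w' (a, b, c) 0 := h'
    rw [e1, e2]; ring
  · have e1 : opp w (a, b, c) 0 = opp w (a, b, c) 1 := h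
    have e2 : opp w' (a, b, c) 0 = opp w' (a, b, c) 1 := h'
    rw [e1, e2]; ring

/-- **Stokes**: the 2-form vanishes on boundaries of chains all of whose simplices satisfy the
chosen equalities -/
theorem om_bd (b : C3 Γ) (κ : Γ × Γ × Γ → Fin 3) {w w' : Γ → ℝ}
    (h : ∀ x ∈ b.support, Rl w (κ x) x) (h' : ∀ x ∈ b.support, Rl w' (κ x) x) :
    om w w' (bd Γ b) = 0 := by
  rw [bd, Finsupp.linearCombination_apply, Finsupp.sum, map_sum]
  refine Finset.sum_eq_zero fun x hx => ?_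
  rw [map_zsmul, map_sub, map_add, map_sub, om_e2, om_e2, om_e2, om_e2]
  rw [omT_stokes_zero (h x hx) (h' x hx), smul_zero]

/-- degenerate triangles -/
theorem omT_inv {w w' : Γ → ℝ} {a : Γ} (h : w a⁻¹ = w a) (h' : w' a⁻¹ = w' a) :
    omT w w' a a⁻¹ = 0 := by
  simp only [omT, wdg, mul_inv_cancel, h, h']
  ring

theorem omT_one_one (w w' : Γ → ℝ) : omT w w' 1 1 = 0 := by
  simp only [omT, wdg, mul_one]
  ring

theorem omT_one_left (w w' : Γ → ℝ) (a : Γ) : omT w w' 1 a = 0 := by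
  simp only [omT, wdg, one_mul]
  ring

theorem omT_one_right (w w' : Γ → ℝ) (a : Γ) : omT w w' a 1 = 0 := by
  simp only [omT, wdg, mul_one]
  ring

/-- label functions composed with a homomorphism -/
theorem omT_comp {Δ : Type*} [Group Δ] (f : Δ →* Γ) (w w' : Γ → ℝ) (a b : Δ) :
    omT (w ∘ f) (w' ∘ f) a b = omT w w' (f a) (f b) := by
  simp [omT, wdg]

/-- `om` of a chain pushed forward -/
theorem om_sum (w w' : Γ → ℝ) (c : C2 Γ) :
    om w w' c = c.sum fun x n => (n : ℝ) * omT w w' x.1 x.2 := by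
  rw [om, Finsupp.linearCombination_apply]
  exact Finsupp.sum_congr fun x _ => by rw [zsmul_eq_mul]

end Pool.Agent.Lib.MP_e3aa0a_gt.FVL
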