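import Pool.Agent.Lib.FVol.Cycle
import Pool.Agent.Lib.FVol.Gauge
import Pool.Agent.Lib.MP_e3aa0a_gt.FVL.Stk83
import Pool.Agent.Lib.MP_e3aa0a_gt.FVL.Lin83

/-!
# FVL, module Glu83: conjugation homotopy, the system of equations of a filling
-/

set_option autoImplicit false

namespace Pool.Agent.Lib.MP_e3aa0a_gt.FVL

open Pool.Agent.Lib.FVol

variable {Γ : Type*} [Group Γ]

/-- conjugation `x ↦ γ⁻¹ x γ` -/
def cj (γ : Γ) : Γ →* Γ := (MulAut.conj γ⁻¹).toMonoidHom

theorem cj_apply (γ x : Γ) : cj γ x = γ⁻¹ * x * γ := by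
  simp [cj, MulAut.conj_apply]

/-- the homotopy between a chain and its conjugate -/
noncomputable def hcj (γ : Γ) : C2 Γ →ₗ[ℤ] C3 Γ :=
  Finsupp.linearCombination ℤ (fun x : Γ × Γ =>
    e3 γ (cj γ x.1) (cj γ x.2) - e3 x.1 γ (cj γ x.2) + e3 x.1 x.2 γ)

theorem hcj_e2 (γ a b : Γ) :
    hcj γ (e2 a b) = e3 γ (cj γ a) (cj γ b) - e3 a γ (cj γ b) + e3 a b γ := by
  simp [hcj, e2, Finsupp.linearCombination_single]

/-- the prism over an edge, as a linear map on 1-chains -/
noncomputable def pcj (γ : Γ) : (Γ →₀ ℤ) →ₗ[ℤ] C2 Γ :=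
  Finsupp.linearCombination ℤ (fun x : Γ => e2 γ (cj γ x) - e2 x γ)

theorem pcj_single (γ x : Γ) : pcj γ (Finsupp.single x 1) = e2 γ (cj γ x) - e2 x γ := by
  simp [pcj, Finsupp.linearCombination_single]

theorem bd_hcj_e2 (γ a b : Γ) :
    bd Γ (hcj γ (e2 a b)) = push (cj γ) (e2 a b) - e2 a b - pcj γ (bd2 Γ (e2 a b)) := by
  rw [hcj_e2, map_add, map_sub, bd_e3, bd_e3, bd_e3, bd2_e2, map_add, map_sub, pcj_single,
    pcj_single, pcj_single, push_e2, map_mul]
  have h1 : γ * cj γ a = a * γ := by rw [cj_apply]; group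
  have h2 : γ * cj γ b = b * γ := by rw [cj_apply]; group
  rw [h1, h2]
  abel

/-- the action of a homomorphism, as a linear map -/
theorem push_linear (φ : Γ →* Γ) (c : C2 Γ) :
    push φ c = Finsupp.linearCombination ℤ (fun x : Γ × Γ => push φ (e2 x.1 x.2)) c := by
  induction c using Finsupp.induction_linear with
  | zero => simp [push_zero]
  | add c c' h h' => rw [push_add, map_add, h, h']
  | single x n =>
    have h1 : (Finsupp.single x n : C2 Γ) = n • e2 x.1 x.2 := by simp [e2]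
    rw [h1, push_zsmul, map_zsmul]
    simp [e2, Finsupp.linearCombination_single]

theorem bd_hcj (γ : Γ) (c : C2 Γ) :
    bd Γ (hcj γ c) = push (cj γ) c - c - pcj γ (bd2 Γ c) := by
  induction c using Finsupp.induction_linear with
  | zero => simp [push_zero]
  | add c c' h h' => rw [map_add, map_add, h, h', push_add, map_add, map_add]; abel
  | single x n =>
    have h1 : (Finsupp.single x n : C2 Γ) = n • e2 x.1 x.2 := by simp [e2]
    rw [h1, map_zsmul, map_zsmul, bd_hcj_e2, push_zsmul, map_zsmul, map_zsmul]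
    simp only [smul_sub]

theorem nrm_smul_le {X : Type*} (n : ℤ) (c : X →₀ ℤ) : nrm (n • c) ≤ n.natAbs * nrm c := by
  classical
  rw [nrm_eq (n • c) c.support Finsupp.support_smul, nrm_eq c c.support (le_refl _),
    Finset.mul_sum]
  exact Finset.sum_le_sum fun x _ => by
    rw [Finsupp.smul_apply, smul_eq_mul, Int.natAbs_mul]

theorem nrm_hcj_le (γ : Γ) (c : C2 Γ) : nrm (hcj γ c) ≤ 3 * nrm c := by
  classical
  have h0 : ∀ x : Γ × Γ, nrm (hcj γ (e2 x.1 x.2)) ≤ 3 := by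
    intro x
    rw [hcj_e2, sub_eq_add_neg]
    have h1 := nrm_add_le (e3 γ (cj γ x.1) (cj γ x.2) + -e3 x.1 γ (cj γ x.2)) (e3 x.1 x.2 γ)
    have h2 := nrm_add_le (e3 γ (cj γ x.1) (cj γ x.2)) (-e3 x.1 γ (cj γ x.2))
    have h3 : nrm (e3 γ (cj γ x.1) (cj γ x.2)) = 1 := by rw [e3, nrm_single]; rfl
    have h4 : nrm (-e3 x.1 γ (cj γ x.2)) = 1 := by rw [nrm_neg, e3, nrm_single]; rfl
    have h5 : nrm (e3 x.1 x.2 γ) = 1 := by rw [e3, nrm_single]; rfl
    omega
  have h1 : hcj γ c = ∑ x ∈ c.support, c x • hcj γ (e2 x.1 x.2) := by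
    conv_lhs => rw [hcj, Finsupp.linearCombination_apply, Finsupp.sum]
    exact Finset.sum_congr rfl fun x _ => by rw [hcj_e2]
  rw [h1, nrm_eq c c.support (le_refl _), Finset.mul_sum]
  have h2 : ∀ s : Finset (Γ × Γ), nrm (∑ x ∈ s, c x • hcj γ (e2 x.1 x.2)) ≤
      ∑ x ∈ s, 3 * (c x).natAbs := by
    intro s
    induction s using Finset.induction_on with
    | empty => simp
    | insert a s ha ih =>
      rw [Finset.sum_insert ha, Finset.sum_insert ha]
      refine (nrm_add_le _ _).trans (add_le_add ?_ ih)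
      refine (nrm_smul_le _ _).trans ?_
      rw [mul_comm]
      exact Nat.mul_le_mul_right _ (h0 a)
  exact h2 _

/-- the conjugate of a cycle is homologous to it, at cost `3 |z|` -/
theorem fil_cj (γ : Γ) (z : C2 Γ) (hz : bd2 Γ z = 0) :
    ∃ b : C3 Γ, bd Γ b = push (cj γ) z - z ∧ nrm b ≤ 3 * nrm z :=
  ⟨hcj γ z, by rw [bd_hcj, hz, map_zero, sub_zero], nrm_hcj_le γ z⟩

theorem card_support_le_nrm {X : Type*} (c : X →₀ ℤ) : c.support.card ≤ nrm c := by
  rw [nrm_eq c c.support (le_refl _), Finset.card_eq_sum_ones]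
  refine Finset.sum_le_sum fun x hx => ?_
  have := Finsupp.mem_support_iff.mp hx
  omega

/-- `bound83` with an arbitrary finite index type -/
theorem boundJ83 {ι J : Type*} [Fintype J] (q : J → Fin 4 → ι) (S : Finset ι) (x y : ι)
    (h : ∀ w : ι → ℝ, (∀ j, w (q j 0) + w (q j 1) = w (q j 2) + w (q j 3)) →
      (∀ e ∈ S, w e = 0) → w x = w y)
    (w : ι → ℝ) (hw : ∀ j, w (q j 0) + w (q j 1) = w (q j 2) + w (q j 3)) :
    |w x - w y| ≤ √2 * √8 ^ (Fintype.card J) * ∑ e ∈ S, |w e| := by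
  classical
  let g := (Fintype.equivFin J).symm
  refine bound83 (fun j => q (g j)) S x y (fun w' h1 h2 => h w' (fun j => ?_) h2) w
    (fun j => hw (g j))
  have := h1 (g.symm j)
  simpa using this

/-- the label functions which satisfy the chosen equalities of all simplices of `b` and do not
distinguish the letters in `I` from their inverses -/
def Adm (b : C3 Γ) (κ : Γ × Γ × Γ → Fin 3) (I : Finset Γ) (w : Γ → ℝ) : Prop :=
  (∀ x ∈ b.support, Rl w (κ x) x) ∧ ∀ g ∈ I, w g⁻¹ = w g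

theorem opp_linear (x : Γ × Γ × Γ) (i : Fin 3) (c : ℝ) (w w' : Γ → ℝ) :
    opp (w + c • w') x i = opp w x i + c * opp w' x i := by
  simp only [opp_eq, Pi.add_apply, Pi.smul_apply, smul_eq_mul]
  ring

/-- the space of admissible label functions -/
def AdmS (b : C3 Γ) (κ : Γ × Γ × Γ → Fin 3) (I : Finset Γ) : Submodule ℝ (Γ → ℝ) where
  carrier := {w | Adm b κ I w}
  add_mem' := by
    intro w w' h h'
    refine ⟨fun x hx => ?_, fun g hg => ?_⟩
    · have h1 := h.1 x hx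
      have h2 := h'.1 x hx
      simp only [Rl] at h1 h2 ⊢
      have h3 := opp_linear x (κ x + 1) 1 w w'
      have h4 := opp_linear x (κ x + 2) 1 w w'
      simp only [one_smul, one_mul] at h3 h4
      rw [h3, h4, h1, h2]
    · simp only [Pi.add_apply, h.2 g hg, h'.2 g hg]
  zero_mem' := by
    refine ⟨fun x _ => ?_, fun g _ => rfl⟩
    simp [Rl, opp_eq]
  smul_mem' := by
    intro c w h
    refine ⟨fun x hx => ?_, fun g hg => ?_⟩
    · have h1 := h.1 x hx
      simp only [Rl] at h1 ⊢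
      have h3 := opp_linear x (κ x + 1) c 0 w
      have h4 := opp_linear x (κ x + 2) c 0 w
      simp only [zero_add] at h3 h4
      rw [h3, h4, h1]
      simp [opp_eq]
    · simp only [Pi.smul_apply, h.2 g hg]

theorem mem_AdmS {b : C3 Γ} {κ : Γ × Γ × Γ → Fin 3} {I : Finset Γ} {w : Γ → ℝ} :
    w ∈ AdmS b κ I ↔ Adm b κ I w := Iff.rfl

/-- the four labels of the chosen equality -/
def qlab (x : Γ × Γ × Γ) (k : Fin 3) : Fin 4 → Γ :=
  ![oppE x (k + 1) 0, oppE x (k + 1) 1, oppE x (k + 2) 0, oppE x (k + 2) 1]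

theorem rl_iff (w : Γ → ℝ) (k : Fin 3) (x : Γ × Γ × Γ) :
    Rl w k x ↔ w (qlab x k 0) + w (qlab x k 1) = w (qlab x k 2) + w (qlab x k 3) := by
  rw [Rl, opp_eq, opp_eq]
  simp [qlab]

/-- **The bound for admissible label functions.** -/
theorem adm_bound (b : C3 Γ) (κ : Γ × Γ × Γ → Fin 3) (I S : Finset Γ) (x y : Γ)
    (h : ∀ w, Adm b κ I w → (∀ e ∈ S, w e = 0) → w x = w y) (w : Γ → ℝ) (hw : Adm b κ I w) :
    |w x - w y| ≤ √2 * √8 ^ (nrm b + I.card) * ∑ e ∈ S, |w e| := by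
  classical
  let J := b.support ⊕ I
  let q : J → Fin 4 → Γ := Sum.elim (fun s => qlab s.1 (κ s.1))
    (fun g => ![g.1⁻¹, 1, g.1, 1])
  have hq : ∀ v : Γ → ℝ, (∀ j, v (q j 0) + v (q j 1) = v (q j 2) + v (q j 3)) ↔ Adm b κ I v := by
    intro v
    constructor
    · intro h1
      refine ⟨fun s hs => ?_, fun g hg => ?_⟩
      · rw [rl_iff]
        exact h1 (Sum.inl ⟨s, hs⟩)
      · have h2 := h1 (Sum.inr ⟨g, hg⟩)
        simp [q] at h2
        exact h2
    · rintro ⟨h1, h2⟩ (s | g)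
      · exact (rl_iff _ _ _).mp (h1 s.1 s.2)
      · have h3 := h2 g.1 g.2
        simp [q, h3]
  have h1 := boundJ83 q S x y (fun v hv => h v ((hq v).mp hv)) w ((hq w).mpr hw)
  refine h1.trans ?_
  have h8 : (1:ℝ) ≤ √8 := by
    rw [Real.one_le_sqrt]; norm_num
  have hc : Fintype.card J ≤ nrm b + I.card := by
    simp only [J, Fintype.card_sum, Fintype.card_coe]
    exact Nat.add_le_add_right (card_support_le_nrm b) _
  refine mul_le_mul_of_nonneg_right ?_ (Finset.sum_nonneg fun _ _ => abs_nonneg _)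
  exact mul_le_mul_of_nonneg_left (pow_le_pow_right₀ h8 hc) (Real.sqrt_nonneg _)

/-- isotropy: bottom and top have the same 2-form on admissible label functions -/
theorem adm_isotropic {b : C3 Γ} {κ : Γ × Γ × Γ → Fin 3} {I : Finset Γ} {z0 z1 : C2 Γ}
    (hb : bd Γ b = z1 - z0) {w w' : Γ → ℝ} (hw : Adm b κ I w) (hw' : Adm b κ I w') :
    om w w' z1 = om w w' z0 := by
  have h1 := om_bd b κ hw.1 hw'.1
  rw [hb, map_sub] at h1
  linarith

end Pool.Agent.Lib.MP_e3aa0a_gt.FVL
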