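import Pool.Agent.Lib.FVol.Fek
import Pool.Agent.Lib.FVol.Cycle
import Pool.Agent.Lib.MP_e3aa0a_gt.FVL.Glu83

/-!
# FVL, module FV16: formal properties of the filling volume

`hfill θ z` is the least norm of a 3-chain with boundary `θ z - z`, `FV φ z` the limit of
`hfill (φ^k) z / k`.
-/

set_option autoImplicit false

namespace Pool.Agent.Lib.MP_e3aa0a_gt.FVL

open Pool.Agent.Lib.FVol Filter Topology

variable {G : Type*} [Group G]

/-- `c` is a boundary -/
def IsB (c : C2 G) : Prop := ∃ b : C3 G, bd G b = c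

/-- the least norm of a 3-chain with boundary `θ z - z` -/
noncomputable def hfill (θ : G →* G) (z : C2 G) : ℕ := fill (push θ z - z)

/-! ### boundaries and `fill` -/

theorem Fil.isB16 {r : ℝ} {c : C2 G} (h : Fil r c) : IsB c := by
  obtain ⟨b, h1, -⟩ := h
  exact ⟨b, h1⟩

theorem IsB.fil {c : C2 G} (h : IsB c) : Fil (fill c : ℝ) c := by
  obtain ⟨b, h1⟩ := h
  exact fil_fill (r := (nrm b : ℝ)) ⟨b, h1, le_rfl⟩

theorem isB_zero16 : IsB (0 : C2 G) := ⟨0, map_zero _⟩

theorem IsB.add {c c' : C2 G} (h : IsB c) (h' : IsB c') : IsB (c + c') := by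
  obtain ⟨b, h⟩ := h
  obtain ⟨b', h'⟩ := h'
  exact ⟨b + b', by rw [map_add, h, h']⟩

theorem IsB.neg {c : C2 G} (h : IsB c) : IsB (-c) := by
  obtain ⟨b, h⟩ := h
  exact ⟨-b, by rw [map_neg, h]⟩

theorem IsB.sub {c c' : C2 G} (h : IsB c) (h' : IsB c') : IsB (c - c') := by
  rw [sub_eq_add_neg]
  exact h.add h'.neg

theorem IsB.push {c : C2 G} (h : IsB c) (φ : G →* G) : IsB (push φ c) := by
  obtain ⟨b, h⟩ := h
  exact ⟨push3 φ b, by rw [bd_push3, h]⟩

theorem fill_le_nat16 {n : ℕ} {c : C2 G} (h : Fil (n : ℝ) c) : fill c ≤ n := by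
  exact_mod_cast fill_le h

theorem fill_zero16 : fill (0 : C2 G) = 0 := by
  have h : Fil ((0 : ℕ) : ℝ) (0 : C2 G) := by
    rw [Nat.cast_zero]
    exact Fil.zero
  exact Nat.le_zero.1 (fill_le_nat16 h)

theorem fill_add16 {c c' : C2 G} (h : IsB c) (h' : IsB c') : fill (c + c') ≤ fill c + fill c' := by
  apply fill_le_nat16
  rw [Nat.cast_add]
  exact h.fil.add h'.fil

theorem fill_neg16 (c : C2 G) : fill (-c) = fill c := by
  have key : ∀ c : C2 G, IsB c → fill (-c) ≤ fill c := fun c h => fill_le_nat16 h.fil.neg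
  by_cases h : IsB c
  · refine le_antisymm (key c h) ?_
    have := key (-c) h.neg
    rwa [neg_neg] at this
  · have h' : ¬ IsB (-c) := fun h1 => h (by
      have := h1.neg
      rwa [neg_neg] at this)
    have e : ∀ c : C2 G, ¬ IsB c → fill c = 0 := by
      intro c hc
      have : {N : ℕ | ∃ b : C3 G, bd G b = c ∧ nrm b = N} = ∅ := by
        ext N
        simp only [Set.mem_ofPred_eq, Set.mem_empty_iff_false, iff_false]
        rintro ⟨b, h1, -⟩
        exact hc ⟨b, h1⟩
      rw [fill, this, Nat.sInf_empty]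
    rw [e _ h, e _ h']

theorem fill_sub16 {c c' : C2 G} (h : IsB c) (h' : IsB c') : fill (c - c') ≤ fill c + fill c' := by
  rw [sub_eq_add_neg]
  have := fill_add16 h h'.neg
  rwa [fill_neg16] at this

theorem fill_push16 {c : C2 G} (h : IsB c) (φ : G →* G) : fill (push φ c) ≤ fill c :=
  fill_le_nat16 (h.fil.push φ)

/-! ### identity, inverses -/

theorem push_id16 (c : C2 G) : push (MonoidHom.id G) c = c := by
  unfold push
  exact Finsupp.mapDomain_id

theorem push_symm16 (ψ : G ≃* G) (c : C2 G) :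
    push ψ.symm.toMonoidHom (push ψ.toMonoidHom c) = c := by
  rw [← push_comp]
  have : (ψ.symm.toMonoidHom).comp ψ.toMonoidHom = MonoidHom.id G := by
    ext x
    simp
  rw [this, push_id16]

theorem push_symm16' (ψ : G ≃* G) (c : C2 G) :
    push ψ.toMonoidHom (push ψ.symm.toMonoidHom c) = c := by
  rw [← push_comp]
  have : (ψ.toMonoidHom).comp ψ.symm.toMonoidHom = MonoidHom.id G := by
    ext x
    simp
  rw [this, push_id16]

theorem isB_push_iff16 (ψ : G ≃* G) (c : C2 G) : IsB (push ψ.toMonoidHom c) ↔ IsB c := by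
  refine ⟨fun h => ?_, fun h => h.push _⟩
  have := h.push ψ.symm.toMonoidHom
  rwa [push_symm16] at this

/-- an automorphism preserves the filling norm -/
theorem fill_push_equiv16 (ψ : G ≃* G) {c : C2 G} (h : IsB c) :
    fill (push ψ.toMonoidHom c) = fill c := by
  refine le_antisymm (fill_push16 h _) ?_
  have := fill_push16 (h.push ψ.toMonoidHom) ψ.symm.toMonoidHom
  rwa [push_symm16] at this

/-! ### `hfill` -/

theorem hfill_id16 (z : C2 G) : hfill (MonoidHom.id G) z = 0 := by
  rw [hfill, push_id16, sub_self, fill_zero16]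

theorem isB_comp16 {θ η : G →* G} {z : C2 G} (h : IsB (push θ z - z)) (h' : IsB (push η z - z)) :
    IsB (push (θ.comp η) z - z) := by
  have h1 := (h'.push θ).add h
  rw [push_sub, ← push_comp] at h1
  have : push (θ.comp η) z - push θ z + (push θ z - z) = push (θ.comp η) z - z := by abel
  rwa [this] at h1

/-- subadditivity under composition -/
theorem hfill_comp16 {θ η : G →* G} {z : C2 G} (h : IsB (push θ z - z))
    (h' : IsB (push η z - z)) : hfill (θ.comp η) z ≤ hfill θ z + hfill η z := by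
  have h1 := fill_add16 (h'.push θ) h
  have h2 := fill_push16 h' θ
  have e : push θ (push η z - z) + (push θ z - z) = push (θ.comp η) z - z := by
    rw [push_sub, ← push_comp]
    abel
  rw [e] at h1
  unfold hfill
  omega

/-- change of the cycle by a boundary -/
theorem isB_change16 {θ : G →* G} {z z' : C2 G} (h : IsB (push θ z - z)) (hz : IsB (z' - z)) :
    IsB (push θ z' - z') := by
  have h1 := (h.add (hz.push θ)).sub hz
  rw [push_sub] at h1
  have : push θ z - z + (push θ z' - push θ z) - (z' - z) = push θ z' - z' := by abel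
  rwa [this] at h1

theorem hfill_change16 {θ : G →* G} {z z' : C2 G} (h : IsB (push θ z - z)) (hz : IsB (z' - z)) :
    hfill θ z' ≤ hfill θ z + 2 * fill (z' - z) := by
  have h1 := fill_sub16 (h.add (hz.push θ)) hz
  have h2 := fill_add16 h (hz.push θ)
  have h3 := fill_push16 hz θ
  have e : push θ z - z + push θ (z' - z) - (z' - z) = push θ z' - z' := by
    rw [push_sub]
    abel
  rw [e] at h1
  unfold hfill
  omega

theorem isB_symm16 {z z' : C2 G} (h : IsB (z' - z)) : IsB (z - z') := by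
  have := h.neg
  rwa [neg_sub] at this

theorem hfill_neg16 (θ : G →* G) (z : C2 G) : hfill θ (-z) = hfill θ z := by
  unfold hfill
  rw [push_neg, ← fill_neg16 (push θ z - z)]
  congr 1
  abel

theorem isB_neg16 {θ : G →* G} {z : C2 G} (h : IsB (push θ z - z)) :
    IsB (push θ (-z) - -z) := by
  have h1 := h.neg
  rw [push_neg]
  have : -(push θ z - z) = -push θ z - -z := by abel
  rwa [this] at h1

/-- inverses -/
theorem isB_inv16 {ψ : G ≃* G} {z : C2 G} (h : IsB (push ψ.toMonoidHom z - z)) :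
    IsB (push ψ.symm.toMonoidHom z - z) := by
  have h1 := (h.push ψ.symm.toMonoidHom).neg
  rw [push_sub, push_symm16, neg_sub] at h1
  exact h1

theorem hfill_inv16 {ψ : G ≃* G} {z : C2 G} (h : IsB (push ψ.toMonoidHom z - z)) :
    hfill ψ.symm.toMonoidHom z = hfill ψ.toMonoidHom z := by
  have e : -(push ψ.symm.toMonoidHom (push ψ.toMonoidHom z - z)) =
      push ψ.symm.toMonoidHom z - z := by
    rw [push_sub, push_symm16, neg_sub]
  unfold hfill
  rw [← e, fill_neg16, fill_push_equiv16 ψ.symm h]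

/-- conjugation by an automorphism, as a change of the cycle -/
theorem conj_eq16 (ψ : G ≃* G) (θ : G →* G) (z : C2 G) :
    push ((ψ.toMonoidHom.comp θ).comp ψ.symm.toMonoidHom) z - z =
      push ψ.toMonoidHom (push θ (push ψ.symm.toMonoidHom z) - push ψ.symm.toMonoidHom z) := by
  rw [push_sub, push_symm16', push_comp, push_comp]

theorem hfill_conj16 (ψ : G ≃* G) {θ : G →* G} {z : C2 G}
    (h : IsB (push θ (push ψ.symm.toMonoidHom z) - push ψ.symm.toMonoidHom z)) :
    hfill ((ψ.toMonoidHom.comp θ).comp ψ.symm.toMonoidHom) z =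
      hfill θ (push ψ.symm.toMonoidHom z) := by
  unfold hfill
  rw [conj_eq16, fill_push_equiv16 ψ h]

/-! ### inner automorphisms -/

theorem nrm_push16 (φ : G →* G) (c : C2 G) : nrm (push φ c) ≤ nrm c :=
  nrm_mapDomain_le _ c

theorem bd2_push16 (φ : G →* G) (c : C2 G) (h : bd2 G c = 0) : bd2 G (push φ c) = 0 := by
  have key : ∀ c : C2 G, bd2 G (push φ c) = (bd2 G c).mapDomain φ := by
    intro c
    induction c using Finsupp.induction_linear with
    | zero => simp [push_zero]
    | add c c' h h' => rw [push_add, map_add, map_add, h, h', Finsupp.mapDomain_add]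
    | single x n =>
      have h1 : (Finsupp.single x n : C2 G) = n • e2 x.1 x.2 := by simp [e2]
      rw [h1, push_zsmul, map_zsmul, map_zsmul, push_e2, bd2_e2, bd2_e2, ← map_mul,
        Finsupp.mapDomain_smul, sub_eq_add_neg, sub_eq_add_neg, Finsupp.mapDomain_add,
        Finsupp.mapDomain_add, Finsupp.mapDomain_single, Finsupp.mapDomain_single]
      have h2 : Finsupp.mapDomain φ (-Finsupp.single (x.1 * x.2) (1 : ℤ)) =
          -Finsupp.single (φ (x.1 * x.2)) 1 := by
        rw [← Finsupp.single_neg, Finsupp.mapDomain_single, Finsupp.single_neg]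
      rw [h2]
  rw [key, h, Finsupp.mapDomain_zero]

theorem filcj16 (γ : G) (z : C2 G) (hz : bd2 G z = 0) :
    Fil (3 * (nrm z : ℝ)) (push (cj γ) z - z) := by
  obtain ⟨b, h1, h2⟩ := fil_cj γ z hz
  exact ⟨b, h1, by exact_mod_cast h2⟩

/-- changing `θ` by an inner automorphism -/
theorem isB_inner16 {θ : G →* G} {z : C2 G} (hz : bd2 G z = 0) (h : IsB (push θ z - z)) (γ : G) :
    IsB (push ((cj γ).comp θ) z - z) := by
  have h1 := filcj16 γ (push θ z) (bd2_push16 θ z hz)
  have h2 := (Fil.isB16 h1).add h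
  rw [← push_comp] at h2
  have : push ((cj γ).comp θ) z - push θ z + (push θ z - z) =
      push ((cj γ).comp θ) z - z := by abel
  rwa [this] at h2

theorem hfill_inner16 {θ : G →* G} {z : C2 G} (hz : bd2 G z = 0) (h : IsB (push θ z - z))
    (γ : G) : hfill ((cj γ).comp θ) z ≤ hfill θ z + 3 * nrm z := by
  have h1 := filcj16 γ (push θ z) (bd2_push16 θ z hz)
  have h2 := nrm_push16 θ z
  have h3 : Fil ((hfill θ z + 3 * nrm z : ℕ) : ℝ) (push ((cj γ).comp θ) z - z) := by
    refine (h1.add h.fil).of_eq ?_ ?_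
    · have : (nrm (push θ z) : ℝ) ≤ nrm z := by exact_mod_cast h2
      push_cast
      unfold hfill
      linarith
    · rw [push_comp]
      abel
  exact fill_le_nat16 h3

theorem cj_cj16 (γ : G) : (cj γ⁻¹).comp (cj γ) = MonoidHom.id G := by
  ext x
  rw [MonoidHom.comp_apply, cj_apply, cj_apply, MonoidHom.id_apply]
  group

theorem hfill_inner16' {θ : G →* G} {z : C2 G} (hz : bd2 G z = 0) (h : IsB (push θ z - z))
    (γ : G) : hfill θ z ≤ hfill ((cj γ).comp θ) z + 3 * nrm z := by
  have h1 := hfill_inner16 hz (isB_inner16 hz h γ) γ⁻¹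
  rw [← MonoidHom.comp_assoc, cj_cj16, MonoidHom.id_comp] at h1
  exact h1

/-! ### the filling volume -/

theorem isB_pow16 {φ : G →* G} {z : C2 G} (h : IsB (push φ z - z)) :
    ∀ k, IsB (push (hpow φ k) z - z)
  | 0 => by
    have : push (hpow φ 0) z - z = 0 := by
      rw [hpow, push_id16, sub_self]
    rw [this]
    exact isB_zero16
  | k + 1 => isB_comp16 h (isB_pow16 h k)

/-- the filling volume: the limit of `hfill (φ^k) z / k` -/
noncomputable def FV (φ : G →* G) (z : C2 G) : ℝ :=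
  limUnder atTop (fun k : ℕ => (hfill (hpow φ k) z : ℝ) / k)

theorem tendsto_FV {φ : G →* G} {z : C2 G} (h : IsB (push φ z - z)) :
    Tendsto (fun k : ℕ => (hfill (hpow φ k) z : ℝ) / k) atTop (𝓝 (FV φ z)) := by
  obtain ⟨F, hF⟩ := exists_limit φ z (fun k => (fill (push (hpow φ k) z - z) : ℝ))
    (fun k => (isB_pow16 h k).fil)
  have h1 : FV φ z = F := hF.limUnder_eq
  rw [h1]
  exact hF

theorem FV_unique16 {φ : G →* G} {z : C2 G} {F : ℝ}
    (h : Tendsto (fun k : ℕ => (fill (push (hpow φ k) z - z) : ℝ) / k) atTop (𝓝 F)) :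
    FV φ z = F := Tendsto.limUnder_eq h

/-- `FV φ z ≤ hfill (φ^k) z / k` -/
theorem FV_le_div16 {φ : G →* G} {z : C2 G} (h : IsB (push φ z - z)) {k : ℕ} (hk : k ≠ 0) :
    FV φ z ≤ (hfill (hpow φ k) z : ℝ) / k := by
  have hsub := fill_subadd φ z (fun k => (fill (push (hpow φ k) z - z) : ℝ))
    (fun k => (isB_pow16 h k).fil)
  have hb : BddBelow (Set.range fun n : ℕ =>
      (fun k => (fill (push (hpow φ k) z - z) : ℝ)) n / n) := by
    refine ⟨0, ?_⟩
    rintro x ⟨k, rfl⟩
    positivity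
  have h1 : FV φ z = hsub.lim := FV_unique16 (hsub.tendsto_lim hb)
  rw [h1]
  exact hsub.lim_le_div hb hk

theorem FV_nonneg16 {φ : G →* G} {z : C2 G} (h : IsB (push φ z - z)) : 0 ≤ FV φ z :=
  ge_of_tendsto' (tendsto_FV h) fun k => by positivity

/-- a bounded change of the numerators does not change the limit -/
theorem FV_eq_of_bdd16 {φ φ' : G →* G} {z z' : C2 G} (h : IsB (push φ z - z))
    (h' : IsB (push φ' z' - z')) {C : ℝ}
    (hC : ∀ k, |(hfill (hpow φ' k) z' : ℝ) - hfill (hpow φ k) z| ≤ C) : FV φ' z' = FV φ z := by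
  have h1 : Tendsto (fun k : ℕ => ((hfill (hpow φ' k) z' : ℝ) - hfill (hpow φ k) z) / k) atTop
      (𝓝 0) := by
    have h2 : Tendsto (fun k : ℕ => C / (k : ℝ)) atTop (𝓝 0) := tendsto_const_div_atTop_nhds_zero_nat C
    refine squeeze_zero_norm (fun k => ?_) h2
    rw [Real.norm_eq_abs, abs_div, Nat.abs_cast]
    exact div_le_div_of_nonneg_right (hC k) (Nat.cast_nonneg k)
  have h3 := (tendsto_FV h').sub (tendsto_FV h)
  have h4 : (fun k : ℕ => (hfill (hpow φ' k) z' : ℝ) / k - (hfill (hpow φ k) z : ℝ) / k) =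
      fun k : ℕ => ((hfill (hpow φ' k) z' : ℝ) - hfill (hpow φ k) z) / k := by
    funext k
    rw [sub_div]
  rw [h4] at h3
  have := tendsto_nhds_unique h3 h1
  linarith

/-- the filling volume does not depend on the cycle in its class -/
theorem FV_change16 {φ : G →* G} {z z' : C2 G} (h : IsB (push φ z - z)) (hz : IsB (z' - z)) :
    FV φ z' = FV φ z := by
  refine FV_eq_of_bdd16 h (isB_change16 h hz) (C := 2 * fill (z' - z)) fun k => ?_
  have h1 := hfill_change16 (isB_pow16 h k) hz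
  have h2 := hfill_change16 (isB_pow16 (isB_change16 h hz) k) (isB_symm16 hz)
  have h3 : fill (z - z') = fill (z' - z) := by
    rw [← fill_neg16, neg_sub]
  rw [h3] at h2
  rw [abs_le]
  constructor
  · have : (hfill (hpow φ k) z : ℝ) ≤ hfill (hpow φ k) z' + 2 * fill (z' - z) := by
      exact_mod_cast h2
    linarith
  · have : (hfill (hpow φ k) z' : ℝ) ≤ hfill (hpow φ k) z + 2 * fill (z' - z) := by
      exact_mod_cast h1
    linarith

theorem FV_neg16 (φ : G →* G) (z : C2 G) : FV φ (-z) = FV φ z := by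
  unfold FV
  simp only [hfill_neg16]

/-- powers -/
theorem hpow_mul16 (φ : G →* G) (p : ℕ) : ∀ k, hpow (hpow φ p) k = hpow φ (p * k)
  | 0 => rfl
  | k + 1 => by
    show (hpow φ p).comp (hpow (hpow φ p) k) = _
    rw [hpow_mul16 φ p k, ← hpow_add]
    congr 1
    ring

theorem FV_pow16 {φ : G →* G} {z : C2 G} (h : IsB (push φ z - z)) (p : ℕ) :
    FV (hpow φ p) z = p * FV φ z := by
  rcases Nat.eq_zero_or_pos p with rfl | hp
  · have h1 : ∀ k, hfill (hpow (hpow φ 0) k) z = 0 := by
      intro k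
      rw [hpow_mul16, Nat.zero_mul, hpow, hfill_id16]
    have h2 : FV (hpow φ 0) z = 0 := by
      apply FV_unique16
      have : (fun k : ℕ => (fill (push (hpow (hpow φ 0) k) z - z) : ℝ) / k) = fun _ => 0 := by
        funext k
        have := h1 k
        unfold hfill at this
        rw [this]
        simp
      rw [this]
      exact tendsto_const_nhds
    rw [h2]
    simp
  · have h1 := tendsto_FV h
    have h2 : Tendsto (fun k : ℕ => p * k) atTop atTop :=
      tendsto_atTop_mono (fun k => Nat.le_mul_of_pos_left k hp) tendsto_id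
    have h3 := (h1.comp h2).const_mul (p : ℝ)
    refine FV_unique16 (h3.congr fun k => ?_)
    simp only [Function.comp]
    rw [hpow_mul16]
    unfold hfill
    have hp0 : (p : ℝ) ≠ 0 := by exact_mod_cast hp.ne'
    rcases Nat.eq_zero_or_pos k with rfl | hk
    · simp
    · have hk0 : (k : ℝ) ≠ 0 := by exact_mod_cast hk.ne'
      push_cast
      field_simp

/-- inner automorphisms do not change the powers up to inner automorphisms -/
theorem hpow_inner16 (φ : G →* G) (γ : G) : ∀ k, ∃ δ : G,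
    hpow ((cj γ).comp φ) k = (cj δ).comp (hpow φ k)
  | 0 => ⟨1, by
    ext x
    show x = cj 1 x
    rw [cj_apply]
    group⟩
  | k + 1 => by
    obtain ⟨δ, hδ⟩ := hpow_inner16 φ γ k
    refine ⟨φ δ * γ, ?_⟩
    ext x
    show cj γ (φ (hpow ((cj γ).comp φ) k x)) = cj (φ δ * γ) (φ (hpow φ k x))
    rw [hδ, MonoidHom.comp_apply, cj_apply, cj_apply, cj_apply, map_mul, map_mul, map_inv]
    group

/-- the filling volume depends only on the outer class -/
theorem FV_inner16 {φ : G →* G} {z : C2 G} (hz : bd2 G z = 0) (h : IsB (push φ z - z)) (γ : G) :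
    FV ((cj γ).comp φ) z = FV φ z := by
  refine FV_eq_of_bdd16 h (isB_inner16 hz h γ) (C := 3 * nrm z) fun k => ?_
  obtain ⟨δ, hδ⟩ := hpow_inner16 φ γ k
  rw [hδ]
  have h1 := hfill_inner16 hz (isB_pow16 h k) δ
  have h2 := hfill_inner16' hz (isB_pow16 h k) δ
  rw [abs_le]
  constructor
  · have : (hfill (hpow φ k) z : ℝ) ≤ hfill ((cj δ).comp (hpow φ k)) z + 3 * nrm z := by
      exact_mod_cast h2
    linarith
  · have : (hfill ((cj δ).comp (hpow φ k)) z : ℝ) ≤ hfill (hpow φ k) z + 3 * nrm z := by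
      exact_mod_cast h1
    linarith

/-- powers of a conjugate -/
theorem hpow_conj16 (ψ : G ≃* G) (φ : G →* G) : ∀ k,
    hpow ((ψ.toMonoidHom.comp φ).comp ψ.symm.toMonoidHom) k =
      (ψ.toMonoidHom.comp (hpow φ k)).comp ψ.symm.toMonoidHom
  | 0 => by
    ext x
    show x = ψ (ψ.symm x)
    rw [MulEquiv.apply_symm_apply]
  | k + 1 => by
    ext x
    show ψ (φ (ψ.symm (hpow ((ψ.toMonoidHom.comp φ).comp ψ.symm.toMonoidHom) k x))) =
      ψ (φ (hpow φ k (ψ.symm x)))
    rw [hpow_conj16 ψ φ k]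
    show ψ (φ (ψ.symm (ψ (hpow φ k (ψ.symm x))))) = _
    rw [MulEquiv.symm_apply_apply]

/-- conjugation by an automorphism that preserves the class of the cycle up to sign -/
theorem FV_conj16 (ψ : G ≃* G) {φ : G →* G} {z : C2 G} (h : IsB (push φ z - z))
    (hψ : IsB (push ψ.symm.toMonoidHom z - z) ∨ IsB (push ψ.symm.toMonoidHom z + z)) :
    FV ((ψ.toMonoidHom.comp φ).comp ψ.symm.toMonoidHom) z = FV φ z := by
  set z1 := push ψ.symm.toMonoidHom z with hz1
  have h1 : IsB (push φ z1 - z1) ∧ FV φ z1 = FV φ z := by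
    rcases hψ with h2 | h2
    · exact ⟨isB_change16 h h2, FV_change16 h h2⟩
    · have h3 : IsB (z1 - -z) := by rwa [sub_neg_eq_add]
      refine ⟨isB_change16 (isB_neg16 h) h3, ?_⟩
      rw [FV_change16 (isB_neg16 h) h3, FV_neg16]
  have h2 : ∀ k, hfill (hpow ((ψ.toMonoidHom.comp φ).comp ψ.symm.toMonoidHom) k) z =
      hfill (hpow φ k) z1 := by
    intro k
    rw [hpow_conj16, hfill_conj16 ψ (isB_pow16 h1.1 k)]
  have h3 : FV ((ψ.toMonoidHom.comp φ).comp ψ.symm.toMonoidHom) z = FV φ z1 := by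
    unfold FV
    simp only [h2]
  rw [h3, h1.2]

/-- powers of the inverse -/
theorem hpow_inv16 (ψ : G ≃* G) : ∀ k (x : G),
    hpow ψ.symm.toMonoidHom k (hpow ψ.toMonoidHom k x) = x
  | 0, _ => rfl
  | k + 1, x => by
    show hpow ψ.symm.toMonoidHom (k + 1) (hpow ψ.toMonoidHom (k + 1) x) = x
    have e : hpow ψ.symm.toMonoidHom (k + 1) =
        (hpow ψ.symm.toMonoidHom k).comp ψ.symm.toMonoidHom := by
      rw [hpow_add]
      rfl
    rw [e]
    show hpow ψ.symm.toMonoidHom k (ψ.symm (ψ (hpow ψ.toMonoidHom k x))) = x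
    rw [MulEquiv.symm_apply_apply]
    exact hpow_inv16 ψ k x

/-- the inverse has the same filling volume -/
theorem FV_inv16 {ψ : G ≃* G} {z : C2 G} (h : IsB (push ψ.toMonoidHom z - z)) :
    FV ψ.symm.toMonoidHom z = FV ψ.toMonoidHom z := by
  have key : ∀ k, hfill (hpow ψ.symm.toMonoidHom k) z = hfill (hpow ψ.toMonoidHom k) z := by
    intro k
    have h1 := isB_pow16 h k
    have h1' := isB_pow16 (isB_inv16 h) k
    have e : -(push (hpow ψ.symm.toMonoidHom k) (push (hpow ψ.toMonoidHom k) z - z)) =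
        push (hpow ψ.symm.toMonoidHom k) z - z := by
      rw [push_sub, ← push_comp]
      have : (hpow ψ.symm.toMonoidHom k).comp (hpow ψ.toMonoidHom k) = MonoidHom.id G := by
        ext x
        exact hpow_inv16 ψ k x
      rw [this, push_id16, neg_sub]
    have e' : -(push (hpow ψ.toMonoidHom k) (push (hpow ψ.symm.toMonoidHom k) z - z)) =
        push (hpow ψ.toMonoidHom k) z - z := by
      rw [push_sub, ← push_comp]
      have : (hpow ψ.toMonoidHom k).comp (hpow ψ.symm.toMonoidHom k) = MonoidHom.id G := by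
        ext x
        exact hpow_inv16 ψ.symm k x
      rw [this, push_id16, neg_sub]
    unfold hfill
    refine le_antisymm ?_ ?_
    · rw [← e, fill_neg16]
      exact fill_push16 h1 _
    · rw [← e', fill_neg16]
      exact fill_push16 h1' _
  unfold FV
  simp only [key]

/-! ### from a bound by `8 ^ (fill / 2)` to the growth rate -/

/-- `ψ φ^k χ` -/
theorem isB_sandwich16 {φ ψ χ : G →* G} {z : C2 G} (h : IsB (push φ z - z))
    (hψ : IsB (push ψ z - z)) (hχ : IsB (push χ z - z)) (k : ℕ) :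
    IsB (push ((ψ.comp (hpow φ k)).comp χ) z - z) :=
  isB_comp16 (isB_comp16 hψ (isB_pow16 h k)) hχ

theorem hfill_sandwich16 {φ ψ χ : G →* G} {z : C2 G} (h : IsB (push φ z - z))
    (hψ : IsB (push ψ z - z)) (hχ : IsB (push χ z - z)) (k : ℕ) :
    hfill ((ψ.comp (hpow φ k)).comp χ) z ≤ hfill (hpow φ k) z + (hfill ψ z + hfill χ z) := by
  have h1 := hfill_comp16 (isB_comp16 hψ (isB_pow16 h k)) hχ
  have h2 := hfill_comp16 hψ (isB_pow16 h k)
  omega

/-- the exponential bound, eventually with a rate as near as one likes to `(3/2) log 2 * FV` -/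
theorem eventually_le16 {φ : G →* G} {z : C2 G} (h : IsB (push φ z - z)) {u : ℕ → ℝ} {C : ℝ}
    {D : ℕ} (hu : ∀ k, u k ≤ C * (8 : ℝ) ^ (((hfill (hpow φ k) z + D : ℕ) : ℝ) / 2))
    {ε : ℝ} (hε : 0 < ε) :
    ∀ᶠ k : ℕ in atTop, u k ≤ Real.exp ((3 / 2 * Real.log 2 * FV φ z + ε) * k) := by
  have hlog : Real.log 8 = 3 * Real.log 2 := by
    rw [show (8 : ℝ) = 2 ^ 3 by norm_num, Real.log_pow]
    norm_num
  have hl2 : 0 < Real.log 2 := Real.log_pos one_lt_two
  set C' : ℝ := max C 1 with hC'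
  have hC1 : 1 ≤ C' := le_max_right _ _
  have hC0 : 0 < C' := by linarith
  -- the exponent
  have h1 : Tendsto (fun k : ℕ => Real.log C' / k + Real.log 8 / 2 *
      ((hfill (hpow φ k) z : ℝ) / k + (D : ℝ) / k)) atTop
      (𝓝 (0 + Real.log 8 / 2 * (FV φ z + 0))) :=
    (tendsto_const_div_atTop_nhds_zero_nat _).add
      (((tendsto_FV h).add (tendsto_const_div_atTop_nhds_zero_nat _)).const_mul _)
  have h2 : 0 + Real.log 8 / 2 * (FV φ z + 0) < 3 / 2 * Real.log 2 * FV φ z + ε := by
    rw [hlog]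
    nlinarith
  filter_upwards [h1.eventually_lt_const h2, eventually_gt_atTop 0] with k hk hk0
  have hk1 : (0 : ℝ) < k := by exact_mod_cast hk0
  have h8 : (0 : ℝ) < (8 : ℝ) ^ (((hfill (hpow φ k) z + D : ℕ) : ℝ) / 2) :=
    Real.rpow_pos_of_pos (by norm_num) _
  calc u k ≤ C * (8 : ℝ) ^ (((hfill (hpow φ k) z + D : ℕ) : ℝ) / 2) := hu k
    _ ≤ C' * (8 : ℝ) ^ (((hfill (hpow φ k) z + D : ℕ) : ℝ) / 2) :=
        mul_le_mul_of_nonneg_right (le_max_left _ _) h8.le
    _ = Real.exp ((Real.log C' / k + Real.log 8 / 2 *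
          ((hfill (hpow φ k) z : ℝ) / k + (D : ℝ) / k)) * k) := by
        have e : (Real.log C' / k + Real.log 8 / 2 *
            ((hfill (hpow φ k) z : ℝ) / k + (D : ℝ) / k)) * k =
            Real.log C' + Real.log 8 * (((hfill (hpow φ k) z + D : ℕ) : ℝ) / 2) := by
          push_cast
          field_simp
        rw [e, Real.exp_add, Real.exp_log hC0, Real.rpow_def_of_pos (by norm_num)]
    _ ≤ Real.exp ((3 / 2 * Real.log 2 * FV φ z + ε) * k) := by
        apply Real.exp_le_exp.2
        exact mul_le_mul_of_nonneg_right hk.le hk1.le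

/-- growth at rate `μ` forces `log μ ≤ (3/2) log 2 * FV` -/
theorem growth16 {φ : G →* G} {z : C2 G} (h : IsB (push φ z - z)) {u : ℕ → ℝ} {C : ℝ}
    {D : ℕ} (hu : ∀ k, u k ≤ C * (8 : ℝ) ^ (((hfill (hpow φ k) z + D : ℕ) : ℝ) / 2))
    {μ c : ℝ} (hc : 0 < c) (hμ : 0 < μ) (hg : ∃ᶠ k : ℕ in atTop, c * μ ^ k ≤ u k) :
    Real.log μ ≤ 3 / 2 * Real.log 2 * FV φ z := by
  refine le_of_forall_pos_le_add fun ε hε => ?_
  by_contra hcon
  push Not at hcon
  set R : ℝ := 3 / 2 * Real.log 2 * FV φ z with hR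
  have h1 := eventually_le16 h hu (half_pos hε)
  rw [← hR] at h1
  -- `c μ^k > exp ((R + ε/2) k)` eventually
  have h2 : Tendsto (fun k : ℕ => Real.log c / (k : ℝ)) atTop (𝓝 0) :=
    tendsto_const_div_atTop_nhds_zero_nat _
  have h3 : (-(ε / 2)) < 0 := by linarith
  have h4 := (h2.eventually_const_lt h3).and (eventually_gt_atTop 0)
  obtain ⟨k, hk1, hk2, hk3, hk4⟩ := (hg.and_eventually (h1.and h4)).exists
  have hk0 : (0 : ℝ) < k := by exact_mod_cast hk4
  have h5 : c * μ ^ k ≤ Real.exp ((R + ε / 2) * k) := hk1.trans hk2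
  have h6 : c * μ ^ k = Real.exp (Real.log c + k * Real.log μ) := by
    rw [Real.exp_add, Real.exp_log hc, mul_comm (k : ℝ), Real.exp_mul, Real.exp_log hμ,
      Real.rpow_natCast]
  rw [h6, Real.exp_le_exp] at h5
  have h7 : -(ε / 2) * k < Real.log c := by
    rw [lt_div_iff₀ hk0] at hk3
    exact hk3
  nlinarith

end Pool.Agent.Lib.MP_e3aa0a_gt.FVL
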