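import Pool.Agent.Lib.MP_e3aa0a_gt.FVL.Ker21
import Pool.Agent.Lib.MP_e3aa0a_gt.FVL.Stk83
import Pool.Agent.Lib.FVol.Cycle
import Pool.Agent.Lib.FVol.Gauge

/-!
Project FVL (MP_e3aa0a_gt), row FAN (helper21): the relator `[a_0, b_0] ... [a_(g-1), b_(g-1)]` as a
word of FVol, its fan cycle, the labels of the fan triangulation, and the 2-form of the fan cycle in
the coordinates of `Ker21`.
-/

set_option autoImplicit false

namespace Pool.Agent.Lib.MP_e3aa0a_gt.FVL.Fan21

open Pool.Agent.Lib.FVol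
open Ker21 (Lab sd dg tri)
open scoped commutatorElement

variable {Γ : Type*} [Group Γ] {A : Type*}

/-! ### Fans in general -/

theorem om_kap (u : A → Γ) {w w' : Γ → ℝ} (x : A × Bool) (h : w (u x.1)⁻¹ = w (u x.1))
    (h' : w' (u x.1)⁻¹ = w' (u x.1)) : om w w' (kap u x) = 0 := by
  unfold kap
  split_ifs
  · simp
  · rw [map_neg, map_add, om_e2, om_e2, omT_inv h h', omT_one_one]
    simp

theorem om_fan (u : A → Γ) {w w' : Γ → ℝ} (h : ∀ a, w (u a)⁻¹ = w (u a))
    (h' : ∀ a, w' (u a)⁻¹ = w' (u a)) : ∀ (m : ℕ) (f : Fin m → A × Bool) (p : Γ),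
    om w w' (fan u p (List.ofFn f)) =
      ∑ j : Fin m, omT w w' (p * wpr u ((List.ofFn f).take j)) (slab u (f j)) := by
  intro m
  induction m with
  | zero => intro f p; simp
  | succ m ih =>
    intro f p
    rw [List.ofFn_succ, fan_cons, map_add, map_add, om_kap u _ (h _) (h' _), ih, om_e2,
      Fin.sum_univ_succ]
    simp [mul_assoc]

theorem nrm_kap_le (u : A → Γ) (x : A × Bool) : nrm (kap u x) ≤ 2 := by
  unfold kap
  split_ifs
  · simp
  · rw [nrm_neg]
    refine (nrm_add_le _ _).trans ?_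
    rw [e2, e2, nrm_single, nrm_single]
    norm_num

theorem nrm_fan_le (u : A → Γ) (W : List (A × Bool)) : ∀ p : Γ, nrm (fan u p W) ≤ 3 * W.length := by
  induction W with
  | nil => intro p; simp
  | cons x W ih =>
    intro p
    rw [fan_cons, List.length_cons]
    have h1 := nrm_add_le (e2 p (slab u x) + kap u x) (fan u (p * slab u x) W)
    have h2 := nrm_add_le (e2 p (slab u x)) (kap u x)
    have h3 := nrm_kap_le u x
    have h4 := ih (p * slab u x)
    have h5 : nrm (e2 p (slab u x)) = 1 := by rw [e2, nrm_single]; rfl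
    omega

/-! ### Homomorphisms between different groups -/

section pushH

variable {Δ : Type*} [Group Δ]

/-- the action of a homomorphism on 2-chains -/
noncomputable def pushH (f : Γ →* Δ) (c : C2 Γ) : C2 Δ := c.mapDomain (fun x => (f x.1, f x.2))

/-- the action of a homomorphism on 3-chains -/
noncomputable def push3H (f : Γ →* Δ) (c : C3 Γ) : C3 Δ :=
  c.mapDomain (fun x => (f x.1, f x.2.1, f x.2.2))

theorem pushH_zero (f : Γ →* Δ) : pushH f (0 : C2 Γ) = 0 := Finsupp.mapDomain_zero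

theorem pushH_add (f : Γ →* Δ) (c c' : C2 Γ) : pushH f (c + c') = pushH f c + pushH f c' :=
  Finsupp.mapDomain_add

theorem pushH_neg (f : Γ →* Δ) (c : C2 Γ) : pushH f (-c) = - pushH f c := by
  have h : pushH f (-c) + pushH f c = 0 := by
    rw [← pushH_add, neg_add_cancel, pushH_zero]
  exact eq_neg_of_add_eq_zero_left h

theorem pushH_sub (f : Γ →* Δ) (c c' : C2 Γ) : pushH f (c - c') = pushH f c - pushH f c' := by
  rw [sub_eq_add_neg, pushH_add, pushH_neg, ← sub_eq_add_neg]

theorem pushH_e2 (f : Γ →* Δ) (a b : Γ) : pushH f (e2 a b) = e2 (f a) (f b) := by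
  simp [pushH, e2, Finsupp.mapDomain_single]

theorem pushH_zsmul (f : Γ →* Δ) (n : ℤ) (c : C2 Γ) : pushH f (n • c) = n • pushH f c :=
  Finsupp.mapDomain_smul n c

theorem pushH_push (f : Γ →* Δ) (φ : Γ →* Γ) (c : C2 Γ) :
    pushH f (push φ c) = pushH (f.comp φ) c := by
  rw [pushH, pushH, push, ← Finsupp.mapDomain_comp]
  rfl

theorem push_pushH (f : Γ →* Δ) (ψ : Δ →* Δ) (c : C2 Γ) :
    push ψ (pushH f c) = pushH (ψ.comp f) c := by
  rw [pushH, pushH, push, ← Finsupp.mapDomain_comp]
  rfl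

theorem bd_push3H (f : Γ →* Δ) (b : C3 Γ) : bd Δ (push3H f b) = pushH f (bd Γ b) := by
  induction b using Finsupp.induction_linear with
  | zero => simp [push3H, pushH]
  | add b c hb hc =>
    have : push3H f (b + c) = push3H f b + push3H f c := Finsupp.mapDomain_add
    rw [this, map_add, map_add, hb, hc, pushH_add]
  | single x z =>
    obtain ⟨a, b, c⟩ := x
    have h1 : Finsupp.single (a, b, c) z = z • e3 a b c := by simp [e3]
    have h2 : push3H f (z • e3 a b c) = z • e3 (f a) (f b) (f c) := by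
      simp [push3H, e3, Finsupp.mapDomain_single]
    rw [h1, h2, map_zsmul, map_zsmul, bd_e3, bd_e3, pushH_zsmul, pushH_sub, pushH_add, pushH_sub,
      pushH_e2, pushH_e2, pushH_e2, pushH_e2, map_mul, map_mul]

theorem nrm_push3H_le (f : Γ →* Δ) (b : C3 Γ) : nrm (push3H f b) ≤ nrm b :=
  nrm_mapDomain_le (fun x : Γ × Γ × Γ => (f x.1, f x.2.1, f x.2.2)) b

theorem slab_mapH (f : Γ →* Δ) (u : A → Γ) (z : A × Bool) :
    slab (fun a => f (u a)) z = f (slab u z) := by
  rcases z with ⟨a, s⟩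
  cases s <;> simp [slab]

theorem wpr_mapH (f : Γ →* Δ) (u : A → Γ) (W : List (A × Bool)) :
    wpr (fun a => f (u a)) W = f (wpr u W) := by
  induction W with
  | nil => simp
  | cons z W ih => rw [wpr_cons, wpr_cons, map_mul, ih, slab_mapH]

theorem pushH_kap (f : Γ →* Δ) (u : A → Γ) (z : A × Bool) :
    pushH f (kap u z) = kap (fun a => f (u a)) z := by
  rcases z with ⟨a, s⟩
  cases s
  · simp [kap, pushH_add, pushH_neg, pushH_e2]
  · simp [kap, pushH_zero]

theorem pushH_fan (f : Γ →* Δ) (u : A → Γ) (W : List (A × Bool)) : ∀ p : Γ,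
    pushH f (fan u p W) = fan (fun a => f (u a)) (f p) W := by
  induction W with
  | nil => intro p; simp [pushH_zero]
  | cons z W ih =>
    intro p
    rw [fan_cons, fan_cons, pushH_add, pushH_add, pushH_e2, pushH_kap, ih, slab_mapH, map_mul]

end pushH

/-! ### The relator -/

/-- the letters `a_i`, `b_i` -/
abbrev Let (g : ℕ) : Type := Fin g ⊕ Fin g

variable {g : ℕ}

/-- the side `j` of the polygon -/
def side (g : ℕ) (j : Fin (4 * g)) : Let g × Bool :=
  (if j.1 % 2 = 0 then Sum.inl ⟨j.1 / 4, by omega⟩ else Sum.inr ⟨j.1 / 4, by omega⟩,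
    decide (j.1 % 4 < 2))

/-- the relator `[a_0, b_0] ... [a_(g-1), b_(g-1)]` -/
def rel (g : ℕ) : List (Let g × Bool) := List.ofFn (side g)

theorem length_rel : (rel g).length = 4 * g := by simp [rel]

/-- the product of the first `j` sides -/
def pref (u : Let g → Γ) (j : ℕ) : Γ := wpr u ((rel g).take j)

theorem pref_zero (u : Let g → Γ) : pref u 0 = 1 := by simp [pref]

theorem pref_succ (u : Let g → Γ) (j : Fin (4 * g)) :
    pref u (j.1 + 1) = pref u j.1 * slab u (side g j) := by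
  have h : j.1 < (rel g).length := by rw [length_rel]; exact j.2
  have h1 : (rel g).take (j.1 + 1) = (rel g).take j.1 ++ [side g j] := by
    rw [← List.take_concat_get' _ _ h]
    congr 2
    simp [rel]
  rw [pref, h1, wpr_append, pref]
  simp

theorem pref_top (u : Let g → Γ) : pref u (4 * g) = wpr u (rel g) := by
  rw [pref, List.take_of_length_le (by rw [length_rel])]

theorem slab_side0 (u : Let g → Γ) (i : Fin g) (h : 4 * i.1 < 4 * g) :
    slab u (side g ⟨4 * i.1, h⟩) = u (Sum.inl i) := by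
  have n0 : 4 * i.1 / 4 = i.1 := by omega
  have m0 : 4 * i.1 % 2 = 0 := by omega
  have k0 : 4 * i.1 % 4 < 2 := by omega
  simp [side, slab, n0, m0, k0]

theorem slab_side1 (u : Let g → Γ) (i : Fin g) (h : 4 * i.1 + 1 < 4 * g) :
    slab u (side g ⟨4 * i.1 + 1, h⟩) = u (Sum.inr i) := by
  have n0 : (4 * i.1 + 1) / 4 = i.1 := by omega
  have m0 : ¬ (4 * i.1 + 1) % 2 = 0 := by omega
  have k0 : (4 * i.1 + 1) % 4 < 2 := by omega
  unfold side slab
  simp only [if_neg m0, n0, decide_eq_true k0, if_true]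

theorem slab_side2 (u : Let g → Γ) (i : Fin g) (h : 4 * i.1 + 2 < 4 * g) :
    slab u (side g ⟨4 * i.1 + 2, h⟩) = (u (Sum.inl i))⁻¹ := by
  have n0 : (4 * i.1 + 2) / 4 = i.1 := by omega
  have m0 : (4 * i.1 + 2) % 2 = 0 := by omega
  have k0 : ¬ (4 * i.1 + 2) % 4 < 2 := by omega
  unfold side slab
  simp only [if_pos m0, n0, decide_eq_false k0, Bool.false_eq_true, if_false]

theorem slab_side3 (u : Let g → Γ) (i : Fin g) (h : 4 * i.1 + 3 < 4 * g) :
    slab u (side g ⟨4 * i.1 + 3, h⟩) = (u (Sum.inr i))⁻¹ := by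
  have n0 : (4 * i.1 + 3) / 4 = i.1 := by omega
  have m0 : ¬ (4 * i.1 + 3) % 2 = 0 := by omega
  have k0 : ¬ (4 * i.1 + 3) % 4 < 2 := by omega
  unfold side slab
  simp only [if_neg m0, n0, decide_eq_false k0, Bool.false_eq_true, if_false]

theorem pref1 (u : Let g → Γ) (i : Fin g) :
    pref u (4 * i.1 + 1) = pref u (4 * i.1) * u (Sum.inl i) := by
  have h := pref_succ u ⟨4 * i.1, by omega⟩
  rw [slab_side0] at h
  exact h

theorem pref2 (u : Let g → Γ) (i : Fin g) :
    pref u (4 * i.1 + 2) = pref u (4 * i.1) * u (Sum.inl i) * u (Sum.inr i) := by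
  have h := pref_succ u ⟨4 * i.1 + 1, by omega⟩
  rw [slab_side1] at h
  rw [← pref1]
  exact h

theorem pref3 (u : Let g → Γ) (i : Fin g) : pref u (4 * i.1 + 3) =
    pref u (4 * i.1) * u (Sum.inl i) * u (Sum.inr i) * (u (Sum.inl i))⁻¹ := by
  have h := pref_succ u ⟨4 * i.1 + 2, by omega⟩
  rw [slab_side2] at h
  rw [← pref2]
  exact h

theorem pref4 (u : Let g → Γ) (i : Fin g) : pref u (4 * i.1 + 4) =
    pref u (4 * i.1) * ⁅u (Sum.inl i), u (Sum.inr i)⁆ := by
  have h := pref_succ u ⟨4 * i.1 + 3, by omega⟩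
  rw [slab_side3] at h
  rw [commutatorElement_def, ← mul_assoc, ← mul_assoc, ← mul_assoc, ← pref3]
  exact h

/-- the relator is the product of the commutators -/
theorem wpr_rel (u : Let g → Γ) : wpr u (rel g) =
    (List.ofFn (fun i : Fin g => ⁅u (Sum.inl i), u (Sum.inr i)⁆)).prod := by
  rw [← pref_top]
  have key : ∀ i, ∀ hi : i ≤ g, pref u (4 * i) =
      ((List.ofFn (fun i : Fin g => ⁅u (Sum.inl i), u (Sum.inr i)⁆)).take i).prod := by
    intro i
    induction i with
    | zero => intro _; simp [pref_zero]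
    | succ i ih =>
      intro hi
      have h4 := pref4 u ⟨i, hi⟩
      simp only at h4
      have hl : i < (List.ofFn (fun i : Fin g => ⁅u (Sum.inl i), u (Sum.inr i)⁆)).length := by
        simpa using hi
      rw [show 4 * (i + 1) = 4 * i + 4 by ring, h4, ih (by omega), ← List.take_concat_get' _ _ hl,
        List.prod_append, List.prod_singleton, List.getElem_ofFn]
  have h := key g le_rfl
  rw [h, List.take_of_length_le (by simp)]

/-- the fan cycle -/
noncomputable def zc (u : Let g → Γ) : C2 Γ := fan u 1 (rel g)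

theorem nrm_zc_le (u : Let g → Γ) : nrm (zc u) ≤ 12 * g := by
  have := nrm_fan_le u (rel g) 1
  rw [length_rel] at this
  unfold zc
  omega

theorem ssum_append {M : Type*} [AddCommGroup M] (E : A → M) (W W' : List (A × Bool)) :
    ssum E (W ++ W') = ssum E W + ssum E W' := by
  induction W with
  | nil => simp [ssum]
  | cons z W ih => rw [List.cons_append, ssum, ssum, ih, add_assoc]

theorem ssum_rel {M : Type*} [AddCommGroup M] (E : Let g → M) : ssum E (rel g) = 0 := by
  have step : ∀ j : Fin (4 * g), ssum E ((rel g).take (j.1 + 1)) = ssum E ((rel g).take j.1) +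
      (if (side g j).2 then E (side g j).1 else - E (side g j).1) := by
    intro j
    have h : j.1 < (rel g).length := by rw [length_rel]; exact j.2
    have h1 : (rel g).take (j.1 + 1) = (rel g).take j.1 ++ [side g j] := by
      rw [← List.take_concat_get' _ _ h]
      congr 2
      simp [rel]
    rw [h1, ssum_append]
    simp [ssum]
  have key : ∀ i, i ≤ g → ssum E ((rel g).take (4 * i)) = 0 := by
    intro i
    induction i with
    | zero => intro _; simp [ssum]
    | succ i ih =>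
      intro hi
      have h0 := step ⟨4 * i, by omega⟩
      have h1 := step ⟨4 * i + 1, by omega⟩
      have h2 := step ⟨4 * i + 2, by omega⟩
      have h3 := step ⟨4 * i + 3, by omega⟩
      have s0 : side g ⟨4 * i, by omega⟩ = (Sum.inl ⟨i, hi⟩, true) := by
        have n0 : 4 * i / 4 = i := by omega
        have m0 : 4 * i % 2 = 0 := by omega
        have k0 : 4 * i % 4 < 2 := by omega
        unfold side
        simp only [if_pos m0, n0, decide_eq_true k0]
      have s1 : side g ⟨4 * i + 1, by omega⟩ = (Sum.inr ⟨i, hi⟩, true) := by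
        have n0 : (4 * i + 1) / 4 = i := by omega
        have m0 : ¬ (4 * i + 1) % 2 = 0 := by omega
        have k0 : (4 * i + 1) % 4 < 2 := by omega
        unfold side
        simp only [if_neg m0, n0, decide_eq_true k0]
      have s2 : side g ⟨4 * i + 2, by omega⟩ = (Sum.inl ⟨i, hi⟩, false) := by
        have n0 : (4 * i + 2) / 4 = i := by omega
        have m0 : (4 * i + 2) % 2 = 0 := by omega
        have k0 : ¬ (4 * i + 2) % 4 < 2 := by omega
        unfold side
        simp only [if_pos m0, n0, decide_eq_false k0]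
      have s3 : side g ⟨4 * i + 3, by omega⟩ = (Sum.inr ⟨i, hi⟩, false) := by
        have n0 : (4 * i + 3) / 4 = i := by omega
        have m0 : ¬ (4 * i + 3) % 2 = 0 := by omega
        have k0 : ¬ (4 * i + 3) % 4 < 2 := by omega
        unfold side
        simp only [if_neg m0, n0, decide_eq_false k0]
      rw [s0] at h0
      rw [s1] at h1
      rw [s2] at h2
      rw [s3] at h3
      simp only [if_true, Bool.false_eq_true, if_false] at h0 h1 h2 h3
      rw [show 4 * (i + 1) = 4 * i + 3 + 1 by ring, h3, show 4 * i + 3 = 4 * i + 2 + 1 from rfl, h2,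
        show 4 * i + 2 = 4 * i + 1 + 1 from rfl, h1, h0, ih (by omega)]
      abel
  have h := key g le_rfl
  rwa [List.take_of_length_le (by rw [length_rel])] at h

/-- the fan cycle is a cycle -/
theorem bd2_zc (u : Let g → Γ) (hu : wpr u (rel g) = 1) : bd2 Γ (zc u) = 0 := by
  rw [zc, bd2_fan, ssum_rel, hu, mul_one]
  simp

/-- homomorphisms and endomorphisms act on the fan cycle through the letters -/
theorem push_zc (φ : Γ →* Γ) (u : Let g → Γ) : push φ (zc u) = zc (fun a => φ (u a)) := by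
  rw [zc, push_fan, map_one]
  rfl

theorem pushH_zc {Δ : Type*} [Group Δ] (f : Γ →* Δ) (u : Let g → Γ) :
    pushH f (zc u) = zc (fun a => f (u a)) := by
  rw [zc, pushH_fan, map_one]
  rfl

/-- the labels of the fan triangulation -/
def lb (u : Let g → Γ) : Lab g → Γ
  | Sum.inl i => u (Sum.inl i)
  | Sum.inr (Sum.inl i) => u (Sum.inr i)
  | Sum.inr (Sum.inr k) => pref u (k.1 + 2)

theorem w_slab_inv {w : Γ → ℝ} {u : Let g → Γ} (h : ∀ a, w (u a)⁻¹ = w (u a)) (x : Let g × Bool) :
    w (slab u x)⁻¹ = w (slab u x) := by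
  rcases x with ⟨a, s⟩
  cases s <;> simp [slab, h]

theorem sd_lb {w : Γ → ℝ} {u : Let g → Γ} (h : ∀ a, w (u a)⁻¹ = w (u a)) (j : Fin (4 * g)) :
    sd (w ∘ lb u) j.1 = w (slab u (side g j)) := by
  have hj := j.2
  unfold sd
  rw [dif_pos (by omega)]
  unfold side slab
  by_cases h1 : j.1 % 2 = 0
  · rw [if_pos h1]
    by_cases h2 : j.1 % 4 < 2
    · simp [h1, h2, lb]
    · simp [h1, h2, lb, h]
  · rw [if_neg h1]
    by_cases h2 : j.1 % 4 < 2
    · simp [h1, h2, lb]
    · simp [h1, h2, lb, h]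

theorem dg_lb {w : Γ → ℝ} {u : Let g → Γ} (h : ∀ a, w (u a)⁻¹ = w (u a))
    (hu : wpr u (rel g) = 1) {j : ℕ} (h1 : 1 ≤ j) (h2 : j ≤ 4 * g - 1) (hg : 0 < g) :
    dg (w ∘ lb u) j = w (pref u j) := by
  unfold dg
  by_cases h3 : 2 ≤ j ∧ j < 4 * g - 1
  · rw [dif_pos h3]
    have h4 : j - 2 + 2 = j := by omega
    simp only [Function.comp_apply, lb, h4]
  · rw [dif_neg h3]
    by_cases h4 : j = 1
    · rw [if_pos h4, h4]
      have h5 := sd_lb h (⟨0, by omega⟩ : Fin (4 * g))
      have h6 := pref_succ u (⟨0, by omega⟩ : Fin (4 * g))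
      simp only [Nat.zero_add, pref_zero, one_mul] at h5 h6
      rw [h5, h6]
    · rw [if_neg h4]
      obtain rfl : j = 4 * g - 1 := by omega
      have h5 := sd_lb h (⟨4 * g - 1, by omega⟩ : Fin (4 * g))
      have h6 := pref_succ u (⟨4 * g - 1, by omega⟩ : Fin (4 * g))
      simp only at h5 h6
      have h8 : 4 * g - 1 + 1 = 4 * g := by omega
      rw [h8, pref_top, hu] at h6
      have h9 := eq_inv_of_mul_eq_one_left h6.symm
      rw [h5, h9, w_slab_inv h]

/-- **the 2-form of the fan cycle** -/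
theorem om_zc {w w' : Γ → ℝ} {u : Let g → Γ} (h : ∀ a, w (u a)⁻¹ = w (u a))
    (h' : ∀ a, w' (u a)⁻¹ = w' (u a)) (hu : wpr u (rel g) = 1) (hg : 0 < g) :
    om w w' (zc u) = Ker21.om g (w ∘ lb u) (w' ∘ lb u) := by
  unfold zc rel
  rw [om_fan u h h']
  set F : ℕ → ℝ := fun j => if hj : j < 4 * g then
    omT w w' (pref u j) (slab u (side g ⟨j, hj⟩)) else 0 with hF
  have e1 : ∑ j : Fin (4 * g), omT w w' (1 * wpr u ((List.ofFn (side g)).take j))
      (slab u (side g j)) = ∑ j : Fin (4 * g), F j := by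
    refine Finset.sum_congr rfl fun j _ => ?_
    rw [hF]
    simp only [j.2, dif_pos, one_mul]
    rfl
  rw [e1, ← Finset.sum_range (fun j => F j)]
  obtain ⟨n, hn⟩ : ∃ n, 4 * g = n + 2 := ⟨4 * g - 2, by omega⟩
  have e2 : ∑ j ∈ Finset.range (4 * g), F j = F 0 + ∑ j ∈ Finset.Icc 1 (4 * g - 2), F j +
      F (4 * g - 1) := by
    rw [show 4 * g = (4 * g - 2) + 1 + 1 by omega, Finset.sum_range_succ,
      Finset.range_eq_Ico, Finset.sum_eq_sum_Ico_succ_bot (by omega)]
    have e3 : 4 * g - 2 + 1 + 1 - 1 = 4 * g - 2 + 1 := by omega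
    have e4 : 4 * g - 2 + 1 + 1 - 2 = 4 * g - 2 := by omega
    rw [e3, e4]
    rfl
  have f0 : F 0 = 0 := by
    rw [hF]
    simp only
    rw [dif_pos (by omega), pref_zero, omT_one_left]
  have f1 : F (4 * g - 1) = 0 := by
    rw [hF]
    simp only
    rw [dif_pos (by omega)]
    have h6 := pref_succ u (⟨4 * g - 1, by omega⟩ : Fin (4 * g))
    simp only at h6
    have h8 : 4 * g - 1 + 1 = 4 * g := by omega
    rw [h8, pref_top, hu] at h6
    have h9 := eq_inv_of_mul_eq_one_left h6.symm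
    set x := slab u (side g (⟨4 * g - 1, by omega⟩ : Fin (4 * g))) with hx
    rw [h9]
    have h10 : w (x⁻¹)⁻¹ = w x⁻¹ := by rw [inv_inv, hx, w_slab_inv h]
    have h11 : w' (x⁻¹)⁻¹ = w' x⁻¹ := by rw [inv_inv, hx, w_slab_inv h']
    have h12 := omT_inv h10 h11
    rw [inv_inv] at h12
    exact h12
  rw [e2, f0, f1, zero_add, add_zero, Ker21.om_apply]
  refine Finset.sum_congr rfl fun j hj => ?_
  rw [Finset.mem_Icc] at hj
  have hj4 : j < 4 * g := by omega
  have h5 := sd_lb h ⟨j, hj4⟩
  have h5' := sd_lb h' ⟨j, hj4⟩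
  have h6 := pref_succ u ⟨j, hj4⟩
  simp only at h5 h5' h6
  rw [dg_lb h hu hj.1 (by omega) hg, dg_lb h' hu hj.1 (by omega) hg,
    dg_lb h hu (by omega) (by omega) hg, dg_lb h' hu (by omega) (by omega) hg, h5, h5', hF]
  simp only
  rw [dif_pos hj4, h6]
  unfold omT wdg tri
  ring

end Pool.Agent.Lib.MP_e3aa0a_gt.FVL.Fan21
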