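import Pool.Agent.Lib.MP_e3aa0a_gt.FVL.DefsCR66
import Pool.Agent.Lib.MP_e3aa0a_gt.FVL.Fan21
import Pool.Agent.Lib.MP_e3aa0a_gt.FVL.FV16

/-!
# FVL: the names of the final statement

The genus is `k + 1`.
-/

set_option autoImplicit false

namespace Pool.Agent.Lib.MP_e3aa0a_gt.FVL

open Pool.Agent.Lib.FVol Filter Topology

/-- the fundamental cycle of the surface group of genus `k + 1`: the fan triangulation of the
polygon of the relator -/
noncomputable def zS (k : ℕ) : C2 (SG (k + 1)) :=
  Fan21.zc (fun x => (PresentedGroup.of x : SG (k + 1)))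

/-- the element `b_1`, the class of a non-separating simple closed curve -/
def b1 (k : ℕ) : SG (k + 1) := PresentedGroup.of (Sum.inr 0)

/-- `μ > 1` is the growth rate of the numbers `cr (ψ (φ^n (χ b_1)))`, the intersection numbers
of the images under `φ^n` of the non-separating simple closed curves with the non-separating simple
closed curves -/
def Stretch {k : ℕ} (φ : SG (k + 1) ≃* SG (k + 1)) (μ : ℝ) : Prop :=
  1 < μ ∧ ∀ ψ χ : SG (k + 1) ≃* SG (k + 1),
    Tendsto (fun n : ℕ => Real.log (cr (ψ (hpow φ.toMonoidHom n (χ (b1 k)))) : ℝ) / n) atTop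
      (𝓝 (Real.log μ))

end Pool.Agent.Lib.MP_e3aa0a_gt.FVL
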