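import Mathlib

set_option autoImplicit false

/-!
Linear algebra of the lower bound for the filling volume: an isotropic subspace which is large at
the bottom is small at the top.
-/

namespace Pool.Agent.Lib.MP_e3aa0a_gt.FVL

open Module

namespace Iso32

/-- The dimension of an isotropic subspace of a form whose kernel has dimension at most `m`. -/
lemma isotropic_le {K E : Type*} [Field K] [AddCommGroup E] [Module K E] [FiniteDimensional K E]
    (B : LinearMap.BilinForm K E) (V : Submodule K E)
    (hV : ∀ x ∈ V, ∀ y ∈ V, B x y = 0) {m : ℕ} (hm : finrank K (LinearMap.ker B) ≤ m) :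
    2 * finrank K V ≤ finrank K E + m := by
  have h1 := LinearMap.BilinForm.finrank_add_finrank_orthogonal' (B := B) V
  have h2 : V ≤ B.orthogonal V := by
    intro y hy x hx
    exact hV x hx y hy
  have h3 : finrank K V ≤ finrank K (B.orthogonal V) := Submodule.finrank_mono h2
  have h4 : finrank K (V ⊓ LinearMap.ker B : Submodule K E) ≤ finrank K (LinearMap.ker B) :=
    Submodule.finrank_mono inf_le_right
  have h5 : finrank K V + finrank K (B.orthogonal V) =
      finrank K E + finrank K (V ⊓ LinearMap.ker B : Submodule K E) := h1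
  omega

/-- rank and kernel of the first coordinate on a subspace of a product -/
lemma fst_rank {K E F : Type*} [Field K] [AddCommGroup E] [Module K E] [FiniteDimensional K E]
    [AddCommGroup F] [Module K F] [FiniteDimensional K F] (V : Submodule K (E × F)) :
    finrank K V = finrank K (V.map (LinearMap.fst K E F)) +
      finrank K (V ⊓ LinearMap.ker (LinearMap.fst K E F) : Submodule K (E × F)) := by
  have h1 := LinearMap.finrank_range_add_finrank_ker ((LinearMap.fst K E F).domRestrict V)
  have h2 : LinearMap.range ((LinearMap.fst K E F).domRestrict V) =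
      V.map (LinearMap.fst K E F) := by
    ext x
    simp [Submodule.mem_map]
  have h3 : finrank K (LinearMap.ker ((LinearMap.fst K E F).domRestrict V)) =
      finrank K (V ⊓ LinearMap.ker (LinearMap.fst K E F) : Submodule K (E × F)) := by
    have h4 : (LinearMap.ker ((LinearMap.fst K E F).domRestrict V)).map V.subtype =
        V ⊓ LinearMap.ker (LinearMap.fst K E F) := by
      ext x
      constructor
      · rintro ⟨y, hy, rfl⟩
        exact ⟨y.2, hy⟩
      · rintro ⟨hx, hx'⟩
        exact ⟨⟨x, hx⟩, hx', rfl⟩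
    rw [← h4]
    exact (LinearEquiv.finrank_eq
      (Submodule.equivMapOfInjective V.subtype V.injective_subtype _))
  rw [h2, h3] at h1
  exact h1.symm

/-- The form `om1 (top) - om0 (bottom)`. -/
noncomputable def form {K κ : Type*} [Field K] (om0 om1 : LinearMap.BilinForm K (κ → K)) :
    LinearMap.BilinForm K ((κ → K) × (κ → K)) :=
  om1.compl₁₂ (LinearMap.snd K _ _) (LinearMap.snd K _ _) -
    om0.compl₁₂ (LinearMap.fst K _ _) (LinearMap.fst K _ _)

lemma form_apply {K κ : Type*} [Field K] (om0 om1 : LinearMap.BilinForm K (κ → K))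
    (p q : (κ → K) × (κ → K)) : form om0 om1 p q = om1 p.2 q.2 - om0 p.1 q.1 := by
  simp [form]

lemma ker_form {K κ : Type*} [Field K] [Fintype κ] (om0 om1 : LinearMap.BilinForm K (κ → K))
    (k0 : ∀ x, (∀ y, om0 x y = 0) → ∃ c : K, ∀ i, x i = c)
    (k1 : ∀ x, (∀ y, om1 x y = 0) → ∃ c : K, ∀ i, x i = c) :
    finrank K (LinearMap.ker (form om0 om1)) ≤ 2 := by
  have hle : LinearMap.ker (form om0 om1) ≤
      LinearMap.range (((LinearMap.toSpanSingleton K (κ → K) 1)).prodMap
        (LinearMap.toSpanSingleton K (κ → K) 1)) := by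
    intro p hp
    rw [LinearMap.mem_ker] at hp
    have h0 : ∀ y, om0 p.1 y = 0 := by
      intro y
      have := congrArg (fun f => f (y, (0 : κ → K))) hp
      simpa [form_apply] using this
    have h1 : ∀ y, om1 p.2 y = 0 := by
      intro y
      have := congrArg (fun f => f ((0 : κ → K), y)) hp
      simpa [form_apply] using this
    obtain ⟨a, ha⟩ := k0 _ h0
    obtain ⟨b, hb⟩ := k1 _ h1
    refine ⟨(a, b), ?_⟩
    ext i
    · simp [ha i]
    · simp [hb i]
  refine (Submodule.finrank_mono hle).trans ?_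
  refine (LinearMap.finrank_range_le _).trans ?_
  simp

end Iso32

open Iso32 in
/-- If `om1 (top) = om0 (bottom)` on `W`, both forms have the constants as kernel, `W` has corank
at most one at the bottom, and `W` contains two vectors which vanish at the bottom and are a
constant and a point mass (at `i0`) at the top, then every vector of `W` which vanishes at the
bottom is constant at the top away from `i0`. -/
theorem iso32 {K ι κ : Type*} [Field K] [Fintype κ] (W : Submodule K (ι → K))
    (r0 r1 : (ι → K) →ₗ[K] (κ → K)) (om0 om1 : LinearMap.BilinForm K (κ → K))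
    (k0 : ∀ x, (∀ y, om0 x y = 0) → ∃ c : K, ∀ i, x i = c)
    (k1 : ∀ x, (∀ y, om1 x y = 0) → ∃ c : K, ∀ i, x i = c)
    (hiso : ∀ w ∈ W, ∀ w' ∈ W, om1 (r1 w) (r1 w') = om0 (r0 w) (r0 w'))
    (hrk : Fintype.card κ ≤ finrank K (W.map r0) + 1)
    (i0 : κ) (hκ : ∃ i1 : κ, i1 ≠ i0) (w1 w2 : ι → K) (hw1 : w1 ∈ W) (hw2 : w2 ∈ W)
    (z1 : r0 w1 = 0) (z2 : r0 w2 = 0) (c1 : K) (hc1 : c1 ≠ 0) (t1 : ∀ i, r1 w1 i = c1)
    (t2 : ∀ i, i ≠ i0 → r1 w2 i = 0) (t3 : r1 w2 i0 ≠ 0)
    (w : ι → K) (hw : w ∈ W) (hz : r0 w = 0) (i j : κ) (hi : i ≠ i0) (hj : j ≠ i0) :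
    r1 w i = r1 w j := by
  classical
  obtain ⟨i1, hi1⟩ := hκ
  set V : Submodule K ((κ → K) × (κ → K)) := W.map (r0.prod r1) with hV
  have hiso' : ∀ x ∈ V, ∀ y ∈ V, form om0 om1 x y = 0 := by
    rintro x ⟨a, ha, rfl⟩ y ⟨b, hb, rfl⟩
    rw [form_apply]
    simp [hiso a ha b hb]
  have d1 := isotropic_le (form om0 om1) V hiso' (ker_form om0 om1 k0 k1)
  have d2 : finrank K ((κ → K) × (κ → K)) = Fintype.card κ + Fintype.card κ := by
    simp
  have d3 := fst_rank V
  have d4 : V.map (LinearMap.fst K (κ → K) (κ → K)) = W.map r0 := by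
    rw [hV, ← Submodule.map_comp, LinearMap.fst_prod]
  set V0 : Submodule K ((κ → K) × (κ → K)) :=
    V ⊓ LinearMap.ker (LinearMap.fst K (κ → K) (κ → K)) with hV0
  have d5 : finrank K V0 ≤ 2 := by
    rw [d4] at d3
    omega
  have hmem : ∀ x ∈ W, r0 x = 0 → ((0 : κ → K), r1 x) ∈ V0 := by
    intro x hx h0
    refine ⟨⟨x, hx, ?_⟩, ?_⟩
    · simp [h0]
    · simp
  have hli : LinearIndependent K ![((0 : κ → K), r1 w1), ((0 : κ → K), r1 w2)] := by
    rw [LinearIndependent.pair_iff]
    intro s t hst
    have e1 : ∀ k, s * r1 w1 k + t * r1 w2 k = 0 := by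
      intro k
      have := congrArg (fun p : (κ → K) × (κ → K) => p.2 k) hst
      simpa using this
    have e2 := e1 i1
    rw [t1, t2 i1 hi1, mul_zero, add_zero] at e2
    have hs : s = 0 := by
      rcases mul_eq_zero.1 e2 with h | h
      · exact h
      · exact absurd h hc1
    have e3 := e1 i0
    rw [hs, zero_mul, zero_add] at e3
    rcases mul_eq_zero.1 e3 with h | h
    · exact ⟨hs, h⟩
    · exact absurd h t3
  have hspan : Submodule.span K (Set.range ![((0 : κ → K), r1 w1), ((0 : κ → K), r1 w2)]) =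
      V0 := by
    refine Submodule.eq_of_le_of_finrank_le ?_ ?_
    · rw [Submodule.span_le]
      rintro x ⟨k, rfl⟩
      fin_cases k
      · exact hmem w1 hw1 z1
      · exact hmem w2 hw2 z2
    · rw [finrank_span_eq_card hli]
      simpa using d5
  have hx : ((0 : κ → K), r1 w) ∈ Submodule.span K
      (Set.range ![((0 : κ → K), r1 w1), ((0 : κ → K), r1 w2)]) := by
    rw [hspan]
    exact hmem w hw hz
  rw [Matrix.range_cons, Matrix.range_cons, Matrix.range_empty, Set.union_empty,
    Set.singleton_union, Submodule.mem_span_pair] at hx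
  obtain ⟨s, t, hst⟩ := hx
  have e : ∀ k, k ≠ i0 → r1 w k = s * c1 := by
    intro k hk
    have := congrArg (fun p : (κ → K) × (κ → K) => p.2 k) hst
    simp only [Prod.smul_mk, smul_zero, Prod.mk_add_mk, add_zero, Pi.add_apply, Pi.smul_apply,
      smul_eq_mul, t1, t2 k hk, mul_zero] at this
    exact this.symm
  rw [e i hi, e j hj]

end Pool.Agent.Lib.MP_e3aa0a_gt.FVL
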