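import Mathlib
import Pool.Agent.Lib.MP_e3aa0a_gt.FVL.Lin83
import Pool.Agent.Lib.MP_e3aa0a_gt.FVL.Iso32

set_option autoImplicit false

/-!
The linear part of the lower bound in one statement: `bound83` and `iso32` together.
-/

namespace Pool.Agent.Lib.MP_e3aa0a_gt.FVL

open Module

/-- the solution space of the equations `w a + w b = w c + w d` -/
def Sol32 {ι : Type*} {N : ℕ} (q : Fin N → Fin 4 → ι) (w : ι → ℝ) : Prop :=
  ∀ j, w (q j 0) + w (q j 1) = w (q j 2) + w (q j 3)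

/-- the solution space as a subspace -/
def solSub32 {ι : Type*} {N : ℕ} (q : Fin N → Fin 4 → ι) : Submodule ℝ (ι → ℝ) where
  carrier := {w | Sol32 q w}
  zero_mem' := fun _ => by simp
  add_mem' := fun {a b} ha hb j => by
    have h1 := ha j
    have h2 := hb j
    simp only [Pi.add_apply]
    linarith
  smul_mem' := fun c a ha j => by
    have h1 := ha j
    simp only [Pi.smul_apply, smul_eq_mul]
    rw [← mul_add, ← mul_add, h1]

/-- restriction to labels indexed by `κ` -/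
def res32 {ι κ : Type*} (e : κ → ι) : (ι → ℝ) →ₗ[ℝ] (κ → ℝ) where
  toFun w := fun k => w (e k)
  map_add' _ _ := rfl
  map_smul' _ _ := rfl

theorem top32 {ι κ : Type*} [Fintype κ] {N : ℕ} (q : Fin N → Fin 4 → ι) (e0 e1 : κ → ι)
    (om : LinearMap.BilinForm ℝ (κ → ℝ))
    (kom : ∀ x, (∀ y, om x y = 0) → ∃ c : ℝ, ∀ i, x i = c)
    (hiso : ∀ w w' : ι → ℝ, Sol32 q w → Sol32 q w' →
      om (fun k => w (e1 k)) (fun k => w' (e1 k)) = om (fun k => w (e0 k)) (fun k => w' (e0 k)))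
    {m : ℕ} (f : Fin m → ι → ℝ) (hf : ∀ i, Sol32 q (f i))
    (hli : LinearIndependent ℝ (fun i => (fun k => f i (e0 k) : κ → ℝ)))
    (hm : Fintype.card κ ≤ m + 1) (i0 : κ)
    (w1 w2 : ι → ℝ) (h1 : Sol32 q w1) (h2 : Sol32 q w2)
    (z1 : ∀ k, w1 (e0 k) = 0) (z2 : ∀ k, w2 (e0 k) = 0)
    (c1 : ℝ) (hc1 : c1 ≠ 0) (t1 : ∀ k, w1 (e1 k) = c1)
    (t2 : ∀ k, k ≠ i0 → w2 (e1 k) = 0) (t3 : w2 (e1 i0) ≠ 0)
    (i j : κ) (hi : i ≠ i0) (hj : j ≠ i0) (w : ι → ℝ) (hw : Sol32 q w) :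
    |w (e1 i) - w (e1 j)| ≤ √2 * √8 ^ N * ∑ k, |w (e0 k)| := by
  classical
  have key : ∀ w : ι → ℝ, (∀ j, w (q j 0) + w (q j 1) = w (q j 2) + w (q j 3)) →
      (∀ e ∈ Finset.univ.image e0, w e = 0) → w (e1 i) = w (e1 j) := by
    intro w hw hz
    have hrk : Fintype.card κ ≤ finrank ℝ ((solSub32 q).map (res32 e0)) + 1 := by
      have hle : Submodule.span ℝ (Set.range fun i => (fun k => f i (e0 k) : κ → ℝ)) ≤
          (solSub32 q).map (res32 e0) := by
        rw [Submodule.span_le]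
        rintro x ⟨i, rfl⟩
        exact ⟨f i, hf i, rfl⟩
      have h3 := Submodule.finrank_mono hle
      rw [finrank_span_eq_card hli, Fintype.card_fin] at h3
      omega
    exact iso32 (solSub32 q) (res32 e0) (res32 e1) om om kom kom
      (fun a ha b hb => hiso a b ha hb) hrk i0 ⟨i, hi⟩ w1 w2 h1 h2 (funext z1) (funext z2)
      c1 hc1 t1 t2 t3 w hw (funext fun k => hz _ (Finset.mem_image_of_mem _ (Finset.mem_univ k)))
      i j hi hj
  have h3 := bound83 q (Finset.univ.image e0) (e1 i) (e1 j) key w hw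
  refine h3.trans (mul_le_mul_of_nonneg_left ?_ (by positivity))
  have h4 : ∑ e ∈ Finset.univ.image e0, |w e| ≤
      ∑ e ∈ Finset.univ.image e0, ∑ k ∈ Finset.univ.filter (fun k => e0 k = e), |w (e0 k)| := by
    refine Finset.sum_le_sum fun e he => ?_
    obtain ⟨k, -, rfl⟩ := Finset.mem_image.1 he
    exact Finset.single_le_sum (f := fun k => |w (e0 k)|) (fun _ _ => abs_nonneg _)
      (Finset.mem_filter.2 ⟨Finset.mem_univ k, rfl⟩)
  refine h4.trans (le_of_eq ?_)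
  exact Finset.sum_fiberwise_of_maps_to
    (fun k _ => Finset.mem_image_of_mem e0 (Finset.mem_univ k)) (fun k => |w (e0 k)|)

end Pool.Agent.Lib.MP_e3aa0a_gt.FVL
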