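import Pool.Agent.Lib.MP_e3aa0a_gt.FVL.Glu83
import Pool.Agent.Lib.MP_e3aa0a_gt.FVL.Comb32

/-!
# FVL, module Asm83: from a filling of `θ z - z` and a tropical label function to the bound
-/

set_option autoImplicit false

namespace Pool.Agent.Lib.MP_e3aa0a_gt.FVL

open Pool.Agent.Lib.FVol

variable {G Γ : Type*} [Group G] [Group Γ]

/-- the action of a homomorphism between two groups on 2-chains -/
noncomputable def pushG (f : G →* Γ) (c : C2 G) : C2 Γ :=
  c.mapDomain (fun x => (f x.1, f x.2))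

/-- the action of a homomorphism between two groups on 3-chains -/
noncomputable def pushG3 (f : G →* Γ) (c : C3 G) : C3 Γ :=
  c.mapDomain (fun x => (f x.1, f x.2.1, f x.2.2))

theorem pushG_add (f : G →* Γ) (c c' : C2 G) : pushG f (c + c') = pushG f c + pushG f c' :=
  Finsupp.mapDomain_add

theorem pushG_zero (f : G →* Γ) : pushG f (0 : C2 G) = 0 := Finsupp.mapDomain_zero

theorem pushG_neg (f : G →* Γ) (c : C2 G) : pushG f (-c) = - pushG f c := by
  have h : pushG f (-c) + pushG f c = 0 := by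
    rw [← pushG_add, neg_add_cancel, pushG_zero]
  exact eq_neg_of_add_eq_zero_left h

theorem pushG_sub (f : G →* Γ) (c c' : C2 G) : pushG f (c - c') = pushG f c - pushG f c' := by
  rw [sub_eq_add_neg, pushG_add, pushG_neg, ← sub_eq_add_neg]

theorem pushG_zsmul (f : G →* Γ) (n : ℤ) (c : C2 G) : pushG f (n • c) = n • pushG f c :=
  Finsupp.mapDomain_smul n c

theorem pushG_e2 (f : G →* Γ) (a b : G) : pushG f (e2 a b) = e2 (f a) (f b) := by
  simp [pushG, e2, Finsupp.mapDomain_single]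

theorem pushG_comp_push (f : G →* Γ) (θ : G →* G) (c : C2 G) :
    pushG f (push θ c) = pushG (f.comp θ) c := by
  rw [pushG, push, pushG, ← Finsupp.mapDomain_comp]
  rfl

theorem push_comp_pushG (g : Γ →* Γ) (f : G →* Γ) (c : C2 G) :
    push g (pushG f c) = pushG (g.comp f) c := by
  rw [pushG, push, pushG, ← Finsupp.mapDomain_comp]
  rfl

theorem bd_pushG3 (f : G →* Γ) (b : C3 G) : bd Γ (pushG3 f b) = pushG f (bd G b) := by
  induction b using Finsupp.induction_linear with
  | zero => simp [pushG3, pushG]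
  | add b c hb hc =>
    have : pushG3 f (b + c) = pushG3 f b + pushG3 f c := Finsupp.mapDomain_add
    rw [this, map_add, map_add, hb, hc, pushG_add]
  | single x z =>
    obtain ⟨a, b, c⟩ := x
    have h1 : Finsupp.single (a, b, c) z = z • e3 a b c := by simp [e3]
    have h2 : pushG3 f (z • e3 a b c) = z • e3 (f a) (f b) (f c) := by
      simp [pushG3, e3, Finsupp.mapDomain_single]
    rw [h1, h2, map_zsmul, map_zsmul, bd_e3, bd_e3, pushG_zsmul, pushG_sub, pushG_add, pushG_sub,
      pushG_e2, pushG_e2, pushG_e2, pushG_e2, map_mul, map_mul]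

theorem bd2_pushG (f : G →* Γ) (c : C2 G) (h : bd2 G c = 0) : bd2 Γ (pushG f c) = 0 := by
  have key : ∀ c : C2 G, bd2 Γ (pushG f c) = Finsupp.lmapDomain ℤ ℤ f (bd2 G c) := by
    intro c
    induction c using Finsupp.induction_linear with
    | zero => simp [pushG]
    | add b c hb hc => rw [pushG_add, map_add, map_add, hb, hc, map_add]
    | single x z =>
      obtain ⟨a, b⟩ := x
      have h1 : Finsupp.single (a, b) z = z • e2 a b := by simp [e2]
      rw [h1, pushG_zsmul, map_zsmul, map_zsmul, map_zsmul, pushG_e2, bd2_e2, bd2_e2, map_add,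
        map_sub]
      simp only [Finsupp.lmapDomain_apply, Finsupp.mapDomain_single, map_mul]
  rw [key, h, map_zero]

/-- Two of the three sums of opposite edges of the simplex `[a|b|c]` are equal. -/
def Four {M : Type*} [AddCommGroup M] (L : Γ → M) (a b c : Γ) : Prop :=
  L a + L c = L (a * b) + L (b * c) ∨
    L (a * b) + L (b * c) = L (a * b * c) + L b ∨ L (a * b * c) + L b = L a + L c

/-- The tropical label functions: `ρ : G →* Γ` is a homomorphism, `γ ∈ Γ`; a label and its inverse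
have the same value, and the four term relation holds for all simplices with vertices in
`ρ(G) ∪ ρ(G) γ` which occur (bottom, and the three types of simplices of the collar). -/
structure IsTrop {M : Type*} [AddCommGroup M] (ρ : G →* Γ) (γ : Γ) (L : Γ → M) : Prop where
  inv : ∀ g, L g⁻¹ = L g
  bot : ∀ a b c : G, Four L (ρ a) (ρ b) (ρ c)
  col1 : ∀ a b : G, Four L γ (γ⁻¹ * ρ a * γ) (γ⁻¹ * ρ b * γ)
  col2 : ∀ a b : G, Four L (ρ a) γ (γ⁻¹ * ρ b * γ)
  col3 : ∀ a b : G, Four L (ρ a) (ρ b) γ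

theorem exists_sel83 {M : Type*} [AddCommGroup M] (L : Γ → M) :
    ∃ κ : Γ × Γ × Γ → Fin 3, ∀ x : Γ × Γ × Γ, Four L x.1 x.2.1 x.2.2 →
      ∀ (l : M →+ ℝ), Rl (fun g => l (L g)) (κ x) x := by
  classical
  have key : ∀ x : Γ × Γ × Γ, ∃ k : Fin 3, Four L x.1 x.2.1 x.2.2 →
      ∀ l : M →+ ℝ, Rl (fun g => l (L g)) k x := by
    rintro ⟨a, b, c⟩
    by_cases h : Four L a b c
    · rcases h with h1 | h1 | h1
      · refine ⟨2, fun _ l => ?_⟩
        have : l (L a) + l (L c) = l (L (a * b)) + l (L (b * c)) := by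
          rw [← map_add, ← map_add, h1]
        exact this
      · refine ⟨0, fun _ l => ?_⟩
        have : l (L (a * b)) + l (L (b * c)) = l (L (a * b * c)) + l (L b) := by
          rw [← map_add, ← map_add, h1]
        exact this
      · refine ⟨1, fun _ l => ?_⟩
        have : l (L (a * b * c)) + l (L b) = l (L a) + l (L c) := by
          rw [← map_add, ← map_add, h1]
        exact this
    · exact ⟨0, fun h' => absurd h' h⟩
  choose κ hκ using key
  exact ⟨κ, hκ⟩

theorem support_lin83 {X Y : Type*} (F : X → (Y →₀ ℤ)) (c : X →₀ ℤ) (y : Y)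
    (hy : y ∈ (Finsupp.linearCombination ℤ F c).support) : ∃ x ∈ c.support, y ∈ (F x).support := by
  classical
  rw [Finsupp.linearCombination_apply, Finsupp.sum] at hy
  obtain ⟨x, hx, hxy⟩ := Finset.mem_biUnion.1 (Finsupp.support_finsetSum hy)
  exact ⟨x, hx, Finsupp.support_smul hxy⟩

theorem support_hcj83 (γ : Γ) (c : C2 Γ) (y : Γ × Γ × Γ) (hy : y ∈ (hcj γ c).support) :
    ∃ x ∈ c.support, y = (γ, cj γ x.1, cj γ x.2) ∨ y = (x.1, γ, cj γ x.2) ∨
      y = (x.1, x.2, γ) := by
  classical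
  obtain ⟨x, hx, hxy⟩ := support_lin83 _ _ _ hy
  refine ⟨x, hx, ?_⟩
  have h1 := Finsupp.support_add hxy
  rcases Finset.mem_union.1 h1 with h2 | h2
  · rcases Finset.mem_union.1 (Finsupp.support_sub h2) with h3 | h3
    · exact Or.inl (Finset.mem_singleton.1 (Finsupp.support_single_subset h3))
    · exact Or.inr (Or.inl (Finset.mem_singleton.1 (Finsupp.support_single_subset h3)))
  · exact Or.inr (Or.inr (Finset.mem_singleton.1 (Finsupp.support_single_subset h2)))

/-- **The main inequality.** `z` is a 2-cycle of `G` with labels `lab k`, `k ∈ κ` (the edges of a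
one vertex triangulation), `B` its 2-form; `b` is a filling of `θ z - z`; `ρ` is a homomorphism to
a group `Γ` with a tropical label function `L`, `γ ∈ Γ`. Suppose that the values `L (ρ (lab k))`
have corank at most one, and that two functionals vanish on them and are, on the values
`L (γ⁻¹ ρ(θ(lab k)) γ)`, a constant and a point mass at `i0`. Then for every functional `l`
the difference of two top values is at most `√2 √8^(|b| + 3|z| + 2 #letters)` times the sum of the
bottom values. -/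
theorem main83 {M : Type*} [AddCommGroup M] {L : Γ → M} (ρ : G →* Γ)
    (θ : G →* G) (γ : Γ) (hL : IsTrop ρ γ L) (z : C2 G) (hz : bd2 G z = 0) (b : C3 G)
    (hb : bd G b = push θ z - z) {κ : Type*} [Fintype κ] (lab : κ → G) (Let : Finset G)
    (B : LinearMap.BilinForm ℝ (κ → ℝ))
    (hker : ∀ x, (∀ y, B x y = 0) → ∃ c : ℝ, ∀ i, x i = c)
    (hom : ∀ (f : G →* Γ) (w w' : Γ → ℝ), (∀ a ∈ Let, w (f a)⁻¹ = w (f a)) →
      (∀ a ∈ Let, w' (f a)⁻¹ = w' (f a)) →
      om w w' (pushG f z) = B (fun k => w (f (lab k))) (fun k => w' (f (lab k))))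
    {m : ℕ} (f : Fin m → M →+ ℝ)
    (hli : LinearIndependent ℝ (fun i => (fun k => f i (L (ρ (lab k))) : κ → ℝ)))
    (hm : Fintype.card κ ≤ m + 1) (i0 : κ) (l1 l2 : M →+ ℝ)
    (z1 : ∀ k, l1 (L (ρ (lab k))) = 0) (z2 : ∀ k, l2 (L (ρ (lab k))) = 0)
    (c1 : ℝ) (hc1 : c1 ≠ 0) (t1 : ∀ k, l1 (L (γ⁻¹ * ρ (θ (lab k)) * γ)) = c1)
    (t2 : ∀ k, k ≠ i0 → l2 (L (γ⁻¹ * ρ (θ (lab k)) * γ)) = 0)
    (t3 : l2 (L (γ⁻¹ * ρ (θ (lab i0)) * γ)) ≠ 0)
    (i j : κ) (hi : i ≠ i0) (hj : j ≠ i0) (l : M →+ ℝ) :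
    |l (L (γ⁻¹ * ρ (θ (lab i)) * γ)) - l (L (γ⁻¹ * ρ (θ (lab j)) * γ))| ≤
      √2 * √8 ^ (nrm b + 3 * nrm z + 2 * Let.card) * ∑ k, |l (L (ρ (lab k)))| := by
  classical
  obtain ⟨σ, hσ⟩ := exists_sel83 L
  let ft : G →* Γ := (cj γ).comp (ρ.comp θ)
  have hft : ∀ g, ft g = γ⁻¹ * ρ (θ g) * γ := fun g => cj_apply _ _
  -- the filling in the big group
  let b' : C3 Γ := hcj γ (pushG (ρ.comp θ) z) + pushG3 ρ b
  have hb' : bd Γ b' = pushG ft z - pushG ρ z := by
    rw [map_add, bd_pushG3, hb, bd_hcj, bd2_pushG _ _ hz, map_zero, sub_zero, pushG_sub,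
      pushG_comp_push, push_comp_pushG]
    abel
  have hnb : nrm b' ≤ nrm b + 3 * nrm z := by
    have h1 := nrm_add_le (hcj γ (pushG (ρ.comp θ) z)) (pushG3 ρ b)
    have h2 := nrm_hcj_le γ (pushG (ρ.comp θ) z)
    have h3 : nrm (pushG (ρ.comp θ) z) ≤ nrm z := nrm_mapDomain_le _ _
    have h4 : nrm (pushG3 ρ b) ≤ nrm b := nrm_mapDomain_le _ _
    have h5 : nrm b' = nrm (hcj γ (pushG (ρ.comp θ) z) + pushG3 ρ b) := rfl
    omega
  let I : Finset Γ := Let.image ρ ∪ Let.image ft
  have hI : I.card ≤ 2 * Let.card := by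
    refine (Finset.card_union_le _ _).trans ?_
    have h1 := Finset.card_image_le (s := Let) (f := ρ)
    have h2 := Finset.card_image_le (s := Let) (f := ft)
    omega
  have hF : ∀ x ∈ b'.support, Four L x.1 x.2.1 x.2.2 := by
    intro x hx
    rcases Finset.mem_union.1 (Finsupp.support_add hx) with h1 | h1
    · obtain ⟨y, hy, h2⟩ := support_hcj83 _ _ _ h1
      obtain ⟨u, hu, rfl⟩ := Finset.mem_image.1 (Finsupp.mapDomain_support hy)
      rcases h2 with rfl | rfl | rfl
      · have := hL.col1 (θ u.1) (θ u.2)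
        rw [← cj_apply, ← cj_apply] at this
        exact this
      · have := hL.col2 (θ u.1) (θ u.2)
        rw [← cj_apply] at this
        exact this
      · exact hL.col3 (θ u.1) (θ u.2)
    · obtain ⟨u, hu, rfl⟩ := Finset.mem_image.1 (Finsupp.mapDomain_support h1)
      exact hL.bot _ _ _
  have hadm : ∀ l : M →+ ℝ, Adm b' σ I (fun g => l (L g)) :=
    fun l => ⟨fun x hx => hσ x (hF x hx) l, fun g _ => by
      show l (L g⁻¹) = l (L g)
      rw [hL.inv]⟩
  let e0 : κ → Γ := fun k => ρ (lab k)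
  let e1 : κ → Γ := fun k => ft (lab k)
  have hiso : ∀ w ∈ AdmS b' σ I, ∀ w' ∈ AdmS b' σ I,
      B (res32 e1 w) (res32 e1 w') = B (res32 e0 w) (res32 e0 w') := by
    intro w hw w' hw'
    have h1 := adm_isotropic hb' hw hw'
    rw [hom ft w w' (fun a ha => hw.2 _ (Finset.mem_union_right _ (Finset.mem_image_of_mem _ ha)))
        (fun a ha => hw'.2 _ (Finset.mem_union_right _ (Finset.mem_image_of_mem _ ha))),
      hom ρ w w' (fun a ha => hw.2 _ (Finset.mem_union_left _ (Finset.mem_image_of_mem _ ha)))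
        (fun a ha => hw'.2 _ (Finset.mem_union_left _ (Finset.mem_image_of_mem _ ha)))] at h1
    exact h1
  have hrk : Fintype.card κ ≤ Module.finrank ℝ ((AdmS b' σ I).map (res32 e0)) + 1 := by
    have hle : Submodule.span ℝ (Set.range fun i => (fun k => f i (L (ρ (lab k))) : κ → ℝ)) ≤
        (AdmS b' σ I).map (res32 e0) := by
      rw [Submodule.span_le]
      rintro x ⟨i, rfl⟩
      exact ⟨fun g => f i (L g), hadm (f i), rfl⟩
    have h3 := Submodule.finrank_mono hle
    rw [finrank_span_eq_card hli, Fintype.card_fin] at h3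
    omega
  have key : ∀ w : Γ → ℝ, Adm b' σ I w → (∀ e ∈ Finset.univ.image e0, w e = 0) →
      w (e1 i) = w (e1 j) := by
    intro w hw hz0
    exact iso32 (AdmS b' σ I) (res32 e0) (res32 e1) B B hker hker
      (fun a ha b hb => hiso a ha b hb) hrk i0 ⟨i, hi⟩
      (fun g => l1 (L g)) (fun g => l2 (L g)) (hadm l1) (hadm l2) (funext z1) (funext z2)
      c1 hc1 (fun k => by
        show l1 (L (ft (lab k))) = c1
        rw [hft]; exact t1 k)
      (fun k hk => by
        show l2 (L (ft (lab k))) = 0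
        rw [hft]; exact t2 k hk)
      (by
        show l2 (L (ft (lab i0))) ≠ 0
        rw [hft]; exact t3)
      w hw (funext fun k => hz0 _ (Finset.mem_image_of_mem _ (Finset.mem_univ k)))
      i j hi hj
  have h3 := adm_bound b' σ I (Finset.univ.image e0) (e1 i) (e1 j) key (fun g => l (L g)) (hadm l)
  have h5 : ∑ e ∈ Finset.univ.image e0, |l (L e)| ≤ ∑ k, |l (L (ρ (lab k)))| := by
    have h4 : ∑ e ∈ Finset.univ.image e0, |l (L e)| ≤
        ∑ e ∈ Finset.univ.image e0, ∑ k ∈ Finset.univ.filter (fun k => e0 k = e),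
          |l (L (e0 k))| := by
      refine Finset.sum_le_sum fun e he => ?_
      obtain ⟨k, -, rfl⟩ := Finset.mem_image.1 he
      exact Finset.single_le_sum (f := fun k => |l (L (e0 k))|) (fun _ _ => abs_nonneg _)
        (Finset.mem_filter.2 ⟨Finset.mem_univ k, rfl⟩)
    refine h4.trans (le_of_eq ?_)
    exact Finset.sum_fiberwise_of_maps_to
      (fun k _ => Finset.mem_image_of_mem e0 (Finset.mem_univ k)) (fun k => |l (L (e0 k))|)
  have h8 : (1:ℝ) ≤ √8 := by
    rw [Real.one_le_sqrt]; norm_num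
  have e1i : e1 i = γ⁻¹ * ρ (θ (lab i)) * γ := hft _
  have e1j : e1 j = γ⁻¹ * ρ (θ (lab j)) * γ := hft _
  rw [← e1i, ← e1j]
  refine h3.trans (mul_le_mul ?_ h5 (Finset.sum_nonneg fun _ _ => abs_nonneg _)
    (by positivity))
  exact mul_le_mul_of_nonneg_left (pow_le_pow_right₀ h8 (by omega)) (Real.sqrt_nonneg _)

end Pool.Agent.Lib.MP_e3aa0a_gt.FVL
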