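import Pool.Agent.Lib.MP_e3aa0a_gt.FVL.Lin83

/-!
# FVL, module LinF32: the Cramer-Hadamard bound for a general functional
-/

set_option autoImplicit false

namespace Pool.Agent.Lib.MP_e3aa0a_gt.FVL

open Finset Module

theorem boundFinF32 {T : Type*} [Fintype T] [DecidableEq T] {N : ℕ} (q : Fin N → Fin 4 → T)
    (S : Finset T) (c : T → ℝ)
    (h : ∀ w : T → ℝ, (∀ j, w (q j 0) + w (q j 1) = w (q j 2) + w (q j 3)) →
      (∀ e ∈ S, w e = 0) → ∑ t, c t * w t = 0)
    (w : T → ℝ) (hw : ∀ j, w (q j 0) + w (q j 1) = w (q j 2) + w (q j 3)) :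
    |∑ t, c t * w t| ≤ (∑ t, |c t|) * √8 ^ N * ∑ e ∈ S, |w e| := by
  let R : Fin N ⊕ S → EuclideanSpace ℝ T := Sum.elim
    (fun j => uv83 (q j 0) + uv83 (q j 1) - uv83 (q j 2) - uv83 (q j 3))
    (fun e => uv83 (e : T))
  let p : Fin N ⊕ S → ℝ := Sum.elim (fun _ => √8) (fun _ => 1)
  have h81 : (1:ℝ) ≤ √8 := by
    rw [Real.one_le_sqrt]; norm_num
  have hRint : ∀ i, IsInt83 (R i) := by
    rintro (j | e)
    · intro t
      obtain ⟨a, ha⟩ := uv_int83 (q j 0) t
      obtain ⟨b, hb⟩ := uv_int83 (q j 1) t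
      obtain ⟨c, hc⟩ := uv_int83 (q j 2) t
      obtain ⟨d, hd⟩ := uv_int83 (q j 3) t
      refine ⟨a + b - c - d, ?_⟩
      simp only [R, Sum.elim_inl, PiLp.sub_apply, PiLp.add_apply, ha, hb, hc, hd]
      push_cast; ring
    · exact uv_int83 _
  have hRn : ∀ i, ‖R i‖ ≤ p i := by
    rintro (j | e)
    · exact row_norm83 _ _ _ _
    · exact (uv_norm83 _).le
  have hp1 : ∀ i, 1 ≤ p i := by
    rintro (j | e)
    · exact h81
    · exact le_refl _
  let f : EuclideanSpace ℝ T := ∑ t, c t • uv83 t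
  have hfi : ∀ v : EuclideanSpace ℝ T, inner ℝ f v = ∑ t, c t * v t := by
    intro v
    simp only [f, sum_inner, real_inner_smul_left, uv_inner83]
  have hfn : ‖f‖ ≤ ∑ t, |c t| := by
    refine (norm_sum_le _ _).trans (Finset.sum_le_sum fun t _ => ?_)
    rw [norm_smul, uv_norm83, mul_one, Real.norm_eq_abs]
  have hmem : f ∈ Submodule.span ℝ (Set.range R) := by
    rw [← Submodule.orthogonal_orthogonal (Submodule.span ℝ (Set.range R))]
    rw [Submodule.mem_orthogonal]
    intro v hv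
    rw [Submodule.mem_orthogonal] at hv
    have hv' : ∀ i, inner ℝ (R i) v = 0 := fun i => hv _ (Submodule.subset_span ⟨i, rfl⟩)
    have h1 : ∑ t, c t * v t = 0 := by
      refine h v (fun j => ?_) fun e he => ?_
      · have h2 := hv' (Sum.inl j)
        simp only [R, Sum.elim_inl, inner_sub_left, inner_add_left, uv_inner83] at h2
        linarith
      · have h2 := hv' (Sum.inr ⟨e, he⟩)
        simp only [R, Sum.elim_inr, uv_inner83] at h2
        exact h2
    rw [real_inner_comm, hfi, h1]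
  obtain ⟨r, hr, hrb⟩ := cramer83 R hRint p hRn hp1 f hmem
  have hprod : ∏ j, p j = √8 ^ N := by
    simp [p, Fintype.prod_sum_type]
  have hrb' : ∀ i, |r i| ≤ (∑ t, |c t|) * √8 ^ N := fun i => by
    refine (hrb i).trans ?_
    rw [hprod]
    exact mul_le_mul_of_nonneg_right hfn (pow_nonneg (Real.sqrt_nonneg _) _)
  let v : EuclideanSpace ℝ T := WithLp.toLp 2 w
  have hvl : ∀ l, v l = w l := fun l => rfl
  have h2 : ∑ t, c t * w t = ∑ i, r i * inner ℝ (R i) v := by
    have h3 : inner ℝ f v = ∑ t, c t * w t := by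
      rw [hfi]
    rw [← h3, hr, sum_inner]
    exact Finset.sum_congr rfl fun i _ => by rw [real_inner_smul_left]
  have h3 : ∑ i, r i * inner ℝ (R i) v = ∑ e : S, r (Sum.inr e) * w e := by
    rw [Fintype.sum_sum_type]
    have h4 : ∀ j : Fin N, r (Sum.inl j) * inner ℝ (R (Sum.inl j)) v = 0 := by
      intro j
      simp only [R, Sum.elim_inl, inner_sub_left, inner_add_left, uv_inner83, hvl]
      rw [show w (q j 0) + w (q j 1) - w (q j 2) - w (q j 3) = 0 by linarith [hw j], mul_zero]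
    rw [Finset.sum_congr rfl fun j _ => h4 j, Finset.sum_const_zero, zero_add]
    refine Finset.sum_congr rfl fun e _ => ?_
    simp only [R, Sum.elim_inr, uv_inner83, hvl]
  rw [h2, h3, Finset.mul_sum, ← Finset.sum_coe_sort S]
  refine (Finset.abs_sum_le_sum_abs _ _).trans (Finset.sum_le_sum fun e _ => ?_)
  rw [abs_mul]
  exact mul_le_mul_of_nonneg_right (hrb' _) (abs_nonneg _)

/-- **The Cramer-Hadamard bound for a functional** `Σ c_e w(e)` with real coefficients. -/
theorem boundF32 {ι : Type*} {N : ℕ} (q : Fin N → Fin 4 → ι) (S : Finset ι) (c : ι →₀ ℝ)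
    (h : ∀ w : ι → ℝ, (∀ j, w (q j 0) + w (q j 1) = w (q j 2) + w (q j 3)) →
      (∀ e ∈ S, w e = 0) → (c.sum fun e r => r * w e) = 0)
    (w : ι → ℝ) (hw : ∀ j, w (q j 0) + w (q j 1) = w (q j 2) + w (q j 3)) :
    |c.sum fun e r => r * w e| ≤ (c.sum fun _ r => |r|) * √8 ^ N * ∑ e ∈ S, |w e| := by
  classical
  let U : Finset ι := (univ.biUnion fun j : Fin N => univ.image (q j)) ∪ S ∪ c.support
  have hqU : ∀ j k, q j k ∈ U := fun j k => by
    simp only [U, mem_union, mem_biUnion, mem_image, mem_univ, true_and]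
    exact Or.inl (Or.inl ⟨j, k, rfl⟩)
  have hSU : ∀ e ∈ S, e ∈ U := fun e he => by
    simp only [U, mem_union]; exact Or.inl (Or.inr he)
  have hcU : c.support ⊆ U := fun e he => by
    simp only [U, mem_union]; exact Or.inr he
  have hsum : ∀ g : ι → ℝ, (c.sum fun e r => r * g e) = ∑ t : U, c t * g t := by
    intro g
    rw [Finsupp.sum_of_support_subset c hcU _ (by simp)]
    exact (Finset.sum_coe_sort U fun e => c e * g e).symm
  have habs : (c.sum fun _ r => |r|) = ∑ t : U, |c t| := by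
    rw [Finsupp.sum_of_support_subset c hcU _ (by simp)]
    exact (Finset.sum_coe_sort U fun e => |c e|).symm
  have h1 := boundFinF32 (T := U) (fun j k => ⟨q j k, hqU j k⟩)
    (S.attach.image fun e => (⟨e.1, hSU e.1 e.2⟩ : U)) (fun t => c t) ?_
    (fun l => w l) (fun j => hw j)
  · rw [hsum, habs]
    refine h1.trans (le_of_eq ?_)
    congr 1
    rw [Finset.sum_image]
    · exact Finset.sum_attach S fun e => |w e|
    · intro a _ b _ hab
      exact Subtype.ext (Subtype.mk.inj hab)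
  · intro v hv hv0
    let w' : ι → ℝ := fun l => if hl : l ∈ U then v ⟨l, hl⟩ else 0
    have hw' : ∀ l (hl : l ∈ U), w' l = v ⟨l, hl⟩ := fun l hl => dif_pos hl
    have h2 := h w' (fun j => ?_) fun e he => ?_
    · rw [hsum] at h2
      rw [← h2]
      exact Finset.sum_congr rfl fun t _ => by rw [hw' t.1 t.2]
    · rw [hw' _ (hqU j 0), hw' _ (hqU j 1), hw' _ (hqU j 2), hw' _ (hqU j 3)]
      exact hv j
    · rw [hw' _ (hSU e he)]
      exact hv0 _ (mem_image.mpr ⟨⟨e, he⟩, mem_attach _ _, rfl⟩)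

end Pool.Agent.Lib.MP_e3aa0a_gt.FVL
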