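import Pool.Agent.Lib.FVol.Fek
import Pool.Agent.Lib.MP_e3aa0a_gt.FVL.Asm83
import Pool.Agent.Lib.MP_e3aa0a_gt.FVL.LinF32

/-!
# FVL, module AsmF32: a polygon whose labels are additive along the rows

`L` is a tropical label function on a group `Γ`. If the values of `l1 ∘ L` on the prefixes of the
rows of two polygons are the positions for lengths `lam`, `lam'`, those of `l2 ∘ L` on the first
polygon the positions for `l`, then a filling `b` of the difference of the two polygon cycles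
satisfies `|Θ| ≤ C √8^|b| Σ lam'`.
-/

set_option autoImplicit false

namespace Pool.Agent.Lib.MP_e3aa0a_gt.FVL

open Pool.Agent.Lib.FVol Finset

variable {Γ : Type*} [Group Γ]

/-! ### the functional `w ↦ om w v z` -/

/-- the coefficients of the functional `w ↦ om w v z` -/
noncomputable def cf32 (v : Γ → ℝ) (z : C2 Γ) : Γ →₀ ℝ :=
  z.sum fun x n => (n : ℝ) • (Finsupp.single x.1 (v x.2 - v (x.1 * x.2)) +
    Finsupp.single x.2 (v (x.1 * x.2) - v x.1) + Finsupp.single (x.1 * x.2) (v x.1 - v x.2))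

theorem om_cf32 (w v : Γ → ℝ) (z : C2 Γ) :
    ((cf32 v z).sum fun e r => r * w e) = om w v z := by
  have h0 : ∀ c : Γ →₀ ℝ, (c.sum fun e r => r * w e) = Finsupp.linearCombination ℝ w c := by
    intro c
    rw [Finsupp.linearCombination_apply]
    exact Finsupp.sum_congr fun _ _ => by rw [smul_eq_mul]
  rw [h0, cf32, om_sum, Finsupp.sum, map_sum]
  refine Finset.sum_congr rfl fun x _ => ?_
  rw [map_smul, map_add, map_add, Finsupp.linearCombination_single,
    Finsupp.linearCombination_single, Finsupp.linearCombination_single]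
  simp only [smul_eq_mul, omT, wdg]
  ring

/-- the norm of the functional -/
noncomputable def cn32 (v : Γ → ℝ) (z : C2 Γ) : ℝ := (cf32 v z).sum fun _ r => |r|

theorem cn32_nonneg (v : Γ → ℝ) (z : C2 Γ) : 0 ≤ cn32 v z :=
  Finset.sum_nonneg fun _ _ => abs_nonneg _

/-- the labels of the triangles of a 2-chain -/
noncomputable def lbs32 (z : C2 Γ) : Finset Γ :=
  open Classical in
  z.support.image Prod.fst ∪ z.support.image Prod.snd ∪ z.support.image (fun x => x.1 * x.2)

theorem mem_lbs32 {z : C2 Γ} {e : Γ} :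
    e ∈ lbs32 z ↔ ∃ x ∈ z.support, e = x.1 ∨ e = x.2 ∨ e = x.1 * x.2 := by
  classical
  simp only [lbs32, mem_union, mem_image]
  constructor
  · rintro ((⟨x, hx, rfl⟩ | ⟨x, hx, rfl⟩) | ⟨x, hx, rfl⟩)
    · exact ⟨x, hx, Or.inl rfl⟩
    · exact ⟨x, hx, Or.inr (Or.inl rfl)⟩
    · exact ⟨x, hx, Or.inr (Or.inr rfl)⟩
  · rintro ⟨x, hx, rfl | rfl | rfl⟩
    · exact Or.inl (Or.inl ⟨x, hx, rfl⟩)
    · exact Or.inl (Or.inr ⟨x, hx, rfl⟩)
    · exact Or.inr ⟨x, hx, rfl⟩

theorem card_lbs32 (z : C2 Γ) : (lbs32 z).card ≤ 3 * nrm z := by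
  classical
  have h := card_support_le_nrm z
  have h1 : (z.support.image Prod.fst).card ≤ z.support.card := card_image_le
  have h2 : (z.support.image Prod.snd).card ≤ z.support.card := card_image_le
  have h3 : (z.support.image (fun x : Γ × Γ => x.1 * x.2)).card ≤ z.support.card := card_image_le
  have h4 := card_union_le (z.support.image Prod.fst ∪ z.support.image Prod.snd)
    (z.support.image (fun x : Γ × Γ => x.1 * x.2))
  have h5 := card_union_le (z.support.image Prod.fst) (z.support.image Prod.snd)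
  have h6 : (lbs32 z).card = ((z.support.image Prod.fst ∪ z.support.image Prod.snd) ∪
    z.support.image (fun x : Γ × Γ => x.1 * x.2)).card := by
    unfold lbs32
    congr!
  omega

theorem om_zero32 {w : Γ → ℝ} (v : Γ → ℝ) {z : C2 Γ} (h : ∀ e ∈ lbs32 z, w e = 0) :
    om w v z = 0 := by
  rw [om_sum, Finsupp.sum]
  refine Finset.sum_eq_zero fun x hx => ?_
  have h1 := h x.1 (mem_lbs32.2 ⟨x, hx, Or.inl rfl⟩)
  have h2 := h x.2 (mem_lbs32.2 ⟨x, hx, Or.inr (Or.inl rfl)⟩)
  have h3 := h (x.1 * x.2) (mem_lbs32.2 ⟨x, hx, Or.inr (Or.inr rfl)⟩)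
  simp [omT, wdg, h1, h2, h3]

/-- **The Cramer bound for the 2-form.** -/
theorem cramer32 {M : Type*} [AddCommGroup M] {L : Γ → M} (b : C3 Γ)
    (hF : ∀ x ∈ b.support, Four L x.1 x.2.1 x.2.2) {z0 z1 : C2 Γ} (hb : bd Γ b = z1 - z0)
    (l1 l2 : M →+ ℝ) :
    |om (fun g => l1 (L g)) (fun g => l2 (L g)) z0| ≤
      cn32 (fun g => l2 (L g)) z0 * √8 ^ nrm b * ∑ e ∈ lbs32 z1, |l1 (L e)| := by
  classical
  obtain ⟨κ, hκ⟩ := exists_sel83 L
  have hrl : ∀ l : M →+ ℝ, ∀ x ∈ b.support, Rl (fun g => l (L g)) (κ x) x :=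
    fun l x hx => hκ x (hF x hx) l
  let J := b.support
  let g := (Fintype.equivFin J).symm
  let q : Fin (Fintype.card J) → Fin 4 → Γ := fun j => qlab (g j).1 (κ (g j).1)
  have hq : ∀ v : Γ → ℝ, (∀ j, v (q j 0) + v (q j 1) = v (q j 2) + v (q j 3)) ↔
      ∀ x ∈ b.support, Rl v (κ x) x := by
    intro v
    constructor
    · intro h x hx
      rw [rl_iff]
      have := h (g.symm ⟨x, hx⟩)
      simp only [q, Equiv.apply_symm_apply] at this
      exact this
    · intro h j
      exact (rl_iff _ _ _).1 (h (g j).1 (g j).2)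
  have h1 := boundF32 q (lbs32 z1) (cf32 (fun g => l2 (L g)) z0) ?_ (fun g => l1 (L g))
    ((hq _).2 (hrl l1))
  · rw [om_cf32] at h1
    refine h1.trans ?_
    have h8 : (1:ℝ) ≤ √8 := by
      rw [Real.one_le_sqrt]; norm_num
    have hc : Fintype.card J ≤ nrm b := by
      simp only [J, Fintype.card_coe]
      exact card_support_le_nrm b
    refine mul_le_mul_of_nonneg_right ?_ (Finset.sum_nonneg fun _ _ => abs_nonneg _)
    exact mul_le_mul_of_nonneg_left (pow_le_pow_right₀ h8 hc) (cn32_nonneg _ _)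
  · intro v hv hv0
    rw [om_cf32]
    have h2 := om_bd b κ ((hq v).1 hv) (hrl l2)
    rw [hb, map_sub, om_zero32 _ hv0] at h2
    linarith

/-! ### the form on a fan -/

variable {A V : Type*}

/-- `Σ_i (k_(i-1) λ_i - h_(i-1) l_i)` along a word which starts at the position `(h, k)` -/
def thx32 (lam l : A → ℝ) : ℝ → ℝ → List (A × Bool) → ℝ
  | _, _, [] => 0
  | h, k, z :: W => (k * lam z.1 - h * l z.1) + thx32 lam l (h + lam z.1) (k + l z.1) W

/-- the total for the two rows -/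
def Theta32 (lam l : A → ℝ) (row : Bool → List (A × Bool)) : ℝ :=
  thx32 lam l 0 0 (row true) - thx32 lam l 0 0 (row false)

/-- The label function `w` is additive along the rows of `d`, with the lengths `lam`. -/
structure RowVal32 (w : Γ → ℝ) (d : Dat A V Γ) (lam : A → ℝ) : Prop where
  one : w 1 = 0
  inv : ∀ g, w g⁻¹ = w g
  lab : ∀ a, w (d.lab a) = lam a
  pre : ∀ σ P Q, d.row σ = P ++ Q → w (wpr d.lab P) = (P.map fun z => lam z.1).sum

theorem slab_val32 {w : Γ → ℝ} (hinv : ∀ g, w g⁻¹ = w g) {f : A → Γ} {lam : A → ℝ}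
    (hlab : ∀ a, w (f a) = lam a) (z : A × Bool) : w (slab f z) = lam z.1 := by
  rcases z with ⟨a, s⟩
  cases s
  · simp only [slab, Bool.false_eq_true, if_false, hinv, hlab]
  · simp only [slab, if_true, hlab]

theorem om_kap32 {w v : Γ → ℝ} (hw : ∀ g, w g⁻¹ = w g) (hv : ∀ g, v g⁻¹ = v g) (f : A → Γ)
    (z : A × Bool) : om w v (kap f z) = 0 := by
  rcases z with ⟨a, s⟩
  cases s
  · simp only [kap, Bool.false_eq_true, if_false, map_neg, map_add, om_e2]
    rw [omT_inv (hw _) (hv _), omT_one_one]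
    simp
  · simp [kap]

theorem om_fan32 {w v : Γ → ℝ} (hw : ∀ g, w g⁻¹ = w g) (hv : ∀ g, v g⁻¹ = v g) (f : A → Γ)
    {lam l : A → ℝ} (hlam : ∀ a, w (f a) = lam a) (hl : ∀ a, v (f a) = l a)
    (W : List (A × Bool)) : ∀ (p : Γ) (h k : ℝ),
    (∀ P Q, W = P ++ Q → w (p * wpr f P) = h + (P.map fun z => lam z.1).sum) →
    (∀ P Q, W = P ++ Q → v (p * wpr f P) = k + (P.map fun z => l z.1).sum) →
    om w v (fan f p W) = thx32 lam l h k W := by
  induction W with
  | nil => intro p h k _ _; simp [thx32]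
  | cons z W ih =>
    intro p h k h1 h2
    have a0 := h1 [] (z :: W) rfl
    have b0 := h2 [] (z :: W) rfl
    have a1 := h1 [z] W rfl
    have b1 := h2 [z] W rfl
    simp only [wpr_nil, mul_one, List.map_nil, List.sum_nil, add_zero] at a0 b0
    simp only [wpr_cons, wpr_nil, mul_one, List.map_cons, List.map_nil, List.sum_cons,
      List.sum_nil, add_zero] at a1 b1
    have a2 := slab_val32 hw hlam z
    have b2 := slab_val32 hv hl z
    rw [fan_cons, map_add, map_add, om_e2, om_kap32 hw hv, add_zero,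
      ih (p * slab f z) (h + lam z.1) (k + l z.1)]
    · simp only [thx32, omT, wdg, a0, b0, a1, b1, a2, b2]
      ring
    · intro P Q hPQ
      have := h1 (z :: P) Q (by rw [hPQ]; rfl)
      rw [wpr_cons, ← mul_assoc] at this
      rw [this, List.map_cons, List.sum_cons]
      ring
    · intro P Q hPQ
      have := h2 (z :: P) Q (by rw [hPQ]; rfl)
      rw [wpr_cons, ← mul_assoc] at this
      rw [this, List.map_cons, List.sum_cons]
      ring

theorem om_cyc32 {w v : Γ → ℝ} {d : Dat A V Γ} {lam l : A → ℝ} (hw : RowVal32 w d lam)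
    (hv : RowVal32 v d l) : om w v (cyc d) = Theta32 lam l d.row := by
  have key : ∀ σ, om w v (fan d.lab 1 (d.row σ)) = thx32 lam l 0 0 (d.row σ) := fun σ =>
    om_fan32 hw.inv hv.inv d.lab hw.lab hv.lab (d.row σ) 1 0 0
      (fun P Q h => by rw [one_mul, zero_add, hw.pre σ P Q h])
      (fun P Q h => by rw [one_mul, zero_add, hv.pre σ P Q h])
  rw [cyc, map_sub, key, key, Theta32]

/-! ### the labels of a polygon cycle -/

/-- all labels of the chain have absolute value at most `X` -/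
def Bdd32 (w : Γ → ℝ) (X : ℝ) (z : C2 Γ) : Prop :=
  ∀ x ∈ z.support, |w x.1| ≤ X ∧ |w x.2| ≤ X ∧ |w (x.1 * x.2)| ≤ X

theorem Bdd32.add {w : Γ → ℝ} {X : ℝ} {z z' : C2 Γ} (h : Bdd32 w X z) (h' : Bdd32 w X z') :
    Bdd32 w X (z + z') := by
  classical
  intro x hx
  rcases mem_union.1 (Finsupp.support_add hx) with h1 | h1
  · exact h x h1
  · exact h' x h1

theorem Bdd32.neg {w : Γ → ℝ} {X : ℝ} {z : C2 Γ} (h : Bdd32 w X z) : Bdd32 w X (-z) := by
  intro x hx
  rw [Finsupp.support_neg] at hx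
  exact h x hx

theorem Bdd32.zero (w : Γ → ℝ) (X : ℝ) : Bdd32 w X (0 : C2 Γ) := by
  intro x hx
  simp at hx

theorem Bdd32.e2 {w : Γ → ℝ} {X : ℝ} {a b : Γ} (ha : |w a| ≤ X) (hb : |w b| ≤ X)
    (hab : |w (a * b)| ≤ X) : Bdd32 w X (e2 a b) := by
  intro x hx
  have := Finset.mem_singleton.1 (Finsupp.support_single_subset hx)
  subst this
  exact ⟨ha, hb, hab⟩

theorem bdd_kap32 {w : Γ → ℝ} (h1 : w 1 = 0) (hw : ∀ g, w g⁻¹ = w g) {f : A → Γ} {X : ℝ}
    (hX : 0 ≤ X) (hf : ∀ a, |w (f a)| ≤ X) (z : A × Bool) : Bdd32 w X (kap f z) := by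
  rcases z with ⟨a, s⟩
  cases s
  · simp only [kap, Bool.false_eq_true, if_false]
    refine (Bdd32.add (Bdd32.e2 (hf a) (by rw [hw]; exact hf a) ?_) (Bdd32.e2 ?_ ?_ ?_)).neg
    · rw [mul_inv_cancel, h1, abs_zero]; exact hX
    · rw [h1, abs_zero]; exact hX
    · rw [h1, abs_zero]; exact hX
    · rw [mul_one, h1, abs_zero]; exact hX
  · simp only [kap, if_true]
    exact Bdd32.zero _ _

theorem bdd_fan32 {w : Γ → ℝ} (h1 : w 1 = 0) (hw : ∀ g, w g⁻¹ = w g) {f : A → Γ} {X : ℝ}
    (hX : 0 ≤ X) (hf : ∀ a, |w (f a)| ≤ X) (W : List (A × Bool)) : ∀ p : Γ,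
    (∀ P Q, W = P ++ Q → |w (p * wpr f P)| ≤ X) → Bdd32 w X (fan f p W) := by
  induction W with
  | nil => intro p _; exact Bdd32.zero _ _
  | cons z W ih =>
    intro p h
    have a0 := h [] (z :: W) rfl
    have a1 := h [z] W rfl
    simp only [wpr_nil, mul_one] at a0
    simp only [wpr_cons, wpr_nil, mul_one] at a1
    have a2 : |w (slab f z)| ≤ X := by
      rcases z with ⟨a, s⟩
      cases s
      · simp only [slab, Bool.false_eq_true, if_false, hw]
        exact hf a
      · simp only [slab, if_true]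
        exact hf a
    rw [fan_cons]
    refine ((Bdd32.e2 a0 a2 a1).add (bdd_kap32 h1 hw hX hf z)).add (ih _ fun P Q hPQ => ?_)
    have := h (z :: P) Q (by rw [hPQ]; rfl)
    rw [wpr_cons, ← mul_assoc] at this
    exact this

variable [DecidableEq A] [Fintype A]

omit [Group Γ] in
theorem sum_map32 (f : A → ℝ) (W : List (A × Bool)) :
    (W.map fun z => f z.1).sum = ∑ a, ((occ (a, true) W : ℝ) + occ (a, false) W) * f a := by
  induction W with
  | nil => simp
  | cons z W ih =>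
    rw [List.map_cons, List.sum_cons, ih]
    have h1 : f z.1 = ∑ a, ((if z = (a, true) then (1:ℝ) else 0) +
        (if z = (a, false) then (1:ℝ) else 0)) * f a := by
      rw [Finset.sum_eq_single z.1]
      · rcases z with ⟨a, s⟩
        cases s <;> simp
      · intro b _ hb
        have h1 : z ≠ (b, true) := fun e => hb (by rw [e])
        have h2 : z ≠ (b, false) := fun e => hb (by rw [e])
        simp [h1, h2]
      · intro h
        exact absurd (Finset.mem_univ _) h
    rw [h1, ← Finset.sum_add_distrib]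
    refine Finset.sum_congr rfl fun a _ => ?_
    rw [occ_cons, occ_cons]
    push_cast
    ring

theorem rowsum_le32 {d : Dat A V Γ} (hd : Good d) {P Q : List (A × Bool)} {σ : Bool}
    (h : d.row σ = P ++ Q) : 0 ≤ (P.map fun z => d.lam z.1).sum ∧
      (P.map fun z => d.lam z.1).sum ≤ 2 * ∑ a, d.lam a := by
  have hnn : ∀ a, 0 ≤ d.lam a := fun a => (hd.pos a).le
  constructor
  · rw [sum_map32]
    exact Finset.sum_nonneg fun a _ => mul_nonneg (by positivity) (hnn a)
  · rw [sum_map32, Finset.mul_sum]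
    refine Finset.sum_le_sum fun a _ => mul_le_mul_of_nonneg_right ?_ (hnn a)
    have h2 := hd.two' σ (a, true)
    rw [h, occ_append, occ_append] at h2
    have h3 : sinv (a, true) = (a, false) := rfl
    rw [h3] at h2
    have h4 : occ (a, true) P + occ (a, false) P ≤ 2 := by omega
    exact_mod_cast h4

theorem nrm_fan32 (f : A → Γ) (W : List (A × Bool)) : ∀ p : Γ,
    nrm (fan f p W) ≤ 3 * W.length := by
  induction W with
  | nil => intro p; simp
  | cons z W ih =>
    intro p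
    rw [fan_cons, List.length_cons]
    have h1 := nrm_add_le (e2 p (slab f z) + kap f z) (fan f (p * slab f z) W)
    have h2 := nrm_add_le (e2 p (slab f z)) (kap f z)
    have h3 : nrm (e2 p (slab f z)) = 1 := by rw [e2, nrm_single]; rfl
    have h4 : nrm (kap f z) ≤ 2 := by
      rcases z with ⟨a, s⟩
      cases s
      · simp only [kap, Bool.false_eq_true, if_false, nrm_neg]
        have h5 := nrm_add_le (e2 (f a) (f a)⁻¹) (e2 (1 : Γ) 1)
        have h6 : nrm (e2 (f a) (f a)⁻¹) = 1 := by rw [e2, nrm_single]; rfl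
        have h7 : nrm (e2 (1 : Γ) 1) = 1 := by rw [e2, nrm_single]; rfl
        omega
      · simp [kap]
    have h5 := ih (p * slab f z)
    omega

theorem nrm_cyc32 {d : Dat A V Γ} (hd : Good d) : nrm (cyc d) ≤ 6 * Fintype.card A := by
  have h1 := nrm_add_le (fan d.lab 1 (d.row true)) (-(fan d.lab 1 (d.row false)))
  rw [← sub_eq_add_neg, nrm_neg] at h1
  have h2 := nrm_fan32 d.lab (d.row true) 1
  have h3 := nrm_fan32 d.lab (d.row false) 1
  have h4 := length_sum hd
  have h5 : nrm (cyc d) = nrm (fan d.lab 1 (d.row true) - fan d.lab 1 (d.row false)) := rfl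
  omega

/-- the sum of the values of the labels of the polygon cycle -/
theorem sum_lbs32 {w : Γ → ℝ} {d : Dat A V Γ} (hd : Good d) (hw : RowVal32 w d d.lam) :
    ∑ e ∈ lbs32 (cyc d), |w e| ≤ 36 * (Fintype.card A : ℝ) * ∑ a, d.lam a := by
  have hS : 0 ≤ ∑ a, d.lam a := Finset.sum_nonneg fun a _ => (hd.pos a).le
  have hX : (0:ℝ) ≤ 2 * ∑ a, d.lam a := by linarith
  have hf : ∀ a, |w (d.lab a)| ≤ 2 * ∑ a, d.lam a := by
    intro a
    rw [hw.lab, abs_of_pos (hd.pos a)]
    have := Finset.single_le_sum (fun b _ => (hd.pos b).le) (Finset.mem_univ a)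
    linarith
  have key : ∀ σ, Bdd32 w (2 * ∑ a, d.lam a) (fan d.lab 1 (d.row σ)) := fun σ =>
    bdd_fan32 hw.one hw.inv hX hf (d.row σ) 1 fun P Q h => by
      obtain ⟨h1, h2⟩ := rowsum_le32 hd h
      rw [one_mul, hw.pre σ P Q h, abs_of_nonneg h1]
      exact h2
  have hb : Bdd32 w (2 * ∑ a, d.lam a) (cyc d) := by
    rw [cyc, sub_eq_add_neg]
    exact (key true).add (key false).neg
  have h1 : ∑ e ∈ lbs32 (cyc d), |w e| ≤ ∑ e ∈ lbs32 (cyc d), 2 * ∑ a, d.lam a := by
    refine Finset.sum_le_sum fun e he => ?_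
    obtain ⟨x, hx, h2⟩ := mem_lbs32.1 he
    obtain ⟨b1, b2, b3⟩ := hb x hx
    rcases h2 with rfl | rfl | rfl
    · exact b1
    · exact b2
    · exact b3
  rw [Finset.sum_const, nsmul_eq_mul] at h1
  refine h1.trans ?_
  have h3 : ((lbs32 (cyc d)).card : ℝ) ≤ 18 * Fintype.card A := by
    have h4 := card_lbs32 (cyc d)
    have h5 := nrm_cyc32 hd
    exact_mod_cast (by omega : (lbs32 (cyc d)).card ≤ 18 * Fintype.card A)
  have h6 := mul_le_mul_of_nonneg_right h3 hX
  linarith

/-- **Theorem T.** -/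
theorem thmT32 {M : Type*} [AddCommGroup M] {L : Γ → M} (hfour : ∀ a b c, Four L a b c)
    (l1 l2 : M →+ ℝ) {d d' : Dat A V Γ} (hd' : Good d') {l : A → ℝ}
    (h1 : RowVal32 (fun g => l1 (L g)) d d.lam) (h2 : RowVal32 (fun g => l2 (L g)) d l)
    (h1' : RowVal32 (fun g => l1 (L g)) d' d'.lam) {b : C3 Γ} (hb : bd Γ b = cyc d' - cyc d) :
    |Theta32 d.lam l d.row| ≤ cn32 (fun g => l2 (L g)) (cyc d) * √8 ^ nrm b *
      (36 * (Fintype.card A : ℝ) * ∑ a, d'.lam a) := by
  have h := cramer32 b (fun x _ => hfour x.1 x.2.1 x.2.2) hb l1 l2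
  rw [om_cyc32 h1 h2] at h
  refine h.trans (mul_le_mul_of_nonneg_left (sum_lbs32 hd' h1') ?_)
  exact mul_nonneg (cn32_nonneg _ _) (pow_nonneg (Real.sqrt_nonneg _) _)

end Pool.Agent.Lib.MP_e3aa0a_gt.FVL
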