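import Mathlib

/-!
# FVL: the surface group and the crossing number with the curve `b_1`

`SG g` is the fundamental group of the closed oriented surface of genus `g`, with the generators
`a_i = inl i`, `b_i = inr i` and the relation `∏ [a_i, b_i] = 1`.  `cr x` is the least number of
letters `a_1^{±1}` in a word which represents a conjugate of `x`.
-/

set_option autoImplicit false

namespace Pool.Agent.Lib.MP_e3aa0a_gt.FVL

/-- the generators `a_i = inl i` and `b_i = inr i` -/
abbrev Gen (g : ℕ) : Type := Fin g ⊕ Fin g

/-- the commutator `[a_i, b_i]` -/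
def cm {g : ℕ} (i : Fin g) : FreeGroup (Gen g) :=
  FreeGroup.of (Sum.inl i) * FreeGroup.of (Sum.inr i) * (FreeGroup.of (Sum.inl i))⁻¹ *
    (FreeGroup.of (Sum.inr i))⁻¹

/-- the word `∏ [a_i, b_i]` -/
def relW (g : ℕ) : FreeGroup (Gen g) := (List.ofFn fun i : Fin g => cm i).prod

/-- the fundamental group of the closed oriented surface of genus `g` -/
abbrev SG (g : ℕ) : Type := PresentedGroup ({relW g} : Set (FreeGroup (Gen g)))

/-- the element of the surface group given by a word in the generators -/
def word {g : ℕ} (L : List (Gen g × Bool)) : SG g :=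
  PresentedGroup.mk {relW g} (FreeGroup.mk L)

/-- the number of letters `a_1` and `a_1⁻¹` of a word -/
def crw {k : ℕ} (L : List (Gen (k + 1) × Bool)) : ℕ :=
  (L.filter fun x => x.1 = Sum.inl 0).length

/-- the crossing number: the least number of letters `a_1`, `a_1⁻¹` in a word which represents a
conjugate of `x` -/
noncomputable def cr {k : ℕ} (x : SG (k + 1)) : ℕ :=
  sInf {n : ℕ | ∃ L : List (Gen (k + 1) × Bool), IsConj x (word L) ∧ crw L = n}

end Pool.Agent.Lib.MP_e3aa0a_gt.FVL
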