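import Mathlib

/-!
# FVL: the centraliser of a basis element of a free group
-/

set_option autoImplicit false

namespace Pool.Agent.Lib.MP_e3aa0a_gt.FVL

open FreeGroup

/-- an element of a free group which commutes with a basis element is a power of it -/
theorem mem_zpowers_of_comm {α : Type*} [DecidableEq α] (a : α) :
    ∀ (n : ℕ) (g : FreeGroup α), g.toWord.length = n → of a * g = g * of a →
      g ∈ Subgroup.zpowers (of a) := by
  intro n
  induction n using Nat.strong_induction_on with
  | _ n ih =>
    intro g hn hc
    rcases h1 : g.toWord with _ | ⟨x, L⟩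
    · rw [toWord_eq_nil_iff.1 h1]; exact one_mem _
    · -- first letter
      by_cases hx : x.1 = a
      · -- `g = of a ^ ± * g'`
        obtain ⟨c, s⟩ := x
        simp only at hx
        subst hx
        have hg : g = mk [(c, s)] * mk L := by
          rw [← mk_toWord (x := g), h1, mul_mk]; rfl
        have hz : (mk [(c, s)] : FreeGroup α) ∈ Subgroup.zpowers (of c) := by
          cases s
          · have : (mk [(c, false)] : FreeGroup α) = (of c)⁻¹ := by simp [of, inv_mk, invRev]
            rw [this]; exact inv_mem (Subgroup.mem_zpowers _)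
          · exact Subgroup.mem_zpowers _
        have hlen : (mk L : FreeGroup α).toWord.length < n := by
          rw [← hn, h1]
          exact lt_of_le_of_lt norm_mk_le (by simp)
        have hcomm : of c * mk [(c, s)] = mk [(c, s)] * of c := by
          obtain ⟨k, hk⟩ := hz
          simp only at hk
          rw [← hk]
          exact ((Commute.refl (of c)).zpow_right k).eq
        have hc' : of c * mk L = mk L * of c := by
          have h2 : mk L = (mk [(c, s)])⁻¹ * g := by rw [hg]; group
          rw [h2]
          have h3 : of c * (mk [(c, s)])⁻¹ = (mk [(c, s)])⁻¹ * of c := by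
            rw [eq_inv_mul_iff_mul_eq, ← mul_assoc, ← hcomm, mul_inv_cancel_right]
          rw [← mul_assoc, h3, mul_assoc, hc, mul_assoc]
        rw [hg]
        exact mul_mem hz (ih _ hlen _ rfl hc')
      · -- last letter
        exfalso
        have hred : IsReduced (x :: L) := by rw [← h1]; exact isReduced_toWord
        have e1 : (of a * g).toWord = (a, true) :: x :: L := by
          rw [toWord_mul, h1, toWord_of]
          apply IsReduced.reduce_eq
          rw [List.singleton_append]
          rw [isReduced_cons_cons]
          exact ⟨fun h => absurd h.symm hx, hred⟩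
        have e3 : List.Sublist (g * of a).toWord ((x :: L) ++ [(a, true)]) := by
          have := toWord_mul_sublist g (of a)
          rwa [h1, toWord_of] at this
        rw [← hc, e1] at e3
        have e4 : (a, true) :: x :: L = (x :: L) ++ [(a, true)] := by
          refine e3.eq_of_length ?_
          simp
        simp only [List.cons_append, List.cons.injEq] at e4
        exact hx (by rw [← e4.1])

variable {α : Type*}

/-- the inclusion of the free group without the letter `none` -/
def up (P : FreeGroup α) : FreeGroup (Option α) := FreeGroup.map some P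

/-- the free basis letter `b` -/
def bb : FreeGroup (Option α) := of none

/-- the element `c = P⁻¹ b` -/
def cc (P : FreeGroup α) : FreeGroup (Option α) := (up P)⁻¹ * bb

/-- the endomorphism with `b ↦ P b` -/
def shf (P : FreeGroup α) : FreeGroup (Option α) →* FreeGroup (Option α) :=
  FreeGroup.lift fun x => Option.elim x (up P * bb) fun y => of (some y)

theorem shf_bb (P : FreeGroup α) : shf P bb = up P * bb := by simp [shf, bb]

theorem shf_up (P Q : FreeGroup α) : shf P (up Q) = up Q := by
  have h : (shf P).comp (FreeGroup.map some) = FreeGroup.map some := by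
    ext x
    simp [shf]
  exact DFunLike.congr_fun h Q

theorem up_inv (P : FreeGroup α) : up P⁻¹ = (up P)⁻¹ := MonoidHom.map_inv _ _

theorem shf_shf (P : FreeGroup α) (x : FreeGroup (Option α)) : shf P⁻¹ (shf P x) = x := by
  have h : (shf P⁻¹).comp (shf P) = MonoidHom.id _ := by
    ext x
    rcases x with _ | y
    · change shf P⁻¹ (shf P bb) = bb
      rw [shf_bb, MonoidHom.map_mul, shf_up, shf_bb, up_inv, mul_inv_cancel_left]
    · simp [shf]
  exact DFunLike.congr_fun h x

theorem shf_cc (P : FreeGroup α) : shf P (cc P) = bb := by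
  rw [cc, MonoidHom.map_mul, MonoidHom.map_inv, shf_up, shf_bb, inv_mul_cancel_left]

theorem shf_inv_bb (P : FreeGroup α) : shf P⁻¹ bb = cc P := by
  rw [shf_bb, cc, up_inv]

theorem mem_bb_of_comm [DecidableEq α] {h : FreeGroup (Option α)} (hc : bb * h = h * bb) :
    ∃ k : ℤ, h = bb ^ k := by
  obtain ⟨k, hk⟩ := mem_zpowers_of_comm (none : Option α) _ h rfl hc
  exact ⟨k, hk.symm⟩

theorem mem_cc_of_comm [DecidableEq α] (P : FreeGroup α) {h : FreeGroup (Option α)}
    (hc : cc P * h = h * cc P) : ∃ k : ℤ, h = cc P ^ k := by
  have h1 : bb * shf P h = shf P h * bb := by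
    rw [← shf_cc P, ← MonoidHom.map_mul, ← MonoidHom.map_mul, hc]
  obtain ⟨k, hk⟩ := mem_bb_of_comm h1
  refine ⟨k, ?_⟩
  rw [← shf_shf P h, hk, map_zpow, shf_inv_bb]

/-- the exponent sum of the letter `b` -/
def expn : FreeGroup (Option α) →* Multiplicative ℤ :=
  FreeGroup.lift fun x => Option.elim x (Multiplicative.ofAdd 1) fun _ => 1

theorem expn_bb : expn (bb : FreeGroup (Option α)) = Multiplicative.ofAdd 1 := by simp [expn, bb]

theorem expn_up (P : FreeGroup α) : expn (up P) = 1 := by
  have h : expn.comp (FreeGroup.map some) = (1 : FreeGroup α →* Multiplicative ℤ) := by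
    ext x
    simp [expn]
  exact DFunLike.congr_fun h P

theorem expn_cc (P : FreeGroup α) : expn (cc P) = Multiplicative.ofAdd 1 := by
  rw [cc, MonoidHom.map_mul, MonoidHom.map_inv, expn_up, expn_bb, inv_one, one_mul]

/-- a conjugate of `c` which commutes with `b` is `b` -/
theorem conj_cc_eq_bb [DecidableEq α] (P : FreeGroup α) {h : FreeGroup (Option α)}
    (hc : bb * (h * cc P * h⁻¹) = (h * cc P * h⁻¹) * bb) : h * cc P * h⁻¹ = bb := by
  obtain ⟨k, hk⟩ := mem_bb_of_comm hc
  have h1 := congrArg expn hk
  rw [MonoidHom.map_mul, MonoidHom.map_mul, MonoidHom.map_inv, map_zpow, expn_cc, expn_bb, mul_inv_cancel_comm] at h1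
  have h2 : (1 : ℤ) = k := by
    have h3 := congrArg Multiplicative.toAdd h1
    simpa using h3
  rw [hk, ← h2, zpow_one]

end Pool.Agent.Lib.MP_e3aa0a_gt.FVL
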