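import Mathlib
import Pool.Agent.Lib.MP_e3aa0a_gt.FVL.FG66

/-!
# FVL: representations of the free group without unipotents, three non-zero entries
-/

set_option autoImplicit false

namespace Pool.Agent.Lib.MP_e3aa0a_gt.FVL

open Matrix

variable {K : Type*} [Field K]

theorem vmul {R : Type*} [CommRing R] (M X : SpecialLinearGroup (Fin 2) R) :
    (M * X).1 = M.1 * X.1 := rfl

theorem vinv {R : Type*} [CommRing R] (M : SpecialLinearGroup (Fin 2) R) :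
    (M⁻¹).1 = !![M.1 1 1, -M.1 0 1; -M.1 1 0, M.1 0 0] := adjugate_fin_two M.1

theorem vone {R : Type*} [CommRing R] : (1 : SpecialLinearGroup (Fin 2) R).1 = 1 := rfl

/-- the diagonal matrix with entries `m`, `m⁻¹` -/
def dia (m : Kˣ) : SpecialLinearGroup (Fin 2) K :=
  ⟨!![(m : K), 0; 0, ((m⁻¹ : Kˣ) : K)], by rw [det_fin_two_of]; simp⟩

theorem dia_coe (m : Kˣ) : (dia m).1 = !![(m : K), 0; 0, ((m⁻¹ : Kˣ) : K)] := rfl

theorem dia_inv_coe (m : Kˣ) : ((dia m)⁻¹).1 = !![((m⁻¹ : Kˣ) : K), 0; 0, (m : K)] := by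
  rw [vinv, dia_coe]
  simp

theorem sl_det (M : SpecialLinearGroup (Fin 2) K) :
    M.1 0 0 * M.1 1 1 - M.1 0 1 * M.1 1 0 = 1 := by
  rw [← det_fin_two]; exact M.2

theorem sl_coe_eta (M : SpecialLinearGroup (Fin 2) K) :
    M.1 = !![M.1 0 0, M.1 0 1; M.1 1 0, M.1 1 1] := eta_fin_two _

/-- the entries of `M D M⁻¹` -/
theorem conj_dia (M : SpecialLinearGroup (Fin 2) K) (m : Kˣ) :
    (M * dia m * M⁻¹).1
      = !![M.1 0 0 * M.1 1 1 * m - M.1 0 1 * M.1 1 0 * (m⁻¹ : Kˣ),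
          M.1 0 0 * M.1 0 1 * ((m⁻¹ : Kˣ) - m);
          M.1 1 0 * M.1 1 1 * (m - (m⁻¹ : Kˣ)),
          M.1 0 0 * M.1 1 1 * (m⁻¹ : Kˣ) - M.1 0 1 * M.1 1 0 * m] := by
  rw [vmul, vmul, vinv, dia_coe]
  ext i j
  fin_cases i <;> fin_cases j <;> simp [Matrix.mul_apply, Fin.sum_univ_two] <;> ring

theorem tr_comm (M : SpecialLinearGroup (Fin 2) K) (m : Kˣ) (h : M.1 0 1 = 0 ∨ M.1 1 0 = 0) :
    Matrix.trace (M * dia m * M⁻¹ * (dia m)⁻¹).1 = 2 := by
  have hd := sl_det M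
  have h0 : M.1 0 1 * M.1 1 0 = 0 := by
    rcases h with h | h <;> simp [h]
  have h1 : M.1 0 0 * M.1 1 1 = 1 := by
    have := hd
    rw [h0, sub_zero] at this
    exact this
  rw [vmul, conj_dia, dia_inv_coe, trace_fin_two]
  simp only [Matrix.mul_apply, Fin.sum_univ_two, Matrix.of_apply, Matrix.cons_val', Matrix.cons_val_zero,
    Matrix.cons_val_one, Matrix.cons_val_fin_one, h0, h1]
  have hm : (m : K) * ((m⁻¹ : Kˣ) : K) = 1 := by simp
  have e1 : (M.1 0 1 * M.1 1 0) = 0 := h0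
  ring_nf
  ring_nf at hm
  linear_combination 2 * hm

variable {α : Type*} [DecidableEq α]

/-- the data of the representation of the free group -/
structure Rep (K : Type*) [Field K] (α : Type*) where
  /-- the word `P` -/
  P : FreeGroup α
  /-- the representation -/
  rho : FreeGroup (Option α) →* SpecialLinearGroup (Fin 2) K
  /-- the eigenvalue -/
  m : Kˣ
  /-- the eigenbasis of `b` -/
  A : SpecialLinearGroup (Fin 2) K
  /-- the eigenbasis of `c` -/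
  B : SpecialLinearGroup (Fin 2) K
  hm : (m : K) ^ 2 ≠ 1
  hb : rho bb = A * dia m * A⁻¹
  hc : rho (cc P) = B * dia m * B⁻¹
  N : ∀ h : FreeGroup (Option α), h ≠ 1 →
    Matrix.trace (rho h).1 ^ 2 ≠ 4

omit [DecidableEq α] in
theorem Rep.eq_one (R : Rep K α) {h : FreeGroup (Option α)}
    (ht : Matrix.trace (R.rho h).1 = 2) : h = 1 := by
  by_contra hne
  exact R.N h hne (by rw [ht]; norm_num)

omit [DecidableEq α] in
theorem tr_conj (M X : SpecialLinearGroup (Fin 2) K) :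
    Matrix.trace (X * M * X⁻¹).1 = Matrix.trace M.1 := by
  rw [vmul, vmul, Matrix.trace_mul_comm, ← Matrix.mul_assoc, ← vmul, inv_mul_cancel, vone,
    Matrix.one_mul]

/-- first entry -/
theorem Rep.g1 (R : Rep K α) (h : FreeGroup (Option α))
    (h0 : (R.A⁻¹ * R.rho h * R.A).1 0 1 = 0) :
    ∃ k : ℤ, h = bb ^ k := by
  set M := R.A⁻¹ * R.rho h * R.A with hM
  have h1 : R.rho (h * bb * h⁻¹ * bb⁻¹) = R.A * (M * dia R.m * M⁻¹ * (dia R.m)⁻¹) * R.A⁻¹ := by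
    rw [map_mul, map_mul, map_mul, map_inv, map_inv, R.hb, hM]
    group
  have h2 : h * bb * h⁻¹ * bb⁻¹ = 1 := R.eq_one (by rw [h1, tr_conj, tr_comm M R.m (Or.inl h0)])
  apply mem_bb_of_comm
  rw [mul_inv_eq_one, mul_inv_eq_iff_eq_mul] at h2
  exact h2.symm

/-- second entry -/
theorem Rep.g2 (R : Rep K α) (h : FreeGroup (Option α))
    (h0 : (R.B⁻¹ * R.rho h * R.B).1 1 0 = 0) :
    ∃ k : ℤ, h = cc R.P ^ k := by
  set M := R.B⁻¹ * R.rho h * R.B with hM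
  have h1 : R.rho (h * cc R.P * h⁻¹ * (cc R.P)⁻¹)
      = R.B * (M * dia R.m * M⁻¹ * (dia R.m)⁻¹) * R.B⁻¹ := by
    rw [map_mul, map_mul, map_mul, map_inv, map_inv, R.hc, hM]
    group
  have h2 : h * cc R.P * h⁻¹ * (cc R.P)⁻¹ = 1 :=
    R.eq_one (by rw [h1, tr_conj, tr_comm M R.m (Or.inr h0)])
  apply mem_cc_of_comm
  rw [mul_inv_eq_one, mul_inv_eq_iff_eq_mul] at h2
  exact h2.symm

/-- third entry -/
theorem Rep.g3 (R : Rep K α) (h : FreeGroup (Option α)) :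
    (R.A⁻¹ * R.rho h * R.B).1 0 0 ≠ 0 := by
  intro h0
  set M := R.A⁻¹ * R.rho h * R.B with hM
  set M' := M * dia R.m * M⁻¹ with hM'
  have e1 : M'.1 0 1 = 0 := by
    rw [hM', conj_dia]
    simp [h0]
  have e2 : M'.1 0 0 = ((R.m⁻¹ : Kˣ) : K) := by
    have hd := sl_det M
    rw [hM', conj_dia]
    simp only [h0, zero_mul, zero_sub, Matrix.of_apply, Matrix.cons_val', Matrix.cons_val_zero,
      Matrix.cons_val_fin_one] at hd ⊢
    linear_combination ((R.m⁻¹ : Kˣ) : K) * hd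
  have h1 : R.rho ((h * cc R.P * h⁻¹) * bb * (h * cc R.P * h⁻¹)⁻¹ * bb⁻¹)
      = R.A * (M' * dia R.m * M'⁻¹ * (dia R.m)⁻¹) * R.A⁻¹ := by
    rw [map_mul, map_mul, map_mul, map_inv, map_inv, map_mul, map_mul, map_inv, R.hb, R.hc, hM',
      hM]
    group
  have h2 : (h * cc R.P * h⁻¹) * bb * (h * cc R.P * h⁻¹)⁻¹ * bb⁻¹ = 1 :=
    R.eq_one (by rw [h1, tr_conj, tr_comm M' R.m (Or.inl e1)])
  rw [mul_inv_eq_one, mul_inv_eq_iff_eq_mul] at h2
  have h3 := conj_cc_eq_bb R.P h2.symm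
  have h4 : M' = dia R.m := by
    have h5 := congrArg R.rho h3
    rw [map_mul, map_mul, map_inv, R.hb, R.hc] at h5
    have h6 : R.A⁻¹ * (R.rho h * (R.B * dia R.m * R.B⁻¹) * (R.rho h)⁻¹) * R.A = dia R.m := by
      rw [h5]; group
    refine Eq.trans ?_ h6
    rw [hM', hM]
    group
  rw [h4, dia_coe] at e2
  simp only [Matrix.of_apply, Matrix.cons_val', Matrix.cons_val_zero,
      Matrix.cons_val_fin_one] at e2
  apply R.hm
  rw [sq]
  nth_rw 2 [e2]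
  simp

/-- fourth entry -/
theorem Rep.g4 (R : Rep K α) (h : FreeGroup (Option α)) :
    (R.B⁻¹ * R.rho h * R.A).1 1 1 ≠ 0 := by
  have h1 := R.g3 h⁻¹
  have h2 : (R.B⁻¹ * R.rho h * R.A) = (R.A⁻¹ * R.rho h⁻¹ * R.B)⁻¹ := by
    rw [map_inv]; group
  rw [h2, vinv]
  simpa using h1

end Pool.Agent.Lib.MP_e3aa0a_gt.FVL
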