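import Mathlib
import Pool.Agent.Lib.MP_e3aa0a_gt.FVL.Star66

/-!
# FVL: leading terms of the traces of words with one stable letter
-/

set_option autoImplicit false

namespace Pool.Agent.Lib.MP_e3aa0a_gt.FVL

open Matrix

section Rank

variable {K : Type*} [Field K]

/-- the product of the scalars of a chain of rank one matrices -/
def chn : (Fin 2 → K) × (Fin 2 → K) → List ((Fin 2 → K) × (Fin 2 → K)) → K
  | _, [] => 1
  | x, y :: T => (x.2 ⬝ᵥ y.1) * chn y T

/-- the last element of a nonempty list -/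
def lst : (Fin 2 → K) × (Fin 2 → K) → List ((Fin 2 → K) × (Fin 2 → K)) →
    (Fin 2 → K) × (Fin 2 → K)
  | x, [] => x
  | _, y :: T => lst y T

theorem prod_rank (x : (Fin 2 → K) × (Fin 2 → K)) (T : List ((Fin 2 → K) × (Fin 2 → K))) :
    (((x :: T).map fun y => vecMulVec y.1 y.2).prod : Matrix (Fin 2) (Fin 2) K)
      = chn x T • vecMulVec x.1 (lst x T).2 := by
  induction T generalizing x with
  | nil => simp [chn, lst]
  | cons y T ih =>
    rw [List.map_cons, List.prod_cons, ih y, chn, lst, Matrix.mul_smul, vecMulVec_mul_vecMulVec,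
      vecMulVec_smul, smul_smul, mul_comm]

theorem trace_rank (x : (Fin 2 → K) × (Fin 2 → K)) (T : List ((Fin 2 → K) × (Fin 2 → K))) :
    Matrix.trace (((x :: T).map fun y => vecMulVec y.1 y.2).prod : Matrix (Fin 2) (Fin 2) K)
      = chn x T * ((lst x T).2 ⬝ᵥ x.1) := by
  rw [prod_rank, Matrix.trace_smul, smul_eq_mul, trace_vecMulVec, dotProduct_comm]

theorem chn_ne_zero (x : (Fin 2 → K) × (Fin 2 → K)) (T : List ((Fin 2 → K) × (Fin 2 → K)))
    (h : ∀ U V y z, x :: T = U ++ y :: z :: V → y.2 ⬝ᵥ z.1 ≠ 0) : chn x T ≠ 0 := by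
  induction T generalizing x with
  | nil => simp [chn]
  | cons y T ih =>
    rw [chn]
    refine mul_ne_zero (h [] T x y rfl) (ih y fun U V a b hU => ?_)
    exact h (x :: U) V a b (by rw [hU]; rfl)

end Rank

section Order

variable {K : Type*} [Field K]

theorem order_ofPS {p : PowerSeries K} (h : PowerSeries.constantCoeff p ≠ 0) :
    (HahnSeries.ofPowerSeries ℤ K p).order = 0 := by
  have hu : IsUnit p := PowerSeries.isUnit_iff_constantCoeff.2 (isUnit_iff_ne_zero.2 h)
  have hc : (HahnSeries.ofPowerSeries ℤ K p).coeff 0 ≠ 0 := by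
    have := HahnSeries.ofPowerSeries_apply_coeff (Γ := ℤ) p 0
    simp only [Nat.cast_zero] at this
    rw [this]
    simpa using h
  have hne : HahnSeries.ofPowerSeries ℤ K p ≠ 0 := by
    intro h0
    rw [h0] at hc
    exact hc (by simp)
  apply le_antisymm
  · exact HahnSeries.order_le_of_coeff_ne_zero hc
  · by_contra hlt
    push Not at hlt
    have h1 := HahnSeries.coeff_order_eq_zero.not.2 hne
    apply h1
    rw [HahnSeries.ofPowerSeries_apply]
    apply HahnSeries.embDomain_of_notMem_range
    simp only [Set.mem_range, not_exists]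
    intro n hn
    have h2 : ((n : ℕ) : ℤ) = (HahnSeries.ofPowerSeries ℤ K p).order := hn
    omega

end Order

end Pool.Agent.Lib.MP_e3aa0a_gt.FVL
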