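import Mathlib
import Pool.Agent.Lib.MP_e3aa0a_gt.FVL.Lead66

/-!
# FVL: the twisted matrix of the stable letter and the traces of words
-/

set_option autoImplicit false

namespace Pool.Agent.Lib.MP_e3aa0a_gt.FVL

open Matrix

variable {K : Type*} [Field K]

/-- constant matrices over the Laurent series -/
noncomputable def cst :
    SpecialLinearGroup (Fin 2) K →* SpecialLinearGroup (Fin 2) (LaurentSeries K) :=
  SpecialLinearGroup.map (HahnSeries.C : K →+* LaurentSeries K)

theorem cst_coe (M : SpecialLinearGroup (Fin 2) K) :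
    (cst M).1 = (HahnSeries.C : K →+* LaurentSeries K).mapMatrix M.1 := rfl

/-- the large parameter `τ` -/
noncomputable def tau : (LaurentSeries K)ˣ where
  val := HahnSeries.single (-1 : ℤ) (1 : K)
  inv := HahnSeries.single (1 : ℤ) (1 : K)
  val_inv := by rw [HahnSeries.single_mul_single]; simp
  inv_val := by rw [HahnSeries.single_mul_single]; simp

theorem tau_coe : ((tau : (LaurentSeries K)ˣ) : LaurentSeries K)
    = HahnSeries.single (-1 : ℤ) (1 : K) := rfl

theorem tau_inv_coe : ((tau⁻¹ : (LaurentSeries K)ˣ) : LaurentSeries K)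
    = HahnSeries.single (1 : ℤ) (1 : K) := rfl

theorem dia_mul {F : Type*} [Field F] (a b : Fˣ) : dia a * dia b = dia (a * b) := by
  apply Subtype.ext
  rw [vmul, dia_coe, dia_coe, dia_coe]
  ext i j
  fin_cases i <;> fin_cases j <;> simp [Matrix.mul_apply, Fin.sum_univ_two, mul_comm]

theorem dia_comm {F : Type*} [Field F] (a b : Fˣ) : dia a * dia b = dia b * dia a := by
  rw [dia_mul, dia_mul, mul_comm]

theorem cst_dia (m : Kˣ) : cst (dia m) = dia (Units.map (HahnSeries.C : K →+* LaurentSeries K) m) := by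
  apply Subtype.ext
  rw [cst_coe, dia_coe, dia_coe]
  ext i j
  fin_cases i <;> fin_cases j <;> simp

variable {α : Type*}

/-- the matrix of the stable letter -/
noncomputable def TT (R : Rep K α) : SpecialLinearGroup (Fin 2) (LaurentSeries K) :=
  cst R.B * dia tau * (cst R.A)⁻¹

theorem TT_rel (R : Rep K α) : TT R * cst (R.rho bb) * (TT R)⁻¹ = cst (R.rho (cc R.P)) := by
  rw [R.hb, R.hc, TT, map_mul, map_mul, map_mul, map_mul, map_inv, map_inv, cst_dia]
  have h := dia_comm (tau (K := K)) (Units.map (HahnSeries.C : K →+* LaurentSeries K) R.m)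
  calc _ = cst R.B * (dia tau * dia (Units.map (HahnSeries.C : K →+* LaurentSeries K) R.m)) *
        (dia tau)⁻¹ * (cst R.B)⁻¹ := by group
    _ = _ := by rw [h]; group

/-- the matrix of the stable letter or its inverse -/
noncomputable def tE (R : Rep K α) (e : Bool) : SpecialLinearGroup (Fin 2) (LaurentSeries K) :=
  if e then TT R else (TT R)⁻¹

/-- the matrix of a syllable -/
noncomputable def syl (R : Rep K α) (x : Bool × FreeGroup (Option α)) :
    SpecialLinearGroup (Fin 2) (LaurentSeries K) :=
  tE R x.1 * cst (R.rho x.2)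

/-- the matrix of a syllable divided by `τ` -/
noncomputable def nn (R : Rep K α) (x : Bool × FreeGroup (Option α)) :
    Matrix (Fin 2) (Fin 2) (PowerSeries K) :=
  if x.1 then
    (PowerSeries.C : K →+* PowerSeries K).mapMatrix R.B.1 * !![1, 0; 0, PowerSeries.X ^ 2] *
      (PowerSeries.C : K →+* PowerSeries K).mapMatrix (R.A⁻¹ * R.rho x.2).1
  else
    (PowerSeries.C : K →+* PowerSeries K).mapMatrix R.A.1 * !![PowerSeries.X ^ 2, 0; 0, 1] *
      (PowerSeries.C : K →+* PowerSeries K).mapMatrix (R.B⁻¹ * R.rho x.2).1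

theorem mapMatrix_C (M : Matrix (Fin 2) (Fin 2) K) :
    (HahnSeries.ofPowerSeries ℤ K).mapMatrix ((PowerSeries.C : K →+* PowerSeries K).mapMatrix M)
      = (HahnSeries.C : K →+* LaurentSeries K).mapMatrix M := by
  ext i j
  simp

theorem nn_map (R : Rep K α) (x : Bool × FreeGroup (Option α)) :
    (HahnSeries.ofPowerSeries ℤ K).mapMatrix (nn R x)
      = (HahnSeries.single (1 : ℤ) (1 : K) : LaurentSeries K) • (syl R x).1 := by
  have hX : HahnSeries.ofPowerSeries ℤ K (PowerSeries.X ^ 2) = HahnSeries.single (2 : ℤ) (1 : K) := by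
    rw [HahnSeries.ofPowerSeries_X_pow]
    norm_num
  have e1 : (HahnSeries.single (1 : ℤ) (1 : K) : LaurentSeries K) * HahnSeries.single (-1 : ℤ) (1 : K)
      = 1 := by
    rw [HahnSeries.single_mul_single]; simp
  have e2 : (HahnSeries.single (1 : ℤ) (1 : K) : LaurentSeries K) * HahnSeries.single (1 : ℤ) (1 : K)
      = HahnSeries.single (2 : ℤ) (1 : K) := by
    rw [HahnSeries.single_mul_single]; simp
  unfold nn syl tE
  split_ifs with h
  · rw [map_mul, map_mul, mapMatrix_C, mapMatrix_C, TT, ← map_inv]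
    simp only [vmul, cst_coe, dia_coe, map_mul, tau_coe, tau_inv_coe]
    have e3 : (HahnSeries.ofPowerSeries ℤ K).mapMatrix !![1, 0; 0, PowerSeries.X ^ 2]
        = (HahnSeries.single (1 : ℤ) (1 : K) : LaurentSeries K) •
          (!![HahnSeries.single (-1 : ℤ) (1 : K), 0; 0, HahnSeries.single (1 : ℤ) (1 : K)] :
            Matrix (Fin 2) (Fin 2) (LaurentSeries K)) := by
      ext i j : 1
      fin_cases i <;> fin_cases j <;> simp [hX, e1, e2]
    rw [e3]
    simp only [Matrix.mul_smul, Matrix.smul_mul, Matrix.mul_assoc]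
  · have e4 : (TT R)⁻¹ = cst R.A * (dia tau)⁻¹ * (cst R.B)⁻¹ := by
      rw [TT]; group
    rw [map_mul, map_mul, mapMatrix_C, mapMatrix_C, e4, ← map_inv]
    simp only [vmul, cst_coe, dia_inv_coe, map_mul, tau_coe, tau_inv_coe]
    have e3 : (HahnSeries.ofPowerSeries ℤ K).mapMatrix !![PowerSeries.X ^ 2, 0; 0, 1]
        = (HahnSeries.single (1 : ℤ) (1 : K) : LaurentSeries K) •
          (!![HahnSeries.single (1 : ℤ) (1 : K), 0; 0, HahnSeries.single (-1 : ℤ) (1 : K)] :
            Matrix (Fin 2) (Fin 2) (LaurentSeries K)) := by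
      ext i j : 1
      fin_cases i <;> fin_cases j <;> simp [hX, e1, e2]
    rw [e3]
    simp only [Matrix.mul_smul, Matrix.smul_mul, Matrix.mul_assoc]

/-- the column and the row of the leading matrix of a syllable -/
def cr1 (R : Rep K α) (x : Bool × FreeGroup (Option α)) : (Fin 2 → K) × (Fin 2 → K) :=
  if x.1 then (fun i => R.B.1 i 0, fun j => (R.A⁻¹ * R.rho x.2).1 0 j)
  else (fun i => R.A.1 i 1, fun j => (R.B⁻¹ * R.rho x.2).1 1 j)

theorem nn_const (R : Rep K α) (x : Bool × FreeGroup (Option α)) :
    (PowerSeries.constantCoeff : PowerSeries K →+* K).mapMatrix (nn R x)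
      = vecMulVec (cr1 R x).1 (cr1 R x).2 := by
  have h0 : ∀ M : Matrix (Fin 2) (Fin 2) K,
      (PowerSeries.constantCoeff : PowerSeries K →+* K).mapMatrix
        ((PowerSeries.C : K →+* PowerSeries K).mapMatrix M) = M := by
    intro M
    ext i j
    simp
  unfold nn cr1
  split_ifs with h
  · rw [map_mul, map_mul, h0, h0]
    ext i j
    simp [Matrix.mul_apply, Fin.sum_univ_two, vecMulVec_apply]
  · rw [map_mul, map_mul, h0, h0]
    ext i j
    simp [Matrix.mul_apply, Fin.sum_univ_two, vecMulVec_apply]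

/-- the scalar of two consecutive syllables -/
def sc (R : Rep K α) (x y : Bool × FreeGroup (Option α)) : K := (cr1 R x).2 ⬝ᵥ (cr1 R y).1

/-- the matrix of a list of syllables -/
noncomputable def evL (R : Rep K α) (S : List (Bool × FreeGroup (Option α))) :
    SpecialLinearGroup (Fin 2) (LaurentSeries K) := (S.map (syl R)).prod

theorem evL_map (R : Rep K α) (S : List (Bool × FreeGroup (Option α))) :
    (HahnSeries.ofPowerSeries ℤ K).mapMatrix (S.map (nn R)).prod
      = (HahnSeries.single (S.length : ℤ) (1 : K) : LaurentSeries K) • (evL R S).1 := by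
  induction S with
  | nil => simp [evL]
  | cons x S ih =>
    have h1 : (HahnSeries.single (1 : ℤ) (1 : K) : LaurentSeries K) *
        HahnSeries.single (S.length : ℤ) (1 : K)
        = HahnSeries.single ((x :: S).length : ℤ) (1 : K) := by
      rw [HahnSeries.single_mul_single]
      simp [add_comm]
    have h2 : (evL R (x :: S)).1 = (syl R x).1 * (evL R S).1 := by
      rw [← vmul]; rfl
    rw [List.map_cons, List.prod_cons, map_mul, ih, nn_map, ← h1, h2, Matrix.smul_mul,
      Matrix.mul_smul, smul_smul]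

/-- the order of the trace of a list of syllables with non-zero scalars -/
theorem order_trace (R : Rep K α) (x : Bool × FreeGroup (Option α))
    (T : List (Bool × FreeGroup (Option α)))
    (h1 : ∀ U V y z, x :: T = U ++ y :: z :: V → sc R y z ≠ 0)
    (h2 : ∀ U y, x :: T = U ++ [y] → sc R y x ≠ 0) :
    Matrix.trace (evL R (x :: T)).1 ≠ 0 ∧
      (Matrix.trace (evL R (x :: T)).1).order = -((x :: T).length : ℤ) := by
  set N := ((x :: T).map (nn R)).prod with hN
  have e1 : (PowerSeries.constantCoeff : PowerSeries K →+* K) N.trace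
      = chn (cr1 R x) (T.map (cr1 R)) * ((lst (cr1 R x) (T.map (cr1 R))).2 ⬝ᵥ (cr1 R x).1) := by
    rw [← trace_rank]
    have h3 : (PowerSeries.constantCoeff : PowerSeries K →+* K) N.trace
        = ((PowerSeries.constantCoeff : PowerSeries K →+* K).mapMatrix N).trace := by
      simp [Matrix.trace_fin_two]
    rw [h3, hN, map_list_prod, List.map_map, ← List.map_cons (f := cr1 R), List.map_map]
    congr 2
    apply List.map_congr_left
    intro y _
    exact nn_const R y
  have hl : ∀ (x : Bool × FreeGroup (Option α)) (T : List (Bool × FreeGroup (Option α))),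
      ∃ U y, x :: T = U ++ [y] ∧ lst (cr1 R x) (T.map (cr1 R)) = cr1 R y := by
    intro x T
    induction T generalizing x with
    | nil => exact ⟨[], x, rfl, rfl⟩
    | cons y T ih =>
      obtain ⟨U, z, h3, h4⟩ := ih y
      exact ⟨x :: U, z, by rw [h3]; rfl, h4⟩
  have e2 : (PowerSeries.constantCoeff : PowerSeries K →+* K) N.trace ≠ 0 := by
    rw [e1]
    refine mul_ne_zero (chn_ne_zero _ _ ?_) ?_
    · intro U V y z hU
      rw [← List.map_cons (f := cr1 R)] at hU
      obtain ⟨U', W, h3, h4, h5⟩ := List.map_eq_append_iff.1 hU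
      rcases W with _ | ⟨y', W⟩
      · simp at h5
      rcases W with _ | ⟨z', W⟩
      · simp at h5
      simp only [List.map_cons, List.cons.injEq] at h5
      obtain ⟨rfl, rfl, -⟩ := h5
      exact h1 U' W y' z' h3
    · obtain ⟨U, y, h3, h4⟩ := hl x T
      rw [h4]
      exact h2 U y h3
  have e3 : HahnSeries.ofPowerSeries ℤ K N.trace
      = HahnSeries.single ((x :: T).length : ℤ) (1 : K) * Matrix.trace (evL R (x :: T)).1 := by
    have h3 : HahnSeries.ofPowerSeries ℤ K N.trace
        = ((HahnSeries.ofPowerSeries ℤ K).mapMatrix N).trace := by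
      simp [Matrix.trace_fin_two]
    rw [h3, hN, evL_map, Matrix.trace_smul, smul_eq_mul]
  have e4 := order_ofPS e2
  have e5 : HahnSeries.ofPowerSeries ℤ K N.trace ≠ 0 := by
    intro h0
    have h3 : N.trace = 0 := by
      apply HahnSeries.ofPowerSeries_injective (Γ := ℤ)
      rw [h0, map_zero]
    rw [h3, map_zero] at e2
    exact e2 rfl
  have e6 : Matrix.trace (evL R (x :: T)).1 ≠ 0 := by
    intro h0
    rw [e3, h0, mul_zero] at e5
    exact e5 rfl
  refine ⟨e6, ?_⟩
  rw [e3, HahnSeries.order_mul (by simp) e6, HahnSeries.order_single one_ne_zero] at e4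
  omega

end Pool.Agent.Lib.MP_e3aa0a_gt.FVL
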