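import Mathlib
import Pool.Agent.Lib.MP_e3aa0a_gt.FVL.DefsCR66
import Pool.Agent.Lib.MP_e3aa0a_gt.FVL.Tau66

/-!
# FVL: the representation of the surface group and the crossing number
-/

set_option autoImplicit false

namespace Pool.Agent.Lib.MP_e3aa0a_gt.FVL

open Matrix

section Words

variable {k : ℕ}

/-- the letters other than `a_1` -/
def jj : Option (Gen k) → Gen (k + 1)
  | none => Sum.inr 0
  | some (Sum.inl i) => Sum.inl i.succ
  | some (Sum.inr i) => Sum.inr i.succ

/-- the elements of the surface group given by words without the letter `a_1` -/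
def iH : FreeGroup (Option (Gen k)) →* SG (k + 1) :=
  (PresentedGroup.mk {relW (k + 1)}).comp (FreeGroup.map jj)

/-- the element `a_1` -/
def tG : SG (k + 1) := PresentedGroup.of (Sum.inl 0)

/-- the element `a_1` or its inverse -/
def tt (e : Bool) : SG (k + 1) := if e then tG else tG⁻¹

/-- the element given by a list of syllables -/
def ev (S : List (Bool × FreeGroup (Option (Gen k)))) : SG (k + 1) :=
  (S.map fun x => tt x.1 * iH x.2).prod

theorem ev_nil : ev ([] : List (Bool × FreeGroup (Option (Gen k)))) = 1 := rfl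

theorem ev_cons (x : Bool × FreeGroup (Option (Gen k)))
    (S : List (Bool × FreeGroup (Option (Gen k)))) : ev (x :: S) = tt x.1 * iH x.2 * ev S := by
  simp [ev]

theorem ev_append (S T : List (Bool × FreeGroup (Option (Gen k)))) :
    ev (S ++ T) = ev S * ev T := by
  simp [ev]

theorem word_nil : (word [] : SG (k + 1)) = 1 := rfl

theorem word_append (L M : List (Gen (k + 1) × Bool)) : word (L ++ M) = word L * word M := by
  rw [word, word, word, ← map_mul, FreeGroup.mul_mk]

theorem word_cons (x : Gen (k + 1) × Bool) (L : List (Gen (k + 1) × Bool)) :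
    word (x :: L) = word [x] * word L := word_append [x] L

theorem word_true (x : Gen (k + 1)) : word [(x, true)] = PresentedGroup.of x := rfl

theorem word_false (x : Gen (k + 1)) : word [(x, false)] = (PresentedGroup.of x)⁻¹ := by
  rw [word, ← word_true, word, ← map_inv, FreeGroup.inv_mk]
  rfl

theorem jj_surj (x : Gen (k + 1)) (hx : x ≠ Sum.inl 0) : ∃ y, jj y = x := by
  rcases x with i | i
  · rcases Fin.eq_zero_or_eq_succ i with rfl | ⟨j, rfl⟩
    · exact absurd rfl hx
    · exact ⟨some (Sum.inl j), rfl⟩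
  · rcases Fin.eq_zero_or_eq_succ i with rfl | ⟨j, rfl⟩
    · exact ⟨none, rfl⟩
    · exact ⟨some (Sum.inr j), rfl⟩

theorem jj_ne (y : Option (Gen k)) : jj y ≠ Sum.inl 0 := by
  rcases y with _ | i | i
  · simp [jj]
  · simp [jj, Fin.succ_ne_zero]
  · simp [jj]

theorem iH_of (y : Option (Gen k)) : iH (FreeGroup.of y) = PresentedGroup.of (jj y) := by
  simp [iH, PresentedGroup.of]

theorem word_letter (x : Gen (k + 1)) (s : Bool) (hx : x ≠ Sum.inl 0) :
    ∃ h : FreeGroup (Option (Gen k)), word [(x, s)] = iH h := by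
  obtain ⟨y, rfl⟩ := jj_surj x hx
  cases s
  · exact ⟨(FreeGroup.of y)⁻¹, by rw [word_false, map_inv, iH_of]⟩
  · exact ⟨FreeGroup.of y, by rw [word_true, iH_of]⟩

theorem word_tt (e : Bool) : word [((Sum.inl 0 : Gen (k + 1)), e)] = tt e := by
  cases e
  · rw [word_false]; rfl
  · rw [word_true]; rfl

/-- a word gives a list of syllables -/
theorem word_syl (L : List (Gen (k + 1) × Bool)) :
    ∃ h S, word L = iH h * ev S ∧ S.length = crw L := by
  induction L with
  | nil => exact ⟨1, [], by rw [word_nil, map_one, ev_nil, one_mul], rfl⟩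
  | cons x L ih =>
    obtain ⟨h, S, h1, h2⟩ := ih
    obtain ⟨x, s⟩ := x
    by_cases hx : x = Sum.inl 0
    · subst hx
      refine ⟨1, (s, h) :: S, ?_, ?_⟩
      · rw [word_cons, word_tt, h1, map_one, one_mul, ev_cons, mul_assoc]
      · simp [crw, h2]
    · obtain ⟨h', h3⟩ := word_letter x s hx
      refine ⟨h' * h, S, ?_, ?_⟩
      · rw [word_cons, h3, h1, map_mul, mul_assoc]
      · rw [h2]; simp [crw, hx]

/-- an element without `a_1` is given by a word without `a_1` -/
theorem iH_word (h : FreeGroup (Option (Gen k))) : ∃ L, word L = iH h ∧ crw L = 0 := by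
  classical
  refine ⟨h.toWord.map fun x => (jj x.1, x.2), ?_, ?_⟩
  · rw [word, iH, MonoidHom.comp_apply]
    congr 1
    conv_rhs => rw [← FreeGroup.mk_toWord (x := h), FreeGroup.map.mk]
  · rw [crw, List.length_eq_zero_iff, List.filter_eq_nil_iff]
    intro x hx
    obtain ⟨y, -, rfl⟩ := List.mem_map.1 hx
    simpa using jj_ne y.1

/-- a list of syllables is given by a word -/
theorem ev_word (S : List (Bool × FreeGroup (Option (Gen k)))) :
    ∃ L, word L = ev S ∧ crw L = S.length := by
  induction S with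
  | nil => exact ⟨[], rfl, rfl⟩
  | cons x S ih =>
    obtain ⟨L, h1, h2⟩ := ih
    obtain ⟨M, h3, h4⟩ := iH_word x.2
    refine ⟨(Sum.inl 0, x.1) :: (M ++ L), ?_, ?_⟩
    · rw [word_cons, word_tt, word_append, h1, h3, ev_cons, mul_assoc]
    · unfold crw at *
      simp [h2, h4]

/-- `x` is conjugate to an element with `n` syllables -/
def Rp (n : ℕ) (x : SG (k + 1)) : Prop := ∃ h S, IsConj x (iH h * ev S) ∧ S.length = n

theorem cr_eq (x : SG (k + 1)) : cr x = sInf {n : ℕ | Rp n x} := by
  rw [cr]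
  congr 1
  ext n
  constructor
  · rintro ⟨L, h1, h2⟩
    obtain ⟨h, S, h3, h4⟩ := word_syl L
    exact ⟨h, S, by rw [← h3]; exact h1, by rw [h4, h2]⟩
  · rintro ⟨h, S, h1, h2⟩
    obtain ⟨L, h3, h4⟩ := ev_word S
    obtain ⟨M, h5, h6⟩ := iH_word h
    refine ⟨M ++ L, by rw [word_append, h5, h3]; exact h1, ?_⟩
    rw [← h2, ← h4]
    unfold crw at *
    rw [List.filter_append, List.length_append, h6, zero_add]

theorem Rp_cr (x : SG (k + 1)) : Rp (cr x) x := by
  have hne : {n : ℕ | Rp n x}.Nonempty := by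
    obtain ⟨y, hy⟩ := PresentedGroup.mk_surjective {relW (k + 1)} x
    obtain ⟨h, S, h3, h4⟩ := word_syl y.toWord
    refine ⟨_, h, S, ?_, rfl⟩
    rw [← h3, word, FreeGroup.mk_toWord, hy]
  rw [cr_eq]
  exact Nat.sInf_mem hne

theorem cr_le {n : ℕ} {x : SG (k + 1)} (h : Rp n x) : cr x ≤ n := by
  rw [cr_eq]
  exact Nat.sInf_le h

/-- the last syllable absorbs an element -/
theorem ev_absorb (U : List (Bool × FreeGroup (Option (Gen k)))) (h h1 : FreeGroup (Option (Gen k))) :
    ∃ U' h', iH h * ev U * iH h1 = iH h' * ev U' ∧ U'.length = U.length := by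
  rcases List.eq_nil_or_concat U with rfl | ⟨U, x, rfl⟩
  · exact ⟨[], h * h1, by rw [ev_nil, mul_one, mul_one, map_mul], rfl⟩
  · refine ⟨U ++ [(x.1, x.2 * h1)], h, ?_, by simp⟩
    rw [List.concat_eq_append, ev_append, ev_append, ev_cons, ev_cons, ev_nil, mul_one, mul_one,
      map_mul]
    simp only [mul_assoc]

/-- for `n > 0` the first factor is not needed -/
theorem Rp_pos {n : ℕ} (hn : 0 < n) {x : SG (k + 1)} (h : Rp n x) :
    ∃ S, IsConj x (ev S) ∧ S.length = n := by
  obtain ⟨h, S, h1, h2⟩ := h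
  rcases List.eq_nil_or_concat S with rfl | ⟨U, y, rfl⟩
  · simp at h2; omega
  · refine ⟨U ++ [(y.1, y.2 * h)], ?_, by simpa using h2⟩
    refine h1.trans ?_
    rw [isConj_iff]
    refine ⟨(iH h)⁻¹, ?_⟩
    rw [List.concat_eq_append, ev_append, ev_append, ev_cons, ev_cons, ev_nil, mul_one, mul_one,
      map_mul]
    group

end Words

section Repr

variable {K : Type*} [Field K] {k : ℕ}

/-- the matrices of the generators -/
noncomputable def gens (R : Rep K (Gen k)) : Gen (k + 1) →
    SpecialLinearGroup (Fin 2) (LaurentSeries K)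
  | Sum.inl i => Fin.cases (TT R) (fun j => cst (R.rho (FreeGroup.of (some (Sum.inl j))))) i
  | Sum.inr i => Fin.cases (cst (R.rho bb)) (fun j => cst (R.rho (FreeGroup.of (some (Sum.inr j))))) i

theorem gens_jj (R : Rep K (Gen k)) (y : Option (Gen k)) :
    gens R (jj y) = cst (R.rho (FreeGroup.of y)) := by
  rcases y with _ | i | i <;> rfl

theorem lift_gens_map (R : Rep K (Gen k)) (h : FreeGroup (Option (Gen k))) :
    FreeGroup.lift (gens R) (FreeGroup.map jj h) = cst (R.rho h) := by
  have h1 : (FreeGroup.lift (gens R)).comp (FreeGroup.map jj) = cst.comp R.rho := by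
    ext1 y
    simp [gens_jj]
  exact DFunLike.congr_fun h1 h

theorem relW_succ : relW (k + 1)
    = FreeGroup.of (Sum.inl 0) * FreeGroup.map jj bb * (FreeGroup.of (Sum.inl 0))⁻¹ *
      (FreeGroup.map jj bb)⁻¹ * FreeGroup.map jj (up (relW k)) := by
  rw [relW, List.ofFn_succ, List.prod_cons]
  congr 1
  rw [up, relW, map_list_prod, map_list_prod, List.map_ofFn, List.map_ofFn]
  congr 2

theorem lift_relW (R : Rep K (Gen k)) (hP : R.P = relW k) :
    FreeGroup.lift (gens R) (relW (k + 1)) = 1 := by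
  rw [relW_succ]
  simp only [map_mul, map_inv, lift_gens_map]
  have h1 : FreeGroup.lift (gens R) (FreeGroup.of (Sum.inl 0)) = TT R := by
    rw [FreeGroup.lift_apply_of]; rfl
  rw [h1, TT_rel, cc, hP, map_mul, map_mul, map_inv, map_inv]
  group

/-- the representation of the surface group -/
noncomputable def rhoG (R : Rep K (Gen k)) (hP : R.P = relW k) :
    SG (k + 1) →* SpecialLinearGroup (Fin 2) (LaurentSeries K) :=
  PresentedGroup.toGroup (f := gens R) (by
    intro r hr
    rw [Set.mem_singleton_iff.1 hr]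
    exact lift_relW R hP)

theorem rhoG_tG (R : Rep K (Gen k)) (hP : R.P = relW k) : rhoG R hP tG = TT R :=
  PresentedGroup.toGroup.of _

theorem rhoG_tt (R : Rep K (Gen k)) (hP : R.P = relW k) (e : Bool) : rhoG R hP (tt e) = tE R e := by
  unfold tt tE
  split_ifs
  · exact rhoG_tG R hP
  · rw [map_inv, rhoG_tG]

theorem rhoG_iH (R : Rep K (Gen k)) (hP : R.P = relW k) (h : FreeGroup (Option (Gen k))) :
    rhoG R hP (iH h) = cst (R.rho h) := by
  have h1 : (rhoG R hP).comp iH = cst.comp R.rho := by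
    ext1 y
    rw [MonoidHom.comp_apply, MonoidHom.comp_apply, iH_of, ← gens_jj]
    exact PresentedGroup.toGroup.of _
  exact DFunLike.congr_fun h1 h

theorem rhoG_ev (R : Rep K (Gen k)) (hP : R.P = relW k)
    (S : List (Bool × FreeGroup (Option (Gen k)))) : rhoG R hP (ev S) = evL R S := by
  induction S with
  | nil => rw [ev_nil, map_one]; rfl
  | cons x S ih =>
    rw [ev_cons, map_mul, map_mul, rhoG_tt, rhoG_iH, ih]
    rfl

/-- `t c t⁻¹`: the relation in the surface group -/
theorem rel_tG : (tG : SG (k + 1)) * iH bb * tG⁻¹ = iH (cc (relW k)) := by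
  have h1 : PresentedGroup.mk {relW (k + 1)} (FreeGroup.of (Sum.inl 0) * FreeGroup.map jj bb *
      (FreeGroup.of (Sum.inl 0))⁻¹ * (FreeGroup.map jj bb)⁻¹ *
        FreeGroup.map jj (up (relW k))) = 1 := by
    rw [← relW_succ, PresentedGroup.mk_eq_one_iff]
    exact Subgroup.subset_normalClosure rfl
  simp only [map_mul, map_inv] at h1
  have h2 : (tG : SG (k + 1)) * iH bb * tG⁻¹ * (iH bb)⁻¹ * iH (up (relW k)) = 1 := h1
  rw [cc, map_mul, map_inv]
  rw [mul_eq_one_iff_eq_inv] at h2
  rw [← h2]
  group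

/-- contraction: if the scalar of two syllables vanishes, the two stable letters disappear -/
theorem contr (R : Rep K (Gen k)) (hP : R.P = relW k) (x y : Bool × FreeGroup (Option (Gen k)))
    (h : sc R x y = 0) : ∃ h' : FreeGroup (Option (Gen k)), tt x.1 * iH x.2 * tt y.1 = iH h' := by
  obtain ⟨e, a⟩ := x
  obtain ⟨e', b⟩ := y
  unfold sc cr1 at h
  simp only [dotProduct, Fin.sum_univ_two] at h
  cases e <;> cases e' <;> simp only [Bool.false_eq_true, if_false, if_true] at h
  · exfalso
    apply R.g4 a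
    rw [vmul, Matrix.mul_apply, Fin.sum_univ_two]
    exact h
  · obtain ⟨n, hn⟩ := R.g2 a (by rw [vmul, Matrix.mul_apply, Fin.sum_univ_two]; exact h)
    refine ⟨bb ^ n, ?_⟩
    rw [hP] at hn
    simp only [tt, Bool.false_eq_true, if_false, if_true]
    rw [hn, map_zpow, ← rel_tG, map_zpow, conj_zpow]
    group
  · obtain ⟨n, hn⟩ := R.g1 a (by rw [vmul, Matrix.mul_apply, Fin.sum_univ_two]; exact h)
    refine ⟨cc (relW k) ^ n, ?_⟩
    simp only [tt, Bool.false_eq_true, if_false, if_true]
    rw [hn, map_zpow, map_zpow, ← rel_tG, conj_zpow]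
  · exfalso
    apply R.g3 a
    rw [vmul, Matrix.mul_apply, Fin.sum_univ_two]
    exact h

theorem sc_self (R : Rep K (Gen k)) (x y : Bool × FreeGroup (Option (Gen k))) (he : x.1 = y.1) :
    sc R x y ≠ 0 := by
  obtain ⟨e, a⟩ := x
  obtain ⟨e', b⟩ := y
  simp only at he
  subst he
  unfold sc cr1
  simp only [dotProduct, Fin.sum_univ_two]
  cases e <;> simp only [Bool.false_eq_true, if_false, if_true]
  · have := R.g4 a
    rwa [vmul, Matrix.mul_apply, Fin.sum_univ_two] at this
  · have := R.g3 a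
    rwa [vmul, Matrix.mul_apply, Fin.sum_univ_two] at this

/-- the order of the trace is minus the crossing number -/
theorem order_rhoG (R : Rep K (Gen k)) (hP : R.P = relW k) (x : SG (k + 1)) (hx : 0 < cr x) :
    Matrix.trace (rhoG R hP x).1 ≠ 0 ∧ (Matrix.trace (rhoG R hP x).1).order = -(cr x : ℤ) := by
  obtain ⟨S, h1, h2⟩ := Rp_pos hx (Rp_cr x)
  obtain ⟨c, hc⟩ := isConj_iff.1 h1
  have e1 : Matrix.trace (rhoG R hP x).1 = Matrix.trace (evL R S).1 := by
    rw [← rhoG_ev R hP, ← hc, map_mul, map_mul, map_inv, tr_conj]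
  rcases S with _ | ⟨y, T⟩
  · simp at h2; omega
  rw [e1, ← h2]
  refine order_trace R y T ?_ ?_
  · intro U V a b hU h0
    obtain ⟨h', h3⟩ := contr R hP a b h0
    have h4 : ev (y :: T) = ev U * iH (h' * b.2) * ev V := by
      rw [hU, ev_append, ev_cons, ev_cons, map_mul, ← h3]
      simp only [mul_assoc]
    obtain ⟨U', g', h5, h6⟩ := ev_absorb U 1 (h' * b.2)
    rw [map_one, one_mul] at h5
    have h7 : Rp (U' ++ V).length x := by
      refine ⟨g', U' ++ V, ?_, rfl⟩
      rw [ev_append, ← mul_assoc, ← h5, ← h4]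
      exact h1
    have h8 := cr_le h7
    rw [← h2, hU] at h8
    simp only [List.length_append, List.length_cons] at h8
    omega
  · intro U z hU h0
    rcases U with _ | ⟨u, U⟩
    · simp only [List.nil_append, List.cons.injEq] at hU
      obtain ⟨rfl, -⟩ := hU
      exact sc_self R y y rfl h0
    · simp only [List.cons_append, List.cons.injEq] at hU
      obtain ⟨rfl, rfl⟩ := hU
      obtain ⟨h', h3⟩ := contr R hP z y h0
      have h7 : Rp U.length x := by
        refine ⟨h' * y.2, U, h1.trans ?_, rfl⟩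
        rw [isConj_iff]
        refine ⟨tt z.1 * iH z.2, ?_⟩
        rw [ev_cons, ev_append, ev_cons, ev_nil, mul_one, map_mul, ← h3]
        group
      have h8 := cr_le h7
      rw [← h2] at h8
      simp only [List.length_append, List.length_cons, List.length_nil] at h8
      omega

/-- if the crossing number is zero, the element is conjugate to one without `a_1` -/
theorem cr_zero (x : SG (k + 1)) (hx : cr x = 0) :
    ∃ h : FreeGroup (Option (Gen k)), IsConj x (iH h) := by
  obtain ⟨h, S, h1, h2⟩ := Rp_cr x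
  rw [hx, List.length_eq_zero_iff] at h2
  rw [h2, ev_nil, mul_one] at h1
  exact ⟨h, h1⟩

/-- no nontrivial element of the surface group has trace `± 2` -/
theorem N_G (R : Rep K (Gen k)) (hP : R.P = relW k) (x : SG (k + 1)) (hx : x ≠ 1) :
    Matrix.trace (rhoG R hP x).1 ^ 2 ≠ 4 := by
  rcases Nat.eq_zero_or_pos (cr x) with h0 | h0
  · obtain ⟨h, h1⟩ := cr_zero x h0
    obtain ⟨c, hc⟩ := isConj_iff.1 h1
    have e1 : Matrix.trace (rhoG R hP x).1 = HahnSeries.C (Matrix.trace (R.rho h).1) := by
      have : Matrix.trace (rhoG R hP (iH h)).1 = Matrix.trace (rhoG R hP x).1 := by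
        rw [← hc, map_mul, map_mul, map_inv, tr_conj]
      rw [← this, rhoG_iH, cst_coe]
      simp [Matrix.trace_fin_two]
    rw [e1]
    intro h4
    have h5 : h ≠ 1 := by
      rintro rfl
      rw [map_one] at hc
      apply hx
      have : x = c⁻¹ * 1 * c := by rw [← hc]; group
      rw [this]
      group
    apply R.N h h5
    apply HahnSeries.C_injective (Γ := ℤ)
    rw [map_pow, h4, map_ofNat]
  · obtain ⟨h1, h2⟩ := order_rhoG R hP x h0
    intro h4
    have h5 : (Matrix.trace (rhoG R hP x).1 ^ 2).order = 2 • (-(cr x : ℤ)) := by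
      rw [HahnSeries.order_pow, h2]
    rw [h4] at h5
    have h6 : (4 : LaurentSeries K) = HahnSeries.C (4 : K) := by rw [map_ofNat]
    rw [h6, HahnSeries.order_C] at h5
    simp only [smul_neg, nsmul_eq_mul, Nat.cast_ofNat] at h5
    omega

end Repr

end Pool.Agent.Lib.MP_e3aa0a_gt.FVL
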