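import Pool.Agent.Lib.MP_e3aa0a_gt.FVL.Poly65

/-!
# FVL, module Chn65: a chain of handles with prescribed determinants
-/

set_option autoImplicit false

namespace Pool.Agent.Lib.MP_e3aa0a_gt.FVL

open Matrix

/-- the product `[a (k-1), b (k-1)] ⋯ [a 0, b 0]` -/
def Dp {G : Type*} [Group G] (a b : ℕ → G) : ℕ → G
  | 0 => 1
  | k + 1 => a k * b k * (a k)⁻¹ * (b k)⁻¹ * Dp a b k

theorem Dp_congr {G : Type*} [Group G] {a b a' b' : ℕ → G} :
    ∀ k : ℕ, (∀ j < k, a j = a' j ∧ b j = b' j) → Dp a b k = Dp a' b' k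
  | 0, _ => rfl
  | k + 1, h => by
    have h1 := h k (Nat.lt_succ_self k)
    have h2 := Dp_congr k fun j hj => h j (hj.trans (Nat.lt_succ_self k))
    simp only [Dp, h1.1, h1.2, h2]

theorem map_Dp {G H : Type*} [Group G] [Group H] (f : G →* H) (a b : ℕ → G) :
    ∀ k : ℕ, f (Dp a b k) = Dp (fun j => f (a j)) (fun j => f (b j)) k
  | 0 => map_one f
  | k + 1 => by
    simp only [Dp, map_mul, map_inv, map_Dp f a b k]

section Map

variable {R S : Type*} [CommRing R] [CommRing S] (f : R →+* S)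

theorem dt_map (x y : Fin 2 → R) : dtv (fun i => f (x i)) (fun i => f (y i)) = f (dtv x y) := by
  simp only [dtv, map_sub, map_mul]

theorem ap_map (A : SpecialLinearGroup (Fin 2) R) (x : Fin 2 → R) :
    ap (SpecialLinearGroup.map f A) (fun i => f (x i)) = fun i => f (ap A x i) := by
  refine vext ?_ ?_
  · simp only [ap_zero', map_add, map_mul]
    rfl
  · simp only [ap_one', map_add, map_mul]
    rfl

theorem u0_map : (fun i => f ((u0 : Fin 2 → R) i)) = (u0 : Fin 2 → S) := by
  refine vext ?_ ?_ <;> simp [u0]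

theorem ap_map_u0 (A : SpecialLinearGroup (Fin 2) R) :
    ap (SpecialLinearGroup.map f A) u0 = fun i => f (ap A u0 i) := by
  rw [← u0_map f, ap_map]

theorem tra_map (A : SpecialLinearGroup (Fin 2) R) :
    tra (SpecialLinearGroup.map f A) = f (tra A) := by
  simp only [tra, map_add]
  rfl

theorem Hnd.map {D : SpecialLinearGroup (Fin 2) R} {α β y₁ y₂ y₃ y₄ : R}
    {a b : SpecialLinearGroup (Fin 2) R} (h : Hnd D α β y₁ y₂ y₃ y₄ a b) :
    Hnd (SpecialLinearGroup.map f D) (f α) (f β) (f y₁) (f y₂) (f y₃) (f y₄)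
      (SpecialLinearGroup.map f a) (SpecialLinearGroup.map f b) := by
  have e : ∀ A B : SpecialLinearGroup (Fin 2) R,
      dtv (ap (SpecialLinearGroup.map f A) u0) (ap (SpecialLinearGroup.map f B) u0) =
        f (dtv (ap A u0) (ap B u0)) := by
    intro A B
    rw [ap_map_u0, ap_map_u0, dt_map]
  have e0 : ∀ A : SpecialLinearGroup (Fin 2) R,
      dtv u0 (ap (SpecialLinearGroup.map f A) u0) = f (dtv u0 (ap A u0)) := by
    intro A
    rw [ap_map_u0, ← u0_map f, dt_map]
  refine ⟨?_, ?_, ?_, ?_, ?_, ?_⟩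
  · rw [e0, h.ha]
  · rw [e0, h.hb]
  · rw [e, h.h1]
  · rw [← map_mul, e, h.h2]
  · rw [← map_inv, ← map_mul, ← map_mul, e, h.h3]
  · rw [← map_inv, ← map_inv, ← map_mul, ← map_mul, ← map_mul, e, h.h4]

theorem Lst.map {D : SpecialLinearGroup (Fin 2) R} {xb xc : R}
    {b : SpecialLinearGroup (Fin 2) R} (h : Lst D xb xc b) :
    Lst (SpecialLinearGroup.map f D) (f xb) (f xc) (SpecialLinearGroup.map f b) := by
  refine ⟨?_, ?_, ?_⟩
  · rw [ap_map_u0, ← u0_map f, dt_map, h.hb]
  · rw [ap_map_u0, ap_map_u0, dt_map, h.hc]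
  · rw [← map_inv, ← map_mul, tra_map, tra_map, h.ht]

/-- **The chain of handles.** A sequence of handles over `S` in normal position, whose determinants
are the images of units of `R`, lifts to a sequence of handles over `R` with these determinants. -/
theorem chain_lift (a1 b1 : ℕ → SpecialLinearGroup (Fin 2) S) (α β y₁ y₂ y₃ y₄ : ℕ → Rˣ)
    (h0 : y₁ 0 = -β 0) (hy : ap (b1 0) u0 = ![0, f (β 0)]) :
    ∀ n : ℕ, (∀ k < n, Hnd (Dp a1 b1 k) (f (α k)) (f (β k)) (f (y₁ k)) (f (y₂ k)) (f (y₃ k))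
        (f (y₄ k)) (a1 k) (b1 k)) →
      ∃ a b : ℕ → SpecialLinearGroup (Fin 2) R,
        (∀ k < n, Hnd (Dp a b k) (α k) (β k) (y₁ k) (y₂ k) (y₃ k) (y₄ k) (a k) (b k)) ∧
        ∀ k < n, SpecialLinearGroup.map f (a k) = a1 k ∧
          SpecialLinearGroup.map f (b k) = b1 k
  | 0, _ => ⟨fun _ => 1, fun _ => 1, fun k hk => absurd hk (Nat.not_lt_zero k),
      fun k hk => absurd hk (Nat.not_lt_zero k)⟩
  | n + 1, h => by
    obtain ⟨a, b, hab, hm⟩ := chain_lift a1 b1 α β y₁ y₂ y₃ y₄ h0 hy n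
      fun k hk => h k (hk.trans (Nat.lt_succ_self n))
    have hD : SpecialLinearGroup.map f (Dp a b n) = Dp a1 b1 n := by
      rw [map_Dp]
      exact Dp_congr n fun j hj => hm j hj
    have hn := h n (Nat.lt_succ_self n)
    -- the first vector
    obtain ⟨P, p1, p2, p3⟩ : ∃ P : Fin 2 → R, dtv u0 P = β n ∧ dtv P (ap (Dp a b n) u0) = y₁ n ∧
        (fun i => f (P i)) = ap (b1 n) u0 := by
      rcases Nat.eq_zero_or_pos n with rfl | hpos
      · refine ⟨![0, β 0], ?_, ?_, ?_⟩
        · simp [dtv, u0]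
        · rw [h0]
          simp [Dp, ap_one, dtv, u0]
        · rw [hy]
          refine vext ?_ ?_ <;> simp
      · obtain ⟨m, rfl⟩ : ∃ m, n = m + 1 := ⟨n - 1, by omega⟩
        have hy0 : dtv u0 (ap (Dp a b (m + 1)) u0) = y₄ m := by
          have e := (hab m (Nat.lt_succ_self m)).h4
          have e2 : Dp a b (m + 1) = (b m * a m * (b m)⁻¹ * (a m)⁻¹)⁻¹ * Dp a b m := by
            simp only [Dp]
            group
          rw [e2, ap_mul, dt_inv_right, e]
        refine ⟨(↑((y₄ m)⁻¹) : R) • ((y₁ (m + 1) : R) • u0 +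
          (β (m + 1) : R) • ap (Dp a b (m + 1)) u0), ?_, ?_, ?_⟩
        · rw [dt_smul_right, dt_add_right, dt_smul_right, dt_smul_right, dt_self, hy0]
          linear_combination (β (m + 1) : R) * (y₄ m).inv_mul
        · rw [dt_smul_left, dt_add_left, dt_smul_left, dt_smul_left, dt_self, hy0]
          linear_combination (y₁ (m + 1) : R) * (y₄ m).inv_mul
        · have hD2 : ap (Dp a1 b1 (m + 1)) u0 = fun i => f (ap (Dp a b (m + 1)) u0 i) := by
            rw [← hD, ap_map_u0]
          have hy0' : dtv u0 (ap (Dp a1 b1 (m + 1)) u0) = f (y₄ m) := by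
            rw [hD2, ← u0_map f, dt_map, hy0]
          refine eq_of_dt (p := u0) (q := ap (Dp a1 b1 (m + 1)) u0)
            (by rw [hy0']; exact (y₄ m).isUnit.map f) ?_ ?_
          · rw [hn.hb, ← u0_map f, dt_map]
            rw [dt_smul_right, dt_add_right, dt_smul_right, dt_smul_right, dt_self, hy0]
            congr 1
            linear_combination (β (m + 1) : R) * (y₄ m).inv_mul
          · rw [hn.h1, hD2, dt_map]
            rw [dt_smul_left, dt_add_left, dt_smul_left, dt_smul_left, dt_self, hy0]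
            congr 1
            linear_combination (y₁ (m + 1) : R) * (y₄ m).inv_mul
    obtain ⟨an, bn, hbn, hH⟩ := step_exists (Dp a b n) P (α n) (β n) (y₁ n) (y₂ n) (y₃ n) (y₄ n)
      p1 p2
    have hH' := hH.map f
    rw [hD] at hH'
    have huq := step_unique ((α n).isUnit.map f) ((β n).isUnit.map f) ((y₁ n).isUnit.map f)
      ((y₂ n).isUnit.map f) ((y₃ n).isUnit.map f)
      (by rw [ap_map_u0, hbn, p3]) hH' hn
    refine ⟨Function.update a n an, Function.update b n bn, ?_, ?_⟩
    · intro k hk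
      have hDk : Dp (Function.update a n an) (Function.update b n bn) k = Dp a b k :=
        Dp_congr k fun j hj => by
          have : j ≠ n := by omega
          simp [this]
      rw [hDk]
      rcases Nat.lt_succ_iff_lt_or_eq.1 hk with hk' | rfl
      · have : k ≠ n := by omega
        simpa [this] using hab k hk'
      · simpa using hH
    · intro k hk
      rcases Nat.lt_succ_iff_lt_or_eq.1 hk with hk' | rfl
      · have : k ≠ n := by omega
        simpa [this] using hm k hk'
      · simpa using huq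

end Map

end Pool.Agent.Lib.MP_e3aa0a_gt.FVL
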