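import Pool.Agent.Lib.FVol.Fek

/-!
# FVL, module Cod32: coded maps and the upper bound for the filling volume

`Coded N z φ μ`: the endomorphism `φ` is coded by a closed path of the (generalised) Rauzy-Veech
induction with at most `N` letters and stretch factor `μ`, on polygon data whose 2-cycle is
homologous to `z` or `-z`.
-/

set_option autoImplicit false

namespace Pool.Agent.Lib.MP_e3aa0a_gt.FVL

open Pool.Agent.Lib.FVol Filter Topology

variable {G : Type*} [Group G]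

/-- `φ` is coded by a finite path of Rauzy-Veech steps from the polygon data `d` (at most `N`
letters, labels in `G`, 2-cycle homologous to `z` or `-z`) to its image under `φ` with stretch
factor `μ`. -/
def Coded (N : ℕ) (z : C2 G) (φ : G →* G) (μ : ℝ) : Prop :=
  ∃ (n : ℕ) (V : Type) (d : Dat (Fin n) V G) (c : V → G), n ≤ N ∧ Good d ∧
    Relation.ReflTransGen Rv d (tw φ c μ d) ∧
    ((∃ b : C3 G, bd G b = cyc d - z) ∨ ∃ b : C3 G, bd G b = cyc d + z)

/-- the constant of the upper bound for `N` letters -/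
noncomputable def upC (N : ℕ) : ℝ := (56 * (N : ℝ) + 73) * ((N : ℝ) + 2) * (N : ℝ)

theorem upC_mono {n N : ℕ} (h : n ≤ N) : upC n ≤ upC N := by
  have h1 : (n : ℝ) ≤ N := by exact_mod_cast h
  have h0 : (0 : ℝ) ≤ n := Nat.cast_nonneg n
  unfold upC
  have e1 : (56 * (n : ℝ) + 73) ≤ 56 * (N : ℝ) + 73 := by linarith
  have e2 : ((n : ℝ) + 2) ≤ (N : ℝ) + 2 := by linarith
  exact mul_le_mul (mul_le_mul e1 e2 (by linarith) (by linarith)) h1 h0 (by positivity)

theorem hpow_hpow (φ : G →* G) (p k : ℕ) : hpow (hpow φ p) k = hpow φ (p * k) := by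
  induction k with
  | zero => rfl
  | succ k ih =>
    show (hpow φ p).comp (hpow (hpow φ p) k) = hpow φ (p * (k + 1))
    rw [ih, ← hpow_add]
    congr 1
    ring

/-- comparison of the fillings of two homologous cycles -/
theorem fil_change {c z : C2 G} {b : C3 G} (hb : bd G b = c - z) (ψ : G →* G) {r : ℝ}
    (h : Fil r (push ψ c - c)) : Fil (r + 2 * nrm b) (push ψ z - z) := by
  have h1 : Fil (nrm b : ℝ) (c - z) := ⟨b, hb, le_refl _⟩
  have h2 := h1.push ψ
  refine ((h.sub h2).add h1).of_eq (le_of_eq (by ring)) ?_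
  rw [push_sub]
  abel

theorem fil_change_neg {c z : C2 G} {b : C3 G} (hb : bd G b = c + z) (ψ : G →* G) {r : ℝ}
    (h : Fil r (push ψ c - c)) : Fil (r + 2 * nrm b) (push ψ z - z) := by
  have h1 : Fil (nrm b : ℝ) (c + z) := ⟨b, hb, le_refl _⟩
  have h2 := h1.push ψ
  refine ((h2.sub h).sub h1).of_eq (le_of_eq (by ring)) ?_
  rw [push_add]
  abel

/-- **The upper bound**: if the power `φ^p` is coded with stretch factor `μ^p`, the filling
volume of `φ` (with respect to the cycle `z`) is at most `C_N log μ / log 2`. -/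
theorem upper32 {N : ℕ} {z : C2 G} {φ : G →* G} {μ : ℝ} (hμ : 1 < μ) {p : ℕ} (hp : 1 ≤ p)
    (hc : Coded N z (hpow φ p) (μ ^ p)) {F : ℝ}
    (hF : Tendsto (fun k : ℕ => (fill (push (hpow φ k) z - z) : ℝ) / k) atTop (𝓝 F)) :
    F ≤ upC N * (Real.log μ / Real.log 2) := by
  obtain ⟨n, V, d, c, hn, hd, hpath, hcyc⟩ := hc
  have hp0 : (0 : ℝ) < p := by exact_mod_cast hp
  have hμp : 1 < μ ^ p := one_lt_pow₀ hμ (by omega)
  obtain ⟨F', hF', hle⟩ := filling_volume_le hd hμp hpath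
  obtain ⟨R, hR⟩ : ∃ R : ℝ, ∀ (ψ : G →* G) (r : ℝ), Fil r (push ψ (cyc d) - cyc d) →
      Fil (r + R) (push ψ z - z) := by
    rcases hcyc with ⟨b, hb⟩ | ⟨b, hb⟩
    · exact ⟨2 * nrm b, fun ψ r h => fil_change hb ψ h⟩
    · exact ⟨2 * nrm b, fun ψ r h => fil_change_neg hb ψ h⟩
  have hcomp : ∀ k : ℕ, 1 ≤ k → (fill (push (hpow φ (p * k)) z - z) : ℝ) / ((p * k : ℕ) : ℝ)
      ≤ ((fill (push (hpow (hpow φ p) k) (cyc d) - cyc d) : ℝ) / k) / p + R / p * (1 / (k : ℝ)) := by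
    intro k hk
    have hk0 : (0 : ℝ) < k := by exact_mod_cast hk
    have h1 := fil_fill (fil_iter hd hpath hμp k)
    have h2 := fill_le (hR _ _ h1)
    rw [hpow_hpow] at h2 ⊢
    push_cast
    rw [div_le_iff₀ (mul_pos hp0 hk0)]
    refine h2.trans (le_of_eq ?_)
    field_simp
  have hsub : Tendsto (fun k : ℕ => (fill (push (hpow φ (p * k)) z - z) : ℝ) /
      ((p * k : ℕ) : ℝ)) atTop (𝓝 F) :=
    hF.comp (tendsto_id.const_mul_atTop' (by omega : 0 < p))
  have hlim : Tendsto (fun k : ℕ => ((fill (push (hpow (hpow φ p) k) (cyc d) - cyc d) : ℝ) / k) / p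
      + R / p * (1 / (k : ℝ))) atTop (𝓝 (F' / p + R / p * 0)) :=
    (hF'.div_const _).add (tendsto_one_div_atTop_nhds_zero_nat.const_mul _)
  rw [mul_zero, add_zero] at hlim
  have h3 : F ≤ F' / p :=
    le_of_tendsto_of_tendsto hsub hlim (eventually_atTop.2 ⟨1, hcomp⟩)
  refine h3.trans ?_
  rw [div_le_iff₀ hp0]
  refine hle.trans ?_
  rw [Real.log_pow, Fintype.card_fin]
  have h4 := upC_mono hn
  unfold upC at h4 ⊢
  have h5 : 0 ≤ Real.log μ / Real.log 2 :=
    div_nonneg (Real.log_nonneg hμ.le) (Real.log_nonneg (by norm_num))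
  have h6 : (56 * (n : ℝ) + 73) * ((n : ℝ) + 2) * (n : ℝ) * ((p : ℝ) * Real.log μ / Real.log 2)
      = p * (((56 * (n : ℝ) + 73) * ((n : ℝ) + 2) * (n : ℝ)) * (Real.log μ / Real.log 2)) := by
    ring
  rw [h6]
  have h7 := mul_le_mul_of_nonneg_right h4 h5
  calc (p : ℝ) * (((56 * (n : ℝ) + 73) * ((n : ℝ) + 2) * (n : ℝ)) * (Real.log μ / Real.log 2))
      ≤ p * (((56 * (N : ℝ) + 73) * ((N : ℝ) + 2) * (N : ℝ)) * (Real.log μ / Real.log 2)) :=
        mul_le_mul_of_nonneg_left h7 hp0.le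
    _ = _ := by ring

end Pool.Agent.Lib.MP_e3aa0a_gt.FVL
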