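import Pool.Agent.Lib.MP_e3aa0a_gt.FVL.FV16
import Pool.Agent.Lib.MP_e3aa0a_gt.FVL.Cod32
import Pool.Agent.Lib.MP_e3aa0a_gt.FVL.Fan21
import Pool.Agent.Lib.MP_e3aa0a_gt.FVL.DefsCR66

/-!
# FVL, module Cod32b: the upper bound for coded maps of a closed surface

The fundamental cycle of `SG (k+1)` in the bar complex is the fan cycle of the relator.  A
pseudo-Anosov class has a coding with at most `6 (k+1) - 4` letters.
-/

set_option autoImplicit false

namespace Pool.Agent.Lib.MP_e3aa0a_gt.FVL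

open Pool.Agent.Lib.FVol Filter Topology

variable {G : Type*} [Group G]

/-- **The upper bound in terms of `FV`**. -/
theorem FV_le32 {N : ℕ} {z : C2 G} {φ : G →* G} (h : IsB (push φ z - z)) {μ : ℝ} (hμ : 1 < μ)
    {p : ℕ} (hp : 1 ≤ p) (hc : Coded N z (hpow φ p) (μ ^ p)) :
    FV φ z ≤ upC N * (Real.log μ / Real.log 2) :=
  upper32 hμ hp hc (tendsto_FV h)

/-- the constant of the upper bound in genus `k + 1` -/
noncomputable def upK (k : ℕ) : ℝ := upC (6 * k + 2) / Real.log 2

theorem upC_nonneg (N : ℕ) : 0 ≤ upC N := by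
  unfold upC
  positivity

theorem upK_pos (k : ℕ) : 0 < upK k := by
  unfold upK upC
  have : 0 < Real.log 2 := Real.log_pos (by norm_num)
  positivity

/-- the upper bound for the fan cycle of the surface group of genus `k + 1` -/
theorem coded32 {k : ℕ} {φ : SG (k + 1) →* SG (k + 1)} {z : C2 (SG (k + 1))}
    (h : IsB (push φ z - z)) {μ : ℝ} (hμ : 1 < μ) {p : ℕ} (hp : 1 ≤ p)
    (hc : Coded (6 * k + 2) z (hpow φ p) (μ ^ p)) :
    FV φ z ≤ upK k * Real.log μ := by
  refine (FV_le32 h hμ hp hc).trans (le_of_eq ?_)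
  unfold upK
  ring

end Pool.Agent.Lib.MP_e3aa0a_gt.FVL
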