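import Pool.Agent.Lib.MP_e3aa0a_gt.FVL.Fix57

/-!
# FVR, module Cont31: continuants, the products of the letter matrices
-/

set_option autoImplicit false

namespace Pool.Agent.Lib.MP_e3aa0a_gt.FVL

section algebra

variable {K : Type*} [CommRing K]

/-- the matrix of a letter `(A, D, e)`; its determinant is `e` -/
def lm31 (p : K × K × K) : Matrix (Fin 2) (Fin 2) K :=
  !![p.1, p.1 * p.2.1 - p.2.2; 1, p.2.1]

/-- the product of the letter matrices -/
def pm31 (l : List (K × K × K)) : Matrix (Fin 2) (Fin 2) K := (l.map lm31).prod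

/-- the lower left entry of the product -/
def g31 : List (K × K × K) → K
  | [] => 0
  | [_] => 1
  | p :: q :: l => (p.2.1 + q.1) * g31 (q :: l) - q.2.2 * g31 l

/-- the product of the sums `D + A` of neighbours -/
def kp31 : List (K × K × K) → K
  | [] => 1
  | [_] => 1
  | p :: q :: l => (p.2.1 + q.1) * kp31 (q :: l)

/-- the mirror image of a letter -/
def sw31 (p : K × K × K) : K × K × K := (p.2.1, p.1, p.2.2)

theorem pm31_nil : pm31 ([] : List (K × K × K)) = 1 := rfl

theorem pm31_cons (p : K × K × K) (l : List (K × K × K)) :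
    pm31 (p :: l) = lm31 p * pm31 l := by
  simp [pm31]

theorem pm31_append (l l' : List (K × K × K)) : pm31 (l ++ l') = pm31 l * pm31 l' := by
  simp [pm31]

theorem det_lm31 (p : K × K × K) : (lm31 p).det = p.2.2 := by
  rw [lm31, Matrix.det_fin_two_of]
  ring

theorem det_pm31 (l : List (K × K × K)) : (pm31 l).det = (l.map fun p => p.2.2).prod := by
  induction l with
  | nil => simp [pm31]
  | cons p l ih => rw [pm31_cons, Matrix.det_mul, ih, det_lm31, List.map_cons, List.prod_cons]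

theorem cons_entries31 (p : K × K × K) (l : List (K × K × K)) :
    pm31 (p :: l) 1 0 = pm31 l 0 0 + p.2.1 * pm31 l 1 0 ∧
    pm31 (p :: l) 0 0 = p.1 * pm31 (p :: l) 1 0 - p.2.2 * pm31 l 1 0 ∧
    pm31 (p :: l) 1 1 = pm31 l 0 1 + p.2.1 * pm31 l 1 1 ∧
    pm31 (p :: l) 0 1 = p.1 * pm31 (p :: l) 1 1 - p.2.2 * pm31 l 1 1 := by
  rw [pm31_cons]
  refine ⟨?_, ?_, ?_, ?_⟩
  · simp [lm31, Matrix.mul_apply, Fin.sum_univ_two]
  · simp [lm31, Matrix.mul_apply, Fin.sum_univ_two]
    ring
  · simp [lm31, Matrix.mul_apply, Fin.sum_univ_two]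
  · simp [lm31, Matrix.mul_apply, Fin.sum_univ_two]
    ring

/-- the lower left entry is the continuant -/
theorem pm31_one_zero (l : List (K × K × K)) : pm31 l 1 0 = g31 l := by
  have key : ∀ (l : List (K × K × K)) (p : K × K × K),
      pm31 l 1 0 = g31 l ∧ pm31 (p :: l) 1 0 = g31 (p :: l) := by
    intro l
    induction l with
    | nil =>
      intro p
      exact ⟨by simp [pm31, g31], by simp [pm31, lm31, g31]⟩
    | cons q l ih =>
      intro p
      obtain ⟨h1, h2⟩ := ih q
      refine ⟨h2, ?_⟩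
      rw [(cons_entries31 p (q :: l)).1, (cons_entries31 q l).2.1, h1, h2, g31]
      ring
  exact (key l (0, 0, 0)).1

/-- the upper left entry -/
theorem pm31_zero_zero (p : K × K × K) (l : List (K × K × K)) :
    pm31 (p :: l) 0 0 = p.1 * g31 (p :: l) - p.2.2 * g31 l := by
  rw [(cons_entries31 p l).2.1, pm31_one_zero, pm31_one_zero]

/-- the mirror image of a product -/
theorem pm31_mirror (l : List (K × K × K)) :
    pm31 (l.reverse.map sw31) = !![pm31 l 1 1, pm31 l 0 1; pm31 l 1 0, pm31 l 0 0] := by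
  induction l with
  | nil => ext i j; fin_cases i <;> fin_cases j <;> simp [pm31]
  | cons p l ih =>
    rw [List.reverse_cons, List.map_append, pm31_append, ih, List.map_cons, List.map_nil,
      pm31_cons, pm31_nil, mul_one, pm31_cons]
    ext i j
    fin_cases i <;> fin_cases j <;>
      simp [lm31, sw31, Matrix.mul_apply, Fin.sum_univ_two] <;> ring

theorem g31_mirror (l : List (K × K × K)) : g31 (l.reverse.map sw31) = g31 l := by
  rw [← pm31_one_zero, pm31_mirror, ← pm31_one_zero]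
  simp

/-- the lower right entry -/
theorem pm31_one_one (l : List (K × K × K)) (p : K × K × K) :
    pm31 (l ++ [p]) 1 1 = p.2.1 * g31 (l ++ [p]) - p.2.2 * g31 l := by
  have h1 := pm31_mirror (l ++ [p])
  rw [List.reverse_append, List.reverse_singleton, List.singleton_append, List.map_cons] at h1
  have h2 := pm31_zero_zero (sw31 p) (l.reverse.map sw31)
  rw [h1] at h2
  have h3 : g31 (sw31 p :: l.reverse.map sw31) = g31 (l ++ [p]) := by
    rw [← g31_mirror (l ++ [p]), List.reverse_append, List.reverse_singleton,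
      List.singleton_append, List.map_cons]
  rw [h3, g31_mirror] at h2
  simpa [sw31] using h2

end algebra

section valued

open HahnSeries

variable {F : Type*} [Field F]

/-- neighbours have sums of order zero -/
def Nb31 (p q : HahnSeries ℝ F × HahnSeries ℝ F × HahnSeries ℝ F) : Prop := Un57 (p.2.1 + q.1)

/-- integral entries, determinants of order at least `c` -/
structure Li31 (c : ℝ) (l : List (HahnSeries ℝ F × HahnSeries ℝ F × HahnSeries ℝ F)) : Prop where
  nb : l.IsChain Nb31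
  bA : ∀ p ∈ l, Big57 0 p.1
  bD : ∀ p ∈ l, Big57 0 p.2.1
  be : ∀ p ∈ l, Big57 c p.2.2

variable {c : ℝ} {l : List (HahnSeries ℝ F × HahnSeries ℝ F × HahnSeries ℝ F)}
  {p q : HahnSeries ℝ F × HahnSeries ℝ F × HahnSeries ℝ F}

theorem Li31.tail (h : Li31 c (p :: l)) : Li31 c l where
  nb := by
    have := h.nb.tail
    simpa using this
  bA x hx := h.bA x (List.mem_cons_of_mem _ hx)
  bD x hx := h.bD x (List.mem_cons_of_mem _ hx)
  be x hx := h.be x (List.mem_cons_of_mem _ hx)

theorem Li31.mirror (h : Li31 c l) : Li31 c (l.reverse.map sw31) where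
  nb := by
    rw [List.isChain_map, List.isChain_reverse]
    refine h.nb.imp fun a b hab => ?_
    show Un57 (b.1 + a.2.1)
    rw [add_comm]
    exact hab
  bA x hx := by
    obtain ⟨y, hy, rfl⟩ := List.mem_map.1 hx
    exact h.bD y (List.mem_reverse.1 hy)
  bD x hx := by
    obtain ⟨y, hy, rfl⟩ := List.mem_map.1 hx
    exact h.bA y (List.mem_reverse.1 hy)
  be x hx := by
    obtain ⟨y, hy, rfl⟩ := List.mem_map.1 hx
    exact h.be y (List.mem_reverse.1 hy)

/-- the continuant of a non-empty list is a unit; the product of the neighbour sums is a unit -/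
theorem un_g31 (hc : 0 < c) : ∀ (l : List (HahnSeries ℝ F × HahnSeries ℝ F × HahnSeries ℝ F))
    (p : HahnSeries ℝ F × HahnSeries ℝ F × HahnSeries ℝ F), Li31 c (p :: l) →
    Un57 (g31 (p :: l)) ∧ Big57 0 (g31 l) ∧ Un57 (kp31 (p :: l)) ∧
      Cg57 c (g31 (p :: l)) (kp31 (p :: l)) := by
  have un1 : Un57 (1 : HahnSeries ℝ F) := by
    rw [← C_one]
    exact un57_C one_ne_zero
  intro l
  induction l with
  | nil =>
    intro p _
    exact ⟨un1, by simp [g31, Big57], un1, Cg57.refl _ _⟩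
  | cons q l ih =>
    intro p h
    obtain ⟨h1, h2, h3, h4⟩ := ih q h.tail
    have hk : Un57 (p.2.1 + q.1) := (List.isChain_cons_cons.1 h.nb).1
    have he : Big57 c q.2.2 := h.be q (by simp)
    have hs : Big57 c (q.2.2 * g31 l) := by
      have := he.mul h2
      rwa [add_zero] at this
    have e1 : Cg57 c (g31 (p :: q :: l)) ((p.2.1 + q.1) * g31 (q :: l)) := by
      rw [g31, cg57_iff_big]
      have e2 : (p.2.1 + q.1) * g31 (q :: l) - q.2.2 * g31 l - (p.2.1 + q.1) * g31 (q :: l) =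
          -(q.2.2 * g31 l) := by ring
      rw [e2]
      exact hs.neg
    have u1 : Un57 (g31 (p :: q :: l)) := (hk.mul h1).congr hc e1
    refine ⟨u1, h1.big, ?_, e1.trans ?_⟩
    · rw [kp31]
      exact hk.mul h3
    · rw [kp31]
      have := h4.mul_left (s := 0) hk.big
      rwa [add_zero] at this

theorem Li31.un (h : Li31 c l) (hc : 0 < c) (hl : l ≠ []) : Un57 (g31 l) := by
  obtain ⟨p, l', rfl⟩ := List.exists_cons_of_ne_nil hl
  exact (un_g31 hc l' p h).1

theorem Li31.big (h : Li31 c l) (hc : 0 < c) : Big57 0 (g31 l) := by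
  rcases eq_or_ne l [] with rfl | hl
  · simp [g31, Big57]
  · exact (h.un hc hl).big

theorem Li31.cg (h : Li31 c l) (hc : 0 < c) (hl : l ≠ []) : Cg57 c (g31 l) (kp31 l) := by
  obtain ⟨p, l', rfl⟩ := List.exists_cons_of_ne_nil hl
  exact (un_g31 hc l' p h).2.2.2

/-- the quotient of the first column -/
theorem Li31.al (h : Li31 c (p :: l)) (hc : 0 < c) :
    pm31 (p :: l) 0 0 / pm31 (p :: l) 1 0 - p.1 = -(p.2.2 * g31 l / g31 (p :: l)) ∧
      Big57 c (pm31 (p :: l) 0 0 / pm31 (p :: l) 1 0 - p.1) := by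
  have h1 : pm31 (p :: l) 0 0 / pm31 (p :: l) 1 0 - p.1 = -(p.2.2 * g31 l / g31 (p :: l)) := by
    rw [pm31_zero_zero, pm31_one_zero]
    have := (h.un hc (List.cons_ne_nil _ _)).ne_zero
    field_simp
    ring
  refine ⟨h1, ?_⟩
  rw [h1]
  refine Big57.neg ?_
  rw [div_eq_mul_inv]
  have := ((h.be p (by simp)).mul (h.tail.big hc)).mul (h.un hc (List.cons_ne_nil _ _)).inv.big
  rwa [add_zero, add_zero] at this

/-- the quotient of the last row -/
theorem Li31.de (h : Li31 c (l ++ [p])) (hc : 0 < c) :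
    pm31 (l ++ [p]) 1 1 / pm31 (l ++ [p]) 1 0 - p.2.1 = -(p.2.2 * g31 l / g31 (l ++ [p])) ∧
      Big57 c (pm31 (l ++ [p]) 1 1 / pm31 (l ++ [p]) 1 0 - p.2.1) := by
  have hne : l ++ [p] ≠ [] := by simp
  have h1 : pm31 (l ++ [p]) 1 1 / pm31 (l ++ [p]) 1 0 - p.2.1 =
      -(p.2.2 * g31 l / g31 (l ++ [p])) := by
    rw [pm31_one_one, pm31_one_zero]
    have := (h.un hc hne).ne_zero
    field_simp
    ring
  refine ⟨h1, ?_⟩
  rw [h1]
  refine Big57.neg ?_
  rw [div_eq_mul_inv]
  have hl : Li31 c l := by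
    refine ⟨h.nb.left_of_append, fun x hx => h.bA x (by simp [hx]),
      fun x hx => h.bD x (by simp [hx]), fun x hx => h.be x (by simp [hx])⟩
  have := ((h.be p (by simp)).mul (hl.big hc)).mul (h.un hc hne).inv.big
  rwa [add_zero, add_zero] at this

/-- two lists which agree modulo `t ^ r` -/
def Rel31 (c r : ℝ) (p p' : HahnSeries ℝ F × HahnSeries ℝ F × HahnSeries ℝ F) : Prop :=
  Cg57 r p.1 p'.1 ∧ Cg57 r p.2.1 p'.2.1 ∧ Cg57 (r + c) p.2.2 p'.2.2

theorem cg_mul31 {r : ℝ} {e e' X X' : HahnSeries ℝ F} (he : Cg57 (r + c) e e')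
    (hX : Cg57 r X X') (bX : Big57 0 X) (be : Big57 c e') : Cg57 (r + c) (e * X) (e' * X') := by
  rw [cg57_iff_big] at *
  have h1 := he.mul bX
  have h2 := be.mul hX
  rw [add_zero] at h1
  rw [add_comm c r] at h2
  have e1 : e * X - e' * X' = (e - e') * X + e' * (X - X') := by ring
  rw [e1]
  exact h1.add h2

theorem g31_lip (hc : 0 < c) {r : ℝ} :
    ∀ (l l' : List (HahnSeries ℝ F × HahnSeries ℝ F × HahnSeries ℝ F))
    (p p' : HahnSeries ℝ F × HahnSeries ℝ F × HahnSeries ℝ F), Li31 c (p :: l) →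
    Li31 c (p' :: l') → Rel31 c r p p' → List.Forall₂ (Rel31 c r) l l' →
    Cg57 r (g31 (p :: l)) (g31 (p' :: l')) ∧ Cg57 r (g31 l) (g31 l') := by
  intro l
  induction l with
  | nil =>
    intro l' p p' _ _ _ h
    obtain rfl := List.forall₂_nil_left_iff.1 h
    exact ⟨Cg57.refl _ _, Cg57.refl _ _⟩
  | cons q l ih =>
    intro l1 p p' h h' hp hl
    obtain ⟨q', l', hq, hl', rfl⟩ := List.forall₂_cons_left_iff.1 hl
    obtain ⟨h1, h2⟩ := ih l' q q' h.tail h'.tail hq hl'
    refine ⟨?_, h1⟩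
    have hk' : Un57 (p'.2.1 + q'.1) := (List.isChain_cons_cons.1 h'.nb).1
    have b1 : Big57 0 (g31 (q :: l)) := h.tail.big hc
    have b2 : Big57 0 (g31 l) := h.tail.tail.big hc
    rw [g31, g31]
    refine ((hp.2.1.add hq.1).mul h1 b1 hk'.big).sub ?_
    exact (cg_mul31 hq.2.2 h2 b2 (h'.be q' (by simp))).mono (by linarith)

theorem Li31.lip {r : ℝ} {l' : List (HahnSeries ℝ F × HahnSeries ℝ F × HahnSeries ℝ F)}
    (h : Li31 c l) (h' : Li31 c l') (hc : 0 < c) (hl : List.Forall₂ (Rel31 c r) l l') :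
    Cg57 r (g31 l) (g31 l') := by
  cases hl with
  | nil => exact Cg57.refl _ _
  | cons hp hl => exact (g31_lip hc _ _ _ _ h h' hp hl).1

/-- the Lipschitz property of the quotient of the first column -/
theorem Li31.al_lip {r : ℝ} {l' : List (HahnSeries ℝ F × HahnSeries ℝ F × HahnSeries ℝ F)}
    {p' : HahnSeries ℝ F × HahnSeries ℝ F × HahnSeries ℝ F}
    (h : Li31 c (p :: l)) (h' : Li31 c (p' :: l')) (hc : 0 < c) (hp : Rel31 c r p p')
    (hl : List.Forall₂ (Rel31 c r) l l') :
    Cg57 (r + c) (pm31 (p :: l) 0 0 / pm31 (p :: l) 1 0 - p.1)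
      (pm31 (p' :: l') 0 0 / pm31 (p' :: l') 1 0 - p'.1) := by
  obtain ⟨h1, h2⟩ := g31_lip hc _ _ _ _ h h' hp hl
  rw [(h.al hc).1, (h'.al hc).1]
  refine Cg57.neg ?_
  rw [div_eq_mul_inv, div_eq_mul_inv, mul_assoc, mul_assoc]
  have u1 := h.un hc (List.cons_ne_nil _ _)
  have u2 := h'.un hc (List.cons_ne_nil _ _)
  refine cg_mul31 hp.2.2 (h2.mul (h1.inv u1 u2) u1.inv.big (h'.tail.big hc)) ?_ (h'.be p' (by simp))
  have := (h.tail.big hc).mul u1.inv.big
  rwa [add_zero] at this

/-- the Lipschitz property of the quotient of the last row -/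
theorem Li31.de_lip {r : ℝ} {l' : List (HahnSeries ℝ F × HahnSeries ℝ F × HahnSeries ℝ F)}
    {p' : HahnSeries ℝ F × HahnSeries ℝ F × HahnSeries ℝ F}
    (h : Li31 c (l ++ [p])) (h' : Li31 c (l' ++ [p'])) (hc : 0 < c) (hp : Rel31 c r p p')
    (hl : List.Forall₂ (Rel31 c r) l l') :
    Cg57 (r + c) (pm31 (l ++ [p]) 1 1 / pm31 (l ++ [p]) 1 0 - p.2.1)
      (pm31 (l' ++ [p']) 1 1 / pm31 (l' ++ [p']) 1 0 - p'.2.1) := by
  have key : ∀ (l : List (HahnSeries ℝ F × HahnSeries ℝ F × HahnSeries ℝ F))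
      (p : HahnSeries ℝ F × HahnSeries ℝ F × HahnSeries ℝ F),
      (l ++ [p]).reverse.map sw31 = sw31 p :: l.reverse.map sw31 ∧
      pm31 (l ++ [p]) 1 1 / pm31 (l ++ [p]) 1 0 - p.2.1 =
        pm31 (sw31 p :: l.reverse.map sw31) 0 0 / pm31 (sw31 p :: l.reverse.map sw31) 1 0 -
          (sw31 p).1 := by
    intro l p
    have e1 : (l ++ [p]).reverse.map sw31 = sw31 p :: l.reverse.map sw31 := by
      rw [List.reverse_append, List.reverse_singleton, List.singleton_append, List.map_cons]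
    refine ⟨e1, ?_⟩
    have e2 := pm31_mirror (l ++ [p])
    rw [e1] at e2
    rw [e2]
    simp [sw31]
  have m := h.mirror
  have m' := h'.mirror
  rw [(key l p).1] at m
  rw [(key l' p').1] at m'
  rw [(key l p).2, (key l' p').2]
  refine m.al_lip m' hc ⟨hp.2.1, hp.1, hp.2.2⟩ ?_
  rw [List.forall₂_map_left_iff, List.forall₂_map_right_iff]
  refine List.rel_reverse ?_
  exact hl.imp fun a b hab => ⟨hab.2.1, hab.1, hab.2.2⟩

/-- order and leading coefficient of the continuant, if the neighbour sums are constants plus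
something small -/
theorem Li31.lead (h : Li31 c l) (hc : 0 < c) (hl : l ≠ []) {a : F} (ha : Cg57 c (kp31 l) (C a)) :
    a ≠ 0 ∧ (g31 l).order = 0 ∧ (g31 l).leadingCoeff = a := by
  have u := h.un hc hl
  have h1 := cg57_iff.1 ((h.cg hc hl).trans ha) 0 hc
  have h2 : (C a : HahnSeries ℝ F).coeff 0 = a := by rw [C_apply, coeff_single_same]
  rw [h2] at h1
  have h3 : (g31 l).order = 0 := by
    have h4 := order_eq_orderTop_of_ne_zero u.ne_zero
    rw [u] at h4
    exact_mod_cast h4
  have h4 : (g31 l).leadingCoeff = a := by rw [leadingCoeff_eq, h3, h1]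
  refine ⟨?_, h3, h4⟩
  rintro rfl
  exact u.ne_zero (leadingCoeff_eq_zero.1 h4)

/-- `A` and `D` are constants plus something of order at least `c` -/
def Rc31 (c : ℝ) (p : HahnSeries ℝ F × HahnSeries ℝ F × HahnSeries ℝ F) (a : F × F) : Prop :=
  Cg57 c p.1 (C a.1) ∧ Cg57 c p.2.1 (C a.2)

/-- the product of the constant sums of neighbours -/
def kc31 : List (F × F) → F
  | [] => 1
  | [_] => 1
  | a :: b :: l => (a.2 + b.1) * kc31 (b :: l)

theorem Rc31.nb {a b : F × F} (h : Rc31 c p a) (h' : Rc31 c q b) (hc : 0 < c)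
    (hab : a.2 + b.1 ≠ 0) : Nb31 p q := by
  have h1 : Cg57 c (p.2.1 + q.1) (C (a.2 + b.1)) := by
    rw [map_add]
    exact h.2.add h'.1
  exact (un57_C hab).congr hc h1

theorem Rc31.big {a : F × F} (h : Rc31 c p a) (hc : 0 < c) : Big57 0 p.1 ∧ Big57 0 p.2.1 := by
  constructor
  · have h1 : Big57 0 (p.1 - C a.1) := Big57.mono h.1 hc.le
    have h2 := h1.add (big57_C a.1)
    rwa [sub_add_cancel] at h2
  · have h1 : Big57 0 (p.2.1 - C a.2) := Big57.mono h.2 hc.le
    have h2 := h1.add (big57_C a.2)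
    rwa [sub_add_cancel] at h2

/-- a list of letters near to constants whose neighbour sums are not zero is admissible -/
theorem li_of_const31 (hc : 0 < c) :
    ∀ (l : List (HahnSeries ℝ F × HahnSeries ℝ F × HahnSeries ℝ F)) (l0 : List (F × F)),
    List.Forall₂ (Rc31 c) l l0 → l0.IsChain (fun a b => a.2 + b.1 ≠ 0) →
    (∀ p ∈ l, Big57 c p.2.2) → Li31 c l ∧ Cg57 c (kp31 l) (C (kc31 l0)) := by
  intro l
  induction l with
  | nil =>
    intro l0 h _ _
    obtain rfl := List.forall₂_nil_left_iff.1 h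
    refine ⟨⟨List.isChain_nil, by simp, by simp, by simp⟩, ?_⟩
    rw [kp31, kc31, map_one]
    exact Cg57.refl _ _
  | cons p l ih =>
    intro l0 h hn he
    obtain ⟨a, l1, hp, hl, rfl⟩ := List.forall₂_cons_left_iff.1 h
    have hn' : l1.IsChain (fun a b => a.2 + b.1 ≠ 0) := by
      have := hn.tail
      simpa using this
    obtain ⟨i1, i2⟩ := ih l1 hl hn' fun x hx => he x (List.mem_cons_of_mem _ hx)
    have hb := hp.big hc
    cases hl with
    | nil =>
      refine ⟨⟨List.isChain_singleton _, ?_, ?_, he⟩, ?_⟩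
      · intro x hx
        rw [List.mem_singleton.1 hx]
        exact hb.1
      · intro x hx
        rw [List.mem_singleton.1 hx]
        exact hb.2
      · rw [kp31, kc31, map_one]
        exact Cg57.refl _ _
    | @cons q b l l2 hq hl =>
      obtain ⟨n1, -⟩ := List.isChain_cons_cons.1 hn
      refine ⟨⟨List.isChain_cons_cons.2 ⟨hp.nb hq hc n1, i1.nb⟩, ?_, ?_, he⟩, ?_⟩
      · intro x hx
        rcases List.mem_cons.1 hx with rfl | hx
        · exact hb.1
        · exact i1.bA x hx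
      · intro x hx
        rcases List.mem_cons.1 hx with rfl | hx
        · exact hb.2
        · exact i1.bD x hx
      · rw [kp31, kc31, map_mul]
        have h1 : Cg57 c (p.2.1 + q.1) (C (a.2 + b.1)) := by
          rw [map_add]
          exact hp.2.add hq.1
        have h2 : Big57 0 (kp31 (q :: l)) := by
          have h3 : Big57 0 (kp31 (q :: l) - C (kc31 (b :: l2))) := Big57.mono i2 hc.le
          have h4 := h3.add (big57_C (kc31 (b :: l2)))
          rwa [sub_add_cancel] at h4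
        exact h1.mul i2 h2 (big57_C _)

end valued

end Pool.Agent.Lib.MP_e3aa0a_gt.FVL
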