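import Pool.Agent.Lib.MP_e3aa0a_gt.FVL.Cont31

/-!
# FVR, module Cont31b: the Lipschitz properties of the continuants, in the form of maps
-/

set_option autoImplicit false

namespace Pool.Agent.Lib.MP_e3aa0a_gt.FVL

open HahnSeries

variable {F : Type*} [Field F] {ι : Type*}

variable {c r : ℝ} {W : List ι} {x : ι} {f f' : ι → HahnSeries ℝ F × HahnSeries ℝ F × HahnSeries ℝ F}

/-- admissibility of a list of letters, in the form of a map -/
theorem li_map31 (h1 : W.IsChain fun x y => Un57 ((f x).2.1 + (f y).1))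
    (h2 : ∀ x ∈ W, Big57 0 (f x).1) (h3 : ∀ x ∈ W, Big57 0 (f x).2.1)
    (h4 : ∀ x ∈ W, Big57 c (f x).2.2) : Li31 c (W.map f) where
  nb := by
    rw [List.isChain_map]
    exact h1
  bA p hp := by
    obtain ⟨y, hy, rfl⟩ := List.mem_map.1 hp
    exact h2 y hy
  bD p hp := by
    obtain ⟨y, hy, rfl⟩ := List.mem_map.1 hp
    exact h3 y hy
  be p hp := by
    obtain ⟨y, hy, rfl⟩ := List.mem_map.1 hp
    exact h4 y hy

theorem forall₂_map31 {R : HahnSeries ℝ F × HahnSeries ℝ F × HahnSeries ℝ F →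
    HahnSeries ℝ F × HahnSeries ℝ F × HahnSeries ℝ F → Prop} (h : ∀ x ∈ W, R (f x) (f' x)) :
    List.Forall₂ R (W.map f) (W.map f') := by
  induction W with
  | nil => exact List.Forall₂.nil
  | cons x W ih =>
    rw [List.map_cons, List.map_cons]
    exact List.Forall₂.cons (h x (by simp)) (ih fun y hy => h y (by simp [hy]))

/-- the continuants agree modulo `t ^ r` if the letters do (no gain is needed for `e`) -/
theorem g31_map_lip (hc : 0 < c) (h : Li31 c (W.map f)) (h' : Li31 c (W.map f'))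
    (hA : ∀ x ∈ W, Cg57 r (f x).1 (f' x).1) (hD : ∀ x ∈ W, Cg57 r (f x).2.1 (f' x).2.1)
    (he : ∀ x ∈ W, Cg57 r (f x).2.2 (f' x).2.2) :
    Cg57 r (g31 (W.map f)) (g31 (W.map f')) := by
  have key : ∀ (W : List ι) (x : ι), Li31 c ((x :: W).map f) → Li31 c ((x :: W).map f') →
      (∀ y ∈ x :: W, Cg57 r (f y).1 (f' y).1) → (∀ y ∈ x :: W, Cg57 r (f y).2.1 (f' y).2.1) →
      (∀ y ∈ x :: W, Cg57 r (f y).2.2 (f' y).2.2) →
      Cg57 r (g31 (W.map f)) (g31 (W.map f')) ∧
        Cg57 r (g31 ((x :: W).map f)) (g31 ((x :: W).map f')) := by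
    intro W
    induction W with
    | nil =>
      intro x _ _ _ _ _
      exact ⟨Cg57.refl _ _, Cg57.refl _ _⟩
    | cons y W ih =>
      intro x h h' hA hD he
      rw [List.map_cons] at h h'
      obtain ⟨h1, h2⟩ := ih y h.tail h'.tail (fun z hz => hA z (by simp [hz]))
        (fun z hz => hD z (by simp [hz])) (fun z hz => he z (by simp [hz]))
      refine ⟨h2, ?_⟩
      have hk' : Un57 ((f' x).2.1 + (f' y).1) := (List.isChain_cons_cons.1 h'.nb).1
      have b1 : Big57 0 (g31 ((y :: W).map f)) := h.tail.big hc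
      have t1 : Li31 c (W.map f) := by
        have := h.tail
        rw [List.map_cons] at this
        exact this.tail
      have b2 : Big57 0 (g31 (W.map f)) := t1.big hc
      have be' : Big57 0 (f' y).2.2 := (h'.be (f' y) (by simp)).mono hc.le
      have e1 : ∀ f : ι → HahnSeries ℝ F × HahnSeries ℝ F × HahnSeries ℝ F,
          g31 ((x :: y :: W).map f) = ((f x).2.1 + (f y).1) * g31 ((y :: W).map f) -
            (f y).2.2 * g31 (W.map f) := fun f => rfl
      rw [e1, e1]
      refine (((hD x (by simp)).add (hA y (by simp))).mul h2 b1 hk'.big).sub ?_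
      exact (he y (by simp)).mul h1 b2 be'
  cases W with
  | nil => exact Cg57.refl _ _
  | cons x W => exact (key W x h h' hA hD he).2

theorem Li31.left (h : Li31 c (W.map f ++ [f x])) : Li31 c (W.map f) :=
  ⟨h.nb.left_of_append, fun y hy => h.bA y (by simp [hy]),
    fun y hy => h.bD y (by simp [hy]), fun y hy => h.be y (by simp [hy])⟩

/-- the quotient of the first column: a gain of `c` -/
theorem al_map_lip31 (hc : 0 < c) (h : Li31 c ((x :: W).map f)) (h' : Li31 c ((x :: W).map f'))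
    (hA : ∀ y ∈ x :: W, Cg57 r (f y).1 (f' y).1) (hD : ∀ y ∈ x :: W, Cg57 r (f y).2.1 (f' y).2.1)
    (he : ∀ y ∈ x :: W, Cg57 (r + c) (f y).2.2 (f' y).2.2) :
    Cg57 (r + c) (pm31 ((x :: W).map f) 0 0 / pm31 ((x :: W).map f) 1 0 - (f x).1)
      (pm31 ((x :: W).map f') 0 0 / pm31 ((x :: W).map f') 1 0 - (f' x).1) := by
  refine Li31.al_lip h h' hc ⟨hA x (by simp), hD x (by simp), he x (by simp)⟩ ?_
  exact forall₂_map31 fun y hy => ⟨hA y (by simp [hy]), hD y (by simp [hy]), he y (by simp [hy])⟩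

/-- the quotient of the last row: a gain of `c` -/
theorem de_map_lip31 (hc : 0 < c) (h : Li31 c ((W ++ [x]).map f)) (h' : Li31 c ((W ++ [x]).map f'))
    (hA : ∀ y ∈ W ++ [x], Cg57 r (f y).1 (f' y).1)
    (hD : ∀ y ∈ W ++ [x], Cg57 r (f y).2.1 (f' y).2.1)
    (he : ∀ y ∈ W ++ [x], Cg57 (r + c) (f y).2.2 (f' y).2.2) :
    Cg57 (r + c) (pm31 ((W ++ [x]).map f) 1 1 / pm31 ((W ++ [x]).map f) 1 0 - (f x).2.1)
      (pm31 ((W ++ [x]).map f') 1 1 / pm31 ((W ++ [x]).map f') 1 0 - (f' x).2.1) := by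
  rw [List.map_append, List.map_append] at *
  refine Li31.de_lip h h' hc ⟨hA x (by simp), hD x (by simp), he x (by simp)⟩ ?_
  exact forall₂_map31 fun y hy => ⟨hA y (by simp [hy]), hD y (by simp [hy]), he y (by simp [hy])⟩

end Pool.Agent.Lib.MP_e3aa0a_gt.FVL
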