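import Pool.Agent.Lib.FVol.Fek
import Pool.Agent.Lib.FVol.Cycle
import Pool.Agent.Lib.MP_e3aa0a_gt.FVL.Asm83

/-!
# FVL29: the lower bound with the stretch factor of the coding

Definitions and the statements of the modules. `Γ = GL₂(K)`, `K` = Hahn series with real exponents
over `ℚ(s)`.
-/

set_option autoImplicit false

namespace Pool.Agent.Lib.MP_e3aa0a_gt.FVL

open Pool.Agent.Lib.FVol

/-- the field: Hahn series with real exponents over the rational functions -/
abbrev K29 : Type := HahnSeries ℝ (RatFunc ℚ)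

/-- the big group -/
abbrev G29 : Type := Matrix.GeneralLinearGroup (Fin 2) K29

/-- determinant of the first columns -/
noncomputable def dd (a b : G29) : K29 := a.1 0 0 * b.1 1 0 - a.1 1 0 * b.1 0 0

/-- determinant -/
noncomputable def dt (a : G29) : K29 := a.1.det

/-- the vectors `a e₁`, `b e₁` are independent and have distance `r` -/
def NV (a b : G29) (r : ℝ) : Prop :=
  dd a b ≠ 0 ∧ ((dt a).order + (dt b).order) / 2 - (dd a b).order = r

/-- distance `r` and infinitesimal part `s` -/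
def NV2 (a b : G29) (r : ℝ) (s : ℤ) : Prop :=
  NV a b r ∧ 2 * (dd a b).leadingCoeff.intDegree - (dt a).leadingCoeff.intDegree -
    (dt b).leadingCoeff.intDegree = 2 * s

/-- length of a word -/
def wlen {A R : Type*} [AddMonoid R] (l : A → R) (W : List (A × Bool)) : R :=
  (W.map fun x => l x.1).sum

/-- the 2-form `∑_{i<j} (λ_i ℓ_j - ℓ_i λ_j)` of a row -/
noncomputable def wom {A : Type*} (lam : A → ℝ) (l : A → ℤ) : List (A × Bool) → ℝ
  | [] => 0
  | x :: W => lam x.1 * (wlen l W : ℤ) - l x.1 * wlen lam W + wom lam l W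

section dat

variable {A V G : Type}

/-- `G` with the labels is the fundamental group of the closed surface (the polygon with its sides
identified): every family of group elements with top product = bottom product comes from a
homomorphism, up to a change of base paths. -/
def IsPi1 [Group G] (d : Dat A V G) : Prop :=
  ∀ (H : Type) [Group H] (f : A → H), wpr f (d.row true) = wpr f (d.row false) →
    ∃ (ρ : G →* H) (c : V → H), ∀ a, f a = (c (d.src a))⁻¹ * ρ (d.lab a) * c (d.tgt a)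

/-- the data with labels `c⁻¹ ρ(lab) c` in another group -/
def mapg {H : Type} [Group G] [Group H] (ρ : G →* H) (c : V → H) (d : Dat A V G) :
    Dat A V H where
  row := d.row
  lam := d.lam
  src := d.src
  tgt := d.tgt
  lab a := (c (d.src a))⁻¹ * ρ (d.lab a) * c (d.tgt a)

/-- both rows have the same length -/
def Bal (d : Dat A V G) : Prop := wlen d.lam (d.row true) = wlen d.lam (d.row false)

/-- no interior vertex of the top row lies over an interior vertex of the bottom row -/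
def NoTie (d : Dat A V G) : Prop :=
  ∀ P P', P <+: d.row true → P' <+: d.row false → P ≠ [] → P' ≠ [] → P ≠ d.row true →
    P' ≠ d.row false → wlen d.lam P ≠ wlen d.lam P'

/-- a tie at height `h` -/
def Tie (d : Dat A V G) (h : ℝ) : Prop :=
  ∃ P P', P <+: d.row true ∧ P' <+: d.row false ∧ P ≠ [] ∧ P' ≠ [] ∧ P ≠ d.row true ∧
    P' ≠ d.row false ∧ wlen d.lam P = h ∧ wlen d.lam P' = h

/-- the rows are `f ... f⁻¹` and `g ... g⁻¹` (a vertex without prongs) -/
def ZeroProng (d : Dat A V G) : Prop :=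
  ∃ (f g : A × Bool) (T B : List (A × Bool)), d.row true = f :: T ++ [sinv f] ∧
    d.row false = g :: B ++ [sinv g]

/-- an admissible numbering of the half edges: both ends of the polygon count as angle zero, all
other corners are positive angles -/
def Prong (d : Dat A V G) (α : A × Bool → ℤ) : Prop :=
  (∀ (σ : Bool) (x y : A × Bool) (P S : List (A × Bool)), d.row σ = P ++ x :: y :: S →
      α y ≠ α (sinv x)) ∧
  (∀ (x y : A × Bool) (P S : List (A × Bool)), d.row true = x :: P → d.row false = y :: S →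
      α x = α y) ∧
  (∀ (x y : A × Bool) (P S : List (A × Bool)), d.row true = P ++ [x] →
      d.row false = S ++ [y] → α (sinv x) = α (sinv y))

/-- the half edges `x`, `y` bound an interior corner of the polygon (a prong) -/
def Cor (d : Dat A V G) (x y : A × Bool) : Prop :=
  ∃ (σ : Bool) (P S : List (A × Bool)), d.row σ = P ++ sinv x :: y :: S

/-- the half edges `x`, `y` bound one of the two end corners of the polygon (angle zero) -/
def EndCor (d : Dat A V G) (x y : A × Bool) : Prop :=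
  (∃ P S, d.row true = x :: P ∧ d.row false = y :: S) ∨
    ∃ P S, d.row true = P ++ [sinv x] ∧ d.row false = S ++ [sinv y]

/-- no vertex of the surface has exactly one prong: the two half edges of an interior corner are
never joined by end corners only -/
def NoOneProng (d : Dat A V G) : Prop :=
  ∀ x y, Cor d x y → ¬ Relation.EqvGen (EndCor d) x y

/-- **property (*)** for labels in `GL₂(K)`: distances of the vertices are differences of heights -/
def Star [DecidableEq A] (D : Dat A V G29) : Prop :=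
  ∀ σ σ' P P', P <+: D.row σ → P' <+: D.row σ' → wlen D.lam P < wlen D.lam P' →
    NV (wpr D.lab P) (wpr D.lab P') (wlen D.lam P' - wlen D.lam P)

/-- property (*) with the second component -/
def Star2 (D : Dat A V G29) (l : A → ℤ) : Prop :=
  ∀ σ σ' P P', P <+: D.row σ → P' <+: D.row σ' → wlen D.lam P < wlen D.lam P' →
    NV2 (wpr D.lab P) (wpr D.lab P') (wlen D.lam P' - wlen D.lam P) (wlen l P' - wlen l P)

end dat

/-! ## Modules -/

/-- VAL: a tropical label function on all of `GL₂(K)`; `l0`, `l1` are the two components. -/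
def StVal : Prop :=
  ∃ (M : Type) (_ : AddCommGroup M) (L : G29 → M) (l0 l1 : M →+ ℝ),
    (∀ g, L g⁻¹ = L g) ∧ L 1 = 0 ∧ (∀ a b c, Four L a b c) ∧
    (∀ (g : G29) (r : ℝ), NV 1 g r → l0 (L g) = r) ∧
    (∀ (g : G29) (r : ℝ) (s : ℤ), NV2 1 g r s → l1 (L g) = s)

/-- PLK: basic rules and the Plücker step. -/
def StPlk : Prop :=
  (∀ g a b r s, NV2 a b r s → NV2 (g * a) (g * b) r s) ∧
  (∀ a b r s, NV2 a b r s → NV2 b a r s) ∧
  (∀ g a b r, NV a b r → NV (g * a) (g * b) r) ∧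
  (∀ a b r, NV a b r → NV b a r) ∧
  (∀ (a b c d : G29) (r1 r2 r3 r4 r5 : ℝ), NV a b r1 → NV c d r2 → NV a c r3 → NV b d r4 →
    NV a d r5 → r3 + r4 < r1 + r2 → NV b c (r1 + r2 - r5)) ∧
  (∀ (a b c d : G29) (r1 r2 r3 r4 r5 : ℝ), NV a b r1 → NV c d r2 → NV a c r3 → NV b d r4 →
    NV a d r5 → r1 + r2 < r3 + r4 → NV b c (r3 + r4 - r5)) ∧
  (∀ (a b c d : G29) (r1 r2 r3 r4 r5 : ℝ) (s1 s2 s3 s4 s5 : ℤ), NV2 a b r1 s1 → NV2 c d r2 s2 →
    NV2 a c r3 s3 → NV2 b d r4 s4 → NV2 a d r5 s5 → r3 + r4 < r1 + r2 →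
      NV2 b c (r1 + r2 - r5) (s1 + s2 - s5)) ∧
  (∀ (a b c d : G29) (r1 r2 r3 r4 r5 : ℝ) (s1 s2 s3 s4 s5 : ℤ), NV2 a b r1 s1 → NV2 c d r2 s2 →
    NV2 a c r3 s3 → NV2 b d r4 s4 → NV2 a d r5 s5 → r1 + r2 < r3 + r4 →
      NV2 b c (r3 + r4 - r5) (s3 + s4 - s5))

/-- FIX: a contraction of a ball of `K³` has a fixed point. -/
def StFix : Prop :=
  ∀ (δ : ℝ), 0 < δ → ∀ (y0 : Fin 3 → K29) (Φ : (Fin 3 → K29) → (Fin 3 → K29)),
    (∀ y, (∀ i, (δ : WithTop ℝ) ≤ (y i - y0 i).orderTop) →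
      ∀ i, (δ : WithTop ℝ) ≤ (Φ y i - y0 i).orderTop) →
    (∀ y y', (∀ i, (δ : WithTop ℝ) ≤ (y i - y0 i).orderTop) →
      (∀ i, (δ : WithTop ℝ) ≤ (y' i - y0 i).orderTop) → ∀ γ : ℝ, 0 ≤ γ →
      (∀ i, (γ : WithTop ℝ) ≤ (y i - y' i).orderTop) →
      ∀ i, ((γ + δ : ℝ) : WithTop ℝ) ≤ (Φ y i - Φ y' i).orderTop) →
    ∃ y, (∀ i, (δ : WithTop ℝ) ≤ (y i - y0 i).orderTop) ∧ Φ y = y

section rows

variable {A : Type}

/-- the matrix of a signed letter: `α x`, `-α x⁻¹` are the positions of the two ends -/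
noncomputable def Gm (α : A × Bool → K29) (ε : A → K29) (x : A × Bool) :
    Matrix (Fin 2) (Fin 2) K29 :=
  !![α x, -(α x * α (sinv x)) - ε x.1; 1, - α (sinv x)]

/-- product over a word -/
noncomputable def Pm (α : A × Bool → K29) (ε : A → K29) (W : List (A × Bool)) :
    Matrix (Fin 2) (Fin 2) K29 := (W.map (Gm α ε)).prod

/-- product of the corners -/
noncomputable def kpr (α : A × Bool → K29) : List (A × Bool) → K29
  | [] => 1
  | [_] => 1
  | x :: y :: W => (α y - α (sinv x)) * kpr α (y :: W)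

end rows

/-- ROW: formulas and estimates for the row products. -/
def StRow : Prop :=
  ∀ (A : Type) (δ : ℝ), 0 < δ →
  (∀ (α : A × Bool → K29) (ε : A → K29) (x : A × Bool) (W : List (A × Bool)),
    (Pm α ε (x :: W)) 0 0 = α x * (Pm α ε (x :: W)) 1 0 - ε x.1 * (Pm α ε W) 1 0) ∧
  (∀ (α : A × Bool → K29) (ε : A → K29) (x : A × Bool) (W : List (A × Bool)),
    (Pm α ε (W ++ [x])) 1 1 = - α (sinv x) * (Pm α ε (W ++ [x])) 1 0 -
      ε x.1 * (Pm α ε W) 1 0) ∧
  (∀ (α : A × Bool → K29) (ε : A → K29) (W : List (A × Bool)),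
    (Pm α ε W).det = (W.map fun x => ε x.1).prod) ∧
  (∀ (α : A × Bool → K29) (ε : A → K29), (∀ x, (0 : WithTop ℝ) ≤ (α x).orderTop) →
    (∀ a, (δ : WithTop ℝ) ≤ (ε a).orderTop) → ∀ W : List (A × Bool),
      (∀ i j, (0 : WithTop ℝ) ≤ (Pm α ε W i j).orderTop) ∧
      (W ≠ [] → (δ : WithTop ℝ) ≤ ((Pm α ε W) 1 0 - kpr α W).orderTop)) ∧
  (∀ (α α' : A × Bool → K29) (ε ε' : A → K29) (γ : ℝ), 0 ≤ γ →
    (∀ x, (0 : WithTop ℝ) ≤ (α x).orderTop) → (∀ x, (0 : WithTop ℝ) ≤ (α' x).orderTop) →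
    (∀ a, (δ : WithTop ℝ) ≤ (ε a).orderTop) → (∀ a, (δ : WithTop ℝ) ≤ (ε' a).orderTop) →
    (∀ x, (γ : WithTop ℝ) ≤ (α x - α' x).orderTop) →
    (∀ a, (γ : WithTop ℝ) ≤ (ε a - ε' a).orderTop) → ∀ (W : List (A × Bool)) (i j : Fin 2),
      (γ : WithTop ℝ) ≤ (Pm α ε W i j - Pm α' ε' W i j).orderTop)

/-- REP: existence of the representation for the initial polygon. -/
def StRep : Prop :=
  ∀ (A V G : Type) [Fintype A] [DecidableEq A] [Group G] (d : Dat A V G) (l : A → ℤ)
    (α0 : A × Bool → ℤ), Good d → Bal d → NoTie d → ¬ ZeroProng d → Prong d α0 →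
    (∀ a b, d.row true = [a] → d.row false = [b] → False) →
    wlen l (d.row true) = wlen l (d.row false) →
    ∃ f : A → G29, wpr f (d.row true) = wpr f (d.row false) ∧
      ∀ σ P W S, d.row σ = P ++ W ++ S → W ≠ [] →
        NV2 1 (wpr f W) (wlen d.lam W) (wlen l W)

/-- INI: property (*) for the initial polygon. -/
def StIni : Prop :=
  ∀ (A V : Type) [Fintype A] [DecidableEq A] (D : Dat A V G29) (l : A → ℤ), Good D → Bal D →
    NoTie D → wlen l (D.row true) = wlen l (D.row false) →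
    (∀ σ P W S, D.row σ = P ++ W ++ S → W ≠ [] →
        NV2 1 (wpr D.lab W) (wlen D.lam W) (wlen l W)) → Star2 D l

/-- STEP: property (*) is preserved by a Rauzy step without ties. -/
def StStep : Prop :=
  ∀ (A V : Type) [Fintype A] [DecidableEq A] (D D' : Dat A V G29), Good D → Bal D → NoTie D →
    NoTie D' → Rv D D' → Star D → Star D'

/-- TIE: balance, ties and zero prongs. -/
def StTie : Prop :=
  ∀ (A V G : Type) [Fintype A] [Nonempty A] [DecidableEq A] [Group G] (d : Dat A V G) (φ : G →* G)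
    (c : V → G) (μ : ℝ), Good d → 1 < μ → Relation.ReflTransGen Rv d (tw φ c μ d) →
    Bal d ∧ ¬ ZeroProng d ∧ (∀ a b, d.row true = [a] → d.row false = [b] → False) ∧
    ∀ d' : Dat A V G, Relation.ReflTransGen Rv d d' →
      (∀ k : ℕ, ∃ m, k ≤ m ∧ Relation.ReflTransGen Rv d' ((tw φ c μ)^[m] d)) →
      Bal d' ∧ NoTie d'

/-- MAPG: the path in the big group. -/
def StMapg : Prop :=
  ∀ (A V G H : Type) [Fintype A] [DecidableEq A] [Group G] [Group H] (ρ : G →* H) (c : V → H)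
    (d d' : Dat A V G), Good d → Relation.ReflTransGen Rv d d' →
    Good (mapg ρ c d) ∧ Relation.ReflTransGen Rv (mapg ρ c d) (mapg ρ c d')

/-- PATH: property (*) for all iterates (from STEP, TIE, MAPG). -/
def StPath : Prop :=
  ∀ (A V G : Type) [Fintype A] [Nonempty A] [DecidableEq A] [Group G] (d : Dat A V G) (φ : G →* G)
    (c : V → G) (μ : ℝ) (ρ : G →* G29) (c0 : V → G29), Good d → 1 < μ →
    Relation.ReflTransGen Rv d (tw φ c μ d) → Star (mapg ρ c0 d) →
    ∀ k : ℕ, Star (mapg ρ c0 ((tw φ c μ)^[k] d))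

/-- ELL: choice of the integer vector. -/
def StEll : Prop :=
  ∀ (A V G : Type) [Fintype A] [Nonempty A] [DecidableEq A] [Group G] (d : Dat A V G), Good d →
    Bal d → NoTie d → ¬ ZeroProng d → (∀ a b, d.row true = [a] → d.row false = [b] → False) →
    ∃ l : A → ℤ, wlen l (d.row true) = wlen l (d.row false) ∧
      wom d.lam l (d.row true) ≠ wom d.lam l (d.row false)

/-- GAU: the two cycles in the big group, connected by a filling of almost the same size. -/
def StGau : Prop :=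
  ∀ (A V G H : Type) [Fintype A] [DecidableEq A] [Group G] [Group H] (d : Dat A V G) (φ : G →* G)
    (c : V → G) (μ : ℝ) (ρ : G →* H) (c0 : V → H), Good d → 1 < μ → ∀ (k : ℕ) (b : C3 G),
    bd G b = push (hpow φ k) (cyc d) - cyc d →
    Fil ((nrm b : ℝ) + 32 * (Fintype.card A : ℝ))
      (cyc (mapg ρ c0 ((tw φ c μ)^[k] d)) - cyc (mapg ρ c0 d))

/-- LIN: Cramer-Hadamard for an integral functional. -/
def StLin : Prop :=
  ∀ (ι : Type) (N : ℕ) (q : Fin N → Fin 4 → ι) (S : Finset ι) (F : ι →₀ ℤ),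
    (∀ w : ι → ℝ, (∀ j, w (q j 0) + w (q j 1) = w (q j 2) + w (q j 3)) →
      (∀ e ∈ S, w e = 0) → F.sum (fun i z => (z : ℝ) * w i) = 0) →
    ∀ w : ι → ℝ, (∀ j, w (q j 0) + w (q j 1) = w (q j 2) + w (q j 3)) →
      |F.sum (fun i z => (z : ℝ) * w i)| ≤ (nrm F : ℝ) * √8 ^ N * ∑ e ∈ S, |w e|

/-- CORE: the inequality in the big group. `T` = the labels of the top polygon. -/
def StCore : Prop :=
  ∀ (A V Γ M : Type) [Fintype A] [DecidableEq A] [Group Γ] [AddCommGroup M] (L : Γ → M)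
    (l0 l1 : M →+ ℝ) (D0 : Dat A V Γ), (∀ g, L g⁻¹ = L g) → L 1 = 0 →
    (∀ a b c, Four L a b c) → Good D0 →
    (∀ σ P, P <+: D0.row σ → ∃ z : ℤ, l1 (L (wpr D0.lab P)) = z) →
    (∀ a, ∃ z : ℤ, l1 (L (D0.lab a)) = z) →
    ∃ C0 : ℝ, 0 < C0 ∧ ∀ (D1 : Dat A V Γ) (h : ℝ) (b : C3 Γ), Good D1 → D1.row = D0.row →
      bd Γ b = cyc D1 - cyc D0 →
      (∀ σ P, P <+: D1.row σ → |l0 (L (wpr D1.lab P))| ≤ h) → (∀ a, |l0 (L (D1.lab a))| ≤ h) →
      |om (fun g => l0 (L g)) (fun g => l1 (L g)) (cyc D0)| ≤ C0 * √8 ^ (nrm b) * h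

/-- OMC: the value of the form on the bottom cycle. -/
def StOmc : Prop :=
  ∀ (A V Γ : Type) [Fintype A] [DecidableEq A] [Group Γ] (w v : Γ → ℝ) (D : Dat A V Γ)
    (l : A → ℤ), Good D → w 1 = 0 → v 1 = 0 → (∀ a, w (D.lab a)⁻¹ = w (D.lab a)) →
    (∀ a, v (D.lab a)⁻¹ = v (D.lab a)) →
    (∀ a, w (D.lab a) = D.lam a) → (∀ a, v (D.lab a) = l a) →
    (∀ σ P, P <+: D.row σ → w (wpr D.lab P) = wlen D.lam P) →
    (∀ σ P, P <+: D.row σ → v (wpr D.lab P) = (wlen l P : ℤ)) →
    om w v (cyc D) = wom D.lam l (D.row false) - wom D.lam l (D.row true)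

/-- PRO: the numbering exists. -/
def StPro : Prop :=
  ∀ (A V G : Type) [Fintype A] [DecidableEq A] [Group G] (d : Dat A V G), NoOneProng d →
    ∃ α : A × Bool → ℤ, Prong d α

/-- **FINAL: the lower bound.** -/
def StLow : Prop :=
  ∀ (A V G : Type) [Fintype A] [Nonempty A] [DecidableEq A] [Group G] (d : Dat A V G)
    (φ : G →* G) (c : V → G) (μ : ℝ), Good d → IsPi1 d → NoOneProng d → 1 < μ →
    Relation.ReflTransGen Rv d (tw φ c μ d) →
    ∃ C : ℝ, 0 < C ∧ ∀ k : ℕ, μ ^ k ≤ C * √8 ^ (fill (push (hpow φ k) (cyc d) - cyc d))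

end Pool.Agent.Lib.MP_e3aa0a_gt.FVL
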