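import Pool.Agent.Lib.MP_e3aa0a_gt.FVL.Stk83

/-!
# FVL, module Val32: families of valuations, Hahn series, and the equality of a simplex
-/

set_option autoImplicit false

namespace Pool.Agent.Lib.MP_e3aa0a_gt.FVL

open Matrix

/-- `w` is additive on products of non-zero elements -/
def IsLog32 {K : Type*} [Field K] (w : K → ℝ) : Prop :=
  ∀ x y : K, x ≠ 0 → y ≠ 0 → w (x * y) = w x + w y

/-- A family of logarithmic functions such that for all non-zero `x + y + z = 0` two of the three
elements have the same value under all members of the family. -/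
def TRI32 (K : Type*) [Field K] (W : Set (K → ℝ)) : Prop :=
  (∀ w ∈ W, IsLog32 w) ∧ ∀ x y z : K, x ≠ 0 → y ≠ 0 → z ≠ 0 → x + y + z = 0 →
    (∀ w ∈ W, w x = w y) ∨ (∀ w ∈ W, w y = w z) ∨ (∀ w ∈ W, w z = w x)

section basic

variable {K : Type*} [Field K]

theorem IsLog32.one {w : K → ℝ} (h : IsLog32 w) : w 1 = 0 := by
  have := h 1 1 one_ne_zero one_ne_zero
  rw [mul_one] at this
  linarith

theorem IsLog32.neg_one {w : K → ℝ} (h : IsLog32 w) : w (-1) = 0 := by
  have h1 := h (-1) (-1) (neg_ne_zero.2 one_ne_zero) (neg_ne_zero.2 one_ne_zero)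
  rw [neg_mul_neg, mul_one, h.one] at h1
  linarith

theorem IsLog32.neg {w : K → ℝ} (h : IsLog32 w) (x : K) : w (-x) = w x := by
  rcases eq_or_ne x 0 with rfl | hx
  · rw [neg_zero]
  · have h1 := h (-1) x (neg_ne_zero.2 one_ne_zero) hx
    rw [h.neg_one, zero_add, neg_one_mul] at h1
    exact h1

theorem IsLog32.inv {w : K → ℝ} (h : IsLog32 w) {x : K} (hx : x ≠ 0) : w x⁻¹ = - w x := by
  have h1 := h x x⁻¹ hx (inv_ne_zero hx)
  rw [mul_inv_cancel₀ hx, h.one] at h1
  linarith

theorem TRI32.mono {W W' : Set (K → ℝ)} (h : TRI32 K W) (hW : W' ⊆ W) : TRI32 K W' := by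
  refine ⟨fun w hw => h.1 w (hW hw), fun x y z hx hy hz hs => ?_⟩
  rcases h.2 x y z hx hy hz hs with h1 | h1 | h1
  · exact Or.inl fun w hw => h1 w (hW hw)
  · exact Or.inr (Or.inl fun w hw => h1 w (hW hw))
  · exact Or.inr (Or.inr fun w hw => h1 w (hW hw))

theorem tri_empty32 : TRI32 K ∅ :=
  ⟨fun w hw => absurd hw (Set.notMem_empty w), fun x y z _ _ _ _ =>
    Or.inl fun w hw => absurd hw (Set.notMem_empty w)⟩

theorem tri_zero32 : TRI32 K {fun _ => 0} := by
  refine ⟨?_, fun x y z _ _ _ _ => Or.inl ?_⟩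
  · rintro w rfl x y - -
    simp
  · rintro w rfl
    rfl

/-- pull back along an embedding of fields -/
theorem TRI32.comap {L : Type*} [Field L] (f : L →+* K) {W : Set (K → ℝ)} (h : TRI32 K W) :
    TRI32 L {v | ∃ w ∈ W, v = fun x => w (f x)} := by
  constructor
  · rintro v ⟨w, hw, rfl⟩ x y hx hy
    have := h.1 w hw (f x) (f y) ((map_ne_zero f).2 hx) ((map_ne_zero f).2 hy)
    simpa using this
  · intro x y z hx hy hz hs
    have hs' : f x + f y + f z = 0 := by rw [← map_add, ← map_add, hs, map_zero]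
    rcases h.2 (f x) (f y) (f z) ((map_ne_zero f).2 hx) ((map_ne_zero f).2 hy)
      ((map_ne_zero f).2 hz) hs' with h1 | h1 | h1
    · left
      rintro v ⟨w, hw, rfl⟩
      exact h1 w hw
    · right; left
      rintro v ⟨w, hw, rfl⟩
      exact h1 w hw
    · right; right
      rintro v ⟨w, hw, rfl⟩
      exact h1 w hw

end basic

section hahn

variable {Γ : Type*} [AddCommGroup Γ] [LinearOrder Γ] [IsOrderedAddMonoid Γ]
variable {K : Type*} [Field K]

open HahnSeries

private theorem lc_pair {x y z : HahnSeries Γ K} (hs : x + y + z = 0)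
    (hxy : x.order = y.order) (hxz : x.order < z.order) :
    x.leadingCoeff + y.leadingCoeff = 0 := by
  rw [leadingCoeff_eq, leadingCoeff_eq, ← hxy]
  have h1 := congrArg (fun s : HahnSeries Γ K => s.coeff x.order) hs
  simp only [coeff_add, coeff_zero, coeff_eq_zero_of_lt_order hxz, add_zero] at h1
  exact h1

private theorem lc_single {x y z : HahnSeries Γ K} (hx : x ≠ 0) (hs : x + y + z = 0)
    (hxy : x.order < y.order) (hxz : x.order < z.order) : False := by
  have h1 := congrArg (fun s : HahnSeries Γ K => s.coeff x.order) hs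
  simp only [coeff_add, coeff_zero, coeff_eq_zero_of_lt_order hxz,
    coeff_eq_zero_of_lt_order hxy, add_zero] at h1
  exact hx (coeff_order_eq_zero.1 h1)

/-- the family on the Hahn series: old valuations of the leading coefficient, and all additive
functions of the order -/
def hahnW32 (Γ : Type*) [AddCommGroup Γ] [LinearOrder Γ] [IsOrderedAddMonoid Γ]
    {K : Type*} [Field K] (W : Set (K → ℝ)) : Set (HahnSeries Γ K → ℝ) :=
  {v | ∃ w ∈ W, v = fun x => w x.leadingCoeff} ∪ {v | ∃ l : Γ →+ ℝ, v = fun x => l x.order}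

private theorem pair_val {W : Set (K → ℝ)} (h : TRI32 K W) {x y z : HahnSeries Γ K}
    (hs : x + y + z = 0) (hxy : x.order = y.order)
    (hxz : x.order < z.order) : ∀ v ∈ hahnW32 Γ W, v x = v y := by
  have h1 := lc_pair hs hxy hxz
  have h2 : y.leadingCoeff = - x.leadingCoeff := (neg_eq_of_add_eq_zero_right h1).symm
  rintro v (⟨w, hw, rfl⟩ | ⟨l, rfl⟩)
  · show w x.leadingCoeff = w y.leadingCoeff
    rw [h2, (h.1 w hw).neg]
  · show l x.order = l y.order
    rw [hxy]

/-- **Hahn series**: if `W` is a good family on `K`, then the valuations in `W` of the leading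
coefficient together with all additive functions of the order form a good family. -/
theorem tri_hahn32 {W : Set (K → ℝ)} (h : TRI32 K W) : TRI32 (HahnSeries Γ K) (hahnW32 Γ W) := by
  constructor
  · rintro v (⟨w, hw, rfl⟩ | ⟨l, rfl⟩) x y hx hy
    · show w (x * y).leadingCoeff = w x.leadingCoeff + w y.leadingCoeff
      rw [leadingCoeff_mul]
      exact h.1 w hw _ _ (leadingCoeff_ne_zero.2 hx) (leadingCoeff_ne_zero.2 hy)
    · show l (x * y).order = l x.order + l y.order
      rw [order_mul hx hy, map_add]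
  · intro x y z hx hy hz hs
    have hs2 : y + z + x = 0 := by rw [← hs]; abel
    have hs3 : z + x + y = 0 := by rw [← hs]; abel
    rcases lt_trichotomy x.order y.order with h1 | h1 | h1
    · -- x.order < y.order
      right; right
      rcases lt_trichotomy z.order x.order with h2 | h2 | h2
      · exact (lc_single hz hs3 h2 (h2.trans h1)).elim
      · exact pair_val h hs3 h2 (h2 ▸ h1)
      · exact (lc_single hx hs h1 h2).elim
    · rcases lt_trichotomy x.order z.order with h2 | h2 | h2
      · left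
        exact pair_val h hs h1 h2
      · -- all equal
        have hl : x.leadingCoeff + y.leadingCoeff + z.leadingCoeff = 0 := by
          rw [leadingCoeff_eq, leadingCoeff_eq, leadingCoeff_eq, ← h1, ← h2]
          have h3 := congrArg (fun s : HahnSeries Γ K => s.coeff x.order) hs
          simpa only [coeff_add, coeff_zero] using h3
        rcases h.2 _ _ _ (leadingCoeff_ne_zero.2 hx) (leadingCoeff_ne_zero.2 hy)
          (leadingCoeff_ne_zero.2 hz) hl with h3 | h3 | h3
        · left
          rintro v (⟨w, hw, rfl⟩ | ⟨l, rfl⟩)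
          · exact h3 w hw
          · show l x.order = l y.order
            rw [h1]
        · right; left
          rintro v (⟨w, hw, rfl⟩ | ⟨l, rfl⟩)
          · exact h3 w hw
          · show l y.order = l z.order
            rw [← h1, h2]
        · right; right
          rintro v (⟨w, hw, rfl⟩ | ⟨l, rfl⟩)
          · exact h3 w hw
          · show l z.order = l x.order
            rw [h2]
      · exact (lc_single hz hs3 h2 (h1 ▸ h2)).elim
    · -- y.order < x.order
      rcases lt_trichotomy y.order z.order with h2 | h2 | h2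
      · exact (lc_single hy hs2 h2 h1).elim
      · right; left
        exact pair_val h hs2 h2 h1
      · exact (lc_single hz hs3 (h2.trans h1) h2).elim

end hahn

section pluecker

variable {K : Type*} [Field K]

/-- the determinant of two vectors of the plane -/
def det32 (u v : Fin 2 → K) : K := u 0 * v 1 - u 1 * v 0

theorem det32_self (u : Fin 2 → K) : det32 u u = 0 := by
  simp only [det32]; ring

theorem det32_swap (u v : Fin 2 → K) : det32 v u = - det32 u v := by
  simp only [det32]; ring

theorem det32_mulVec (M : Matrix.SpecialLinearGroup (Fin 2) K) (u v : Fin 2 → K) :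
    det32 (M.1 *ᵥ u) (M.1 *ᵥ v) = det32 u v := by
  have h := M.2
  rw [Matrix.det_fin_two] at h
  simp only [det32, Matrix.mulVec, dotProduct, Fin.sum_univ_two]
  linear_combination (u 0 * v 1 - u 1 * v 0) * h

theorem pluecker32 (a b c d : Fin 2 → K) :
    det32 a b * det32 c d - det32 a c * det32 b d + det32 a d * det32 b c = 0 := by
  simp only [det32]; ring

/-- the label of a matrix: its determinant at the base vector `u` -/
def lab32 (u : Fin 2 → K) (M : Matrix.SpecialLinearGroup (Fin 2) K) : K := det32 u (M.1 *ᵥ u)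

theorem lab32_one (u : Fin 2 → K) : lab32 u 1 = 0 := by
  simp only [lab32, Matrix.SpecialLinearGroup.coe_one, Matrix.one_mulVec, det32_self]

theorem lab32_inv (u : Fin 2 → K) (M : Matrix.SpecialLinearGroup (Fin 2) K) :
    lab32 u M⁻¹ = - lab32 u M := by
  have h1 := det32_mulVec M u ((M⁻¹).1 *ᵥ u)
  rw [Matrix.mulVec_mulVec] at h1
  have h2 : M.1 * (M⁻¹).1 = 1 := by
    rw [← Matrix.SpecialLinearGroup.coe_mul, mul_inv_cancel, Matrix.SpecialLinearGroup.coe_one]
  rw [h2, Matrix.one_mulVec, det32_swap] at h1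
  rw [lab32, lab32, ← h1]

/-- the label at the base vector `γ u` is the label of the conjugate at `u` -/
theorem lab32_conj (u : Fin 2 → K) (γ M : Matrix.SpecialLinearGroup (Fin 2) K) :
    lab32 u (γ⁻¹ * M * γ) = lab32 (γ.1 *ᵥ u) M := by
  have h1 := det32_mulVec γ u ((γ⁻¹ * M * γ).1 *ᵥ u)
  rw [lab32, ← h1, lab32, Matrix.mulVec_mulVec, Matrix.mulVec_mulVec,
    ← Matrix.SpecialLinearGroup.coe_mul, ← Matrix.SpecialLinearGroup.coe_mul]
  congr 3
  group

/-- `M` is a good matrix: the identity, or its label at `u` is not zero -/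
def Good32 (u : Fin 2 → K) (M : Matrix.SpecialLinearGroup (Fin 2) K) : Prop :=
  M = 1 ∨ lab32 u M ≠ 0

theorem lab_pl32 (u : Fin 2 → K) (a b c : Matrix.SpecialLinearGroup (Fin 2) K) :
    lab32 u a * lab32 u c - lab32 u (a * b) * lab32 u (b * c) +
      lab32 u (a * b * c) * lab32 u b = 0 := by
  have h := pluecker32 u (a.1 *ᵥ u) ((a * b).1 *ᵥ u) ((a * b * c).1 *ᵥ u)
  have e1 : det32 ((a * b).1 *ᵥ u) ((a * b * c).1 *ᵥ u) = lab32 u c := by
    rw [Matrix.SpecialLinearGroup.coe_mul (a * b) c, ← Matrix.mulVec_mulVec, det32_mulVec, lab32]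
  have e2 : det32 (a.1 *ᵥ u) ((a * b * c).1 *ᵥ u) = lab32 u (b * c) := by
    rw [mul_assoc, Matrix.SpecialLinearGroup.coe_mul a (b * c), ← Matrix.mulVec_mulVec,
      det32_mulVec, lab32]
  have e3 : det32 (a.1 *ᵥ u) ((a * b).1 *ᵥ u) = lab32 u b := by
    rw [Matrix.SpecialLinearGroup.coe_mul a b, ← Matrix.mulVec_mulVec, det32_mulVec, lab32]
  rw [e1, e2, e3] at h
  exact h

/-- **The equality of a simplex.** If the six labels of `[a|b|c]` are good, then two of the three
sums of opposite labels agree, the same two for all valuations of the family. -/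
theorem simplex32 {W : Set (K → ℝ)} (hW : TRI32 K W) (u : Fin 2 → K)
    (a b c : Matrix.SpecialLinearGroup (Fin 2) K) (ha : Good32 u a) (hb : Good32 u b)
    (hc : Good32 u c) (hab : Good32 u (a * b)) (hbc : Good32 u (b * c))
    (habc : Good32 u (a * b * c)) :
    ∃ k : Fin 3, ∀ w ∈ W, Rl (fun M => w (lab32 u M)) k (a, b, c) := by
  by_cases ha1 : a = 1
  · refine ⟨0, fun w _ => ?_⟩
    subst ha1
    show opp _ _ 1 = opp _ _ 2
    simp only [opp, one_mul]
    ring
  by_cases hb1 : b = 1
  · refine ⟨2, fun w _ => ?_⟩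
    subst hb1
    show opp _ _ 0 = opp _ _ 1
    simp only [opp, one_mul, mul_one]
  by_cases hc1 : c = 1
  · refine ⟨0, fun w _ => ?_⟩
    subst hc1
    show opp _ _ 1 = opp _ _ 2
    simp only [opp, mul_one]
  by_cases hab1 : a * b = 1
  · refine ⟨1, fun w hw => ?_⟩
    have hb' : b = a⁻¹ := eq_inv_of_mul_eq_one_right hab1
    show opp _ _ 2 = opp _ _ 0
    simp only [opp, hab1, one_mul]
    rw [hb', lab32_inv, (hW.1 w hw).neg]
    ring
  by_cases hbc1 : b * c = 1
  · refine ⟨1, fun w hw => ?_⟩
    have hb' : b = c⁻¹ := eq_inv_of_mul_eq_one_left hbc1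
    show opp _ _ 2 = opp _ _ 0
    simp only [opp, mul_assoc, hbc1, mul_one]
    rw [hb', lab32_inv, (hW.1 w hw).neg]
  by_cases habc1 : a * b * c = 1
  · refine ⟨2, fun w hw => ?_⟩
    have h1 : a * b = c⁻¹ := eq_inv_of_mul_eq_one_left habc1
    have h2 : b * c = a⁻¹ := by
      refine eq_inv_of_mul_eq_one_right ?_
      rw [← mul_assoc]
      exact habc1
    show opp _ _ 0 = opp _ _ 1
    simp only [opp]
    rw [h1, h2, lab32_inv, lab32_inv, (hW.1 w hw).neg, (hW.1 w hw).neg]
    ring
  have na := ha.resolve_left ha1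
  have nb := hb.resolve_left hb1
  have nc := hc.resolve_left hc1
  have nab := hab.resolve_left hab1
  have nbc := hbc.resolve_left hbc1
  have nabc := habc.resolve_left habc1
  have hp := lab_pl32 u a b c
  have hp' : lab32 u a * lab32 u c + -(lab32 u (a * b) * lab32 u (b * c)) +
      lab32 u (a * b * c) * lab32 u b = 0 := by
    rw [← hp]; ring
  have e0 : ∀ w ∈ W, w (lab32 u a * lab32 u c) =
      opp (fun M => w (lab32 u M)) (a, b, c) 0 := fun w hw => (hW.1 w hw) _ _ na nc
  have e1 : ∀ w ∈ W, w (-(lab32 u (a * b) * lab32 u (b * c))) =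
      opp (fun M => w (lab32 u M)) (a, b, c) 1 := fun w hw => by
    rw [(hW.1 w hw).neg]
    exact (hW.1 w hw) _ _ nab nbc
  have e2 : ∀ w ∈ W, w (lab32 u (a * b * c) * lab32 u b) =
      opp (fun M => w (lab32 u M)) (a, b, c) 2 := fun w hw => (hW.1 w hw) _ _ nabc nb
  rcases hW.2 _ _ _ (mul_ne_zero na nc) (neg_ne_zero.2 (mul_ne_zero nab nbc))
    (mul_ne_zero nabc nb) hp' with h | h | h
  · refine ⟨2, fun w hw => ?_⟩
    show opp _ _ 0 = opp _ _ 1
    rw [← e0 w hw, ← e1 w hw]
    exact h w hw
  · refine ⟨0, fun w hw => ?_⟩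
    show opp _ _ 1 = opp _ _ 2
    rw [← e1 w hw, ← e2 w hw]
    exact h w hw
  · refine ⟨1, fun w hw => ?_⟩
    show opp _ _ 2 = opp _ _ 0
    rw [← e2 w hw, ← e0 w hw]
    exact h w hw

end pluecker

end Pool.Agent.Lib.MP_e3aa0a_gt.FVL
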