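import Mathlib
import Pool.Agent.Lib.MP_e3aa0a_gt.FVL.Val32
import Pool.Agent.Lib.MP_e3aa0a_gt.FVL.CR66

/-!
# FVL: eigenvalues in fields of Laurent series, eigenbases in `SL₂`
-/

set_option autoImplicit false

namespace Pool.Agent.Lib.MP_e3aa0a_gt.FVL

open Matrix

section eigenvalue

variable {F : Type*} [Field F]

/-- a Laurent series of negative order is of the form `m + m⁻¹` -/
theorem exists_add_inv (t : LaurentSeries F) (h0 : t ≠ 0) (ht : t.order < 0) :
    ∃ m : (LaurentSeries F)ˣ, t = (m : LaurentSeries F) + ((m⁻¹ : (LaurentSeries F)ˣ) : LaurentSeries F) := by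
  set z : LaurentSeries F := (t⁻¹) ^ 2 with hz
  have hzo : 0 < z.orderTop := by
    have h1 : t⁻¹ ≠ 0 := inv_ne_zero h0
    have h2 : t.order + (t⁻¹).order = 0 := by
      rw [← HahnSeries.order_mul h0 h1, mul_inv_cancel₀ h0, HahnSeries.order_one]
    have h3 : z ≠ 0 := pow_ne_zero 2 h1
    have h4 : z.order = 2 • (t⁻¹).order := by rw [hz, HahnSeries.order_pow]
    rw [← HahnSeries.order_eq_orderTop_of_ne_zero h3]
    have h5 : 0 < z.order := by rw [h4, nsmul_eq_mul]; push_cast; omega
    exact_mod_cast h5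
  set cs : PowerSeries F := (PowerSeries.catalanSeries).map (Nat.castRingHom F) with hcs
  have e1 : cs ^ 2 * PowerSeries.X + 1 = cs := by
    have h1 := congrArg (PowerSeries.map (Nat.castRingHom F))
      PowerSeries.catalanSeries_sq_mul_X_add_one
    rw [map_add, map_mul, map_pow, PowerSeries.map_X, map_one] at h1
    exact h1
  set c : LaurentSeries F := PowerSeries.heval z cs with hc
  have e2 : c ^ 2 * z + 1 = c := by
    have h1 := congrArg (PowerSeries.heval z) e1
    rw [map_add, map_mul, map_pow, PowerSeries.heval_X z hzo, map_one] at h1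
    exact h1
  set y : LaurentSeries F := t⁻¹ * c with hy
  have e3 : y * (t - y) = 1 := by
    have h1 : y * t = c := by rw [hy]; field_simp
    have h2 : y ^ 2 = c ^ 2 * z := by rw [hy, hz]; ring
    linear_combination h1 - h2 - e2
  refine ⟨⟨y, t - y, e3, by rw [mul_comm]; exact e3⟩, ?_⟩
  change t = y + (t - y)
  ring

/-- the eigenvalue of the same order as the trace -/
theorem eig66 (t : LaurentSeries F) (h0 : t ≠ 0) (ht : t.order < 0) :
    ∃ m : (LaurentSeries F)ˣ, t = (m : LaurentSeries F) + ((m⁻¹ : (LaurentSeries F)ˣ) : LaurentSeries F) ∧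
      (m : LaurentSeries F).order = t.order := by
  obtain ⟨m, hm⟩ := exists_add_inv t h0 ht
  have hne : ∀ m : (LaurentSeries F)ˣ, (m : LaurentSeries F) ≠ 0 := fun m => m.ne_zero
  have hs : ∀ m : (LaurentSeries F)ˣ, (m : LaurentSeries F).order +
      ((m⁻¹ : (LaurentSeries F)ˣ) : LaurentSeries F).order = 0 := by
    intro m
    rw [← HahnSeries.order_mul (hne m) (hne m⁻¹), Units.mul_inv, HahnSeries.order_one]
  have key : ∀ m : (LaurentSeries F)ˣ,
      t = (m : LaurentSeries F) + ((m⁻¹ : (LaurentSeries F)ˣ) : LaurentSeries F) →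
      (m : LaurentSeries F).order < 0 → (m : LaurentSeries F).order = t.order := by
    intro m hm hlt
    have h1 : (m : LaurentSeries F).orderTop
        < ((m⁻¹ : (LaurentSeries F)ˣ) : LaurentSeries F).orderTop := by
      rw [← HahnSeries.order_eq_orderTop_of_ne_zero (hne m),
        ← HahnSeries.order_eq_orderTop_of_ne_zero (hne m⁻¹)]
      have := hs m
      exact_mod_cast (by omega : (m : LaurentSeries F).order <
        ((m⁻¹ : (LaurentSeries F)ˣ) : LaurentSeries F).order)
    have h2 := HahnSeries.orderTop_add_eq_left h1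
    rw [← hm, ← HahnSeries.order_eq_orderTop_of_ne_zero (hne m),
      ← HahnSeries.order_eq_orderTop_of_ne_zero h0] at h2
    exact_mod_cast h2.symm
  rcases lt_trichotomy (m : LaurentSeries F).order 0 with h1 | h1 | h1
  · exact ⟨m, hm, key m hm h1⟩
  · exfalso
    have h2 := hs m
    have h3 := HahnSeries.min_orderTop_le_orderTop_add (x := (m : LaurentSeries F))
      (y := ((m⁻¹ : (LaurentSeries F)ˣ) : LaurentSeries F))
    rw [← hm, ← HahnSeries.order_eq_orderTop_of_ne_zero (hne m),
      ← HahnSeries.order_eq_orderTop_of_ne_zero (hne m⁻¹),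
      ← HahnSeries.order_eq_orderTop_of_ne_zero h0, h1] at h3
    have h4 : ((m⁻¹ : (LaurentSeries F)ˣ) : LaurentSeries F).order = 0 := by omega
    rw [h4, min_self] at h3
    have h5 : (0 : ℤ) ≤ t.order := by exact_mod_cast h3
    omega
  · refine ⟨m⁻¹, ?_, ?_⟩
    · rw [inv_inv, add_comm]; exact hm
    · apply key
      · rw [inv_inv, add_comm]; exact hm
      · have := hs m
        omega

end eigenvalue

section eigenbasis

variable {F : Type*} [Field F]

theorem exists_eigenvector (M : SpecialLinearGroup (Fin 2) F) (m : F)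
    (h : m ^ 2 - Matrix.trace M.1 * m + 1 = 0) : ∃ v : Fin 2 → F, v ≠ 0 ∧ M.1 *ᵥ v = m • v := by
  have h1 : (M.1 - m • (1 : Matrix (Fin 2) (Fin 2) F)).det = 0 := by
    rw [det_fin_two]
    have hd := sl_det M
    rw [trace_fin_two] at h
    simp only [Matrix.sub_apply, Matrix.smul_apply, Matrix.one_apply_eq, smul_eq_mul, mul_one,
      Matrix.one_apply_ne (by decide : (0 : Fin 2) ≠ 1),
      Matrix.one_apply_ne (by decide : (1 : Fin 2) ≠ 0), mul_zero, sub_zero]
    linear_combination h + hd
  obtain ⟨v, hv, h2⟩ := Matrix.exists_mulVec_eq_zero_iff.2 h1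
  refine ⟨v, hv, ?_⟩
  rw [Matrix.sub_mulVec, Matrix.smul_mulVec, Matrix.one_mulVec, sub_eq_zero] at h2
  exact h2

/-- diagonalisation in `SL₂` -/
theorem diag66 (M : SpecialLinearGroup (Fin 2) F) (m : Fˣ) (hm : (m : F) ^ 2 ≠ 1)
    (ht : Matrix.trace M.1 = (m : F) + ((m⁻¹ : Fˣ) : F)) :
    ∃ A : SpecialLinearGroup (Fin 2) F, M = A * dia m * A⁻¹ := by
  have hmm : (m : F) * ((m⁻¹ : Fˣ) : F) = 1 := by simp
  obtain ⟨p, hp, hp1⟩ := exists_eigenvector M (m : F) (by rw [ht]; linear_combination -hmm)
  obtain ⟨q, hq, hq1⟩ := exists_eigenvector M ((m⁻¹ : Fˣ) : F) (by rw [ht]; linear_combination -hmm)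
  have hne : (m : F) - ((m⁻¹ : Fˣ) : F) ≠ 0 := by
    intro h
    apply hm
    linear_combination (m : F) * h + hmm
  have hd : p 0 * q 1 - q 0 * p 1 ≠ 0 := by
    intro h
    -- `q` is a multiple of `p`
    have h3 : ∃ s : F, q = s • p := by
      by_cases h0 : p 0 = 0
      · have h1 : p 1 ≠ 0 := by
          intro h1
          refine hp (funext fun i => ?_)
          fin_cases i
          · exact h0
          · exact h1
        have h2 : q 0 = 0 := by
          rw [h0, zero_mul, zero_sub, neg_eq_zero] at h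
          exact (mul_eq_zero.1 h).resolve_right h1
        refine ⟨q 1 / p 1, funext fun i => ?_⟩
        fin_cases i
        · simp [h0, h2]
        · simp [h1]
      · refine ⟨q 0 / p 0, funext fun i => ?_⟩
        fin_cases i
        · simp [h0]
        · simp only [Fin.mk_one, Fin.isValue, Pi.smul_apply, smul_eq_mul]
          field_simp
          linear_combination h
    obtain ⟨s, hs⟩ := h3
    have h4 : M.1 *ᵥ q = (m : F) • q := by
      rw [hs, Matrix.mulVec_smul, hp1, smul_comm]
    rw [hq1] at h4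
    apply hq
    have h5 : ((m : F) - ((m⁻¹ : Fˣ) : F)) • q = 0 := by
      rw [sub_smul, ← h4, sub_self]
    exact (smul_eq_zero.1 h5).resolve_left hne
  set d := p 0 * q 1 - q 0 * p 1 with hdd
  let A : SpecialLinearGroup (Fin 2) F := ⟨!![p 0, q 0 / d; p 1, q 1 / d], by
    rw [det_fin_two_of]
    field_simp
    rw [hdd]⟩
  refine ⟨A, ?_⟩
  have e : ∀ (x : Fin 2 → F) (i : Fin 2), (M.1 *ᵥ x) i = M.1 i 0 * x 0 + M.1 i 1 * x 1 := by
    intro x i
    simp [Matrix.mulVec, dotProduct, Fin.sum_univ_two]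
  have h6 : M * A = A * dia m := by
    apply Subtype.ext
    rw [vmul, vmul, dia_coe]
    have hp2 : ∀ i, M.1 i 0 * p 0 + M.1 i 1 * p 1 = (m : F) * p i := fun i => by
      rw [← e, hp1]; rfl
    have hq2 : ∀ i, M.1 i 0 * q 0 + M.1 i 1 * q 1 = ((m⁻¹ : Fˣ) : F) * q i := fun i => by
      rw [← e, hq1]; rfl
    ext i j
    fin_cases j
    · have := hp2 i
      fin_cases i <;> simp only [Matrix.mul_apply, Fin.sum_univ_two, A, Matrix.of_apply,
        Matrix.cons_val', Matrix.cons_val_zero, Matrix.cons_val_one, Matrix.cons_val_fin_one,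
        Fin.zero_eta, Fin.mk_one] <;> simp only [Fin.zero_eta, Fin.mk_one] at this <;>
        linear_combination this
    · have := hq2 i
      fin_cases i <;> simp only [Matrix.mul_apply, Fin.sum_univ_two, A, Matrix.of_apply,
        Matrix.cons_val', Matrix.cons_val_zero, Matrix.cons_val_one, Matrix.cons_val_fin_one,
        Fin.zero_eta, Fin.mk_one] <;> simp only [Fin.zero_eta, Fin.mk_one] at this <;>
        field_simp <;> linear_combination this
  rw [← h6, mul_inv_cancel_right]

end eigenbasis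

end Pool.Agent.Lib.MP_e3aa0a_gt.FVL
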