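import Pool.Agent.Lib.FVol.Words
import Pool.Agent.Lib.MP_e3aa0a_gt.FVL.Cont31b

/-!
# FVL, module Ex57a: signed counts, letter matrices in `GL 2`
-/

set_option autoImplicit false

namespace Pool.Agent.Lib.MP_e3aa0a_gt.FVL

open Pool.Agent.Lib.FVol Matrix

section counts

variable {A : Type*} [Fintype A] [DecidableEq A]

/-- in a commutative group the label of a word depends only on the signed counts -/
theorem wpr_comm57 {M : Type*} [CommGroup M] (h : A → M) (W : List (A × Bool)) :
    wpr h W = ∏ a, h a ^ ((occ (a, true) W : ℤ) - occ (a, false) W) := by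
  induction W with
  | nil => simp
  | cons z W ih =>
    rw [wpr_cons, ih]
    have e1 : slab h z = ∏ a, (if z.1 = a then slab h z else 1) := by
      rw [Finset.prod_ite_eq]
      simp
    rw [e1, ← Finset.prod_mul_distrib]
    refine Finset.prod_congr rfl fun a _ => ?_
    rw [occ_cons, occ_cons]
    rcases z with ⟨b, s⟩
    by_cases hb : b = a
    · subst hb
      cases s
      · simp only [if_true, slab, Bool.false_eq_true, if_false, Prod.mk.injEq, and_false,
          add_zero, Nat.cast_add, Nat.cast_one]
        rw [show (occ (b, true) W : ℤ) - ((occ (b, false) W : ℤ) + 1)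
          = (-1) + ((occ (b, true) W : ℤ) - occ (b, false) W) by ring, _root_.zpow_add, _root_.zpow_neg_one]
      · simp only [if_true, slab, Bool.true_eq_false, if_false, Prod.mk.injEq, and_false,
          add_zero, Nat.cast_add, Nat.cast_one]
        rw [show ((occ (b, true) W : ℤ) + 1) - (occ (b, false) W : ℤ)
          = 1 + ((occ (b, true) W : ℤ) - occ (b, false) W) by ring, _root_.zpow_add, _root_.zpow_one]
    · have h1 : ∀ t, ¬ ((b, s) = (a, t)) := fun t h => hb (congrArg Prod.fst h)
      simp only [hb, if_false, h1, add_zero, one_mul]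

theorem wpr_eq_of_sgn57 {M : Type*} [CommGroup M] (h : A → M) {W W' : List (A × Bool)}
    (hs : ∀ z, (occ z W : ℤ) - occ (sinv z) W = occ z W' - occ (sinv z) W') :
    wpr h W = wpr h W' := by
  rw [wpr_comm57, wpr_comm57]
  refine Finset.prod_congr rfl fun a _ => ?_
  have := hs (a, true)
  simp only [sinv, Bool.not_true] at this
  rw [this]

/-- the sum over a word -/
def sm57 (g : A → ℝ) (W : List (A × Bool)) : ℝ := (W.map fun z => g z.1).sum

/-- the sum over the negative letters of a word -/
def ng57 (g : A → ℝ) (W : List (A × Bool)) : ℝ := (W.map fun z => if z.2 then 0 else g z.1).sum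

omit [Fintype A] [DecidableEq A] in
theorem sub_ng57 (g : A → ℝ) (W : List (A × Bool)) :
    sm57 g W - 2 * ng57 g W = Multiplicative.toAdd (wpr (fun a => Multiplicative.ofAdd (g a)) W) := by
  induction W with
  | nil => simp [sm57, ng57]
  | cons z W ih =>
    rw [wpr_cons, toAdd_mul, ← ih]
    rcases z with ⟨b, s⟩
    cases s
    · simp [sm57, ng57, slab]
      ring
    · simp [sm57, ng57, slab]
      ring

theorem ng_eq57 (g : A → ℝ) {W W' : List (A × Bool)}
    (hs : ∀ z, (occ z W : ℤ) - occ (sinv z) W = occ z W' - occ (sinv z) W')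
    (h : sm57 g W = sm57 g W') : ng57 g W = ng57 g W' := by
  have h1 := sub_ng57 g W
  have h2 := sub_ng57 g W'
  rw [wpr_eq_of_sgn57 _ hs] at h1
  linarith

end counts

section letters

variable {A K : Type*} [Field K]

/-- the parameters of a signed letter -/
def lt57 (a : A × Bool → K) (e : A → K) (x : A × Bool) : K × K × K := (a x, -a (sinv x), e x.1)

/-- the labels of the letters -/
noncomputable def gl57 (a : A × Bool → K) {e : A → K} (he : ∀ i, e i ≠ 0) (i : A) :
    GL (Fin 2) K :=
  GeneralLinearGroup.mkOfDetNeZero (lm31 (lt57 a e (i, true))) (by rw [det_lm31]; exact he i)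

/-- the scalar of a signed letter -/
def sc57 (e : A → K) (x : A × Bool) : K := if x.2 then 1 else -(e x.1)⁻¹

theorem slab_gl57 (a : A × Bool → K) {e : A → K} (he : ∀ i, e i ≠ 0) (x : A × Bool) :
    ((slab (gl57 a he) x : GL (Fin 2) K) : Matrix (Fin 2) (Fin 2) K) =
      sc57 e x • lm31 (lt57 a e x) := by
  rcases x with ⟨i, s⟩
  cases s
  · have h1 : (slab (gl57 a he) (i, false)) = (gl57 a he i)⁻¹ := rfl
    rw [h1]
    rw [coe_units_inv]
    have h2 : ((gl57 a he i : GL (Fin 2) K) : Matrix (Fin 2) (Fin 2) K) = lm31 (lt57 a e (i, true)) := rfl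
    rw [h2, inv_def, det_lm31]
    simp only [lm31, lt57, sinv, Bool.not_true, Bool.not_false, adjugate_fin_two_of, sc57,
      Bool.false_eq_true, if_false, smul_of, smul_cons, smul_eq_mul, smul_empty,
      Ring.inverse_eq_inv']
    ext i j
    fin_cases i <;> fin_cases j <;> simp <;> ring
  · have h1 : (slab (gl57 a he) (i, true)) = (gl57 a he i) := rfl
    rw [h1, sc57, if_pos rfl, one_smul]
    rfl

theorem wpr_gl57 (a : A × Bool → K) {e : A → K} (he : ∀ i, e i ≠ 0) (W : List (A × Bool)) :
    ((wpr (gl57 a he) W : GL (Fin 2) K) : Matrix (Fin 2) (Fin 2) K) =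
      (W.map (sc57 e)).prod • pm31 (W.map (lt57 a e)) := by
  induction W with
  | nil => simp [pm31_nil]
  | cons x W ih =>
    rw [wpr_cons, Units.val_mul, ih, slab_gl57, List.map_cons, List.prod_cons,
      List.map_cons, pm31_cons, smul_mul_smul_comm]

theorem det_wpr_eq57 [Fintype A] [DecidableEq A] (f : A → GL (Fin 2) K) {W W' : List (A × Bool)}
    (hs : ∀ z, (occ z W : ℤ) - occ (sinv z) W = occ z W' - occ (sinv z) W') :
    ((wpr f W : GL (Fin 2) K) : Matrix (Fin 2) (Fin 2) K).det
      = ((wpr f W' : GL (Fin 2) K) : Matrix (Fin 2) (Fin 2) K).det := by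
  have key : ∀ V : List (A × Bool), GeneralLinearGroup.det (wpr f V)
      = wpr (fun i => GeneralLinearGroup.det (f i)) V := by
    intro V
    induction V with
    | nil => simp
    | cons x V ih =>
      rw [wpr_cons, map_mul, ih, wpr_cons]
      congr 1
      rcases x with ⟨i, s⟩
      cases s
      · simp [slab]
      · rfl
  have h1 := key W
  rw [wpr_eq_of_sgn57 _ hs, ← key W'] at h1
  have h2 := congrArg (fun u : Kˣ => (u : K)) h1
  simpa using h2

end letters

/-- a unit whose leading coefficient is a rational constant -/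
def Cu57 {F : Type*} [Field F] (y : HahnSeries ℝ F) : Prop :=
  ∃ q : ℚ, q ≠ 0 ∧ y ≠ 0 ∧ y.order = 0 ∧ y.leadingCoeff = (q : F)

end Pool.Agent.Lib.MP_e3aa0a_gt.FVL
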