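import Pool.Agent.Lib.MP_e3aa0a_gt.FVL.Ex57a

/-!
# FVR, module Ex57b: the three equations and their solution by a contraction
-/

set_option autoImplicit false

namespace Pool.Agent.Lib.MP_e3aa0a_gt.FVL

open Pool.Agent.Lib.FVol Matrix HahnSeries

variable {A : Type*} {F : Type*} [Field F]

/-- the product of the constant sums at the corners of a word -/
def kz57 (α : A × Bool → ℤ) : List (A × Bool) → ℤ
  | [] => 1
  | [_] => 1
  | u :: w :: W => (α w - α (sinv u)) * kz57 α (w :: W)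

/-- no corner of the word is degenerate -/
def Adm57 (α : A × Bool → ℤ) (W : List (A × Bool)) : Prop :=
  W.IsChain fun u w => α w ≠ α (sinv u)

theorem Adm57.kz {α : A × Bool → ℤ} {W : List (A × Bool)} (h : Adm57 α W) : kz57 α W ≠ 0 := by
  induction W with
  | nil => exact one_ne_zero
  | cons u W ih =>
    cases W with
    | nil => exact one_ne_zero
    | cons w W =>
      obtain ⟨h1, h2⟩ := List.isChain_cons_cons.1 h
      exact mul_ne_zero (sub_ne_zero.2 h1) (ih h2)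

/-- parameters near to the integral positions -/
structure Nr57 (c : ℝ) (α : A × Bool → ℤ) (a : A × Bool → HahnSeries ℝ F)
    (e : A → HahnSeries ℝ F) : Prop where
  na : ∀ x, Cg57 c (a x) (C ((α x : ℤ) : F))
  be : ∀ i, Big57 c (e i)

/-- the constants of a letter -/
def lc57 (F : Type*) [Field F] (α : A × Bool → ℤ) (x : A × Bool) : F × F :=
  (((α x : ℤ) : F), -((α (sinv x) : ℤ) : F))

theorem kc_map57 (α : A × Bool → ℤ) (W : List (A × Bool)) :
    kc31 (W.map (lc57 F α)) = ((kz57 α W : ℤ) : F) := by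
  induction W with
  | nil => simp [kc31, kz57]
  | cons u W ih =>
    cases W with
    | nil => simp [kc31, kz57]
    | cons w W =>
      rw [kz57, Int.cast_mul, ← ih]
      have e1 : kc31 ((u :: w :: W).map (lc57 F α)) =
          ((lc57 F α u).2 + (lc57 F α w).1) * kc31 ((w :: W).map (lc57 F α)) := rfl
      rw [e1]
      congr 1
      simp only [lc57]
      push_cast
      ring

theorem Nr57.li [CharZero F] {c : ℝ} {α : A × Bool → ℤ} {a : A × Bool → HahnSeries ℝ F}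
    {e : A → HahnSeries ℝ F} (h : Nr57 c α a e) (hc : 0 < c) {W : List (A × Bool)}
    (hW : Adm57 α W) :
    Li31 c (W.map (lt57 a e)) ∧ Cg57 c (kp31 (W.map (lt57 a e))) (C ((kz57 α W : ℤ) : F)) := by
  rw [← kc_map57]
  refine li_of_const31 hc _ _ ?_ ?_ ?_
  · rw [List.forall₂_map_left_iff, List.forall₂_map_right_iff, List.forall₂_same]
    intro x _
    refine ⟨h.na x, ?_⟩
    have h1 := (h.na (sinv x)).neg
    rw [← map_neg] at h1
    exact h1
  · rw [List.isChain_map]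
    refine List.IsChain.imp (fun u w huw => ?_) hW
    simp only [lc57]
    rw [neg_add_eq_sub, ← Int.cast_sub]
    exact_mod_cast sub_ne_zero.2 huw
  · intro p hp
    obtain ⟨x, -, rfl⟩ := List.mem_map.1 hp
    exact h.be x.1

theorem Nr57.cg [CharZero F] {c : ℝ} {α : A × Bool → ℤ} {a : A × Bool → HahnSeries ℝ F}
    {e : A → HahnSeries ℝ F} (h : Nr57 c α a e) (hc : 0 < c) {W : List (A × Bool)}
    (hW : Adm57 α W) (hne : W ≠ []) :
    Un57 (g31 (W.map (lt57 a e))) ∧ Cg57 c (g31 (W.map (lt57 a e))) (C ((kz57 α W : ℤ) : F)) := by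
  obtain ⟨h1, h2⟩ := h.li hc hW
  have hne' : W.map (lt57 a e) ≠ [] := by simpa using hne
  exact ⟨h1.un hc hne', (h1.cg hc hne').trans h2⟩

section par

variable [DecidableEq A]

/-- the positions with two free parameters -/
noncomputable def par57 (α : A × Bool → ℤ) (t x' : A × Bool) (X0 X1 : HahnSeries ℝ F)
    (z : A × Bool) : HahnSeries ℝ F :=
  if z = t then X0 else if z = x' then X1 else C ((α z : ℤ) : F)

/-- the determinants with one free parameter -/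
noncomputable def eps57 (m : A → HahnSeries ℝ F) (i0 : A) (X2 : HahnSeries ℝ F) (i : A) :
    HahnSeries ℝ F :=
  if i = i0 then m i * X2⁻¹ else m i

theorem par_na57 {c : ℝ} {α : A × Bool → ℤ} {t x' : A × Bool} {X0 X1 : HahnSeries ℝ F}
    (h0 : Cg57 c X0 (C ((α t : ℤ) : F))) (h1 : Cg57 c X1 (C ((α x' : ℤ) : F))) (z : A × Bool) :
    Cg57 c (par57 α t x' X0 X1 z) (C ((α z : ℤ) : F)) := by
  unfold par57
  by_cases hz : z = t
  · rw [if_pos hz, hz]
    exact h0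
  · rw [if_neg hz]
    by_cases hz' : z = x'
    · rw [if_pos hz', hz']
      exact h1
    · rw [if_neg hz']
      exact Cg57.refl _ _

theorem par_lip57 {r : ℝ} {α : A × Bool → ℤ} {t x' : A × Bool} {X0 X1 Y0 Y1 : HahnSeries ℝ F}
    (h0 : Cg57 r X0 Y0) (h1 : Cg57 r X1 Y1) (z : A × Bool) :
    Cg57 r (par57 α t x' X0 X1 z) (par57 α t x' Y0 Y1 z) := by
  unfold par57
  split_ifs
  · exact h0
  · exact h1
  · exact Cg57.refl _ _

theorem eps_big57 {c : ℝ} {m : A → HahnSeries ℝ F} (hm : ∀ i, Big57 c (m i)) (i0 : A)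
    {X2 : HahnSeries ℝ F} (h : Un57 X2) (i : A) : Big57 c (eps57 m i0 X2 i) := by
  unfold eps57
  split_ifs
  · have := (hm i).mul h.inv.big
    rwa [add_zero] at this
  · exact hm i

theorem eps_lip57 {c r : ℝ} {m : A → HahnSeries ℝ F} (hm : ∀ i, Big57 c (m i)) (i0 : A)
    {X2 Y2 : HahnSeries ℝ F} (hX : Un57 X2) (hY : Un57 Y2) (h : Cg57 r X2 Y2) (i : A) :
    Cg57 (r + c) (eps57 m i0 X2 i) (eps57 m i0 Y2 i) := by
  unfold eps57
  split_ifs
  · exact (h.inv hX hY).mul_left (hm i)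
  · exact Cg57.refl _ _

end par

/-- the function whose fixed point solves the three equations -/
noncomputable def Phi57 [DecidableEq A] (α : A × Bool → ℤ) (t x s y : A × Bool)
    (W1 W2 Wa Wb : List (A × Bool)) (m : A → HahnSeries ℝ F) (i0 : A) (R : F)
    (X : Fin 3 → HahnSeries ℝ F) : Fin 3 → HahnSeries ℝ F :=
  let f := lt57 (par57 α t (sinv x) (X 0) (X 1)) (eps57 m i0 (X 2))
  let x0 := C ((α s : ℤ) : F) + (pm31 (W2.map f) 0 0 / pm31 (W2.map f) 1 0 - (f s).1)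
    - (pm31 (W1.map f) 0 0 / pm31 (W1.map f) 1 0 - (f t).1)
  let x1 := C ((α (sinv y) : ℤ) : F) + (pm31 (W1.map f) 1 1 / pm31 (W1.map f) 1 0 - (f x).2.1)
    - (pm31 (W2.map f) 1 1 / pm31 (W2.map f) 1 0 - (f y).2.1)
  let f' := lt57 (par57 α t (sinv x) x0 x1) (eps57 m i0 (X 2))
  ![x0, x1, C R * (g31 (Wb.map f') * (g31 (Wa.map f'))⁻¹)]

section phi

variable [DecidableEq A] [CharZero F] {c : ℝ} {α : A × Bool → ℤ} {t x s y : A × Bool}
  {T T' S S' Wa Wb : List (A × Bool)} {m : A → HahnSeries ℝ F} {i0 : A} {R : F}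

/-- the start vector -/
noncomputable def X57 (F : Type*) [Field F] (α : A × Bool → ℤ) (t x : A × Bool)
    (Wa Wb : List (A × Bool)) (R : F) : Fin 3 → HahnSeries ℝ F :=
  ![C ((α t : ℤ) : F), C ((α (sinv x) : ℤ) : F),
    C (R * (((kz57 α Wb : ℤ) : F) * ((kz57 α Wa : ℤ) : F)⁻¹))]

omit [DecidableEq A] in
theorem X57_un (hR : R ≠ 0) (ha : Adm57 α Wa) (hb : Adm57 α Wb) {X2 : HahnSeries ℝ F}
    (hc : 0 < c) (h : Cg57 c X2 (X57 F α t x Wa Wb R 2)) : Un57 X2 := by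
  refine Un57.congr (un57_C ?_) hc h
  have h1 : ((kz57 α Wb : ℤ) : F) ≠ 0 := by exact_mod_cast hb.kz
  have h2 : ((kz57 α Wa : ℤ) : F) ≠ 0 := by exact_mod_cast ha.kz
  exact mul_ne_zero hR (mul_ne_zero h1 (inv_ne_zero h2))

theorem nr57 (hc : 0 < c) (hm : ∀ i, Big57 c (m i)) (hR : R ≠ 0) (ha : Adm57 α Wa)
    (hb : Adm57 α Wb) {X : Fin 3 → HahnSeries ℝ F}
    (hX : ∀ i, Cg57 c (X i) (X57 F α t x Wa Wb R i)) :
    Nr57 c α (par57 α t (sinv x) (X 0) (X 1)) (eps57 m i0 (X 2)) :=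
  ⟨par_na57 (hX 0) (hX 1), eps_big57 hm i0 (X57_un hR ha hb hc (hX 2))⟩

theorem phi_ball57 (hc : 0 < c) (h1 : t :: T = T' ++ [x]) (h2 : s :: S = S' ++ [y])
    (a1 : Adm57 α (t :: T)) (a2 : Adm57 α (s :: S)) (hts : α t = α s)
    (hxy : α (sinv x) = α (sinv y)) (hm : ∀ i, Big57 c (m i)) (hR : R ≠ 0)
    (ha : Adm57 α Wa) (hb : Adm57 α Wb) (hane : Wa ≠ []) (hbne : Wb ≠ [])
    {X : Fin 3 → HahnSeries ℝ F} (hX : ∀ i, Cg57 c (X i) (X57 F α t x Wa Wb R i)) (i : Fin 3) :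
    Cg57 c (Phi57 α t x s y (t :: T) (s :: S) Wa Wb m i0 R X i) (X57 F α t x Wa Wb R i) := by
  have N := nr57 (i0 := i0) hc hm hR ha hb hX
  set f := lt57 (par57 α t (sinv x) (X 0) (X 1)) (eps57 m i0 (X 2)) with hf
  have L1 := (N.li hc a1).1
  have L2 := (N.li hc a2).1
  have p1 := (Li31.al (l := T.map f) (p := f t) L1 hc).2
  have p2 := (Li31.al (l := S.map f) (p := f s) L2 hc).2
  have e1 : (t :: T).map f = T'.map f ++ [f x] := by rw [h1, List.map_append]; rfl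
  have e2 : (s :: S).map f = S'.map f ++ [f y] := by rw [h2, List.map_append]; rfl
  have q1 := (Li31.de (l := T'.map f) (p := f x) (by rw [← e1]; exact L1) hc).2
  have q2 := (Li31.de (l := S'.map f) (p := f y) (by rw [← e2]; exact L2) hc).2
  rw [← e1] at q1
  rw [← e2] at q2
  have r0 : Cg57 c (Phi57 α t x s y (t :: T) (s :: S) Wa Wb m i0 R X 0)
      (C ((α t : ℤ) : F)) := by
    rw [cg57_iff_big, hts]
    have e3 : Phi57 α t x s y (t :: T) (s :: S) Wa Wb m i0 R X 0 - C ((α s : ℤ) : F) =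
      (pm31 ((s :: S).map f) 0 0 / pm31 ((s :: S).map f) 1 0 - (f s).1)
      - (pm31 ((t :: T).map f) 0 0 / pm31 ((t :: T).map f) 1 0 - (f t).1) := by
      simp only [Phi57, cons_val_zero]
      ring
    rw [e3]
    exact p2.sub p1
  have r1 : Cg57 c (Phi57 α t x s y (t :: T) (s :: S) Wa Wb m i0 R X 1)
      (C ((α (sinv x) : ℤ) : F)) := by
    rw [cg57_iff_big, hxy]
    have e3 : Phi57 α t x s y (t :: T) (s :: S) Wa Wb m i0 R X 1 - C ((α (sinv y) : ℤ) : F) =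
      (pm31 ((t :: T).map f) 1 1 / pm31 ((t :: T).map f) 1 0 - (f x).2.1)
      - (pm31 ((s :: S).map f) 1 1 / pm31 ((s :: S).map f) 1 0 - (f y).2.1) := by
      simp only [Phi57, cons_val_one, cons_val_zero]
      ring
    rw [e3]
    exact q1.sub q2
  have N' : Nr57 c α (par57 α t (sinv x) (Phi57 α t x s y (t :: T) (s :: S) Wa Wb m i0 R X 0)
      (Phi57 α t x s y (t :: T) (s :: S) Wa Wb m i0 R X 1)) (eps57 m i0 (X 2)) :=
    ⟨par_na57 r0 r1, eps_big57 hm i0 (X57_un hR ha hb hc (hX 2))⟩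
  obtain ⟨ua, ca⟩ := N'.cg hc ha hane
  obtain ⟨ub, cb⟩ := N'.cg hc hb hbne
  have ka : ((kz57 α Wa : ℤ) : F) ≠ 0 := by exact_mod_cast ha.kz
  fin_cases i
  · exact r0
  · exact r1
  · have e4 : Phi57 α t x s y (t :: T) (s :: S) Wa Wb m i0 R X 2 =
        C R * (g31 (Wb.map (lt57 (par57 α t (sinv x)
          (Phi57 α t x s y (t :: T) (s :: S) Wa Wb m i0 R X 0)
          (Phi57 α t x s y (t :: T) (s :: S) Wa Wb m i0 R X 1)) (eps57 m i0 (X 2)))) *
          (g31 (Wa.map (lt57 (par57 α t (sinv x)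
          (Phi57 α t x s y (t :: T) (s :: S) Wa Wb m i0 R X 0)
          (Phi57 α t x s y (t :: T) (s :: S) Wa Wb m i0 R X 1)) (eps57 m i0 (X 2)))))⁻¹) := rfl
    show Cg57 c (Phi57 α t x s y (t :: T) (s :: S) Wa Wb m i0 R X 2)
      (C (R * (((kz57 α Wb : ℤ) : F) * ((kz57 α Wa : ℤ) : F)⁻¹)))
    rw [e4, map_mul, map_mul, map_inv₀]
    have h3 := cb.mul (ca.inv ua (un57_C ka)) ua.inv.big (big57_C _)
    have h4 := h3.mul_left (s := 0) (big57_C R)
    rwa [add_zero] at h4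

theorem phi_lip57 (hc : 0 < c) (h1 : t :: T = T' ++ [x]) (h2 : s :: S = S' ++ [y])
    (a1 : Adm57 α (t :: T)) (a2 : Adm57 α (s :: S)) (hts : α t = α s)
    (hxy : α (sinv x) = α (sinv y)) (hm : ∀ i, Big57 c (m i)) (hR : R ≠ 0)
    (ha : Adm57 α Wa) (hb : Adm57 α Wb) (hane : Wa ≠ []) (hbne : Wb ≠ [])
    {X Y : Fin 3 → HahnSeries ℝ F} (hX : ∀ i, Cg57 c (X i) (X57 F α t x Wa Wb R i))
    (hY : ∀ i, Cg57 c (Y i) (X57 F α t x Wa Wb R i)) {r : ℝ} (hr : c ≤ r)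
    (hXY : ∀ i, Cg57 r (X i) (Y i)) (i : Fin 3) :
    Cg57 (r + c) (Phi57 α t x s y (t :: T) (s :: S) Wa Wb m i0 R X i)
      (Phi57 α t x s y (t :: T) (s :: S) Wa Wb m i0 R Y i) := by
  have hr0 : 0 < r := hc.trans_le hr
  have N := nr57 (i0 := i0) hc hm hR ha hb hX
  have M := nr57 (i0 := i0) hc hm hR ha hb hY
  have uX : Un57 (X 2) := X57_un hR ha hb hc (hX 2)
  have uY : Un57 (Y 2) := X57_un hR ha hb hc (hY 2)
  set f := lt57 (par57 α t (sinv x) (X 0) (X 1)) (eps57 m i0 (X 2)) with hf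
  set f' := lt57 (par57 α t (sinv x) (Y 0) (Y 1)) (eps57 m i0 (Y 2)) with hf'
  have la : ∀ z, Cg57 r (f z).1 (f' z).1 := par_lip57 (hXY 0) (hXY 1)
  have ld : ∀ z, Cg57 r (f z).2.1 (f' z).2.1 := fun z =>
    (par_lip57 (α := α) (t := t) (x' := sinv x) (hXY 0) (hXY 1) (sinv z)).neg
  have le : ∀ z, Cg57 (r + c) (f z).2.2 (f' z).2.2 := fun z => eps_lip57 hm i0 uX uY (hXY 2) z.1
  have L1 := (N.li hc a1).1
  have L2 := (N.li hc a2).1
  have K1 := (M.li hc a1).1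
  have K2 := (M.li hc a2).1
  have p1 := al_map_lip31 (f := f) (f' := f') (x := t) (W := T) hc L1 K1 (fun z _ => la z)
    (fun z _ => ld z) (fun z _ => le z)
  have p2 := al_map_lip31 (f := f) (f' := f') (x := s) (W := S) hc L2 K2 (fun z _ => la z)
    (fun z _ => ld z) (fun z _ => le z)
  have q1 := de_map_lip31 (f := f) (f' := f') (x := x) (W := T') hc (by rw [← h1]; exact L1)
    (by rw [← h1]; exact K1) (fun z _ => la z) (fun z _ => ld z) (fun z _ => le z)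
  have q2 := de_map_lip31 (f := f) (f' := f') (x := y) (W := S') hc (by rw [← h2]; exact L2)
    (by rw [← h2]; exact K2) (fun z _ => la z) (fun z _ => ld z) (fun z _ => le z)
  rw [← h1] at q1
  rw [← h2] at q2
  have r0 : Cg57 (r + c) (Phi57 α t x s y (t :: T) (s :: S) Wa Wb m i0 R X 0)
      (Phi57 α t x s y (t :: T) (s :: S) Wa Wb m i0 R Y 0) :=
    (((Cg57.refl (r + c) (C ((α s : ℤ) : F))).add p2).sub p1)
  have r1 : Cg57 (r + c) (Phi57 α t x s y (t :: T) (s :: S) Wa Wb m i0 R X 1)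
      (Phi57 α t x s y (t :: T) (s :: S) Wa Wb m i0 R Y 1) :=
    (((Cg57.refl (r + c) (C ((α (sinv y) : ℤ) : F))).add q1).sub q2)
  have bX := fun j => phi_ball57 (i0 := i0) hc h1 h2 a1 a2 hts hxy hm hR ha hb hane hbne hX j
  have bY := fun j => phi_ball57 (i0 := i0) hc h1 h2 a1 a2 hts hxy hm hR ha hb hane hbne hY j
  set x0 := Phi57 α t x s y (t :: T) (s :: S) Wa Wb m i0 R X 0 with hx0
  set x1 := Phi57 α t x s y (t :: T) (s :: S) Wa Wb m i0 R X 1 with hx1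
  set y0 := Phi57 α t x s y (t :: T) (s :: S) Wa Wb m i0 R Y 0 with hy0
  set y1 := Phi57 α t x s y (t :: T) (s :: S) Wa Wb m i0 R Y 1 with hy1
  have N' : Nr57 c α (par57 α t (sinv x) x0 x1) (eps57 m i0 (X 2)) :=
    ⟨par_na57 (bX 0) (bX 1), eps_big57 hm i0 uX⟩
  have M' : Nr57 c α (par57 α t (sinv x) y0 y1) (eps57 m i0 (Y 2)) :=
    ⟨par_na57 (bY 0) (bY 1), eps_big57 hm i0 uY⟩
  have la' : ∀ z, Cg57 (r + c) (lt57 (par57 α t (sinv x) x0 x1) (eps57 m i0 (X 2)) z).1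
      (lt57 (par57 α t (sinv x) y0 y1) (eps57 m i0 (Y 2)) z).1 := par_lip57 r0 r1
  have ld' : ∀ z, Cg57 (r + c) (lt57 (par57 α t (sinv x) x0 x1) (eps57 m i0 (X 2)) z).2.1
      (lt57 (par57 α t (sinv x) y0 y1) (eps57 m i0 (Y 2)) z).2.1 := fun z =>
    (par_lip57 (α := α) (t := t) (x' := sinv x) r0 r1 (sinv z)).neg
  have le' : ∀ z, Cg57 (r + c) (lt57 (par57 α t (sinv x) x0 x1) (eps57 m i0 (X 2)) z).2.2
      (lt57 (par57 α t (sinv x) y0 y1) (eps57 m i0 (Y 2)) z).2.2 := fun z =>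
    eps_lip57 hm i0 uX uY (hXY 2) z.1
  have ga := g31_map_lip (r := r + c) hc (N'.li hc ha).1 (M'.li hc ha).1 (fun z _ => la' z)
    (fun z _ => ld' z) (fun z _ => le' z)
  have gb := g31_map_lip (r := r + c) hc (N'.li hc hb).1 (M'.li hc hb).1 (fun z _ => la' z)
    (fun z _ => ld' z) (fun z _ => le' z)
  obtain ⟨ua, -⟩ := N'.cg hc ha hane
  obtain ⟨ua', -⟩ := M'.cg hc ha hane
  obtain ⟨ub, -⟩ := N'.cg hc hb hbne
  obtain ⟨ub', -⟩ := M'.cg hc hb hbne
  fin_cases i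
  · exact r0
  · exact r1
  · have h3 := gb.mul (ga.inv ua ua') ua.inv.big ub'.big
    have h4 := h3.mul_left (s := 0) (big57_C R)
    rw [add_zero] at h4
    exact h4

end phi

end Pool.Agent.Lib.MP_e3aa0a_gt.FVL
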