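import Pool.Agent.Lib.MP_e3aa0a_gt.FVL.Ex57b

/-!
# FVR, module Ex57c: the labels with equal row products and their values
-/

set_option autoImplicit false

namespace Pool.Agent.Lib.MP_e3aa0a_gt.FVL

open Pool.Agent.Lib.FVol Matrix HahnSeries

section cu

variable {F : Type*} [Field F]

theorem Un57.order {y : HahnSeries ℝ F} (h : Un57 y) : y.order = 0 := by
  have h4 := order_eq_orderTop_of_ne_zero h.ne_zero
  rw [h] at h4
  exact_mod_cast h4

theorem cu_of_cg57 {c : ℝ} (hc : 0 < c) {q : ℚ} (hq : (q : F) ≠ 0) {y : HahnSeries ℝ F}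
    (h : Cg57 c y (C (q : F))) : Cu57 y := by
  have hu : Un57 y := (un57_C hq).congr hc h
  refine ⟨q, ?_, hu.ne_zero, hu.order, ?_⟩
  · rintro rfl
    exact hq (by simp)
  · rw [leadingCoeff_eq, hu.order, cg57_iff.1 h 0 hc, C_apply, coeff_single_same]

theorem cu_one57 : Cu57 (1 : HahnSeries ℝ F) := ⟨1, one_ne_zero, one_ne_zero, order_one, by simp⟩

theorem Cu57.mul [CharZero F] {y z : HahnSeries ℝ F} (h : Cu57 y) (h' : Cu57 z) : Cu57 (y * z) := by
  obtain ⟨q, h1, h2, h3, h4⟩ := h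
  obtain ⟨q', h1', h2', h3', h4'⟩ := h'
  refine ⟨q * q', mul_ne_zero h1 h1', mul_ne_zero h2 h2', ?_, ?_⟩
  · rw [order_mul h2 h2', h3, h3', add_zero]
  · rw [leadingCoeff_mul, h4, h4']
    push_cast
    rfl

theorem Cu57.inv [CharZero F] {y : HahnSeries ℝ F} (h : Cu57 y) : Cu57 y⁻¹ := by
  obtain ⟨q, h1, h2, h3, h4⟩ := h
  have h5 : y * y⁻¹ = 1 := mul_inv_cancel₀ h2
  have h6 : (y * y⁻¹).order = 0 := by rw [h5, order_one]
  rw [order_mul h2 (inv_ne_zero h2), h3, zero_add] at h6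
  have h7 : (y * y⁻¹).leadingCoeff = 1 := by rw [h5, leadingCoeff_one]
  rw [leadingCoeff_mul, h4] at h7
  refine ⟨q⁻¹, inv_ne_zero h1, inv_ne_zero h2, h6, ?_⟩
  rw [Rat.cast_inv]
  exact eq_inv_of_mul_eq_one_right h7

theorem Cu57.pow [CharZero F] {y : HahnSeries ℝ F} (h : Cu57 y) (n : ℕ) : Cu57 (y ^ n) := by
  induction n with
  | zero =>
    rw [pow_zero]
    exact cu_one57
  | succ n ih =>
    rw [pow_succ]
    exact ih.mul h

end cu

section sol

variable {A : Type*} {F : Type*} [Field F] [DecidableEq A] [CharZero F] {c : ℝ}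
  {α : A × Bool → ℤ} {t x s y : A × Bool}
  {T T' S S' Wa Wb : List (A × Bool)} {m : A → HahnSeries ℝ F} {i0 : A} {R : F}

/-- **Solution of the three equations.** -/
theorem sol57 (hc : 0 < c) (h1 : t :: T = T' ++ [x]) (h2 : s :: S = S' ++ [y])
    (a1 : Adm57 α (t :: T)) (a2 : Adm57 α (s :: S)) (hts : α t = α s)
    (hxy : α (sinv x) = α (sinv y)) (hm : ∀ i, Big57 c (m i)) (hR : R ≠ 0)
    (ha : Adm57 α Wa) (hb : Adm57 α Wb) (hane : Wa ≠ []) (hbne : Wb ≠ [])
    (n1 : s ≠ t) (n2 : s ≠ sinv x) (n3 : sinv y ≠ t) (n4 : sinv y ≠ sinv x)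
    (n5 : sinv x ≠ t) :
    ∃ (a : A × Bool → HahnSeries ℝ F) (z : HahnSeries ℝ F), Nr57 c α a (eps57 m i0 z) ∧
      Un57 z ∧ Cg57 c z (C (R * (((kz57 α Wb : ℤ) : F) * ((kz57 α Wa : ℤ) : F)⁻¹))) ∧
      pm31 ((t :: T).map (lt57 a (eps57 m i0 z))) 0 0 /
          pm31 ((t :: T).map (lt57 a (eps57 m i0 z))) 1 0 =
        pm31 ((s :: S).map (lt57 a (eps57 m i0 z))) 0 0 /
          pm31 ((s :: S).map (lt57 a (eps57 m i0 z))) 1 0 ∧
      pm31 ((t :: T).map (lt57 a (eps57 m i0 z))) 1 1 /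
          pm31 ((t :: T).map (lt57 a (eps57 m i0 z))) 1 0 =
        pm31 ((s :: S).map (lt57 a (eps57 m i0 z))) 1 1 /
          pm31 ((s :: S).map (lt57 a (eps57 m i0 z))) 1 0 ∧
      z * g31 (Wa.map (lt57 a (eps57 m i0 z))) = C R * g31 (Wb.map (lt57 a (eps57 m i0 z))) := by
  obtain ⟨X, hX, hfix⟩ := fix57 (Phi57 α t x s y (t :: T) (s :: S) Wa Wb m i0 R)
    (X57 F α t x Wa Wb R) hc
    (fun X hX i => phi_ball57 hc h1 h2 a1 a2 hts hxy hm hR ha hb hane hbne hX i)
    (fun X Y hX hY r hr hXY i =>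
      phi_lip57 hc h1 h2 a1 a2 hts hxy hm hR ha hb hane hbne hX hY hr hXY i)
  have N := nr57 (i0 := i0) hc hm hR ha hb hX
  have uX : Un57 (X 2) := X57_un hR ha hb hc (hX 2)
  have f0 := congrFun hfix 0
  have f1 := congrFun hfix 1
  have f2 := congrFun hfix 2
  refine ⟨par57 α t (sinv x) (X 0) (X 1), X 2, N, uX, hX 2, ?_, ?_, ?_⟩
  · have e1 : (lt57 (par57 α t (sinv x) (X 0) (X 1)) (eps57 m i0 (X 2)) t).1 = X 0 := by
      simp [lt57, par57]
    have e2 : (lt57 (par57 α t (sinv x) (X 0) (X 1)) (eps57 m i0 (X 2)) s).1 =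
        C ((α s : ℤ) : F) := by
      simp only [lt57, par57, if_neg n1, if_neg n2]
    simp only [Phi57, cons_val_zero] at f0
    rw [e1, e2] at f0
    linear_combination -f0
  · have e1 : (lt57 (par57 α t (sinv x) (X 0) (X 1)) (eps57 m i0 (X 2)) x).2.1 = -X 1 := by
      simp only [lt57, par57, if_neg n5, if_true]
    have e2 : (lt57 (par57 α t (sinv x) (X 0) (X 1)) (eps57 m i0 (X 2)) y).2.1 =
        -C ((α (sinv y) : ℤ) : F) := by
      simp only [lt57, par57, if_neg n3, if_neg n4]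
    simp only [Phi57, cons_val_one, cons_val_zero] at f1
    rw [e1, e2] at f1
    linear_combination f1
  · have g2 : X 2 = C R * (g31 (Wb.map (lt57 (par57 α t (sinv x)
        (Phi57 α t x s y (t :: T) (s :: S) Wa Wb m i0 R X 0)
        (Phi57 α t x s y (t :: T) (s :: S) Wa Wb m i0 R X 1)) (eps57 m i0 (X 2)))) *
        (g31 (Wa.map (lt57 (par57 α t (sinv x)
        (Phi57 α t x s y (t :: T) (s :: S) Wa Wb m i0 R X 0)
        (Phi57 α t x s y (t :: T) (s :: S) Wa Wb m i0 R X 1)) (eps57 m i0 (X 2)))))⁻¹) := f2.symm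
    rw [f0, f1] at g2
    have hne := (N.cg hc ha hane).1.ne_zero
    generalize g31 (Wa.map (lt57 (par57 α t (sinv x) (X 0) (X 1)) (eps57 m i0 (X 2)))) = ga at *
    generalize g31 (Wb.map (lt57 (par57 α t (sinv x) (X 0) (X 1)) (eps57 m i0 (X 2)))) = gb at *
    rw [g2]
    field_simp

end sol

section scal

variable {A : Type*} {K : Type*} [Field K] [DecidableEq A]

/-- the product over the negative letters -/
def nm57 {M : Type*} [CommMonoid M] (m : A → M) (W : List (A × Bool)) : M :=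
  (W.map fun x => if x.2 then 1 else m x.1).prod

/-- the number of negative letters -/
def nn57 (W : List (A × Bool)) : ℕ := W.countP fun x => !x.2

omit [DecidableEq A] in
theorem sc_prod57 (m : A → K) (W : List (A × Bool)) :
    (W.map (sc57 m)).prod = (-1) ^ nn57 W * (nm57 m W)⁻¹ := by
  induction W with
  | nil => simp [nn57, nm57]
  | cons x W ih =>
    rcases x with ⟨i, b⟩
    rw [List.map_cons, List.prod_cons, ih]
    cases b
    · simp only [sc57, nn57, nm57, Bool.false_eq_true, if_false, List.countP_cons, Bool.not_false,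
        if_true, List.map_cons, List.prod_cons, pow_succ, mul_inv]
      ring
    · simp [sc57, nn57, nm57]

theorem sc_eps57 {F : Type*} [Field F] (m : A → HahnSeries ℝ F) (i0 : A) (z : HahnSeries ℝ F)
    (W : List (A × Bool)) :
    (W.map (sc57 (eps57 m i0 z))).prod = z ^ occ (i0, false) W * (W.map (sc57 m)).prod := by
  induction W with
  | nil => simp
  | cons x W ih =>
    rcases x with ⟨i, b⟩
    rw [List.map_cons, List.prod_cons, ih, List.map_cons, List.prod_cons, occ_cons]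
    cases b
    · by_cases hi : i = i0
      · subst hi
        simp only [sc57, eps57, Bool.false_eq_true, if_false, if_true, mul_inv, inv_inv, pow_succ]
        ring
      · have h1 : ¬ ((i, false) = (i0, false)) := fun h => hi (congrArg Prod.fst h)
        simp only [sc57, eps57, Bool.false_eq_true, if_false, if_neg hi, if_neg h1, add_zero]
        ring
    · have h1 : ¬ ((i, true) = (i0, false)) := fun h => by
        have := congrArg Prod.snd h
        simp at this
      simp only [sc57, if_true, if_neg h1, add_zero]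
      ring

theorem prod_eps57 {F : Type*} [Field F] (m : A → HahnSeries ℝ F) (i0 : A) (z : HahnSeries ℝ F)
    (W : List (A × Bool)) :
    ∃ k : ℕ, (W.map fun x => eps57 m i0 z x.1).prod = (z⁻¹) ^ k * (W.map fun x => m x.1).prod := by
  induction W with
  | nil => exact ⟨0, by simp⟩
  | cons x W ih =>
    obtain ⟨k, hk⟩ := ih
    by_cases hi : x.1 = i0
    · refine ⟨k + 1, ?_⟩
      rw [List.map_cons, List.prod_cons, hk, List.map_cons, List.prod_cons, eps57, if_pos hi]
      ring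
    · refine ⟨k, ?_⟩
      rw [List.map_cons, List.prod_cons, hk, List.map_cons, List.prod_cons, eps57, if_neg hi]
      ring

end scal

/-- two matrices with the same quotients, the same determinant and the same lower left entry -/
theorem mat_eq57 {K : Type*} [Field K] {M N P Q : Matrix (Fin 2) (Fin 2) K} {u v : K}
    (hM : M = u • P) (hN : N = v • Q) (hP : P 1 0 ≠ 0) (hQ : Q 1 0 ≠ 0) (hu : u ≠ 0)
    (h1 : P 0 0 / P 1 0 = Q 0 0 / Q 1 0) (h2 : P 1 1 / P 1 0 = Q 1 1 / Q 1 0)
    (h3 : u * P 1 0 = v * Q 1 0) (hd : M.det = N.det) : M = N := by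
  have m10 : M 1 0 = N 1 0 := by rw [hM, hN]; exact h3
  have m10' : M 1 0 ≠ 0 := by
    rw [hM]
    exact mul_ne_zero hu hP
  have m00 : M 0 0 = N 0 0 := by
    rw [hM, hN]
    show u * P 0 0 = v * Q 0 0
    have e1 : u * P 0 0 = u * P 1 0 * (P 0 0 / P 1 0) := by field_simp
    have e2 : v * Q 0 0 = v * Q 1 0 * (Q 0 0 / Q 1 0) := by field_simp
    rw [e1, e2, h1, h3]
  have m11 : M 1 1 = N 1 1 := by
    rw [hM, hN]
    show u * P 1 1 = v * Q 1 1
    have e1 : u * P 1 1 = u * P 1 0 * (P 1 1 / P 1 0) := by field_simp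
    have e2 : v * Q 1 1 = v * Q 1 0 * (Q 1 1 / Q 1 0) := by field_simp
    rw [e1, e2, h2, h3]
  have m01 : M 0 1 = N 0 1 := by
    rw [det_fin_two, det_fin_two, m00, m11, m10] at hd
    rw [m10] at m10'
    have : M 0 1 * N 1 0 = N 0 1 * N 1 0 := by linear_combination -hd
    exact mul_right_cancel₀ m10' this
  ext i j
  fin_cases i <;> fin_cases j
  · exact m00
  · exact m01
  · exact m10
  · exact m11

end Pool.Agent.Lib.MP_e3aa0a_gt.FVL
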