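import Pool.Agent.Lib.MP_e3aa0a_gt.FVL.Ex57c

/-!
# FVR, module Ex57d: existence of the labels for a pair of words with a flip letter
-/

set_option autoImplicit false

namespace Pool.Agent.Lib.MP_e3aa0a_gt.FVL

open Pool.Agent.Lib.FVol Matrix HahnSeries

section single

variable {A : Type*} {F : Type*} [Field F]

theorem prod_single57 (lam : A → ℝ) (sg : A → F) (W : List (A × Bool)) :
    (W.map fun x => (single (lam x.1) (sg x.1) : HahnSeries ℝ F)).prod =
      single (sm57 lam W) ((W.map fun x => sg x.1).prod) := by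
  induction W with
  | nil => simp [sm57]
  | cons x W ih =>
    rw [List.map_cons, List.prod_cons, ih, single_mul_single]
    simp [sm57]

theorem nm_single57 (lam : A → ℝ) (sg : A → F) (W : List (A × Bool)) :
    nm57 (fun i => (single (lam i) (sg i) : HahnSeries ℝ F)) W =
      single (ng57 lam W) (nm57 sg W) := by
  induction W with
  | nil => simp [ng57, nm57]
  | cons x W ih =>
    unfold nm57 ng57 at *
    rw [List.map_cons, List.prod_cons, ih]
    rcases x with ⟨i, b⟩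
    cases b
    · simp only [Bool.false_eq_true, if_false, List.map_cons, List.prod_cons, List.sum_cons,
        single_mul_single]
    · simp only [if_true, List.map_cons, List.prod_cons, List.sum_cons, one_mul, zero_add]

/-- the values of the label of a word, up to constants and a scalar -/
def Val57 (lam : A → ℝ) (sg : A → F) (W : List (A × Bool))
    (g : GL (Fin 2) (HahnSeries ℝ F)) : Prop :=
  ∃ u y z : HahnSeries ℝ F, u ≠ 0 ∧ Cu57 y ∧ Cu57 z ∧
    (g : Matrix (Fin 2) (Fin 2) (HahnSeries ℝ F)) 1 0 = u * y ∧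
    (g : Matrix (Fin 2) (Fin 2) (HahnSeries ℝ F)).det =
      u ^ 2 * z * single (sm57 lam W) ((W.map fun x => sg x.1).prod)

end single

section core

variable {A : Type*} {F : Type*} [Field F] [Fintype A] [DecidableEq A] [CharZero F]
  {α : A × Bool → ℤ} {t x s y : A × Bool}
  {T T' S S' Wa Wb : List (A × Bool)} {lam : A → ℝ} {sg : A → F} {i0 : A}

theorem core57 (hpos : ∀ a, 0 < lam a) (hsg : ∀ a, sg a ≠ 0)
    (h1 : t :: T = T' ++ [x]) (h2 : s :: S = S' ++ [y])
    (a1 : Adm57 α (t :: T)) (a2 : Adm57 α (s :: S)) (hts : α t = α s)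
    (hxy : α (sinv x) = α (sinv y))
    (n1 : s ≠ t) (n2 : s ≠ sinv x) (n3 : sinv y ≠ t) (n4 : sinv y ≠ sinv x)
    (n5 : sinv x ≠ t)
    (hs : ∀ z, (occ z (t :: T) : ℤ) - occ (sinv z) (t :: T) = occ z (s :: S) - occ (sinv z) (s :: S))
    (hlam : sm57 lam (t :: T) = sm57 lam (s :: S))
    (hneg : nm57 sg (t :: T) = nm57 sg (s :: S))
    (hab : (Wa = t :: T ∧ Wb = s :: S) ∨ (Wa = s :: S ∧ Wb = t :: T))
    (o1 : occ (i0, false) Wa = 1) (o2 : occ (i0, false) Wb = 0) :
    ∃ f : A → GL (Fin 2) (HahnSeries ℝ F), wpr f (t :: T) = wpr f (s :: S) ∧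
      ∀ W, Adm57 α W → W ≠ [] → Val57 lam sg W (wpr f W) := by
  have : Nonempty A := ⟨i0⟩
  obtain ⟨j, -, hj⟩ := Finset.exists_min_image Finset.univ lam Finset.univ_nonempty
  have hc : 0 < lam j := hpos j
  set m : A → HahnSeries ℝ F := fun i => single (lam i) (sg i) with hmdef
  have hm : ∀ i, Big57 (lam j) (m i) := by
    intro i
    unfold Big57
    rw [hmdef, orderTop_single (hsg i)]
    exact_mod_cast hj i (Finset.mem_univ i)
  have hm0 : ∀ i, m i ≠ 0 := fun i => by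
    rw [hmdef]
    exact single_ne_zero (hsg i)
  have ha : Adm57 α Wa := by
    rcases hab with ⟨h, -⟩ | ⟨h, -⟩
    · rw [h]; exact a1
    · rw [h]; exact a2
  have hb : Adm57 α Wb := by
    rcases hab with ⟨-, h⟩ | ⟨-, h⟩
    · rw [h]; exact a2
    · rw [h]; exact a1
  have hane : Wa ≠ [] := by
    rcases hab with ⟨h, -⟩ | ⟨h, -⟩ <;> rw [h] <;> exact List.cons_ne_nil _ _
  have hbne : Wb ≠ [] := by
    rcases hab with ⟨-, h⟩ | ⟨-, h⟩ <;> rw [h] <;> exact List.cons_ne_nil _ _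
  have hR : ((-1 : F)) ^ (nn57 Wa + nn57 Wb) ≠ 0 := pow_ne_zero _ (neg_ne_zero.2 one_ne_zero)
  obtain ⟨a, z, N, uz, cz, q1, q2, q3⟩ := sol57 (i0 := i0) (R := (-1 : F) ^ (nn57 Wa + nn57 Wb))
    hc h1 h2 a1 a2 hts hxy hm hR ha hb hane hbne n1 n2 n3 n4 n5
  have hz : Cu57 z := by
    have e1 : (-1 : F) ^ (nn57 Wa + nn57 Wb) * (((kz57 α Wb : ℤ) : F) * ((kz57 α Wa : ℤ) : F)⁻¹)
        = (((-1 : ℚ) ^ (nn57 Wa + nn57 Wb) * ((kz57 α Wb : ℚ) * (kz57 α Wa : ℚ)⁻¹) : ℚ) : F) := by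
      push_cast
      ring
    have k1 : ((kz57 α Wb : ℤ) : F) ≠ 0 := by exact_mod_cast hb.kz
    have k2 : ((kz57 α Wa : ℤ) : F) ≠ 0 := by exact_mod_cast ha.kz
    rw [e1] at cz
    refine cu_of_cg57 hc ?_ cz
    rw [← e1]
    exact mul_ne_zero hR (mul_ne_zero k1 (inv_ne_zero k2))
  have he : ∀ i, eps57 m i0 z i ≠ 0 := by
    intro i
    unfold eps57
    split_ifs
    · exact mul_ne_zero (hm0 i) (inv_ne_zero uz.ne_zero)
    · exact hm0 i
  have hsc : ∀ W : List (A × Bool), (W.map (sc57 (eps57 m i0 z))).prod ≠ 0 := by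
    intro W
    rw [sc_eps57, sc_prod57]
    refine mul_ne_zero (pow_ne_zero _ uz.ne_zero) (mul_ne_zero (pow_ne_zero _
      (neg_ne_zero.2 one_ne_zero)) (inv_ne_zero ?_))
    unfold nm57
    refine List.prod_ne_zero ?_
    intro h0
    obtain ⟨w, -, hw⟩ := List.mem_map.1 h0
    split_ifs at hw
    · exact one_ne_zero hw
    · exact hm0 _ hw
  refine ⟨gl57 a he, ?_, ?_⟩
  · refine Units.ext ?_
    have c1 := N.cg hc a1 (List.cons_ne_nil _ _)
    have c2 := N.cg hc a2 (List.cons_ne_nil _ _)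
    refine mat_eq57 (wpr_gl57 a he (t :: T)) (wpr_gl57 a he (s :: S)) ?_ ?_ (hsc _) q1 q2 ?_ ?_
    · rw [pm31_one_zero]
      exact c1.1.ne_zero
    · rw [pm31_one_zero]
      exact c2.1.ne_zero
    · rw [pm31_one_zero, pm31_one_zero]
      have hq : nm57 m (t :: T) = nm57 m (s :: S) := by
        rw [hmdef, nm_single57, nm_single57, hneg, ng_eq57 lam hs hlam]
      have hC : (C ((-1 : F) ^ (nn57 Wa + nn57 Wb)) : HahnSeries ℝ F) =
          (-1) ^ (nn57 Wa + nn57 Wb) := by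
        rw [map_pow, map_neg, map_one]
      rw [hC] at q3
      rw [sc_eps57, sc_eps57, sc_prod57, sc_prod57, hq]
      have hpm : ∀ n : ℕ, ((-1 : HahnSeries ℝ F)) ^ n * (-1) ^ n = 1 := fun n => by
        rw [← mul_pow]
        simp
      rcases hab with ⟨e1, e2⟩ | ⟨e1, e2⟩
      · rw [e1] at o1 q3
        rw [e2] at o2 q3
        rw [o1, o2, pow_one, pow_zero]
        rw [_root_.pow_add] at q3
        linear_combination ((-1) ^ nn57 (t :: T) * (nm57 m (s :: S))⁻¹) * q3 +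
          ((nm57 m (s :: S))⁻¹ * (-1) ^ nn57 (s :: S) * g31 ((s :: S).map (lt57 a (eps57 m i0 z))))
            * hpm (nn57 (t :: T))
      · rw [e1] at o1 q3
        rw [e2] at o2 q3
        rw [o1, o2, pow_one, pow_zero]
        rw [_root_.pow_add] at q3
        linear_combination -((-1) ^ nn57 (s :: S) * (nm57 m (s :: S))⁻¹) * q3 -
          ((nm57 m (s :: S))⁻¹ * (-1) ^ nn57 (t :: T) * g31 ((t :: T).map (lt57 a (eps57 m i0 z))))
            * hpm (nn57 (s :: S))
    · exact det_wpr_eq57 (gl57 a he) hs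
  · intro W hW hne
    obtain ⟨l1, l2⟩ := N.li hc hW
    have hne' : W.map (lt57 a (eps57 m i0 z)) ≠ [] := by simpa using hne
    obtain ⟨k, hk⟩ := prod_eps57 m i0 z W
    refine ⟨(W.map (sc57 (eps57 m i0 z))).prod, g31 (W.map (lt57 a (eps57 m i0 z))), z⁻¹ ^ k,
      hsc W, ?_, hz.inv.pow k, ?_, ?_⟩
    · have k1 : ((kz57 α W : ℤ) : F) ≠ 0 := by exact_mod_cast hW.kz
      have h5 := (N.cg hc hW hne).2
      have e1 : ((kz57 α W : ℤ) : F) = (((kz57 α W : ℤ) : ℚ) : F) := by push_cast; rfl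
      rw [e1] at h5 k1
      exact cu_of_cg57 hc k1 h5
    · rw [wpr_gl57, ← pm31_one_zero]
      rfl
    · rw [wpr_gl57, det_smul, Fintype.card_fin, det_pm31, List.map_map]
      have e2 : (W.map ((fun p => p.2.2) ∘ lt57 a (eps57 m i0 z))).prod =
          (W.map fun x => eps57 m i0 z x.1).prod := rfl
      rw [e2, hk, hmdef, prod_single57]
      ring

end core

end Pool.Agent.Lib.MP_e3aa0a_gt.FVL
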