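import Pool.Agent.Lib.MP_e3aa0a_gt.FVL.Defs29

/-!
# FVL29, existence of the representation in the orientable case

Every letter occurs once in each row.  All labels lie in one torus.
-/

set_option autoImplicit false

namespace Pool.Agent.Lib.MP_e3aa0a_gt.FVL.Ori14

open Pool.Agent.Lib.FVol Pool.Agent.Lib.MP_e3aa0a_gt.FVL Matrix

/-- the element `t^r s^(-z)` -/
noncomputable def mono (r : ℝ) (z : ℤ) : K29 :=
  HahnSeries.single r ((RatFunc.X : RatFunc ℚ) ^ (-z))

theorem mono_mul (r r' : ℝ) (z z' : ℤ) : mono r z * mono r' z' = mono (r + r') (z + z') := by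
  unfold mono
  rw [HahnSeries.single_mul_single, ← zpow_add₀ RatFunc.X_ne_zero]
  congr 2
  ring

theorem mono_zero : mono 0 0 = 1 := by
  unfold mono
  simp

theorem mono_ne (r : ℝ) (z : ℤ) : mono r z ≠ 0 := by
  unfold mono
  rw [Ne, HahnSeries.single_eq_zero_iff]
  exact zpow_ne_zero _ RatFunc.X_ne_zero

/-- the torus: the matrix `g₀⁻¹ diag(T, T⁻¹) g₀` with `g₀ = (1 0; 1 1)` -/
noncomputable def tm (r : ℝ) (z : ℤ) : Matrix (Fin 2) (Fin 2) K29 :=
  !![mono r z, 0; mono (-r) (-z) - mono r z, mono (-r) (-z)]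

theorem tm_mul (r r' : ℝ) (z z' : ℤ) : tm r z * tm r' z' = tm (r + r') (z + z') := by
  unfold tm
  rw [Matrix.mul_fin_two]
  have e : mono (-(r + r')) (-(z + z')) = mono (-r) (-z) * mono (-r') (-z') := by
    rw [mono_mul]
    congr 1
    · ring
    · ring
  rw [e, ← mono_mul]
  have h1 : mono r z * mono r' z' + 0 * (mono (-r') (-z') - mono r' z') =
      mono r z * mono r' z' := by ring
  have h2 : mono r z * 0 + 0 * mono (-r') (-z') = 0 := by ring
  have h3 : (mono (-r) (-z) - mono r z) * mono r' z' +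
      mono (-r) (-z) * (mono (-r') (-z') - mono r' z') =
      mono (-r) (-z) * mono (-r') (-z') - mono r z * mono r' z' := by ring
  have h4 : (mono (-r) (-z) - mono r z) * 0 + mono (-r) (-z) * mono (-r') (-z') =
      mono (-r) (-z) * mono (-r') (-z') := by ring
  rw [h1, h2, h3, h4]

theorem tm_zero : tm 0 0 = 1 := by
  unfold tm
  rw [neg_zero, neg_zero, mono_zero, sub_self]
  exact Matrix.one_fin_two.symm

/-- the torus as a group -/
noncomputable def tg (r : ℝ) (z : ℤ) : G29 where
  val := tm r z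
  inv := tm (-r) (-z)
  val_inv := by rw [tm_mul, add_neg_cancel, add_neg_cancel, tm_zero]
  inv_val := by rw [tm_mul, neg_add_cancel, neg_add_cancel, tm_zero]

theorem tg_mul (r r' : ℝ) (z z' : ℤ) : tg r z * tg r' z' = tg (r + r') (z + z') :=
  Units.ext (tm_mul r r' z z')

theorem tg_inv (r : ℝ) (z : ℤ) : (tg r z)⁻¹ = tg (-r) (-z) := Units.ext rfl

theorem tg_zero : tg 0 0 = 1 := Units.ext tm_zero

theorem det_tm (r : ℝ) (z : ℤ) : (tm r z).det = 1 := by
  unfold tm
  rw [Matrix.det_fin_two_of, mono_mul]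
  simp [mono_zero]

theorem intDegree_X_pow (n : ℕ) : ((RatFunc.X : RatFunc ℚ) ^ n).intDegree = n := by
  induction n with
  | zero => simp
  | succ n ih =>
    rw [pow_succ, RatFunc.intDegree_mul (pow_ne_zero _ RatFunc.X_ne_zero) RatFunc.X_ne_zero, ih,
      RatFunc.intDegree_X]
    push_cast
    ring

theorem intDegree_X_zpow (z : ℤ) : ((RatFunc.X : RatFunc ℚ) ^ z).intDegree = z := by
  cases z with
  | ofNat n => simpa using intDegree_X_pow n
  | negSucc n =>
    rw [zpow_negSucc, RatFunc.intDegree_inv, intDegree_X_pow, Int.negSucc_eq]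
    push_cast
    ring

theorem mono_order (r : ℝ) (z : ℤ) : (mono r z).order = r :=
  HahnSeries.order_single (zpow_ne_zero _ RatFunc.X_ne_zero)

theorem nv_tg {r : ℝ} (hr : 0 < r) (z : ℤ) : NV2 1 (tg r z) r z := by
  have hlt : (mono (-r) (-z)).orderTop < (mono r z).orderTop := by
    unfold mono
    rw [HahnSeries.orderTop_single (zpow_ne_zero _ RatFunc.X_ne_zero),
      HahnSeries.orderTop_single (zpow_ne_zero _ RatFunc.X_ne_zero)]
    exact WithTop.coe_lt_coe.2 (by linarith)
  have hdd : dd 1 (tg r z) = mono (-r) (-z) - mono r z := by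
    have h1 : (tg r z).1 1 0 = mono (-r) (-z) - mono r z := rfl
    unfold dd
    rw [h1]
    simp
  have hne : mono (-r) (-z) - mono r z ≠ 0 := by
    intro h
    rw [sub_eq_zero] at h
    rw [h] at hlt
    exact lt_irrefl _ hlt
  have hot : (mono (-r) (-z) - mono r z).orderTop = (mono (-r) (-z)).orderTop :=
    HahnSeries.orderTop_sub hlt
  have ho : (mono (-r) (-z) - mono r z).order = -r := by
    have h1 := HahnSeries.order_eq_orderTop_of_ne_zero hne
    have h2 := HahnSeries.order_eq_orderTop_of_ne_zero (mono_ne (-r) (-z))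
    rw [hot, ← h2, mono_order] at h1
    exact WithTop.coe_injective h1
  have hlc : (mono (-r) (-z) - mono r z).leadingCoeff = (RatFunc.X : RatFunc ℚ) ^ z := by
    rw [HahnSeries.leadingCoeff_sub hlt]
    unfold mono
    rw [HahnSeries.leadingCoeff_of_single, neg_neg]
  have hd1 : dt 1 = 1 := by
    unfold dt
    simp
  have hd2 : dt (tg r z) = 1 := det_tm r z
  have hl1 : (1 : K29).leadingCoeff = 1 := by
    simp
  refine ⟨⟨by rw [hdd]; exact hne, ?_⟩, ?_⟩
  · rw [hd1, hd2, hdd, ho, HahnSeries.order_one]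
    ring
  · rw [hd1, hd2, hdd, hlc, hl1, intDegree_X_zpow, RatFunc.intDegree_one]
    ring

section rep

variable {A V G : Type} [DecidableEq A] [Group G]

/-- the labels -/
noncomputable def lb (d : Dat A V G) (l : A → ℤ) (a : A) : G29 :=
  if (a, true) ∈ d.row true then tg (d.lam a) (l a) else tg (-d.lam a) (-l a)

theorem wpr_lb (d : Dat A V G) (l : A → ℤ) (W : List (A × Bool))
    (h : ∀ x ∈ W, slab (lb d l) x = tg (d.lam x.1) (l x.1)) :
    wpr (lb d l) W = tg (wlen d.lam W) (wlen l W) := by
  induction W with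
  | nil => simpa [wlen] using tg_zero.symm
  | cons x W ih =>
    rw [wpr_cons, h x (by simp), ih (fun y hy => h y (by simp [hy])), tg_mul]
    rfl

theorem slab_lb {d : Dat A V G} (hd : Good d)
    (hor : ∀ z, occ z (d.row true) + occ (sinv z) (d.row true) = 1) (l : A → ℤ) (σ : Bool)
    (x : A × Bool) (hx : x ∈ d.row σ) : slab (lb d l) x = tg (d.lam x.1) (l x.1) := by
  have key : ∀ σ x, x ∈ d.row σ → x ∈ d.row true ∧ sinv x ∉ d.row true := by
    intro σ x hx
    have h1 := hd.two x
    have h2 := hd.sgn x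
    have h3 := hor x
    have h4 : occ x (d.row σ) ≠ 0 := fun h => occ_eq_zero_iff.1 h hx
    have h5 : occ x (d.row true) ≠ 0 := by
      cases σ
      · omega
      · exact h4
    have h6 : occ (sinv x) (d.row true) = 0 := by omega
    refine ⟨?_, occ_eq_zero_iff.1 h6⟩
    by_contra h7
    exact h5 (occ_eq_zero_iff.2 h7)
  obtain ⟨h1, h2⟩ := key σ x hx
  rcases x with ⟨a, s⟩
  cases s
  · have h3 : (a, true) ∉ d.row true := h2
    simp only [slab, Bool.false_eq_true, if_false, lb, h3]
    rw [tg_inv, neg_neg, neg_neg]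
  · simp only [slab, if_true, lb, h1]

/-- **existence in the orientable case**: every letter occurs once in each row -/
theorem rep_ori14 {d : Dat A V G} (hd : Good d)
    (hbal : wlen d.lam (d.row true) = wlen d.lam (d.row false))
    (hor : ∀ z, occ z (d.row true) + occ (sinv z) (d.row true) = 1) (l : A → ℤ)
    (hl : wlen l (d.row true) = wlen l (d.row false)) :
    ∃ f : A → G29, wpr f (d.row true) = wpr f (d.row false) ∧
      ∀ σ P W S, d.row σ = P ++ W ++ S → W ≠ [] →
        NV2 1 (wpr f W) (wlen d.lam W) (wlen l W) := by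
  have hs := slab_lb hd hor l
  refine ⟨lb d l, ?_, ?_⟩
  · rw [wpr_lb d l _ (hs true), wpr_lb d l _ (hs false), hbal, hl]
  · intro σ P W S hW hne
    rw [wpr_lb d l W (fun x hx => hs σ x (by rw [hW]; simp [hx]))]
    refine nv_tg ?_ _
    cases W with
    | nil => exact absurd rfl hne
    | cons x W =>
      have hpos : ∀ W : List (A × Bool), 0 ≤ wlen d.lam W := by
        intro W
        unfold wlen
        refine List.sum_nonneg ?_
        intro r hr
        obtain ⟨y, -, rfl⟩ := List.mem_map.1 hr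
        exact (hd.pos _).le
      have : wlen d.lam (x :: W) = d.lam x.1 + wlen d.lam W := by
        simp [wlen]
      rw [this]
      have h1 := hd.pos x.1
      have h2 := hpos W
      linarith

/-- the other case: some letter occurs twice in one row -/
theorem ori_or_not {d : Dat A V G} (hd : Good d) :
    (∀ z, occ z (d.row true) + occ (sinv z) (d.row true) = 1) ∨
      ∃ σ x, x ∈ d.row σ ∧ sinv x ∈ d.row σ := by
  by_cases h : ∃ σ x, x ∈ d.row σ ∧ sinv x ∈ d.row σ
  · exact Or.inr h
  · left
    intro z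
    have h1 := hd.two z
    have h2 := hd.sgn z
    have h3 : ∀ σ, occ z (d.row σ) = 0 ∨ occ (sinv z) (d.row σ) = 0 := by
      intro σ
      by_contra hc
      rw [not_or] at hc
      refine h ⟨σ, z, ?_, ?_⟩
      · by_contra h7
        exact hc.1 (occ_eq_zero_iff.2 h7)
      · by_contra h7
        exact hc.2 (occ_eq_zero_iff.2 h7)
    have h4 := h3 true
    have h5 := h3 false
    omega

end rep

end Pool.Agent.Lib.MP_e3aa0a_gt.FVL.Ori14
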