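import Pool.Agent.Lib.MP_e3aa0a_gt.FVL.Ex57d
import Pool.Agent.Lib.MP_e3aa0a_gt.FVL.Ori14

/-!
# FVR, module Ex57e: existence of the labels for the initial polygon (StRep)
-/

set_option autoImplicit false

namespace Pool.Agent.Lib.MP_e3aa0a_gt.FVL

open Pool.Agent.Lib.FVol Matrix HahnSeries

section words

variable {A : Type*}

theorem isChain_of57 {X : Type*} {R : X → X → Prop} (W : List X)
    (h : ∀ P u w S, W = P ++ u :: w :: S → R u w) : W.IsChain R := by
  induction W with
  | nil => exact List.isChain_nil
  | cons u W ih =>
    cases W with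
    | nil => exact List.isChain_singleton _
    | cons w W =>
      refine List.isChain_cons_cons.2 ⟨h [] u w W rfl, ih ?_⟩
      intro P u' w' S e
      refine h (u :: P) u' w' S ?_
      rw [e]
      rfl

theorem Adm57.sub {α : A × Bool → ℤ} {P W S : List (A × Bool)} (h : Adm57 α (P ++ W ++ S)) :
    Adm57 α W := h.left_of_append.right_of_append

theorem wlen_pos57 {lam : A → ℝ} (h : ∀ a, 0 < lam a) {W : List (A × Bool)} (hW : W ≠ []) :
    0 < wlen lam W := by
  induction W with
  | nil => exact absurd rfl hW
  | cons x W ih =>
    unfold wlen at *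
    rw [List.map_cons, List.sum_cons]
    rcases eq_or_ne W [] with rfl | hne
    · simpa using h x.1
    · have := h x.1
      have := ih hne
      linarith

theorem wlen_cons57 {R : Type*} [AddMonoid R] (lam : A → R) (x : A × Bool)
    (W : List (A × Bool)) : wlen lam (x :: W) = lam x.1 + wlen lam W := by
  simp [wlen]

theorem wlen_snoc57 {R : Type*} [AddMonoid R] (lam : A → R) (x : A × Bool)
    (W : List (A × Bool)) : wlen lam (W ++ [x]) = wlen lam W + lam x.1 := by
  simp [wlen]

theorem one_le_occ57 [DecidableEq A] {z : A × Bool} {W : List (A × Bool)} (h : z ∈ W) :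
    1 ≤ occ z W := by
  rw [Nat.one_le_iff_ne_zero]
  intro h0
  exact (occ_eq_zero_iff.1 h0) h

end words

section gen

variable {A V G : Type} [Fintype A] [DecidableEq A] [Group G]

omit [Fintype A] in
theorem excl57 {d : Dat A V G} (hd : Good d) {u : A × Bool} (h1 : u ∈ d.row true)
    (h2 : sinv u ∈ d.row false) : False := by
  have e1 := one_le_occ57 h1
  have e2 := one_le_occ57 h2
  have e3 := hd.two u
  have e4 := hd.sgn u
  omega

/-- **Existence, generic in the field, for data with a flip letter.** -/
theorem rep_gen57 {F : Type*} [Field F] [CharZero F] {d : Dat A V G} {α : A × Bool → ℤ}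
    (hd : Good d) (hbal : Bal d) (hnt : NoTie d) (hzp : ¬ ZeroProng d) (hα : Prong d α)
    (hsing : ∀ a b, d.row true = [a] → d.row false = [b] → False)
    {ρ : Bool} {x0 : A × Bool} (hx0 : x0 ∈ d.row ρ) (hx0' : sinv x0 ∈ d.row ρ)
    {lam : A → ℝ} (hpos : ∀ a, 0 < lam a)
    (hlam : sm57 lam (d.row true) = sm57 lam (d.row false)) {sg : A → F} (hsg : ∀ a, sg a ≠ 0)
    (hneg : nm57 sg (d.row true) = nm57 sg (d.row false)) :
    ∃ f : A → GL (Fin 2) (HahnSeries ℝ F), wpr f (d.row true) = wpr f (d.row false) ∧
      ∀ σ P W S, d.row σ = P ++ W ++ S → W ≠ [] → Val57 lam sg W (wpr f W) := by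
  have hadm : ∀ σ, Adm57 α (d.row σ) := fun σ =>
    isChain_of57 _ fun P u w S e => hα.1 σ u w P S e
  -- the rows are not empty
  have hne : d.row ρ ≠ [] := List.ne_nil_of_mem hx0
  have hrow : d.row true ≠ [] ∧ d.row false ≠ [] := by
    have h1 : wlen d.lam (d.row true) = wlen d.lam (d.row false) := hbal
    constructor
    · intro h0
      rw [h0] at h1
      have h2 : d.row false ≠ [] := by
        cases ρ
        · exact hne
        · exact absurd h0 hne
      have h3 := wlen_pos57 hd.pos h2
      rw [← h1] at h3
      simp [wlen] at h3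
    · intro h0
      rw [h0] at h1
      have h2 : d.row true ≠ [] := by
        cases ρ
        · exact absurd h0 hne
        · exact hne
      have h3 := wlen_pos57 hd.pos h2
      rw [h1] at h3
      simp [wlen] at h3
  obtain ⟨t, T, h1⟩ := List.exists_cons_of_ne_nil hrow.1
  obtain ⟨s, S, h2⟩ := List.exists_cons_of_ne_nil hrow.2
  obtain ⟨T', x, h1'⟩ : ∃ T' x, d.row true = T' ++ [x] :=
    ⟨_, _, (List.dropLast_append_getLast hrow.1).symm⟩
  obtain ⟨S', y, h2'⟩ : ∃ S' y, d.row false = S' ++ [y] :=
    ⟨_, _, (List.dropLast_append_getLast hrow.2).symm⟩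
  have htmem : t ∈ d.row true := by rw [h1]; simp
  have hsmem : s ∈ d.row false := by rw [h2]; simp
  have hxmem : x ∈ d.row true := by rw [h1']; simp
  have hymem : y ∈ d.row false := by rw [h2']; simp
  -- different heads
  have nst : s ≠ t := by
    rintro rfl
    have hb : wlen d.lam (d.row true) = wlen d.lam (d.row false) := hbal
    rw [h1, h2, wlen_cons57, wlen_cons57] at hb
    rcases eq_or_ne T [] with hT | hT
    · rcases eq_or_ne S [] with hS | hS
      · exact hsing s s (by rw [h1, hT]) (by rw [h2, hS])
      · have := wlen_pos57 hd.pos hS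
        rw [hT] at hb
        simp only [wlen, List.map_nil, List.sum_nil] at hb this
        linarith
    · rcases eq_or_ne S [] with hS | hS
      · have := wlen_pos57 hd.pos hT
        rw [hS] at hb
        simp only [wlen, List.map_nil, List.sum_nil] at hb this
        linarith
      · refine hnt [s] [s] ?_ ?_ (by simp) (by simp) ?_ ?_ rfl
        · rw [h1]; exact ⟨T, rfl⟩
        · rw [h2]; exact ⟨S, rfl⟩
        · rw [h1]
          intro e
          exact hT (by simpa using e.symm)
        · rw [h2]
          intro e
          exact hS (by simpa using e.symm)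
  -- different ends
  have nyx : y ≠ x := by
    rintro rfl
    have hb : wlen d.lam (d.row true) = wlen d.lam (d.row false) := hbal
    rw [h1', h2', wlen_snoc57, wlen_snoc57] at hb
    rcases eq_or_ne T' [] with hT | hT
    · rcases eq_or_ne S' [] with hS | hS
      · exact hsing y y (by rw [h1', hT]; rfl) (by rw [h2', hS]; rfl)
      · have := wlen_pos57 hd.pos hS
        rw [hT] at hb
        simp only [wlen, List.map_nil, List.sum_nil] at hb this
        linarith
    · rcases eq_or_ne S' [] with hS | hS
      · have := wlen_pos57 hd.pos hT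
        rw [hS] at hb
        simp only [wlen, List.map_nil, List.sum_nil] at hb this
        linarith
      · refine hnt T' S' ?_ ?_ hT hS ?_ ?_ (by linarith)
        · rw [h1']; exact ⟨_, rfl⟩
        · rw [h2']; exact ⟨_, rfl⟩
        · rw [h1']
          intro e
          have := congrArg List.length e
          simp at this
        · rw [h2']
          intro e
          have := congrArg List.length e
          simp at this
  have nsx : s ≠ sinv x := by
    rintro rfl
    exact excl57 hd hxmem hsmem
  have nty : t ≠ sinv y := by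
    rintro rfl
    exact excl57 hd (u := sinv y) htmem (by rw [sinv_sinv]; exact hymem)
  have sinj : ∀ {u v : A × Bool}, sinv u = sinv v → u = v := by
    intro u v e
    rw [← sinv_sinv u, e, sinv_sinv]
  have hts : α t = α s := hα.2.1 t s T S h1 h2
  have hxy : α (sinv x) = α (sinv y) := hα.2.2 x y T' S' h1' h2'
  have hsgn : ∀ z, (occ z (d.row true) : ℤ) - occ (sinv z) (d.row true)
    = occ z (d.row false) - occ (sinv z) (d.row false) := hd.sgn
  -- the flip letter
  have o := hd.two' ρ (x0.1, false)
  have o1 : 1 ≤ occ (x0.1, false) (d.row ρ) := by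
    rcases x0 with ⟨i, b⟩
    cases b
    · exact one_le_occ57 hx0
    · exact one_le_occ57 hx0'
  have o2 : 1 ≤ occ (sinv (x0.1, false)) (d.row ρ) := by
    rcases x0 with ⟨i, b⟩
    cases b
    · exact one_le_occ57 hx0'
    · exact one_le_occ57 hx0
  have oa : occ (x0.1, false) (d.row ρ) = 1 := by omega
  have ob : occ (x0.1, false) (d.row (!ρ)) = 0 := by omega
  have hcov : ∀ (f : A → GL (Fin 2) (HahnSeries ℝ F)),
      (∀ W, Adm57 α W → W ≠ [] → Val57 lam sg W (wpr f W)) →
      ∀ σ P W S, d.row σ = P ++ W ++ S → W ≠ [] → Val57 lam sg W (wpr f W) := by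
    intro f hf σ P W S e hW
    refine hf W (Adm57.sub (P := P) (S := S) ?_) hW
    rw [← e]
    exact hadm σ
  by_cases n5 : sinv x = t
  · have n6 : sinv y ≠ s := by
      intro n6
      apply hzp
      refine ⟨t, s, T'.tail, S'.tail, ?_, ?_⟩
      · cases T' with
        | nil =>
          rw [h1] at h1'
          have e1 : t = x := by
            have := congrArg List.head? h1'
            simpa using this
          rw [← e1] at n5
          exact absurd n5 (sinv_ne t)
        | cons t' T'' =>
          have e1 : t = t' := by
            have := congrArg List.head? (h1.symm.trans h1')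
            simpa using this
          rw [h1', ← e1, List.tail_cons, ← n5, sinv_sinv]
      · cases S' with
        | nil =>
          rw [h2] at h2'
          have e1 : s = y := by
            have := congrArg List.head? h2'
            simpa using this
          rw [← e1] at n6
          exact absurd n6 (sinv_ne s)
        | cons s' S'' =>
          have e1 : s = s' := by
            have := congrArg List.head? (h2.symm.trans h2')
            simpa using this
          rw [h2', ← e1, List.tail_cons, ← n6, sinv_sinv]
    have key := core57 (Wa := d.row ρ) (Wb := d.row (!ρ)) (i0 := x0.1) hpos hsg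
      (h2.symm.trans h2') (h1.symm.trans h1') (by rw [← h2]; exact hadm false)
      (by rw [← h1]; exact hadm true) hts.symm hxy.symm nst.symm nty
      (fun e => nsx e.symm) (fun e => nyx (sinj e).symm) n6
      (by rw [← h1, ← h2]; exact fun z => (hsgn z).symm)
      (by rw [← h1, ← h2]; exact hlam.symm) (by rw [← h1, ← h2]; exact hneg.symm)
      (by
        cases ρ
        · exact Or.inl ⟨h2, h1⟩
        · exact Or.inr ⟨h1, h2⟩) oa ob
    obtain ⟨f, e1, e2⟩ := key
    refine ⟨f, ?_, hcov f e2⟩
    rw [h1, h2]
    exact e1.symm
  · have key := core57 (Wa := d.row ρ) (Wb := d.row (!ρ)) (i0 := x0.1) hpos hsg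
      (h1.symm.trans h1') (h2.symm.trans h2') (by rw [← h1]; exact hadm true)
      (by rw [← h2]; exact hadm false) hts hxy nst nsx
      (fun e => nty e.symm) (fun e => nyx (sinj e)) n5
      (by rw [← h1, ← h2]; exact hsgn)
      (by rw [← h1, ← h2]; exact hlam) (by rw [← h1, ← h2]; exact hneg)
      (by
        cases ρ
        · exact Or.inr ⟨h2, h1⟩
        · exact Or.inl ⟨h1, h2⟩) oa ob
    obtain ⟨f, e1, e2⟩ := key
    refine ⟨f, ?_, hcov f e2⟩
    rw [h1, h2]
    exact e1

end gen

end Pool.Agent.Lib.MP_e3aa0a_gt.FVL
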