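import Pool.Agent.Lib.MP_e3aa0a_gt.FVL.Ex57e

/-!
# FVR, module Ex57f: StRep
-/

set_option autoImplicit false

namespace Pool.Agent.Lib.MP_e3aa0a_gt.FVL

open Pool.Agent.Lib.FVol Matrix HahnSeries

/-- the integral sum over the negative letters -/
def ngz57 {A : Type*} (l : A → ℤ) (W : List (A × Bool)) : ℤ :=
  (W.map fun z => if z.2 then 0 else l z.1).sum

theorem ngz_cast57 {A : Type*} (l : A → ℤ) (W : List (A × Bool)) :
    ((ngz57 l W : ℤ) : ℝ) = ng57 (fun a => (l a : ℝ)) W := by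
  induction W with
  | nil => simp [ngz57, ng57]
  | cons x W ih =>
    unfold ngz57 ng57 at *
    rw [List.map_cons, List.sum_cons, List.map_cons, List.sum_cons, Int.cast_add, ih]
    split_ifs
    · simp
    · simp

theorem sm_cast57 {A : Type*} (l : A → ℤ) (W : List (A × Bool)) :
    ((wlen l W : ℤ) : ℝ) = sm57 (fun a => (l a : ℝ)) W := by
  induction W with
  | nil => simp [wlen, sm57]
  | cons x W ih =>
    unfold wlen sm57 at *
    rw [List.map_cons, List.sum_cons, List.map_cons, List.sum_cons, Int.cast_add, ih]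

theorem nm_X57 {A : Type*} (l : A → ℤ) (W : List (A × Bool)) :
    nm57 (fun a => (RatFunc.X : RatFunc ℚ) ^ (-(2 * l a))) W =
      (RatFunc.X : RatFunc ℚ) ^ (-(2 * ngz57 l W)) := by
  induction W with
  | nil => simp [nm57, ngz57]
  | cons x W ih =>
    unfold nm57 ngz57 at *
    rw [List.map_cons, List.prod_cons, ih, List.map_cons, List.sum_cons]
    split_ifs
    · simp
    · rw [← zpow_add₀ RatFunc.X_ne_zero]
      congr 1
      ring

theorem prod_X57 {A : Type*} (l : A → ℤ) (W : List (A × Bool)) :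
    (W.map fun x => (RatFunc.X : RatFunc ℚ) ^ (-(2 * l x.1))).prod =
      (RatFunc.X : RatFunc ℚ) ^ (-(2 * wlen l W)) := by
  induction W with
  | nil => simp [wlen]
  | cons x W ih =>
    rw [List.map_cons, List.prod_cons, ih, ← zpow_add₀ RatFunc.X_ne_zero, wlen_cons57]
    congr 1
    ring

theorem intDegree_rat57 (q : ℚ) : ((q : ℚ) : RatFunc ℚ).intDegree = 0 := by
  have h : ((q : ℚ) : RatFunc ℚ) = RatFunc.C q := by
    have := map_ratCast (RatFunc.C (K := ℚ)) q
    simp
  rw [h, RatFunc.intDegree_C]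

theorem sm_two57 {A : Type*} (lam : A → ℝ) (W : List (A × Bool)) :
    sm57 (fun a => 2 * lam a) W = 2 * wlen lam W := by
  induction W with
  | nil => simp [sm57, wlen]
  | cons x W ih =>
    unfold sm57 wlen at *
    rw [List.map_cons, List.sum_cons, List.map_cons, List.sum_cons, ih]
    ring

/-- the values give property (*) of a word -/
theorem nv2_of_val57 {A : Type} {lam : A → ℝ} {l : A → ℤ} {W : List (A × Bool)} {g : G29}
    (h : Val57 (fun a => 2 * lam a) (fun a => (RatFunc.X : RatFunc ℚ) ^ (-(2 * l a))) W g) :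
    NV2 1 g (wlen lam W) (wlen l W) := by
  obtain ⟨u, y, z, hu, ⟨q, hq, hy0, hyo, hyl⟩, ⟨q', hq', hz0, hzo, hzl⟩, h10, hdet⟩ := h
  rw [prod_X57, sm_two57] at hdet
  have hX : (RatFunc.X : RatFunc ℚ) ^ (-(2 * wlen l W)) ≠ 0 := zpow_ne_zero _ RatFunc.X_ne_zero
  have hs0 : (single (2 * wlen lam W) ((RatFunc.X : RatFunc ℚ) ^ (-(2 * wlen l W))) : K29) ≠ 0 :=
    single_ne_zero hX
  have hdd : dd 1 g = u * y := by
    rw [← h10]
    simp [dd]
  have hdt1 : dt (1 : G29) = 1 := by simp [dt]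
  have hdt : dt g = u * u * z *
      single (2 * wlen lam W) ((RatFunc.X : RatFunc ℚ) ^ (-(2 * wlen l W))) := by
    rw [dt, hdet, pow_two]
  have hlu : u.leadingCoeff ≠ 0 := leadingCoeff_ne_zero.2 hu
  have hq0 : ((q : ℚ) : RatFunc ℚ) ≠ 0 := by exact_mod_cast hq
  have hq0' : ((q' : ℚ) : RatFunc ℚ) ≠ 0 := by exact_mod_cast hq'
  refine ⟨⟨?_, ?_⟩, ?_⟩
  · rw [hdd]
    exact mul_ne_zero hu hy0
  · rw [hdd, hdt1, hdt, order_one, order_mul hu hy0,
      order_mul (mul_ne_zero (mul_ne_zero hu hu) hz0) hs0,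
      order_mul (mul_ne_zero hu hu) hz0, order_mul hu hu, order_single hX, hyo, hzo]
    ring
  · rw [hdd, hdt1, hdt, leadingCoeff_one, RatFunc.intDegree_one, leadingCoeff_mul,
      leadingCoeff_mul, leadingCoeff_mul, leadingCoeff_mul, hyl, hzl, leadingCoeff_of_single,
      RatFunc.intDegree_mul hlu hq0,
      RatFunc.intDegree_mul (mul_ne_zero (mul_ne_zero hlu hlu) hq0') hX,
      RatFunc.intDegree_mul (mul_ne_zero hlu hlu) hq0', RatFunc.intDegree_mul hlu hlu,
      intDegree_rat57, intDegree_rat57, Ori14.intDegree_X_zpow]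
    ring

/-- **REP.** -/
theorem stRep57 : StRep := by
  intro A V G _ _ _ d l α0 hd hbal hnt hzp hα hsing hl
  rcases Ori14.ori_or_not hd with hor | ⟨ρ, x0, hx0, hx0'⟩
  · exact Ori14.rep_ori14 hd hbal hor l hl
  · have hneg : nm57 (fun a => (RatFunc.X : RatFunc ℚ) ^ (-(2 * l a))) (d.row true) =
        nm57 (fun a => (RatFunc.X : RatFunc ℚ) ^ (-(2 * l a))) (d.row false) := by
      rw [nm_X57, nm_X57]
      have h1 : sm57 (fun a => (l a : ℝ)) (d.row true) = sm57 (fun a => (l a : ℝ)) (d.row false) := by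
        rw [← sm_cast57, ← sm_cast57, hl]
      have h2 := ng_eq57 (fun a => (l a : ℝ)) hd.sgn h1
      rw [← ngz_cast57, ← ngz_cast57] at h2
      have h3 : ngz57 l (d.row true) = ngz57 l (d.row false) := by exact_mod_cast h2
      rw [h3]
    have hlam : sm57 (fun a => 2 * d.lam a) (d.row true) =
        sm57 (fun a => 2 * d.lam a) (d.row false) := by
      rw [sm_two57, sm_two57]
      have : wlen d.lam (d.row true) = wlen d.lam (d.row false) := hbal
      rw [this]
    obtain ⟨f, h1, h2⟩ := rep_gen57 (F := RatFunc ℚ) hd hbal hnt hzp hα hsing hx0 hx0'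
      (lam := fun a => 2 * d.lam a) (fun a => by have := hd.pos a; linarith) hlam
      (sg := fun a => (RatFunc.X : RatFunc ℚ) ^ (-(2 * l a)))
      (fun a => zpow_ne_zero _ RatFunc.X_ne_zero) hneg
    exact ⟨f, h1, fun σ P W S e hW => nv2_of_val57 (h2 σ P W S e hW)⟩

end Pool.Agent.Lib.MP_e3aa0a_gt.FVL
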