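import Pool.Agent.Lib.MP_e3aa0a_gt.FVL.Fan21
import Pool.Agent.Lib.MP_e3aa0a_gt.FVL.Asm83

/-!
Project FVL (MP_e3aa0a_gt), row FAN (helper21): the fan cycle of the relator in the form needed by
`main83`.
-/

set_option autoImplicit false

namespace Pool.Agent.Lib.MP_e3aa0a_gt.FVL.Fan21

open Pool.Agent.Lib.FVol
open Ker21 (Lab sd dg tri)
open scoped commutatorElement

variable {G Γ : Type*} [Group G] [Group Γ] {g : ℕ}

theorem pushG_zc (f : G →* Γ) (u : Let g → G) : pushG f (zc u) = zc (fun a => f (u a)) :=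
  pushH_zc f u

theorem pref_map (f : G →* Γ) (u : Let g → G) (j : ℕ) :
    pref (fun a => f (u a)) j = f (pref u j) := wpr_mapH f u _

theorem lb_map (f : G →* Γ) (u : Let g → G) (k : Lab g) :
    lb (fun a => f (u a)) k = f (lb u k) := by
  rcases k with i | i | k
  · rfl
  · rfl
  · exact pref_map f u _

open Classical in
/-- the hypothesis `hom` of `main83` for the fan cycle of the relator -/
theorem hom21 (hg : 0 < g) (u : Let g → G) (hu : wpr u (rel g) = 1) (f : G →* Γ) (w w' : Γ → ℝ)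
    (h : ∀ a ∈ Finset.univ.image u, w (f a)⁻¹ = w (f a))
    (h' : ∀ a ∈ Finset.univ.image u, w' (f a)⁻¹ = w' (f a)) :
    om w w' (pushG f (zc u)) =
      Ker21.om g (fun k => w (f (lb u k))) (fun k => w' (f (lb u k))) := by
  rw [pushG_zc, om_zc (fun a => h _ (Finset.mem_image_of_mem _ (Finset.mem_univ a)))
    (fun a => h' _ (Finset.mem_image_of_mem _ (Finset.mem_univ a))) ?_ hg]
  · congr 1
    · congr 1
      funext k
      exact congrArg w (lb_map f u k)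
    · funext k
      exact congrArg w' (lb_map f u k)
  · rw [wpr_mapH, hu, map_one]

theorem card_Lab (hg : 0 < g) : Fintype.card (Lab g) = 6 * g - 3 := by
  simp only [Fintype.card_sum, Fintype.card_fin]
  omega

theorem card_letters [DecidableEq G] (u : Let g → G) : (Finset.univ.image u).card ≤ 2 * g := by
  refine Finset.card_image_le.trans ?_
  simp only [Finset.card_univ, Fintype.card_sum, Fintype.card_fin]
  omega

/-- the label `a_0` -/
def ka (hg : 0 < g) : Lab g := Sum.inl ⟨0, hg⟩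

/-- the label `b_0` -/
def kb (hg : 0 < g) : Lab g := Sum.inr (Sum.inl ⟨0, hg⟩)

/-- the label `w_2 = a_0 b_0` -/
def kab (hg : 0 < g) : Lab g := Sum.inr (Sum.inr ⟨0, by omega⟩)

/-- the label `w_3 = a_0 b_0 a_0⁻¹` -/
def kc (hg : 1 < g) : Lab g := Sum.inr (Sum.inr ⟨1, by omega⟩)

theorem lb_ka (hg : 0 < g) (u : Let g → G) : lb u (ka hg) = u (Sum.inl ⟨0, hg⟩) := rfl

theorem lb_kb (hg : 0 < g) (u : Let g → G) : lb u (kb hg) = u (Sum.inr ⟨0, hg⟩) := rfl

theorem lb_kab (hg : 0 < g) (u : Let g → G) :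
    lb u (kab hg) = u (Sum.inl ⟨0, hg⟩) * u (Sum.inr ⟨0, hg⟩) := by
  have h := pref2 u ⟨0, hg⟩
  simp only [Nat.mul_zero, Nat.zero_add, pref_zero, one_mul] at h
  exact h

theorem lb_kc (hg : 1 < g) (u : Let g → G) : lb u (kc hg) =
    u (Sum.inl ⟨0, by omega⟩) * u (Sum.inr ⟨0, by omega⟩) * (u (Sum.inl ⟨0, by omega⟩))⁻¹ := by
  have h := pref3 u ⟨0, by omega⟩
  simp only [Nat.mul_zero, Nat.zero_add, pref_zero, one_mul] at h
  exact h

/-- **`main83` for the fan cycle of the relator.** -/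
theorem main21 {M : Type*} [AddCommGroup M] {L : Γ → M} (hg : 2 ≤ g) (u : Let g → G)
    (hu : wpr u (rel g) = 1) (ρ : G →* Γ) (θ : G →* G) (γ : Γ) (hL : IsTrop ρ γ L) (b : C3 G)
    (hb : bd G b = push θ (zc u) - zc u) (f : Fin (6 * g - 4) → M →+ ℝ)
    (hli : LinearIndependent ℝ (fun i => (fun k => f i (L (ρ (lb u k))) : Lab g → ℝ)))
    (l1 l2 : M →+ ℝ) (z1 : ∀ k, l1 (L (ρ (lb u k))) = 0) (z2 : ∀ k, l2 (L (ρ (lb u k))) = 0)
    (c1 : ℝ) (hc1 : c1 ≠ 0) (t1 : ∀ k, l1 (L (γ⁻¹ * ρ (θ (lb u k)) * γ)) = c1)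
    (t2 : ∀ k, k ≠ kb (by omega) → l2 (L (γ⁻¹ * ρ (θ (lb u k)) * γ)) = 0)
    (t3 : l2 (L (γ⁻¹ * ρ (θ (u (Sum.inr ⟨0, by omega⟩))) * γ)) ≠ 0) (l : M →+ ℝ) :
    |l (L (γ⁻¹ * ρ (θ (u (Sum.inl ⟨0, by omega⟩) * u (Sum.inr ⟨0, by omega⟩))) * γ)) -
      l (L (γ⁻¹ * ρ (θ (u (Sum.inl ⟨0, by omega⟩))) * γ))| ≤
      √2 * √8 ^ (nrm b + 40 * g) * ∑ k, |l (L (ρ (lb u k)))| := by
  classical
  have hg0 : 0 < g := by omega
  have h := main83 ρ θ γ hL (zc u) (bd2_zc u hu) b hb (lb u) (Finset.univ.image u) (Ker21.om g)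
    (fun x hx => Ker21.ker21 hg x hx) (fun f w w' h h' => by
      have e := hom21 hg0 u hu f w w' (by convert h) (by convert h')
      exact e) f hli
    (by rw [card_Lab hg0]; omega) (kb hg0) l1 l2 z1 z2 c1 hc1 t1 t2 t3 (kab hg0) (ka hg0)
    (by simp [kab, kb]) (by simp [ka, kb]) l
  rw [lb_kab, lb_ka] at h
  refine h.trans ?_
  have h8 : (1:ℝ) ≤ √8 := by
    rw [Real.one_le_sqrt]; norm_num
  have h1 := nrm_zc_le u
  have h2 := card_letters u
  refine mul_le_mul_of_nonneg_right ?_ (Finset.sum_nonneg fun _ _ => abs_nonneg _)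
  exact mul_le_mul_of_nonneg_left (pow_le_pow_right₀ h8 (by omega)) (Real.sqrt_nonneg _)

end Pool.Agent.Lib.MP_e3aa0a_gt.FVL.Fan21
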