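import Pool.Agent.Lib.MP_e3aa0a_gt.FVL.Stretch21
import Pool.Agent.Lib.MP_e3aa0a_gt.FVL.Cod32b

/-!
# FVL: the frame of the final theorem
-/

set_option autoImplicit false

namespace Pool.Agent.Lib.MP_e3aa0a_gt.FVL

open Pool.Agent.Lib.FVol Filter Topology

/-- the constant of the final theorem -/
noncomputable def cst72 (k : ℕ) : ℝ := max (3 / 2 * Real.log 2) (upK k)

theorem fin72 {k : ℕ} {C : ℝ} (hA : BndA k C) :
    ∃ C' : ℝ, 0 < C' ∧ ∀ φ : SG (k + 1) ≃* SG (k + 1),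
      (∃ b, bd _ b = push φ.toMonoidHom (zS k) - zS k) →
      ∃ F : ℝ, Tendsto (fun n : ℕ =>
          (fill (push (hpow φ.toMonoidHom n) (zS k) - zS k) : ℝ) / n) atTop (𝓝 F) ∧
        ∀ μ : ℝ, Stretch φ μ → Real.log μ ≤ C' * F ∧
          ∀ p : ℕ, 1 ≤ p → Coded (6 * k + 2) (zS k) (hpow φ.toMonoidHom p) (μ ^ p) →
            F ≤ C' * Real.log μ := by
  refine ⟨cst72 k, lt_max_of_lt_right (upK_pos k), fun φ hφ =>
    ⟨FV φ.toMonoidHom (zS k), tendsto_FV hφ, fun μ hμ => ⟨?_, fun p hp hc => ?_⟩⟩⟩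
  · exact (stretch21 hA hφ hμ).trans
      (mul_le_mul_of_nonneg_right (le_max_left _ _) (FV_nonneg16 hφ))
  · exact (coded32 hφ hμ.1 hp hc).trans
      (mul_le_mul_of_nonneg_right (le_max_right _ _) (Real.log_nonneg hμ.1.le))

end Pool.Agent.Lib.MP_e3aa0a_gt.FVL
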