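import Pool.Agent.Lib.MP_e3aa0a_gt.FVL.Fin72
import Pool.Agent.Lib.MP_e3aa0a_gt.FVL.Defs29

/-!
# FVL: the frame of the final theorem with the same stretch factor for both bounds
-/

set_option autoImplicit false

namespace Pool.Agent.Lib.MP_e3aa0a_gt.FVL

open Pool.Agent.Lib.FVol Filter Topology

section gen

variable {G : Type} [Group G]

/-- `φ` is coded by a closed path of the (generalised) Rauzy-Veech induction with stretch factor
`μ`, starting at a polygon with at most `N` letters whose labels present `G` as the fundamental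
group of the closed surface, without one-pronged vertices, with 2-cycle homologous to `z` or
`-z`. -/
def Coding (N : ℕ) (z : C2 G) (φ : G →* G) (μ : ℝ) : Prop :=
  ∃ (n : ℕ) (V : Type) (d : Dat (Fin n) V G) (c : V → G), 0 < n ∧ n ≤ N ∧ Good d ∧ IsPi1 d ∧
    NoOneProng d ∧ Relation.ReflTransGen Rv d (tw φ c μ d) ∧
    ((∃ b : C3 G, bd G b = cyc d - z) ∨ ∃ b : C3 G, bd G b = cyc d + z)

theorem Coding.coded {N : ℕ} {z : C2 G} {φ : G →* G} {μ : ℝ} (h : Coding N z φ μ) :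
    Coded N z φ μ := by
  obtain ⟨n, V, d, c, _, hn, hd, _, _, hp, hc⟩ := h
  exact ⟨n, V, d, c, hn, hd, hp, hc⟩

/-- the lower bound for the filling volume of a coded map -/
theorem low72 (hL : StLow) {N : ℕ} {z : C2 G} {φ : G →* G} {μ : ℝ} (hz : IsB (push φ z - z))
    (hμ : 1 < μ) (h : Coding N z φ μ) : Real.log μ ≤ 3 / 2 * Real.log 2 * FV φ z := by
  obtain ⟨n, V, d, c, hn0, hn, hd, hpi, hpr, hp, hc⟩ := h
  haveI : Nonempty (Fin n) := ⟨⟨0, hn0⟩⟩
  obtain ⟨C, hC, hk⟩ := hL (Fin n) V G d φ c μ hd hpi hpr hμ hp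
  -- the cycle of the polygon
  have hb : IsB (push φ (cyc d) - cyc d) := by
    obtain ⟨b, hb, -⟩ := fil_iter hd hp hμ 1
    have e : hpow φ 1 = φ := by
      show φ.comp (MonoidHom.id G) = φ
      exact MonoidHom.comp_id φ
    rw [e] at hb
    exact ⟨b, hb⟩
  have hFV : FV φ (cyc d) = FV φ z := by
    rcases hc with hc | hc
    · exact FV_change16 hz hc
    · have h1 : IsB (cyc d - -z) := by
        rw [sub_neg_eq_add]; exact hc
      rw [← FV_neg16 φ z]
      exact FV_change16 (isB_neg16 hz) h1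
  rw [← hFV]
  refine growth16 (u := fun k => μ ^ k) (C := C) (D := 0) hb (fun k => ?_) one_pos
    (zero_lt_one.trans hμ) (Frequently.of_forall fun k => (one_mul _).le)
  refine (hk k).trans (le_of_eq ?_)
  congr 1
  rw [Nat.add_zero, Real.sqrt_eq_rpow, ← Real.rpow_natCast, ← Real.rpow_mul (by norm_num)]
  unfold hfill
  congr 1
  ring

/-- the same for a power -/
theorem low72p (hL : StLow) {N : ℕ} {z : C2 G} {φ : G →* G} {μ : ℝ} (hz : IsB (push φ z - z))
    (hμ : 1 < μ) {p : ℕ} (hp : 1 ≤ p) (h : Coding N z (hpow φ p) (μ ^ p)) :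
    Real.log μ ≤ 3 / 2 * Real.log 2 * FV φ z := by
  have h1 := low72 hL (isB_pow16 hz p) (one_lt_pow₀ hμ (by omega)) h
  rw [Real.log_pow, FV_pow16 hz p] at h1
  have hp0 : (0 : ℝ) < p := by exact_mod_cast hp
  have h2 : (p : ℝ) * Real.log μ ≤ p * (3 / 2 * Real.log 2 * FV φ z) := by
    refine h1.trans (le_of_eq ?_)
    ring
  exact le_of_mul_le_mul_left h2 hp0

end gen

/-- **both bounds** -/
theorem fin72b (hL : StLow) {k : ℕ} {C : ℝ} (hA : BndA k C) :
    ∃ C' : ℝ, 0 < C' ∧ ∀ φ : SG (k + 1) ≃* SG (k + 1),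
      (∃ b, bd _ b = push φ.toMonoidHom (zS k) - zS k) →
      ∃ F : ℝ, Tendsto (fun n : ℕ =>
          (fill (push (hpow φ.toMonoidHom n) (zS k) - zS k) : ℝ) / n) atTop (𝓝 F) ∧
        ∀ μ : ℝ, 1 < μ →
          (Stretch φ μ → Real.log μ ≤ C' * F) ∧
          ∀ p : ℕ, 1 ≤ p → Coding (6 * k + 2) (zS k) (hpow φ.toMonoidHom p) (μ ^ p) →
            Real.log μ ≤ C' * F ∧ F ≤ C' * Real.log μ := by
  refine ⟨cst72 k, lt_max_of_lt_right (upK_pos k), fun φ hφ =>
    ⟨FV φ.toMonoidHom (zS k), tendsto_FV hφ, fun μ hμ => ⟨fun hs => ?_, fun p hp hc => ⟨?_, ?_⟩⟩⟩⟩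
  · exact (stretch21 hA hφ hs).trans
      (mul_le_mul_of_nonneg_right (le_max_left _ _) (FV_nonneg16 hφ))
  · exact (low72p hL hφ hμ hp hc).trans
      (mul_le_mul_of_nonneg_right (le_max_left _ _) (FV_nonneg16 hφ))
  · exact (coded32 hφ hμ hp hc.coded).trans
      (mul_le_mul_of_nonneg_right (le_max_right _ _) (Real.log_nonneg hμ.le))

end Pool.Agent.Lib.MP_e3aa0a_gt.FVL
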