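import Pool.Agent.Lib.MP_e3aa0a_gt.FVL.Val32
import Pool.Agent.Lib.MP_e3aa0a_gt.FVL.Asm83

/-!
# FVL, module Trop32: a tropical label function on the whole group `SL₂(K)`

The base vector `u` is perturbed by an infinitesimal of lowest priority, so that only the matrices
`1` and `-1` have the label zero.
-/

set_option autoImplicit false

namespace Pool.Agent.Lib.MP_e3aa0a_gt.FVL

open Matrix HahnSeries

section val

variable {K : Type*} [Field K]

/-- the vector of all values of an element, `0` for the element `0` -/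
noncomputable def vv32 (W : Set (K → ℝ)) (x : K) : W → ℝ :=
  open Classical in fun w => if x = 0 then 0 else w.1 x

theorem vv32_of_ne {W : Set (K → ℝ)} {x : K} (hx : x ≠ 0) (w : W) : vv32 W x w = w.1 x := by
  simp [vv32, hx]

theorem vv32_zero (W : Set (K → ℝ)) : vv32 W (0 : K) = 0 := by
  funext w
  simp [vv32]

theorem vv32_neg {W : Set (K → ℝ)} (hW : TRI32 K W) (x : K) : vv32 W (-x) = vv32 W x := by
  funext w
  rcases eq_or_ne x 0 with rfl | hx
  · rw [neg_zero]
  · rw [vv32_of_ne hx, vv32_of_ne (neg_ne_zero.2 hx), (hW.1 w.1 w.2).neg]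

theorem vv32_mul {W : Set (K → ℝ)} (hW : TRI32 K W) {x y : K} (hx : x ≠ 0) (hy : y ≠ 0) :
    vv32 W (x * y) = vv32 W x + vv32 W y := by
  funext w
  rw [Pi.add_apply, vv32_of_ne hx, vv32_of_ne hy, vv32_of_ne (mul_ne_zero hx hy)]
  exact hW.1 w.1 w.2 x y hx hy

theorem vv32_tri {W : Set (K → ℝ)} (hW : TRI32 K W) {x y z : K} (hx : x ≠ 0) (hy : y ≠ 0)
    (hz : z ≠ 0) (hs : x + y + z = 0) :
    vv32 W x = vv32 W y ∨ vv32 W y = vv32 W z ∨ vv32 W z = vv32 W x := by
  rcases hW.2 x y z hx hy hz hs with h | h | h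
  · refine Or.inl (funext fun w => ?_)
    rw [vv32_of_ne hx, vv32_of_ne hy]
    exact h w.1 w.2
  · refine Or.inr (Or.inl (funext fun w => ?_))
    rw [vv32_of_ne hy, vv32_of_ne hz]
    exact h w.1 w.2
  · refine Or.inr (Or.inr (funext fun w => ?_))
    rw [vv32_of_ne hz, vv32_of_ne hx]
    exact h w.1 w.2

end val

section sl2

variable {K : Type*} [Field K]

/-- the matrices `1` and `-1` -/
def PM32 (M : Matrix.SpecialLinearGroup (Fin 2) K) : Prop := M.1 = 1 ∨ M.1 = -1

theorem lab32_pm_mul {u : Fin 2 → K} {E : Matrix.SpecialLinearGroup (Fin 2) K} (hE : PM32 E)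
    (M : Matrix.SpecialLinearGroup (Fin 2) K) :
    lab32 u (E * M) = lab32 u M ∨ lab32 u (E * M) = - lab32 u M := by
  rcases hE with h | h
  · left
    rw [lab32, lab32, Matrix.SpecialLinearGroup.coe_mul, h, one_mul]
  · right
    rw [lab32, lab32, Matrix.SpecialLinearGroup.coe_mul, h, neg_one_mul, Matrix.neg_mulVec]
    simp only [det32, Pi.neg_apply]
    ring

theorem lab32_mul_pm {u : Fin 2 → K} {E : Matrix.SpecialLinearGroup (Fin 2) K} (hE : PM32 E)
    (M : Matrix.SpecialLinearGroup (Fin 2) K) :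
    lab32 u (M * E) = lab32 u M ∨ lab32 u (M * E) = - lab32 u M := by
  rcases hE with h | h
  · left
    rw [lab32, lab32, Matrix.SpecialLinearGroup.coe_mul, h, mul_one]
  · right
    rw [lab32, lab32, Matrix.SpecialLinearGroup.coe_mul, h, mul_neg_one, Matrix.neg_mulVec]
    simp only [det32, Pi.neg_apply]
    ring

/-- **Four terms, general form.** If only the matrices `1` and `-1` in a family of six labels have
label zero, the four term relation holds for the vector of values. -/
theorem four_vv32 {W : Set (K → ℝ)} (hW : TRI32 K W) (u : Fin 2 → K)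
    (a b c : Matrix.SpecialLinearGroup (Fin 2) K)
    (h : ∀ M ∈ ({a, b, c, a * b, b * c, a * b * c} :
      Set (Matrix.SpecialLinearGroup (Fin 2) K)), lab32 u M = 0 → PM32 M) :
    Four (fun M => vv32 W (lab32 u M)) a b c := by
  have inv : ∀ M : Matrix.SpecialLinearGroup (Fin 2) K,
      vv32 W (lab32 u M⁻¹) = vv32 W (lab32 u M) := fun M => by
    rw [lab32_inv, vv32_neg hW]
  have pml : ∀ E M : Matrix.SpecialLinearGroup (Fin 2) K, PM32 E →
      vv32 W (lab32 u (E * M)) = vv32 W (lab32 u M) := fun E M hE => by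
    rcases lab32_pm_mul hE (u := u) M with h1 | h1
    · rw [h1]
    · rw [h1, vv32_neg hW]
  have pmr : ∀ E M : Matrix.SpecialLinearGroup (Fin 2) K, PM32 E →
      vv32 W (lab32 u (M * E)) = vv32 W (lab32 u M) := fun E M hE => by
    rcases lab32_mul_pm hE (u := u) M with h1 | h1
    · rw [h1]
    · rw [h1, vv32_neg hW]
  simp only [Four]
  by_cases ha : lab32 u a = 0
  · have hE := h a (by simp) ha
    right; left
    rw [pml a b hE, mul_assoc, pml a (b * c) hE, add_comm]
  by_cases hb : lab32 u b = 0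
  · have hE := h b (by simp) hb
    left
    rw [pmr b a hE, pml b c hE]
  by_cases hc : lab32 u c = 0
  · have hE := h c (by simp) hc
    right; left
    rw [pmr c b hE, pmr c (a * b) hE]
  by_cases hab : lab32 u (a * b) = 0
  · have hE := h (a * b) (by simp) hab
    right; right
    rw [pml (a * b) c hE]
    have h1 : b = a⁻¹ * (a * b) := by group
    have h2 : vv32 W (lab32 u b) = vv32 W (lab32 u a) := by
      rw [h1, pmr (a * b) a⁻¹ hE, inv]
    rw [h2, add_comm]
  by_cases hbc : lab32 u (b * c) = 0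
  · have hE := h (b * c) (by simp) hbc
    right; right
    rw [mul_assoc, pmr (b * c) a hE]
    have h1 : b = (b * c) * c⁻¹ := by group
    have h2 : vv32 W (lab32 u b) = vv32 W (lab32 u c) := by
      conv_lhs => rw [h1]
      rw [pml (b * c) c⁻¹ hE, inv]
    rw [h2]
  by_cases habc : lab32 u (a * b * c) = 0
  · have hE := h (a * b * c) (by simp) habc
    left
    have h1 : a * b = (a * b * c) * c⁻¹ := by group
    have h2 : vv32 W (lab32 u (a * b)) = vv32 W (lab32 u c) := by
      conv_lhs => rw [h1]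
      rw [pml (a * b * c) c⁻¹ hE, inv]
    have h3 : b * c = a⁻¹ * (a * b * c) := by group
    have h4 : vv32 W (lab32 u (b * c)) = vv32 W (lab32 u a) := by
      rw [h3, pmr (a * b * c) a⁻¹ hE, inv]
    rw [h2, h4, add_comm]
  have hp := lab_pl32 u a b c
  have hp' : lab32 u a * lab32 u c + -(lab32 u (a * b) * lab32 u (b * c)) +
      lab32 u (a * b * c) * lab32 u b = 0 := by
    rw [← hp]; ring
  have e0 : vv32 W (lab32 u a * lab32 u c) = vv32 W (lab32 u a) + vv32 W (lab32 u c) :=
    vv32_mul hW ha hc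
  have e1 : vv32 W (-(lab32 u (a * b) * lab32 u (b * c))) =
      vv32 W (lab32 u (a * b)) + vv32 W (lab32 u (b * c)) := by
    rw [vv32_neg hW, vv32_mul hW hab hbc]
  have e2 : vv32 W (lab32 u (a * b * c) * lab32 u b) =
      vv32 W (lab32 u (a * b * c)) + vv32 W (lab32 u b) := vv32_mul hW habc hb
  rw [← e0, ← e1, ← e2]
  exact vv32_tri hW (mul_ne_zero ha hc) (neg_ne_zero.2 (mul_ne_zero hab hbc))
    (mul_ne_zero habc hb) hp'

end sl2

section perturb

variable {K : Type*} [Field K]

/-- constants in the Laurent series -/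
noncomputable def cs32 : K →+* HahnSeries ℤ K := HahnSeries.C

/-- the perturbed vector `u + σ p` -/
noncomputable def pv32 (u p : Fin 2 → K) : Fin 2 → HahnSeries ℤ K :=
  fun i => cs32 (u i) + single (1 : ℤ) (1 : K) * cs32 (p i)

/-- the matrix as a matrix of constants -/
noncomputable def cm32 :
    Matrix.SpecialLinearGroup (Fin 2) K →* Matrix.SpecialLinearGroup (Fin 2) (HahnSeries ℤ K) :=
  Matrix.SpecialLinearGroup.map cs32

/-- the bilinear extension of the label -/
def bl32 (u p : Fin 2 → K) (M : Matrix.SpecialLinearGroup (Fin 2) K) : K :=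
  det32 u (M.1 *ᵥ p) + det32 p (M.1 *ᵥ u)

theorem lab_pv32 (u p : Fin 2 → K) (M : Matrix.SpecialLinearGroup (Fin 2) K) :
    lab32 (pv32 u p) (cm32 M) = single (0 : ℤ) (lab32 u M) + single (1 : ℤ) (bl32 u p M) +
      single (2 : ℤ) (lab32 p M) := by
  have hC : ∀ x : K, single (0 : ℤ) x = cs32 x := fun x => rfl
  have h1 : ∀ x : K, single (1 : ℤ) x = single (1 : ℤ) (1 : K) * cs32 x := fun x => by
    rw [← hC, single_mul_single, add_zero, one_mul]
  have h2 : ∀ x : K, single (2 : ℤ) x = single (1 : ℤ) (1 : K) * single (1 : ℤ) (1 : K) *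
      cs32 x := fun x => by
    rw [← hC, single_mul_single, single_mul_single, one_mul, one_mul]
    norm_num
  rw [hC, h1, h2]
  simp only [lab32, det32, bl32, Matrix.mulVec, dotProduct, Fin.sum_univ_two, pv32, cm32,
    Matrix.SpecialLinearGroup.map_apply_coe, RingHom.mapMatrix_apply, Matrix.map_apply, map_add,
    map_sub, map_mul]
  ring

theorem pm_of_lab_zero32 {u p : Fin 2 → K} (hup : det32 u p ≠ 0)
    {M : Matrix.SpecialLinearGroup (Fin 2) K} (h : lab32 (pv32 u p) (cm32 M) = 0) : PM32 M := by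
  rw [lab_pv32] at h
  have q0 : lab32 u M = 0 := by
    have := congrArg (fun s : HahnSeries ℤ K => s.coeff 0) h
    simpa [coeff_single] using this
  have q1 : bl32 u p M = 0 := by
    have := congrArg (fun s : HahnSeries ℤ K => s.coeff 1) h
    simpa [coeff_single] using this
  have q2 : lab32 p M = 0 := by
    have := congrArg (fun s : HahnSeries ℤ K => s.coeff 2) h
    simpa [coeff_single] using this
  simp only [lab32, bl32, det32, Matrix.mulVec, dotProduct, Fin.sum_univ_two] at q0 q1 q2 hup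
  have hD : (u 0 * p 1 - u 1 * p 0) ^ 2 ≠ 0 := pow_ne_zero 2 hup
  have e10 : M.1 1 0 = 0 := by
    have h1 : M.1 1 0 * (u 0 * p 1 - u 1 * p 0) ^ 2 = 0 := by
      linear_combination (p 1) ^ 2 * q0 - p 1 * u 1 * q1 + (u 1) ^ 2 * q2
    exact (mul_eq_zero.1 h1).resolve_right hD
  have e01 : M.1 0 1 = 0 := by
    have h1 : M.1 0 1 * (u 0 * p 1 - u 1 * p 0) ^ 2 = 0 := by
      linear_combination -(p 0) ^ 2 * q0 + p 0 * u 0 * q1 - (u 0) ^ 2 * q2
    exact (mul_eq_zero.1 h1).resolve_right hD
  have e11 : M.1 1 1 = M.1 0 0 := by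
    have h1 : (M.1 1 1 - M.1 0 0) * (u 0 * p 1 - u 1 * p 0) ^ 2 = 0 := by
      rw [e10, e01] at q0 q1 q2
      linear_combination (p 1 - p 0) ^ 2 * q0 + (p 1 - p 0) * (u 0 - u 1) * q1 +
        (u 0 - u 1) ^ 2 * q2
    exact sub_eq_zero.1 ((mul_eq_zero.1 h1).resolve_right hD)
  have hdet := M.2
  rw [Matrix.det_fin_two, e10, e11, mul_zero, sub_zero] at hdet
  rcases mul_self_eq_one_iff.1 hdet with h1 | h1
  · left
    ext i j
    fin_cases i <;> fin_cases j <;> simp [e10, e01, e11, h1]
  · right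
    ext i j
    fin_cases i <;> fin_cases j <;> simp [e10, e01, e11, h1]

theorem pm_map32 {M : Matrix.SpecialLinearGroup (Fin 2) K} (h : PM32 M) : PM32 (cm32 M) := by
  rcases h with h | h
  · left
    show (M.1).map cs32 = 1
    rw [h, Matrix.map_one _ (map_zero _) (map_one _)]
  · right
    show (M.1).map cs32 = -1
    rw [h]
    ext i j
    fin_cases i <;> fin_cases j <;> simp

/-- the order and the leading coefficient of the perturbed label when the label is not zero -/
theorem order_lab_pv32 {u : Fin 2 → K} (p : Fin 2 → K) {M : Matrix.SpecialLinearGroup (Fin 2) K}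
    (h : lab32 u M ≠ 0) : lab32 (pv32 u p) (cm32 M) ≠ 0 ∧
      (lab32 (pv32 u p) (cm32 M)).order = 0 ∧
      (lab32 (pv32 u p) (cm32 M)).leadingCoeff = lab32 u M := by
  have hc : (lab32 (pv32 u p) (cm32 M)).coeff 0 = lab32 u M := by
    rw [lab_pv32]
    simp [coeff_single]
  have hne : lab32 (pv32 u p) (cm32 M) ≠ 0 := by
    intro h0
    rw [h0, coeff_zero] at hc
    exact h hc.symm
  have hle : (lab32 (pv32 u p) (cm32 M)).order ≤ 0 :=
    order_le_of_coeff_ne_zero (by rw [hc]; exact h)
  have hge : 0 ≤ (lab32 (pv32 u p) (cm32 M)).order := by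
    by_contra hlt
    push Not at hlt
    have h1 : (lab32 (pv32 u p) (cm32 M)).coeff (lab32 (pv32 u p) (cm32 M)).order ≠ 0 := by
      rw [Ne, coeff_order_eq_zero]
      exact hne
    apply h1
    generalize (lab32 (pv32 u p) (cm32 M)).order = n at hlt
    rw [lab_pv32]
    rw [coeff_add, coeff_add, coeff_single_of_ne (by omega), coeff_single_of_ne (by omega),
      coeff_single_of_ne (by omega), add_zero, add_zero]
  have ho : (lab32 (pv32 u p) (cm32 M)).order = 0 := le_antisymm hle hge
  exact ⟨hne, ho, by rw [leadingCoeff_eq, ho, hc]⟩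

end perturb

section trop

variable {K : Type*} [Field K]

/-- the value space of the tropical label function -/
abbrev MV32 (W : Set (K → ℝ)) : Type _ := (hahnW32 ℤ W) → ℝ

/-- **The tropical label function** on `SL₂(K)` with base vector `u`, perturbed in direction
`p`. -/
noncomputable def L32 (W : Set (K → ℝ)) (u p : Fin 2 → K)
    (M : Matrix.SpecialLinearGroup (Fin 2) K) : MV32 W :=
  vv32 (hahnW32 ℤ W) (lab32 (pv32 u p) (cm32 M))

theorem L32_inv {W : Set (K → ℝ)} (hW : TRI32 K W) (u p : Fin 2 → K)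
    (M : Matrix.SpecialLinearGroup (Fin 2) K) : L32 W u p M⁻¹ = L32 W u p M := by
  rw [L32, map_inv, lab32_inv, vv32_neg (tri_hahn32 hW)]
  rfl

/-- the four term relation holds for all triples of matrices -/
theorem four32 {W : Set (K → ℝ)} (hW : TRI32 K W) {u p : Fin 2 → K} (hup : det32 u p ≠ 0)
    (a b c : Matrix.SpecialLinearGroup (Fin 2) K) : Four (L32 W u p) a b c := by
  have h := four_vv32 (tri_hahn32 (Γ := ℤ) hW) (pv32 u p) (cm32 a) (cm32 b) (cm32 c) ?_
  · simpa only [Four, L32, map_mul] using h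
  · intro M hM h0
    have key : ∀ N : Matrix.SpecialLinearGroup (Fin 2) K, M = cm32 N → PM32 M := by
      rintro N rfl
      exact pm_map32 (pm_of_lab_zero32 hup h0)
    simp only [Set.mem_insert_iff, Set.mem_singleton_iff] at hM
    rcases hM with h1 | h1 | h1 | h1 | h1 | h1
    · exact key a h1
    · exact key b h1
    · exact key c h1
    · exact key (a * b) (by rw [h1, map_mul])
    · exact key (b * c) (by rw [h1, map_mul])
    · exact key (a * b * c) (by rw [h1, map_mul, map_mul])

/-- **`L32` is tropical** for every homomorphism and every matrix `γ`. -/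
theorem trop32 {G : Type*} [Group G] {W : Set (K → ℝ)} (hW : TRI32 K W) {u p : Fin 2 → K}
    (hup : det32 u p ≠ 0) (ρ : G →* Matrix.SpecialLinearGroup (Fin 2) K)
    (γ : Matrix.SpecialLinearGroup (Fin 2) K) : IsTrop ρ γ (L32 W u p) where
  inv := L32_inv hW u p
  bot _ _ _ := four32 hW hup _ _ _
  col1 _ _ := four32 hW hup _ _ _
  col2 _ _ := four32 hW hup _ _ _
  col3 _ _ := four32 hW hup _ _ _

/-- the functional belonging to `w ∈ W` -/
noncomputable def ev32 {W : Set (K → ℝ)} (w : K → ℝ) (hw : w ∈ W) : MV32 W →+ ℝ :=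
  Pi.evalAddMonoidHom (fun _ : hahnW32 ℤ W => ℝ)
    ⟨fun x => w x.leadingCoeff, Or.inl ⟨w, hw, rfl⟩⟩

theorem ev32_L {W : Set (K → ℝ)} {w : K → ℝ} (hw : w ∈ W) {u : Fin 2 → K} (p : Fin 2 → K)
    {M : Matrix.SpecialLinearGroup (Fin 2) K} (h : lab32 u M ≠ 0) :
    ev32 w hw (L32 W u p M) = w (lab32 u M) := by
  obtain ⟨h1, -, h3⟩ := order_lab_pv32 p h
  show L32 W u p M ⟨_, _⟩ = _
  rw [L32, vv32_of_ne h1]
  show w (lab32 (pv32 u p) (cm32 M)).leadingCoeff = _
  rw [h3]

/-- for every non-zero `u` there is a direction `p` -/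
theorem exists_dir32 {u : Fin 2 → K} (hu : u ≠ 0) : ∃ p : Fin 2 → K, det32 u p ≠ 0 := by
  by_cases h0 : u 0 = 0
  · refine ⟨![1, 0], ?_⟩
    have h1 : u 1 ≠ 0 := by
      intro h1
      apply hu
      ext i
      fin_cases i
      · exact h0
      · exact h1
    simpa [det32] using h1
  · exact ⟨![0, 1], by simpa [det32] using h0⟩

end trop

end Pool.Agent.Lib.MP_e3aa0a_gt.FVL
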