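import Pool.Agent.Lib.MP_e3aa0a_gt.FVL.Lim21
import Pool.Agent.Lib.MP_e3aa0a_gt.FVL.FanHom21
import Pool.Agent.Lib.MP_e3aa0a_gt.FVL.Trop32

/-!
Project FVL (MP_e3aa0a_gt), helper21: the fan cycle in the surface group `SG g`, its labels, and
`main21` in this case with the tropical label function `L32`.
-/

set_option autoImplicit false

namespace Pool.Agent.Lib.MP_e3aa0a_gt.FVL.SGinst21

open Pool.Agent.Lib.FVol Matrix
open Ker21 (Lab)
open Fan21 Lim21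
open scoped commutatorElement

/-- the generators of the surface group -/
def u21 (g : ℕ) (a : Let g) : SG g := PresentedGroup.of a

theorem z21_eq (g : ℕ) : z21 g = zc (u21 g) := rfl

theorem wpr_u21 (g : ℕ) : wpr (u21 g) (rel g) = 1 := by
  rw [wpr_rel]
  have h : PresentedGroup.mk ({relW g} : Set (FreeGroup (Gen g))) (relW g) = 1 :=
    PresentedGroup.one_of_mem (Set.mem_singleton _)
  have h2 : PresentedGroup.mk ({relW g} : Set (FreeGroup (Gen g)))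
      (List.ofFn fun i : Fin g => cm i).prod =
      (List.ofFn fun i => ⁅u21 g (Sum.inl i), u21 g (Sum.inr i)⁆).prod := by
    rw [map_list_prod, List.map_ofFn]
    rfl
  exact h2.symm.trans h

theorem bd2_z21 (g : ℕ) : bd2 (SG g) (z21 g) = 0 := bd2_zc (u21 g) (wpr_u21 g)

theorem nrm_z21_le (g : ℕ) : nrm (z21 g) ≤ 12 * g := nrm_zc_le (u21 g)

open Classical in
/-- the letters -/
noncomputable def let21 (g : ℕ) : Finset (SG g) := Finset.univ.image (u21 g)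

theorem card_let21 (g : ℕ) : (let21 g).card ≤ 2 * g := by
  classical
  have h := card_letters (u21 g)
  rw [let21]
  convert h

/-- the labels of the fan triangulation -/
def lab21 (g : ℕ) : Lab g → SG g := lb (u21 g)

theorem lab21_kb (k : ℕ) : lab21 (k + 1) (kb (Nat.succ_pos k)) = b21 k := rfl

theorem lab21_ka (k : ℕ) :
    lab21 (k + 1) (ka (Nat.succ_pos k)) = PresentedGroup.of (Sum.inl 0) := rfl

theorem lab21_inl {g : ℕ} (i : Fin g) : lab21 g (Sum.inl i) = PresentedGroup.of (Sum.inl i) := rfl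

theorem lab21_inr {g : ℕ} (i : Fin g) :
    lab21 g (Sum.inr (Sum.inl i)) = PresentedGroup.of (Sum.inr i) := rfl

theorem lab21_pref {g : ℕ} (k : Fin (4 * g - 3)) :
    lab21 g (Sum.inr (Sum.inr k)) = pref (u21 g) (k.1 + 2) := rfl

/-- the label `a_1 b_1` -/
theorem lab21_kab (k : ℕ) : lab21 (k + 1) (kab (Nat.succ_pos k)) =
    lab21 (k + 1) (ka (Nat.succ_pos k)) * lab21 (k + 1) (kb (Nat.succ_pos k)) :=
  lb_kab (Nat.succ_pos k) (u21 (k + 1))

/-- the label `a_1 b_1 a_1⁻¹` -/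
theorem lab21_kc {k : ℕ} (hk : 1 < k + 1) : lab21 (k + 1) (kc hk) =
    PresentedGroup.of (Sum.inl 0) * b21 k * (PresentedGroup.of (Sum.inl 0))⁻¹ :=
  lb_kc hk (u21 (k + 1))

/-- the hypothesis `hom` of `main83` and `top31` -/
theorem hom_SG {g : ℕ} (hg : 0 < g) {Γ : Type*} [Group Γ] (f : SG g →* Γ) (w w' : Γ → ℝ)
    (h : ∀ a ∈ let21 g, w (f a)⁻¹ = w (f a)) (h' : ∀ a ∈ let21 g, w' (f a)⁻¹ = w' (f a)) :
    om w w' (pushG f (z21 g)) =
      Ker21.om g (fun k => w (f (lab21 g k))) (fun k => w' (f (lab21 g k))) := by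
  classical
  refine hom21 hg (u21 g) (wpr_u21 g) f w w' ?_ ?_
  · intro a ha
    exact h a (by rw [let21]; convert ha)
  · intro a ha
    exact h' a (by rw [let21]; convert ha)

theorem ne_ka_kb {g : ℕ} (hg : 0 < g) : ka hg ≠ kb hg := by simp [ka, kb]

theorem ne_kab_kb {g : ℕ} (hg : 0 < g) : kab hg ≠ kb hg := by simp [kab, kb]

/-- **The core inequality** for the surface group and the tropical label function of a field. -/
theorem coreSG21 {k : ℕ} (hk : 1 ≤ k) {K : Type*} [Field K] {W : Set (K → ℝ)} (hW : TRI32 K W)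
    {u p : Fin 2 → K} (hup : det32 u p ≠ 0)
    (ρ : SG (k + 1) →* Matrix.SpecialLinearGroup (Fin 2) K) (θ : SG (k + 1) →* SG (k + 1))
    (γ : Matrix.SpecialLinearGroup (Fin 2) K) (b : C3 (SG (k + 1)))
    (hb : bd _ b = push θ (z21 (k + 1)) - z21 (k + 1))
    (hX : ∀ j, lab32 u (ρ (lab21 (k + 1) j)) ≠ 0)
    (f : Fin (6 * (k + 1) - 4) → K → ℝ) (hf : ∀ i, f i ∈ W)
    (hli : LinearIndependent ℝ
      (fun i => (fun j => f i (lab32 u (ρ (lab21 (k + 1) j))) : Lab (k + 1) → ℝ)))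
    (hY : ∀ j, lab32 (γ.1 *ᵥ u) (ρ (θ (lab21 (k + 1) j))) ≠ 0)
    (l1 l2 : K → ℝ) (hl1 : l1 ∈ W) (hl2 : l2 ∈ W)
    (z1 : ∀ j, l1 (lab32 u (ρ (lab21 (k + 1) j))) = 0)
    (z2 : ∀ j, l2 (lab32 u (ρ (lab21 (k + 1) j))) = 0)
    (c1 : ℝ) (hc1 : c1 ≠ 0) (t1 : ∀ j, l1 (lab32 (γ.1 *ᵥ u) (ρ (θ (lab21 (k + 1) j)))) = c1)
    (t2 : ∀ j, j ≠ kb (Nat.succ_pos k) →
      l2 (lab32 (γ.1 *ᵥ u) (ρ (θ (lab21 (k + 1) j)))) = 0)
    (t3 : l2 (lab32 (γ.1 *ᵥ u) (ρ (θ (b21 k)))) ≠ 0) (l : K → ℝ) (hl : l ∈ W) :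
    |l (lab32 (γ.1 *ᵥ u) (ρ (θ (lab21 (k + 1) (kab (Nat.succ_pos k)))))) -
      l (lab32 (γ.1 *ᵥ u) (ρ (θ (lab21 (k + 1) (ka (Nat.succ_pos k))))))| ≤
      √2 * √8 ^ (nrm b + 40 * (k + 1)) * ∑ j, |l (lab32 u (ρ (lab21 (k + 1) j)))| := by
  have htop : ∀ x, lab32 u (γ⁻¹ * x * γ) = lab32 (γ.1 *ᵥ u) x := fun x => lab32_conj u γ x
  have eb : ∀ (w : K → ℝ) (hw : w ∈ W) j, ev32 w hw (L32 W u p (ρ (lb (u21 (k + 1)) j))) =
      w (lab32 u (ρ (lab21 (k + 1) j))) := fun w hw j => ev32_L hw p (hX j)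
  have et : ∀ (w : K → ℝ) (hw : w ∈ W) j,
      ev32 w hw (L32 W u p (γ⁻¹ * ρ (θ (lb (u21 (k + 1)) j)) * γ)) =
      w (lab32 (γ.1 *ᵥ u) (ρ (θ (lab21 (k + 1) j)))) := fun w hw j => by
    rw [ev32_L hw p (by rw [htop]; exact hY j), htop]
    rfl
  have h := main21 (M := MV32 W) (L := L32 W u p) (by omega : 2 ≤ k + 1) (u21 (k + 1))
    (wpr_u21 (k + 1)) ρ θ γ (trop32 hW hup ρ γ) b hb (fun i => ev32 (f i) (hf i))
    (by simp only [eb]; exact hli) (ev32 l1 hl1) (ev32 l2 hl2)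
    (fun j => by rw [eb]; exact z1 j) (fun j => by rw [eb]; exact z2 j) c1 hc1
    (fun j => by rw [et]; exact t1 j)
    (fun j hj => by rw [et]; exact t2 j hj)
    (by
      have h1 := et l2 hl2 (kb (Nat.succ_pos k))
      rw [lab21_kb] at h1
      intro h0
      exact t3 (h1.symm.trans h0)) (ev32 l hl)
  have h1 := et l hl (kab (Nat.succ_pos k))
  have h2 := et l hl (ka (Nat.succ_pos k))
  have e1 : lb (u21 (k + 1)) (kab (Nat.succ_pos k)) =
      u21 (k + 1) (Sum.inl ⟨0, by omega⟩) * u21 (k + 1) (Sum.inr ⟨0, by omega⟩) :=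
    lb_kab (Nat.succ_pos k) _
  rw [e1] at h1
  rw [lb_ka] at h2
  rw [← h1, ← h2]
  simp only [eb] at h
  exact h

end Pool.Agent.Lib.MP_e3aa0a_gt.FVL.SGinst21
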