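import Pool.Agent.Lib.MP_e3aa0a_gt.FVL.Fin72
import Pool.Agent.Lib.MP_e3aa0a_gt.FVL.SGinst21

/-!
# FVL: the frame of the final theorem for all pseudo-Anosov classes

The upper bound comes from lifts to automorphisms of the free group (the class fixes a point, the
complement of which has free fundamental group).
-/

set_option autoImplicit false

namespace Pool.Agent.Lib.MP_e3aa0a_gt.FVL

open Pool.Agent.Lib.FVol Filter Topology

/-- the greatest length of the reduced words `Φ x_i` -/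
def mlen {A : Type} [Fintype A] [DecidableEq A] (Φ : FreeGroup A →* FreeGroup A) : ℕ :=
  Finset.univ.sup fun i => (Φ (FreeGroup.of i)).norm

/-- `φ` is induced, up to an inner automorphism, by an endomorphism `Φ` of the free group with
`Φ R = u R u⁻¹`, `R` the relator of the surface group, whose word lengths grow with the factor
`μ`. -/
def LiftGrowth {k : ℕ} (φ : SG (k + 1) →* SG (k + 1)) (μ : ℝ) : Prop :=
  ∃ (Φ : FreeGroup (Gen (k + 1)) →* FreeGroup (Gen (k + 1))) (u : FreeGroup (Gen (k + 1)))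
    (h : SG (k + 1)), Φ (relW (k + 1)) = u * relW (k + 1) * u⁻¹ ∧
    (∀ i, PresentedGroup.mk {relW (k + 1)} (Φ (FreeGroup.of i)) =
      h⁻¹ * φ (PresentedGroup.of i) * h) ∧
    Tendsto (fun n : ℕ => Real.log (mlen (hpow Φ n)) / n) atTop (𝓝 (Real.log μ))

/-- the logarithmic filling of the cycles `θ z - z` -/
def StFLG (k : ℕ) : Prop :=
  ∃ C : ℝ, ∀ (Φ : FreeGroup (Gen (k + 1)) →* FreeGroup (Gen (k + 1)))
    (u : FreeGroup (Gen (k + 1))) (θ : SG (k + 1) →* SG (k + 1)),
    Φ (relW (k + 1)) = u * relW (k + 1) * u⁻¹ →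
    (∀ x, θ (PresentedGroup.mk {relW (k + 1)} x) = PresentedGroup.mk {relW (k + 1)} (Φ x)) →
    ∀ L : ℕ, 1 ≤ L → (∀ i, (Φ (FreeGroup.of i)).norm ≤ L) → u.norm ≤ L →
      Fil (C * (1 + Real.logb 2 L)) (push θ (zS k) - zS k)

section free

variable {A : Type} [Fintype A] [DecidableEq A]

theorem norm_of_le_mlen (Φ : FreeGroup A →* FreeGroup A) (i : A) :
    (Φ (FreeGroup.of i)).norm ≤ mlen Φ :=
  Finset.le_sup (f := fun i => (Φ (FreeGroup.of i)).norm) (Finset.mem_univ i)

theorem norm_map_le (Φ : FreeGroup A →* FreeGroup A) {M : ℕ}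
    (hM : ∀ i, (Φ (FreeGroup.of i)).norm ≤ M) (x : FreeGroup A) :
    (Φ x).norm ≤ x.norm * M := by
  have key : ∀ L : List (A × Bool), (Φ (FreeGroup.mk L)).norm ≤ L.length * M := by
    intro L
    induction L with
    | nil =>
      have : FreeGroup.mk ([] : List (A × Bool)) = 1 := FreeGroup.one_eq_mk.symm
      rw [this, map_one, FreeGroup.norm_one]
      exact Nat.zero_le _
    | cons z L ih =>
      have h1 : FreeGroup.mk (z :: L) = FreeGroup.mk [z] * FreeGroup.mk L := by
        rw [FreeGroup.mul_mk]; rfl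
      rw [h1, map_mul, List.length_cons, add_mul, one_mul, add_comm]
      refine (FreeGroup.norm_mul_le _ _).trans (add_le_add ?_ ih)
      obtain ⟨a, s⟩ := z
      cases s
      · have h2 : FreeGroup.mk [(a, false)] = (FreeGroup.of a)⁻¹ := by
          rw [FreeGroup.of, FreeGroup.inv_mk]; rfl
        rw [h2, map_inv, FreeGroup.norm_inv_eq]
        exact hM a
      · exact hM a
  have := key x.toWord
  rwa [FreeGroup.mk_toWord] at this

/-- the conjugating elements of the powers -/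
def upow (Φ : FreeGroup A →* FreeGroup A) (u : FreeGroup A) : ℕ → FreeGroup A
  | 0 => 1
  | n + 1 => hpow Φ n u * upow Φ u n

theorem hpow_succ' (Φ : FreeGroup A →* FreeGroup A) (n : ℕ) (x : FreeGroup A) :
    hpow Φ (n + 1) x = hpow Φ n (Φ x) := by
  have h : hpow Φ (n + 1) = (hpow Φ n).comp (hpow Φ 1) := hpow_add Φ n 1
  rw [h]
  rfl

theorem hpow_conj (Φ : FreeGroup A →* FreeGroup A) {u R : FreeGroup A}
    (h : Φ R = u * R * u⁻¹) : ∀ n, hpow Φ n R = upow Φ u n * R * (upow Φ u n)⁻¹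
  | 0 => by
    show R = 1 * R * 1⁻¹
    rw [one_mul, inv_one, mul_one]
  | n + 1 => by
    rw [hpow_succ', h, map_mul, map_mul, hpow_conj Φ h n, map_inv]
    show _ = hpow Φ n u * upow Φ u n * R * (hpow Φ n u * upow Φ u n)⁻¹
    group

theorem norm_upow_le (Φ : FreeGroup A →* FreeGroup A) (u : FreeGroup A) {M : ℕ} :
    ∀ n, (∀ j < n, mlen (hpow Φ j) ≤ M) → (upow Φ u n).norm ≤ n * (u.norm * M)
  | 0, _ => by
    show (1 : FreeGroup A).norm ≤ _
    rw [FreeGroup.norm_one]
    exact Nat.zero_le _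
  | n + 1, h => by
    show (hpow Φ n u * upow Φ u n).norm ≤ _
    refine (FreeGroup.norm_mul_le _ _).trans ?_
    have h1 := norm_map_le (hpow Φ n) (M := M)
      (fun i => (norm_of_le_mlen _ i).trans (h n (Nat.lt_succ_self n))) u
    have h2 := norm_upow_le Φ u n fun j hj => h j (hj.trans (Nat.lt_succ_self n))
    rw [add_mul, one_mul]
    omega

end free

theorem hpow_lift {k : ℕ} {Φ : FreeGroup (Gen (k + 1)) →* FreeGroup (Gen (k + 1))}
    {θ : SG (k + 1) →* SG (k + 1)}
    (h : ∀ x, θ (PresentedGroup.mk {relW (k + 1)} x) = PresentedGroup.mk {relW (k + 1)} (Φ x)) :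
    ∀ n x, hpow θ n (PresentedGroup.mk {relW (k + 1)} x) =
      PresentedGroup.mk {relW (k + 1)} (hpow Φ n x)
  | 0, _ => rfl
  | n + 1, x => by
    show θ (hpow θ n (PresentedGroup.mk {relW (k + 1)} x)) =
      PresentedGroup.mk {relW (k + 1)} (Φ (hpow Φ n x))
    rw [hpow_lift h n, h]

/-- a sequence with exponential growth rate `r` is bounded by an exponential -/
theorem exp_bound {m : ℕ → ℕ} {r ε : ℝ} (hε : 0 < ε)
    (h : Tendsto (fun n : ℕ => Real.log (m n) / n) atTop (𝓝 r)) :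
    ∃ K : ℝ, 1 ≤ K ∧ ∀ n, (m n : ℝ) ≤ K * Real.exp ((r + ε) * n) := by
  have h1 : ∀ᶠ n : ℕ in atTop, Real.log (m n) / n < r + ε :=
    h.eventually_lt_const (lt_add_of_pos_right r hε)
  obtain ⟨N, hN⟩ := eventually_atTop.1 (h1.and (eventually_gt_atTop 0))
  have hpos : ∀ n : ℕ, (0 : ℝ) < Real.exp ((r + ε) * n) := fun n => Real.exp_pos _
  refine ⟨1 + ∑ n ∈ Finset.range N, (m n : ℝ) / Real.exp ((r + ε) * n), ?_, fun n => ?_⟩
  · have : (0 : ℝ) ≤ ∑ n ∈ Finset.range N, (m n : ℝ) / Real.exp ((r + ε) * n) :=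
      Finset.sum_nonneg fun n _ => div_nonneg (Nat.cast_nonneg _) (hpos n).le
    linarith
  · rcases lt_or_ge n N with hn | hn
    · have h2 : (m n : ℝ) / Real.exp ((r + ε) * n) ≤
          ∑ n ∈ Finset.range N, (m n : ℝ) / Real.exp ((r + ε) * n) :=
        Finset.single_le_sum (f := fun n : ℕ => (m n : ℝ) / Real.exp ((r + ε) * n))
          (fun n _ => div_nonneg (Nat.cast_nonneg _) (hpos n).le) (Finset.mem_range.2 hn)
      have h3 : (m n : ℝ) = (m n : ℝ) / Real.exp ((r + ε) * n) * Real.exp ((r + ε) * n) := by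
        rw [div_mul_cancel₀ _ (hpos n).ne']
      rw [h3]
      refine mul_le_mul_of_nonneg_right ?_ (hpos n).le
      linarith
    · obtain ⟨h2, h3⟩ := hN n hn
      have hn0 : (0 : ℝ) < n := by exact_mod_cast h3
      rw [div_lt_iff₀ hn0] at h2
      have h4 : (m n : ℝ) ≤ Real.exp ((r + ε) * n) := by
        rcases Nat.eq_zero_or_pos (m n) with h0 | h0
        · rw [h0, Nat.cast_zero]
          exact (hpos n).le
        · have h5 : (0 : ℝ) < m n := by exact_mod_cast h0
          rw [← Real.exp_log h5]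
          exact Real.exp_le_exp.2 h2.le
      have h5 : (0 : ℝ) ≤ ∑ n ∈ Finset.range N, (m n : ℝ) / Real.exp ((r + ε) * n) :=
        Finset.sum_nonneg fun n _ => div_nonneg (Nat.cast_nonneg _) (hpos n).le
      nlinarith [hpos n]

/-- the upper bound from the logarithmic filling -/
theorem upper72 {k : ℕ} {C : ℝ}
    (hU : ∀ (Φ : FreeGroup (Gen (k + 1)) →* FreeGroup (Gen (k + 1)))
      (u : FreeGroup (Gen (k + 1))) (θ : SG (k + 1) →* SG (k + 1)),
      Φ (relW (k + 1)) = u * relW (k + 1) * u⁻¹ →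
      (∀ x, θ (PresentedGroup.mk {relW (k + 1)} x) = PresentedGroup.mk {relW (k + 1)} (Φ x)) →
      ∀ L : ℕ, 1 ≤ L → (∀ i, (Φ (FreeGroup.of i)).norm ≤ L) → u.norm ≤ L →
        Fil (C * (1 + Real.logb 2 L)) (push θ (zS k) - zS k))
    (hC : 0 ≤ C) {φ : SG (k + 1) →* SG (k + 1)} (hφ : IsB (push φ (zS k) - zS k)) {μ : ℝ}
    (hμ : 1 < μ) (h : LiftGrowth φ μ) : FV φ (zS k) ≤ C / Real.log 2 * Real.log μ := by
  obtain ⟨Φ, u, g, h1, h2, h3⟩ := h
  -- the endomorphism induced by `Φ`
  have hz : bd2 (SG (k + 1)) (zS k) = 0 := SGinst21.bd2_z21 (k + 1)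
  have h4 : ∀ x, ((cj g).comp φ) (PresentedGroup.mk {relW (k + 1)} x) =
      PresentedGroup.mk {relW (k + 1)} (Φ x) := by
    intro x
    have e : ((cj g).comp φ).comp (PresentedGroup.mk {relW (k + 1)}) =
        (PresentedGroup.mk {relW (k + 1)}).comp Φ := by
      ext i
      show cj g (φ (PresentedGroup.of i)) = PresentedGroup.mk {relW (k + 1)} (Φ (FreeGroup.of i))
      rw [cj_apply, h2]
    exact DFunLike.congr_fun e x
  rw [← FV_inner16 hz hφ g]
  have hθ := isB_inner16 hz hφ g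
  set θ := (cj g).comp φ with hθdef
  have hl2 : 0 < Real.log 2 := Real.log_pos one_lt_two
  refine le_of_forall_pos_le_add fun ε hε => ?_
  obtain ⟨ε', hε', hεε⟩ : ∃ ε' : ℝ, 0 < ε' ∧ C / Real.log 2 * ε' ≤ ε := by
    refine ⟨ε / (C / Real.log 2 + 1), by positivity, ?_⟩
    rw [mul_div_assoc', div_le_iff₀ (by positivity)]
    nlinarith [div_nonneg hC hl2.le]
  obtain ⟨K, hK1, hK⟩ := exp_bound hε' h3
  set r : ℝ := Real.log μ + ε' with hr
  have hr0 : 0 < r := by
    have := Real.log_pos hμ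
    positivity
  -- the bound for the lengths
  have hlen : ∀ n : ℕ, ∃ L : ℕ, 1 ≤ L ∧ (∀ i, (hpow Φ n (FreeGroup.of i)).norm ≤ L) ∧
      (upow Φ u n).norm ≤ L ∧ (L : ℝ) ≤ (K + 1) * (n * u.norm + 1) * Real.exp (r * n) := by
    intro n
    have hm : ∀ j ≤ n, mlen (hpow Φ j) ≤ ⌊K * Real.exp (r * n)⌋₊ := by
      intro j hj
      apply Nat.le_floor
      refine (hK j).trans (mul_le_mul_of_nonneg_left (Real.exp_le_exp.2 ?_) (by linarith))
      exact mul_le_mul_of_nonneg_left (by exact_mod_cast hj) hr0.le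
    set M := ⌊K * Real.exp (r * n)⌋₊ with hM
    have hMle : (M : ℝ) ≤ K * Real.exp (r * n) :=
      Nat.floor_le (mul_nonneg (by linarith) (Real.exp_pos _).le)
    refine ⟨(n * u.norm + 1) * (M + 1), ?_, ?_, ?_, ?_⟩
    · exact Nat.succ_le_of_lt (Nat.mul_pos (Nat.succ_pos _) (Nat.succ_pos _))
    · intro i
      refine ((norm_of_le_mlen _ i).trans (hm n le_rfl)).trans ?_
      calc M ≤ 1 * (M + 1) := by omega
        _ ≤ (n * u.norm + 1) * (M + 1) := Nat.mul_le_mul_right _ (Nat.le_add_left _ _)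
    · refine (norm_upow_le Φ u n fun j hj => hm j hj.le).trans ?_
      have e1 : n * (u.norm * M) = n * u.norm * M := by ring
      rw [e1]
      exact Nat.mul_le_mul (Nat.le_succ _) (Nat.le_succ _)
    · push_cast
      have h5 : (1 : ℝ) ≤ Real.exp (r * n) := by
        rw [← Real.exp_zero]
        exact Real.exp_le_exp.2 (by positivity)
      have h6 : (0 : ℝ) ≤ (n : ℝ) * u.norm + 1 := by positivity
      have h7 : (M : ℝ) + 1 ≤ (K + 1) * Real.exp (r * n) := by nlinarith
      nlinarith [mul_le_mul_of_nonneg_left h7 h6]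
  -- the bound for the fillings
  have hfill : ∀ n : ℕ, (hfill (hpow θ n) (zS k) : ℝ) ≤
      C * (1 + (Real.log (K + 1) + Real.log (n * u.norm + 1) + r * n) / Real.log 2) := by
    intro n
    obtain ⟨L, hL1, hL2, hL3, hL4⟩ := hlen n
    have h5 := hU (hpow Φ n) (upow Φ u n) (hpow θ n) (hpow_conj Φ h1 n) (hpow_lift h4 n) L hL1
      hL2 hL3
    refine (fill_le h5).trans (mul_le_mul_of_nonneg_left ?_ hC)
    have hL0 : (0 : ℝ) < L := by exact_mod_cast hL1
    have h6 : (0 : ℝ) < (n : ℝ) * u.norm + 1 := by positivity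
    have h7 : Real.log L ≤ Real.log (K + 1) + Real.log (n * u.norm + 1) + r * n := by
      refine (Real.log_le_log hL0 hL4).trans (le_of_eq ?_)
      rw [Real.log_mul (by positivity) (Real.exp_pos _).ne', Real.log_exp,
        Real.log_mul (by positivity) h6.ne']
    rw [Real.logb]
    have := div_le_div_of_nonneg_right h7 hl2.le
    linarith
  -- the limit
  have hlim : Tendsto (fun n : ℕ => C * (1 / (n : ℝ) + (Real.log (K + 1) / n +
      Real.log (n * u.norm + 1) / n + r) / Real.log 2)) atTop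
      (𝓝 (C * (0 + (0 + 0 + r) / Real.log 2))) := by
    refine Tendsto.const_mul _ (Tendsto.add tendsto_one_div_atTop_nhds_zero_nat
      (Tendsto.div_const (Tendsto.add (Tendsto.add (tendsto_const_div_atTop_nhds_zero_nat _) ?_)
        tendsto_const_nhds) _))
    -- `log (n a + 1) / n → 0`
    have h5 : Tendsto (fun n : ℕ => Real.log (n + 1 : ℝ) / n) atTop (𝓝 0) := by
      have h6 : Tendsto (fun x : ℝ => Real.log x / x) atTop (𝓝 0) :=
        Real.isLittleO_log_id_atTop.tendsto_div_nhds_zero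
      have h7 : Tendsto (fun n : ℕ => ((n : ℝ) + 1)) atTop atTop :=
        tendsto_atTop_add_const_right _ _ tendsto_natCast_atTop_atTop
      have h8 := h6.comp h7
      have h9 : Tendsto (fun n : ℕ => ((n : ℝ) + 1) / n) atTop (𝓝 1) := by
        have h10 : Tendsto (fun n : ℕ => 1 + 1 / (n : ℝ)) atTop (𝓝 (1 + 0)) :=
          tendsto_const_nhds.add tendsto_one_div_atTop_nhds_zero_nat
        rw [add_zero] at h10
        refine h10.congr' ?_
        filter_upwards [eventually_gt_atTop 0] with n hn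
        have : (n : ℝ) ≠ 0 := by exact_mod_cast hn.ne'
        field_simp
      have h10 := h8.mul h9
      rw [zero_mul] at h10
      refine h10.congr' ?_
      filter_upwards [eventually_gt_atTop 0] with n hn
      have h11 : (n : ℝ) ≠ 0 := by exact_mod_cast hn.ne'
      have h12 : (n : ℝ) + 1 ≠ 0 := by positivity
      simp only [Function.comp]
      field_simp
    have h6 : Tendsto (fun n : ℕ => Real.log ((u.norm : ℝ) + 1) / n + Real.log (n + 1 : ℝ) / n)
        atTop (𝓝 (0 + 0)) := (tendsto_const_div_atTop_nhds_zero_nat _).add h5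
    rw [add_zero] at h6
    refine squeeze_zero (fun n => ?_) (fun n => ?_) h6
    · refine div_nonneg (Real.log_nonneg ?_) (Nat.cast_nonneg _)
      have : (0 : ℝ) ≤ (n : ℝ) * u.norm := by positivity
      linarith
    · rw [← add_div]
      refine div_le_div_of_nonneg_right ?_ (Nat.cast_nonneg _)
      rw [← Real.log_mul (by positivity) (by positivity)]
      refine Real.log_le_log (by positivity) ?_
      have e1 : (0 : ℝ) ≤ n := Nat.cast_nonneg _
      have e2 : (0 : ℝ) ≤ u.norm := Nat.cast_nonneg _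
      nlinarith
  have hle := le_of_tendsto_of_tendsto (tendsto_FV hθ) hlim (by
    filter_upwards [eventually_gt_atTop 0] with n hn
    have hn0 : (0 : ℝ) < n := by exact_mod_cast hn
    rw [div_le_iff₀ hn0]
    refine (hfill n).trans (le_of_eq ?_)
    field_simp)
  refine hle.trans ?_
  have e : C * (0 + (0 + 0 + r) / Real.log 2) =
      C / Real.log 2 * Real.log μ + C / Real.log 2 * ε' := by
    rw [hr]
    field_simp
    ring
  rw [e]
  linarith

/-- `φ` is a pseudo-Anosov class with stretching factor `μ`, expressed by growth rates: `μ` is the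
growth rate of the intersection numbers of non-separating simple closed curves, and for some
`p ≥ 1` the class of `φ ^ p` has a representative with a fixed point for which `μ ^ p` is the growth
rate of the word lengths in the (free) fundamental group of the complement of this point. -/
def PA {k : ℕ} (φ : SG (k + 1) ≃* SG (k + 1)) (μ : ℝ) : Prop :=
  Stretch φ μ ∧ ∃ p : ℕ, 1 ≤ p ∧ LiftGrowth (hpow φ.toMonoidHom p) (μ ^ p)

/-- the frame of the final theorem -/
theorem fin72c {k : ℕ} {C : ℝ} (hA : BndA k C)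
    (hU : ∃ C : ℝ, 0 < C ∧ ∀ (Φ : FreeGroup (Gen (k + 1)) →* FreeGroup (Gen (k + 1)))
      (u : FreeGroup (Gen (k + 1))) (θ : SG (k + 1) →* SG (k + 1)) (L : ℕ),
      Φ (relW (k + 1)) = u * relW (k + 1) * u⁻¹ →
      (∀ x, θ (PresentedGroup.of x) = PresentedGroup.mk _ (Φ (FreeGroup.of x))) →
      (∀ x, (Φ (FreeGroup.of x)).norm ≤ L) → u.norm ≤ L →
      Fil (C * (1 + Real.logb 2 (1 + L))) (push θ (zS k) - zS k)) :
    ∃ C' : ℝ, 0 < C' ∧ ∀ φ : SG (k + 1) ≃* SG (k + 1),
      (∃ b, bd _ b = push φ.toMonoidHom (zS k) - zS k) →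
      ∃ F : ℝ, Tendsto (fun n : ℕ =>
          (fill (push (hpow φ.toMonoidHom n) (zS k) - zS k) : ℝ) / n) atTop (𝓝 F) ∧
        ∀ μ : ℝ, PA φ μ → Real.log μ ≤ C' * F ∧ F ≤ C' * Real.log μ := by
  obtain ⟨D, hD, hU⟩ := hU
  have hl2 : 0 < Real.log 2 := Real.log_pos one_lt_two
  refine ⟨max (3 / 2 * Real.log 2) (2 * D / Real.log 2), lt_max_of_lt_left (by positivity),
    fun φ hφ => ⟨FV φ.toMonoidHom (zS k), tendsto_FV hφ, fun μ hμ => ⟨?_, ?_⟩⟩⟩
  · exact (stretch21 hA hφ hμ.1).trans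
      (mul_le_mul_of_nonneg_right (le_max_left _ _) (FV_nonneg16 hφ))
  · obtain ⟨hs, p, hp, hl⟩ := hμ
    have h1 := upper72 (C := 2 * D) (fun Φ u θ h1 h2 L hL h3 h4 => by
      refine (hU Φ u θ L h1 (fun x => h2 _) h3 h4).mono ?_
      have hL0 : (0 : ℝ) < L := by exact_mod_cast hL
      have hL1 : (1 : ℝ) ≤ L := by exact_mod_cast hL
      have h5 : Real.logb 2 (1 + L) ≤ 1 + Real.logb 2 L := by
        have h7 : Real.logb 2 (2 * L) = 1 + Real.logb 2 L := by
          rw [Real.logb_mul (by norm_num) hL0.ne', Real.logb_self_eq_one one_lt_two]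
        rw [← h7]
        exact Real.logb_le_logb_of_le one_lt_two (by positivity) (by linarith)
      have h6 : 0 ≤ Real.logb 2 L := Real.logb_nonneg one_lt_two hL1
      nlinarith) (by positivity) (isB_pow16 hφ p) (one_lt_pow₀ hs.1 (by omega)) hl
    rw [FV_pow16 hφ p, Real.log_pow] at h1
    have hp0 : (0 : ℝ) < p := by exact_mod_cast hp
    have h2 : (p : ℝ) * FV φ.toMonoidHom (zS k) ≤ p * (2 * D / Real.log 2 * Real.log μ) :=
      h1.trans (le_of_eq (by ring))
    exact (le_of_mul_le_mul_left h2 hp0).trans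
      (mul_le_mul_of_nonneg_right (le_max_right _ _) (Real.log_nonneg hs.1.le))

end Pool.Agent.Lib.MP_e3aa0a_gt.FVL
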