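import Pool.Agent.Lib.MP_e3aa0a_gt.FVL.Asm83
import Pool.Agent.Lib.MP_e3aa0a_gt.FVL.Val32

/-!
# FVL, module Top31: the vector at the top and the bound for the eigenvalue
-/

set_option autoImplicit false

namespace Pool.Agent.Lib.MP_e3aa0a_gt.FVL

open Matrix Pool.Agent.Lib.FVol

section vectors

variable {K : Type*} [Field K]

/-- a non-zero vector of the plane has a partner of determinant one -/
theorem exists_det31 (u : Fin 2 → K) (hu : u ≠ 0) : ∃ v, det32 u v = 1 := by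
  by_cases h0 : u 0 = 0
  · have h1 : u 1 ≠ 0 := by
      intro h1
      refine hu (funext fun i => ?_)
      fin_cases i
      · exact h0
      · exact h1
    refine ⟨![-(u 1)⁻¹, 0], ?_⟩
    simp [det32, h0, h1]
  · refine ⟨![0, (u 0)⁻¹], ?_⟩
    simp [det32, h0]

/-- the matrix with columns `u`, `v` -/
def colM31 (u v : Fin 2 → K) (h : det32 u v = 1) : Matrix.SpecialLinearGroup (Fin 2) K :=
  ⟨!![u 0, v 0; u 1, v 1], by
    rw [Matrix.det_fin_two_of]
    rw [det32] at h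
    linear_combination h⟩

theorem colM31_mulVec (u v : Fin 2 → K) (h : det32 u v = 1) :
    (colM31 u v h).1 *ᵥ ![1, 0] = u := by
  funext i
  fin_cases i <;> simp [colM31, Matrix.mulVec, dotProduct, Fin.sum_univ_two]

/-- the special linear group is transitive on non-zero vectors -/
theorem exists_sl31 (u v : Fin 2 → K) (hu : u ≠ 0) (hv : v ≠ 0) :
    ∃ γ : Matrix.SpecialLinearGroup (Fin 2) K, γ.1 *ᵥ u = v := by
  have key : ∀ x : Fin 2 → K, x ≠ 0 →
      ∃ A : Matrix.SpecialLinearGroup (Fin 2) K, A.1 *ᵥ ![1, 0] = x := by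
    intro x hx
    obtain ⟨x', hx'⟩ := exists_det31 x hx
    exact ⟨colM31 x x' hx', colM31_mulVec x x' hx'⟩
  obtain ⟨A, hA⟩ := key u hu
  obtain ⟨B, hB⟩ := key v hv
  refine ⟨B * A⁻¹, ?_⟩
  have h3 : (B * A⁻¹).1 *ᵥ (A.1 *ᵥ ![1, 0]) = B.1 *ᵥ ![1, 0] := by
    rw [Matrix.mulVec_mulVec, ← Matrix.SpecialLinearGroup.coe_mul, inv_mul_cancel_right]
  rw [hA, hB] at h3
  exact h3

variable {L : Type*} [Field L]

/-- the vector at the top -/
def uT31 (f : K →+* L) (T π : L) (ξ η : Fin 2 → K) : Fin 2 → L :=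
  fun i => T * (f (ξ i) + π * f (η i))

theorem map_mulVec31 (f : K →+* L) (M : Matrix.SpecialLinearGroup (Fin 2) K) (x : Fin 2 → L)
    (i : Fin 2) : ((Matrix.SpecialLinearGroup.map f M).1 *ᵥ x) i =
      f (M.1 i 0) * x 0 + f (M.1 i 1) * x 1 := by
  simp [Matrix.mulVec, dotProduct, Fin.sum_univ_two]

/-- the label of a matrix at the top -/
theorem lab_top31 (f : K →+* L) (T π : L) (ξ η : Fin 2 → K)
    (M : Matrix.SpecialLinearGroup (Fin 2) K) :
    lab32 (uT31 f T π ξ η) (Matrix.SpecialLinearGroup.map f M) =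
      T ^ 2 * (f (lab32 ξ M) + π * f (det32 ξ (M.1 *ᵥ η) + det32 η (M.1 *ᵥ ξ)) +
        π ^ 2 * f (lab32 η M)) := by
  have e : ∀ (x : Fin 2 → K) (i : Fin 2), (M.1 *ᵥ x) i = M.1 i 0 * x 0 + M.1 i 1 * x 1 := by
    intro x i
    simp [Matrix.mulVec, dotProduct, Fin.sum_univ_two]
  simp only [lab32, det32, map_mulVec31, uT31, e, map_add, map_sub, map_mul]
  ring

/-- the label of an edge between the bottom and the top -/
theorem lab_mix31 (f : K →+* L) (T π : L) (u ξ η : Fin 2 → K)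
    (M : Matrix.SpecialLinearGroup (Fin 2) K) :
    det32 (fun i => f (u i)) ((Matrix.SpecialLinearGroup.map f M).1 *ᵥ uT31 f T π ξ η) =
      T * (f (det32 u (M.1 *ᵥ ξ)) + π * f (det32 u (M.1 *ᵥ η))) := by
  have e : ∀ (x : Fin 2 → K) (i : Fin 2), (M.1 *ᵥ x) i = M.1 i 0 * x 0 + M.1 i 1 * x 1 := by
    intro x i
    simp [Matrix.mulVec, dotProduct, Fin.sum_univ_two]
  simp only [det32, map_mulVec31, uT31, e, map_add, map_sub, map_mul]
  ring

/-- the label at the bottom -/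
theorem lab_bot31 (f : K →+* L) (u : Fin 2 → K) (M : Matrix.SpecialLinearGroup (Fin 2) K) :
    lab32 (fun i => f (u i)) (Matrix.SpecialLinearGroup.map f M) = f (lab32 u M) := by
  have e : ∀ (x : Fin 2 → K) (i : Fin 2), (M.1 *ᵥ x) i = M.1 i 0 * x 0 + M.1 i 1 * x 1 := by
    intro x i
    simp [Matrix.mulVec, dotProduct, Fin.sum_univ_two]
  simp only [lab32, det32, map_mulVec31, e, map_add, map_sub, map_mul]

/-- the matrix in terms of a basis: if all three determinants vanish, the matrix is scalar -/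
theorem scalar31 (ξ η : Fin 2 → K) (h : det32 ξ η = 1) (M : Matrix.SpecialLinearGroup (Fin 2) K)
    (h0 : lab32 ξ M = 0) (h1 : det32 ξ (M.1 *ᵥ η) + det32 η (M.1 *ᵥ ξ) = 0)
    (h2 : lab32 η M = 0) : ∃ c : K, ∀ x : Fin 2 → K, M.1 *ᵥ x = c • x := by
  have e : ∀ (x : Fin 2 → K) (i : Fin 2), (M.1 *ᵥ x) i = M.1 i 0 * x 0 + M.1 i 1 * x 1 := by
    intro x i
    simp [Matrix.mulVec, dotProduct, Fin.sum_univ_two]
  simp only [lab32, det32, e] at h h0 h1 h2
  -- entries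
  set a := M.1 0 0
  set b := M.1 0 1
  set c := M.1 1 0
  set d := M.1 1 1
  set p := ξ 0
  set q := ξ 1
  set r := η 0
  set s := η 1
  -- h0 : c p^2 + (d - a) p q - b q^2 = 0, and the polarisations; the form is zero
  have hc : c = 0 := by
    linear_combination (-(c : K)) * (p * s - q * r + 1) * h + s ^ 2 * h0 - q * s * h1 + q ^ 2 * h2
  have hb : b = 0 := by
    linear_combination (-(b : K)) * (p * s - q * r + 1) * h - r ^ 2 * h0 + p * r * h1 - p ^ 2 * h2
  have hd : d = a := by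
    linear_combination (-(d - a : K)) * (p * s - q * r + 1) * h - 2 * r * s * h0 +
      (p * s + q * r) * h1 - 2 * p * q * h2
  refine ⟨a, fun x => funext fun i => ?_⟩
  rw [e]
  fin_cases i
  · show a * x 0 + b * x 1 = a * x 0
    rw [hb]; ring
  · show c * x 0 + d * x 1 = a * x 1
    rw [hc, hd]; ring

end vectors

section values

open HahnSeries

variable {K : Type*} [Field K]

theorem coeff_q31 (a b c : K) (n : ℤ) :
    (C a + single (1 : ℤ) (1 : K) * C b + single (1 : ℤ) (1 : K) ^ 2 * C c : HahnSeries ℤ K).coeff n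
      = (if n = 0 then a else 0) + (if n = 1 then b else 0) + (if n = 2 then c else 0) := by
  have h1 : (C a : HahnSeries ℤ K) = single 0 a := rfl
  have h2 : (single (1 : ℤ) (1 : K) * C b : HahnSeries ℤ K) = single 1 b := by
    rw [C_apply, single_mul_single]
    simp
  have h3 : (single (1 : ℤ) (1 : K) ^ 2 * C c : HahnSeries ℤ K) = single 2 c := by
    rw [C_apply, single_pow, single_mul_single]
    simp
  rw [h1, h2, h3, coeff_add, coeff_add, coeff_single, coeff_single, coeff_single]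
  congr

/-- order and leading coefficient from the first non-zero coefficient -/
theorem order31 (x : HahnSeries ℤ K) (n : ℤ) (h0 : ∀ i < n, x.coeff i = 0) (hn : x.coeff n ≠ 0) :
    x ≠ 0 ∧ x.order = n ∧ x.leadingCoeff = x.coeff n := by
  have h1 : x.order ≤ n := order_le_of_coeff_ne_zero hn
  have hx : x ≠ 0 := by
    rintro rfl
    exact hn (coeff_zero)
  have h2 : ¬ x.order < n := fun h => hx (coeff_order_eq_zero.1 (h0 _ h))
  have h3 : x.order = n := le_antisymm h1 (not_lt.1 h2)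
  exact ⟨hx, h3, by rw [leadingCoeff_eq, h3]⟩

theorem leadingCoeff_C31 (x : K) : (C x : HahnSeries ℤ K).leadingCoeff = x :=
  leadingCoeff_of_single

end values

section main

open HahnSeries

/-- the value functions of all valuations of a family -/
noncomputable def valL31 {K : Type*} [Field K] (W : Set (K → ℝ)) (u : Fin 2 → K)
    (g : Matrix.SpecialLinearGroup (Fin 2) K) : W → ℝ := fun v => v.1 (lab32 u g)

theorem four31 {K : Type*} [Field K] {W : Set (K → ℝ)} (hW : TRI32 K W) (u : Fin 2 → K)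
    (a b c : Matrix.SpecialLinearGroup (Fin 2) K) (ha : Good32 u a) (hb : Good32 u b)
    (hc : Good32 u c) (hab : Good32 u (a * b)) (hbc : Good32 u (b * c))
    (habc : Good32 u (a * b * c)) : Four (valL31 W u) a b c := by
  obtain ⟨k, hk⟩ := simplex32 hW u a b c ha hb hc hab hbc habc
  have e : ∀ v : W, Rl (fun M => v.1 (lab32 u M)) k (a, b, c) := fun v => hk v.1 v.2
  fin_cases k
  · refine Or.inr (Or.inl (funext fun v => ?_))
    exact e v
  · refine Or.inr (Or.inr (funext fun v => ?_))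
    exact e v
  · refine Or.inl (funext fun v => ?_)
    exact e v

/-- the embedding of the constants -/
noncomputable def f31 (K : Type*) [Field K] : K →+* HahnSeries ℤ (HahnSeries ℤ K) :=
  (C : HahnSeries ℤ K →+* HahnSeries ℤ (HahnSeries ℤ K)).comp C

/-- the leading coefficient of a label at the top -/
noncomputable def Q31 {K : Type*} [Field K] (ξ η : Fin 2 → K)
    (M : Matrix.SpecialLinearGroup (Fin 2) K) : HahnSeries ℤ K :=
  C (lab32 ξ M) + single (1 : ℤ) (1 : K) * C (det32 ξ (M.1 *ᵥ η) + det32 η (M.1 *ᵥ ξ)) +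
    single (1 : ℤ) (1 : K) ^ 2 * C (lab32 η M)

/-- the vector at the top, over the iterated Laurent series -/
noncomputable def v31 {K : Type*} [Field K] (ξ η : Fin 2 → K) :
    Fin 2 → HahnSeries ℤ (HahnSeries ℤ K) :=
  uT31 (f31 K) (single (1 : ℤ) 1) (C (single (1 : ℤ) (1 : K))) ξ η

theorem single_two31 {K : Type*} [Field K] (Q : K) :
    (single (1 : ℤ) (1 : K) ^ 2 * C Q : HahnSeries ℤ K) = single 2 Q := by
  rw [C_apply, single_pow, single_mul_single]
  simp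

theorem lab_v31 {K : Type*} [Field K] (ξ η : Fin 2 → K)
    (M : Matrix.SpecialLinearGroup (Fin 2) K) :
    lab32 (v31 ξ η) (Matrix.SpecialLinearGroup.map (f31 K) M) = single (2 : ℤ) (Q31 ξ η M) := by
  rw [v31, lab_top31, ← single_two31]
  congr 1
  simp only [f31, Q31, RingHom.comp_apply, map_add, map_mul, map_pow]

theorem Q31_coeff {K : Type*} [Field K] (ξ η : Fin 2 → K)
    (M : Matrix.SpecialLinearGroup (Fin 2) K) : (∀ i < (0 : ℤ), (Q31 ξ η M).coeff i = 0) ∧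
      (Q31 ξ η M).coeff 0 = lab32 ξ M ∧
      (Q31 ξ η M).coeff 1 = det32 ξ (M.1 *ᵥ η) + det32 η (M.1 *ᵥ ξ) ∧
      (Q31 ξ η M).coeff 2 = lab32 η M := by
  refine ⟨fun i hi => ?_, ?_, ?_, ?_⟩
  · rw [Q31, coeff_q31, if_neg (by omega), if_neg (by omega), if_neg (by omega)]
    simp
  · rw [Q31, coeff_q31]; simp
  · rw [Q31, coeff_q31]; simp
  · rw [Q31, coeff_q31]; simp

theorem Q31_ne {K : Type*} [Field K] (ξ η : Fin 2 → K) (h : det32 ξ η = 1) (u : Fin 2 → K)
    (M : Matrix.SpecialLinearGroup (Fin 2) K) (hM : lab32 u M ≠ 0) : Q31 ξ η M ≠ 0 := by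
  intro h0
  obtain ⟨-, h1, h2, h3⟩ := Q31_coeff ξ η M
  rw [h0, coeff_zero] at h1 h2 h3
  obtain ⟨c, hc⟩ := scalar31 ξ η h M h1.symm h2.symm h3.symm
  apply hM
  rw [lab32, hc, det32]
  simp only [Pi.smul_apply, smul_eq_mul]
  ring

theorem mix31 {K : Type*} [Field K] (ξ η u : Fin 2 → K) (h : det32 ξ η = 1) (hu : u ≠ 0)
    (M : Matrix.SpecialLinearGroup (Fin 2) K) :
    det32 (fun i => f31 K (u i))
      ((Matrix.SpecialLinearGroup.map (f31 K) M).1 *ᵥ v31 ξ η) ≠ 0 := by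
  rw [v31, lab_mix31]
  refine mul_ne_zero (single_ne_zero one_ne_zero) ?_
  have e : f31 K (det32 u (M.1 *ᵥ ξ)) + C (single (1 : ℤ) (1 : K)) * f31 K (det32 u (M.1 *ᵥ η)) =
      C (C (det32 u (M.1 *ᵥ ξ)) + single (1 : ℤ) (1 : K) * C (det32 u (M.1 *ᵥ η)) +
        single (1 : ℤ) (1 : K) ^ 2 * C 0) := by
    simp only [f31, RingHom.comp_apply, map_add, map_mul, map_zero, mul_zero, add_zero]
  rw [e]
  refine (map_ne_zero _).2 fun h0 => ?_
  have h1 : det32 u (M.1 *ᵥ ξ) = 0 := by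
    have h5 := congrArg (fun s : HahnSeries ℤ K => s.coeff 0) h0
    simp only [coeff_q31, coeff_zero] at h5
    rwa [if_pos trivial, if_neg (by norm_num), if_neg (by norm_num), add_zero, add_zero] at h5
  have h2 : det32 u (M.1 *ᵥ η) = 0 := by
    have h5 := congrArg (fun s : HahnSeries ℤ K => s.coeff 1) h0
    simp only [coeff_q31, coeff_zero] at h5
    rwa [if_neg (by norm_num), if_pos trivial, if_neg (by norm_num), zero_add, add_zero] at h5
  have h3 : det32 (M.1 *ᵥ ξ) (M.1 *ᵥ η) = 1 := by rw [det32_mulVec, h]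
  apply hu
  funext i
  have h4 : u i * det32 (M.1 *ᵥ ξ) (M.1 *ᵥ η) =
      (M.1 *ᵥ ξ) i * det32 u (M.1 *ᵥ η) - (M.1 *ᵥ η) i * det32 u (M.1 *ᵥ ξ) := by
    simp only [det32]
    fin_cases i
    · show u 0 * _ = (M.1 *ᵥ ξ) 0 * _ - (M.1 *ᵥ η) 0 * _
      ring
    · show u 1 * _ = (M.1 *ᵥ ξ) 1 * _ - (M.1 *ᵥ η) 1 * _
      ring
  rw [h3, h1, h2] at h4
  simpa using h4

/-- **The bound for the eigenvalue.** `W` is a family of valuations of `K`; `ρ` a representation
of `G` such that the base vector `u` is an eigenvector of no `ρ g ≠ 1`; `b` is a filling of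
`θ z - z`; the valuations `f i` of the labels at the bottom have corank at most one. If `ξ` is an
eigenvector of `ρ (θ (lab i0))` with eigenvalue `μ`, and of no other `ρ (θ (lab k))`, then every
valuation of `μ` is bounded. -/
theorem top31 {G : Type*} [Group G] {K : Type*} [Field K] {W : Set (K → ℝ)} (hW : TRI32 K W)
    (ρ : G →* Matrix.SpecialLinearGroup (Fin 2) K) (u : Fin 2 → K)
    (hgood : ∀ g, Good32 u (ρ g))
    (θ : G →* G) (z : C2 G) (hz : bd2 G z = 0) (b : C3 G) (hb : bd G b = push θ z - z)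
    {κ : Type*} [Fintype κ] (lab : κ → G) (Let : Finset G) (B : LinearMap.BilinForm ℝ (κ → ℝ))
    (hker : ∀ x, (∀ y, B x y = 0) → ∃ c : ℝ, ∀ i, x i = c)
    (hom : ∀ (f : G →* Matrix.SpecialLinearGroup (Fin 2) (HahnSeries ℤ (HahnSeries ℤ K)))
      (w w' : Matrix.SpecialLinearGroup (Fin 2) (HahnSeries ℤ (HahnSeries ℤ K)) → ℝ),
      (∀ a ∈ Let, w (f a)⁻¹ = w (f a)) → (∀ a ∈ Let, w' (f a)⁻¹ = w' (f a)) →
      om w w' (pushG f z) = B (fun k => w (f (lab k))) (fun k => w' (f (lab k))))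
    {m : ℕ} (f : Fin m → K → ℝ) (hf : ∀ i, f i ∈ W)
    (hli : LinearIndependent ℝ (fun i => (fun k => f i (lab32 u (ρ (lab k))) : κ → ℝ)))
    (hm : Fintype.card κ ≤ m + 1) (i0 i j : κ) (hi : i ≠ i0) (hj : j ≠ i0)
    (hij : lab j = lab i * lab i0) (ξ : Fin 2 → K) (hξ : ξ ≠ 0) (μ : K)
    (hμ : (ρ (θ (lab i0))).1 *ᵥ ξ = μ • ξ)
    (hD : ∀ k, k ≠ i0 → lab32 ξ (ρ (θ (lab k))) ≠ 0) (w : K → ℝ) (hw : w ∈ W) :
    |w μ| ≤ √2 * √8 ^ (nrm b + 3 * nrm z + 2 * Let.card) *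
      ∑ k, |w (lab32 u (ρ (lab k)))| := by
  classical
  have hR : 0 ≤ √2 * √8 ^ (nrm b + 3 * nrm z + 2 * Let.card) *
      ∑ k, |w (lab32 u (ρ (lab k)))| := by positivity
  by_cases hwμ : w μ = 0
  · rw [hwμ, abs_zero]
    exact hR
  obtain ⟨η, hη⟩ := exists_det31 ξ hξ
  -- the eigenvalue
  have hη1 : μ * det32 ξ ((ρ (θ (lab i0))).1 *ᵥ η) = 1 := by
    have h1 := det32_mulVec (ρ (θ (lab i0))) ξ η
    rw [hμ, hη] at h1
    have h2 : det32 (μ • ξ) ((ρ (θ (lab i0))).1 *ᵥ η) =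
        μ * det32 ξ ((ρ (θ (lab i0))).1 *ᵥ η) := by
      simp only [det32, Pi.smul_apply, smul_eq_mul]
      ring
    rw [← h2]
    exact h1
  have hμ0 : μ ≠ 0 := by
    rintro rfl
    rw [zero_mul] at hη1
    exact zero_ne_one hη1
  have hμ2 : μ * μ ≠ 1 := by
    intro h
    have h1 := hW.1 w hw μ μ hμ0 hμ0
    rw [h, (hW.1 w hw).one] at h1
    apply hwμ
    linarith
  -- the base vector
  have hu : u ≠ 0 := by
    rintro rfl
    rcases hgood (θ (lab i)) with h | h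
    · apply hD i hi
      rw [h, lab32_one]
    · apply h
      simp [lab32, det32]
  -- the big field
  let K2 := HahnSeries ℤ (HahnSeries ℤ K)
  let W2 : Set (K2 → ℝ) := hahnW32 ℤ (hahnW32 ℤ W)
  have hW2 : TRI32 K2 W2 := tri_hahn32 (tri_hahn32 hW)
  let ρ2 : G →* Matrix.SpecialLinearGroup (Fin 2) K2 :=
    (Matrix.SpecialLinearGroup.map (f31 K)).comp ρ
  let u2 : Fin 2 → K2 := fun i => f31 K (u i)
  have hmix : ∀ g, det32 u2 ((ρ2 g).1 *ᵥ v31 ξ η) ≠ 0 := fun g => mix31 ξ η u hη hu (ρ g)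
  have hu2 : u2 ≠ 0 := by
    intro h
    apply hmix 1
    rw [h]
    simp [det32]
  have hv2 : v31 ξ η ≠ 0 := by
    intro h
    apply hmix 1
    rw [h]
    simp [det32]
  obtain ⟨γ, hγ⟩ := exists_sl31 u2 (v31 ξ η) hu2 hv2
  -- good labels
  have hbotE : ∀ g, lab32 u2 (ρ2 g) = f31 K (lab32 u (ρ g)) := fun g => lab_bot31 (f31 K) u (ρ g)
  have gbot : ∀ g, Good32 u2 (ρ2 g) := by
    intro g
    rcases hgood g with h | h
    · left
      show Matrix.SpecialLinearGroup.map (f31 K) (ρ g) = 1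
      rw [h, map_one]
    · right
      rw [hbotE]
      exact (map_ne_zero _).2 h
  have gmix : ∀ g, Good32 u2 (ρ2 g * γ) := by
    intro g
    right
    rw [lab32, Matrix.SpecialLinearGroup.coe_mul, ← Matrix.mulVec_mulVec, hγ]
    exact hmix g
  have htopE : ∀ g, lab32 u2 (γ⁻¹ * ρ2 g * γ) = HahnSeries.single (2 : ℤ) (Q31 ξ η (ρ g)) := by
    intro g
    rw [lab32_conj, hγ]
    exact lab_v31 ξ η (ρ g)
  have gtop : ∀ g, Good32 u2 (γ⁻¹ * ρ2 g * γ) := by
    intro g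
    rcases hgood g with h | h
    · left
      have h1 : ρ2 g = 1 := by
        show Matrix.SpecialLinearGroup.map (f31 K) (ρ g) = 1
        rw [h, map_one]
      rw [h1]
      group
    · right
      rw [htopE]
      exact single_ne_zero (Q31_ne ξ η hη u (ρ g) h)
  have gγ : Good32 u2 γ := by
    have := gmix 1
    rwa [map_one, one_mul] at this
  have hL : IsTrop ρ2 γ (valL31 W2 u2) := by
    constructor
    · intro g
      funext v
      show v.1 (lab32 u2 g⁻¹) = v.1 (lab32 u2 g)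
      rw [lab32_inv, (hW2.1 v.1 v.2).neg]
    · intro a b c
      refine four31 hW2 u2 _ _ _ (gbot a) (gbot b) (gbot c) ?_ ?_ ?_
      · rw [← map_mul]; exact gbot _
      · rw [← map_mul]; exact gbot _
      · rw [← map_mul, ← map_mul]; exact gbot _
    · intro a b
      refine four31 hW2 u2 _ _ _ gγ (gtop a) (gtop b) ?_ ?_ ?_
      · have : γ * (γ⁻¹ * ρ2 a * γ) = ρ2 a * γ := by group
        rw [this]; exact gmix a
      · have : γ⁻¹ * ρ2 a * γ * (γ⁻¹ * ρ2 b * γ) = γ⁻¹ * ρ2 (a * b) * γ := by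
          rw [map_mul]; group
        rw [this]; exact gtop _
      · have : γ * (γ⁻¹ * ρ2 a * γ) * (γ⁻¹ * ρ2 b * γ) = ρ2 (a * b) * γ := by
          rw [map_mul]; group
        rw [this]; exact gmix _
    · intro a b
      refine four31 hW2 u2 _ _ _ (gbot a) gγ (gtop b) (gmix a) ?_ ?_
      · have : γ * (γ⁻¹ * ρ2 b * γ) = ρ2 b * γ := by group
        rw [this]; exact gmix b
      · have : ρ2 a * γ * (γ⁻¹ * ρ2 b * γ) = ρ2 (a * b) * γ := by
          rw [map_mul]; group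
        rw [this]; exact gmix _
    · intro a b
      refine four31 hW2 u2 _ _ _ (gbot a) (gbot b) gγ ?_ (gmix b) ?_
      · rw [← map_mul]; exact gbot _
      · have : ρ2 a * ρ2 b * γ = ρ2 (a * b) * γ := by rw [map_mul]
        rw [this]; exact gmix _
  -- functionals
  let ev : W2 → ((W2 → ℝ) →+ ℝ) := fun v => Pi.evalAddMonoidHom (fun _ : W2 => ℝ) v
  let lw : ∀ w ∈ W, W2 := fun w hw => ⟨fun x => (fun y : HahnSeries ℤ K => w y.leadingCoeff)
    x.leadingCoeff, Or.inl ⟨_, Or.inl ⟨w, hw, rfl⟩, rfl⟩⟩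
  let v1 : W2 := ⟨fun x => (Int.castAddHom ℝ) x.order, Or.inr ⟨_, rfl⟩⟩
  let v2 : W2 := ⟨fun x => (fun y : HahnSeries ℤ K => (Int.castAddHom ℝ) y.order)
    x.leadingCoeff, Or.inl ⟨_, Or.inr ⟨_, rfl⟩, rfl⟩⟩
  -- bottom values
  have hbl : ∀ w (hw : w ∈ W) g, ev (lw w hw) (valL31 W2 u2 (ρ2 g)) = w (lab32 u (ρ g)) := by
    intro w hw g
    show w ((lab32 u2 (ρ2 g)).leadingCoeff).leadingCoeff = _
    rw [hbotE, f31, RingHom.comp_apply, leadingCoeff_C31, leadingCoeff_C31]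
  have hb1 : ∀ g, ev v1 (valL31 W2 u2 (ρ2 g)) = 0 := by
    intro g
    show (Int.castAddHom ℝ) (lab32 u2 (ρ2 g)).order = 0
    rw [hbotE, f31, RingHom.comp_apply, order_C, map_zero]
  have hb2 : ∀ g, ev v2 (valL31 W2 u2 (ρ2 g)) = 0 := by
    intro g
    show (Int.castAddHom ℝ) ((lab32 u2 (ρ2 g)).leadingCoeff).order = 0
    rw [hbotE, f31, RingHom.comp_apply, leadingCoeff_C31, order_C, map_zero]
  -- top values
  have hQ0 : ∀ k, k ≠ i0 → Q31 ξ η (ρ (θ (lab k))) ≠ 0 ∧ (Q31 ξ η (ρ (θ (lab k)))).order = 0 ∧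
      (Q31 ξ η (ρ (θ (lab k)))).leadingCoeff = lab32 ξ (ρ (θ (lab k))) := by
    intro k hk
    obtain ⟨h0, h1, -, -⟩ := Q31_coeff ξ η (ρ (θ (lab k)))
    have h2 := order31 _ 0 h0 (by rw [h1]; exact hD k hk)
    rw [h1] at h2
    exact h2
  have hQ1 : Q31 ξ η (ρ (θ (lab i0))) ≠ 0 ∧ (Q31 ξ η (ρ (θ (lab i0)))).order = 1 := by
    obtain ⟨h0, h1, h2, -⟩ := Q31_coeff ξ η (ρ (θ (lab i0)))
    have h3 : lab32 ξ (ρ (θ (lab i0))) = 0 := by
      rw [lab32, hμ]
      simp only [det32, Pi.smul_apply, smul_eq_mul]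
      ring
    have h4 : det32 η ((ρ (θ (lab i0))).1 *ᵥ ξ) = - μ := by
      rw [hμ]
      have : det32 η (μ • ξ) = - (μ * det32 ξ η) := by
        simp only [det32, Pi.smul_apply, smul_eq_mul]
        ring
      rw [this, hη, mul_one]
    have h5 : (Q31 ξ η (ρ (θ (lab i0)))).coeff 1 ≠ 0 := by
      rw [h2, h4]
      intro h
      apply hμ2
      have h6 : det32 ξ ((ρ (θ (lab i0))).1 *ᵥ η) = μ := by linear_combination h
      rw [h6] at hη1
      exact hη1
    have h6 := order31 _ 1 (fun i hi => by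
      rcases lt_or_eq_of_le (Int.lt_add_one_iff.1 (show i < 0 + 1 by simpa using hi)) with h | h
      · exact h0 i h
      · rw [h, h1, h3]) h5
    exact ⟨h6.1, h6.2.1⟩
  have hQne : ∀ k, Q31 ξ η (ρ (θ (lab k))) ≠ 0 := by
    intro k
    by_cases hk : k = i0
    · rw [hk]; exact hQ1.1
    · exact (hQ0 k hk).1
  have ht1 : ∀ k, ev v1 (valL31 W2 u2 (γ⁻¹ * ρ2 (θ (lab k)) * γ)) = 2 := by
    intro k
    show (Int.castAddHom ℝ) (lab32 u2 (γ⁻¹ * ρ2 (θ (lab k)) * γ)).order = 2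
    rw [htopE, order_single (hQne k)]
    simp
  have ht2 : ∀ k, k ≠ i0 → ev v2 (valL31 W2 u2 (γ⁻¹ * ρ2 (θ (lab k)) * γ)) = 0 := by
    intro k hk
    show (Int.castAddHom ℝ) ((lab32 u2 (γ⁻¹ * ρ2 (θ (lab k)) * γ)).leadingCoeff).order = 0
    rw [htopE, leadingCoeff_of_single, (hQ0 k hk).2.1, map_zero]
  have ht3 : ev v2 (valL31 W2 u2 (γ⁻¹ * ρ2 (θ (lab i0)) * γ)) ≠ 0 := by
    show (Int.castAddHom ℝ) ((lab32 u2 (γ⁻¹ * ρ2 (θ (lab i0)) * γ)).leadingCoeff).order ≠ 0
    rw [htopE, leadingCoeff_of_single, hQ1.2]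
    simp
  have htl : ∀ k, k ≠ i0 → ev (lw w hw) (valL31 W2 u2 (γ⁻¹ * ρ2 (θ (lab k)) * γ)) =
      w (lab32 ξ (ρ (θ (lab k)))) := by
    intro k hk
    show w ((lab32 u2 (γ⁻¹ * ρ2 (θ (lab k)) * γ)).leadingCoeff).leadingCoeff = _
    rw [htopE, leadingCoeff_of_single, (hQ0 k hk).2.2]
  have key := main83 ρ2 θ γ hL z hz b hb lab Let B hker hom (fun i => ev (lw (f i) (hf i)))
    (by
      have h1 : (fun i => (fun k => ev (lw (f i) (hf i)) (valL31 W2 u2 (ρ2 (lab k))) : κ → ℝ)) =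
          (fun i => (fun k => f i (lab32 u (ρ (lab k))) : κ → ℝ)) := by
        funext i k
        exact hbl (f i) (hf i) (lab k)
      rw [h1]
      exact hli)
    hm i0 (ev v1) (ev v2) (fun k => hb1 _) (fun k => hb2 _) 2 two_ne_zero ht1 ht2 ht3 i j hi hj
    (ev (lw w hw))
  rw [htl i hi, htl j hj] at key
  have hsum : ∑ k, |ev (lw w hw) (valL31 W2 u2 (ρ2 (lab k)))| =
      ∑ k, |w (lab32 u (ρ (lab k)))| := Finset.sum_congr rfl fun k _ => by
      rw [hbl w hw]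
  rw [hsum] at key
  have hlj : lab32 ξ (ρ (θ (lab j))) = μ * lab32 ξ (ρ (θ (lab i))) := by
    rw [hij, map_mul, map_mul, lab32, Matrix.SpecialLinearGroup.coe_mul, ← Matrix.mulVec_mulVec,
      hμ, Matrix.mulVec_smul, lab32]
    simp only [det32, Pi.smul_apply, smul_eq_mul]
    ring
  rw [hlj, hW.1 w hw _ _ hμ0 (hD i hi)] at key
  have h1 : |w μ| = |w (lab32 ξ (ρ (θ (lab i)))) - (w μ + w (lab32 ξ (ρ (θ (lab i)))))| := by
    rw [show w (lab32 ξ (ρ (θ (lab i)))) - (w μ + w (lab32 ξ (ρ (θ (lab i))))) = - w μ by ring,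
      abs_neg]
  rw [h1]
  exact key

end main

end Pool.Agent.Lib.MP_e3aa0a_gt.FVL
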