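import Pool.Agent.Lib.MP_e3aa0a_gt.FVL.FanHom21
import Pool.Agent.Lib.MP_e3aa0a_gt.FVL.Top31
import Pool.Agent.Lib.MP_e3aa0a_gt.FVL.DefsCR66
import Pool.Agent.Lib.MP_e3aa0a_gt.FVL.FV16

/-!
# FVL, module Fin83: the inequality for the crossing number

From the data of a valued representation of the surface group to
`cr (θ b₁) ≤ C √8 ^ nrm b` for every injective endomorphism `θ` and every 3-chain `b` with
boundary `θ z - z`.
-/

set_option autoImplicit false

namespace Pool.Agent.Lib.MP_e3aa0a_gt.FVL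

open Pool.Agent.Lib.FVol Matrix
open Ker21 (Lab)
open Fan21 (zc lb kb ka kab)

/-- the generators as elements of the surface group -/
abbrev gen83 (g : ℕ) : Gen g → SG g := fun a => PresentedGroup.of a

/-- the product of the commutators of the generators is trivial -/
theorem wpr_gen83 (g : ℕ) : wpr (gen83 g) (Fan21.rel g) = 1 := by
  have h0 : (PresentedGroup.mk ({relW g} : Set (FreeGroup (Gen g)))) (relW g) = 1 :=
    PresentedGroup.one_of_mem (Set.mem_singleton _)
  have h1 : (PresentedGroup.mk ({relW g} : Set (FreeGroup (Gen g)))) (relW g) =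
      (List.ofFn (fun i : Fin g => (PresentedGroup.mk ({relW g} : Set (FreeGroup (Gen g))))
        (cm i))).prod := by
    refine Eq.trans (map_list_prod (PresentedGroup.mk ({relW g} : Set (FreeGroup (Gen g))))
      (List.ofFn fun i : Fin g => cm i)) ?_
    rw [List.map_ofFn]
    rfl
  rw [Fan21.wpr_rel]
  refine Eq.trans ?_ (h1.symm.trans h0)
  rfl

/-- the data which the proof uses: a representation over a field with a family of logarithmic
functions, the rank of the values of the labels, and the eigenvectors of the images of `b₁` -/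
structure RepData83 (k : ℕ) where
  K : Type
  fld : Field K
  W : Set (K → ℝ)
  hW : TRI32 K W
  ρ : SG (k + 1) →* Matrix.SpecialLinearGroup (Fin 2) K
  u : Fin 2 → K
  hgood : ∀ x, Good32 u (ρ x)
  f : Fin (6 * (k + 1) - 4) → K → ℝ
  hf : ∀ i, f i ∈ W
  hli : LinearIndependent ℝ (fun i => (fun l => f i (lab32 u (ρ (lb (gen83 (k + 1)) l))) :
    Lab (k + 1) → ℝ))
  w : K → ℝ
  hw : w ∈ W
  hw2 : ∑ l, |w (lab32 u (ρ (lb (gen83 (k + 1)) l)))| ≤ 2
  eig : ∀ θ : SG (k + 1) →* SG (k + 1), Function.Injective θ →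
    0 < cr (θ (PresentedGroup.of (Sum.inr 0))) →
    ∃ (ξ : Fin 2 → K) (μ : K), ξ ≠ 0 ∧ (ρ (θ (PresentedGroup.of (Sum.inr 0)))).1 *ᵥ ξ = μ • ξ ∧
      (∀ l, l ≠ kb (Nat.succ_pos k) → lab32 ξ (ρ (θ (lb (gen83 (k + 1)) l))) ≠ 0) ∧
      |w μ| = (cr (θ (PresentedGroup.of (Sum.inr 0))) : ℝ)

/-- the constant of the inequality -/
noncomputable def cst83 (k : ℕ) : ℝ := 2 * √2 * √8 ^ (40 * (k + 1))

theorem cst83_pos (k : ℕ) : 0 < cst83 k := by
  unfold cst83
  positivity

theorem one_le_cst83 (k : ℕ) : 1 ≤ cst83 k := by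
  unfold cst83
  have h2 : (1:ℝ) ≤ √2 := by rw [Real.one_le_sqrt]; norm_num
  have h8 : (1:ℝ) ≤ √8 := by rw [Real.one_le_sqrt]; norm_num
  have h3 : (1:ℝ) ≤ √8 ^ (40 * (k + 1)) := one_le_pow₀ h8
  nlinarith

/-- **The crossing number is at most exponential in the filling.** -/
theorem fin83 {k : ℕ} (hk : 1 ≤ k) (D : RepData83 k) (θ : SG (k + 1) →* SG (k + 1))
    (hθ : Function.Injective θ) (b : C3 (SG (k + 1)))
    (hb : bd (SG (k + 1)) b = push θ (zc (gen83 (k + 1))) - zc (gen83 (k + 1))) :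
    (cr (θ (PresentedGroup.of (Sum.inr 0))) : ℝ) ≤ cst83 k * √8 ^ nrm b := by
  classical
  rcases Nat.eq_zero_or_pos (cr (θ (PresentedGroup.of (Sum.inr 0)))) with h0 | h0
  · rw [h0, Nat.cast_zero]
    have := cst83_pos k
    positivity
  let _ : Field D.K := D.fld
  obtain ⟨ξ, μ, hξ, hμ, hD, hcr⟩ := D.eig θ hθ h0
  have hg0 : 0 < k + 1 := Nat.succ_pos k
  have h := top31 D.hW D.ρ D.u D.hgood θ (zc (gen83 (k + 1))) (Fan21.bd2_zc _ (wpr_gen83 (k + 1)))
    b hb (lb (gen83 (k + 1))) (Finset.univ.image (gen83 (k + 1))) (Ker21.om (k + 1))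
    (fun x hx => Ker21.ker21 (by omega) x hx) (fun f w w' h h' => by
      have e := Fan21.hom21 hg0 (gen83 (k + 1)) (wpr_gen83 (k + 1)) f w w' (by convert h)
        (by convert h')
      exact e) D.f D.hf D.hli (by rw [Fan21.card_Lab hg0]; omega) (kb hg0) (ka hg0) (kab hg0)
    (by simp [ka, kb]) (by simp [kab, kb]) (by rw [Fan21.lb_kab, Fan21.lb_ka, Fan21.lb_kb]) ξ hξ μ
    hμ hD D.w D.hw
  rw [hcr] at h
  refine h.trans ?_
  have h8 : (1:ℝ) ≤ √8 := by rw [Real.one_le_sqrt]; norm_num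
  have h1 := Fan21.nrm_zc_le (gen83 (k + 1))
  have h2 := Fan21.card_letters (gen83 (k + 1))
  have h3 : √8 ^ (nrm b + 3 * nrm (zc (gen83 (k + 1))) +
      2 * (Finset.univ.image (gen83 (k + 1))).card) ≤ √8 ^ (nrm b + 40 * (k + 1)) :=
    pow_le_pow_right₀ h8 (by omega)
  calc √2 * √8 ^ (nrm b + 3 * nrm (zc (gen83 (k + 1))) +
          2 * (Finset.univ.image (gen83 (k + 1))).card) *
        ∑ l, |D.w (lab32 D.u (D.ρ (lb (gen83 (k + 1)) l)))|
      ≤ √2 * √8 ^ (nrm b + 40 * (k + 1)) * 2 := by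
        refine mul_le_mul ?_ D.hw2 (Finset.sum_nonneg fun _ _ => abs_nonneg _) (by positivity)
        exact mul_le_mul_of_nonneg_left h3 (Real.sqrt_nonneg _)
    _ = cst83 k * √8 ^ nrm b := by
        unfold cst83
        rw [pow_add]
        ring

/-- the inequality with the least filling -/
theorem fin83' {k : ℕ} (hk : 1 ≤ k) (D : RepData83 k) (θ : SG (k + 1) →* SG (k + 1))
    (hθ : Function.Injective θ)
    (hB : IsB (push θ (zc (gen83 (k + 1))) - zc (gen83 (k + 1)))) :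
    (cr (θ (PresentedGroup.of (Sum.inr 0))) : ℝ) ≤
      cst83 k * √8 ^ hfill θ (zc (gen83 (k + 1))) := by
  obtain ⟨b, hb, hn⟩ := hB.fil
  refine (fin83 hk D θ hθ b hb).trans ?_
  have h8 : (1:ℝ) ≤ √8 := by rw [Real.one_le_sqrt]; norm_num
  refine mul_le_mul_of_nonneg_left (pow_le_pow_right₀ h8 ?_) (cst83_pos k).le
  exact_mod_cast hn

end Pool.Agent.Lib.MP_e3aa0a_gt.FVL
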