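import Pool.Agent.Lib.MP_e3aa0a_gt.FVL.Lim21
import Pool.Agent.Lib.MP_e3aa0a_gt.FVL.DefsFin72

/-!
Project FVL (MP_e3aa0a_gt), helper21: the limit half with the names of the final statement.
-/

set_option autoImplicit false

namespace Pool.Agent.Lib.MP_e3aa0a_gt.FVL

open Pool.Agent.Lib.FVol Filter Topology

variable {k : ℕ}

/-- the bound (A) for a constant `C` -/
def BndA (k : ℕ) (C : ℝ) : Prop :=
  ∀ θ : SG (k + 1) →* SG (k + 1), Function.Injective θ → ∀ b : C3 (SG (k + 1)),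
    bd _ b = push θ (zS k) - zS k → (cr (θ (b1 k)) : ℝ) ≤ C * √8 ^ nrm b

/-- the crossing numbers of `ψ φⁿ χ b_1` have growth rate at most `(3/2) log 2 FV`: eventually -/
theorem eventually21 {C : ℝ} (hA : BndA k C) {φ : SG (k + 1) ≃* SG (k + 1)}
    (hφ : IsB (push φ.toMonoidHom (zS k) - zS k)) (ψ χ : SG (k + 1) ≃* SG (k + 1))
    (hψ : IsB (push ψ.toMonoidHom (zS k) - zS k)) (hχ : IsB (push χ.toMonoidHom (zS k) - zS k)) :
    ∀ ε : ℝ, 0 < ε → ∀ᶠ n : ℕ in atTop,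
      Real.log (cr (ψ (hpow φ.toMonoidHom n (χ (b1 k)))) : ℝ) / n ≤
        3 / 2 * Real.log 2 * FV φ.toMonoidHom (zS k) + ε :=
  Lim21.lim21 (N := fun θ => cr (θ (b1 k))) hA hψ hφ hχ ψ.injective φ.injective χ.injective
    (tendsto_FV hφ)

/-- the same with the limes superior -/
theorem limsup_cr21 {C : ℝ} (hA : BndA k C) {φ : SG (k + 1) ≃* SG (k + 1)}
    (hφ : IsB (push φ.toMonoidHom (zS k) - zS k)) (ψ χ : SG (k + 1) ≃* SG (k + 1))
    (hψ : IsB (push ψ.toMonoidHom (zS k) - zS k)) (hχ : IsB (push χ.toMonoidHom (zS k) - zS k)) :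
    limsup (fun n : ℕ => Real.log (cr (ψ (hpow φ.toMonoidHom n (χ (b1 k)))) : ℝ) / n) atTop ≤
        3 / 2 * Real.log 2 * FV φ.toMonoidHom (zS k) :=
  Lim21.limsup21 (N := fun θ => cr (θ (b1 k))) hA hψ hφ hχ ψ.injective φ.injective χ.injective
    (tendsto_FV hφ)

/-- exponential growth along a subsequence -/
theorem growth_cr21 {C : ℝ} (hA : BndA k C) {φ : SG (k + 1) ≃* SG (k + 1)}
    (hφ : IsB (push φ.toMonoidHom (zS k) - zS k)) (ψ χ : SG (k + 1) ≃* SG (k + 1))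
    (hψ : IsB (push ψ.toMonoidHom (zS k) - zS k)) (hχ : IsB (push χ.toMonoidHom (zS k) - zS k))
    {c μ : ℝ} (hc : 0 < c) (hμ : 0 < μ)
    (hg : ∃ᶠ n : ℕ in atTop, c * μ ^ n ≤ (cr (ψ (hpow φ.toMonoidHom n (χ (b1 k)))) : ℝ)) :
    Real.log μ ≤ 3 / 2 * Real.log 2 * FV φ.toMonoidHom (zS k) :=
  Lim21.growth21 (N := fun θ => cr (θ (b1 k))) hA hψ hφ hχ ψ.injective φ.injective χ.injective
    (tendsto_FV hφ) hc hμ hg

/-- **the lower bound for the stretching factor** -/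
theorem stretch21 {C : ℝ} (hA : BndA k C) {φ : SG (k + 1) ≃* SG (k + 1)}
    (hφ : IsB (push φ.toMonoidHom (zS k) - zS k)) {μ : ℝ} (h : Stretch φ μ) :
    Real.log μ ≤ 3 / 2 * Real.log 2 * FV φ.toMonoidHom (zS k) := by
  have h1 := h.2 (MulEquiv.refl _) (MulEquiv.refl _)
  have hid : IsB (push (MulEquiv.refl (SG (k + 1))).toMonoidHom (zS k) - zS k) := by
    have e : push (MulEquiv.refl (SG (k + 1))).toMonoidHom (zS k) = zS k := push_id16 _
    rw [e, sub_self]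
    exact isB_zero16
  refine le_of_forall_pos_le_add fun ε hε => ?_
  exact le_of_tendsto h1 (eventually21 hA hφ _ _ hid hid ε hε)

end Pool.Agent.Lib.MP_e3aa0a_gt.FVL
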