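import Pool.Agent.Lib.MP_e3aa0a_gt.FVL.Top31
import Pool.Agent.Lib.MP_e3aa0a_gt.FVL.Trop32

/-!
# FVL, module TopT31: the bound for the eigenvalue, only finitely many non-zero determinants
-/

set_option autoImplicit false

namespace Pool.Agent.Lib.MP_e3aa0a_gt.FVL

open Matrix Pool.Agent.Lib.FVol HahnSeries

/-- **The bound for the eigenvalue.** `W` is a family of valuations of `K`; `ρ` a representation
of `G` and `u` a vector such that the labels `det (u, ρ (lab k) u)` at the bottom are not zero; `b`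
is a filling of `θ z - z`; the valuations `f i` of the labels at the bottom have corank at most
one. If `ξ` is an eigenvector of `ρ (θ (lab i0))` with eigenvalue `μ`, and of no other
`ρ (θ (lab k))`, then every valuation of `μ` is bounded. -/
theorem topT31 {G : Type*} [Group G] {K : Type*} [Field K] {W : Set (K → ℝ)} (hW : TRI32 K W)
    (ρ : G →* Matrix.SpecialLinearGroup (Fin 2) K) (u : Fin 2 → K)
    (θ : G →* G) (z : C2 G) (hz : bd2 G z = 0) (b : C3 G) (hb : bd G b = push θ z - z)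
    {κ : Type*} [Fintype κ] (lab : κ → G) (hX : ∀ k, lab32 u (ρ (lab k)) ≠ 0) (Let : Finset G) (B : LinearMap.BilinForm ℝ (κ → ℝ))
    (hker : ∀ x, (∀ y, B x y = 0) → ∃ c : ℝ, ∀ i, x i = c)
    (hom : ∀ (f : G →* Matrix.SpecialLinearGroup (Fin 2) (HahnSeries ℤ (HahnSeries ℤ K)))
      (w w' : Matrix.SpecialLinearGroup (Fin 2) (HahnSeries ℤ (HahnSeries ℤ K)) → ℝ),
      (∀ a ∈ Let, w (f a)⁻¹ = w (f a)) → (∀ a ∈ Let, w' (f a)⁻¹ = w' (f a)) →
      om w w' (pushG f z) = B (fun k => w (f (lab k))) (fun k => w' (f (lab k))))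
    {m : ℕ} (f : Fin m → K → ℝ) (hf : ∀ i, f i ∈ W)
    (hli : LinearIndependent ℝ (fun i => (fun k => f i (lab32 u (ρ (lab k))) : κ → ℝ)))
    (hm : Fintype.card κ ≤ m + 1) (i0 i j : κ) (hi : i ≠ i0) (hj : j ≠ i0)
    (hij : lab j = lab i * lab i0) (ξ : Fin 2 → K) (hξ : ξ ≠ 0) (μ : K)
    (hμ : (ρ (θ (lab i0))).1 *ᵥ ξ = μ • ξ)
    (hD : ∀ k, k ≠ i0 → lab32 ξ (ρ (θ (lab k))) ≠ 0) (w : K → ℝ) (hw : w ∈ W) :
    |w μ| ≤ √2 * √8 ^ (nrm b + 3 * nrm z + 2 * Let.card) *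
      ∑ k, |w (lab32 u (ρ (lab k)))| := by
  classical
  have hR : 0 ≤ √2 * √8 ^ (nrm b + 3 * nrm z + 2 * Let.card) *
      ∑ k, |w (lab32 u (ρ (lab k)))| := by positivity
  by_cases hwμ : w μ = 0
  · rw [hwμ, abs_zero]
    exact hR
  obtain ⟨η, hη⟩ := exists_det31 ξ hξ
  -- the eigenvalue
  have hη1 : μ * det32 ξ ((ρ (θ (lab i0))).1 *ᵥ η) = 1 := by
    have h1 := det32_mulVec (ρ (θ (lab i0))) ξ η
    rw [hμ, hη] at h1
    have h2 : det32 (μ • ξ) ((ρ (θ (lab i0))).1 *ᵥ η) =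
        μ * det32 ξ ((ρ (θ (lab i0))).1 *ᵥ η) := by
      simp only [det32, Pi.smul_apply, smul_eq_mul]
      ring
    rw [← h2]
    exact h1
  have hμ0 : μ ≠ 0 := by
    rintro rfl
    rw [zero_mul] at hη1
    exact zero_ne_one hη1
  have hμ2 : μ * μ ≠ 1 := by
    intro h
    have h1 := hW.1 w hw μ μ hμ0 hμ0
    rw [h, (hW.1 w hw).one] at h1
    apply hwμ
    linarith
  -- the base vector
  have hu : u ≠ 0 := by
    rintro rfl
    apply hX i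
    simp [lab32, det32]
  -- the big field
  let K2 := HahnSeries ℤ (HahnSeries ℤ K)
  let W2 : Set (K2 → ℝ) := hahnW32 ℤ (hahnW32 ℤ W)
  have hW2 : TRI32 K2 W2 := tri_hahn32 (tri_hahn32 hW)
  let ρ2 : G →* Matrix.SpecialLinearGroup (Fin 2) K2 :=
    (Matrix.SpecialLinearGroup.map (f31 K)).comp ρ
  let u2 : Fin 2 → K2 := fun i => f31 K (u i)
  have hmix : ∀ g, det32 u2 ((ρ2 g).1 *ᵥ v31 ξ η) ≠ 0 := fun g => mix31 ξ η u hη hu (ρ g)
  have hu2 : u2 ≠ 0 := by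
    intro h
    apply hmix 1
    rw [h]
    simp [det32]
  have hv2 : v31 ξ η ≠ 0 := by
    intro h
    apply hmix 1
    rw [h]
    simp [det32]
  obtain ⟨γ, hγ⟩ := exists_sl31 u2 (v31 ξ η) hu2 hv2
  -- labels
  have hbotE : ∀ g, lab32 u2 (ρ2 g) = f31 K (lab32 u (ρ g)) := fun g => lab_bot31 (f31 K) u (ρ g)
  have htopE : ∀ g, lab32 u2 (γ⁻¹ * ρ2 g * γ) = HahnSeries.single (2 : ℤ) (Q31 ξ η (ρ g)) := by
    intro g
    rw [lab32_conj, hγ]
    exact lab_v31 ξ η (ρ g)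
  obtain ⟨p, hp⟩ := exists_dir32 hu2
  have hL : IsTrop ρ2 γ (L32 W2 u2 p) := trop32 hW2 hp ρ2 γ
  have hbne : ∀ k, lab32 u2 (ρ2 (lab k)) ≠ 0 := by
    intro k
    rw [hbotE]
    exact (map_ne_zero _).2 (hX k)
  -- functionals
  have mw : ∀ w ∈ W, (fun x : K2 => (fun y : HahnSeries ℤ K => w y.leadingCoeff)
    x.leadingCoeff) ∈ W2 := fun w hw => Or.inl ⟨_, Or.inl ⟨w, hw, rfl⟩, rfl⟩
  have m1 : (fun x : K2 => (Int.castAddHom ℝ) x.order) ∈ W2 := Or.inr ⟨_, rfl⟩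
  have m2 : (fun x : K2 => (fun y : HahnSeries ℤ K => (Int.castAddHom ℝ) y.order)
    x.leadingCoeff) ∈ W2 := Or.inl ⟨_, Or.inr ⟨_, rfl⟩, rfl⟩
  -- bottom values
  have hbl : ∀ w (hw : w ∈ W) k, ev32 _ (mw w hw) (L32 W2 u2 p (ρ2 (lab k))) =
      w (lab32 u (ρ (lab k))) := by
    intro w hw k
    rw [ev32_L _ _ (hbne k)]
    show w ((lab32 u2 (ρ2 (lab k))).leadingCoeff).leadingCoeff = _
    rw [hbotE, f31, RingHom.comp_apply, leadingCoeff_C31, leadingCoeff_C31]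
  have hb1 : ∀ k, ev32 _ m1 (L32 W2 u2 p (ρ2 (lab k))) = 0 := by
    intro k
    rw [ev32_L _ _ (hbne k)]
    show (Int.castAddHom ℝ) (lab32 u2 (ρ2 (lab k))).order = 0
    rw [hbotE, f31, RingHom.comp_apply, order_C, map_zero]
  have hb2 : ∀ k, ev32 _ m2 (L32 W2 u2 p (ρ2 (lab k))) = 0 := by
    intro k
    rw [ev32_L _ _ (hbne k)]
    show (Int.castAddHom ℝ) ((lab32 u2 (ρ2 (lab k))).leadingCoeff).order = 0
    rw [hbotE, f31, RingHom.comp_apply, leadingCoeff_C31, order_C, map_zero]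
  -- top values
  have hQ0 : ∀ k, k ≠ i0 → Q31 ξ η (ρ (θ (lab k))) ≠ 0 ∧ (Q31 ξ η (ρ (θ (lab k)))).order = 0 ∧
      (Q31 ξ η (ρ (θ (lab k)))).leadingCoeff = lab32 ξ (ρ (θ (lab k))) := by
    intro k hk
    obtain ⟨h0, h1, -, -⟩ := Q31_coeff ξ η (ρ (θ (lab k)))
    have h2 := order31 _ 0 h0 (by rw [h1]; exact hD k hk)
    rw [h1] at h2
    exact h2
  have hQ1 : Q31 ξ η (ρ (θ (lab i0))) ≠ 0 ∧ (Q31 ξ η (ρ (θ (lab i0)))).order = 1 := by
    obtain ⟨h0, h1, h2, -⟩ := Q31_coeff ξ η (ρ (θ (lab i0)))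
    have h3 : lab32 ξ (ρ (θ (lab i0))) = 0 := by
      rw [lab32, hμ]
      simp only [det32, Pi.smul_apply, smul_eq_mul]
      ring
    have h4 : det32 η ((ρ (θ (lab i0))).1 *ᵥ ξ) = - μ := by
      rw [hμ]
      have : det32 η (μ • ξ) = - (μ * det32 ξ η) := by
        simp only [det32, Pi.smul_apply, smul_eq_mul]
        ring
      rw [this, hη, mul_one]
    have h5 : (Q31 ξ η (ρ (θ (lab i0)))).coeff 1 ≠ 0 := by
      rw [h2, h4]
      intro h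
      apply hμ2
      have h6 : det32 ξ ((ρ (θ (lab i0))).1 *ᵥ η) = μ := by linear_combination h
      rw [h6] at hη1
      exact hη1
    have h6 := order31 _ 1 (fun i hi => by
      rcases lt_or_eq_of_le (Int.lt_add_one_iff.1 (show i < 0 + 1 by simpa using hi)) with h | h
      · exact h0 i h
      · rw [h, h1, h3]) h5
    exact ⟨h6.1, h6.2.1⟩
  have hQne : ∀ k, Q31 ξ η (ρ (θ (lab k))) ≠ 0 := by
    intro k
    by_cases hk : k = i0
    · rw [hk]; exact hQ1.1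
    · exact (hQ0 k hk).1
  have htne : ∀ k, lab32 u2 (γ⁻¹ * ρ2 (θ (lab k)) * γ) ≠ 0 := by
    intro k
    rw [htopE]
    exact single_ne_zero (hQne k)
  have ht1 : ∀ k, ev32 _ m1 (L32 W2 u2 p (γ⁻¹ * ρ2 (θ (lab k)) * γ)) = 2 := by
    intro k
    rw [ev32_L _ _ (htne k)]
    show (Int.castAddHom ℝ) (lab32 u2 (γ⁻¹ * ρ2 (θ (lab k)) * γ)).order = 2
    rw [htopE, order_single (hQne k)]
    simp
  have ht2 : ∀ k, k ≠ i0 → ev32 _ m2 (L32 W2 u2 p (γ⁻¹ * ρ2 (θ (lab k)) * γ)) = 0 := by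
    intro k hk
    rw [ev32_L _ _ (htne k)]
    show (Int.castAddHom ℝ) ((lab32 u2 (γ⁻¹ * ρ2 (θ (lab k)) * γ)).leadingCoeff).order = 0
    rw [htopE, leadingCoeff_of_single, (hQ0 k hk).2.1, map_zero]
  have ht3 : ev32 _ m2 (L32 W2 u2 p (γ⁻¹ * ρ2 (θ (lab i0)) * γ)) ≠ 0 := by
    rw [ev32_L _ _ (htne i0)]
    show (Int.castAddHom ℝ) ((lab32 u2 (γ⁻¹ * ρ2 (θ (lab i0)) * γ)).leadingCoeff).order ≠ 0
    rw [htopE, leadingCoeff_of_single, hQ1.2]
    simp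
  have htl : ∀ k, k ≠ i0 → ev32 _ (mw w hw) (L32 W2 u2 p (γ⁻¹ * ρ2 (θ (lab k)) * γ)) =
      w (lab32 ξ (ρ (θ (lab k)))) := by
    intro k hk
    rw [ev32_L _ _ (htne k)]
    show w ((lab32 u2 (γ⁻¹ * ρ2 (θ (lab k)) * γ)).leadingCoeff).leadingCoeff = _
    rw [htopE, leadingCoeff_of_single, (hQ0 k hk).2.2]
  have key := main83 ρ2 θ γ hL z hz b hb lab Let B hker hom
    (fun i => ev32 _ (mw (f i) (hf i)))
    (by
      have h1 : (fun i => (fun k => ev32 _ (mw (f i) (hf i)) (L32 W2 u2 p (ρ2 (lab k))) :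
          κ → ℝ)) = (fun i => (fun k => f i (lab32 u (ρ (lab k))) : κ → ℝ)) := by
        funext i k
        exact hbl (f i) (hf i) k
      rw [h1]
      exact hli)
    hm i0 (ev32 _ m1) (ev32 _ m2) hb1 hb2 2 two_ne_zero ht1 ht2 ht3 i j hi hj
    (ev32 _ (mw w hw))
  rw [htl i hi, htl j hj] at key
  have hsum : ∑ k, |ev32 _ (mw w hw) (L32 W2 u2 p (ρ2 (lab k)))| =
      ∑ k, |w (lab32 u (ρ (lab k)))| := Finset.sum_congr rfl fun k _ => by
      rw [hbl w hw]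
  rw [hsum] at key
  have hlj : lab32 ξ (ρ (θ (lab j))) = μ * lab32 ξ (ρ (θ (lab i))) := by
    rw [hij, map_mul, map_mul, lab32, Matrix.SpecialLinearGroup.coe_mul, ← Matrix.mulVec_mulVec,
      hμ, Matrix.mulVec_smul, lab32]
    simp only [det32, Pi.smul_apply, smul_eq_mul]
    ring
  rw [hlj, hW.1 w hw _ _ hμ0 (hD i hi)] at key
  have h1 : |w μ| = |w (lab32 ξ (ρ (θ (lab i)))) - (w μ + w (lab32 ξ (ρ (θ (lab i)))))| := by
    rw [show w (lab32 ξ (ρ (θ (lab i)))) - (w μ + w (lab32 ξ (ρ (θ (lab i))))) = - w μ by ring,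
      abs_neg]
  rw [h1]
  exact key

end Pool.Agent.Lib.MP_e3aa0a_gt.FVL
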