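import Pool.Agent.Lib.MP_e3aa0a_gt.FVL.Fin83
import Pool.Agent.Lib.MP_e3aa0a_gt.FVL.TopT31
import Pool.Agent.Lib.MP_e3aa0a_gt.FVL.Stretch21

/-!
# FVL, module Fin83T: the inequality for the crossing number, without a condition on all matrices
-/

set_option autoImplicit false

namespace Pool.Agent.Lib.MP_e3aa0a_gt.FVL

open Pool.Agent.Lib.FVol Matrix
open Ker21 (Lab)
open Fan21 (zc lb kb ka kab)

/-- the data which the proof uses; only the labels of the fundamental cycle must be non-zero -/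
structure RepDataT83 (k : ℕ) where
  K : Type
  fld : Field K
  W : Set (K → ℝ)
  hW : TRI32 K W
  ρ : SG (k + 1) →* Matrix.SpecialLinearGroup (Fin 2) K
  u : Fin 2 → K
  hX : ∀ l, lab32 u (ρ (lb (gen83 (k + 1)) l)) ≠ 0
  f : Fin (6 * (k + 1) - 4) → K → ℝ
  hf : ∀ i, f i ∈ W
  hli : LinearIndependent ℝ (fun i => (fun l => f i (lab32 u (ρ (lb (gen83 (k + 1)) l))) :
    Lab (k + 1) → ℝ))
  w : K → ℝ
  hw : w ∈ W
  hw2 : ∑ l, |w (lab32 u (ρ (lb (gen83 (k + 1)) l)))| ≤ 2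
  eig : ∀ θ : SG (k + 1) →* SG (k + 1), Function.Injective θ →
    0 < cr (θ (PresentedGroup.of (Sum.inr 0))) →
    ∃ (ξ : Fin 2 → K) (μ : K), ξ ≠ 0 ∧ (ρ (θ (PresentedGroup.of (Sum.inr 0)))).1 *ᵥ ξ = μ • ξ ∧
      (∀ l, l ≠ kb (Nat.succ_pos k) → lab32 ξ (ρ (θ (lb (gen83 (k + 1)) l))) ≠ 0) ∧
      |w μ| = (cr (θ (PresentedGroup.of (Sum.inr 0))) : ℝ)

/-- **The crossing number is at most exponential in the filling.** -/
theorem finT83 {k : ℕ} (hk : 1 ≤ k) (D : RepDataT83 k) (θ : SG (k + 1) →* SG (k + 1))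
    (hθ : Function.Injective θ) (b : C3 (SG (k + 1)))
    (hb : bd (SG (k + 1)) b = push θ (zc (gen83 (k + 1))) - zc (gen83 (k + 1))) :
    (cr (θ (PresentedGroup.of (Sum.inr 0))) : ℝ) ≤ cst83 k * √8 ^ nrm b := by
  classical
  rcases Nat.eq_zero_or_pos (cr (θ (PresentedGroup.of (Sum.inr 0)))) with h0 | h0
  · rw [h0, Nat.cast_zero]
    have := cst83_pos k
    positivity
  let _ : Field D.K := D.fld
  obtain ⟨ξ, μ, hξ, hμ, hD, hcr⟩ := D.eig θ hθ h0
  have hg0 : 0 < k + 1 := Nat.succ_pos k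
  have h := topT31 D.hW D.ρ D.u θ (zc (gen83 (k + 1))) (Fan21.bd2_zc _ (wpr_gen83 (k + 1)))
    b hb (lb (gen83 (k + 1))) D.hX (Finset.univ.image (gen83 (k + 1))) (Ker21.om (k + 1))
    (fun x hx => Ker21.ker21 (by omega) x hx) (fun f w w' h h' => by
      have e := Fan21.hom21 hg0 (gen83 (k + 1)) (wpr_gen83 (k + 1)) f w w' (by convert h)
        (by convert h')
      exact e) D.f D.hf D.hli (by rw [Fan21.card_Lab hg0]; omega) (kb hg0) (ka hg0) (kab hg0)
    (by simp [ka, kb]) (by simp [kab, kb]) (by rw [Fan21.lb_kab, Fan21.lb_ka, Fan21.lb_kb]) ξ hξ μ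
    hμ hD D.w D.hw
  rw [hcr] at h
  refine h.trans ?_
  have h8 : (1:ℝ) ≤ √8 := by rw [Real.one_le_sqrt]; norm_num
  have h1 := Fan21.nrm_zc_le (gen83 (k + 1))
  have h2 := Fan21.card_letters (gen83 (k + 1))
  have h3 : √8 ^ (nrm b + 3 * nrm (zc (gen83 (k + 1))) +
      2 * (Finset.univ.image (gen83 (k + 1))).card) ≤ √8 ^ (nrm b + 40 * (k + 1)) :=
    pow_le_pow_right₀ h8 (by omega)
  calc √2 * √8 ^ (nrm b + 3 * nrm (zc (gen83 (k + 1))) +
          2 * (Finset.univ.image (gen83 (k + 1))).card) *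
        ∑ l, |D.w (lab32 D.u (D.ρ (lb (gen83 (k + 1)) l)))|
      ≤ √2 * √8 ^ (nrm b + 40 * (k + 1)) * 2 := by
        refine mul_le_mul ?_ D.hw2 (Finset.sum_nonneg fun _ _ => abs_nonneg _) (by positivity)
        exact mul_le_mul_of_nonneg_left h3 (Real.sqrt_nonneg _)
    _ = cst83 k * √8 ^ nrm b := by
        unfold cst83
        rw [pow_add]
        ring

/-- the bound in the form of the final statement -/
theorem bndA83 {k : ℕ} (hk : 1 ≤ k) (D : RepDataT83 k) : BndA k (cst83 k) :=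
  fun θ hθ b hb => finT83 hk D θ hθ b hb

/-- the bound in the form of the final statement, from the data with `hgood` -/
theorem bndA83' {k : ℕ} (hk : 1 ≤ k) (D : RepData83 k) : BndA k (cst83 k) :=
  fun θ hθ b hb => fin83 hk D θ hθ b hb

end Pool.Agent.Lib.MP_e3aa0a_gt.FVL
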