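import Pool.Agent.Lib.MP_e3aa0a_gt.FVL.Defs29
import Pool.Agent.Lib.MP_e3aa0a_gt.FVL.FV16
import Pool.Agent.Lib.MP_e3aa0a_gt.FVL.Cod32

/-!
# FVR, module FinR29: both bounds with the same stretch factor, from `StLow`
-/

set_option autoImplicit false

namespace Pool.Agent.Lib.MP_e3aa0a_gt.FVL

open Pool.Agent.Lib.FVol Filter Topology

/-- from exponential growth to the limit -/
theorem growth29 {u : ℕ → ℕ} {F C μ : ℝ} (hC : 0 < C) (hμ : 1 < μ)
    (h : ∀ k, μ ^ k ≤ C * √8 ^ (u k))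
    (hF : Tendsto (fun k : ℕ => (u k : ℝ) / k) atTop (𝓝 F)) :
    2 / 3 * (Real.log μ / Real.log 2) ≤ F := by
  have h8 : Real.log √8 = 3 / 2 * Real.log 2 := by
    rw [Real.log_sqrt (by norm_num), show (8 : ℝ) = 2 ^ 3 by norm_num, Real.log_pow]
    push_cast
    ring
  have h2 : 0 < Real.log 2 := Real.log_pos (by norm_num)
  have h80 : (0 : ℝ) < √8 := Real.sqrt_pos.2 (by norm_num)
  have key : ∀ k : ℕ, 1 ≤ k → Real.log μ ≤ Real.log C * (1 / (k : ℝ)) +
      3 / 2 * Real.log 2 * ((u k : ℝ) / k) := by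
    intro k hk
    have hk0 : (0 : ℝ) < k := by exact_mod_cast hk
    have h1 := Real.log_le_log (pow_pos (zero_lt_one.trans hμ) k) (h k)
    rw [Real.log_pow, Real.log_mul hC.ne' (pow_pos h80 _).ne', Real.log_pow, h8] at h1
    have h3 : Real.log μ = (k * Real.log μ) * (1 / k) := by field_simp
    rw [h3]
    calc (k * Real.log μ) * (1 / (k : ℝ))
        ≤ (Real.log C + (u k : ℝ) * (3 / 2 * Real.log 2)) * (1 / k) :=
          mul_le_mul_of_nonneg_right h1 (by positivity)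
      _ = _ := by ring
  have hlim : Tendsto (fun k : ℕ => Real.log C * (1 / (k : ℝ)) +
      3 / 2 * Real.log 2 * ((u k : ℝ) / k)) atTop
      (𝓝 (Real.log C * 0 + 3 / 2 * Real.log 2 * F)) :=
    (tendsto_one_div_atTop_nhds_zero_nat.const_mul _).add (hF.const_mul _)
  have h4 : Real.log μ ≤ Real.log C * 0 + 3 / 2 * Real.log 2 * F :=
    ge_of_tendsto hlim (eventually_atTop.2 ⟨1, key⟩)
  have h5 : Real.log μ / Real.log 2 ≤ 3 / 2 * F := by
    rw [div_le_iff₀ h2]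
    linarith
  linarith

variable {G : Type} [Group G]

/-- The endomorphism `φ` is coded by a finite path of Rauzy-Veech steps from the polygon scheme `d`
to its image under `φ` with stretch factor `μ`: the scheme has at most `N` letters, `G` with the
labels is the fundamental group of its closed surface, no vertex has exactly one prong, and its
2-cycle is homologous to `z` or `-z`. -/
def CodedR (N : ℕ) (z : C2 G) (φ : G →* G) (μ : ℝ) : Prop :=
  ∃ (n : ℕ) (V : Type) (d : Dat (Fin n) V G) (c : V → G), 0 < n ∧ n ≤ N ∧ Good d ∧ IsPi1 d ∧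
    NoOneProng d ∧ Relation.ReflTransGen Rv d (tw φ c μ d) ∧
    ((∃ b : C3 G, bd G b = cyc d - z) ∨ ∃ b : C3 G, bd G b = cyc d + z)

theorem CodedR.coded {N : ℕ} {z : C2 G} {φ : G →* G} {μ : ℝ} (h : CodedR N z φ μ) :
    Coded N z φ μ := by
  obtain ⟨n, V, d, c, _, hn, hd, _, _, hp, hc⟩ := h
  exact ⟨n, V, d, c, hn, hd, hp, hc⟩

/-- the lower bound for a datum -/
theorem low_dat29 (hlow : StLow) {A V : Type} [Fintype A] [Nonempty A] [DecidableEq A]
    {d : Dat A V G} {φ : G →* G} {c : V → G} {μ : ℝ} (hd : Good d) (hpi : IsPi1 d)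
    (hpr : NoOneProng d) (hμ : 1 < μ) (h : Relation.ReflTransGen Rv d (tw φ c μ d)) {F : ℝ}
    (hF : Tendsto (fun k : ℕ => (fill (push (hpow φ k) (cyc d) - cyc d) : ℝ) / k) atTop (𝓝 F)) :
    2 / 3 * (Real.log μ / Real.log 2) ≤ F := by
  obtain ⟨C, hC, hk⟩ := hlow A V G d φ c μ hd hpi hpr hμ h
  exact growth29 hC hμ hk hF

/-- **the lower bound**: if the power `φ^p` is coded with stretch factor `μ^p`, the filling volume
is at least `(2/3) log μ / log 2` -/
theorem lower29 (hlow : StLow) {N : ℕ} {z : C2 G} {φ : G →* G} {μ : ℝ} (hμ : 1 < μ) {p : ℕ}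
    (hp : 1 ≤ p) (hz : ∃ b : C3 G, bd G b = push φ z - z)
    (hc : CodedR N z (hpow φ p) (μ ^ p)) {F : ℝ}
    (hF : Tendsto (fun k : ℕ => (fill (push (hpow φ k) z - z) : ℝ) / k) atTop (𝓝 F)) :
    2 / 3 * (Real.log μ / Real.log 2) ≤ F := by
  obtain ⟨n, V, d, c, hn0, -, hd, hpi, hpr, hpath, hcyc⟩ := hc
  have : Nonempty (Fin n) := ⟨⟨0, hn0⟩⟩
  have hp0 : (0 : ℝ) < p := by exact_mod_cast hp
  have hμp : 1 < μ ^ p := one_lt_pow₀ hμ (by omega)
  have hz' : IsB (push φ z - z) := hz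
  have e1 : FV φ z = F := FV_unique16 hF
  have e2 : FV (hpow φ p) z = p * F := by rw [FV_pow16 hz' p, e1]
  have hzp : IsB (push (hpow φ p) z - z) := isB_pow16 hz' p
  have e3 : IsB (push (hpow φ p) (cyc d) - cyc d) ∧ FV (hpow φ p) (cyc d) = p * F := by
    rcases hcyc with ⟨b, hb⟩ | ⟨b, hb⟩
    · have h1 : IsB (cyc d - z) := ⟨b, hb⟩
      exact ⟨isB_change16 hzp h1, (FV_change16 hzp h1).trans e2⟩
    · have h1 : IsB (cyc d - -z) := ⟨b, by rw [hb]; abel⟩
      have h2 : IsB (push (hpow φ p) (-z) - -z) := isB_neg16 hzp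
      exact ⟨isB_change16 h2 h1, (FV_change16 h2 h1).trans ((FV_neg16 _ _).trans e2)⟩
  have hT := tendsto_FV e3.1
  rw [e3.2] at hT
  have h4 := low_dat29 hlow hd hpi hpr hμp hpath hT
  rw [Real.log_pow] at h4
  have h5 : (p : ℝ) * (2 / 3 * (Real.log μ / Real.log 2)) ≤ p * F := by
    calc (p : ℝ) * (2 / 3 * (Real.log μ / Real.log 2)) = 2 / 3 * (p * Real.log μ / Real.log 2) := by
          ring
      _ ≤ p * F := h4
  exact le_of_mul_le_mul_left h5 hp0

/-- **both bounds** -/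
theorem both29 (hlow : StLow) {N : ℕ} {z : C2 G} {φ : G →* G} {μ : ℝ} (hμ : 1 < μ) {p : ℕ}
    (hp : 1 ≤ p) (hz : ∃ b : C3 G, bd G b = push φ z - z)
    (hc : CodedR N z (hpow φ p) (μ ^ p)) :
    ∃ F : ℝ, Tendsto (fun k : ℕ => (fill (push (hpow φ k) z - z) : ℝ) / k) atTop (𝓝 F) ∧
      2 / 3 * (Real.log μ / Real.log 2) ≤ F ∧
      F ≤ (56 * (N : ℝ) + 73) * ((N : ℝ) + 2) * (N : ℝ) * (Real.log μ / Real.log 2) :=
  ⟨FV φ z, tendsto_FV hz, lower29 hlow hμ hp hz hc (tendsto_FV hz),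
    upper32 hμ hp hc.coded (tendsto_FV hz)⟩

end Pool.Agent.Lib.MP_e3aa0a_gt.FVL
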