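import Pool.Agent.Lib.MP_e3aa0a_gt.FVL.Asm83
import Pool.Agent.Lib.FVol.Fek

/-!
# FVL, module Gau43: the bridge from labels in `G` to labels in another group `H`

A homomorphism `ρ : G →* H` and a change of the base paths `c : V → H` carry polygon data with
labels in `G` to polygon data with labels in `H`; Rauzy-Veech paths and fillings are carried along.
-/

set_option autoImplicit false

namespace Pool.Agent.Lib.MP_e3aa0a_gt.FVL

open Pool.Agent.Lib.FVol

variable {A V G H : Type*} [Group G] [Group H]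

/-- the data with labels pushed to another group -/
def mapG (ρ : G →* H) (d : Dat A V G) : Dat A V H where
  row := d.row
  lam := d.lam
  src := d.src
  tgt := d.tgt
  lab a := ρ (d.lab a)

/-- the data with labels pushed to another group, and a change of the base paths -/
def mapH (ρ : G →* H) (c : V → H) (d : Dat A V G) : Dat A V H where
  row := d.row
  lam := d.lam
  src := d.src
  tgt := d.tgt
  lab a := (c (d.src a))⁻¹ * ρ (d.lab a) * c (d.tgt a)

theorem slab_mapG (ρ : G →* H) (g : A → G) (z : A × Bool) :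
    slab (fun a => ρ (g a)) z = ρ (slab g z) := by
  rcases z with ⟨a, s⟩
  cases s <;> simp [slab]

theorem wpr_mapG (ρ : G →* H) (g : A → G) (W : List (A × Bool)) :
    wpr (fun a => ρ (g a)) W = ρ (wpr g W) := by
  induction W with
  | nil => simp
  | cons z W ih => rw [wpr_cons, wpr_cons, map_mul, ih, slab_mapG]

theorem comp_mapG (ρ : G →* H) (d : Dat A V G) (W : List (A × Bool)) :
    ∀ v w, comp (mapG ρ d) v W w ↔ comp d v W w := by
  induction W with
  | nil => intro v w; rfl
  | cons z W ih =>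
    intro v w
    simp only [comp, ih]
    rfl

theorem comp_mapH (ρ : G →* H) (c : V → H) (d : Dat A V G) (W : List (A × Bool)) :
    ∀ v w, comp (mapH ρ c d) v W w ↔ comp d v W w := by
  induction W with
  | nil => intro v w; rfl
  | cons z W ih =>
    intro v w
    simp only [comp, ih]
    rfl

theorem slab_mapH (ρ : G →* H) (c : V → H) (d : Dat A V G) (z : A × Bool) :
    slab (mapH ρ c d).lab z = (c (ssrc d z))⁻¹ * ρ (slab d.lab z) * c (stgt d z) := by
  rcases z with ⟨a, s⟩
  cases s
  · simp only [slab, mapH, ssrc, stgt, Bool.false_eq_true, if_false, map_inv]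
    group
  · simp only [slab, mapH, ssrc, stgt, if_true]

theorem wpr_mapH (ρ : G →* H) (c : V → H) (d : Dat A V G) (W : List (A × Bool)) :
    ∀ v w, comp d v W w → wpr (mapH ρ c d).lab W = (c v)⁻¹ * ρ (wpr d.lab W) * c w := by
  induction W with
  | nil =>
    intro v w h
    simp only [comp] at h
    subst h
    simp
  | cons z W ih =>
    intro v w h
    simp only [comp] at h
    obtain ⟨rfl, h⟩ := h
    rw [wpr_cons, wpr_cons, slab_mapH, ih _ _ h, map_mul]
    group

theorem kap_mapG (ρ : G →* H) (g : A → G) (z : A × Bool) :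
    pushG ρ (kap g z) = kap (fun a => ρ (g a)) z := by
  rcases z with ⟨a, s⟩
  cases s
  · simp [kap, pushG_add, pushG_neg, pushG_e2]
  · simp [kap, pushG_zero]

theorem fan_mapG (ρ : G →* H) (g : A → G) (W : List (A × Bool)) : ∀ p : G,
    pushG ρ (fan g p W) = fan (fun a => ρ (g a)) (ρ p) W := by
  induction W with
  | nil => intro p; simp [pushG_zero]
  | cons z W ih =>
    intro p
    rw [fan_cons, fan_cons, pushG_add, pushG_add, pushG_e2, kap_mapG, ih, slab_mapG, map_mul]

theorem cyc_mapG (ρ : G →* H) (d : Dat A V G) : cyc (mapG ρ d) = pushG ρ (cyc d) := by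
  rw [cyc, cyc, pushG_sub, fan_mapG, fan_mapG, map_one]
  rfl

/-- fillings are carried along a homomorphism -/
theorem fil_pushG {r : ℝ} {c : C2 G} (h : Fil r c) (ρ : G →* H) : Fil r (pushG ρ c) := by
  obtain ⟨b, h1, h2⟩ := h
  refine ⟨pushG3 ρ b, by rw [bd_pushG3, h1], ?_⟩
  have := nrm_mapDomain_le (fun x : G × G × G => (ρ x.1, ρ x.2.1, ρ x.2.2)) b
  have h3 : (nrm (pushG3 ρ b) : ℝ) ≤ nrm b := by exact_mod_cast this
  linarith

variable [DecidableEq A]

theorem good_mapG (ρ : G →* H) {d : Dat A V G} (hd : Good d) : Good (mapG ρ d) := by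
  refine ⟨hd.two, hd.sgn, hd.pos, ?_, ?_⟩
  · show wpr (fun a => ρ (d.lab a)) (d.row true) = wpr (fun a => ρ (d.lab a)) (d.row false)
    rw [wpr_mapG, wpr_mapG, hd.rel]
  · obtain ⟨v, w, h1, h2⟩ := hd.cmp
    exact ⟨v, w, (comp_mapG ρ d _ v w).2 h1, (comp_mapG ρ d _ v w).2 h2⟩

theorem good_mapH (ρ : G →* H) (c : V → H) {d : Dat A V G} (hd : Good d) :
    Good (mapH ρ c d) := by
  obtain ⟨v, w, h1, h2⟩ := hd.cmp
  refine ⟨hd.two, hd.sgn, hd.pos, ?_, v, w, (comp_mapH ρ c d _ v w).2 h1,
    (comp_mapH ρ c d _ v w).2 h2⟩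
  show wpr (mapH ρ c d).lab (d.row true) = wpr (mapH ρ c d).lab (d.row false)
  rw [wpr_mapH ρ c d _ v w h1, wpr_mapH ρ c d _ v w h2, hd.rel]

theorem mapH_step (ρ : G →* H) (c : V → H) {d : Dat A V G} {τ : Bool} {x y : A × Bool}
    {T B : List (A × Bool)} (hxy : y.1 ≠ x.1) (hend : stgt d x = stgt d y) :
    step (mapH ρ c d) τ x y T B = mapH ρ c (step d τ x y T B) := by
  have hs : ssrc (mapH ρ c d) y = ssrc d y := rfl
  have hlab : (step (mapH ρ c d) τ x y T B).lab = (mapH ρ c (step d τ x y T B)).lab := by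
    funext a
    by_cases ha : a = x.1
    · subst ha
      rcases x with ⟨a, s⟩
      cases s
      · simp only [stgt, Bool.false_eq_true, if_false] at hend
        simp only [step, slab_mapH, Bool.false_eq_true, if_false, Function.update_self]
        simp only [mapH, Function.update_self, map_mul, hend]
        simp only [stgt]
        group
      · simp only [stgt, if_true] at hend
        simp only [step, slab_mapH, if_true, Function.update_self]
        simp only [mapH, Function.update_self, map_mul, map_inv, hend]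
        simp only [stgt]
        group
    · have h1 : (step d τ x y T B).src a = d.src a := by
        rcases x with ⟨b, s⟩
        cases s <;> simp [step, Function.update_of_ne ha]
      have h2 : (step d τ x y T B).tgt a = d.tgt a := by
        rcases x with ⟨b, s⟩
        cases s <;> simp [step, Function.update_of_ne ha]
      rw [step_lab_of_ne ha]
      simp only [mapH, h1, h2, step_lab_of_ne ha]
  have hlam : (step (mapH ρ c d) τ x y T B).lam = (mapH ρ c (step d τ x y T B)).lam := rfl
  have hrow : (step (mapH ρ c d) τ x y T B).row = (mapH ρ c (step d τ x y T B)).row := rfl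
  have hsrc : (step (mapH ρ c d) τ x y T B).src = (mapH ρ c (step d τ x y T B)).src := rfl
  have htgt : (step (mapH ρ c d) τ x y T B).tgt = (mapH ρ c (step d τ x y T B)).tgt := rfl
  cases h : step (mapH ρ c d) τ x y T B
  cases h' : mapH ρ c (step d τ x y T B)
  rw [h, h'] at hlam hlab hrow hsrc htgt
  simp only at hlam hlab hrow hsrc htgt
  subst hlam hlab hrow hsrc htgt
  rfl

theorem rv_mapH (ρ : G →* H) (c : V → H) {d d' : Dat A V G} (h : Rv d d') (hd : Good d) :
    Rv (mapH ρ c d) (mapH ρ c d') := by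
  cases h with
  | mk τ x y T B h1 h2 h3 =>
    rw [← mapH_step ρ c (ne_of_lam h3) (ends_eq hd h1 h2)]
    exact Rv.mk _ τ x y T B h1 h2 h3

theorem path_mapH (ρ : G →* H) (c : V → H) {d d' : Dat A V G}
    (h : Relation.ReflTransGen Rv d d') (hd : Good d) :
    Relation.ReflTransGen Rv (mapH ρ c d) (mapH ρ c d') := by
  induction h with
  | refl => exact Relation.ReflTransGen.refl
  | tail h1 h2 ih => exact ih.tail (rv_mapH ρ c h2 (path_good h1 hd))

variable [Fintype A]

/-- the cost of the change of the base paths in `H` -/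
theorem fil_mapH (ρ : G →* H) (c : V → H) {d : Dat A V G} (hd : Good d) :
    Fil (16 * (Fintype.card A : ℝ)) (cyc (mapH ρ c d) - pushG ρ (cyc d)) := by
  rw [← cyc_mapG]
  exact fil_gauge (good_mapG ρ hd) c rfl (fun a => rfl)

/-- The universal property of the labels: every function on the letters, with values in a group,
for which the two rows of the polygon have the same product, comes from a homomorphism of `G` and
a choice of base paths. (The labels identify `G` with the fundamental group of the surface which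
is the quotient of the polygon.) -/
def UP43 (d : Dat A V G) : Prop :=
  ∀ (H : Type) [Group H] (f : A → H), wpr f (d.row true) = wpr f (d.row false) →
    ∃ (ρ : G →* H) (c : V → H), ∀ a, f a = (c (d.src a))⁻¹ * ρ (d.lab a) * c (d.tgt a)

/-- transport of a filling of `ψ (cyc d) - cyc d` to the group `H`, along the whole path -/
theorem bridge_cyc43 {H : Type*} [Group H] (ρ : G →* H) (cf : V → H) {φ : G →* G} {c : V → G}
    {μ : ℝ} {d : Dat A V G} (hd : Good d) (hμ : 0 < μ)
    (hpath : Relation.ReflTransGen Rv d (tw φ c μ d)) (k : ℕ) {r : ℝ}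
    (hr : Fil r (push (hpow φ k) (cyc d) - cyc d)) :
    Fil (r + 48 * (Fintype.card A : ℝ))
      (cyc (mapH ρ cf ((tw φ c μ)^[k] d)) - cyc (mapH ρ cf d)) := by
  obtain ⟨e1, e2, e3, e4, e5⟩ := tw_iter (φ := φ) (c := c) (μ := μ) d k
  have hgd : Good ((tw φ c μ)^[k] d) := path_good (path_iter hpath hd hμ k) hd
  have h1 := fil_mapH ρ cf hgd
  have h2 := fil_mapH ρ cf hd
  have h3 : Fil (16 * (Fintype.card A : ℝ))
      (cyc ((tw φ c μ)^[k] d) - cyc (mapd (hpow φ k) d)) := by
    refine fil_gauge (good_mapd _ hd) (cc φ c k) e1 ?_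
    intro a
    rw [e5]
    rfl
  rw [cyc_mapd] at h3
  have h4 := fil_pushG h3 ρ
  have h5 := fil_pushG hr ρ
  refine (((h1.add h4).add h5).sub h2).of_eq (le_of_eq (by ring)) ?_
  rw [pushG_sub, pushG_sub]
  abel

/-- **The bridge.** A filling of `φ^k z - z` in `G` gives a filling in `H` of the difference of
the two ends of the Rauzy path of data with labels in `H`. -/
theorem bridge43 {φ : G →* G} {c : V → G} {μ : ℝ} {d : Dat A V G} (hd : Good d) (hμ : 0 < μ)
    (hpath : Relation.ReflTransGen Rv d (tw φ c μ d)) {z : C2 G}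
    (hz : (∃ b : C3 G, bd G b = cyc d - z) ∨ ∃ b : C3 G, bd G b = cyc d + z)
    (hup : UP43 d) {H : Type} [Group H] (f : A → H)
    (hf : wpr f (d.row true) = wpr f (d.row false)) :
    ∃ (d0 : Dat A V H) (C : ℝ), Good d0 ∧ d0.row = d.row ∧ d0.lam = d.lam ∧ d0.lab = f ∧
      ∀ k : ℕ, ∃ dk : Dat A V H, Good dk ∧ dk.row = d.row ∧ (∀ a, dk.lam a = d.lam a / μ ^ k) ∧
        Relation.ReflTransGen Rv d0 dk ∧
        ∀ r : ℝ, Fil r (push (hpow φ k) z - z) → Fil (r + C) (cyc dk - cyc d0) := by
  obtain ⟨ρ, cf, hρ⟩ := hup H f hf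
  obtain ⟨R, hR⟩ : ∃ R : ℝ, ∀ (ψ : G →* G) (r : ℝ), Fil r (push ψ z - z) →
      Fil (r + R) (push ψ (cyc d) - cyc d) := by
    rcases hz with ⟨b, hb⟩ | ⟨b, hb⟩
    · refine ⟨2 * nrm b, fun ψ r h => ?_⟩
      have h1 : Fil (nrm b : ℝ) (cyc d - z) := ⟨b, hb, le_refl _⟩
      have h2 := h1.push ψ
      refine ((h.add h2).sub h1).of_eq (le_of_eq (by ring)) ?_
      rw [push_sub]
      abel
    · refine ⟨2 * nrm b, fun ψ r h => ?_⟩
      have h1 : Fil (nrm b : ℝ) (cyc d + z) := ⟨b, hb, le_refl _⟩
      have h2 := h1.push ψ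
      refine ((h2.sub h).sub h1).of_eq (le_of_eq (by ring)) ?_
      rw [push_add]
      abel
  refine ⟨mapH ρ cf d, R + 48 * (Fintype.card A : ℝ), good_mapH ρ cf hd, rfl, rfl,
    funext fun a => (hρ a).symm, fun k => ?_⟩
  obtain ⟨e1, e2, e3, e4, e5⟩ := tw_iter (φ := φ) (c := c) (μ := μ) d k
  have hpk := path_iter hpath hd hμ k
  refine ⟨mapH ρ cf ((tw φ c μ)^[k] d), good_mapH ρ cf (path_good hpk hd), e1, e4,
    path_mapH ρ cf hpk hd, fun r hr => ?_⟩
  exact (bridge_cyc43 ρ cf hd hμ hpath k (hR _ _ hr)).of_eq (le_of_eq (by ring)) rfl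

end Pool.Agent.Lib.MP_e3aa0a_gt.FVL
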