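import Pool.Agent.Lib.MP_e3aa0a_gt.FVL.Defs29

/-!
# FVL29, module PRO: the numbering of the half edges
-/

set_option autoImplicit false

namespace Pool.Agent.Lib.MP_e3aa0a_gt.FVL

open Pool.Agent.Lib.FVol

/-- an integer valued function which separates the classes of an equivalence relation -/
theorem exists_num29 {X : Type*} [Finite X] (r : X → X → Prop) :
    ∃ α : X → ℤ, ∀ x y, α x = α y ↔ Relation.EqvGen r x y := by
  classical
  let s : Setoid X := Relation.EqvGen.setoid r
  obtain ⟨f, hf⟩ := Countable.exists_injective_nat (Quotient s)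
  refine ⟨fun x => (f (Quotient.mk s x) : ℤ), fun x y => ?_⟩
  constructor
  · intro h
    have h1 : f (Quotient.mk s x) = f (Quotient.mk s y) := Int.ofNat_inj.1 h
    exact Quotient.exact (hf h1)
  · intro h
    have h1 : Quotient.mk s x = Quotient.mk s y := Quotient.sound h
    simp only [h1]

theorem exists_prong29 {A V G : Type} [Finite A] (d : Dat A V G) (h : NoOneProng d) :
    ∃ α : A × Bool → ℤ, Prong d α := by
  obtain ⟨α, hα⟩ := exists_num29 (EndCor d)
  refine ⟨α, ?_, ?_, ?_⟩
  · intro σ x y P S hr he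
    refine h (sinv x) y ⟨σ, P, S, ?_⟩ ((hα _ _).1 he.symm)
    rw [sinv_sinv]
    exact hr
  · intro x y P S h1 h2
    exact (hα x y).2 (Relation.EqvGen.rel _ _ (Or.inl ⟨P, S, h1, h2⟩))
  · intro x y P S h1 h2
    refine (hα _ _).2 (Relation.EqvGen.rel _ _ (Or.inr ⟨P, S, ?_, ?_⟩))
    · rw [sinv_sinv]; exact h1
    · rw [sinv_sinv]; exact h2

theorem stPro29 : StPro := fun _ _ _ _ _ _ d h => exists_prong29 d h

end Pool.Agent.Lib.MP_e3aa0a_gt.FVL
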