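import Pool.Agent.Lib.FVol.Moves

/-!
# FVR, module Theta11: the functional `Θ` is not zero

For a two-row scheme without coincidences of vertices there is an integral weight `l` with equal
row sums such that the sum of `l_j (left_j + right_j)` over the top row differs from the sum over
the bottom row.
-/

set_option autoImplicit false

namespace Pool.Agent.Lib.MP_e3aa0a_gt.FVL

open Pool.Agent.Lib.FVol

namespace Theta11

/-- sum of a weight over a word -/
def sm {A M : Type*} [AddCommMonoid M] (m : A → M) (W : List (A × Bool)) : M :=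
  (W.map (fun z => m z.1)).sum

/-- sum of `l_j (left_j + right_j)` over the edges of a word that starts at the height `p` -/
def ths {A : Type*} (lam l : A → ℝ) : ℝ → List (A × Bool) → ℝ
  | _, [] => 0
  | p, x :: W => l x.1 * (2 * p + lam x.1) + ths lam l (p + lam x.1) W

section

variable {A M : Type*} [AddCommMonoid M]

@[simp] theorem sm_nil (m : A → M) : sm m [] = 0 := rfl

@[simp] theorem sm_cons (m : A → M) (x : A × Bool) (W : List (A × Bool)) :
    sm m (x :: W) = m x.1 + sm m W := by simp [sm]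

@[simp] theorem sm_append (m : A → M) (W W' : List (A × Bool)) :
    sm m (W ++ W') = sm m W + sm m W' := by simp [sm]

theorem sm_nonneg {lam : A → ℝ} (h : ∀ a, 0 < lam a) (W : List (A × Bool)) : 0 ≤ sm lam W := by
  induction W with
  | nil => simp
  | cons x W ih =>
    rw [sm_cons]
    have := h x.1
    linarith

theorem sm_pos {lam : A → ℝ} (h : ∀ a, 0 < lam a) {W : List (A × Bool)} (hW : W ≠ []) :
    0 < sm lam W := by
  cases W with
  | nil => exact absurd rfl hW
  | cons x W =>
    rw [sm_cons]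
    have h1 := h x.1
    have h2 := sm_nonneg h W
    linarith

theorem ths_append (lam l : A → ℝ) (W W' : List (A × Bool)) (p : ℝ) :
    ths lam l p (W ++ W') = ths lam l p W + ths lam l (p + sm lam W) W' := by
  induction W generalizing p with
  | nil => simp [ths]
  | cons x W ih =>
    rw [List.cons_append, ths, ths, ih, sm_cons, ← add_assoc (a := p), add_assoc (a := l x.1 * _)]

theorem ths_add (lam l l' : A → ℝ) (W : List (A × Bool)) (p : ℝ) :
    ths lam (fun a => l a + l' a) p W = ths lam l p W + ths lam l' p W := by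
  induction W generalizing p with
  | nil => simp [ths]
  | cons x W ih =>
    rw [ths, ths, ths, ih]
    ring

theorem ths_sub (lam l l' : A → ℝ) (W : List (A × Bool)) (p : ℝ) :
    ths lam (fun a => l a - l' a) p W = ths lam l p W - ths lam l' p W := by
  induction W generalizing p with
  | nil => simp [ths]
  | cons x W ih =>
    rw [ths, ths, ths, ih]
    ring

end

variable {A : Type*} [DecidableEq A]

/-- number of occurrences of a letter, with any sign -/
def cnt (a : A) (W : List (A × Bool)) : ℕ := W.countP (fun z => decide (z.1 = a))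

@[simp] theorem cnt_nil (a : A) : cnt a [] = 0 := rfl

theorem cnt_cons (a : A) (x : A × Bool) (W : List (A × Bool)) :
    cnt a (x :: W) = cnt a W + if x.1 = a then 1 else 0 := by
  rw [cnt, List.countP_cons]
  simp [cnt]

@[simp] theorem cnt_append (a : A) (W W' : List (A × Bool)) :
    cnt a (W ++ W') = cnt a W + cnt a W' := by
  simp [cnt, List.countP_append]

theorem occ_cnt (a : A) (s : Bool) (W : List (A × Bool)) :
    occ (a, s) W + occ (sinv (a, s)) W = cnt a W := by
  induction W with
  | nil => rfl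
  | cons x W ih =>
    rw [occ_cons, occ_cons, cnt_cons, ← ih]
    rcases x with ⟨b, t⟩
    by_cases hb : b = a
    · subst hb
      cases s <;> cases t <;> simp [sinv] <;> omega
    · simp [sinv, hb]

/-- the indicator of a letter -/
def dl (a : A) (b : A) : ℤ := if b = a then 1 else 0

/-- the indicator of a letter, real -/
def dr (a : A) (b : A) : ℝ := (dl a b : ℝ)

theorem sm_dl (a : A) (W : List (A × Bool)) : sm (dl a) W = (cnt a W : ℤ) := by
  induction W with
  | nil => rfl
  | cons x W ih =>
    rw [sm_cons, cnt_cons, ih, dl]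
    split_ifs <;> push_cast <;> ring

theorem ths_cnt0 (lam : A → ℝ) {a : A} {W : List (A × Bool)} (h : cnt a W = 0) (p : ℝ) :
    ths lam (dr a) p W = 0 := by
  induction W generalizing p with
  | nil => rfl
  | cons x W ih =>
    rw [cnt_cons] at h
    have h1 : ¬ x.1 = a := by
      intro h2
      rw [if_pos h2] at h
      omega
    rw [if_neg h1] at h
    rw [ths, ih h, dr, dl, if_neg h1]
    simp

/-- a letter that occurs -/
theorem exists_dec {a : A} {W : List (A × Bool)} (h : 0 < cnt a W) :
    ∃ P x Q, W = P ++ x :: Q ∧ x.1 = a := by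
  induction W with
  | nil => exact absurd h (by simp)
  | cons x W ih =>
    by_cases hx : x.1 = a
    · exact ⟨[], x, W, rfl, hx⟩
    · rw [cnt_cons, if_neg hx] at h
      obtain ⟨P, y, Q, h1, h2⟩ := ih h
      exact ⟨x :: P, y, Q, by rw [h1]; rfl, h2⟩

theorem dec1 {a : A} {W : List (A × Bool)} (h : cnt a W = 1) :
    ∃ P x Q, W = P ++ x :: Q ∧ x.1 = a ∧ cnt a P = 0 ∧ cnt a Q = 0 := by
  obtain ⟨P, x, Q, h1, h2⟩ := exists_dec (show 0 < cnt a W by omega)
  rw [h1, cnt_append, cnt_cons, if_pos h2] at h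
  exact ⟨P, x, Q, h1, h2, by omega, by omega⟩

theorem ths_one (lam : A → ℝ) {a : A} {P Q : List (A × Bool)} {x : A × Bool} (hx : x.1 = a)
    (hP : cnt a P = 0) (hQ : cnt a Q = 0) :
    ths lam (dr a) 0 (P ++ x :: Q) = 2 * sm lam P + lam a := by
  rw [ths_append, ths, ths_cnt0 lam hP, ths_cnt0 lam hQ, dr, dl, if_pos hx, hx]
  push_cast
  ring

theorem ths_two (lam : A → ℝ) {a : A} {P R S : List (A × Bool)} {x y : A × Bool} (hx : x.1 = a)
    (hy : y.1 = a) (hP : cnt a P = 0) (hR : cnt a R = 0) (hS : cnt a S = 0) :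
    ths lam (dr a) 0 (P ++ x :: (R ++ y :: S)) =
      4 * sm lam P + 4 * lam a + 2 * sm lam R := by
  rw [ths_append, ths, ths_append, ths, ths_cnt0 lam hP, ths_cnt0 lam hR, ths_cnt0 lam hS,
    dr, dr, dl, dl, if_pos hx, if_pos hy, hx, hy]
  push_cast
  ring

/-- the two occurrences, seen from one of them -/
theorem dec2 {a : A} {P Q : List (A × Bool)} {x : A × Bool} (hx : x.1 = a)
    (h : cnt a (P ++ x :: Q) = 2) :
    (cnt a P = 0 ∧ ∃ R y S, Q = R ++ y :: S ∧ y.1 = a ∧ cnt a R = 0 ∧ cnt a S = 0) ∨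
      (cnt a Q = 0 ∧ ∃ R y S, P = R ++ y :: S ∧ y.1 = a ∧ cnt a R = 0 ∧ cnt a S = 0) := by
  rw [cnt_append, cnt_cons, if_pos hx] at h
  rcases (by omega : (cnt a P = 0 ∧ cnt a Q = 1) ∨ (cnt a P = 1 ∧ cnt a Q = 0)) with h1 | h1
  · exact Or.inl ⟨h1.1, dec1 h1.2⟩
  · exact Or.inr ⟨h1.2, dec1 h1.1⟩

/-- the edge at the height `h` -/
theorem exists_at {lam : A → ℝ} (W : List (A × Bool)) : ∀ h : ℝ, 0 ≤ h → h < sm lam W →
    ∃ P x Q, W = P ++ x :: Q ∧ sm lam P ≤ h ∧ h < sm lam P + lam x.1 := by
  induction W with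
  | nil =>
    intro h h0 h1
    simp at h1
    linarith
  | cons z W ih =>
    intro h h0 h1
    by_cases hz : h < lam z.1
    · exact ⟨[], z, W, rfl, by simpa using h0, by simpa using hz⟩
    · rw [sm_cons] at h1
      obtain ⟨P, x, Q, e1, e2, e3⟩ := ih (h - lam z.1) (by linarith) (by linarith)
      refine ⟨z :: P, x, Q, by rw [e1]; rfl, ?_, ?_⟩
      · rw [sm_cons]; linarith
      · rw [sm_cons]; linarith

/-- a row with both occurrences of all its letters and a common sum of midpoints has a vertex in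
the middle -/
theorem half {lam : A → ℝ} (hl : ∀ a, 0 < lam a) {W : List (A × Bool)} (hW : W ≠ []) {κ : ℝ}
    (h2 : ∀ x ∈ W, cnt x.1 W = 2) (hκ : ∀ x ∈ W, ths lam (dr x.1) 0 W = κ) :
    ∃ P Q, W = P ++ Q ∧ P ≠ [] ∧ Q ≠ [] ∧ sm lam P = sm lam W / 2 := by
  have hpos := sm_pos hl hW
  -- the formula
  have key : ∀ (P R S : List (A × Bool)) (x y : A × Bool), W = P ++ x :: (R ++ y :: S) →
      y.1 = x.1 → cnt x.1 P = 0 → cnt x.1 R = 0 → cnt x.1 S = 0 →
      κ - 2 * sm lam W = 2 * sm lam P - 2 * sm lam S ∧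
      sm lam W = sm lam P + 2 * lam x.1 + sm lam R + sm lam S := by
    intro P R S x y e hy hP hR hS
    have h3 := hκ x (by rw [e]; simp)
    have h4 := ths_two lam (rfl : x.1 = x.1) hy hP hR hS
    rw [← e, h3] at h4
    have h5 : sm lam W = sm lam P + 2 * lam x.1 + sm lam R + sm lam S := by
      rw [e]
      simp only [sm_append, sm_cons, hy]
      ring
    exact ⟨by rw [h4, h5]; ring, h5⟩
  -- the first letter
  have hle : κ ≤ 2 * sm lam W := by
    obtain ⟨x, Q, hQ⟩ := List.exists_cons_of_ne_nil hW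
    have h3 := h2 x (by rw [hQ]; simp)
    rw [hQ] at h3
    rcases dec2 (P := []) rfl h3 with ⟨h4, R, y, S, e, hy, hR, hS⟩ | ⟨-, R, y, S, e, -⟩
    · have h5 := (key [] R S x y (by rw [hQ, e]; rfl) hy rfl hR hS).1
      have h6 := sm_nonneg hl S
      rw [sm_nil] at h5
      linarith
    · simp at e
  -- the last letter
  have hge : 2 * sm lam W ≤ κ := by
    obtain ⟨P, x, hP⟩ : ∃ P x, W = P ++ [x] := by
      rcases List.eq_nil_or_concat W with h | ⟨P, x, h⟩
      · exact absurd h hW
      · exact ⟨P, x, by rw [h, List.concat_eq_append]⟩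
    have h3 := h2 x (by rw [hP]; simp)
    rw [hP] at h3
    rcases dec2 (Q := []) rfl h3 with ⟨-, R, y, S, e, -⟩ | ⟨h4, R, y, S, e, hy, hR, hS⟩
    · simp at e
    · have h5 := (key R S [] y x (by rw [hP, e]; simp) hy.symm (by rw [hy]; exact hR)
        (by rw [hy]; exact hS) rfl).1
      have h6 := sm_nonneg hl R
      rw [sm_nil] at h5
      linarith
  have hk : κ = 2 * sm lam W := le_antisymm hle hge
  obtain ⟨P, x, Q, e, h3, h4⟩ := exists_at (lam := lam) W (sm lam W / 2) (by linarith)
    (by linarith)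
  by_cases h5 : sm lam P = sm lam W / 2
  · refine ⟨P, x :: Q, e, ?_, by simp, h5⟩
    rintro rfl
    rw [sm_nil] at h5
    linarith
  · exfalso
    have h6 : sm lam P < sm lam W / 2 := lt_of_le_of_ne h3 h5
    have h7 := h2 x (by rw [e]; simp)
    rw [e] at h7
    rcases dec2 rfl h7 with ⟨h8, R, y, S, e', hy, hR, hS⟩ | ⟨h8, R, y, S, e', hy, hR, hS⟩
    · obtain ⟨k1, k2⟩ := key P R S x y (by rw [e, e']) hy h8 hR hS
      have h9 := sm_nonneg hl R
      linarith
    · obtain ⟨k1, k2⟩ := key R S Q y x (by rw [e, e']; simp) hy.symm (by rw [hy]; exact hR)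
        (by rw [hy]; exact hS) (by rw [hy]; exact h8)
      have h9 := sm_nonneg hl S
      have h10 : sm lam P = sm lam R + lam y.1 + sm lam S := by
        rw [e']
        simp only [sm_append, sm_cons]
        ring
      linarith

/-- there is an integral weight with equal row sums and `Θ ≠ 0`: two words -/
theorem exists_theta {lam : A → ℝ} (hl : ∀ a, 0 < lam a) {T B : List (A × Bool)} (hT : T ≠ [])
    (h2 : ∀ a, cnt a T + cnt a B = 2) (hs : sm lam T = sm lam B)
    (h1 : ∀ x y, T = [x] → B = [y] → x.1 ≠ y.1)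
    (hNC : ∀ P Q P' Q', T = P ++ Q → B = P' ++ Q' → P ≠ [] → Q ≠ [] → P' ≠ [] → Q' ≠ [] →
      sm lam P ≠ sm lam P') :
    ∃ l : A → ℤ, sm l T = sm l B ∧
      ths lam (fun a => (l a : ℝ)) 0 T ≠ ths lam (fun a => (l a : ℝ)) 0 B := by
  by_contra hcon
  push Not at hcon
  have hTp := sm_pos hl hT
  have hB : B ≠ [] := by
    rintro rfl
    rw [sm_nil] at hs
    linarith
  -- no letter in both rows
  have h11 : ∀ a, ¬ (cnt a T = 1 ∧ cnt a B = 1) := by
    rintro a ⟨ha, hb⟩
    have h3 := hcon (dl a) (by rw [sm_dl, sm_dl, ha, hb])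
    obtain ⟨P, x, Q, e, hx, hP, hQ⟩ := dec1 ha
    obtain ⟨P', x', Q', e', hx', hP', hQ'⟩ := dec1 hb
    have h4 : ths lam (dr a) 0 T = ths lam (dr a) 0 B := h3
    rw [e, e', ths_one lam hx hP hQ, ths_one lam hx' hP' hQ'] at h4
    have h5 : sm lam P = sm lam P' := by linarith
    by_cases hPn : P = []
    · have hPn' : P' = [] := by
        by_contra h6
        have := sm_pos hl h6
        rw [← h5, hPn, sm_nil] at this
        linarith
      subst hPn
      subst hPn'
      rw [List.nil_append] at e e'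
      have h6 : sm lam Q = sm lam Q' := by
        rw [e, e', sm_cons, sm_cons, hx, hx'] at hs
        linarith
      by_cases hQn : Q = []
      · have hQn' : Q' = [] := by
          by_contra h7
          have := sm_pos hl h7
          rw [← h6, hQn, sm_nil] at this
          linarith
        subst hQn
        subst hQn'
        exact h1 x x' e e' (by rw [hx, hx'])
      · have hQn' : Q' ≠ [] := by
          intro h7
          have := sm_pos hl hQn
          rw [h6, h7, sm_nil] at this
          linarith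
        exact hNC [x] Q [x'] Q' e e' (by simp) hQn (by simp) hQn' (by simp [sm, hx, hx'])
    · have hPn' : P' ≠ [] := by
        intro h6
        have := sm_pos hl hPn
        rw [h5, h6, sm_nil] at this
        linarith
      exact hNC P (x :: Q) P' (x' :: Q') e e' hPn (by simp) hPn' (by simp) h5
  have hTB : ∀ x ∈ T, cnt x.1 T = 2 ∧ cnt x.1 B = 0 := by
    intro x hx
    have h3 : 0 < cnt x.1 T := by
      rw [cnt, List.countP_pos_iff]
      exact ⟨x, hx, by simp⟩
    have h4 := h2 x.1
    have h5 := h11 x.1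
    omega
  have hBT : ∀ x ∈ B, cnt x.1 B = 2 ∧ cnt x.1 T = 0 := by
    intro x hx
    have h3 : 0 < cnt x.1 B := by
      rw [cnt, List.countP_pos_iff]
      exact ⟨x, hx, by simp⟩
    have h4 := h2 x.1
    have h5 := h11 x.1
    omega
  obtain ⟨x0, T', hT'⟩ := List.exists_cons_of_ne_nil hT
  have hx0 := hTB x0 (by rw [hT']; simp)
  have z0 : ths lam (dr x0.1) 0 B = 0 := ths_cnt0 lam hx0.2 0
  obtain ⟨P, Q, e, hP, hQ, hh⟩ := half hl hT (κ := ths lam (dr x0.1) 0 T)
    (fun x hx => (hTB x hx).1) (by
      intro x hx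
      have hx1 := hTB x hx
      have h3 := hcon (fun b => dl x.1 b - dl x0.1 b) (by
        have e1 : ∀ W : List (A × Bool), sm (fun b => dl x.1 b - dl x0.1 b) W =
            (cnt x.1 W : ℤ) - cnt x0.1 W := by
          intro W
          rw [← sm_dl, ← sm_dl]
          induction W with
          | nil => simp
          | cons z W ih => rw [sm_cons, sm_cons, sm_cons, ih]; ring
        rw [e1, e1, hx1.1, hx1.2, hx0.1, hx0.2]
        norm_num)
      have e2 : (fun a => ((dl x.1 a - dl x0.1 a : ℤ) : ℝ)) = fun a => dr x.1 a - dr x0.1 a := by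
        funext a
        rw [dr, dr]
        push_cast
        ring
      have z1 : ths lam (dr x.1) 0 B = 0 := ths_cnt0 lam hx1.2 0
      rw [e2, ths_sub, ths_sub, z0, z1] at h3
      linarith)
  obtain ⟨P', Q', e', hP', hQ', hh'⟩ := half hl hB (κ := ths lam (dr x0.1) 0 T)
    (fun x hx => (hBT x hx).1) (by
      intro x hx
      have hx1 := hBT x hx
      have h3 := hcon (fun b => dl x.1 b + dl x0.1 b) (by
        have e1 : ∀ W : List (A × Bool), sm (fun b => dl x.1 b + dl x0.1 b) W =
            (cnt x.1 W : ℤ) + cnt x0.1 W := by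
          intro W
          rw [← sm_dl, ← sm_dl]
          induction W with
          | nil => simp
          | cons z W ih => rw [sm_cons, sm_cons, sm_cons, ih]; ring
        rw [e1, e1, hx1.1, hx1.2, hx0.1, hx0.2]
        norm_num)
      have e2 : (fun a => ((dl x.1 a + dl x0.1 a : ℤ) : ℝ)) = fun a => dr x.1 a + dr x0.1 a := by
        funext a
        rw [dr, dr]
        push_cast
        ring
      have z1 : ths lam (dr x.1) 0 T = 0 := ths_cnt0 lam hx1.2 0
      rw [e2, ths_add, ths_add, z0, z1] at h3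
      linarith)
  exact hNC P Q P' Q' e e' hP hQ hP' hQ' (by rw [hh, hh', hs])

/-- there is an integral weight with equal row sums and `Θ ≠ 0` -/
theorem theta11 {V G : Type*} [Group G] {d : Dat A V G} (hd : Good d) (hT : d.row true ≠ [])
    (hs : sm d.lam (d.row true) = sm d.lam (d.row false))
    (h1 : ∀ x y, d.row true = [x] → d.row false = [y] → x.1 ≠ y.1)
    (hNC : ∀ P Q P' Q', d.row true = P ++ Q → d.row false = P' ++ Q' → P ≠ [] → Q ≠ [] →
      P' ≠ [] → Q' ≠ [] → sm d.lam P ≠ sm d.lam P') :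
    ∃ l : A → ℤ, sm l (d.row true) = sm l (d.row false) ∧
      ths d.lam (fun a => (l a : ℝ)) 0 (d.row true) ≠
        ths d.lam (fun a => (l a : ℝ)) 0 (d.row false) := by
  refine exists_theta hd.pos hT (fun a => ?_) hs h1 hNC
  have h2 := hd.two (a, true)
  rw [← occ_cnt a true, ← occ_cnt a true]
  omega

end Theta11

end Pool.Agent.Lib.MP_e3aa0a_gt.FVL
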