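import Pool.Agent.Lib.MP_e3aa0a_gt.FVL.Defs29
import Pool.Agent.Lib.MP_e3aa0a_gt.FVL.Pro29
import Pool.Agent.Lib.MP_e3aa0a_gt.FVL.AsmF32
import Pool.Agent.Lib.MP_e3aa0a_gt.FVL.Gau43
import Pool.Agent.Lib.MP_e3aa0a_gt.FVR.StarRow21
import Pool.Agent.Lib.MP_e3aa0a_gt.FVR.Theta21

/-!
# FVR, module FinR43: the lower bound, from the representation and the tropical label function
-/

set_option autoImplicit false

namespace Pool.Agent.Lib.MP_e3aa0a_gt.FVL

open Pool.Agent.Lib.FVol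

/-- what is needed from the label function on `GL₂(K)` -/
structure TropI43 {M : Type} [AddCommGroup M] [LinearOrder M] (L : G29 → M) (e : ℝ × ℝ →+ M)
    (l1 l2 : M →+ ℝ) : Prop where
  four : ∀ a b c, Four L a b c
  inv : ∀ g, L g⁻¹ = L g
  one : L 1 = 0
  ult : FVR.UltM L
  emb : FVR.Emb e
  c1 : ∀ P : ℝ × ℝ, l1 (e P) = P.1
  c2 : ∀ P : ℝ × ℝ, l2 (e P) = P.2
  val : ∀ (g : G29) (r : ℝ) (s : ℤ), NV2 1 g r s → L g = e (r, (s : ℝ))

theorem wlen_cast43 {A : Type*} (l : A → ℤ) (W : List (A × Bool)) :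
    ((wlen l W : ℤ) : ℝ) = FVR.wl (fun a => (l a : ℝ)) W := by
  induction W with
  | nil => simp [wlen]
  | cons z W ih =>
    rw [FVR.wl_cons, ← ih]
    simp [wlen]

theorem noTie43 {A V G : Type} [Group G] {d : Dat A V G} (h : FVR.NC d) : NoTie d := by
  rintro P P' ⟨Q, hQ⟩ ⟨Q', hQ'⟩ h1 h2 h3 h4 h5
  rcases h P Q P' Q' hQ.symm hQ'.symm h5 with ⟨rfl, _⟩ | ⟨rfl, _⟩
  · exact h1 rfl
  · rw [List.append_nil] at hQ
    exact h3 hQ

theorem path_next43 {A V G : Type*} [DecidableEq A] [Group G] {φ : G →* G} {c : V → G} {μ : ℝ}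
    {d : Dat A V G} (h : Relation.ReflTransGen Rv d (tw φ c μ d)) (hd : Good d) (hμ : 0 < μ)
    (k : ℕ) : Relation.ReflTransGen Rv ((tw φ c μ)^[k] d) ((tw φ c μ)^[k + 1] d) := by
  induction k with
  | zero => exact h
  | succ k ih =>
    have hg : Good ((tw φ c μ)^[k] d) := path_good (path_iter h hd hμ k) hd
    have h1 := path_tw ih hg hμ (φ := φ) (c := c)
    rw [Function.iterate_succ_apply', Function.iterate_succ_apply' _ (k + 1)]
    exact h1

theorem low43 (hrep : StRep) {M : Type} [AddCommGroup M] [LinearOrder M] {L : G29 → M}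
    {e : ℝ × ℝ →+ M} {l1 l2 : M →+ ℝ} (T : TropI43 L e l1 l2) : StLow := by
  intro A V G _ _ _ _ d φ c μ hd hpi hpr hμ hpath
  have hμ0 : 0 < μ := zero_lt_one.trans hμ
  have hrow : (tw φ c μ d).row = d.row := rfl
  have hlam : ∀ a, (tw φ c μ d).lam a = d.lam a / μ := fun a => rfl
  have hbal := FVR.bal_of_closed hμ hpath hrow hlam
  have hnc := FVR.nc_of_closed hd hμ hrow hlam Relation.ReflTransGen.refl hpath
  have hzp := FVR.not_zp_of_closed hd hμ hpath hrow hlam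
  have hsg := FVR.not_single_of_closed hd hμ hpath hlam
  obtain ⟨l, hl, hΘ⟩ := FVR.exists_theta21 hd hμ hpath hrow hlam
  obtain ⟨α, hα⟩ := stPro29 A V G d hpr
  have hl' : wlen l (d.row true) = wlen l (d.row false) := by
    have h1 : FVR.wl (fun a => (l a : ℝ)) (d.row true) =
      FVR.wl (fun a => (l a : ℝ)) (d.row false) := hl
    rw [← wlen_cast43, ← wlen_cast43] at h1
    exact_mod_cast h1
  obtain ⟨f, hf, hval⟩ := hrep A V G d l α hd hbal (noTie43 hnc) (fun h => hzp h) hα hsg hl'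
  obtain ⟨ρ, cf, hρ⟩ := hpi G29 f hf
  set D : ℕ → Dat A V G29 := fun k => mapH ρ cf ((tw φ c μ)^[k] d) with hD
  have hDk : ∀ k, (D k).row = d.row ∧ ∀ a, (D k).lam a = d.lam a / μ ^ k := fun k => by
    obtain ⟨e1, _, _, e4, _⟩ := tw_iter (φ := φ) (c := c) (μ := μ) d k
    exact ⟨e1, e4⟩
  have hgk : ∀ k, Good ((tw φ c μ)^[k] d) := fun k => path_good (path_iter hpath hd hμ0 k) hd
  have hGk : ∀ k, Good (D k) := fun k => good_mapH ρ cf (hgk k)
  have hp0 : ∀ k, Relation.ReflTransGen Rv (D 0) (D k) := fun k =>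
    path_mapH ρ cf (path_iter hpath hd hμ0 k) hd
  have hpk : ∀ k, Relation.ReflTransGen Rv (D k) (D (k + 1)) := fun k =>
    path_mapH ρ cf (path_next43 hpath hd hμ0 k) (hgk k)
  have hlab0 : (D 0).lab = f := funext fun a => (hρ a).symm
  -- property (*) at the bottom
  have hball : FVR.Bal (fun a => (l a : ℝ)) (D 0) := hl
  have hadd : FVR.RowAdd L e (D 0) (fun a => (l a : ℝ)) := by
    intro σ P W Q h hW
    have h1 := hval σ P W Q (by
      have h2 : d.row σ = P ++ (W ++ Q) := h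
      rw [h2, List.append_assoc]) hW
    rw [hlab0, T.val _ _ _ h1, wlen_cast43]
    rfl
  have hS0 : FVR.Star L e (D 0) (fun a => (l a : ℝ)) :=
    FVR.star_rowwise T.emb T.ult (hGk 0).pos (hGk 0).rel hbal hball hadd
  -- property (*) for all k
  have hSk : ∀ k, ∃ l' : A → ℝ, FVR.Star L e (D k) l' := fun k => by
    obtain ⟨l', h1, _⟩ := FVR.star_closed T.emb T.ult T.inv (d := D 0) (d' := D k)
      (d'' := D (k + 1)) (μ := μ ^ (k + 1)) (hGk 0) (one_lt_pow₀ hμ (Nat.succ_ne_zero k)) hball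
      hS0 (hp0 k) (hpk k) ((hDk (k + 1)).1.trans (hDk 0).1.symm) (fun a => by
        rw [(hDk (k + 1)).2, (hDk 0).2, pow_zero, div_one])
    exact ⟨l', h1⟩
  obtain ⟨h1, h2⟩ := hS0.rowVal T.inv T.one (hGk 0) l1 l2 T.c1 T.c2
  -- the constant
  set n : ℕ := Fintype.card A with hn
  set S : ℝ := ∑ a, d.lam a with hSdef
  set N0 : ℝ := cn32 (fun g => l2 (L g)) (cyc (D 0)) with hN0
  have hN0' : 0 ≤ N0 := cn32_nonneg _ _
  have hS : 0 ≤ S := Finset.sum_nonneg fun a _ => (hd.pos a).le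
  set Θ : ℝ := |Theta32 d.lam (fun a => (l a : ℝ)) d.row| with hΘdef
  have hΘ0 : 0 < Θ := abs_pos.2 hΘ
  have h80 : (0 : ℝ) ≤ √8 := Real.sqrt_nonneg _
  have h81 : (1 : ℝ) ≤ √8 := by
    rw [Real.one_le_sqrt]; norm_num
  set K : ℝ := N0 * √8 ^ (48 * n) * (36 * (n : ℝ) * S) with hK
  have hK0 : 0 ≤ K := by positivity
  refine ⟨K / Θ + 1, by positivity, fun k => ?_⟩
  obtain ⟨l', hS'⟩ := hSk k
  obtain ⟨h1', _⟩ := hS'.rowVal T.inv T.one (hGk k) l1 l2 T.c1 T.c2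
  set F : ℕ := fill (push (hpow φ k) (cyc d) - cyc d) with hF
  have hfil : Fil (F : ℝ) (push (hpow φ k) (cyc d) - cyc d) := fil_fill (fil_iter hd hpath hμ k)
  obtain ⟨b, hb, hbn⟩ := bridge_cyc43 ρ cf hd hμ0 hpath k hfil
  have hbn' : nrm b ≤ 48 * n + F := by
    have : (nrm b : ℝ) ≤ ((48 * n + F : ℕ) : ℝ) := by
      push_cast
      linarith
    exact_mod_cast this
  have hT := thmT32 T.four l1 l2 (hGk k) h1 h2 h1' hb
  have hΘe : |Theta32 (D 0).lam (fun a => (l a : ℝ)) (D 0).row| = Θ := rfl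
  rw [hΘe] at hT
  have hsum : ∑ a, (D k).lam a = S / μ ^ k := by
    rw [hSdef, Finset.sum_div]
    exact Finset.sum_congr rfl fun a _ => (hDk k).2 a
  rw [hsum] at hT
  have hμk : 0 < μ ^ k := pow_pos hμ0 k
  have hpw : √8 ^ nrm b ≤ √8 ^ (48 * n) * √8 ^ F := by
    rw [← pow_add]
    exact pow_le_pow_right₀ h81 hbn'
  have h3 : Θ * μ ^ k ≤ K * √8 ^ F := by
    have h4 : Θ ≤ N0 * (√8 ^ (48 * n) * √8 ^ F) * (36 * (n : ℝ) * (S / μ ^ k)) := by
      refine hT.trans ?_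
      refine mul_le_mul_of_nonneg_right (mul_le_mul_of_nonneg_left hpw hN0') (by positivity)
    calc Θ * μ ^ k ≤ N0 * (√8 ^ (48 * n) * √8 ^ F) * (36 * (n : ℝ) * (S / μ ^ k)) * μ ^ k :=
          mul_le_mul_of_nonneg_right h4 hμk.le
      _ = K * √8 ^ F := by
          rw [hK]
          field_simp
  have h5 : μ ^ k ≤ K / Θ * √8 ^ F := by
    rw [div_mul_eq_mul_div, le_div_iff₀ hΘ0]
    linarith
  calc μ ^ k ≤ K / Θ * √8 ^ F := h5
    _ ≤ (K / Θ + 1) * √8 ^ F :=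
      mul_le_mul_of_nonneg_right (by linarith) (pow_nonneg h80 _)

end Pool.Agent.Lib.MP_e3aa0a_gt.FVL
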