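import Mathlib

/-!
# FVL, module Fix57: congruences and fixed points in Hahn series with real exponents
-/

set_option autoImplicit false

namespace Pool.Agent.Lib.MP_e3aa0a_gt.FVL

open HahnSeries

variable {F : Type*} [Field F]

/-- `x` and `y` agree in all exponents below `r` -/
def Cg57 (r : ℝ) (x y : HahnSeries ℝ F) : Prop := (r : WithTop ℝ) ≤ (x - y).orderTop

theorem cg57_iff {r : ℝ} {x y : HahnSeries ℝ F} : Cg57 r x y ↔ ∀ g < r, x.coeff g = y.coeff g := by
  rw [Cg57, le_orderTop_iff_forall]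
  constructor
  · intro h g hg
    have := h g (by exact_mod_cast hg)
    rw [coeff_sub] at this
    exact sub_eq_zero.1 this
  · intro h g hg
    rw [coeff_sub, h g (by exact_mod_cast hg), sub_self]

theorem Cg57.refl (r : ℝ) (x : HahnSeries ℝ F) : Cg57 r x x := cg57_iff.2 fun _ _ => rfl

theorem Cg57.symm {r : ℝ} {x y : HahnSeries ℝ F} (h : Cg57 r x y) : Cg57 r y x :=
  cg57_iff.2 fun g hg => (cg57_iff.1 h g hg).symm

theorem Cg57.trans {r : ℝ} {x y z : HahnSeries ℝ F} (h : Cg57 r x y) (h' : Cg57 r y z) :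
    Cg57 r x z :=
  cg57_iff.2 fun g hg => (cg57_iff.1 h g hg).trans (cg57_iff.1 h' g hg)

theorem Cg57.mono {r s : ℝ} {x y : HahnSeries ℝ F} (h : Cg57 r x y) (hs : s ≤ r) : Cg57 s x y :=
  cg57_iff.2 fun g hg => cg57_iff.1 h g (hg.trans_le hs)

theorem Cg57.add {r : ℝ} {x y x' y' : HahnSeries ℝ F} (h : Cg57 r x y) (h' : Cg57 r x' y') :
    Cg57 r (x + x') (y + y') :=
  cg57_iff.2 fun g hg => by rw [coeff_add, coeff_add, cg57_iff.1 h g hg, cg57_iff.1 h' g hg]

theorem Cg57.neg {r : ℝ} {x y : HahnSeries ℝ F} (h : Cg57 r x y) : Cg57 r (-x) (-y) :=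
  cg57_iff.2 fun g hg => by rw [coeff_neg, coeff_neg, cg57_iff.1 h g hg]

theorem Cg57.sub {r : ℝ} {x y x' y' : HahnSeries ℝ F} (h : Cg57 r x y) (h' : Cg57 r x' y') :
    Cg57 r (x - x') (y - y') := by
  rw [sub_eq_add_neg, sub_eq_add_neg]
  exact h.add h'.neg

/-- no exponents below `r` -/
def Big57 (r : ℝ) (x : HahnSeries ℝ F) : Prop := (r : WithTop ℝ) ≤ x.orderTop

theorem cg57_iff_big {r : ℝ} {x y : HahnSeries ℝ F} : Cg57 r x y ↔ Big57 r (x - y) := Iff.rfl

theorem big57_iff_cg {r : ℝ} {x : HahnSeries ℝ F} : Big57 r x ↔ Cg57 r x 0 := by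
  rw [cg57_iff_big, sub_zero]

theorem Big57.mono {r s : ℝ} {x : HahnSeries ℝ F} (h : Big57 r x) (hs : s ≤ r) : Big57 s x :=
  le_trans (by exact_mod_cast hs) h

theorem Big57.add {r : ℝ} {x y : HahnSeries ℝ F} (h : Big57 r x) (h' : Big57 r y) :
    Big57 r (x + y) := by
  rw [big57_iff_cg] at h h' ⊢
  simpa using h.add h'

theorem Big57.neg {r : ℝ} {x : HahnSeries ℝ F} (h : Big57 r x) : Big57 r (-x) := by
  rw [big57_iff_cg] at h ⊢
  simpa using h.neg

theorem Big57.sub {r : ℝ} {x y : HahnSeries ℝ F} (h : Big57 r x) (h' : Big57 r y) :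
    Big57 r (x - y) := by
  rw [sub_eq_add_neg]
  exact h.add h'.neg

theorem Big57.mul {r s : ℝ} {x y : HahnSeries ℝ F} (h : Big57 r x) (h' : Big57 s y) :
    Big57 (r + s) (x * y) := by
  unfold Big57 at *
  rw [orderTop_mul, WithTop.coe_add]
  exact add_le_add h h'

theorem Cg57.mul {r : ℝ} {x y x' y' : HahnSeries ℝ F} (h : Cg57 r x y) (h' : Cg57 r x' y')
    (hx' : Big57 0 x') (hy : Big57 0 y) : Cg57 r (x * x') (y * y') := by
  rw [cg57_iff_big] at *
  have h1 := h.mul hx'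
  have h2 := hy.mul h'
  rw [add_zero] at h1
  rw [zero_add] at h2
  have e : x * x' - y * y' = (x - y) * x' + y * (x' - y') := by ring
  rw [e]
  exact h1.add h2

theorem Cg57.mul_left {r s : ℝ} {x y : HahnSeries ℝ F} (h : Cg57 r x y) {e : HahnSeries ℝ F}
    (he : Big57 s e) : Cg57 (r + s) (e * x) (e * y) := by
  rw [cg57_iff_big] at *
  have h1 := he.mul h
  have e1 : e * x - e * y = e * (x - y) := by ring
  rw [e1, add_comm r s]
  exact h1

/-- a unit: order exactly `0` -/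
def Un57 (x : HahnSeries ℝ F) : Prop := x.orderTop = 0

theorem Un57.ne_zero {x : HahnSeries ℝ F} (h : Un57 x) : x ≠ 0 := by
  rintro rfl
  simp [Un57] at h

theorem Un57.big {x : HahnSeries ℝ F} (h : Un57 x) : Big57 0 x := by
  unfold Big57
  rw [h]
  simp

theorem Un57.mul {x y : HahnSeries ℝ F} (h : Un57 x) (h' : Un57 y) : Un57 (x * y) := by
  unfold Un57 at *
  rw [orderTop_mul, h, h', add_zero]

theorem Un57.inv {x : HahnSeries ℝ F} (h : Un57 x) : Un57 x⁻¹ := by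
  have h1 : (x * x⁻¹).orderTop = 0 := by
    rw [mul_inv_cancel₀ h.ne_zero, orderTop_one]
  rw [orderTop_mul, h, zero_add] at h1
  exact h1

theorem Un57.neg {x : HahnSeries ℝ F} (h : Un57 x) : Un57 (-x) := by
  unfold Un57 at *
  rw [orderTop_neg, h]

theorem Un57.congr {x y : HahnSeries ℝ F} (h : Un57 x) {r : ℝ} (hr : 0 < r) (h' : Cg57 r y x) :
    Un57 y := by
  unfold Un57 Cg57 at *
  have e : y = x + (y - x) := by ring
  rw [e, orderTop_add_eq_left, h]
  rw [h]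
  exact lt_of_lt_of_le (by exact_mod_cast hr) h'

theorem un57_C {a : F} (ha : a ≠ 0) : Un57 (C a : HahnSeries ℝ F) := by
  unfold Un57
  rw [C_apply, orderTop_single ha]
  rfl

theorem big57_C (a : F) : Big57 0 (C a : HahnSeries ℝ F) := by
  rcases eq_or_ne a 0 with rfl | ha
  · simp [Big57]
  · exact (un57_C ha).big

theorem Cg57.inv {r : ℝ} {x y : HahnSeries ℝ F} (h : Cg57 r x y) (hx : Un57 x) (hy : Un57 y) :
    Cg57 r x⁻¹ y⁻¹ := by
  rw [cg57_iff_big] at *
  have e : x⁻¹ - y⁻¹ = -((x - y) * (x⁻¹ * y⁻¹)) := by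
    have h1 := hx.ne_zero
    have h2 := hy.ne_zero
    field_simp
    ring
  rw [e]
  have h1 := h.mul (hx.inv.mul hy.inv).big
  rw [add_zero] at h1
  exact h1.neg

theorem eq_of_cg57 {x y : HahnSeries ℝ F} (h : ∀ r, Cg57 r x y) : x = y := by
  ext g
  exact cg57_iff.1 (h (g + 1)) g (by linarith)

/-- **Completeness.** -/
theorem lim57 (x : ℕ → HahnSeries ℝ F) {c : ℝ} (hc : 0 < c)
    (h : ∀ n : ℕ, Cg57 (((n : ℝ) + 1) * c) (x (n + 1)) (x n)) :
    ∃ y, ∀ n : ℕ, Cg57 (((n : ℝ) + 1) * c) y (x n) := by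
  have hst : ∀ n m : ℕ, n ≤ m → Cg57 (((n : ℝ) + 1) * c) (x m) (x n) := by
    intro n m hnm
    induction m, hnm using Nat.le_induction with
    | base => exact Cg57.refl _ _
    | succ m hm ih =>
      refine ((h m).mono ?_).trans ih
      have : (n : ℝ) ≤ m := by exact_mod_cast hm
      nlinarith
  let N : ℝ → ℕ := fun g => ⌈g / c⌉₊
  have hN : ∀ g, g < ((N g : ℝ) + 1) * c := by
    intro g
    have h1 : g / c ≤ N g := Nat.le_ceil _
    rw [div_le_iff₀ hc] at h1
    linarith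
  have hcoe : ∀ (g : ℝ) (n : ℕ), g < ((n : ℝ) + 1) * c → (x n).coeff g = (x (N g)).coeff g := by
    intro g n hg
    rcases le_total n (N g) with h1 | h1
    · exact (cg57_iff.1 (hst n (N g) h1) g hg).symm
    · exact cg57_iff.1 (hst (N g) n h1) g (hN g)
  have hwf : (Function.support fun g => (x (N g)).coeff g).IsWF := by
    rw [Set.isWF_iff_no_descending_seq]
    intro f hf hmem
    obtain ⟨n, hn⟩ : ∃ n : ℕ, f 0 < ((n : ℝ) + 1) * c := ⟨N (f 0), hN _⟩
    have h2 := (x n).isWF_support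
    rw [Set.isWF_iff_no_descending_seq] at h2
    refine h2 f hf fun k => ?_
    have hk : f k ≤ f 0 := hf.antitone (Nat.zero_le k)
    have h3 := hmem k
    rw [Function.mem_support] at h3
    rw [mem_support, hcoe (f k) n (hk.trans_lt hn)]
    exact h3
  refine ⟨⟨fun g => (x (N g)).coeff g, hwf.isPWO⟩, fun n => cg57_iff.2 fun g hg => ?_⟩
  exact (hcoe g n hg).symm

/-- **Fixed points.** -/
theorem fix57 {ι : Type*} (Φ : (ι → HahnSeries ℝ F) → ι → HahnSeries ℝ F)
    (X₀ : ι → HahnSeries ℝ F) {c : ℝ} (hc : 0 < c)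
    (h0 : ∀ X, (∀ i, Cg57 c (X i) (X₀ i)) → ∀ i, Cg57 c (Φ X i) (X₀ i))
    (h1 : ∀ X Y, (∀ i, Cg57 c (X i) (X₀ i)) → (∀ i, Cg57 c (Y i) (X₀ i)) → ∀ r, c ≤ r →
      (∀ i, Cg57 r (X i) (Y i)) → ∀ i, Cg57 (r + c) (Φ X i) (Φ Y i)) :
    ∃ X, (∀ i, Cg57 c (X i) (X₀ i)) ∧ Φ X = X := by
  let s : ℕ → ι → HahnSeries ℝ F := fun n => Φ^[n] X₀
  have hs : ∀ n, s (n + 1) = Φ (s n) := fun n => Function.iterate_succ_apply' Φ n X₀
  have hball : ∀ n i, Cg57 c (s n i) (X₀ i) := by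
    intro n
    induction n with
    | zero => exact fun i => Cg57.refl _ _
    | succ n ih =>
      rw [hs]
      exact h0 _ ih
  have hstep : ∀ (n : ℕ) i, Cg57 (((n : ℝ) + 1) * c) (s (n + 1) i) (s n i) := by
    intro n
    induction n with
    | zero =>
      intro i
      rw [hs]
      have h2 := h0 _ (hball 0) i
      have e : (((0 : ℕ) : ℝ) + 1) * c = c := by simp
      rw [e]
      exact h2
    | succ n ih =>
      intro i
      rw [hs (n + 1), hs n]
      have hr : c ≤ ((n : ℝ) + 1) * c := by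
        have : (0 : ℝ) ≤ n := Nat.cast_nonneg n
        nlinarith
      have h2 := h1 (s (n + 1)) (s n) (hball _) (hball _) _ hr ih i
      rw [hs n] at h2
      refine h2.mono ?_
      push_cast
      linarith
  have hlim := fun i => lim57 (fun n => s n i) hc fun n => hstep n i
  choose X hX using hlim
  have hXb : ∀ i, Cg57 c (X i) (X₀ i) := fun i => by
    have h2 := hX i 0
    have e : (((0 : ℕ) : ℝ) + 1) * c = c := by simp
    rw [e] at h2
    exact h2
  refine ⟨X, hXb, ?_⟩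
  funext i
  refine eq_of_cg57 fun r => ?_
  obtain ⟨n, hn⟩ : ∃ n : ℕ, r ≤ ((n : ℝ) + 1) * c := by
    obtain ⟨n, hn⟩ := exists_nat_ge (r / c)
    refine ⟨n, ?_⟩
    rw [div_le_iff₀ hc] at hn
    linarith
  have hr : c ≤ ((n : ℝ) + 1) * c := by
    have : (0 : ℝ) ≤ n := Nat.cast_nonneg n
    nlinarith
  have h2 := h1 X (s n) hXb (hball n) _ hr (fun i => hX i n) i
  rw [← hs n] at h2
  have h3 := hX i (n + 1)
  refine ((h2.mono (by linarith)).trans (h3.mono ?_).symm)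
  push_cast
  linarith

end Pool.Agent.Lib.MP_e3aa0a_gt.FVL
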