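import Pool.Agent.Lib.MP_e3aa0a_gt.FVL.Word2

/-!
Representations of free groups in `SL_2` all of whose nontrivial elements are regular, with
a prescribed trace identity `tr b = tr (P⁻¹ b)`.
-/

set_option autoImplicit false

open Matrix Polynomial

namespace Pool.Agent.Lib.MP_e3aa0a_gt.FVL.FP2

open W2

theorem closure_opt (α : Type*) :
    Subgroup.closure (Set.range (FreeGroup.map (some : α → Option α)) ∪
      {FreeGroup.of none}) = ⊤ := by
  rw [eq_top_iff, ← FreeGroup.closure_range_of, Subgroup.closure_le]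
  rintro _ ⟨o, rfl⟩
  cases o with
  | none => exact Subgroup.subset_closure (Or.inr rfl)
  | some a => exact Subgroup.subset_closure (Or.inl ⟨FreeGroup.of a, by simp⟩)

theorem adj2_smul {R : Type*} [CommRing R] (c : R) (M : Matrix (Fin 2) (Fin 2) R) :
    adjugate (c • M) = c • adjugate M := by
  ext i j
  fin_cases i <;> fin_cases j <;> simp [adjugate_fin_two]

theorem mt_map {R S : Type*} [CommRing R] [CommRing S] (f : R →+* S)
    (A : SpecialLinearGroup (Fin 2) R) : mt (SpecialLinearGroup.map f A) = (mt A).map f := rfl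

section step

variable {α K L : Type*} [Field K] [Field L] (c : K →+* L)
  (ρ : FreeGroup α →* SpecialLinearGroup (Fin 2) K) (hρ : Reg ρ)
  (A0 : Matrix (Fin 2) (Fin 2) L[X]) (hdet : A0.det = X ^ 2)

/-- The image of the new generator. -/
noncomputable def newgen : SpecialLinearGroup (Fin 2) (RatFunc L) :=
  ⟨(RatFunc.X : RatFunc L)⁻¹ • A0.map (algebraMap L[X] (RatFunc L)), by
    rw [det_smul, Fintype.card_fin]
    have h1 : (A0.map (algebraMap L[X] (RatFunc L))).det = RatFunc.X ^ 2 := by
      have := congrArg (algebraMap L[X] (RatFunc L)) hdet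
      rw [RingHom.map_det, map_pow, RatFunc.algebraMap_X] at this
      exact this
    rw [h1, ← mul_pow, inv_mul_cancel₀ RatFunc.X_ne_zero, one_pow]⟩

/-- The extended representation. -/
noncomputable def ext2 : FreeGroup (Option α) →* SpecialLinearGroup (Fin 2) (RatFunc L) :=
  FreeGroup.lift (fun o => o.elim (newgen A0 hdet)
    (fun a => SpecialLinearGroup.map ((algebraMap L (RatFunc L)).comp c) (ρ (FreeGroup.of a))))

theorem ext2_map (f : FreeGroup α) : ext2 c ρ A0 hdet (FreeGroup.map some f) =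
    SpecialLinearGroup.map ((algebraMap L (RatFunc L)).comp c) (ρ f) := by
  have : (ext2 c ρ A0 hdet).comp (FreeGroup.map some) =
      (SpecialLinearGroup.map ((algebraMap L (RatFunc L)).comp c)).comp ρ := by
    ext1 a
    simp [ext2]
  exact DFunLike.congr_fun this f

theorem ext2_none : ext2 c ρ A0 hdet (FreeGroup.of none) = newgen A0 hdet := by
  simp [ext2]

/-- The leading data of the extended representation. -/
noncomputable def lead (col row : Bool → Fin 2 → L)
    (h1 : A0.map (evalRingHom 0) = vecMulVec (col true) (row true))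
    (h2 : (adjugate A0).map (evalRingHom 0) = vecMulVec (col false) (row false))
    (hs : ∀ (e e' : Bool) (f : FreeGroup α), (e' = e ∨ f ≠ 1) →
      (row e ᵥ* (mt (ρ f)).map c) ⬝ᵥ col e' ≠ 0) :
    Lead (FreeGroup.map (some : α → Option α)) (FreeGroup.of none) L[X] L (RatFunc L) where
  pr := evalRingHom 0
  io := algebraMap L[X] (RatFunc L)
  s := X
  hs := by simp
  hio := RatFunc.algebraMap_injective L
  r f := (mt (ρ f)).map (C.comp c)
  R := ext2 c ρ A0 hdet
  hr f := by
    rw [ext2_map, mt_map]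
    ext i j
    simp only [map_apply, RingHom.comp_apply]
    rw [RatFunc.algebraMap_C, RatFunc.algebraMap_eq_C]
  A e := if e then A0 else adjugate A0
  hA e := by
    have hb : (RatFunc.X : RatFunc L) • mt (newgen A0 hdet) =
        A0.map (algebraMap L[X] (RatFunc L)) := by
      change (RatFunc.X : RatFunc L) • ((RatFunc.X : RatFunc L)⁻¹ •
        A0.map (algebraMap L[X] (RatFunc L))) = _
      rw [smul_smul, mul_inv_cancel₀ RatFunc.X_ne_zero, one_smul]
    rw [RatFunc.algebraMap_X]
    cases e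
    · simp only [Bool.false_eq_true, if_false, sg]
      rw [map_inv, ext2_none, mt_inv, ← adj2_smul, hb]
      exact (RingHom.map_adjugate _ _)
    · simp only [if_true, sg]
      rw [ext2_none, hb]
  col := col
  row := row
  hAp e := by
    cases e
    · simpa using h2
    · simpa using h1
  hne x y h := by
    have h3 : ((mt (ρ x.2)).map (C.comp c)).map (evalRingHom 0) = (mt (ρ x.2)).map c := by
      ext i j
      simp
    rw [h3]
    apply hs
    by_contra h4
    push Not at h4
    apply h
    refine ⟨?_, 1, ?_⟩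
    · cases hx : x.1 <;> cases hy : y.1 <;> simp_all
    · rw [h4.2]
      simp

include hρ in
theorem reg_ext2 (col row : Bool → Fin 2 → L)
    (h1 : A0.map (evalRingHom 0) = vecMulVec (col true) (row true))
    (h2 : (adjugate A0).map (evalRingHom 0) = vecMulVec (col false) (row false))
    (hs : ∀ (e e' : Bool) (f : FreeGroup α), (e' = e ∨ f ≠ 1) →
      (row e ᵥ* (mt (ρ f)).map c) ⬝ᵥ col e' ≠ 0) : Reg (ext2 c ρ A0 hdet) := by
  refine (lead c ρ A0 hdet col row h1 h2 hs).reg (closure_opt α) fun f hf => ?_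
  have hf1 : f ≠ 1 := by
    rintro rfl
    exact hf (map_one _)
  have h3 := hρ f hf1
  change trace (mt (ext2 c ρ A0 hdet (FreeGroup.map some f))) ^ 2 ≠ 4
  rw [ext2_map, mt_map]
  intro h4
  apply h3
  have h5 : (((algebraMap L (RatFunc L)).comp c) (trace (mt (ρ f)))) ^ 2 =
      ((algebraMap L (RatFunc L)).comp c) 4 := by
    rw [map_ofNat]
    convert h4 using 2
    simp [trace_fin_two]
  rw [← map_pow] at h5
  exact ((algebraMap L (RatFunc L)).comp c).injective h5

end step

section nonzero

variable {K : Type*} [Field K]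

theorem det_rel {M : Matrix (Fin 2) (Fin 2) K} (h : M.det = 1) :
    M 0 0 * M 1 1 - M 0 1 * M 1 0 = 1 := by
  rw [← det_fin_two]; exact h

/-- A matrix that is not scalar. -/
def NS (M : Matrix (Fin 2) (Fin 2) K) : Prop := ¬ (M 0 1 = 0 ∧ M 1 0 = 0 ∧ M 0 0 = M 1 1)

theorem ns_of_tr {M : Matrix (Fin 2) (Fin 2) K} (h : M.det = 1) (ht : trace M ^ 2 ≠ 4) :
    NS M := by
  rintro ⟨h1, h2, h3⟩
  apply ht
  have := det_rel h
  rw [h1, h3] at this
  rw [trace_fin_two, h3]
  linear_combination 4 * this

theorem poly_ne (p : K[X]) (hp : p ≠ 0) : algebraMap K[X] (RatFunc K) p ≠ 0 := by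
  rw [Ne, ← map_zero (algebraMap K[X] (RatFunc K))]
  exact fun h => hp (RatFunc.algebraMap_injective K h)

theorem lin_ne (M : Matrix (Fin 2) (Fin 2) K) (h : M.det = 1) :
    algebraMap K (RatFunc K) (M 0 0) + algebraMap K (RatFunc K) (M 0 1) * RatFunc.X ^ 2 +
      algebraMap K (RatFunc K) (M 1 0) * RatFunc.X +
      algebraMap K (RatFunc K) (M 1 1) * RatFunc.X ^ 3 ≠ 0 := by
  have h1 : (C (M 0 0) + C (M 0 1) * X ^ 2 + C (M 1 0) * X + C (M 1 1) * X ^ 3 : K[X]) ≠ 0 := by
    intro h0
    have e0 := congrArg (fun p => coeff p 0) h0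
    have e1 := congrArg (fun p => coeff p 1) h0
    have e2 := congrArg (fun p => coeff p 2) h0
    have e3 := congrArg (fun p => coeff p 3) h0
    simp [coeff_C, coeff_X] at e0 e1 e2 e3
    have := det_rel h
    simp_all
  have := poly_ne _ h1
  simpa [RatFunc.algebraMap_C, RatFunc.algebraMap_X, RatFunc.algebraMap_eq_C] using this

theorem quad_ne (a b c : K) (h : ¬ (a = 0 ∧ b = 0 ∧ c = 0)) (n : ℕ) (hn : 0 < n) :
    algebraMap K (RatFunc K) a + algebraMap K (RatFunc K) b * RatFunc.X ^ n +
      algebraMap K (RatFunc K) c * RatFunc.X ^ (2 * n) ≠ 0 := by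
  have h1 : (C a + C b * X ^ n + C c * X ^ (2 * n) : K[X]) ≠ 0 := by
    intro h0
    apply h
    have e0 := congrArg (fun p => coeff p 0) h0
    have e1 := congrArg (fun p => coeff p n) h0
    have e2 := congrArg (fun p => coeff p (2 * n)) h0
    simp only [coeff_add, coeff_C_mul, coeff_X_pow, coeff_C, coeff_zero] at e0 e1 e2
    have h2 : n ≠ 0 := by omega
    have h3 : 2 * n ≠ 0 := by omega
    have h4 : n ≠ 2 * n := by omega
    have h5 : 2 * n ≠ n := by omega
    simp [h2, h3, h4, h5, h2.symm, h3.symm] at e0 e1 e2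
    exact ⟨e0, e1, e2⟩
  have := poly_ne _ h1
  simpa [RatFunc.algebraMap_C, RatFunc.algebraMap_X, RatFunc.algebraMap_eq_C] using this

end nonzero

theorem generic_step {α K : Type*} [Field K] (ρ : FreeGroup α →* SpecialLinearGroup (Fin 2) K)
    (hρ : Reg ρ) : ∃ R : FreeGroup (Option α) →* SpecialLinearGroup (Fin 2) (RatFunc (RatFunc K)),
      Reg R := by
  set t : RatFunc K := RatFunc.X with ht
  let A0 : Matrix (Fin 2) (Fin 2) (RatFunc K)[X] := !![1, C t; C (t ^ 2), C (t ^ 3) + X ^ 2]
  have hdet : A0.det = X ^ 2 := by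
    simp only [A0, det_fin_two_of, map_pow]
    ring
  refine ⟨ext2 (algebraMap K (RatFunc K)) ρ A0 hdet,
    reg_ext2 (algebraMap K (RatFunc K)) ρ hρ A0 hdet
      (fun e => if e then ![1, t ^ 2] else ![-t, 1])
      (fun e => if e then ![1, t] else ![-t ^ 2, 1]) ?_ ?_ ?_⟩
  · ext i j
    fin_cases i <;> fin_cases j <;> simp [A0, vecMulVec] <;> ring
  · ext i j
    fin_cases i <;> fin_cases j <;> simp [A0, vecMulVec, adjugate_fin_two] <;> ring
  · intro e e' f hf
    have hdf : (mt (ρ f)).det = 1 := det_mt _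
    set M := mt (ρ f) with hM
    have hns : f ≠ 1 → NS M := fun h => ns_of_tr hdf (hρ f h)
    have key : ∀ x y : RatFunc K, x = y ∨ x = -y → y ≠ 0 → x ≠ 0 := by
      rintro x y (h | h) hy
      · rw [h]; exact hy
      · rw [h]; exact neg_ne_zero.2 hy
    cases e <;> cases e'
    · have h1 := lin_ne (!![M 1 1, -M 0 1; -M 1 0, M 0 0]) (by
        rw [det_fin_two_of]; linear_combination det_rel hdf)
      refine key _ _ (Or.inl ?_) h1
      simp [vecMul, dotProduct, Fin.sum_univ_two]
      ring
    · have h1 := hns (by rcases hf with h | h; exact absurd h (by simp); exact h)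
      have h2 := quad_ne (M 1 0) (M 1 1 - M 0 0) (-M 0 1) (by
        rintro ⟨h3, h4, h5⟩
        exact h1 ⟨by simpa using h5, h3, by linear_combination -h4⟩) 2 (by norm_num)
      refine key _ _ (Or.inl ?_) h2
      simp [vecMul, dotProduct, Fin.sum_univ_two]
      ring
    · have h1 := hns (by rcases hf with h | h; exact absurd h (by simp); exact h)
      have h2 := quad_ne (M 0 1) (M 1 1 - M 0 0) (-M 1 0) (by
        rintro ⟨h3, h4, h5⟩
        exact h1 ⟨h3, by simpa using h5, by linear_combination -h4⟩) 1 (by norm_num)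
      refine key _ _ (Or.inl ?_) h2
      simp [vecMul, dotProduct, Fin.sum_univ_two]
      ring
    · refine key _ _ (Or.inl ?_) (lin_ne M hdf)
      simp [vecMul, dotProduct, Fin.sum_univ_two]
      ring

section pstep

variable {α K : Type*} [Field K] [CharZero K]
  (ρ : FreeGroup α →* SpecialLinearGroup (Fin 2) K) (hρ : Reg ρ) (P : FreeGroup α) (hP : P ≠ 1)

include hρ in
theorem not_mul (κ : K) (f : FreeGroup α) (h : mt (ρ f) = κ • (mt (ρ P⁻¹) - 1)) : False := by
  set Q := mt (ρ P⁻¹) with hQ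
  have hQd : Q.det = 1 := det_mt _
  have hfd : (mt (ρ f)).det = 1 := det_mt _
  have h1 := det_rel hQd
  have h2 := det_rel hfd
  rw [h] at h2
  simp only [Matrix.smul_apply, Matrix.sub_apply, Matrix.one_apply_eq, smul_eq_mul,
    Matrix.one_apply_ne (show (0 : Fin 2) ≠ 1 by decide),
    Matrix.one_apply_ne (show (1 : Fin 2) ≠ 0 by decide)] at h2
  have h3 : mt (ρ f) * mt (ρ f) = - Q := by
    rw [h]
    ext i j
    fin_cases i <;> fin_cases j <;>
      simp [Matrix.mul_apply, Fin.sum_univ_two]
    · linear_combination (-Q 0 0) * h2 + κ ^ 2 * (Q 0 0 - 1) * h1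
    · linear_combination (-Q 0 1) * h2 + κ ^ 2 * (Q 0 1) * h1
    · linear_combination (-Q 1 0) * h2 + κ ^ 2 * (Q 1 0) * h1
    · linear_combination (-Q 1 1) * h2 + κ ^ 2 * (Q 1 1 - 1) * h1
  have h4 : mt (ρ (f * f * P)) = -1 := by
    rw [map_mul, map_mul, map_mul, map_mul, h3, neg_mul, hQ, ← map_mul mt, ← map_mul ρ,
      inv_mul_cancel, map_one, map_one]
  have h5 : f * f * P = 1 := by
    by_contra h6
    apply hρ _ h6
    rw [h4]
    simp [trace_fin_two]
    norm_num
  rw [h5, map_one, map_one] at h4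
  have h6 := congrFun (congrFun h4 0) 0
  simp at h6
  have : (2 : K) = 0 := by linear_combination h6
  exact two_ne_zero this

theorem eq_smul_of_not_ns {K : Type*} [Field K] {W : Matrix (Fin 2) (Fin 2) K} (h : ¬ NS W) :
    W = W 0 0 • (1 : Matrix (Fin 2) (Fin 2) K) := by
  rw [NS, not_not] at h
  obtain ⟨h1, h2, h3⟩ := h
  ext i j
  fin_cases i <;> fin_cases j <;> simp [h1, h2, h3]

theorem not_ns_smul {K : Type*} [Field K] (c : K) :
    ¬ NS (c • (1 : Matrix (Fin 2) (Fin 2) K)) := by
  rw [NS, not_not]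
  simp

theorem om_ne {K : Type*} [Field K] (W : Matrix (Fin 2) (Fin 2) K) (h : NS W) :
    algebraMap K (RatFunc K) (W 0 0) - algebraMap K (RatFunc K) (W 0 1) * RatFunc.X⁻¹ +
      RatFunc.X * algebraMap K (RatFunc K) (W 1 0) - algebraMap K (RatFunc K) (W 1 1) ≠ 0 := by
  have h1 := quad_ne (-W 0 1) (W 0 0 - W 1 1) (W 1 0) (by
    rintro ⟨h3, h4, h5⟩
    exact h ⟨by simpa using h3, h5, by linear_combination h4⟩) 1 (by norm_num)
  intro h2
  apply h1
  have h3 : (RatFunc.X : RatFunc K) * RatFunc.X⁻¹ = 1 := mul_inv_cancel₀ RatFunc.X_ne_zero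
  simp only [map_neg, map_sub, pow_one, mul_one]
  linear_combination RatFunc.X * h2 + algebraMap K (RatFunc K) (W 0 1) * h3

theorem adj_adj {R : Type*} [CommRing R] (M : Matrix (Fin 2) (Fin 2) R) :
    adjugate (adjugate M) = M := by
  ext i j
  fin_cases i <;> fin_cases j <;> simp [adjugate_fin_two]

include hρ hP in
theorem det_n_ne : (mt (ρ P⁻¹) - 1).det ≠ 0 := by
  intro h
  apply hρ P⁻¹ (by simpa using hP)
  have h1 : (mt (ρ P⁻¹)).det = 1 := det_mt _
  generalize mt (ρ P⁻¹) = Q at h h1 ⊢
  rw [det_fin_two] at h h1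
  simp at h
  rw [trace_fin_two]
  have : Q 0 0 + Q 1 1 = 2 := by linear_combination h1 - h
  rw [this]
  norm_num

include hρ hP in
theorem p_step : ∃ R : FreeGroup (Option α) →* SpecialLinearGroup (Fin 2) (RatFunc (RatFunc K)),
    Reg R ∧ trace (mt (R (FreeGroup.of none))) =
      trace (mt (R ((FreeGroup.map some P)⁻¹ * FreeGroup.of none))) := by
  set t : RatFunc K := RatFunc.X with ht
  have ht0 : t ≠ 0 := RatFunc.X_ne_zero
  set n : Matrix (Fin 2) (Fin 2) K := mt (ρ P⁻¹) - 1 with hn
  have hd : n.det ≠ 0 := det_n_ne ρ hρ P hP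
  set c := algebraMap K (RatFunc K) with hc
  obtain ⟨δ, hδ⟩ : ∃ δ, δ = c n.det := ⟨_, rfl⟩
  obtain ⟨p, hp⟩ : ∃ p, p = c (n 0 0) := ⟨_, rfl⟩
  obtain ⟨q, hq⟩ : ∃ q, q = c (n 0 1) := ⟨_, rfl⟩
  obtain ⟨r, hr⟩ : ∃ r, r = c (n 1 0) := ⟨_, rfl⟩
  obtain ⟨s, hs⟩ : ∃ s, s = c (n 1 1) := ⟨_, rfl⟩
  have hδ0 : δ ≠ 0 := by rw [hδ, Ne, map_eq_zero]; exact hd
  have hdn : δ = p * s - q * r := by
    rw [hδ, hp, hq, hr, hs, det_fin_two, map_sub, map_mul, map_mul]
  have hCt : (C t : (RatFunc K)[X]) * C t⁻¹ = 1 := by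
    rw [← C_mul, mul_inv_cancel₀ ht0, C_1]
  have hCd : (C δ : (RatFunc K)[X]) * C δ⁻¹ = 1 := by
    rw [← C_mul, mul_inv_cancel₀ hδ0, C_1]
  have hD : (C p : (RatFunc K)[X]) * C s - C q * C r = C δ := by
    rw [hdn, C_sub, C_mul, C_mul]
  obtain ⟨z, hz⟩ : ∃ z : (RatFunc K)[X], z = -(C t⁻¹) * (1 + C δ * X ^ 2) := ⟨_, rfl⟩
  have hz1 : z * C t = -(1 + C δ * X ^ 2) := by
    rw [hz]; linear_combination (-(1 + C δ * X ^ 2)) * hCt
  have hz0 : eval 0 z = -t⁻¹ := by rw [hz]; simp
  let A0 : Matrix (Fin 2) (Fin 2) (RatFunc K)[X] :=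
    !![C δ⁻¹ * (C s - C q * z), C δ⁻¹ * (C s * C t + C q);
      C δ⁻¹ * (-C r + C p * z), C δ⁻¹ * (-C r * C t - C p)]
  have hdet : A0.det = X ^ 2 := by
    simp only [A0, det_fin_two_of]
    linear_combination (-(C δ⁻¹) ^ 2 * (C p * C s - C q * C r)) * hz1 +
      X ^ 2 * (C δ⁻¹ * C δ + 1) * hCd + (C δ⁻¹) ^ 2 * C δ * X ^ 2 * hD
  let col : Bool → Fin 2 → RatFunc K := fun e =>
    if e then ![δ⁻¹ * (s + q * t⁻¹), δ⁻¹ * (-r - p * t⁻¹)] else ![-1, t⁻¹]
  let row : Bool → Fin 2 → RatFunc K := fun e =>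
    if e then ![1, t] else ![δ⁻¹ * (p + t * r), δ⁻¹ * (q + t * s)]
  have hreg : Reg (ext2 c ρ A0 hdet) := by
    refine reg_ext2 c ρ hρ A0 hdet col row ?_ ?_ ?_
    · ext i j
      fin_cases i <;> fin_cases j <;>
        simp [A0, col, row, vecMulVec, hz0, -mul_eq_mul_left_iff, -mul_eq_mul_right_iff] <;>
        field_simp <;> ring
    · ext i j
      fin_cases i <;> fin_cases j <;>
        simp [A0, col, row, vecMulVec, hz0, adjugate_fin_two, -mul_eq_mul_left_iff,
          -mul_eq_mul_right_iff] <;> field_simp <;> ring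
    · intro e e' f hf
      have hdf : (mt (ρ f)).det = 1 := det_mt _
      set M := mt (ρ f) with hM
      have hns : f ≠ 1 → NS M := fun h => ns_of_tr hdf (hρ f h)
      have hdM := det_rel hdf
      have hmul : ∀ W W' : Matrix (Fin 2) (Fin 2) K, ∀ i j,
          c ((W * W') i j) = c (W i 0) * c (W' 0 j) + c (W i 1) * c (W' 1 j) := by
        intro W W' i j
        rw [Matrix.mul_apply, Fin.sum_univ_two, map_add, map_mul, map_mul]
      have ha00 : c (adjugate n 0 0) = s := by rw [adjugate_fin_two, hs]; rfl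
      have ha01 : c (adjugate n 0 1) = -q := by rw [adjugate_fin_two, hq, ← map_neg]; rfl
      have ha10 : c (adjugate n 1 0) = -r := by rw [adjugate_fin_two, hr, ← map_neg]; rfl
      have ha11 : c (adjugate n 1 1) = p := by rw [adjugate_fin_two, hp]; rfl
      have hid : δ⁻¹ ≠ 0 := inv_ne_zero hδ0
      cases e <;> cases e'
      · -- `n * M`
        have h1 : NS (n * M) := by
          by_contra h2
          have h3 := eq_smul_of_not_ns h2
          set lam := (n * M) 0 0
          have h4 : M = (n.det⁻¹ * lam) • adjugate n := by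
            have h5 := congrArg (fun W => n.det⁻¹ • (adjugate n * W)) h3
            rw [← Matrix.mul_assoc, adjugate_mul, smul_mul_assoc, one_mul, smul_smul,
              inv_mul_cancel₀ hd, one_smul, mul_smul_comm, mul_one, smul_smul] at h5
            exact h5
          have h6 : mt (ρ f⁻¹) = (n.det⁻¹ * lam) • n := by
            rw [map_inv, mt_inv, ← hM, h4, adj2_smul, adj_adj]
          exact not_mul ρ hρ P _ _ h6
        have h7 := om_ne _ h1
        have h8 : (row false ᵥ* M.map c) ⬝ᵥ col false = (-δ⁻¹) *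
            (c ((n * M) 0 0) - c ((n * M) 0 1) * RatFunc.X⁻¹ + RatFunc.X * c ((n * M) 1 0) -
              c ((n * M) 1 1)) := by
          rw [hmul, hmul, hmul, hmul, ← ht, ← hp, ← hq, ← hr, ← hs]
          simp [row, col, vecMul, dotProduct, Fin.sum_univ_two]
          field_simp
          ring
        rw [h8]
        exact mul_ne_zero (neg_ne_zero.2 hid) h7
      · have h1 : NS (n * M * adjugate n) := by
          by_contra h2
          have h3 := eq_smul_of_not_ns h2
          set lam := (n * M * adjugate n) 0 0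
          have h4 : M = (n.det⁻¹ * lam) • (1 : Matrix (Fin 2) (Fin 2) K) := by
            have h5 := congrArg (fun W => (n.det⁻¹ * n.det⁻¹) • (adjugate n * W * n)) h3
            have h6 : adjugate n * (n * M * adjugate n) * n = (n.det * n.det) • M := by
              rw [show adjugate n * (n * M * adjugate n) * n =
                (adjugate n * n) * M * (adjugate n * n) by simp only [Matrix.mul_assoc],
                adjugate_mul, smul_mul_assoc, one_mul, mul_smul_comm, mul_one, smul_smul]
            rw [h6, smul_smul, mul_smul_comm, mul_one, smul_mul_assoc, adjugate_mul, smul_smul,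
              smul_smul] at h5
            rw [show n.det⁻¹ * n.det⁻¹ * (n.det * n.det) = 1 by field_simp, one_smul,
              show n.det⁻¹ * n.det⁻¹ * lam * n.det = n.det⁻¹ * lam by field_simp] at h5
            exact h5
          have h9 := hns (by rcases hf with h | h; exact absurd h (by simp); exact h)
          rw [h4] at h9
          exact not_ns_smul _ h9
        have h7 := om_ne _ h1
        have h8 : (row false ᵥ* M.map c) ⬝ᵥ col true = (δ⁻¹ * δ⁻¹) *
            (c ((n * M * adjugate n) 0 0) - c ((n * M * adjugate n) 0 1) * RatFunc.X⁻¹ +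
              RatFunc.X * c ((n * M * adjugate n) 1 0) - c ((n * M * adjugate n) 1 1)) := by
          rw [hmul (n * M), hmul (n * M), hmul (n * M), hmul (n * M), hmul n, hmul n, hmul n,
            hmul n, ha00, ha01, ha10, ha11, ← ht, ← hp, ← hq, ← hr, ← hs]
          simp [row, col, vecMul, dotProduct, Fin.sum_univ_two]
          field_simp
          ring
        rw [h8]
        exact mul_ne_zero (mul_ne_zero hid hid) h7
      · have h1 := hns (by rcases hf with h | h; exact absurd h (by simp); exact h)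
        have h7 := om_ne _ h1
        have h8 : (row true ᵥ* M.map c) ⬝ᵥ col false = (-1) *
            (c (M 0 0) - c (M 0 1) * RatFunc.X⁻¹ + RatFunc.X * c (M 1 0) - c (M 1 1)) := by
          rw [← ht]
          simp [row, col, vecMul, dotProduct, Fin.sum_univ_two]
          field_simp
          ring
        rw [h8]
        exact mul_ne_zero (by norm_num) h7
      · have h1 : NS (M * adjugate n) := by
          by_contra h2
          have h3 := eq_smul_of_not_ns h2
          set lam := (M * adjugate n) 0 0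
          have h4 : M = (n.det⁻¹ * lam) • n := by
            have h5 := congrArg (fun W => n.det⁻¹ • (W * n)) h3
            rw [Matrix.mul_assoc, adjugate_mul, mul_smul_comm, mul_one, smul_smul,
              inv_mul_cancel₀ hd, one_smul, smul_mul_assoc, one_mul, smul_smul] at h5
            exact h5
          exact not_mul ρ hρ P _ _ h4
        have h7 := om_ne _ h1
        have h8 : (row true ᵥ* M.map c) ⬝ᵥ col true = δ⁻¹ *
            (c ((M * adjugate n) 0 0) - c ((M * adjugate n) 0 1) * RatFunc.X⁻¹ +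
              RatFunc.X * c ((M * adjugate n) 1 0) - c ((M * adjugate n) 1 1)) := by
          rw [hmul, hmul, hmul, hmul, ha00, ha01, ha10, ha11, ← ht]
          simp [row, col, vecMul, dotProduct, Fin.sum_univ_two]
          field_simp
          ring
        rw [h8]
        exact mul_ne_zero hid h7
  refine ⟨ext2 c ρ A0 hdet, hreg, ?_⟩
  have hB : mt (ext2 c ρ A0 hdet (FreeGroup.of none)) =
      (RatFunc.X : RatFunc (RatFunc K))⁻¹ • A0.map (algebraMap (RatFunc K)[X] _) := by
    rw [ext2_none]; rfl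
  rw [← map_inv, map_mul, map_mul, hB, ext2_map, mt_map]
  have hQ : mt (ρ P⁻¹) = n + 1 := by rw [hn]; simp
  rw [hQ]
  have hal : ∀ x : RatFunc K, algebraMap (RatFunc K) (RatFunc (RatFunc K)) x =
      algebraMap (RatFunc K)[X] (RatFunc (RatFunc K)) (C x) := by
    intro x
    rw [RatFunc.algebraMap_C, RatFunc.algebraMap_eq_C]
  simp only [trace_fin_two, Matrix.mul_apply, Fin.sum_univ_two, Matrix.smul_apply,
    Matrix.map_apply, Matrix.add_apply, RingHom.comp_apply, smul_eq_mul, hal,
    Matrix.one_apply_eq, Matrix.one_apply_ne (show (0 : Fin 2) ≠ 1 by decide),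
    Matrix.one_apply_ne (show (1 : Fin 2) ≠ 0 by decide), add_zero, map_add, map_one,
    map_zero, ← hp, ← hq, ← hr, ← hs]
  set a := algebraMap (RatFunc K)[X] (RatFunc (RatFunc K)) with ha
  have h1 : C p * A0 0 0 + C q * A0 1 0 + C r * A0 0 1 + C s * A0 1 1 = 0 := by
    simp [A0]
    ring
  have h2 := congrArg a h1
  rw [map_add, map_add, map_add, map_mul, map_mul, map_mul, map_mul, map_zero] at h2
  linear_combination (-(RatFunc.X : RatFunc (RatFunc K))⁻¹) * h2

end pstep

theorem reg_comp {Γ Γ' R : Type*} [Group Γ] [Group Γ'] [CommRing R]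
    (ρ : Γ →* SpecialLinearGroup (Fin 2) R) (hρ : Reg ρ) (e : Γ' →* Γ)
    (he : Function.Injective e) : Reg (ρ.comp e) := by
  intro h hh
  exact hρ (e h) (fun h1 => hh (he (h1.trans (map_one e).symm)))

theorem exists_reg (n : ℕ) : ∃ (K : Type) (_ : Field K) (_ : CharZero K)
    (ρ : FreeGroup (Fin n) →* SpecialLinearGroup (Fin 2) K), Reg ρ := by
  induction n with
  | zero =>
    refine ⟨ℚ, inferInstance, inferInstance, 1, fun h hh => ?_⟩
    exact absurd (Subsingleton.elim h 1) hh
  | succ n ih =>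
    obtain ⟨K, _, _, ρ, hρ⟩ := ih
    obtain ⟨R, hR⟩ := generic_step ρ hρ
    refine ⟨RatFunc (RatFunc K), inferInstance, ?_, R.comp
      (FreeGroup.freeGroupCongr (finSuccEquiv n)).toMonoidHom, reg_comp R hR _
      (FreeGroup.freeGroupCongr (finSuccEquiv n)).injective⟩
    exact charZero_of_injective_algebraMap
      (FaithfulSMul.algebraMap_injective K (RatFunc (RatFunc K)))

/-- There is a representation of the free group on `b` and `n` more letters, over a field of
characteristic zero, all of whose nontrivial elements have distinct eigenvalues, with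
`tr b = tr (P⁻¹ b)`. -/
theorem fp2 (n : ℕ) (P : FreeGroup (Fin n)) (hP : P ≠ 1) :
    ∃ (K : Type) (_ : Field K) (_ : CharZero K)
      (ρ : FreeGroup (Option (Fin n)) →* SpecialLinearGroup (Fin 2) K),
      Reg ρ ∧ trace (mt (ρ (FreeGroup.of none))) =
        trace (mt (ρ ((FreeGroup.map some P)⁻¹ * FreeGroup.of none))) := by
  obtain ⟨K, _, _, ρ, hρ⟩ := exists_reg n
  obtain ⟨R, hR, ht⟩ := p_step ρ hρ P hP
  refine ⟨RatFunc (RatFunc K), inferInstance, ?_, R, hR, ht⟩
  exact charZero_of_injective_algebraMap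
    (FaithfulSMul.algebraMap_injective K (RatFunc (RatFunc K)))

end Pool.Agent.Lib.MP_e3aa0a_gt.FVL.FP2
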