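import Pool.Agent.Lib.MP_e3aa0a_gt.FVL.Spn65
import Pool.Agent.Lib.MP_e3aa0a_gt.FVL.Val32

/-!
# FVL, module Hah65: polynomials as Hahn series, coordinates of the monomials
-/

set_option autoImplicit false

namespace Pool.Agent.Lib.MP_e3aa0a_gt.FVL

open Matrix

section monomials

variable {Γ : Type*} [AddCommGroup Γ] [LinearOrder Γ] [IsOrderedAddMonoid Γ]
variable {ι : Type*} {F : Type*} [Field F]

/-- the exponent of a monomial -/
noncomputable def expo (γ : ι → Γ) (m : ι →₀ ℕ) : Γ := m.sum fun i k => k • γ i

/-- polynomials as Hahn series: the variable `i` goes to the monomial with exponent `γ i` -/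
noncomputable def monj (γ : ι → Γ) : MvPolynomial ι F →+* HahnSeries Γ F :=
  MvPolynomial.eval₂Hom (HahnSeries.C (Γ := Γ)) fun i => HahnSeries.single (γ i) 1

theorem prod_single (γ : ι → Γ) (s : Finset ι) (k : ι → ℕ) :
    ∏ i ∈ s, (HahnSeries.single (γ i) (1 : F)) ^ (k i) =
      HahnSeries.single (∑ i ∈ s, k i • γ i) 1 := by
  classical
  induction s using Finset.induction_on with
  | empty => simp
  | insert a s ha ih =>
    rw [Finset.prod_insert ha, Finset.sum_insert ha, ih, HahnSeries.single_pow,
      HahnSeries.single_mul_single, one_pow, one_mul]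

theorem monj_monomial (γ : ι → Γ) (m : ι →₀ ℕ) (c : F) :
    monj γ (MvPolynomial.monomial m c) = HahnSeries.single (expo γ m) c := by
  rw [monj, MvPolynomial.coe_eval₂Hom, MvPolynomial.eval₂_monomial, Finsupp.prod, prod_single,
    HahnSeries.C_apply, HahnSeries.single_mul_single, zero_add, mul_one, expo, Finsupp.sum]

theorem monj_coeff {γ : ι → Γ} (hγ : Function.Injective (expo γ)) (p : MvPolynomial ι F)
    (m : ι →₀ ℕ) : (monj γ p).coeff (expo γ m) = p.coeff m := by
  classical
  induction p using MvPolynomial.induction_on' with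
  | monomial k c =>
    rw [monj_monomial, HahnSeries.coeff_single, MvPolynomial.coeff_monomial]
    by_cases h : k = m
    · subst h
      simp
    · rw [if_neg h, if_neg]
      intro h2
      exact h (hγ h2.symm)
  | add p q hp hq => rw [map_add, HahnSeries.coeff_add, hp, hq, MvPolynomial.coeff_add]

theorem monj_inj {γ : ι → Γ} (hγ : Function.Injective (expo γ)) :
    Function.Injective (monj (F := F) γ) := by
  rw [injective_iff_map_eq_zero]
  intro p hp
  ext m
  rw [← monj_coeff hγ p m, hp, HahnSeries.coeff_zero, MvPolynomial.coeff_zero]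

theorem monj_CX (γ : ι → Γ) (c : F) (i : ι) :
    monj γ (MvPolynomial.C c * MvPolynomial.X i) = HahnSeries.single (γ i) c := by
  rw [map_mul, monj, MvPolynomial.coe_eval₂Hom, MvPolynomial.eval₂_C, MvPolynomial.eval₂_X,
    HahnSeries.C_apply, HahnSeries.single_mul_single, zero_add, mul_one]

theorem monj_C (γ : ι → Γ) (c : F) :
    monj γ (MvPolynomial.C c) = HahnSeries.single 0 c := by
  rw [monj, MvPolynomial.coe_eval₂Hom, MvPolynomial.eval₂_C, HahnSeries.C_apply]

end monomials

section lex

variable (ι : Type) [Fintype ι]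

/-- the group of the exponents -/
abbrev Gmz : Type := Lex (Fin (Fintype.card ι) → ℤ)

variable {ι}

/-- the exponent of the variable `i` -/
noncomputable def gam (i : ι) : Gmz ι := toLex (Pi.single (Fintype.equivFin ι i) 1)

/-- the coordinate number `i` -/
noncomputable def crd (i : ι) : Gmz ι →+ ℝ where
  toFun v := ((ofLex v (Fintype.equivFin ι i) : ℤ) : ℝ)
  map_zero' := by
    show ((0 : ℤ) : ℝ) = 0
    exact Int.cast_zero
  map_add' v w := by
    show ((ofLex v (Fintype.equivFin ι i) + ofLex w (Fintype.equivFin ι i) : ℤ) : ℝ) = _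
    rw [Int.cast_add]

theorem crd_gam [DecidableEq ι] (i j : ι) : crd i (gam j) = if i = j then 1 else 0 := by
  show ((ofLex (toLex (Pi.single (Fintype.equivFin ι j) 1) : Gmz ι) (Fintype.equivFin ι i) : ℤ) : ℝ) = _
  rw [ofLex_toLex, Pi.single_apply]
  by_cases h : i = j
  · subst h
    simp
  · rw [if_neg, if_neg h, Int.cast_zero]
    intro h2
    exact h ((Fintype.equivFin ι).injective h2)

theorem expo_inj : Function.Injective (expo (gam : ι → Gmz ι)) := by
  classical
  intro m m' h
  ext i
  have key : ∀ m : ι →₀ ℕ, crd i (expo (gam : ι → Gmz ι) m) = m i := by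
    intro m
    rw [expo, Finsupp.sum, map_sum]
    simp only [map_nsmul, crd_gam]
    rw [Finset.sum_eq_single i]
    · simp
    · intro j _ hj
      rw [if_neg (Ne.symm hj), smul_zero]
    · intro hi
      rw [Finsupp.notMem_support_iff.1 hi, zero_smul]
  have h1 := key m
  rw [h, key m'] at h1
  exact_mod_cast h1.symm

end lex

section tower

variable (ι : Type) [Fintype ι] (F : Type) [Field F]

/-- the field of the monomials -/
abbrev Fm : Type := HahnSeries (Gmz ι) F

/-- the functionals of the two levels -/
def WW : Set (LaurentSeries (Fm ι F) → ℝ) := hahnW32 ℤ (hahnW32 (Gmz ι) (∅ : Set (F → ℝ)))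

theorem tri_WW : TRI32 (LaurentSeries (Fm ι F)) (WW ι F) :=
  tri_hahn32 (tri_hahn32 tri_empty32)

variable {ι F}

/-- the functional of the label `e`: `none` is the upper level -/
noncomputable def ff : Option ι → LaurentSeries (Fm ι F) → ℝ
  | none => fun x => -((x.order : ℤ) : ℝ)
  | some i => fun x => crd i (x.leadingCoeff).order

theorem ff_mem (e : Option ι) : (ff e : LaurentSeries (Fm ι F) → ℝ) ∈ WW ι F := by
  rcases e with _ | i
  · right
    exact ⟨-(Int.castAddHom ℝ), by funext x; simp [ff]⟩
  · left
    exact ⟨fun y => crd i y.order, Or.inr ⟨crd i, rfl⟩, rfl⟩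

theorem ff_C [DecidableEq ι] (e : Option ι) (i : ι) {c : F} (hc : c ≠ 0) :
    ff e (HahnSeries.C (Γ := ℤ) (HahnSeries.single (gam i) c) : LaurentSeries (Fm ι F)) =
      if e = some i then 1 else 0 := by
  have h0 : (HahnSeries.single (gam i) c : Fm ι F) ≠ 0 := HahnSeries.single_ne_zero hc
  rcases e with _ | k
  · simp only [ff]
    rw [HahnSeries.order_C]
    simp
  · have h1 : (HahnSeries.C (Γ := ℤ) (HahnSeries.single (gam i) c) :
        LaurentSeries (Fm ι F)).leadingCoeff = HahnSeries.single (gam i) c := by
      rw [HahnSeries.C_apply, HahnSeries.leadingCoeff_of_single]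
    simp only [ff]
    rw [h1, HahnSeries.order_single hc, crd_gam]
    by_cases h : k = i
    · simp [h]
    · simp [h]

theorem ff_T (e : Option ι) {c : F} (hc : c ≠ 0) :
    ff e (HahnSeries.single (-1 : ℤ) (HahnSeries.single 0 c) : LaurentSeries (Fm ι F)) =
      if e = none then 1 else 0 := by
  have h0 : (HahnSeries.single 0 c : Fm ι F) ≠ 0 := HahnSeries.single_ne_zero hc
  rcases e with _ | k
  · simp only [ff, if_true]
    rw [HahnSeries.order_single h0]
    simp
  · simp only [ff]
    rw [HahnSeries.leadingCoeff_of_single, HahnSeries.order_single hc, map_zero]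
    simp

end tower

end Pool.Agent.Lib.MP_e3aa0a_gt.FVL
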