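import Mathlib

/-!
Project FVL (MP_e3aa0a_gt), row KER (helper21): the 2-form of the fan triangulation of the
`4 g`-gon on the functions on its `6 g - 3` labels, and its kernel.

The sides of the polygon are numbered `0, ..., 4 g - 1`: side `4 i` and side `4 i + 2` are `a_i`,
side `4 i + 1` and side `4 i + 3` are `b_i`.  The vertex `j` is the end of the first `j` sides;
the diagonal from the vertex `0` to the vertex `j` has the label `w_j`, where `w_1 = a_0` and
`w_(4 g - 1) = b_(g-1)`.  The triangles are `(w_j, side j, w_(j+1))`, `1 ≤ j ≤ 4 g - 2`.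
-/

set_option autoImplicit false

namespace Pool.Agent.Lib.MP_e3aa0a_gt.FVL.Ker21

open Finset

/-- the labels `a_i`, `b_i`, `w_(k+2)` -/
abbrev Lab (g : ℕ) : Type := Fin g ⊕ Fin g ⊕ Fin (4 * g - 3)

variable {g : ℕ}

/-- the value at the side `j` -/
def sd (w : Lab g → ℝ) (j : ℕ) : ℝ :=
  if h : j / 4 < g then
    (if j % 2 = 0 then w (Sum.inl ⟨j / 4, h⟩) else w (Sum.inr (Sum.inl ⟨j / 4, h⟩)))
  else 0

/-- the value at the diagonal `w_j` -/
def dg (w : Lab g → ℝ) (j : ℕ) : ℝ :=
  if h : 2 ≤ j ∧ j < 4 * g - 1 then w (Sum.inr (Sum.inr ⟨j - 2, by omega⟩)) else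
    if j = 1 then sd w 0 else sd w (4 * g - 1)

theorem sd_add (w w' : Lab g → ℝ) (j : ℕ) : sd (w + w') j = sd w j + sd w' j := by
  unfold sd
  split_ifs <;> simp

theorem sd_smul (c : ℝ) (w : Lab g → ℝ) (j : ℕ) : sd (c • w) j = c * sd w j := by
  unfold sd
  split_ifs <;> simp

theorem dg_add (w w' : Lab g → ℝ) (j : ℕ) : dg (w + w') j = dg w j + dg w' j := by
  unfold dg
  split_ifs
  · simp
  · exact sd_add _ _ _
  · exact sd_add _ _ _

theorem dg_smul (c : ℝ) (w : Lab g → ℝ) (j : ℕ) : dg (c • w) j = c * dg w j := by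
  unfold dg
  split_ifs
  · simp
  · exact sd_smul _ _ _
  · exact sd_smul _ _ _

/-- `x ∧ y + y ∧ z + z ∧ x` for the values `x, y, z` of `w` and `x', y', z'` of `w'` -/
def tri (x y z x' y' z' : ℝ) : ℝ := (x * y' - y * x') + (y * z' - z * y') + (z * x' - x * z')

/-- the 2-form of the fan triangulation -/
noncomputable def om (g : ℕ) : (Lab g → ℝ) →ₗ[ℝ] (Lab g → ℝ) →ₗ[ℝ] ℝ :=
  LinearMap.mk₂ ℝ (fun w w' => ∑ j ∈ Finset.Icc 1 (4 * g - 2),
    tri (dg w j) (sd w j) (dg w (j + 1)) (dg w' j) (sd w' j) (dg w' (j + 1)))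
    (by
      intro w w1 w'
      rw [← Finset.sum_add_distrib]
      refine Finset.sum_congr rfl fun j _ => ?_
      rw [dg_add, sd_add, dg_add]
      unfold tri
      ring)
    (by
      intro c w w'
      rw [smul_eq_mul, Finset.mul_sum]
      refine Finset.sum_congr rfl fun j _ => ?_
      rw [dg_smul, sd_smul, dg_smul]
      unfold tri
      ring)
    (by
      intro w w' w1
      rw [← Finset.sum_add_distrib]
      refine Finset.sum_congr rfl fun j _ => ?_
      rw [dg_add, sd_add, dg_add]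
      unfold tri
      ring)
    (by
      intro c w w'
      rw [smul_eq_mul, Finset.mul_sum]
      refine Finset.sum_congr rfl fun j _ => ?_
      rw [dg_smul, sd_smul, dg_smul]
      unfold tri
      ring)

theorem om_apply (w w' : Lab g → ℝ) : om g w w' = ∑ j ∈ Finset.Icc 1 (4 * g - 2),
    tri (dg w j) (sd w j) (dg w (j + 1)) (dg w' j) (sd w' j) (dg w' (j + 1)) := rfl

theorem om_self (w : Lab g → ℝ) : om g w w = 0 := by
  rw [om_apply]
  refine Finset.sum_eq_zero fun j _ => ?_
  unfold tri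
  ring

theorem om_alt : (om g).IsAlt := om_self

theorem om_swap (w w' : Lab g → ℝ) : om g w w' = - om g w' w := by
  rw [om_apply, om_apply, ← Finset.sum_neg_distrib]
  refine Finset.sum_congr rfl fun j _ => ?_
  unfold tri
  ring

theorem sd_const (hg : 0 < g) (c : ℝ) {j : ℕ} (hj : j < 4 * g) :
    sd (fun _ : Lab g => c) j = c := by
  unfold sd
  rw [dif_pos (by omega)]
  split_ifs <;> rfl

theorem dg_const (hg : 0 < g) (c : ℝ) (j : ℕ) : dg (fun _ : Lab g => c) j = c := by
  unfold dg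
  split_ifs
  · rfl
  · exact sd_const hg c (by omega)
  · exact sd_const hg c (by omega)

/-- the constants are in the kernel -/
theorem om_const (hg : 0 < g) (w : Lab g → ℝ) (c : ℝ) : om g w (fun _ => c) = 0 := by
  rw [om_apply]
  refine Finset.sum_eq_zero fun j hj => ?_
  rw [Finset.mem_Icc] at hj
  rw [dg_const hg, dg_const hg, sd_const hg c (by omega)]
  unfold tri
  ring

theorem om_const_left (hg : 0 < g) (w : Lab g → ℝ) (c : ℝ) : om g (fun _ => c) w = 0 := by
  rw [om_swap, om_const hg, neg_zero]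

/-! ### Test vectors -/

/-- the indicator of a label -/
def dl (x : Lab g) : Lab g → ℝ := fun y => if y = x then 1 else 0

theorem sd_dl_w (k : Fin (4 * g - 3)) (j : ℕ) : sd (dl (Sum.inr (Sum.inr k))) j = 0 := by
  unfold sd dl
  split_ifs <;> simp_all

theorem dg_dl_w (k : Fin (4 * g - 3)) (j : ℕ) :
    dg (dl (Sum.inr (Sum.inr k))) j = if j = k.1 + 2 then 1 else 0 := by
  have hk := k.2
  unfold dg
  by_cases h : 2 ≤ j ∧ j < 4 * g - 1
  · rw [dif_pos h]
    unfold dl
    by_cases h2 : j = k.1 + 2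
    · rw [if_pos h2, if_pos]
      congr 2
      ext
      simp only
      omega
    · rw [if_neg h2, if_neg]
      intro h3
      have h4 := congrArg Fin.val (Sum.inr.inj (Sum.inr.inj h3))
      simp only at h4
      omega
  · have h2 : ¬ (j = k.1 + 2) := by omega
    rw [dif_neg h, if_neg h2]
    split_ifs
    · exact sd_dl_w _ _
    · exact sd_dl_w _ _

theorem sd_dl_a (i : Fin g) (j : ℕ) :
    sd (dl (Sum.inl i)) j = (if j = 4 * i.1 then 1 else 0) + (if j = 4 * i.1 + 2 then 1 else 0) := by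
  have hi := i.2
  unfold sd
  by_cases h : j / 4 < g
  · rw [dif_pos h]
    by_cases h2 : j % 2 = 0
    · rw [if_pos h2]
      unfold dl
      by_cases h3 : j / 4 = i.1
      · have : (Sum.inl ⟨j / 4, h⟩ : Lab g) = Sum.inl i := by
          congr 1
          ext
          exact h3
        rw [if_pos this]
        by_cases h4 : j = 4 * i.1
        · rw [if_pos h4, if_neg (by omega)]
          norm_num
        · rw [if_neg h4, if_pos (by omega)]
          norm_num
      · have : (Sum.inl ⟨j / 4, h⟩ : Lab g) ≠ Sum.inl i := by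
          intro h4
          exact h3 (congrArg Fin.val (Sum.inl.inj h4))
        rw [if_neg this, if_neg (by omega), if_neg (by omega)]
        norm_num
    · rw [if_neg h2, if_neg (by omega), if_neg (by omega)]
      unfold dl
      simp
  · rw [dif_neg h, if_neg (by omega), if_neg (by omega)]
    norm_num

theorem sd_dl_b (i : Fin g) (j : ℕ) : sd (dl (Sum.inr (Sum.inl i))) j =
    (if j = 4 * i.1 + 1 then 1 else 0) + (if j = 4 * i.1 + 3 then 1 else 0) := by
  have hi := i.2
  unfold sd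
  by_cases h : j / 4 < g
  · rw [dif_pos h]
    by_cases h2 : j % 2 = 0
    · rw [if_pos h2, if_neg (by omega), if_neg (by omega)]
      unfold dl
      simp
    · rw [if_neg h2]
      unfold dl
      by_cases h3 : j / 4 = i.1
      · have : (Sum.inr (Sum.inl ⟨j / 4, h⟩) : Lab g) = Sum.inr (Sum.inl i) := by
          congr 2
          ext
          exact h3
        rw [if_pos this]
        by_cases h4 : j = 4 * i.1 + 1
        · rw [if_pos h4, if_neg (by omega)]
          norm_num
        · rw [if_neg h4, if_pos (by omega)]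
          norm_num
      · have : (Sum.inr (Sum.inl ⟨j / 4, h⟩) : Lab g) ≠ Sum.inr (Sum.inl i) := by
          intro h4
          exact h3 (congrArg Fin.val (Sum.inl.inj (Sum.inr.inj h4)))
        rw [if_neg this, if_neg (by omega), if_neg (by omega)]
        norm_num
  · rw [dif_neg h, if_neg (by omega), if_neg (by omega)]
    norm_num

theorem dg_dl_a (hg : 2 ≤ g) (i : Fin g) (j : ℕ) :
    dg (dl (Sum.inl i)) j = if j = 1 ∧ i.1 = 0 then 1 else 0 := by
  have hi := i.2
  unfold dg
  by_cases h : 2 ≤ j ∧ j < 4 * g - 1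
  · rw [dif_pos h, if_neg (by omega)]
    unfold dl
    simp
  · rw [dif_neg h]
    by_cases h1 : j = 1
    · rw [if_pos h1, sd_dl_a]
      by_cases h2 : i.1 = 0
      · rw [if_pos (by omega), if_neg (by omega), if_pos ⟨h1, h2⟩]
        norm_num
      · rw [if_neg (by omega), if_neg (by omega), if_neg (by omega)]
        norm_num
    · rw [if_neg h1, sd_dl_a, if_neg (by omega), if_neg (by omega), if_neg (by omega)]
      norm_num

theorem dg_dl_b (hg : 2 ≤ g) (i : Fin g) {j : ℕ} (hj : 1 ≤ j) :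
    dg (dl (Sum.inr (Sum.inl i))) j = if 4 * g - 1 ≤ j ∧ i.1 = g - 1 then 1 else 0 := by
  have hi := i.2
  unfold dg
  by_cases h : 2 ≤ j ∧ j < 4 * g - 1
  · rw [dif_pos h, if_neg (by omega)]
    unfold dl
    simp
  · rw [dif_neg h]
    by_cases h1 : j = 1
    · rw [if_pos h1, sd_dl_b, if_neg (by omega), if_neg (by omega), if_neg (by omega)]
      norm_num
    · rw [if_neg h1, sd_dl_b]
      by_cases h2 : i.1 = g - 1
      · rw [if_neg (by omega), if_pos (by omega), if_pos (by omega)]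
        norm_num
      · rw [if_neg (by omega), if_neg (by omega), if_neg (by omega)]
        norm_num

/-! ### Evaluations -/

/-- the form with the indicator of `w_(k+2)` -/
theorem om_dl_w (hg : 2 ≤ g) (w : Lab g → ℝ) (k : Fin (4 * g - 3)) :
    om g w (dl (Sum.inr (Sum.inr k))) =
      dg w (k.1 + 3) - dg w (k.1 + 1) - sd w (k.1 + 2) + sd w (k.1 + 1) := by
  have hk := k.2
  rw [om_apply]
  have h : ∀ j ∈ Finset.Icc 1 (4 * g - 2), tri (dg w j) (sd w j) (dg w (j + 1))
      (dg (dl (Sum.inr (Sum.inr k))) j) (sd (dl (Sum.inr (Sum.inr k))) j)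
      (dg (dl (Sum.inr (Sum.inr k))) (j + 1)) =
      (if j = k.1 + 2 then dg w (j + 1) - sd w j else 0) +
        (if j = k.1 + 1 then sd w j - dg w j else 0) := by
    intro j _
    rw [sd_dl_w, dg_dl_w, dg_dl_w]
    unfold tri
    by_cases h1 : j = k.1 + 2
    · rw [if_pos h1, if_neg (by omega), if_pos h1, if_neg (by omega)]
      ring
    · rw [if_neg h1, if_neg h1]
      by_cases h2 : j = k.1 + 1
      · rw [if_pos (by omega), if_pos h2]
        ring
      · rw [if_neg (by omega), if_neg h2]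
        ring
  rw [Finset.sum_congr rfl h, Finset.sum_add_distrib, Finset.sum_ite_eq', Finset.sum_ite_eq',
    if_pos (Finset.mem_Icc.2 (by omega)), if_pos (Finset.mem_Icc.2 (by omega))]
  ring

/-- the form with the indicator of `a_i`, `i` not `0` -/
theorem om_dl_a (hg : 2 ≤ g) (w : Lab g → ℝ) (i : Fin g) (hi : i.1 ≠ 0) :
    om g w (dl (Sum.inl i)) = dg w (4 * i.1) - dg w (4 * i.1 + 1) + dg w (4 * i.1 + 2)
      - dg w (4 * i.1 + 3) := by
  have hi2 := i.2
  rw [om_apply]
  have h : ∀ j ∈ Finset.Icc 1 (4 * g - 2), tri (dg w j) (sd w j) (dg w (j + 1))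
      (dg (dl (Sum.inl i)) j) (sd (dl (Sum.inl i)) j) (dg (dl (Sum.inl i)) (j + 1)) =
      (if j = 4 * i.1 then dg w j - dg w (j + 1) else 0) +
        (if j = 4 * i.1 + 2 then dg w j - dg w (j + 1) else 0) := by
    intro j _
    rw [sd_dl_a, dg_dl_a hg, dg_dl_a hg, if_neg (by omega : ¬ (j = 1 ∧ i.1 = 0)),
      if_neg (by omega : ¬ (j + 1 = 1 ∧ i.1 = 0))]
    unfold tri
    by_cases h1 : j = 4 * i.1
    · rw [if_pos h1, if_neg (by omega), if_pos h1, if_neg (by omega)]
      ring
    · rw [if_neg h1, if_neg h1]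
      by_cases h2 : j = 4 * i.1 + 2
      · rw [if_pos h2, if_pos h2]
        ring
      · rw [if_neg h2, if_neg h2]
        ring
  rw [Finset.sum_congr rfl h, Finset.sum_add_distrib, Finset.sum_ite_eq', Finset.sum_ite_eq',
    if_pos (Finset.mem_Icc.2 (by omega)), if_pos (Finset.mem_Icc.2 (by omega))]
  ring

/-- the form with the indicator of `a_0` -/
theorem om_dl_a0 (hg : 2 ≤ g) (w : Lab g → ℝ) (i : Fin g) (hi : i.1 = 0) :
    om g w (dl (Sum.inl i)) = 2 * dg w 2 - dg w 3 - sd w 1 := by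
  rw [om_apply]
  have h : ∀ j ∈ Finset.Icc 1 (4 * g - 2), tri (dg w j) (sd w j) (dg w (j + 1))
      (dg (dl (Sum.inl i)) j) (sd (dl (Sum.inl i)) j) (dg (dl (Sum.inl i)) (j + 1)) =
      (if j = 1 then dg w (j + 1) - sd w j else 0) +
        (if j = 2 then dg w j - dg w (j + 1) else 0) := by
    intro j hj
    rw [Finset.mem_Icc] at hj
    rw [sd_dl_a, dg_dl_a hg, dg_dl_a hg, if_neg (by omega : ¬ (j + 1 = 1 ∧ i.1 = 0)),
      if_neg (by omega : ¬ (j = 4 * i.1))]
    unfold tri
    by_cases h1 : j = 1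
    · rw [if_pos (by omega : j = 1 ∧ i.1 = 0), if_neg (by omega : ¬ (j = 4 * i.1 + 2)), if_pos h1,
        if_neg (by omega : ¬ (j = 2))]
      ring
    · rw [if_neg (by omega : ¬ (j = 1 ∧ i.1 = 0)), if_neg h1]
      by_cases h2 : j = 2
      · rw [if_pos (by omega : j = 4 * i.1 + 2), if_pos h2]
        ring
      · rw [if_neg (by omega : ¬ (j = 4 * i.1 + 2)), if_neg h2]
        ring
  rw [Finset.sum_congr rfl h, Finset.sum_add_distrib, Finset.sum_ite_eq', Finset.sum_ite_eq',
    if_pos (Finset.mem_Icc.2 (by omega)), if_pos (Finset.mem_Icc.2 (by omega))]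
  norm_num
  ring

/-- the form with the indicator of `b_i`, `i` not `g - 1` -/
theorem om_dl_b (hg : 2 ≤ g) (w : Lab g → ℝ) (i : Fin g) (hi : i.1 ≠ g - 1) :
    om g w (dl (Sum.inr (Sum.inl i))) = dg w (4 * i.1 + 1) - dg w (4 * i.1 + 2)
      + dg w (4 * i.1 + 3) - dg w (4 * i.1 + 4) := by
  have hi2 := i.2
  rw [om_apply]
  have h : ∀ j ∈ Finset.Icc 1 (4 * g - 2), tri (dg w j) (sd w j) (dg w (j + 1))
      (dg (dl (Sum.inr (Sum.inl i))) j) (sd (dl (Sum.inr (Sum.inl i))) j)
      (dg (dl (Sum.inr (Sum.inl i))) (j + 1)) =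
      (if j = 4 * i.1 + 1 then dg w j - dg w (j + 1) else 0) +
        (if j = 4 * i.1 + 3 then dg w j - dg w (j + 1) else 0) := by
    intro j hj
    rw [Finset.mem_Icc] at hj
    rw [sd_dl_b, dg_dl_b hg i hj.1, dg_dl_b hg i (by omega : 1 ≤ j + 1),
      if_neg (by omega : ¬ (4 * g - 1 ≤ j ∧ i.1 = g - 1)),
      if_neg (by omega : ¬ (4 * g - 1 ≤ j + 1 ∧ i.1 = g - 1))]
    unfold tri
    by_cases h1 : j = 4 * i.1 + 1
    · rw [if_pos h1, if_neg (by omega), if_pos h1, if_neg (by omega)]
      ring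
    · rw [if_neg h1, if_neg h1]
      by_cases h2 : j = 4 * i.1 + 3
      · rw [if_pos h2, if_pos h2]
        ring
      · rw [if_neg h2, if_neg h2]
        ring
  rw [Finset.sum_congr rfl h, Finset.sum_add_distrib, Finset.sum_ite_eq', Finset.sum_ite_eq',
    if_pos (Finset.mem_Icc.2 (by omega)), if_pos (Finset.mem_Icc.2 (by omega))]
  ring

/-- the form with the indicator of `b_(g-1)` -/
theorem om_dl_bl (hg : 2 ≤ g) (w : Lab g → ℝ) (i : Fin g) (hi : i.1 = g - 1) :
    om g w (dl (Sum.inr (Sum.inl i))) = dg w (4 * g - 3) - 2 * dg w (4 * g - 2)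
      + sd w (4 * g - 2) := by
  rw [om_apply]
  have h : ∀ j ∈ Finset.Icc 1 (4 * g - 2), tri (dg w j) (sd w j) (dg w (j + 1))
      (dg (dl (Sum.inr (Sum.inl i))) j) (sd (dl (Sum.inr (Sum.inl i))) j)
      (dg (dl (Sum.inr (Sum.inl i))) (j + 1)) =
      (if j = 4 * g - 3 then dg w j - dg w (j + 1) else 0) +
        (if j = 4 * g - 2 then sd w j - dg w j else 0) := by
    intro j hj
    rw [Finset.mem_Icc] at hj
    rw [sd_dl_b, dg_dl_b hg i hj.1, dg_dl_b hg i (by omega : 1 ≤ j + 1),
      if_neg (by omega : ¬ (4 * g - 1 ≤ j ∧ i.1 = g - 1)),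
      if_neg (by omega : ¬ (j = 4 * i.1 + 3))]
    unfold tri
    by_cases h1 : j = 4 * g - 3
    · rw [if_pos (by omega : j = 4 * i.1 + 1),
        if_neg (by omega : ¬ (4 * g - 1 ≤ j + 1 ∧ i.1 = g - 1)), if_pos h1,
        if_neg (by omega : ¬ (j = 4 * g - 2))]
      ring
    · rw [if_neg (by omega : ¬ (j = 4 * i.1 + 1)), if_neg h1]
      by_cases h2 : j = 4 * g - 2
      · rw [if_pos (by omega : 4 * g - 1 ≤ j + 1 ∧ i.1 = g - 1), if_pos h2]
        ring
      · rw [if_neg (by omega : ¬ (4 * g - 1 ≤ j + 1 ∧ i.1 = g - 1)), if_neg h2]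
        ring
  rw [Finset.sum_congr rfl h, Finset.sum_add_distrib, Finset.sum_ite_eq', Finset.sum_ite_eq',
    if_pos (Finset.mem_Icc.2 (by omega)), if_pos (Finset.mem_Icc.2 (by omega))]
  have e : 4 * g - 3 + 1 = 4 * g - 2 := by omega
  rw [e]
  ring

/-! ### The kernel -/

theorem sd_even (w : Lab g → ℝ) (i : Fin g) : sd w (4 * i.1) = w (Sum.inl i) := by
  unfold sd
  have h : 4 * i.1 / 4 = i.1 := by omega
  have hi := i.2
  rw [dif_pos (by omega), if_pos (by omega)]
  congr 2
  ext
  exact h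

theorem sd_odd (w : Lab g → ℝ) (i : Fin g) : sd w (4 * i.1 + 1) = w (Sum.inr (Sum.inl i)) := by
  unfold sd
  have h : (4 * i.1 + 1) / 4 = i.1 := by omega
  have hi := i.2
  rw [dif_pos (by omega), if_neg (by omega)]
  congr 3
  ext
  exact h

theorem sd_two (w : Lab g → ℝ) (i : ℕ) : sd w (4 * i + 2) = sd w (4 * i) := by
  unfold sd
  have h : (4 * i + 2) / 4 = 4 * i / 4 := by omega
  by_cases h1 : 4 * i / 4 < g
  · rw [dif_pos h1, dif_pos (by omega), if_pos (by omega), if_pos (by omega)]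
    congr 2
    ext
    exact h
  · rw [dif_neg h1, dif_neg (by omega)]

theorem sd_three (w : Lab g → ℝ) (i : ℕ) : sd w (4 * i + 3) = sd w (4 * i + 1) := by
  unfold sd
  have h : (4 * i + 3) / 4 = (4 * i + 1) / 4 := by omega
  by_cases h1 : (4 * i + 1) / 4 < g
  · rw [dif_pos h1, dif_pos (by omega), if_neg (by omega), if_neg (by omega)]
    congr 3
    ext
    exact h
  · rw [dif_neg h1, dif_neg (by omega)]

theorem dg_w (w : Lab g → ℝ) (k : Fin (4 * g - 3)) :
    dg w (k.1 + 2) = w (Sum.inr (Sum.inr k)) := by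
  have hk := k.2
  unfold dg
  rw [dif_pos (by omega)]
  congr 3

theorem dg_one (w : Lab g → ℝ) : dg w 1 = sd w 0 := by
  unfold dg
  rw [dif_neg (by omega), if_pos rfl]

theorem dg_last (hg : 2 ≤ g) (w : Lab g → ℝ) : dg w (4 * g - 1) = sd w (4 * g - 1) := by
  unfold dg
  rw [dif_neg (by omega), if_neg (by omega)]

/-- the kernel of the form consists of the constants -/
theorem ker21 (hg : 2 ≤ g) (w : Lab g → ℝ) (h : ∀ w', om g w w' = 0) :
    ∃ c : ℝ, ∀ x, w x = c := by
  -- conditions at the diagonals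
  have hD : ∀ j, 1 ≤ j → j + 1 < 4 * g - 1 →
      dg w (j + 2) - dg w j = sd w (j + 1) - sd w j := by
    intro j h1 h2
    obtain ⟨k, rfl⟩ : ∃ k, j = k + 1 := ⟨j - 1, by omega⟩
    have h3 := om_dl_w hg w ⟨k, by omega⟩
    rw [h] at h3
    simp only at h3
    have e1 : k + 1 + 2 = k + 3 := by omega
    have e2 : k + 1 + 1 = k + 2 := by omega
    rw [e1, e2]
    linarith
  have hA : ∀ i, 1 ≤ i → i < g → dg w (4 * i) - dg w (4 * i + 1) + dg w (4 * i + 2)
      - dg w (4 * i + 3) = 0 := by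
    intro i h1 h2
    have h3 := om_dl_a hg w ⟨i, h2⟩ (by simp only; omega)
    rw [h] at h3
    exact h3.symm
  have hB : ∀ i, i < g - 1 → dg w (4 * i + 1) - dg w (4 * i + 2)
      + dg w (4 * i + 3) - dg w (4 * i + 4) = 0 := by
    intro i h2
    have h3 := om_dl_b hg w ⟨i, by omega⟩ (by simp only; omega)
    rw [h] at h3
    exact h3.symm
  have hA0 : 2 * dg w 2 - dg w 3 - sd w 1 = 0 := by
    have h3 := om_dl_a0 hg w ⟨0, by omega⟩ rfl
    rw [h] at h3
    exact h3.symm
  have hBl : dg w (4 * g - 3) - 2 * dg w (4 * g - 2) + sd w (4 * g - 2) = 0 := by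
    have h3 := om_dl_bl hg w ⟨g - 1, by omega⟩ rfl
    rw [h] at h3
    exact h3.symm
  set c : ℝ := sd w 0 with hc
  have h1c : dg w 1 = c := dg_one w
  -- induction over the handles
  have key : ∀ i, i < g → sd w (4 * i) = c ∧ sd w (4 * i + 1) = c ∧ dg w (4 * i + 1) = c ∧
      dg w (4 * i + 2) = c ∧ dg w (4 * i + 3) = c ∧ (i + 1 < g → dg w (4 * i + 4) = c) := by
    intro i
    induction i with
    | zero =>
      intro _
      have e1 := hD 1 (by omega) (by omega)
      have e2 := hD 2 (by omega) (by omega)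
      have e3 := hB 0 (by omega)
      have s2 := sd_two w 0
      have s3 := sd_three w 0
      simp only [Nat.mul_zero, Nat.zero_add] at e1 e2 e3 s2 s3 ⊢
      norm_num at e1 e2 e3
      rw [s2] at e1 e2
      rw [s3] at e2
      refine ⟨rfl, ?_, h1c, ?_, ?_, fun _ => ?_⟩ <;> linarith
    | succ i ih =>
      intro hi
      obtain ⟨f1, f2, f3, f4, f5, f6⟩ := ih (by omega)
      have f6' := f6 hi
      have e1 := hD (4 * i + 3) (by omega) (by omega)
      have e2 := hD (4 * i + 4) (by omega) (by omega)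
      have e3 := hD (4 * i + 5) (by omega) (by omega)
      have e4 := hA (i + 1) (by omega) hi
      have s0 := sd_three w i
      have s2 := sd_two w (i + 1)
      have s3 := sd_three w (i + 1)
      have n0 : 4 * (i + 1) = 4 * i + 4 := by omega
      rw [n0] at e4 s2 s3
      rw [n0]
      simp only [Nat.add_assoc, Nat.reduceAdd] at e1 e2 e3 e4 s2 s3 ⊢
      by_cases hlast : i + 2 < g
      · have e5 := hB (i + 1) (by omega)
        have e6 := hD (4 * i + 6) (by omega) (by omega)
        rw [n0] at e5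
        simp only [Nat.add_assoc, Nat.reduceAdd] at e5 e6
        refine ⟨?_, ?_, ?_, ?_, ?_, fun _ => ?_⟩ <;> linarith
      · have hgi : g = i + 2 := by omega
        have l1 := dg_last hg w
        subst hgi
        have m1 : 4 * (i + 2) - 1 = 4 * i + 7 := by omega
        have m2 : 4 * (i + 2) - 2 = 4 * i + 6 := by omega
        have m3 : 4 * (i + 2) - 3 = 4 * i + 5 := by omega
        rw [m1] at l1
        rw [m2, m3] at hBl
        refine ⟨?_, ?_, ?_, ?_, ?_, fun h7 => absurd h7 (by omega)⟩ <;> linarith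
  refine ⟨c, fun x => ?_⟩
  rcases x with i | i | k
  · rw [← sd_even w i]
    exact (key i.1 i.2).1
  · rw [← sd_odd w i]
    exact (key i.1 i.2).2.1
  · rw [← dg_w w k]
    have hk := k.2
    set j := k.1 + 2 with hj
    have hq : j / 4 < g := by omega
    obtain ⟨f1, f2, f3, f4, f5, f6⟩ := key (j / 4) hq
    have hr : j % 4 < 4 := Nat.mod_lt _ (by omega)
    have hdm := Nat.div_add_mod j 4
    interval_cases hrr : j % 4
    · obtain ⟨i, hi⟩ : ∃ i, j / 4 = i + 1 := ⟨j / 4 - 1, by omega⟩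
      have h9 := (key i (by omega)).2.2.2.2.2 (by omega)
      have h10 : 4 * i + 4 = j := by omega
      rw [← h10]
      exact h9
    · rw [← hdm]; exact f3
    · rw [← hdm]; exact f4
    · rw [← hdm]; exact f5

end Pool.Agent.Lib.MP_e3aa0a_gt.FVL.Ker21
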