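import Pool.Agent.Lib.MP_e3aa0a_gt.FVL.FanHom21
import Pool.Agent.Lib.MP_e3aa0a_gt.FVL.CR66

/-!
# FVL, module Lbl10: the labels of the fan triangulation in the vertex group

`H = FreeGroup (Option (Gen k))` is the free group on `b_0`, `a_i`, `b_i` (`i ≥ 1`); all labels of
the fan triangulation except `a_0` and `a_0 b_0` are images of elements of `H`.
-/

set_option autoImplicit false

namespace Pool.Agent.Lib.MP_e3aa0a_gt.FVL

open Pool.Agent.Lib.FVol
open Ker21 (Lab)
open Fan21
open scoped commutatorElement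

/-- the elements of `H` which are the labels (`1` for the two labels which are not in `H`) -/
noncomputable def hl10 {k : ℕ} : Lab (k + 1) → FreeGroup (Option (Gen k))
  | Sum.inl i => Fin.cases 1 (fun i => FreeGroup.of (some (Sum.inl i))) i
  | Sum.inr (Sum.inl i) => Fin.cases bb (fun i => FreeGroup.of (some (Sum.inr i))) i
  | Sum.inr (Sum.inr ⟨j, _⟩) =>
    match j with
    | 0 => 1
    | 1 => cc (relW k)
    | m + 2 => (up (relW k))⁻¹ * up (pref (g := k) FreeGroup.of m)

section shift

variable {G : Type*} [Group G]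

/-- the letters without the first handle -/
def sh10 {k : ℕ} (u : Gen (k + 1) → G) : Gen k → G
  | Sum.inl i => u (Sum.inl i.succ)
  | Sum.inr i => u (Sum.inr i.succ)

theorem slab_sh10 {k : ℕ} (u : Gen (k + 1) → G) (j : ℕ) (h : j < 4 * k) :
    slab (sh10 u) (side k ⟨j, h⟩) = slab u (side (k + 1) ⟨j + 4, by omega⟩) := by
  have e1 : (j + 4) / 4 = j / 4 + 1 := by omega
  have e2 : (j + 4) % 2 = j % 2 := by omega
  have e3 : (j + 4) % 4 = j % 4 := by omega
  unfold side slab
  simp only [e2, e3]
  have hf : ∀ h' : (j + 4) / 4 < k + 1, (⟨(j + 4) / 4, h'⟩ : Fin (k + 1)) =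
      Fin.succ ⟨j / 4, by omega⟩ := fun h' => by
    apply Fin.ext
    simp [e1]
  rcases Nat.mod_two_eq_zero_or_one j with h0 | h0
  · simp only [h0, if_true, hf]
    rfl
  · simp only [h0, one_ne_zero, if_false, hf]
    rfl

theorem pref_sh10 {k : ℕ} (u : Gen (k + 1) → G) : ∀ m : ℕ, m ≤ 4 * k →
    pref u (m + 4) = pref u 4 * pref (sh10 u) m
  | 0, _ => by rw [pref_zero, mul_one]
  | m + 1, h => by
    have ih := pref_sh10 u m (by omega)
    have h1 := pref_succ u ⟨m + 4, by omega⟩
    have h2 := pref_succ (sh10 u) ⟨m, by omega⟩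
    simp only at h1 h2
    rw [show m + 1 + 4 = m + 4 + 1 by ring, h1, h2, ih, slab_sh10, mul_assoc]

end shift

theorem relW_eq10 (k : ℕ) : relW k = wpr FreeGroup.of (rel k) := by
  rw [wpr_rel, relW]
  rfl

theorem wpr_of10 (g : ℕ) : wpr (fun x : Gen g => (PresentedGroup.of x : SG g)) (rel g) = 1 := by
  have h1 : wpr (fun x : Gen g => (PresentedGroup.of x : SG g)) (rel g) =
      PresentedGroup.mk {relW g} (wpr FreeGroup.of (rel g)) :=
    wpr_mapH (PresentedGroup.mk {relW g}) FreeGroup.of _
  rw [h1, ← relW_eq10]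
  exact PresentedGroup.mk_eq_one_iff.2 (Subgroup.subset_normalClosure rfl)

theorem iH_up_of10 (k : ℕ) (x : Gen k) : iH (up (FreeGroup.of x)) =
    sh10 (fun x : Gen (k + 1) => (PresentedGroup.of x : SG (k + 1))) x := by
  rw [up, FreeGroup.map.of, iH_of]
  rcases x with i | i <;> rfl

theorem iH_pref10 (k m : ℕ) : iH (up (pref (g := k) FreeGroup.of m)) =
    pref (sh10 (fun x : Gen (k + 1) => (PresentedGroup.of x : SG (k + 1)))) m := by
  have h1 := pref_map ((iH (k := k)).comp (FreeGroup.map some)) (FreeGroup.of : Gen k → FreeGroup (Gen k)) m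
  have h2 : (fun a => ((iH (k := k)).comp (FreeGroup.map some)) (FreeGroup.of a)) =
      sh10 (fun x : Gen (k + 1) => (PresentedGroup.of x : SG (k + 1))) := by
    funext x
    exact iH_up_of10 k x
  rw [h2] at h1
  rw [h1]
  rfl

theorem iH_P10 (k : ℕ) : iH (up (relW k)) =
    (pref (fun x : Gen (k + 1) => (PresentedGroup.of x : SG (k + 1))) 4)⁻¹ := by
  have h1 := pref_sh10 (fun x : Gen (k + 1) => (PresentedGroup.of x : SG (k + 1))) (4 * k) le_rfl
  rw [show 4 * k + 4 = 4 * (k + 1) by ring, pref_top, wpr_of10] at h1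
  have e : up (relW k) = up (pref (g := k) FreeGroup.of (4 * k)) := by
    rw [pref_top, ← relW_eq10]
  rw [e, iH_pref10]
  exact eq_inv_of_mul_eq_one_right h1.symm

/-- the labels in `H` -/
theorem iH_hl10 {k : ℕ} (l : Lab (k + 1)) (h1 : l ≠ ka (Nat.succ_pos k))
    (h2 : l ≠ kab (Nat.succ_pos k)) :
    iH (hl10 l) = lb (fun x : Gen (k + 1) => (PresentedGroup.of x : SG (k + 1))) l := by
  rcases l with i | i | ⟨j, hj⟩
  · induction i using Fin.cases with
    | zero => exact absurd rfl h1
    | succ i =>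
      show iH (FreeGroup.of (some (Sum.inl i))) = _
      rw [iH_of]
      rfl
  · induction i using Fin.cases with
    | zero =>
      show iH (FreeGroup.of none) = _
      rw [iH_of]
      rfl
    | succ i =>
      show iH (FreeGroup.of (some (Sum.inr i))) = _
      rw [iH_of]
      rfl
  · match j, hj with
    | 0, hj => exact absurd rfl h2
    | 1, hj =>
      show iH ((up (relW k))⁻¹ * FreeGroup.of none) = pref _ 3
      have h3 := pref3 (fun x : Gen (k + 1) => (PresentedGroup.of x : SG (k + 1))) 0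
      have h4 := pref4 (fun x : Gen (k + 1) => (PresentedGroup.of x : SG (k + 1))) 0
      simp only [Fin.val_zero, Nat.mul_zero, Nat.zero_add, pref_zero, one_mul] at h3 h4
      rw [map_mul, map_inv, iH_P10, inv_inv, h4, h3, iH_of]
      simp only [jj, commutatorElement_def, inv_mul_cancel_right]
    | m + 2, hj =>
      show iH ((up (relW k))⁻¹ * up (pref (g := k) FreeGroup.of m)) = pref _ (m + 2 + 2)
      rw [map_mul, map_inv, iH_P10, inv_inv, iH_pref10, show m + 2 + 2 = m + 4 by ring,
        pref_sh10 _ m (by omega)]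

end Pool.Agent.Lib.MP_e3aa0a_gt.FVL
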