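import Pool.Agent.Lib.FVol.Moves
import Pool.Agent.Lib.MP_e3aa0a_gt.FVL.Cont31b

/-!
# FVR, module Let31: words in letter matrices and their inverses
-/

set_option autoImplicit false

namespace Pool.Agent.Lib.MP_e3aa0a_gt.FVL

open Pool.Agent.Lib.FVol

section comm

variable {A C : Type*} [Fintype A] [DecidableEq A] [CommGroup C]

/-- in a commutative group the label of a word depends on the numbers of letters only -/
theorem wpr_comm31 (f : A → C) (W : List (A × Bool)) :
    wpr f W = ∏ a, f a ^ ((occ (a, true) W : ℤ) - occ (a, false) W) := by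
  induction W with
  | nil => simp
  | cons z W ih =>
    rw [wpr_cons, ih]
    have e1 : slab f z = ∏ a, if a = z.1 then slab f z else 1 := by
      rw [Finset.prod_ite_eq' Finset.univ z.1 fun _ => slab f z]
      simp
    rw [e1, ← Finset.prod_mul_distrib]
    refine Finset.prod_congr rfl fun a _ => ?_
    rw [occ_cons, occ_cons]
    rcases z with ⟨b, s⟩
    by_cases h : a = b
    · subst h
      cases s
      · simp only [slab, Prod.mk.injEq, true_and, Bool.false_eq_true, if_false, if_true]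
        push_cast
        rw [add_zero, ← sub_sub, zpow_sub_one, mul_comm]
      · simp only [slab, Prod.mk.injEq, true_and, Bool.true_eq_false, if_false, if_true]
        push_cast
        rw [add_zero, add_sub_right_comm, zpow_add_one, mul_comm]
    · have h' : ¬ b = a := fun e => h e.symm
      simp [h, h']

/-- the two rows have the same label in every commutative group -/
theorem wpr_rows31 (f : A → C) {W W' : List (A × Bool)}
    (h : ∀ z, (occ z W : ℤ) - occ (sinv z) W = occ z W' - occ (sinv z) W') :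
    wpr f W = wpr f W' := by
  rw [wpr_comm31, wpr_comm31]
  exact Finset.prod_congr rfl fun a _ => by rw [show ((a, false) : A × Bool) = sinv (a, true) from rfl, h]

end comm

section hom

variable {A G H : Type*} [Group G] [Group H]

theorem map_wpr31 (φ : G →* H) (f : A → G) (W : List (A × Bool)) :
    φ (wpr f W) = wpr (fun a => φ (f a)) W := by
  induction W with
  | nil => simp
  | cons z W ih =>
    rw [wpr_cons, wpr_cons, map_mul, ih]
    rcases z with ⟨b, s⟩
    cases s <;> simp [slab]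

end hom

section letters

variable {A K : Type*} [Field K]

/-- the triple of a signed letter: `α x` and `α x⁻¹` are the positions of its two ends -/
def lt31 (α : A × Bool → K) (ε : A → K) (x : A × Bool) : K × K × K := (α x, -α (sinv x), ε x.1)

/-- the scalar of a word: `-1/ε` for every negative letter -/
def sc31 (ε : A → K) (W : List (A × Bool)) : K :=
  (W.map fun x => if x.2 then 1 else -(ε x.1)⁻¹).prod

/-- the group elements of the letters -/
noncomputable def fm31 (α : A × Bool → K) (ε : A → K) (hε : ∀ a, ε a ≠ 0) (a : A) :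
    Matrix.GeneralLinearGroup (Fin 2) K :=
  Matrix.GeneralLinearGroup.mkOfDetNeZero (lm31 (lt31 α ε (a, true)))
    (by rw [det_lm31]; exact hε a)

variable {α : A × Bool → K} {ε : A → K} {hε : ∀ a, ε a ≠ 0}

theorem sc31_nil : sc31 ε [] = 1 := rfl

theorem sc31_cons (x : A × Bool) (W : List (A × Bool)) :
    sc31 ε (x :: W) = (if x.2 then 1 else -(ε x.1)⁻¹) * sc31 ε W := by
  simp [sc31]

theorem sc31_append (W W' : List (A × Bool)) : sc31 ε (W ++ W') = sc31 ε W * sc31 ε W' := by
  simp [sc31]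

theorem sc31_ne (hε : ∀ a, ε a ≠ 0) (W : List (A × Bool)) : sc31 ε W ≠ 0 := by
  induction W with
  | nil => simp [sc31]
  | cons x W ih =>
    rw [sc31_cons]
    refine mul_ne_zero ?_ ih
    split_ifs
    · exact one_ne_zero
    · exact neg_ne_zero.2 (inv_ne_zero (hε _))

theorem lm31_inv (a d e : K) (he : e ≠ 0) : lm31 (a, -d, e) * (-e⁻¹) • lm31 (d, -a, e) = 1 := by
  rw [Matrix.mul_smul]
  have h : lm31 (a, -d, e) * lm31 (d, -a, e) = (-e) • (1 : Matrix (Fin 2) (Fin 2) K) := by
    ext i j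
    fin_cases i <;> fin_cases j <;>
      simp [lm31, Matrix.mul_apply, Fin.sum_univ_two] <;> ring
  rw [h, smul_smul]
  have : -e⁻¹ * -e = 1 := by
    rw [neg_mul_neg]
    exact inv_mul_cancel₀ he
  rw [this, one_smul]

theorem slab_fm31 (x : A × Bool) :
    ((slab (fm31 α ε hε) x : Matrix.GeneralLinearGroup (Fin 2) K) : Matrix (Fin 2) (Fin 2) K) =
      (if x.2 then 1 else -(ε x.1)⁻¹) • lm31 (lt31 α ε x) := by
  rcases x with ⟨a, s⟩
  have hm : ((fm31 α ε hε a : Matrix.GeneralLinearGroup (Fin 2) K) : Matrix (Fin 2) (Fin 2) K) =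
      lm31 (lt31 α ε (a, true)) := rfl
  cases s
  · simp only [slab, Bool.false_eq_true, if_false]
    rw [Matrix.coe_units_inv, hm]
    refine Matrix.inv_eq_right_inv ?_
    exact lm31_inv _ _ _ (hε a)
  · simp only [slab, if_true, one_smul]
    exact hm

/-- the matrix of a word -/
theorem wpr_fm31 (W : List (A × Bool)) :
    ((wpr (fm31 α ε hε) W : Matrix.GeneralLinearGroup (Fin 2) K) : Matrix (Fin 2) (Fin 2) K) =
      sc31 ε W • pm31 (W.map (lt31 α ε)) := by
  induction W with
  | nil =>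
    rw [wpr_nil, sc31_nil, List.map_nil, pm31_nil, one_smul]
    rfl
  | cons x W ih =>
    rw [wpr_cons, sc31_cons, List.map_cons, pm31_cons, Matrix.GeneralLinearGroup.coe_mul, ih,
      slab_fm31, Matrix.smul_mul, Matrix.mul_smul, smul_smul]

theorem wpr_apply31 (W : List (A × Bool)) (i j : Fin 2) :
    (wpr (fm31 α ε hε) W : Matrix.GeneralLinearGroup (Fin 2) K) i j =
      sc31 ε W * pm31 (W.map (lt31 α ε)) i j := by
  have := congrFun (congrFun (wpr_fm31 (hε := hε) (α := α) (ε := ε) W) i) j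
  rw [this]
  simp

theorem wpr_one_zero31 (W : List (A × Bool)) :
    (wpr (fm31 α ε hε) W : Matrix.GeneralLinearGroup (Fin 2) K) 1 0 =
      sc31 ε W * g31 (W.map (lt31 α ε)) := by
  rw [wpr_apply31, pm31_one_zero]

theorem det_wpr31 (W : List (A × Bool)) :
    ((wpr (fm31 α ε hε) W : Matrix.GeneralLinearGroup (Fin 2) K) :
      Matrix (Fin 2) (Fin 2) K).det = sc31 ε W ^ 2 * (W.map fun x => ε x.1).prod := by
  rw [wpr_fm31, Matrix.det_smul, det_pm31, List.map_map, Fintype.card_fin]
  rfl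

/-- the square of the lower left entry, normalised by the determinant -/
theorem wpr_sq31 (W : List (A × Bool)) :
    ((wpr (fm31 α ε hε) W : Matrix.GeneralLinearGroup (Fin 2) K) 1 0) ^ 2 *
        (W.map fun x => ε x.1).prod =
      ((wpr (fm31 α ε hε) W : Matrix.GeneralLinearGroup (Fin 2) K) :
        Matrix (Fin 2) (Fin 2) K).det * g31 (W.map (lt31 α ε)) ^ 2 := by
  rw [wpr_one_zero31, det_wpr31]
  ring

/-- two invertible matrices with the same determinant and the same three data are equal -/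
theorem eq_of_ent31 {M N : Matrix (Fin 2) (Fin 2) K} (h : M 1 0 ≠ 0) (h1 : M 1 0 = N 1 0)
    (h2 : M 0 0 / M 1 0 = N 0 0 / N 1 0) (h3 : M 1 1 / M 1 0 = N 1 1 / N 1 0)
    (h4 : M.det = N.det) : M = N := by
  have hN : N 1 0 ≠ 0 := h1 ▸ h
  have e1 : M 0 0 = N 0 0 := by
    rw [h1] at h2
    exact (div_left_inj' hN).1 h2
  have e2 : M 1 1 = N 1 1 := by
    rw [h1] at h3
    exact (div_left_inj' hN).1 h3
  have e3 : M 0 1 = N 0 1 := by
    rw [Matrix.det_fin_two, Matrix.det_fin_two, e1, e2, h1] at h4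
    have : M 0 1 * N 1 0 = N 0 1 * N 1 0 := by linear_combination -h4
    exact mul_right_cancel₀ hN this
  ext i j
  fin_cases i <;> fin_cases j
  · exact e1
  · exact e3
  · exact h1
  · exact e2

/-- **equality of the two rows** from the three equations -/
theorem wpr_eq31 [Fintype A] [DecidableEq A] {W W' : List (A × Bool)}
    (hs : ∀ z, (occ z W : ℤ) - occ (sinv z) W = occ z W' - occ (sinv z) W')
    (h0 : g31 (W.map (lt31 α ε)) ≠ 0)
    (h1 : sc31 ε W * g31 (W.map (lt31 α ε)) = sc31 ε W' * g31 (W'.map (lt31 α ε)))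
    (h2 : pm31 (W.map (lt31 α ε)) 0 0 / pm31 (W.map (lt31 α ε)) 1 0 =
      pm31 (W'.map (lt31 α ε)) 0 0 / pm31 (W'.map (lt31 α ε)) 1 0)
    (h3 : pm31 (W.map (lt31 α ε)) 1 1 / pm31 (W.map (lt31 α ε)) 1 0 =
      pm31 (W'.map (lt31 α ε)) 1 1 / pm31 (W'.map (lt31 α ε)) 1 0) :
    wpr (fm31 α ε hε) W = wpr (fm31 α ε hε) W' := by
  refine Units.ext ?_
  refine eq_of_ent31 ?_ ?_ ?_ ?_ ?_
  · rw [wpr_one_zero31]
    exact mul_ne_zero (sc31_ne hε W) h0
  · rw [wpr_one_zero31, wpr_one_zero31, h1]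
  · rw [wpr_apply31, wpr_apply31, wpr_apply31, wpr_apply31,
      mul_div_mul_left _ _ (sc31_ne hε W), mul_div_mul_left _ _ (sc31_ne hε W'), h2]
  · rw [wpr_apply31, wpr_apply31, wpr_apply31, wpr_apply31,
      mul_div_mul_left _ _ (sc31_ne hε W), mul_div_mul_left _ _ (sc31_ne hε W'), h3]
  · have h5 : Matrix.GeneralLinearGroup.det (wpr (fm31 α ε hε) W) =
        Matrix.GeneralLinearGroup.det (wpr (fm31 α ε hε) W') := by
      rw [map_wpr31, map_wpr31]
      exact wpr_rows31 _ hs
    exact congrArg Units.val h5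

end letters

section valued

open HahnSeries

variable {A F : Type*} [Field F] {α : A × Bool → HahnSeries ℝ F} {ε : A → HahnSeries ℝ F}
  {hε : ∀ a, ε a ≠ 0} {c : ℝ} {W : List (A × Bool)}

theorem order_list_prod31 {L : List (HahnSeries ℝ F)} (h : ∀ x ∈ L, x ≠ 0) :
    L.prod ≠ 0 ∧ L.prod.order = (L.map order).sum ∧
      L.prod.leadingCoeff = (L.map leadingCoeff).prod := by
  induction L with
  | nil => simp
  | cons x L ih =>
    obtain ⟨h1, h2, h3⟩ := ih fun y hy => h y (by simp [hy])
    have hx := h x (by simp)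
    rw [List.prod_cons, List.map_cons, List.map_cons, List.sum_cons, List.prod_cons]
    exact ⟨mul_ne_zero hx h1, by rw [order_mul hx h1, h2], by rw [leadingCoeff_mul, h3]⟩

theorem Un57.order31 {x : HahnSeries ℝ F} (h : Un57 x) : x.order = 0 := by
  have h4 := order_eq_orderTop_of_ne_zero h.ne_zero
  rw [h] at h4
  exact_mod_cast h4

/-- the order of the normalised lower left entry -/
theorem val_wpr31 (hc : 0 < c) (h : Li31 c (W.map (lt31 α ε))) (hW : W ≠ []) :
    (wpr (fm31 α ε hε) W : Matrix.GeneralLinearGroup (Fin 2) (HahnSeries ℝ F)) 1 0 ≠ 0 ∧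
      2 * ((wpr (fm31 α ε hε) W : Matrix.GeneralLinearGroup (Fin 2) (HahnSeries ℝ F)) 1 0).order +
        (W.map fun x => (ε x.1).order).sum =
      ((wpr (fm31 α ε hε) W : Matrix.GeneralLinearGroup (Fin 2) (HahnSeries ℝ F)) :
        Matrix (Fin 2) (Fin 2) (HahnSeries ℝ F)).det.order := by
  have hu : Un57 (g31 (W.map (lt31 α ε))) := h.un hc (by simpa using hW)
  have h1 := wpr_sq31 (hε := hε) (α := α) W
  have h2 := order_list_prod31 (L := W.map fun x => ε x.1) (by
    intro x hx
    obtain ⟨y, _, rfl⟩ := List.mem_map.1 hx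
    exact hε _)
  have h3 : (wpr (fm31 α ε hε) W :
      Matrix.GeneralLinearGroup (Fin 2) (HahnSeries ℝ F)) 1 0 ≠ 0 := by
    rw [wpr_one_zero31]
    exact mul_ne_zero (sc31_ne hε W) hu.ne_zero
  have h4 : ((wpr (fm31 α ε hε) W : Matrix.GeneralLinearGroup (Fin 2) (HahnSeries ℝ F)) :
        Matrix (Fin 2) (Fin 2) (HahnSeries ℝ F)).det ≠ 0 := by
    rw [det_wpr31]
    exact mul_ne_zero (pow_ne_zero _ (sc31_ne hε W)) h2.1
  refine ⟨h3, ?_⟩
  have h5 := congrArg order h1
  rw [order_mul (pow_ne_zero _ h3) h2.1, order_mul h4 (pow_ne_zero _ hu.ne_zero), order_pow,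
    order_pow, hu.order31, h2.2.1, List.map_map] at h5
  have h6 : (W.map (order ∘ fun x => ε x.1)) = W.map fun x => (ε x.1).order := rfl
  rw [h6] at h5
  simpa [nsmul_eq_mul] using h5

/-- the leading coefficient of the normalised lower left entry -/
theorem lead_wpr31 (hc : 0 < c) (h : Li31 c (W.map (lt31 α ε))) (hW : W ≠ []) {a : F}
    (ha : Cg57 c (kp31 (W.map (lt31 α ε))) (C a)) :
    a ≠ 0 ∧ ((wpr (fm31 α ε hε) W :
        Matrix.GeneralLinearGroup (Fin 2) (HahnSeries ℝ F)) 1 0).leadingCoeff ^ 2 *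
        (W.map fun x => (ε x.1).leadingCoeff).prod =
      ((wpr (fm31 α ε hε) W : Matrix.GeneralLinearGroup (Fin 2) (HahnSeries ℝ F)) :
        Matrix (Fin 2) (Fin 2) (HahnSeries ℝ F)).det.leadingCoeff * a ^ 2 := by
  obtain ⟨h1, _, h2⟩ := h.lead hc (by simpa using hW) ha
  refine ⟨h1, ?_⟩
  have h3 := congrArg leadingCoeff (wpr_sq31 (hε := hε) (α := α) W)
  have h4 := (order_list_prod31 (L := W.map fun x => ε x.1) (by
    intro x hx
    obtain ⟨y, _, rfl⟩ := List.mem_map.1 hx
    exact hε _)).2.2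
  rw [leadingCoeff_mul, leadingCoeff_mul, h4, List.map_map] at h3
  have h5 : ∀ x : HahnSeries ℝ F, (x ^ 2).leadingCoeff = x.leadingCoeff ^ 2 := fun x => by
    rw [pow_two, leadingCoeff_mul, pow_two]
  rw [h5, h5, h2] at h3
  exact h3

end valued

end Pool.Agent.Lib.MP_e3aa0a_gt.FVL
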