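import Pool.Agent.Lib.FVol.Fek
import Pool.Agent.Lib.MP_e3aa0a_gt.FVL.DefsCR66
import Pool.Agent.Lib.MP_e3aa0a_gt.FVL.Fan21

/-!
Project FVL (MP_e3aa0a_gt), row LIM (helper21): from the bound for a single automorphism to the
growth rate.
-/

set_option autoImplicit false

namespace Pool.Agent.Lib.MP_e3aa0a_gt.FVL.Lim21

open Filter Topology
open Pool.Agent.Lib.FVol

variable {G : Type*} [Group G]

/-- the endomorphism `θ` preserves the class of the 2-cycle `z` -/
def Pres (z : C2 G) (θ : G →* G) : Prop := ∃ b : C3 G, bd G b = push θ z - z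

theorem Pres.fil {z : C2 G} {θ : G →* G} (h : Pres z θ) :
    Fil (fill (push θ z - z) : ℝ) (push θ z - z) := by
  obtain ⟨b, hb⟩ := h
  exact fil_fill (r := (nrm b : ℝ)) ⟨b, hb, le_refl _⟩

theorem Pres.of_fil {z : C2 G} {θ : G →* G} {r : ℝ} (h : Fil r (push θ z - z)) : Pres z θ :=
  h.imp fun _ hb => hb.1

theorem fil_comp {z : C2 G} {θ θ' : G →* G} {r s : ℝ} (h : Fil r (push θ z - z))
    (h' : Fil s (push θ' z - z)) : Fil (r + s) (push (θ.comp θ') z - z) := by
  refine ((h'.push θ).add h).of_eq (by linarith) ?_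
  rw [push_sub, push_comp]
  abel

theorem push_id (z : C2 G) : push (MonoidHom.id G) z = z := by
  rw [push]
  exact Finsupp.mapDomain_id

theorem fil_hpow {z : C2 G} {φ : G →* G} {r : ℝ} (h : Fil r (push φ z - z)) (k : ℕ) :
    Fil (k * r) (push (hpow φ k) z - z) := by
  induction k with
  | zero =>
    refine Fil.zero.of_eq (by simp) ?_
    show 0 = push (MonoidHom.id G) z - z
    rw [push_id, sub_self]
  | succ k ih =>
    refine (fil_comp h ih).of_eq (by push_cast; linarith) rfl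

theorem Pres.comp {z : C2 G} {θ θ' : G →* G} (h : Pres z θ) (h' : Pres z θ') :
    Pres z (θ.comp θ') := Pres.of_fil (fil_comp h.fil h'.fil)

theorem Pres.hpow {z : C2 G} {φ : G →* G} (h : Pres z φ) (k : ℕ) : Pres z (hpow φ k) :=
  Pres.of_fil (fil_hpow h.fil k)

/-- the filling volume exists -/
theorem exists_FV {z : C2 G} {φ : G →* G} (h : Pres z φ) :
    ∃ F : ℝ, Tendsto (fun k : ℕ => (fill (push (FVol.hpow φ k) z - z) : ℝ) / k) atTop (𝓝 F) :=
  exists_limit φ z _ (fil_hpow h.fil)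

theorem inj_hpow {φ : G →* G} (h : Function.Injective φ) (k : ℕ) :
    Function.Injective (hpow φ k) := by
  induction k with
  | zero => exact fun x y hxy => hxy
  | succ k ih => exact fun x y hxy => ih (h hxy)

theorem hpow_apply (φ : G →* G) (k : ℕ) (x : G) : hpow φ k x = φ^[k] x := by
  induction k with
  | zero => rfl
  | succ k ih =>
    rw [Function.iterate_succ_apply', ← ih]
    rfl

/-- the iterates as powers in the automorphism group -/
theorem hpow_mulAut (φ : MulAut G) (k : ℕ) :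
    hpow (φ : G ≃* G).toMonoidHom k = ((φ ^ k : MulAut G) : G ≃* G).toMonoidHom := by
  induction k with
  | zero => rfl
  | succ k ih =>
    rw [pow_succ']
    show MonoidHom.comp _ (hpow (φ : G ≃* G).toMonoidHom k) = _
    rw [ih]
    rfl

section bound

variable {z : C2 G} {N : (G →* G) → ℕ} {C : ℝ} {ψ φ χ : G →* G}

/-- the bound for the endomorphisms `ψ φᵏ χ` -/
theorem bound21 (hN : ∀ θ : G →* G, Function.Injective θ → ∀ b : C3 G,
      bd G b = push θ z - z → (N θ : ℝ) ≤ C * √8 ^ nrm b)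
    (hψ : Pres z ψ) (hφ : Pres z φ) (hχ : Pres z χ) (iψ : Function.Injective ψ)
    (iφ : Function.Injective φ) (iχ : Function.Injective χ) (hC : 0 ≤ C) (k : ℕ) :
    (N (ψ.comp ((hpow φ k).comp χ)) : ℝ) ≤ C * √8 ^ (fill (push (hpow φ k) z - z) +
      (fill (push ψ z - z) + fill (push χ z - z))) := by
  obtain ⟨b, hb, hn⟩ := fil_comp hψ.fil (fil_comp (hφ.hpow k).fil hχ.fil)
  have hinj : Function.Injective (ψ.comp ((hpow φ k).comp χ)) :=
    iψ.comp ((inj_hpow iφ k).comp iχ)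
  refine (hN (ψ.comp ((hpow φ k).comp χ)) hinj b hb).trans ?_
  have h8 : (1:ℝ) ≤ √8 := by
    rw [Real.one_le_sqrt]; norm_num
  refine mul_le_mul_of_nonneg_left (pow_le_pow_right₀ h8 ?_) hC
  have h1 : (nrm b : ℝ) ≤ ((fill (push (hpow φ k) z - z) +
      (fill (push ψ z - z) + fill (push χ z - z)) : ℕ) : ℝ) := by
    push_cast
    linarith
  exact_mod_cast h1

theorem log_sqrt8 : Real.log √8 = 3 / 2 * Real.log 2 := by
  rw [Real.log_sqrt (by norm_num), show (8:ℝ) = 2 ^ 3 by norm_num, Real.log_pow]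
  push_cast
  ring

/-- the logarithmic form -/
theorem log21 (hN : ∀ θ : G →* G, Function.Injective θ → ∀ b : C3 G,
      bd G b = push θ z - z → (N θ : ℝ) ≤ C * √8 ^ nrm b)
    (hψ : Pres z ψ) (hφ : Pres z φ) (hχ : Pres z χ) (iψ : Function.Injective ψ)
    (iφ : Function.Injective φ) (iχ : Function.Injective χ) (hC : 1 ≤ C) (k : ℕ) :
    Real.log (N (ψ.comp ((hpow φ k).comp χ))) ≤ 3 / 2 * Real.log 2 *
      fill (push (hpow φ k) z - z) + (Real.log C + 3 / 2 * Real.log 2 *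
      (fill (push ψ z - z) + fill (push χ z - z))) := by
  have h := bound21 hN hψ hφ hχ iψ iφ iχ (by linarith) k
  have h0 : 0 ≤ Real.log 2 := Real.log_nonneg (by norm_num)
  have hCl : 0 ≤ Real.log C := Real.log_nonneg hC
  rcases Nat.eq_zero_or_pos (N (ψ.comp ((hpow φ k).comp χ))) with hz | hp
  · rw [hz, Nat.cast_zero, Real.log_zero]
    positivity
  · have hp' : (0:ℝ) < (N (ψ.comp ((hpow φ k).comp χ)) : ℝ) := by exact_mod_cast hp
    refine (Real.log_le_log hp' h).trans (le_of_eq ?_)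
    have h8 : (0:ℝ) < √8 := by positivity
    rw [Real.log_mul (by linarith) (pow_pos h8 _).ne', Real.log_pow, log_sqrt8]
    push_cast
    ring

/-- the growth rate is at most `(3/2) log 2` times the filling volume -/
theorem lim21 (hN : ∀ θ : G →* G, Function.Injective θ → ∀ b : C3 G,
      bd G b = push θ z - z → (N θ : ℝ) ≤ C * √8 ^ nrm b)
    (hψ : Pres z ψ) (hφ : Pres z φ) (hχ : Pres z χ) (iψ : Function.Injective ψ)
    (iφ : Function.Injective φ) (iχ : Function.Injective χ) {F : ℝ}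
    (hF : Tendsto (fun k : ℕ => (fill (push (hpow φ k) z - z) : ℝ) / k) atTop (𝓝 F)) :
    ∀ ε : ℝ, 0 < ε → ∀ᶠ k : ℕ in atTop,
      Real.log (N (ψ.comp ((hpow φ k).comp χ))) / k ≤ 3 / 2 * Real.log 2 * F + ε := by
  intro ε hε
  have hN' : ∀ θ : G →* G, Function.Injective θ → ∀ b : C3 G,
      bd G b = push θ z - z → (N θ : ℝ) ≤ max C 1 * √8 ^ nrm b := fun θ hθ b hb =>
    (hN θ hθ b hb).trans (mul_le_mul_of_nonneg_right (le_max_left _ _) (by positivity))
  set D : ℝ := Real.log (max C 1) + 3 / 2 * Real.log 2 *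
      (fill (push ψ z - z) + fill (push χ z - z)) with hD
  have hlim : Tendsto (fun k : ℕ => 3 / 2 * Real.log 2 *
      ((fill (push (hpow φ k) z - z) : ℝ) / k) + D * (1 / (k:ℝ))) atTop
      (𝓝 (3 / 2 * Real.log 2 * F + D * 0)) :=
    (hF.const_mul _).add (tendsto_one_div_atTop_nhds_zero_nat.const_mul _)
  rw [mul_zero, add_zero] at hlim
  have h1 := hlim.eventually_le_const (show 3 / 2 * Real.log 2 * F <
    3 / 2 * Real.log 2 * F + ε by linarith)
  filter_upwards [h1, eventually_ge_atTop 1] with k hk hk1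
  refine le_trans ?_ hk
  have hk0 : (0:ℝ) < k := by exact_mod_cast hk1
  have h2 := log21 hN' hψ hφ hχ iψ iφ iχ (le_max_right _ _) k
  rw [← hD] at h2
  rw [div_le_iff₀ hk0]
  refine h2.trans (le_of_eq ?_)
  field_simp

/-- if the numbers grow at least like `c μᵏ` along a subsequence then `log μ ≤ (3/2) log 2 FV` -/
theorem growth21 (hN : ∀ θ : G →* G, Function.Injective θ → ∀ b : C3 G,
      bd G b = push θ z - z → (N θ : ℝ) ≤ C * √8 ^ nrm b)
    (hψ : Pres z ψ) (hφ : Pres z φ) (hχ : Pres z χ) (iψ : Function.Injective ψ)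
    (iφ : Function.Injective φ) (iχ : Function.Injective χ) {F : ℝ}
    (hF : Tendsto (fun k : ℕ => (fill (push (hpow φ k) z - z) : ℝ) / k) atTop (𝓝 F))
    {c μ : ℝ} (hc : 0 < c) (hμ : 0 < μ)
    (hg : ∃ᶠ k : ℕ in atTop, c * μ ^ k ≤ (N (ψ.comp ((hpow φ k).comp χ)) : ℝ)) :
    Real.log μ ≤ 3 / 2 * Real.log 2 * F := by
  refine le_of_forall_pos_le_add fun ε hε => ?_
  have h1 := lim21 hN hψ hφ hχ iψ iφ iχ hF (ε / 2) (by linarith)
  have hlim : Tendsto (fun k : ℕ => Real.log c * (1 / (k:ℝ))) atTop (𝓝 (Real.log c * 0)) :=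
    tendsto_one_div_atTop_nhds_zero_nat.const_mul _
  rw [mul_zero] at hlim
  have h2 := hlim.eventually_const_le (show -(ε / 2) < 0 by linarith)
  obtain ⟨k, hk, hk1, hk2, hk3⟩ := (hg.and_eventually
    (h1.and (h2.and (eventually_ge_atTop 1)))).exists
  have hk0 : (0:ℝ) < k := by exact_mod_cast hk3
  have hpos : 0 < c * μ ^ k := by positivity
  have h3 := Real.log_le_log hpos hk
  rw [Real.log_mul hc.ne' (pow_pos hμ k).ne', Real.log_pow] at h3
  have h4 : Real.log μ = (Real.log c + k * Real.log μ) / k - Real.log c * (1 / (k:ℝ)) := by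
    field_simp
    ring
  have h5 : (Real.log c + k * Real.log μ) / k ≤
      Real.log (N (ψ.comp ((hpow φ k).comp χ))) / k := by gcongr
  rw [h4]
  linarith

/-- every limit -/
theorem tendsto21 (hN : ∀ θ : G →* G, Function.Injective θ → ∀ b : C3 G,
      bd G b = push θ z - z → (N θ : ℝ) ≤ C * √8 ^ nrm b)
    (hψ : Pres z ψ) (hφ : Pres z φ) (hχ : Pres z χ) (iψ : Function.Injective ψ)
    (iφ : Function.Injective φ) (iχ : Function.Injective χ) {F : ℝ}
    (hF : Tendsto (fun k : ℕ => (fill (push (hpow φ k) z - z) : ℝ) / k) atTop (𝓝 F)) {L : ℝ}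
    (hL : Tendsto (fun k : ℕ => Real.log (N (ψ.comp ((hpow φ k).comp χ))) / k) atTop (𝓝 L)) :
    L ≤ 3 / 2 * Real.log 2 * F := by
  refine le_of_forall_pos_le_add fun ε hε => ?_
  exact le_of_tendsto hL (lim21 hN hψ hφ hχ iψ iφ iχ hF ε hε)

/-- the limes superior -/
theorem limsup21 (hN : ∀ θ : G →* G, Function.Injective θ → ∀ b : C3 G,
      bd G b = push θ z - z → (N θ : ℝ) ≤ C * √8 ^ nrm b)
    (hψ : Pres z ψ) (hφ : Pres z φ) (hχ : Pres z χ) (iψ : Function.Injective ψ)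
    (iφ : Function.Injective φ) (iχ : Function.Injective χ) {F : ℝ}
    (hF : Tendsto (fun k : ℕ => (fill (push (hpow φ k) z - z) : ℝ) / k) atTop (𝓝 F)) :
    limsup (fun k : ℕ => Real.log (N (ψ.comp ((hpow φ k).comp χ))) / k) atTop ≤
      3 / 2 * Real.log 2 * F := by
  refine le_of_forall_pos_le_add fun ε hε => ?_
  refine limsup_le_of_le ?_ (lim21 hN hψ hφ hχ iψ iφ iχ hF ε hε)
  refine IsBoundedUnder.isCoboundedUnder_le ⟨0, ?_⟩
  refine eventually_map.2 (Eventually.of_forall fun k => ?_)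
  have : 0 ≤ Real.log (N (ψ.comp ((hpow φ k).comp χ)) : ℝ) := Real.log_natCast_nonneg _
  exact div_nonneg this (Nat.cast_nonneg _)

end bound

section surface

variable {k : ℕ}

/-- the fundamental cycle of the surface group `SG g` -/
noncomputable def z21 (g : ℕ) : C2 (SG g) := Fan21.zc fun a => PresentedGroup.of a

/-- the class of the curve `b_1` -/
def b21 (k : ℕ) : SG (k + 1) := PresentedGroup.of (Sum.inr 0)

/-- the orientation preserving automorphisms -/
def Ori (g : ℕ) (φ : MulAut (SG g)) : Prop := Pres (z21 g) (φ : SG g ≃* SG g).toMonoidHom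

/-- **The growth rate of the crossing numbers is at most `(3/2) log 2` times the filling
volume**, for all automorphisms. -/
theorem main_lim21 {C : ℝ} (hcr : ∀ θ : SG (k + 1) →* SG (k + 1), Function.Injective θ →
      ∀ b : C3 (SG (k + 1)), bd _ b = push θ (z21 (k + 1)) - z21 (k + 1) →
      (cr (θ (b21 k)) : ℝ) ≤ C * √8 ^ nrm b)
    (φ : MulAut (SG (k + 1))) (hφ : Ori (k + 1) φ) :
    ∃ F : ℝ, Tendsto (fun n : ℕ => (fill (push (hpow (φ : SG (k + 1) ≃* SG (k + 1)).toMonoidHom n)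
        (z21 (k + 1)) - z21 (k + 1)) : ℝ) / n) atTop (𝓝 F) ∧
      ∀ ψ χ : MulAut (SG (k + 1)), Ori (k + 1) ψ → Ori (k + 1) χ →
        (∀ c μ : ℝ, 0 < c → 0 < μ →
          (∃ᶠ n : ℕ in atTop, c * μ ^ n ≤ (cr ((ψ * φ ^ n * χ) (b21 k)) : ℝ)) →
          Real.log μ ≤ 3 / 2 * Real.log 2 * F) ∧
        limsup (fun n : ℕ => Real.log (cr ((ψ * φ ^ n * χ) (b21 k))) / n) atTop ≤
          3 / 2 * Real.log 2 * F := by
  obtain ⟨F, hF⟩ := exists_FV hφ
  refine ⟨F, hF, fun ψ χ hψ hχ => ?_⟩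
  have inj : ∀ φ : MulAut (SG (k + 1)),
      Function.Injective ((φ : SG (k + 1) ≃* SG (k + 1)).toMonoidHom) :=
    fun φ => (φ : SG (k + 1) ≃* SG (k + 1)).injective
  have e : ∀ n : ℕ, (ψ * φ ^ n * χ) (b21 k) =
      ((ψ : SG (k + 1) ≃* SG (k + 1)).toMonoidHom.comp
        ((hpow (φ : SG (k + 1) ≃* SG (k + 1)).toMonoidHom n).comp
        (χ : SG (k + 1) ≃* SG (k + 1)).toMonoidHom)) (b21 k) := fun n => by
    rw [hpow_mulAut]
    rfl
  constructor
  · intro c μ hc hμ h
    refine growth21 (N := fun θ => cr (θ (b21 k))) hcr hψ hφ hχ (inj ψ) (inj φ) (inj χ) hF hc hμ ?_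
    refine h.mono fun n hn => ?_
    rw [e n] at hn
    exact hn
  · have h := limsup21 (N := fun θ => cr (θ (b21 k))) hcr hψ hφ hχ (inj ψ) (inj φ) (inj χ) hF
    simp only [e]
    exact h

end surface

end Pool.Agent.Lib.MP_e3aa0a_gt.FVL.Lim21
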