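import Pool.Agent.Lib.MP_e3aa0a_gt.FVL.Trop29
import Pool.Agent.Lib.MP_e3aa0a_gt.FVL.Ex57f
import Pool.Agent.Lib.MP_e3aa0a_gt.FVL.FinR29

/-!
# FVR, module Low29: the lower bound
-/

set_option autoImplicit false

namespace Pool.Agent.Lib.MP_e3aa0a_gt.FVL

/-- **the lower bound** -/
theorem stLow29 : StLow := low43 stRep57 tropI29

end Pool.Agent.Lib.MP_e3aa0a_gt.FVL
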