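import Pool.Agent.Lib.MP_e3aa0a_gt.FVL.Asm83
import Pool.Agent.Lib.MP_e3aa0a_gt.FVL.Val32

/-!
# FVL, module MainW83: the main inequality for determinants, two base vectors
-/

set_option autoImplicit false

namespace Pool.Agent.Lib.MP_e3aa0a_gt.FVL

open Pool.Agent.Lib.FVol Matrix

/-- the base vector -/
def e72 (K : Type*) [Field K] : Fin 2 → K := ![1, 0]

/-- every non-zero vector is the first column of a matrix of determinant one -/
theorem exists_col83 {K : Type*} [Field K] (u : Fin 2 → K) (hu : u ≠ 0) :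
    ∃ γ : SpecialLinearGroup (Fin 2) K, γ.1 *ᵥ (e72 K) = u := by
  by_cases h0 : u 0 = 0
  · have h1 : u 1 ≠ 0 := by
      intro h1
      apply hu
      funext i
      fin_cases i
      · exact h0
      · exact h1
    refine ⟨⟨!![0, -(u 1)⁻¹; u 1, 0], ?_⟩, ?_⟩
    · rw [Matrix.det_fin_two_of]
      field_simp
      ring
    · funext i
      fin_cases i
      · simp [e72, Matrix.mulVec, dotProduct, Fin.sum_univ_two, h0]
      · simp [e72, Matrix.mulVec, dotProduct, Fin.sum_univ_two]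
  · refine ⟨⟨!![u 0, 0; u 1, (u 0)⁻¹], ?_⟩, ?_⟩
    · rw [Matrix.det_fin_two_of]
      field_simp
      ring
    · funext i
      fin_cases i
      · simp [e72, Matrix.mulVec, dotProduct, Fin.sum_univ_two]
      · simp [e72, Matrix.mulVec, dotProduct, Fin.sum_univ_two]

/-- the label of a mixed matrix -/
theorem lab_mix83 {K : Type*} [Field K] (e : Fin 2 → K) (γ0 γ1 M : SpecialLinearGroup (Fin 2) K) :
    lab32 e (γ0⁻¹ * M * γ1) = det32 (γ0.1 *ᵥ e) (M.1 *ᵥ (γ1.1 *ᵥ e)) := by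
  have h1 := det32_mulVec γ0 e ((γ0⁻¹ * M * γ1).1 *ᵥ e)
  have e1 : γ0 * (γ0⁻¹ * M * γ1) = M * γ1 := by group
  rw [lab32, ← h1, Matrix.mulVec_mulVec, Matrix.mulVec_mulVec,
    ← Matrix.SpecialLinearGroup.coe_mul, ← Matrix.SpecialLinearGroup.coe_mul, e1]

/-- the value of a label under all members of the family -/
def Lv83 {K : Type*} [Field K] (W : Set (K → ℝ)) (M : SpecialLinearGroup (Fin 2) K) : W → ℝ :=
  fun w => w.1 (lab32 (e72 K) M)

theorem four_of_good83 {K : Type*} [Field K] {W : Set (K → ℝ)} (hW : TRI32 K W)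
    (a b c : SpecialLinearGroup (Fin 2) K) (ha : Good32 (e72 K) a) (hb : Good32 (e72 K) b)
    (hc : Good32 (e72 K) c) (hab : Good32 (e72 K) (a * b)) (hbc : Good32 (e72 K) (b * c))
    (habc : Good32 (e72 K) (a * b * c)) : Four (Lv83 W) a b c := by
  obtain ⟨k, hk⟩ := simplex32 hW (e72 K) a b c ha hb hc hab hbc habc
  fin_cases k
  · refine Or.inr (Or.inl ?_)
    funext w
    have := hk w.1 w.2
    exact this
  · refine Or.inr (Or.inr ?_)
    funext w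
    have := hk w.1 w.2
    exact this
  · refine Or.inl ?_
    funext w
    have := hk w.1 w.2
    exact this

/-- evaluation of a value at a member of the family -/
def ev83 {K : Type*} {W : Set (K → ℝ)} (w : W) : (W → ℝ) →+ ℝ where
  toFun f := f w
  map_zero' := rfl
  map_add' _ _ := rfl

/-- (MAINW) the main inequality: base vector `u0` at the bottom, `u1` at the top -/
theorem mainW {G : Type} [Group G] {K : Type} [Field K] {W : Set (K → ℝ)} (hW : TRI32 K W)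
    (ρ : G →* SpecialLinearGroup (Fin 2) K) (u0 u1 : Fin 2 → K)
    (g0 : ∀ x, ρ x = 1 ∨ lab32 u0 (ρ x) ≠ 0) (g1 : ∀ x, ρ x = 1 ∨ lab32 u1 (ρ x) ≠ 0)
    (g01 : ∀ x, det32 u0 ((ρ x).1 *ᵥ u1) ≠ 0)
    (θ : G →* G) (z : C2 G) (hz : bd2 G z = 0) (b : C3 G)
    (hb : bd G b = push θ z - z) {κ : Type} [Fintype κ] (lab : κ → G) (Let : Finset G)
    (B : LinearMap.BilinForm ℝ (κ → ℝ))
    (hker : ∀ x, (∀ y, B x y = 0) → ∃ c : ℝ, ∀ i, x i = c)
    (hom : ∀ (Γ : Type) [Group Γ] (f : G →* Γ) (w w' : Γ → ℝ), (∀ a ∈ Let, w (f a)⁻¹ = w (f a)) →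
      (∀ a ∈ Let, w' (f a)⁻¹ = w' (f a)) →
      om w w' (pushG f z) = B (fun k => w (f (lab k))) (fun k => w' (f (lab k))))
    {m : ℕ} (f : Fin m → K → ℝ) (hf : ∀ i, f i ∈ W)
    (hli : LinearIndependent ℝ (fun i => (fun k => f i (lab32 u0 (ρ (lab k))) : κ → ℝ)))
    (hm : Fintype.card κ ≤ m + 1) (i0 : κ) (l1 l2 : K → ℝ) (hl1 : l1 ∈ W) (hl2 : l2 ∈ W)
    (z1 : ∀ k, l1 (lab32 u0 (ρ (lab k))) = 0) (z2 : ∀ k, l2 (lab32 u0 (ρ (lab k))) = 0)
    (c1 : ℝ) (hc1 : c1 ≠ 0) (t1 : ∀ k, l1 (lab32 u1 (ρ (θ (lab k)))) = c1)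
    (t2 : ∀ k, k ≠ i0 → l2 (lab32 u1 (ρ (θ (lab k)))) = 0)
    (t3 : l2 (lab32 u1 (ρ (θ (lab i0)))) ≠ 0)
    (i j : κ) (hi : i ≠ i0) (hj : j ≠ i0) (l : K → ℝ) (hl : l ∈ W) :
    |l (lab32 u1 (ρ (θ (lab i)))) - l (lab32 u1 (ρ (θ (lab j))))| ≤
      √2 * √8 ^ (nrm b + 3 * nrm z + 2 * Let.card) * ∑ k, |l (lab32 u0 (ρ (lab k)))| := by
  have h01 : det32 u0 u1 ≠ 0 := by
    have := g01 1
    rwa [map_one, Matrix.SpecialLinearGroup.coe_one, Matrix.one_mulVec] at this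
  have hu0 : u0 ≠ 0 := by
    rintro rfl
    exact h01 (by simp [det32])
  have hu1 : u1 ≠ 0 := by
    rintro rfl
    exact h01 (by simp [det32])
  obtain ⟨γ0, hγ0⟩ := exists_col83 u0 hu0
  obtain ⟨γ1, hγ1⟩ := exists_col83 u1 hu1
  set e := e72 K with he
  let ρ0 : G →* SpecialLinearGroup (Fin 2) K := (cj γ0).comp ρ
  have hρ0 : ∀ x, ρ0 x = γ0⁻¹ * ρ x * γ0 := fun x => cj_apply _ _
  let γ : SpecialLinearGroup (Fin 2) K := γ0⁻¹ * γ1
  -- labels
  have lbot : ∀ x, lab32 e (ρ0 x) = lab32 u0 (ρ x) := fun x => by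
    rw [hρ0, lab32_conj, hγ0]
  have ltop' : ∀ x, γ⁻¹ * ρ0 x * γ = γ1⁻¹ * ρ x * γ1 := fun x => by
    rw [hρ0]
    simp only [γ]
    group
  have ltop : ∀ x, lab32 e (γ⁻¹ * ρ0 x * γ) = lab32 u1 (ρ x) := fun x => by
    rw [ltop', lab32_conj, hγ1]
  have lmix' : ∀ x, ρ0 x * γ = γ0⁻¹ * ρ x * γ1 := fun x => by
    rw [hρ0]
    simp only [γ]
    group
  have lmix : ∀ x, lab32 e (ρ0 x * γ) ≠ 0 := fun x => by
    rw [lmix', lab_mix83, hγ0, hγ1]
    exact g01 x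
  have G0 : ∀ x, Good32 e (ρ0 x) := fun x => by
    rcases g0 x with h | h
    · left; rw [hρ0, h]; group
    · right; rw [lbot]; exact h
  have G1 : ∀ x, Good32 e (γ⁻¹ * ρ0 x * γ) := fun x => by
    rcases g1 x with h | h
    · left; rw [ltop', h]; group
    · right; rw [ltop]; exact h
  have Gm : ∀ x, Good32 e (ρ0 x * γ) := fun x => Or.inr (lmix x)
  have Gγ : Good32 e γ := by
    have := Gm 1
    rwa [map_one, one_mul] at this
  have hL : IsTrop ρ0 γ (Lv83 W) := by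
    refine ⟨fun g => ?_, fun a b c => ?_, fun a b => ?_, fun a b => ?_, fun a b => ?_⟩
    · funext w
      show w.1 (lab32 e g⁻¹) = w.1 (lab32 e g)
      rw [lab32_inv, (hW.1 w.1 w.2).neg]
    · refine four_of_good83 hW _ _ _ (G0 a) (G0 b) (G0 c) ?_ ?_ ?_
      · rw [← map_mul]; exact G0 _
      · rw [← map_mul]; exact G0 _
      · rw [← map_mul, ← map_mul]; exact G0 _
    · refine four_of_good83 hW _ _ _ Gγ (G1 a) (G1 b) ?_ ?_ ?_
      · have : γ * (γ⁻¹ * ρ0 a * γ) = ρ0 a * γ := by group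
        rw [this]; exact Gm a
      · have : γ⁻¹ * ρ0 a * γ * (γ⁻¹ * ρ0 b * γ) = γ⁻¹ * ρ0 (a * b) * γ := by
          rw [map_mul]; group
        rw [this]; exact G1 _
      · have : γ * (γ⁻¹ * ρ0 a * γ) * (γ⁻¹ * ρ0 b * γ) = ρ0 (a * b) * γ := by
          rw [map_mul]; group
        rw [this]; exact Gm _
    · refine four_of_good83 hW _ _ _ (G0 a) Gγ (G1 b) (Gm a) ?_ ?_
      · have : γ * (γ⁻¹ * ρ0 b * γ) = ρ0 b * γ := by group
        rw [this]; exact Gm b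
      · have : ρ0 a * γ * (γ⁻¹ * ρ0 b * γ) = ρ0 (a * b) * γ := by
          rw [map_mul]; group
        rw [this]; exact Gm _
    · refine four_of_good83 hW _ _ _ (G0 a) (G0 b) Gγ ?_ (Gm b) ?_
      · rw [← map_mul]; exact G0 _
      · rw [← map_mul]; exact Gm _
  have hmain := main83 ρ0 θ γ hL z hz b hb lab Let B hker (fun f' => hom _ f')
    (fun i => ev83 (⟨f i, hf i⟩ : W)) ?_ hm i0 (ev83 ⟨l1, hl1⟩) (ev83 ⟨l2, hl2⟩) ?_ ?_ c1 hc1
    ?_ ?_ ?_ i j hi hj (ev83 ⟨l, hl⟩)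
  · have e1 : ∀ x, ev83 (⟨l, hl⟩ : W) (Lv83 W (γ⁻¹ * ρ0 x * γ)) = l (lab32 u1 (ρ x)) :=
      fun x => by
        show l (lab32 e (γ⁻¹ * ρ0 x * γ)) = _
        rw [ltop]
    have e2 : ∀ x, ev83 (⟨l, hl⟩ : W) (Lv83 W (ρ0 x)) = l (lab32 u0 (ρ x)) := fun x => by
      show l (lab32 e (ρ0 x)) = _
      rw [lbot]
    rw [e1, e1] at hmain
    simp only [e2] at hmain
    exact hmain
  · have e3 : (fun i => (fun k => ev83 (⟨f i, hf i⟩ : W) (Lv83 W (ρ0 (lab k))) : κ → ℝ)) =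
        fun i => (fun k => f i (lab32 u0 (ρ (lab k))) : κ → ℝ) := by
      funext i k
      show f i (lab32 e (ρ0 (lab k))) = _
      rw [lbot]
    rw [e3]
    exact hli
  · intro k
    show l1 (lab32 e (ρ0 (lab k))) = 0
    rw [lbot]; exact z1 k
  · intro k
    show l2 (lab32 e (ρ0 (lab k))) = 0
    rw [lbot]; exact z2 k
  · intro k
    show l1 (lab32 e (γ⁻¹ * ρ0 (θ (lab k)) * γ)) = c1
    rw [ltop]; exact t1 k
  · intro k hk
    show l2 (lab32 e (γ⁻¹ * ρ0 (θ (lab k)) * γ)) = 0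
    rw [ltop]; exact t2 k hk
  · show l2 (lab32 e (γ⁻¹ * ρ0 (θ (lab i0)) * γ)) ≠ 0
    rw [ltop]; exact t3

end Pool.Agent.Lib.MP_e3aa0a_gt.FVL
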