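import Pool.Agent.Lib.MP_e3aa0a_gt.FVL.Let31

/-!
# FVR, module Mon31: the scalars of the two rows
-/

set_option autoImplicit false

namespace Pool.Agent.Lib.MP_e3aa0a_gt.FVL

open Pool.Agent.Lib.FVol

section monoid

variable {A C : Type*} [CommMonoid C]

/-- the product over the negative letters of a word -/
def np31 (w : A → C) (W : List (A × Bool)) : C := (W.map fun x => if x.2 then 1 else w x.1).prod

theorem np31_nil (w : A → C) : np31 w [] = 1 := rfl

theorem np31_cons (w : A → C) (x : A × Bool) (W : List (A × Bool)) :
    np31 w (x :: W) = (if x.2 then 1 else w x.1) * np31 w W := by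
  simp [np31]

theorem np31_append (w : A → C) (W W' : List (A × Bool)) :
    np31 w (W ++ W') = np31 w W * np31 w W' := by
  simp [np31]

theorem np31_mul (w w' : A → C) (W : List (A × Bool)) :
    np31 (fun a => w a * w' a) W = np31 w W * np31 w' W := by
  induction W with
  | nil => simp [np31_nil]
  | cons x W ih =>
    rw [np31_cons, np31_cons, np31_cons, ih]
    split_ifs
    · simp
    · exact mul_mul_mul_comm _ _ _ _

theorem np31_const (w : C) (W : List (A × Bool)) :
    np31 (fun _ => w) W = w ^ W.countP fun x => !x.2 := by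
  induction W with
  | nil => simp [np31_nil]
  | cons x W ih =>
    rw [np31_cons, ih, List.countP_cons]
    rcases x with ⟨b, s⟩
    cases s
    · simp [pow_succ, mul_comm]
    · simp

theorem np31_ite [DecidableEq A] (f : A) (y : C) (W : List (A × Bool)) :
    np31 (fun a => if a = f then y else 1) W = y ^ occ (f, false) W := by
  induction W with
  | nil => simp [np31_nil]
  | cons x W ih =>
    rw [np31_cons, ih, occ_cons]
    rcases x with ⟨b, s⟩
    cases s
    · by_cases hb : b = f
      · subst hb
        simp [pow_succ, mul_comm]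
      · simp [hb]
    · simp

end monoid

section group

variable {A C : Type*} [CommGroup C]

theorem np31_sq (u : A → C) (W : List (A × Bool)) :
    wpr u W * np31 (fun a => u a ^ 2) W = (W.map fun x => u x.1).prod := by
  induction W with
  | nil => simp [np31_nil]
  | cons x W ih =>
    rw [wpr_cons, np31_cons, List.map_cons, List.prod_cons, ← ih]
    rcases x with ⟨b, s⟩
    cases s
    · simp only [slab, Bool.false_eq_true, if_false]
      rw [mul_mul_mul_comm, pow_two, inv_mul_cancel_left]
    · simp only [slab, if_true, one_mul]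
      rw [mul_assoc]

/-- equal products of the rows give equal products of squares over the negative letters -/
theorem np31_rows [Fintype A] [DecidableEq A] (u : A → C) {W W' : List (A × Bool)}
    (hs : ∀ z, (occ z W : ℤ) - occ (sinv z) W = occ z W' - occ (sinv z) W')
    (h : (W.map fun x => u x.1).prod = (W'.map fun x => u x.1).prod) :
    np31 (fun a => u a ^ 2) W = np31 (fun a => u a ^ 2) W' := by
  rw [← np31_sq, ← np31_sq, wpr_rows31 u hs] at h
  exact mul_left_cancel h

end group

section field

variable {A K : Type*} [Field K]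

theorem sc31_eq_np31 (ε : A → K) (W : List (A × Bool)) :
    sc31 ε W = (np31 (fun a => -ε a) W)⁻¹ := by
  induction W with
  | nil => simp [np31_nil, sc31_nil]
  | cons x W ih =>
    rw [np31_cons, sc31_cons, ih, mul_inv]
    split_ifs
    · simp
    · rw [inv_neg]

/-- the scalar of a word, if `ε` is a square times `y` at one letter `f` -/
theorem sc31_sq [DecidableEq A] (u : A → Kˣ) (f : A) (y : K) (W : List (A × Bool)) :
    sc31 (fun a => (u a : K) ^ 2 * if a = f then y else 1) W =
      (-1) ^ (W.countP fun x => !x.2) * ((np31 (fun a => u a ^ 2) W : Kˣ) : K)⁻¹ *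
        (y ^ occ (f, false) W)⁻¹ := by
  have h1 : (fun a => -((u a : K) ^ 2 * if a = f then y else 1)) =
      fun a => (-1) * ((u a : K) ^ 2) * if a = f then y else 1 := by
    funext a
    ring
  have h2 : ((np31 (fun a => u a ^ 2) W : Kˣ) : K) = np31 (fun a => (u a : K) ^ 2) W := by
    induction W with
    | nil => simp [np31_nil]
    | cons x W ih =>
      rw [np31_cons, np31_cons, Units.val_mul, ih]
      split_ifs <;> simp
  rw [sc31_eq_np31, h1, np31_mul, np31_mul, np31_const, np31_ite, mul_inv, mul_inv, h2]
  congr 2
  rw [← inv_pow]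
  norm_num

/-- **the third equation**: `f` is negative once in the row `W` and not at all in the row `W'` -/
theorem sc_rows31 [Fintype A] [DecidableEq A] (u : A → Kˣ) (f : A) (y : K)
    {W W' : List (A × Bool)}
    (hs : ∀ z, (occ z W : ℤ) - occ (sinv z) W = occ z W' - occ (sinv z) W')
    (h : (W.map fun x => u x.1).prod = (W'.map fun x => u x.1).prod)
    (hf : occ (f, false) W = 1) (hf' : occ (f, false) W' = 0) (g g' : K) (hg' : g' ≠ 0)
    (hg : g ≠ 0)
    (hy : y = (-1) ^ ((W.countP fun x => !x.2) + W'.countP fun x => !x.2) * (g / g')) :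
    sc31 (fun a => (u a : K) ^ 2 * if a = f then y else 1) W * g =
      sc31 (fun a => (u a : K) ^ 2 * if a = f then y else 1) W' * g' := by
  rw [sc31_sq, sc31_sq, np31_rows u hs h, hf, hf']
  have h1 : ((np31 (fun a => u a ^ 2) W' : Kˣ) : K) ≠ 0 := Units.ne_zero _
  have h2 : ((-1 : K) ^ (W.countP fun x => !x.2)) ≠ 0 := pow_ne_zero _ (by norm_num)
  have h3 : ((-1 : K) ^ (W'.countP fun x => !x.2)) ≠ 0 := pow_ne_zero _ (by norm_num)
  have h4 : ((-1 : K) ^ (W'.countP fun x => !x.2)) * ((-1 : K) ^ (W'.countP fun x => !x.2)) = 1 := by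
    rw [← mul_pow]
    norm_num
  rw [pow_add] at hy
  rw [hy]
  field_simp
  linear_combination (-1 : K) * h4

end field

end Pool.Agent.Lib.MP_e3aa0a_gt.FVL
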