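import Mathlib
import Pool.Agent.Lib.MP_e3aa0a_gt.FVL.Eig66

/-!
# FVL: the labels of `a_1`, `a_1 b_1`, the eigenvector at the top
-/

set_option autoImplicit false

namespace Pool.Agent.Lib.MP_e3aa0a_gt.FVL

open Matrix

section labels

variable {F : Type*} [Field F]

/-- the label of a matrix `B D A⁻¹` -/
theorem lab_mid (u : Fin 2 → F) (A B : SpecialLinearGroup (Fin 2) F) (x : Fˣ) :
    lab32 u (B * dia x * A⁻¹)
      = (x : F) * ((A.1 1 1 * u 0 - A.1 0 1 * u 1) * (u 0 * B.1 1 0 - u 1 * B.1 0 0)) +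
        ((x⁻¹ : Fˣ) : F) *
          ((A.1 0 0 * u 1 - A.1 1 0 * u 0) * (u 0 * B.1 1 1 - u 1 * B.1 0 1)) := by
  rw [lab32, det32, vmul, vmul, vinv, dia_coe]
  simp only [Matrix.mulVec, dotProduct, Fin.sum_univ_two, Matrix.mul_apply, Matrix.of_apply,
    Matrix.cons_val', Matrix.cons_val_zero, Matrix.cons_val_one, Matrix.cons_val_fin_one]
  ring

theorem lab_eig (u : Fin 2 → F) (A : SpecialLinearGroup (Fin 2) F) (x : Fˣ)
    (h : lab32 u (A * dia x * A⁻¹) ≠ 0) :
    (A.1 1 1 * u 0 - A.1 0 1 * u 1) ≠ 0 ∧ (u 0 * A.1 1 0 - u 1 * A.1 0 0) ≠ 0 := by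
  constructor
  · intro h0
    apply h
    rw [lab_mid, h0]
    have : u 0 * A.1 1 1 - u 1 * A.1 0 1 = 0 := by linear_combination h0
    rw [this]
    ring
  · intro h0
    apply h
    rw [lab_mid, h0]
    have : A.1 0 0 * u 1 - A.1 1 0 * u 0 = 0 := by linear_combination -h0
    rw [this]
    ring

end labels

section orders

variable {K : Type*} [Field K]

theorem order_two (a b : K) (ha : a ≠ 0) :
    (HahnSeries.single (-1 : ℤ) a + HahnSeries.single (1 : ℤ) b : LaurentSeries K) ≠ 0 ∧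
    (HahnSeries.single (-1 : ℤ) a + HahnSeries.single (1 : ℤ) b : LaurentSeries K).order = -1 := by
  have h1 : (HahnSeries.single (-1 : ℤ) a : LaurentSeries K).orderTop
      < (HahnSeries.single (1 : ℤ) b : LaurentSeries K).orderTop := by
    rw [HahnSeries.orderTop_single ha]
    refine lt_of_lt_of_le ?_ HahnSeries.orderTop_single_le
    exact_mod_cast (by norm_num : (-1 : ℤ) < 1)
  have h2 := HahnSeries.orderTop_add_eq_left h1
  rw [HahnSeries.orderTop_single ha] at h2
  have h3 : (HahnSeries.single (-1 : ℤ) a + HahnSeries.single (1 : ℤ) b : LaurentSeries K) ≠ 0 := by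
    intro h0
    rw [h0, HahnSeries.orderTop_zero] at h2
    exact WithTop.top_ne_coe h2
  refine ⟨h3, ?_⟩
  rw [← HahnSeries.order_eq_orderTop_of_ne_zero h3] at h2
  exact_mod_cast h2

variable {α : Type*}

/-- the label of `B τ s A⁻¹` has order `-1` -/
theorem order_lab (R : Rep K α) (u : Fin 2 → K) (hb : lab32 u (R.rho bb) ≠ 0)
    (hc : lab32 u (R.rho (cc R.P)) ≠ 0) (s : Kˣ) :
    lab32 (fun i => (HahnSeries.C (u i) : LaurentSeries K))
      (cst R.B * dia (tau * Units.map (HahnSeries.C : K →+* LaurentSeries K) s) * (cst R.A)⁻¹) ≠ 0 ∧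
    (lab32 (fun i => (HahnSeries.C (u i) : LaurentSeries K))
      (cst R.B * dia (tau * Units.map (HahnSeries.C : K →+* LaurentSeries K) s) *
        (cst R.A)⁻¹)).order = -1 := by
  rw [R.hb] at hb
  rw [R.hc] at hc
  obtain ⟨h1, -⟩ := lab_eig u R.A R.m hb
  obtain ⟨-, h2⟩ := lab_eig u R.B R.m hc
  have e : lab32 (fun i => (HahnSeries.C (u i) : LaurentSeries K))
      (cst R.B * dia (tau * Units.map (HahnSeries.C : K →+* LaurentSeries K) s) * (cst R.A)⁻¹)
      = HahnSeries.single (-1 : ℤ) ((s : K) * ((R.A.1 1 1 * u 0 - R.A.1 0 1 * u 1) *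
          (u 0 * R.B.1 1 0 - u 1 * R.B.1 0 0))) +
        HahnSeries.single (1 : ℤ) (((s⁻¹ : Kˣ) : K) * ((R.A.1 0 0 * u 1 - R.A.1 1 0 * u 0) *
          (u 0 * R.B.1 1 1 - u 1 * R.B.1 0 1))) := by
    rw [lab_mid]
    have c0 : ∀ (M : SpecialLinearGroup (Fin 2) K) (i j : Fin 2),
        (cst M).1 i j = (HahnSeries.C (M.1 i j) : LaurentSeries K) := fun M i j => rfl
    have e1 : ((tau * Units.map (HahnSeries.C : K →+* LaurentSeries K) s :
        (LaurentSeries K)ˣ) : LaurentSeries K) = HahnSeries.single (-1 : ℤ) (s : K) := by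
      rw [Units.val_mul, tau_coe]
      change HahnSeries.single (-1 : ℤ) (1 : K) * HahnSeries.C (s : K) = _
      rw [HahnSeries.C_apply, HahnSeries.single_mul_single]
      simp
    have e2 : (((tau * Units.map (HahnSeries.C : K →+* LaurentSeries K) s)⁻¹ :
        (LaurentSeries K)ˣ) : LaurentSeries K) = HahnSeries.single (1 : ℤ) ((s⁻¹ : Kˣ) : K) := by
      rw [mul_inv, Units.val_mul, tau_inv_coe, ← map_inv]
      change HahnSeries.single (1 : ℤ) (1 : K) * HahnSeries.C ((s⁻¹ : Kˣ) : K) = _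
      rw [HahnSeries.C_apply, HahnSeries.single_mul_single]
      simp
    rw [e1, e2]
    simp only [c0]
    rw [← map_mul, ← map_mul, ← map_mul, ← map_mul, ← map_mul, ← map_mul, ← map_mul, ← map_mul,
      ← map_sub, ← map_sub, ← map_sub, ← map_sub, ← map_mul, ← map_mul, HahnSeries.C_apply,
      HahnSeries.C_apply, HahnSeries.single_mul_single, HahnSeries.single_mul_single]
    simp
  rw [e]
  exact order_two _ _ (mul_ne_zero s.ne_zero (mul_ne_zero h1 h2))

end orders

section surface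

variable {K : Type*} [Field K] {k : ℕ}

/-- the element `b_1` -/
def bG : SG (k + 1) := PresentedGroup.of (Sum.inr 0)

theorem iH_bb : (iH bb : SG (k + 1)) = bG := iH_of none

/-- the label of `a_1` has order `-1` -/
theorem lab_tG (R : Rep K (Gen k)) (hP : R.P = relW k) (u : Fin 2 → K)
    (hb : lab32 u (R.rho bb) ≠ 0) (hc : lab32 u (R.rho (cc R.P)) ≠ 0) :
    lab32 (fun i => (HahnSeries.C (u i) : LaurentSeries K)) (rhoG R hP tG) ≠ 0 ∧
    (lab32 (fun i => (HahnSeries.C (u i) : LaurentSeries K)) (rhoG R hP tG)).order = -1 := by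
  have h := order_lab R u hb hc 1
  rw [map_one, mul_one] at h
  rw [rhoG_tG]
  exact h

/-- the label of `a_1 b_1` has order `-1` -/
theorem lab_tb (R : Rep K (Gen k)) (hP : R.P = relW k) (u : Fin 2 → K)
    (hb : lab32 u (R.rho bb) ≠ 0) (hc : lab32 u (R.rho (cc R.P)) ≠ 0) :
    lab32 (fun i => (HahnSeries.C (u i) : LaurentSeries K)) (rhoG R hP (tG * bG)) ≠ 0 ∧
    (lab32 (fun i => (HahnSeries.C (u i) : LaurentSeries K)) (rhoG R hP (tG * bG))).order = -1 := by
  have h := order_lab R u hb hc R.m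
  have e : rhoG R hP (tG * bG)
      = cst R.B * dia (tau * Units.map (HahnSeries.C : K →+* LaurentSeries K) R.m) *
        (cst R.A)⁻¹ := by
    rw [map_mul, rhoG_tG, ← iH_bb, rhoG_iH, R.hb, TT, map_mul, map_mul, map_inv, cst_dia,
      ← dia_mul]
    group
  rw [e]
  exact h

/-- the eigenvector at the top and the non-degeneracy -/
theorem top66 (R : Rep K (Gen k)) (hP : R.P = relW k) (x : SG (k + 1)) (hx : 0 < cr x) :
    ∃ (ξ : Fin 2 → LaurentSeries K) (μ : LaurentSeries K), ξ ≠ 0 ∧ μ ≠ 0 ∧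
      (rhoG R hP x).1 *ᵥ ξ = μ • ξ ∧ μ.order = -(cr x : ℤ) ∧
      ∀ y : SG (k + 1), y * x ≠ x * y → lab32 ξ (rhoG R hP y) ≠ 0 := by
  obtain ⟨h1, h2⟩ := order_rhoG R hP x hx
  obtain ⟨m, hm1, hm2⟩ := eig66 _ h1 (by rw [h2]; omega)
  have hm0 : (m : LaurentSeries K) ≠ 0 := m.ne_zero
  have hmo : (m : LaurentSeries K) ^ 2 ≠ 1 := by
    intro h
    have h3 : ((m : LaurentSeries K) ^ 2).order = 2 • (m : LaurentSeries K).order :=
      HahnSeries.order_pow _ _
    rw [h, HahnSeries.order_one, hm2, h2, nsmul_eq_mul] at h3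
    push_cast at h3
    omega
  obtain ⟨A, hA⟩ := diag66 (rhoG R hP x) m hmo hm1
  refine ⟨fun i => A.1 i 0, m, ?_, hm0, ?_, by rw [hm2, h2], ?_⟩
  · intro h0
    have hd := sl_det A
    have e0 := congrFun h0 0
    have e1 := congrFun h0 1
    simp only [Pi.zero_apply] at e0 e1
    rw [e0, e1] at hd
    simp at hd
  · have h3 : (rhoG R hP x).1 * A.1 = A.1 * (dia m).1 := by
      rw [← vmul, ← vmul]
      congr 1
      rw [hA, inv_mul_cancel_right]
    funext i
    have h4 := congrFun (congrFun h3 i) 0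
    rw [dia_coe] at h4
    simp only [Matrix.mul_apply, Fin.sum_univ_two, Matrix.of_apply, Matrix.cons_val',
      Matrix.cons_val_zero, Matrix.cons_val_one, Matrix.cons_val_fin_one, mul_zero, add_zero] at h4
    simp only [Matrix.mulVec, dotProduct, Fin.sum_univ_two, Pi.smul_apply, smul_eq_mul]
    rw [h4, mul_comm]
  · intro y hy h0
    apply hy
    set M := A⁻¹ * rhoG R hP y * A with hM
    have h5 : M.1 1 0 = 0 := by
      rw [hM, vmul, vmul, vinv]
      rw [lab32, det32] at h0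
      simp only [Matrix.mulVec, dotProduct, Fin.sum_univ_two] at h0
      simp only [Matrix.mul_apply, Fin.sum_univ_two, Matrix.of_apply, Matrix.cons_val',
        Matrix.cons_val_zero, Matrix.cons_val_one, Matrix.cons_val_fin_one]
      linear_combination h0
    have h6 : rhoG R hP (y * x * y⁻¹ * x⁻¹) = A * (M * dia m * M⁻¹ * (dia m)⁻¹) * A⁻¹ := by
      rw [map_mul, map_mul, map_mul, map_inv, map_inv, hM]
      rw [hA]
      group
    have h7 : y * x * y⁻¹ * x⁻¹ = 1 := by
      by_contra hne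
      apply N_G R hP _ hne
      rw [h6, tr_conj, tr_comm M m (Or.inr h5)]
      norm_num
    rw [mul_inv_eq_one, mul_inv_eq_iff_eq_mul] at h7
    exact h7

end surface

end Pool.Agent.Lib.MP_e3aa0a_gt.FVL
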