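import Pool.Agent.Lib.MP_e3aa0a_gt.FVL.SGinst21
import Pool.Agent.Lib.MP_e3aa0a_gt.FVL.Top66

/-!
# FVL: the labels of the fan triangulation do not commute with `b_1`
-/

set_option autoImplicit false

namespace Pool.Agent.Lib.MP_e3aa0a_gt.FVL.NC66

open Pool.Agent.Lib.FVol
open Ker21 (Lab)
open Fan21 Lim21 SGinst21
open scoped commutatorElement

variable {g : ℕ} {Q : Type*} [Group Q]

theorem lift_relW (f : Gen g → Q) : FreeGroup.lift f (relW g) = pref f (4 * g) := by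
  rw [pref_top, wpr_rel, relW, map_list_prod, List.map_ofFn]
  congr 2
  funext i
  simp [cm, commutatorElement_def]

/-- a homomorphism from the surface group -/
def hm (f : Gen g → Q) (h : pref f (4 * g) = 1) : SG g →* Q :=
  PresentedGroup.toGroup (f := f) (by
    intro r hr
    rw [Set.mem_singleton_iff.1 hr, lift_relW, h])

theorem hm_of (f : Gen g → Q) (h : pref f (4 * g) = 1) (a : Gen g) :
    hm f h (PresentedGroup.of a) = f a := PresentedGroup.toGroup.of _

theorem hm_pref (f : Gen g → Q) (h : pref f (4 * g) = 1) (j : ℕ) :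
    hm f h (pref (u21 g) j) = pref f j := by
  rw [← pref_map]
  congr 1
  funext a
  exact hm_of f h a

/-- the prefixes when all commutators are trivial -/
theorem pref_one (f : Gen g → Q) (h : ∀ l : Fin g, ⁅f (Sum.inl l), f (Sum.inr l)⁆ = 1) :
    ∀ j, j ≤ g → pref f (4 * j) = 1 := by
  intro j
  induction j with
  | zero => intro _; rw [Nat.mul_zero, pref_zero]
  | succ j ih =>
    intro hj
    have h4 := pref4 f ⟨j, hj⟩
    simp only at h4
    rw [show 4 * (j + 1) = 4 * j + 4 by ring, h4, ih (by omega), h, one_mul]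

/-- the prefixes when two consecutive commutators are inverse to each other -/
theorem pref_two (f : Gen g → Q) (i : ℕ) (c : Q)
    (h1 : ∀ l : Fin g, l.1 = i → ⁅f (Sum.inl l), f (Sum.inr l)⁆ = c)
    (h2 : ∀ l : Fin g, l.1 = i + 1 → ⁅f (Sum.inl l), f (Sum.inr l)⁆ = c⁻¹)
    (h3 : ∀ l : Fin g, l.1 ≠ i → l.1 ≠ i + 1 → ⁅f (Sum.inl l), f (Sum.inr l)⁆ = 1) :
    ∀ j, j ≤ g → pref f (4 * j) = if j = i + 1 then c else 1 := by
  intro j
  induction j with
  | zero =>
    intro _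
    rw [Nat.mul_zero, pref_zero, if_neg (by omega)]
  | succ j ih =>
    intro hj
    have h4 := pref4 f ⟨j, hj⟩
    simp only at h4
    rw [show 4 * (j + 1) = 4 * j + 4 by ring, h4, ih (by omega)]
    by_cases e1 : j = i
    · rw [h1 ⟨j, hj⟩ e1, if_neg (by omega), if_pos (by omega), one_mul]
    · by_cases e2 : j = i + 1
      · rw [h2 ⟨j, hj⟩ e2, if_pos e2, if_neg (by omega), mul_inv_cancel]
      · rw [h3 ⟨j, hj⟩ e1 e2, if_neg e2, if_neg (by omega), one_mul]

/-- the free group on three letters -/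
abbrev F3 : Type := FreeGroup (Fin 3)

/-- `x` -/
def X3 : F3 := FreeGroup.of 0
/-- `y` -/
def Y3 : F3 := FreeGroup.of 1
/-- `z` -/
def Z3 : F3 := FreeGroup.of 2

/-- `a_i ↦ x`, `b_0 ↦ y` -/
def fa (g i : ℕ) : Gen g → F3
  | Sum.inl l => if l.1 = i then X3 else 1
  | Sum.inr l => if l.1 = 0 then Y3 else 1

/-- `b_i ↦ x`, `b_0 ↦ y` -/
def fb (g i : ℕ) : Gen g → F3
  | Sum.inl _ => 1
  | Sum.inr l => if l.1 = i then X3 else if l.1 = 0 then Y3 else 1

/-- `a_i ↦ x`, `b_i ↦ z`, `a_(i+1) ↦ z`, `b_(i+1) ↦ x`, `b_0 ↦ y` -/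
def fc (g i : ℕ) (z : F3) : Gen g → F3
  | Sum.inl l => if l.1 = i then X3 else if l.1 = i + 1 then z else 1
  | Sum.inr l => if l.1 = i then z else if l.1 = i + 1 then X3 else if l.1 = 0 then Y3 else 1

theorem fa_pref (i : ℕ) (hi : i ≠ 0) : ∀ j, j ≤ g → pref (fa g i) (4 * j) = 1 := by
  apply pref_one
  intro l
  by_cases h1 : l.1 = i
  · have h2 : ¬ l.1 = 0 := by omega
    simp only [fa, if_neg h2, commutatorElement_one_right]
  · simp only [fa, if_neg h1, commutatorElement_one_left]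

theorem fb_pref (i : ℕ) : ∀ j, j ≤ g → pref (fb g i) (4 * j) = 1 := by
  apply pref_one
  intro l
  simp only [fb, commutatorElement_one_left]

theorem fc_pref (i : ℕ) (z : F3) : ∀ j, j ≤ g →
    pref (fc g i z) (4 * j) = if j = i + 1 then ⁅X3, z⁆ else 1 := by
  apply pref_two
  · intro l hl
    simp [fc, hl]
  · intro l hl
    simp [fc, hl, commutatorElement_inv]
  · intro l h1 h2
    simp [fc, h1, h2]

theorem not_comm {x y : SG g} (f : SG g →* F3) (h : f x * f y ≠ f y * f x) : x * y ≠ y * x := by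
  intro h0
  apply h
  rw [← map_mul, ← map_mul, h0]

theorem d1 : X3 * Y3 ≠ Y3 * X3 := by decide
theorem d2 : (X3 * Y3) * Y3 ≠ Y3 * (X3 * Y3) := by decide
theorem d3 : (X3 * Y3 * X3⁻¹) * Y3 ≠ Y3 * (X3 * Y3 * X3⁻¹) := by decide
theorem d4 : ⁅X3, Y3⁆ * Y3 ≠ Y3 * ⁅X3, Y3⁆ := by decide
theorem d5 : ⁅X3, Z3⁆ * Y3 ≠ Y3 * ⁅X3, Z3⁆ := by decide

variable {k : ℕ}

/-- the homomorphism of `fa` -/
def ha (k i : ℕ) (hi : i ≠ 0) : SG (k + 1) →* F3 := hm (fa (k + 1) i) (fa_pref i hi _ le_rfl)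

/-- the homomorphism of `fb` -/
def hb (k i : ℕ) : SG (k + 1) →* F3 := hm (fb (k + 1) i) (fb_pref i _ le_rfl)

/-- the homomorphism of `fc` -/
def hc (k i : ℕ) (z : F3) (hi : i + 1 ≤ k) : SG (k + 1) →* F3 :=
  hm (fc (k + 1) i z) (by rw [fc_pref i z _ le_rfl, if_neg (by omega)])

theorem ha_b (i : ℕ) (hi : i ≠ 0) : ha k i hi (b21 k) = Y3 := by
  refine (hm_of _ _ _).trans ?_
  simp [fa]

theorem hb_b (i : ℕ) (hi : i ≠ 0) : hb k i (b21 k) = Y3 := by
  refine (hm_of _ _ _).trans ?_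
  simp [fb, Ne.symm hi]

theorem hc_b (i : ℕ) (z : F3) (hi : i + 1 ≤ k) (hz : i = 0 → z = Y3) :
    hc k i z hi (b21 k) = Y3 := by
  refine (hm_of _ _ _).trans ?_
  rcases Nat.eq_zero_or_pos i with h | h
  · subst h
    simp [fc, hz rfl]
  · simp [fc, (show ¬ (0 : ℕ) = i by omega)]

theorem ha_pref (i : ℕ) (hi : i ≠ 0) (j : ℕ) :
    ha k i hi (pref (u21 (k + 1)) j) = pref (fa (k + 1) i) j := hm_pref _ _ _

theorem hb_pref (i : ℕ) (j : ℕ) :
    hb k i (pref (u21 (k + 1)) j) = pref (fb (k + 1) i) j := hm_pref _ _ _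

theorem hc_pref (i : ℕ) (z : F3) (hi : i + 1 ≤ k) (j : ℕ) :
    hc k i z hi (pref (u21 (k + 1)) j) = pref (fc (k + 1) i z) j := hm_pref _ _ _

/-- the prefixes of the relator do not commute with `b_1` -/
theorem nc_pref (hk : 1 ≤ k) (n : ℕ) (h2 : 2 ≤ n) (hn : n ≤ 4 * k + 2) :
    pref (u21 (k + 1)) n * b21 k ≠ b21 k * pref (u21 (k + 1)) n := by
  obtain ⟨i, r, hr, rfl⟩ : ∃ i r, r < 4 ∧ n = 4 * i + (r + 1) :=
    ⟨(n - 1) / 4, (n - 1) % 4, Nat.mod_lt _ (by norm_num), by omega⟩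
  have hig : i < k + 1 := by omega
  rcases Nat.eq_zero_or_pos i with h0 | h0
  · subst h0
    have p0 : pref (fc (k + 1) 0 Y3) (4 * 0) = 1 := by
      rw [Nat.mul_zero, pref_zero]
    have e1 := pref1 (fc (k + 1) 0 Y3) ⟨0, hig⟩
    have e2 := pref2 (fc (k + 1) 0 Y3) ⟨0, hig⟩
    have e3 := pref3 (fc (k + 1) 0 Y3) ⟨0, hig⟩
    have e4 := pref4 (fc (k + 1) 0 Y3) ⟨0, hig⟩
    simp only [p0, one_mul] at e1 e2 e3 e4
    have f1 : fc (k + 1) 0 Y3 (Sum.inl ⟨0, hig⟩) = X3 := by simp [fc]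
    have f2 : fc (k + 1) 0 Y3 (Sum.inr ⟨0, hig⟩) = Y3 := by simp [fc]
    rw [f1, f2] at e2 e3 e4
    refine not_comm (hc k 0 Y3 (by omega)) ?_
    rw [hc_b 0 Y3 (by omega) (fun _ => rfl), hc_pref]
    interval_cases r
    · omega
    · rw [show 4 * 0 + (1 + 1) = 4 * 0 + 2 by norm_num, e2]; exact d2
    · rw [show 4 * 0 + (2 + 1) = 4 * 0 + 3 by norm_num, e3]; exact d3
    · rw [show 4 * 0 + (3 + 1) = 4 * 0 + 4 by norm_num, e4]; exact d4
  · have hi0 : i ≠ 0 := by omega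
    have pa : pref (fa (k + 1) i) (4 * i) = 1 := fa_pref i hi0 i (by omega)
    have pb : pref (fb (k + 1) i) (4 * i) = 1 := fb_pref i i (by omega)
    interval_cases r
    · refine not_comm (ha k i hi0) ?_
      rw [ha_b, ha_pref]
      have e1 := pref1 (fa (k + 1) i) ⟨i, hig⟩
      simp only [pa, one_mul] at e1
      have f1 : fa (k + 1) i (Sum.inl ⟨i, hig⟩) = X3 := by simp [fa]
      rw [show 4 * i + (0 + 1) = 4 * i + 1 by ring, e1, f1]
      exact d1
    · refine not_comm (ha k i hi0) ?_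
      rw [ha_b, ha_pref]
      have e1 := pref2 (fa (k + 1) i) ⟨i, hig⟩
      simp only [pa, one_mul] at e1
      have f1 : fa (k + 1) i (Sum.inl ⟨i, hig⟩) = X3 := by simp [fa]
      have f2 : fa (k + 1) i (Sum.inr ⟨i, hig⟩) = 1 := by simp [fa, hi0]
      rw [show 4 * i + (1 + 1) = 4 * i + 2 by ring, e1, f1, f2, mul_one]
      exact d1
    · refine not_comm (hb k i) ?_
      rw [hb_b i hi0, hb_pref]
      have e1 := pref3 (fb (k + 1) i) ⟨i, hig⟩
      simp only [pb, one_mul] at e1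
      have f1 : fb (k + 1) i (Sum.inl ⟨i, hig⟩) = 1 := by simp [fb]
      have f2 : fb (k + 1) i (Sum.inr ⟨i, hig⟩) = X3 := by simp [fb]
      rw [show 4 * i + (2 + 1) = 4 * i + 3 by ring, e1, f1, f2, one_mul, inv_one, mul_one]
      exact d1
    · refine not_comm (hc k i Z3 (by omega)) ?_
      rw [hc_b i Z3 (by omega) (fun h => absurd h hi0), hc_pref]
      have e1 := fc_pref (g := k + 1) i Z3 (i + 1) (by omega)
      rw [if_pos rfl] at e1
      rw [show 4 * i + (3 + 1) = 4 * (i + 1) by ring, e1]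
      exact d5

/-- no label other than `b_1` commutes with `b_1` -/
theorem nc66 (hk : 1 ≤ k) (l : Lab (k + 1)) (hl : l ≠ kb (Nat.succ_pos k)) :
    lab21 (k + 1) l * b21 k ≠ b21 k * lab21 (k + 1) l := by
  rcases l with i | i | j
  · rcases Nat.eq_zero_or_pos i.1 with h0 | h0
    · refine not_comm (hc k 0 Y3 (by omega)) ?_
      rw [hc_b 0 Y3 (by omega) (fun _ => rfl), lab21_inl]
      have : hc k 0 Y3 (by omega) (PresentedGroup.of (Sum.inl i)) = X3 := by
        refine (hm_of _ _ _).trans ?_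
        simp [fc, h0]
      rw [this]
      exact d1
    · refine not_comm (ha k i.1 (by omega)) ?_
      rw [ha_b, lab21_inl]
      have : ha k i.1 (by omega) (PresentedGroup.of (Sum.inl i)) = X3 := by
        refine (hm_of _ _ _).trans ?_
        simp [fa]
      rw [this]
      exact d1
  · have h0 : i.1 ≠ 0 := by
      intro h
      apply hl
      unfold kb
      congr 2
      exact Fin.ext h
    refine not_comm (hb k i.1) ?_
    rw [hb_b i.1 h0, lab21_inr]
    have : hb k i.1 (PresentedGroup.of (Sum.inr i)) = X3 := by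
      refine (hm_of _ _ _).trans ?_
      simp [fb]
    rw [this]
    exact d1
  · rw [lab21_pref]
    exact nc_pref hk _ (by omega) (by omega)

end Pool.Agent.Lib.MP_e3aa0a_gt.FVL.NC66
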