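import Pool.Agent.Lib.MP_e3aa0a_gt.FVL.Defs29
import Pool.Agent.Lib.MP_e3aa0a_gt.FVL.Mon31

/-!
# FVR, module Nv31: the values of the words in the letters
-/

set_option autoImplicit false

namespace Pool.Agent.Lib.MP_e3aa0a_gt.FVL

open Pool.Agent.Lib.FVol HahnSeries

theorem intDegree_prod31 {L : List (RatFunc ℚ)} (h : ∀ x ∈ L, x ≠ 0) :
    L.prod ≠ 0 ∧ L.prod.intDegree = (L.map RatFunc.intDegree).sum := by
  induction L with
  | nil => simp
  | cons x L ih =>
    obtain ⟨h1, h2⟩ := ih fun y hy => h y (by simp [hy])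
    have hx := h x (by simp)
    rw [List.prod_cons, List.map_cons, List.sum_cons]
    exact ⟨mul_ne_zero hx h1, by rw [RatFunc.intDegree_mul hx h1, h2]⟩

theorem intDegree_sq31 {x : RatFunc ℚ} (hx : x ≠ 0) : (x ^ 2).intDegree = 2 * x.intDegree := by
  rw [pow_two, RatFunc.intDegree_mul hx hx]
  ring

/-- **values of the words** -/
theorem nv2_31 {A : Type} {α : A × Bool → K29} {ε : A → K29} {hε : ∀ a, ε a ≠ 0} {c : ℝ}
    (hc : 0 < c) {W : List (A × Bool)} (lam : A → ℝ) (l : A → ℤ)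
    (h : Li31 c (W.map (lt31 α ε))) (hW : W ≠ []) (h1 : ∀ x ∈ W, (ε x.1).order = 2 * lam x.1)
    (h2 : ∀ x ∈ W, (ε x.1).leadingCoeff.intDegree = -(2 * l x.1)) {a : RatFunc ℚ}
    (ha : Cg57 c (kp31 (W.map (lt31 α ε))) (C a)) (ha0 : a.intDegree = 0) :
    NV2 1 (wpr (fm31 α ε hε) W) (wlen lam W) (wlen l W) := by
  obtain ⟨h3, h4⟩ := val_wpr31 (hε := hε) hc h hW
  obtain ⟨h5, h6⟩ := lead_wpr31 (hε := hε) hc h hW ha
  have hdd : dd 1 (wpr (fm31 α ε hε) W) = (wpr (fm31 α ε hε) W) 1 0 := by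
    simp [dd]
  have hdt1 : dt (1 : G29) = 1 := by simp [dt]
  have h7 : (W.map fun x => (ε x.1).order).sum = 2 * wlen lam W := by
    rw [wlen]
    clear hW h h3 h4 h5 h6 ha hdd h2
    induction W with
    | nil => simp
    | cons x W ih =>
      rw [List.map_cons, List.map_cons, List.sum_cons, List.sum_cons,
        ih fun y hy => h1 y (by simp [hy]), h1 x (by simp)]
      ring
  have h8 : (W.map fun x => (ε x.1).leadingCoeff).prod ≠ 0 ∧
      (W.map fun x => (ε x.1).leadingCoeff).prod.intDegree = -(2 * wlen l W) := by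
    obtain ⟨e1, e2⟩ := intDegree_prod31 (L := W.map fun x => (ε x.1).leadingCoeff) (by
      intro x hx
      obtain ⟨y, _, rfl⟩ := List.mem_map.1 hx
      exact leadingCoeff_ne_zero.2 (hε _))
    refine ⟨e1, e2.trans ?_⟩
    rw [List.map_map, wlen]
    clear hW h h3 h4 h5 h6 ha hdd h1 h7 e1 e2
    induction W with
    | nil => simp
    | cons x W ih =>
      rw [List.map_cons, List.map_cons, List.sum_cons, List.sum_cons,
        ih fun y hy => h2 y (by simp [hy])]
      have := h2 x (by simp)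
      rw [Function.comp_apply, this]
      ring
  refine ⟨⟨?_, ?_⟩, ?_⟩
  · rw [hdd]
    exact h3
  · rw [hdd, hdt1, order_one, dt]
    rw [h7] at h4
    linarith
  · rw [hdd, hdt1, leadingCoeff_one, RatFunc.intDegree_one, dt]
    have h9 : ((wpr (fm31 α ε hε) W : G29) 1 0).leadingCoeff ≠ 0 := leadingCoeff_ne_zero.2 h3
    have h10 : ((wpr (fm31 α ε hε) W : G29) : Matrix (Fin 2) (Fin 2) K29).det.leadingCoeff ≠ 0 := by
      rw [leadingCoeff_ne_zero, det_wpr31]
      refine mul_ne_zero (pow_ne_zero _ (sc31_ne hε W)) ?_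
      refine (order_list_prod31 ?_).1
      intro x hx
      obtain ⟨y, _, rfl⟩ := List.mem_map.1 hx
      exact hε _
    have h11 := congrArg RatFunc.intDegree h6
    rw [RatFunc.intDegree_mul (pow_ne_zero _ h9) h8.1, RatFunc.intDegree_mul h10
      (pow_ne_zero _ h5), intDegree_sq31 h9, intDegree_sq31 h5, h8.2, ha0] at h11
    linarith

end Pool.Agent.Lib.MP_e3aa0a_gt.FVL
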