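import Pool.Agent.Lib.MP_e3aa0a_gt.FVL.Trop32

/-!
# FVL, module TropG32: an ultrametric tropical label function on `GL₂(K)`
-/

set_option autoImplicit false

namespace Pool.Agent.Lib.MP_e3aa0a_gt.FVL

open Matrix HahnSeries

/-! ### the maximum is attained twice -/

/-- the maximum of the three elements is attained at least twice -/
def Mx32 {M : Type*} [LinearOrder M] (A B C : M) : Prop :=
  (A = B ∧ C ≤ A) ∨ (B = C ∧ A ≤ B) ∨ (C = A ∧ B ≤ C)

section mx

variable {M : Type*} [LinearOrder M] {A B C : M}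

theorem Mx32.rot (h : Mx32 A B C) : Mx32 B C A := by
  rcases h with h | h | h
  · exact Or.inr (Or.inr h)
  · exact Or.inl h
  · exact Or.inr (Or.inl h)

theorem Mx32.max1 (h : Mx32 A B C) (hne : A ≠ B) : C = max A B := by
  rcases h with ⟨h, -⟩ | ⟨h, h'⟩ | ⟨h, h'⟩
  · exact absurd h hne
  · rw [max_eq_right h', h]
  · rw [h, max_eq_left (h ▸ h')]

theorem Mx32.max2 (h : Mx32 A B C) (hne : A ≠ C) : B = max A C := by
  have := h.rot.rot.max1 hne.symm
  rw [this, max_comm]

theorem Mx32.max3 (h : Mx32 A B C) (hne : B ≠ C) : A = max B C := h.rot.max1 hne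

theorem Mx32.two (h : Mx32 A B C) : A = B ∨ B = C ∨ C = A := by
  rcases h with h | h | h
  · exact Or.inl h.1
  · exact Or.inr (Or.inl h.1)
  · exact Or.inr (Or.inr h.1)

theorem Mx32.map {N : Type*} [LinearOrder N] {f : M → N} (hf : Monotone f) (h : Mx32 A B C) :
    Mx32 (f A) (f B) (f C) := by
  rcases h with ⟨h, h'⟩ | ⟨h, h'⟩ | ⟨h, h'⟩
  · exact Or.inl ⟨by rw [h], hf h'⟩
  · exact Or.inr (Or.inl ⟨by rw [h], hf h'⟩)
  · exact Or.inr (Or.inr ⟨by rw [h], hf h'⟩)

end mx

/-! ### sizes -/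

/-- a size on a field: additive on products, and the maximum of the sizes of `x + y + z = 0` is
attained twice -/
structure Siz32 {K M : Type*} [Field K] [AddCommGroup M] [LinearOrder M] (v : K → M) : Prop where
  mul : ∀ x y : K, x ≠ 0 → y ≠ 0 → v (x * y) = v x + v y
  mx : ∀ x y z : K, x ≠ 0 → y ≠ 0 → z ≠ 0 → x + y + z = 0 → Mx32 (v x) (v y) (v z)

section siz

variable {K M : Type*} [Field K] [AddCommGroup M] [LinearOrder M] [IsOrderedAddMonoid M]
  {v : K → M}

omit [IsOrderedAddMonoid M] in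
theorem Siz32.one (h : Siz32 v) : v 1 = 0 := by
  have := h.mul 1 1 one_ne_zero one_ne_zero
  rw [mul_one] at this
  exact left_eq_add.1 this

theorem Siz32.neg_one (h : Siz32 v) : v (-1) = 0 := by
  have h1 := h.mul (-1) (-1) (neg_ne_zero.2 one_ne_zero) (neg_ne_zero.2 one_ne_zero)
  rw [neg_mul_neg, mul_one, h.one] at h1
  rcases lt_trichotomy (v (-1)) 0 with h2 | h2 | h2
  · exact absurd h1 (add_neg h2 h2).ne'
  · exact h2
  · exact absurd h1 (add_pos h2 h2).ne

theorem Siz32.neg (h : Siz32 v) {x : K} (hx : x ≠ 0) : v (-x) = v x := by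
  have h1 := h.mul (-1) x (neg_ne_zero.2 one_ne_zero) hx
  rw [h.neg_one, zero_add, neg_one_mul] at h1
  exact h1

omit [IsOrderedAddMonoid M] in
theorem Siz32.inv (h : Siz32 v) {x : K} (hx : x ≠ 0) : v x⁻¹ = - v x := by
  have h1 := h.mul x x⁻¹ hx (inv_ne_zero hx)
  rw [mul_inv_cancel₀ hx, h.one] at h1
  exact (neg_eq_of_add_eq_zero_right h1.symm).symm

end siz

section hahn

variable {Γ : Type*} [AddCommGroup Γ] [LinearOrder Γ] [IsOrderedAddMonoid Γ]
variable {K M : Type*} [Field K] [AddCommGroup M] [LinearOrder M] [IsOrderedAddMonoid M]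

private theorem lcp {x y z : HahnSeries Γ K} (hs : x + y + z = 0)
    (hxy : x.order = y.order) (hxz : x.order < z.order) :
    x.leadingCoeff + y.leadingCoeff = 0 := by
  rw [leadingCoeff_eq, leadingCoeff_eq, ← hxy]
  have h1 := congrArg (fun s : HahnSeries Γ K => s.coeff x.order) hs
  simp only [coeff_add, coeff_zero, coeff_eq_zero_of_lt_order hxz, add_zero] at h1
  exact h1

private theorem lcs {x y z : HahnSeries Γ K} (hx : x ≠ 0) (hs : x + y + z = 0)
    (hxy : x.order < y.order) (hxz : x.order < z.order) : False := by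
  have h1 := congrArg (fun s : HahnSeries Γ K => s.coeff x.order) hs
  simp only [coeff_add, coeff_zero, coeff_eq_zero_of_lt_order hxz,
    coeff_eq_zero_of_lt_order hxy, add_zero] at h1
  exact hx (coeff_order_eq_zero.1 h1)

/-- the size of a Hahn series: minus the order, then the size of the leading coefficient -/
noncomputable def hs32 (v : K → M) (x : HahnSeries Γ K) : Γ ×ₗ M :=
  toLex (-x.order, v x.leadingCoeff)

theorem hs32_le {v : K → M} {x y : HahnSeries Γ K} (h : y.order < x.order) :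
    hs32 v x ≤ hs32 v y := by
  rw [hs32, hs32, Prod.Lex.le_iff]
  exact Or.inl (neg_lt_neg h)

theorem siz_hahn32 {v : K → M} (h : Siz32 v) : Siz32 (hs32 (Γ := Γ) v) := by
  constructor
  · intro x y hx hy
    rw [hs32, leadingCoeff_mul, h.mul _ _ (leadingCoeff_ne_zero.2 hx) (leadingCoeff_ne_zero.2 hy),
      order_mul hx hy, neg_add]
    rfl
  · intro x y z hx hy hz hs
    have hs2 : y + z + x = 0 := by rw [← hs]; abel
    have hs3 : z + x + y = 0 := by rw [← hs]; abel
    have pair : ∀ {x y z : HahnSeries Γ K}, x ≠ 0 → x + y + z = 0 → x.order = y.order →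
        x.order < z.order → hs32 v x = hs32 v y ∧ hs32 v z ≤ hs32 v x := by
      intro x y z hx hs hxy hxz
      have h1 := lcp hs hxy hxz
      have h2 : y.leadingCoeff = - x.leadingCoeff := (neg_eq_of_add_eq_zero_right h1).symm
      refine ⟨?_, hs32_le hxz⟩
      rw [hs32, hs32, h2, h.neg (leadingCoeff_ne_zero.2 hx), hxy]
    rcases lt_trichotomy x.order y.order with h1 | h1 | h1
    · right; right
      rcases lt_trichotomy z.order x.order with h2 | h2 | h2
      · exact (lcs hz hs3 h2 (h2.trans h1)).elim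
      · obtain ⟨h3, h4⟩ := pair hz hs3 h2 (h2 ▸ h1)
        exact ⟨h3, h4⟩
      · exact (lcs hx hs h1 h2).elim
    · rcases lt_trichotomy x.order z.order with h2 | h2 | h2
      · exact Or.inl (pair hx hs h1 h2)
      · have hl : x.leadingCoeff + y.leadingCoeff + z.leadingCoeff = 0 := by
          rw [leadingCoeff_eq, leadingCoeff_eq, leadingCoeff_eq, ← h1, ← h2]
          have h3 := congrArg (fun s : HahnSeries Γ K => s.coeff x.order) hs
          simpa only [coeff_add, coeff_zero] using h3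
        have h3 := h.mx _ _ _ (leadingCoeff_ne_zero.2 hx) (leadingCoeff_ne_zero.2 hy)
          (leadingCoeff_ne_zero.2 hz) hl
        have h4 := h3.map (f := fun m => (toLex (-x.order, m) : Γ ×ₗ M)) (by
          intro a b hab
          rw [Prod.Lex.le_iff]
          exact Or.inr ⟨rfl, hab⟩)
        have ey : hs32 v y = toLex (-x.order, v y.leadingCoeff) := by rw [hs32, h1]
        have ez : hs32 v z = toLex (-x.order, v z.leadingCoeff) := by rw [hs32, h2]
        rw [ey, ez]
        exact h4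
      · exact (lcs hz hs3 h2 (h1 ▸ h2)).elim
    · rcases lt_trichotomy y.order z.order with h2 | h2 | h2
      · exact (lcs hy hs2 h2 h1).elim
      · obtain ⟨h3, h4⟩ := pair hy hs2 h2 h1
        exact Or.inr (Or.inl ⟨h3, h4⟩)
      · exact (lcs hz hs3 (h2.trans h1) h2).elim

theorem siz_ord32 {F : Type*} [Field F] : Siz32 (fun x : HahnSeries Γ F => -x.order) := by
  constructor
  · intro x y hx hy
    rw [order_mul hx hy, neg_add]
  · intro x y z hx hy hz hs
    have hs2 : y + z + x = 0 := by rw [← hs]; abel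
    have hs3 : z + x + y = 0 := by rw [← hs]; abel
    rcases lt_trichotomy x.order y.order with h1 | h1 | h1
    · right; right
      rcases lt_trichotomy z.order x.order with h2 | h2 | h2
      · exact (lcs hz hs3 h2 (h2.trans h1)).elim
      · exact ⟨by rw [h2], by rw [h2]; exact neg_le_neg h1.le⟩
      · exact (lcs hx hs h1 h2).elim
    · rcases le_or_gt x.order z.order with h2 | h2
      · exact Or.inl ⟨by rw [h1], neg_le_neg h2⟩
      · exact (lcs hz hs3 h2 (h1 ▸ h2)).elim
    · rcases lt_trichotomy y.order z.order with h2 | h2 | h2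
      · exact (lcs hy hs2 h2 h1).elim
      · exact Or.inr (Or.inl ⟨by rw [h2], neg_le_neg h1.le⟩)
      · exact (lcs hz hs3 (h2.trans h1) h2).elim

end hahn

/-! ### labels of matrices in `GL₂` -/

section gl

variable {K : Type*} [Field K]

/-- the label of a matrix at the base vector `u` -/
def labG32 (u : Fin 2 → K) (g : GL (Fin 2) K) : K := det32 u (g.1 *ᵥ u)

theorem labG32_e1 (g : GL (Fin 2) K) : labG32 ![1, 0] g = g.1 1 0 := by
  simp [labG32, det32, Matrix.mulVec, dotProduct, Fin.sum_univ_two]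

theorem labG_pl32 (u : Fin 2 → K) (a b c : GL (Fin 2) K) :
    labG32 u a * labG32 u c * b.1.det - labG32 u (a * b) * labG32 u (b * c) +
      labG32 u (a * b * c) * labG32 u b = 0 := by
  simp only [labG32, det32, Units.val_mul, Matrix.mulVec, dotProduct, Fin.sum_univ_two,
    Matrix.mul_apply, Matrix.det_fin_two]
  ring

theorem det_ne32 (g : GL (Fin 2) K) : g.1.det ≠ 0 := by
  have h := congrArg Matrix.det (Units.mul_inv g)
  rw [Matrix.det_mul, Matrix.det_one] at h
  exact left_ne_zero_of_mul_eq_one h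

theorem det_inv32 (g : GL (Fin 2) K) : (g⁻¹).1.det = (g.1.det)⁻¹ := by
  have h := congrArg Matrix.det (Units.mul_inv g)
  rw [Matrix.det_mul, Matrix.det_one] at h
  exact eq_inv_of_mul_eq_one_right h

theorem labG_inv32 (u : Fin 2 → K) (g : GL (Fin 2) K) :
    labG32 u g⁻¹ = -(labG32 u g * (g.1.det)⁻¹) := by
  have h1 : g.1 *ᵥ ((g⁻¹).1 *ᵥ u) = u := by
    rw [Matrix.mulVec_mulVec, Units.mul_inv, Matrix.one_mulVec]
  have h2 : det32 (g.1 *ᵥ u) (g.1 *ᵥ ((g⁻¹).1 *ᵥ u)) = g.1.det * det32 u ((g⁻¹).1 *ᵥ u) := by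
    simp only [det32, Matrix.mulVec, dotProduct, Fin.sum_univ_two, Matrix.det_fin_two]
    ring
  rw [h1] at h2
  have h3 : det32 (g.1 *ᵥ u) u = - labG32 u g := det32_swap _ _
  rw [h3] at h2
  have h4 := det_ne32 g
  rw [labG32, eq_comm, neg_eq_iff_eq_neg, ← div_eq_mul_inv, div_eq_iff h4]
  linear_combination -h2

/-- scalar matrices -/
def Sc32 (g : GL (Fin 2) K) : Prop := ∃ s : K, g.1 = s • (1 : Matrix (Fin 2) (Fin 2) K)

theorem Sc32.ne {g : GL (Fin 2) K} {s : K} (h : g.1 = s • (1 : Matrix (Fin 2) (Fin 2) K)) :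
    s ≠ 0 := by
  rintro rfl
  have h1 := det_ne32 g
  rw [h, zero_smul, Matrix.det_zero] at h1
  exact h1 rfl

theorem labG_sc_mul32 (u : Fin 2 → K) {g : GL (Fin 2) K} {s : K}
    (h : g.1 = s • (1 : Matrix (Fin 2) (Fin 2) K)) (a : GL (Fin 2) K) :
    labG32 u (g * a) = s * labG32 u a ∧ (g * a).1.det = s * s * a.1.det := by
  have h1 : (g * a).1 = s • a.1 := by
    rw [Units.val_mul, h, smul_mul_assoc, one_mul]
  constructor
  · rw [labG32, h1, labG32]
    simp only [det32, Matrix.mulVec, dotProduct, Fin.sum_univ_two, Matrix.smul_apply, smul_eq_mul]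
    ring
  · rw [h1]
    simp only [Matrix.det_fin_two, Matrix.smul_apply, smul_eq_mul]
    ring

theorem labG_mul_sc32 (u : Fin 2 → K) {g : GL (Fin 2) K} {s : K}
    (h : g.1 = s • (1 : Matrix (Fin 2) (Fin 2) K)) (a : GL (Fin 2) K) :
    labG32 u (a * g) = s * labG32 u a ∧ (a * g).1.det = s * s * a.1.det := by
  have h1 : (a * g).1 = s • a.1 := by
    rw [Units.val_mul, h, mul_smul_comm, mul_one]
  constructor
  · rw [labG32, h1, labG32]
    simp only [det32, Matrix.mulVec, dotProduct, Fin.sum_univ_two, Matrix.smul_apply, smul_eq_mul]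
    ring
  · rw [h1]
    simp only [Matrix.det_fin_two, Matrix.smul_apply, smul_eq_mul]
    ring

theorem labG_sc32 (u : Fin 2 → K) {g : GL (Fin 2) K} (h : Sc32 g) : labG32 u g = 0 := by
  obtain ⟨s, h⟩ := h
  rw [labG32, h]
  simp only [det32, Matrix.mulVec, dotProduct, Fin.sum_univ_two, Matrix.smul_apply, smul_eq_mul,
    Matrix.one_apply]
  simp
  ring

end gl

/-! ### ultrametric tropical label functions -/

/-- An ultrametric tropical label function: with the sums `A = L a + L c`, `B = L (ab) + L (bc)`,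
`C = L (abc) + L b` of opposite labels, two of `A`, `B`, `C` are equal, and if two of them have
non-zero labels and are different, the third one is the larger of the two. -/
structure UT32 {Γ M : Type*} [Group Γ] [AddCommGroup M] [LinearOrder M] (L : Γ → M) : Prop where
  four : ∀ a b c, Four L a b c
  inv : ∀ g, L g⁻¹ = L g
  one : L 1 = 0
  u1 : ∀ a b c, L a ≠ 0 → L c ≠ 0 → L (a * b) ≠ 0 → L (b * c) ≠ 0 →
    L a + L c ≠ L (a * b) + L (b * c) →
    L (a * b * c) + L b = max (L a + L c) (L (a * b) + L (b * c))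
  u2 : ∀ a b c, L a ≠ 0 → L c ≠ 0 → L (a * b * c) ≠ 0 → L b ≠ 0 →
    L a + L c ≠ L (a * b * c) + L b →
    L (a * b) + L (b * c) = max (L a + L c) (L (a * b * c) + L b)
  u3 : ∀ a b c, L (a * b) ≠ 0 → L (b * c) ≠ 0 → L (a * b * c) ≠ 0 → L b ≠ 0 →
    L (a * b) + L (b * c) ≠ L (a * b * c) + L b →
    L a + L c = max (L (a * b) + L (b * c)) (L (a * b * c) + L b)

section ll

variable {K M : Type*} [Field K] [AddCommGroup M] [LinearOrder M] [IsOrderedAddMonoid M]

/-- twice the size of the label minus the size of the determinant, `0` if the label is zero -/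
noncomputable def LL32 (v : K → M) (u : Fin 2 → K) (g : GL (Fin 2) K) : M :=
  open Classical in if labG32 u g = 0 then 0 else v (labG32 u g) + v (labG32 u g) - v g.1.det

variable {v : K → M}

omit [LinearOrder M] [IsOrderedAddMonoid M] in
theorem LL32_of_ne {u : Fin 2 → K} {g : GL (Fin 2) K} (h : labG32 u g ≠ 0) :
    LL32 v u g = v (labG32 u g) + v (labG32 u g) - v g.1.det := by
  simp [LL32, h]

omit [LinearOrder M] [IsOrderedAddMonoid M] in
theorem LL32_of_eq {u : Fin 2 → K} {g : GL (Fin 2) K} (h : labG32 u g = 0) :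
    LL32 v u g = 0 := by
  simp [LL32, h]

theorem LL32_inv (hv : Siz32 v) (u : Fin 2 → K) (g : GL (Fin 2) K) :
    LL32 v u g⁻¹ = LL32 v u g := by
  have hd := det_ne32 g
  by_cases h : labG32 u g = 0
  · rw [LL32_of_eq h, LL32_of_eq]
    rw [labG_inv32, h, zero_mul, neg_zero]
  · have h' : labG32 u g⁻¹ ≠ 0 := by
      rw [labG_inv32]
      exact neg_ne_zero.2 (mul_ne_zero h (inv_ne_zero hd))
    rw [LL32_of_ne h, LL32_of_ne h', labG_inv32, hv.neg (mul_ne_zero h (inv_ne_zero hd)),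
      hv.mul _ _ h (inv_ne_zero hd), hv.inv hd, det_inv32, hv.inv hd]
    abel

omit [IsOrderedAddMonoid M] in
theorem LL32_sc_mul (hv : Siz32 v) (u : Fin 2 → K) {g : GL (Fin 2) K} (hg : Sc32 g)
    (a : GL (Fin 2) K) : LL32 v u (g * a) = LL32 v u a := by
  obtain ⟨s, hs⟩ := hg
  have hs0 := Sc32.ne hs
  obtain ⟨h1, h2⟩ := labG_sc_mul32 u hs a
  by_cases h : labG32 u a = 0
  · rw [LL32_of_eq h, LL32_of_eq]
    rw [h1, h, mul_zero]
  · have h' : labG32 u (g * a) ≠ 0 := by
      rw [h1]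
      exact mul_ne_zero hs0 h
    rw [LL32_of_ne h, LL32_of_ne h', h1, h2, hv.mul _ _ hs0 h,
      hv.mul _ _ (mul_ne_zero hs0 hs0) (det_ne32 a), hv.mul _ _ hs0 hs0]
    abel

omit [IsOrderedAddMonoid M] in
theorem LL32_mul_sc (hv : Siz32 v) (u : Fin 2 → K) {g : GL (Fin 2) K} (hg : Sc32 g)
    (a : GL (Fin 2) K) : LL32 v u (a * g) = LL32 v u a := by
  obtain ⟨s, hs⟩ := hg
  have hs0 := Sc32.ne hs
  obtain ⟨h1, h2⟩ := labG_mul_sc32 u hs a
  by_cases h : labG32 u a = 0
  · rw [LL32_of_eq h, LL32_of_eq]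
    rw [h1, h, mul_zero]
  · have h' : labG32 u (a * g) ≠ 0 := by
      rw [h1]
      exact mul_ne_zero hs0 h
    rw [LL32_of_ne h, LL32_of_ne h', h1, h2, hv.mul _ _ hs0 h,
      hv.mul _ _ (mul_ne_zero hs0 hs0) (det_ne32 a), hv.mul _ _ hs0 hs0]
    abel

/-- the non-degenerate case -/
theorem LL32_mx (hv : Siz32 v) (u : Fin 2 → K) (a b c : GL (Fin 2) K)
    (ha : labG32 u a ≠ 0) (hb : labG32 u b ≠ 0) (hc : labG32 u c ≠ 0)
    (hab : labG32 u (a * b) ≠ 0) (hbc : labG32 u (b * c) ≠ 0) (habc : labG32 u (a * b * c) ≠ 0) :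
    Mx32 (LL32 v u a + LL32 v u c) (LL32 v u (a * b) + LL32 v u (b * c))
      (LL32 v u (a * b * c) + LL32 v u b) := by
  have hp := labG_pl32 u a b c
  have hp' : labG32 u a * labG32 u c * b.1.det + -(labG32 u (a * b) * labG32 u (b * c)) +
      labG32 u (a * b * c) * labG32 u b = 0 := by
    rw [← hp]; ring
  have da := det_ne32 a
  have db := det_ne32 b
  have dc := det_ne32 c
  have h := hv.mx _ _ _ (mul_ne_zero (mul_ne_zero ha hc) db)
    (neg_ne_zero.2 (mul_ne_zero hab hbc)) (mul_ne_zero habc hb) hp'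
  rw [hv.neg (mul_ne_zero hab hbc), hv.mul _ _ (mul_ne_zero ha hc) db, hv.mul _ _ ha hc,
    hv.mul _ _ hab hbc, hv.mul _ _ habc hb] at h
  have h2 := h.map (f := fun m => m + m - (v a.1.det + (v b.1.det + v b.1.det) + v c.1.det)) (by
    intro x y hxy
    exact sub_le_sub_right (add_le_add hxy hxy) _)
  have dab : v (a * b).1.det = v a.1.det + v b.1.det := by
    rw [Units.val_mul, Matrix.det_mul, hv.mul _ _ da db]
  have dbc : v (b * c).1.det = v b.1.det + v c.1.det := by
    rw [Units.val_mul, Matrix.det_mul, hv.mul _ _ db dc]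
  have dabc : v (a * b * c).1.det = v a.1.det + v b.1.det + v c.1.det := by
    rw [Units.val_mul, Matrix.det_mul, hv.mul _ _ (det_ne32 _) dc, dab]
  rw [LL32_of_ne ha, LL32_of_ne hb, LL32_of_ne hc, LL32_of_ne hab, LL32_of_ne hbc,
    LL32_of_ne habc, dab, dbc, dabc]
  convert h2 using 1 <;> abel

/-- the degenerate cases: one of the labels is scalar -/
theorem LL32_deg (hv : Siz32 v) (u : Fin 2 → K) (a b c : GL (Fin 2) K) :
    (Sc32 a ∨ Sc32 c → LL32 v u (a * b) + LL32 v u (b * c) = LL32 v u (a * b * c) + LL32 v u b) ∧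
    (Sc32 (a * b) ∨ Sc32 (b * c) →
      LL32 v u (a * b * c) + LL32 v u b = LL32 v u a + LL32 v u c) ∧
    (Sc32 (a * b * c) ∨ Sc32 b →
      LL32 v u a + LL32 v u c = LL32 v u (a * b) + LL32 v u (b * c)) := by
  have inv := LL32_inv hv u
  refine ⟨?_, ?_, ?_⟩
  · rintro (h | h)
    · rw [LL32_sc_mul hv u h, mul_assoc, LL32_sc_mul hv u h, add_comm]
    · rw [LL32_mul_sc hv u h, LL32_mul_sc hv u h]
  · rintro (h | h)
    · rw [LL32_sc_mul hv u h]
      have h1 : b = a⁻¹ * (a * b) := by group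
      have h2 : LL32 v u b = LL32 v u a := by
        rw [h1, LL32_mul_sc hv u h, inv]
      rw [h2, add_comm]
    · rw [mul_assoc, LL32_mul_sc hv u h]
      have h1 : b = (b * c) * c⁻¹ := by group
      have h2 : LL32 v u b = LL32 v u c := by
        conv_lhs => rw [h1]
        rw [LL32_sc_mul hv u h, inv]
      rw [h2]
  · rintro (h | h)
    · have h1 : a * b = (a * b * c) * c⁻¹ := by group
      have h2 : LL32 v u (a * b) = LL32 v u c := by
        conv_lhs => rw [h1]
        rw [LL32_sc_mul hv u h, inv]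
      have h3 : b * c = a⁻¹ * (a * b * c) := by group
      have h4 : LL32 v u (b * c) = LL32 v u a := by
        rw [h3, LL32_mul_sc hv u h, inv]
      rw [h2, h4, add_comm]
    · rw [LL32_mul_sc hv u h, LL32_sc_mul hv u h]

end ll

/-! ### the perturbation -/

section pert

variable {K M : Type*} [Field K] [AddCommGroup M] [LinearOrder M] [IsOrderedAddMonoid M]

/-- the matrix as a matrix of constants -/
noncomputable def cmG32 : GL (Fin 2) K →* GL (Fin 2) (HahnSeries ℤ K) :=
  Matrix.GeneralLinearGroup.map cs32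

theorem cmG32_val (g : GL (Fin 2) K) : (cmG32 g).1 = g.1.map cs32 := rfl

theorem det_cmG32 (g : GL (Fin 2) K) : (cmG32 g).1.det = cs32 g.1.det := by
  rw [cmG32_val, Matrix.det_fin_two, Matrix.det_fin_two]
  simp only [Matrix.map_apply, map_sub, map_mul]

/-- the bilinear extension of the label -/
def blG32 (u p : Fin 2 → K) (g : GL (Fin 2) K) : K :=
  det32 u (g.1 *ᵥ p) + det32 p (g.1 *ᵥ u)

theorem labG_pv32 (u p : Fin 2 → K) (g : GL (Fin 2) K) :
    labG32 (pv32 u p) (cmG32 g) = single (0 : ℤ) (labG32 u g) + single (1 : ℤ) (blG32 u p g) +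
      single (2 : ℤ) (labG32 p g) := by
  have hC : ∀ x : K, single (0 : ℤ) x = cs32 x := fun x => rfl
  have h1 : ∀ x : K, single (1 : ℤ) x = single (1 : ℤ) (1 : K) * cs32 x := fun x => by
    rw [← hC, single_mul_single, add_zero, one_mul]
  have h2 : ∀ x : K, single (2 : ℤ) x = single (1 : ℤ) (1 : K) * single (1 : ℤ) (1 : K) *
      cs32 x := fun x => by
    rw [← hC, single_mul_single, single_mul_single, one_mul, one_mul]
    norm_num
  rw [hC, h1, h2]
  simp only [labG32, det32, blG32, Matrix.mulVec, dotProduct, Fin.sum_univ_two, pv32, cmG32_val,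
    Matrix.map_apply, map_add, map_sub, map_mul]
  ring

theorem sc_of_lab_zero32 {u p : Fin 2 → K} (hup : det32 u p ≠ 0) {g : GL (Fin 2) K}
    (h : labG32 (pv32 u p) (cmG32 g) = 0) : Sc32 g := by
  rw [labG_pv32] at h
  have q0 : labG32 u g = 0 := by
    have := congrArg (fun s : HahnSeries ℤ K => s.coeff 0) h
    simpa [coeff_single] using this
  have q1 : blG32 u p g = 0 := by
    have := congrArg (fun s : HahnSeries ℤ K => s.coeff 1) h
    simpa [coeff_single] using this
  have q2 : labG32 p g = 0 := by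
    have := congrArg (fun s : HahnSeries ℤ K => s.coeff 2) h
    simpa [coeff_single] using this
  simp only [labG32, blG32, det32, Matrix.mulVec, dotProduct, Fin.sum_univ_two] at q0 q1 q2 hup
  have hD : (u 0 * p 1 - u 1 * p 0) ^ 2 ≠ 0 := pow_ne_zero 2 hup
  have e10 : g.1 1 0 = 0 := by
    have h1 : g.1 1 0 * (u 0 * p 1 - u 1 * p 0) ^ 2 = 0 := by
      linear_combination (p 1) ^ 2 * q0 - p 1 * u 1 * q1 + (u 1) ^ 2 * q2
    exact (mul_eq_zero.1 h1).resolve_right hD
  have e01 : g.1 0 1 = 0 := by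
    have h1 : g.1 0 1 * (u 0 * p 1 - u 1 * p 0) ^ 2 = 0 := by
      linear_combination -(p 0) ^ 2 * q0 + p 0 * u 0 * q1 - (u 0) ^ 2 * q2
    exact (mul_eq_zero.1 h1).resolve_right hD
  have e11 : g.1 1 1 = g.1 0 0 := by
    have h1 : (g.1 1 1 - g.1 0 0) * (u 0 * p 1 - u 1 * p 0) ^ 2 = 0 := by
      rw [e10, e01] at q0 q1 q2
      linear_combination (p 1 - p 0) ^ 2 * q0 + (p 1 - p 0) * (u 0 - u 1) * q1 +
        (u 0 - u 1) ^ 2 * q2
    exact sub_eq_zero.1 ((mul_eq_zero.1 h1).resolve_right hD)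
  refine ⟨g.1 0 0, ?_⟩
  ext i j
  fin_cases i <;> fin_cases j <;> simp [e10, e01, e11]

theorem sc_map32 {g : GL (Fin 2) K} (h : Sc32 g) : Sc32 (cmG32 g) := by
  obtain ⟨s, hs⟩ := h
  refine ⟨cs32 s, ?_⟩
  rw [cmG32_val, hs]
  ext i j
  fin_cases i <;> fin_cases j <;> simp

theorem order_labG_pv32 {u : Fin 2 → K} (p : Fin 2 → K) {g : GL (Fin 2) K}
    (h : labG32 u g ≠ 0) : labG32 (pv32 u p) (cmG32 g) ≠ 0 ∧
      (labG32 (pv32 u p) (cmG32 g)).order = 0 ∧
      (labG32 (pv32 u p) (cmG32 g)).leadingCoeff = labG32 u g := by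
  have hc : (labG32 (pv32 u p) (cmG32 g)).coeff 0 = labG32 u g := by
    rw [labG_pv32]
    simp [coeff_single]
  have hne : labG32 (pv32 u p) (cmG32 g) ≠ 0 := by
    intro h0
    rw [h0, coeff_zero] at hc
    exact h hc.symm
  have hle : (labG32 (pv32 u p) (cmG32 g)).order ≤ 0 :=
    order_le_of_coeff_ne_zero (by rw [hc]; exact h)
  have hge : 0 ≤ (labG32 (pv32 u p) (cmG32 g)).order := by
    by_contra hlt
    push Not at hlt
    have h1 : (labG32 (pv32 u p) (cmG32 g)).coeff (labG32 (pv32 u p) (cmG32 g)).order ≠ 0 := by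
      rw [Ne, coeff_order_eq_zero]
      exact hne
    apply h1
    generalize (labG32 (pv32 u p) (cmG32 g)).order = n at hlt
    rw [labG_pv32]
    rw [coeff_add, coeff_add, coeff_single_of_ne (by omega), coeff_single_of_ne (by omega),
      coeff_single_of_ne (by omega), add_zero, add_zero]
  have ho : (labG32 (pv32 u p) (cmG32 g)).order = 0 := le_antisymm hle hge
  exact ⟨hne, ho, by rw [leadingCoeff_eq, ho, hc]⟩

/-- **The tropical label function** on `GL₂(K)` with base vector `u`, perturbed in direction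
`p`. -/
noncomputable def LG32 (v : K → M) (u p : Fin 2 → K) (g : GL (Fin 2) K) : ℤ ×ₗ M :=
  LL32 (hs32 (Γ := ℤ) v) (pv32 u p) (cmG32 g)

theorem hs_cs32 {v : K → M} {x : K} : hs32 (Γ := ℤ) v (cs32 x) = toLex (0, v x) := by
  have h1 : (cs32 x : HahnSeries ℤ K) = single 0 x := rfl
  rcases eq_or_ne x 0 with rfl | hx
  · rw [h1, hs32]
    simp
  · rw [h1, hs32, order_single hx, leadingCoeff_of_single]
    simp

/-- the value of the label function at a non-degenerate matrix -/
theorem LG32_val {v : K → M} {u : Fin 2 → K} (p : Fin 2 → K) {g : GL (Fin 2) K}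
    (h : labG32 u g ≠ 0) :
    LG32 v u p g = toLex (0, v (labG32 u g) + v (labG32 u g) - v g.1.det) := by
  obtain ⟨h1, h2, h3⟩ := order_labG_pv32 p h
  rw [LG32, LL32_of_ne h1, det_cmG32, hs_cs32, hs32, h2, h3]
  simp only [neg_zero]
  rw [← toLex_add, ← toLex_sub, Prod.mk_add_mk, Prod.mk_sub_mk]
  simp

/-- **The label function is tropical and ultrametric.** -/
theorem ut_LG32 {v : K → M} (hv : Siz32 v) {u p : Fin 2 → K} (hup : det32 u p ≠ 0) :
    UT32 (LG32 v u p) := by
  have hv' : Siz32 (hs32 (Γ := ℤ) v) := siz_hahn32 hv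
  have sc : ∀ g : GL (Fin 2) K, labG32 (pv32 u p) (cmG32 g) = 0 → Sc32 (cmG32 g) :=
    fun g h => sc_map32 (sc_of_lab_zero32 hup h)
  have ne : ∀ g : GL (Fin 2) K, LG32 v u p g ≠ 0 → labG32 (pv32 u p) (cmG32 g) ≠ 0 :=
    fun g h h0 => h (LL32_of_eq h0)
  have deg := fun a b c : GL (Fin 2) K => LL32_deg hv' (pv32 u p) (cmG32 a) (cmG32 b) (cmG32 c)
  have mx := fun a b c : GL (Fin 2) K => LL32_mx hv' (pv32 u p) (cmG32 a) (cmG32 b) (cmG32 c)
  simp only [← map_mul] at deg mx
  refine ⟨?_, ?_, ?_, ?_, ?_, ?_⟩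
  · intro a b c
    obtain ⟨d1, d2, d3⟩ := deg a b c
    simp only [Four]
    by_cases ha : labG32 (pv32 u p) (cmG32 a) = 0
    · exact Or.inr (Or.inl (d1 (Or.inl (sc _ ha))))
    by_cases hc : labG32 (pv32 u p) (cmG32 c) = 0
    · exact Or.inr (Or.inl (d1 (Or.inr (sc _ hc))))
    by_cases hab : labG32 (pv32 u p) (cmG32 (a * b)) = 0
    · exact Or.inr (Or.inr (d2 (Or.inl (sc _ hab))))
    by_cases hbc : labG32 (pv32 u p) (cmG32 (b * c)) = 0
    · exact Or.inr (Or.inr (d2 (Or.inr (sc _ hbc))))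
    by_cases habc : labG32 (pv32 u p) (cmG32 (a * b * c)) = 0
    · exact Or.inl (d3 (Or.inl (sc _ habc)))
    by_cases hb : labG32 (pv32 u p) (cmG32 b) = 0
    · exact Or.inl (d3 (Or.inr (sc _ hb)))
    exact (mx a b c ha hb hc hab hbc habc).two
  · intro g
    rw [LG32, map_inv, LL32_inv hv']
    rfl
  · rw [LG32, map_one]
    exact LL32_of_eq (labG_sc32 _ ⟨1, by rw [one_smul]; rfl⟩)
  · intro a b c ha hc hab hbc hne
    obtain ⟨d1, d2, d3⟩ := deg a b c
    by_cases habc : labG32 (pv32 u p) (cmG32 (a * b * c)) = 0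
    · exact absurd (d3 (Or.inl (sc _ habc))) hne
    by_cases hb : labG32 (pv32 u p) (cmG32 b) = 0
    · exact absurd (d3 (Or.inr (sc _ hb))) hne
    exact (mx a b c (ne _ ha) hb (ne _ hc) (ne _ hab) (ne _ hbc) habc).max1 hne
  · intro a b c ha hc habc hb hne
    obtain ⟨d1, d2, d3⟩ := deg a b c
    by_cases hab : labG32 (pv32 u p) (cmG32 (a * b)) = 0
    · exact absurd (d2 (Or.inl (sc _ hab))).symm hne
    by_cases hbc : labG32 (pv32 u p) (cmG32 (b * c)) = 0
    · exact absurd (d2 (Or.inr (sc _ hbc))).symm hne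
    exact (mx a b c (ne _ ha) (ne _ hb) (ne _ hc) hab hbc (ne _ habc)).max2 hne
  · intro a b c hab hbc habc hb hne
    obtain ⟨d1, d2, d3⟩ := deg a b c
    by_cases ha : labG32 (pv32 u p) (cmG32 a) = 0
    · exact absurd (d1 (Or.inl (sc _ ha))) hne
    by_cases hc : labG32 (pv32 u p) (cmG32 c) = 0
    · exact absurd (d1 (Or.inr (sc _ hc))) hne
    exact (mx a b c ha (ne _ hb) hc (ne _ hab) (ne _ hbc) (ne _ habc)).max3 hne

end pert

/-! ### the concrete label function -/

section conc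

/-- the field: Hahn series with real exponents over Hahn series with real exponents -/
abbrev K32 (F : Type*) [Field F] : Type _ := HahnSeries ℝ (HahnSeries ℝ F)

/-- the value group -/
abbrev M32 : Type := ℤ ×ₗ (ℝ ×ₗ ℝ)

variable {F : Type*} [Field F]

/-- **The label function**: base vector `e₁`, twice the size of the entry `(2,1)` minus the size
of the determinant. -/
noncomputable def LT32 (g : GL (Fin 2) (K32 F)) : M32 :=
  LG32 (hs32 (Γ := ℝ) (fun x : HahnSeries ℝ F => -x.order)) ![1, 0] ![0, 1] g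

theorem ut_LT32 : UT32 (LT32 (F := F)) :=
  ut_LG32 (siz_hahn32 siz_ord32) (by simp [det32])

/-- the value `(h, k)` in the value group -/
def e32 : ℝ × ℝ →+ M32 where
  toFun x := toLex (0, toLex (2 * x.1, 2 * x.2))
  map_zero' := by
    show toLex ((0 : ℤ), toLex (2 * (0 : ℝ), 2 * (0 : ℝ))) = 0
    rw [mul_zero]
    rfl
  map_add' x y := by
    show toLex ((0 : ℤ), toLex (2 * (x.1 + y.1), 2 * (x.2 + y.2))) = _
    rw [mul_add, mul_add]
    rfl

theorem e32_lt {h k h' k' : ℝ} (hlt : h < h') : e32 (h, k) < e32 (h', k') := by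
  show toLex ((0 : ℤ), toLex (2 * h, 2 * k)) < toLex ((0 : ℤ), toLex (2 * h', 2 * k'))
  rw [Prod.Lex.lt_iff]
  refine Or.inr ⟨rfl, ?_⟩
  rw [Prod.Lex.lt_iff]
  left
  show 2 * h < 2 * h'
  linarith

/-- the first component -/
noncomputable def l1_32 : M32 →+ ℝ where
  toFun m := (ofLex (ofLex m).2).1 / 2
  map_zero' := by
    show (0 : ℝ) / 2 = 0
    norm_num
  map_add' x y := by
    show ((ofLex (ofLex x).2).1 + (ofLex (ofLex y).2).1) / 2 = _
    ring

/-- the second component -/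
noncomputable def l2_32 : M32 →+ ℝ where
  toFun m := (ofLex (ofLex m).2).2 / 2
  map_zero' := by
    show (0 : ℝ) / 2 = 0
    norm_num
  map_add' x y := by
    show ((ofLex (ofLex x).2).2 + (ofLex (ofLex y).2).2) / 2 = _
    ring

theorem l1_e32 (h k : ℝ) : l1_32 (e32 (h, k)) = h := by
  show 2 * h / 2 = h
  ring

theorem l2_e32 (h k : ℝ) : l2_32 (e32 (h, k)) = k := by
  show 2 * k / 2 = k
  ring

/-- **the value formula** -/
theorem LT32_val {g : GL (Fin 2) (K32 F)} (hg : g.1 1 0 ≠ 0) {h k : ℝ}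
    (h1 : -(g.1 1 0).order + g.1.det.order / 2 = h)
    (h2 : -(g.1 1 0).leadingCoeff.order + g.1.det.leadingCoeff.order / 2 = k) :
    LT32 g = e32 (h, k) := by
  have hl : labG32 (![1, 0] : Fin 2 → K32 F) g ≠ 0 := by rw [labG32_e1]; exact hg
  rw [LT32, LG32_val _ hl, labG32_e1]
  subst h1 h2
  show toLex ((0 : ℤ), _) = toLex ((0 : ℤ), toLex (2 * _, 2 * _))
  congr 2
  show toLex (-(g.1 1 0).order + -(g.1 1 0).order - -g.1.det.order,
    -(g.1 1 0).leadingCoeff.order + -(g.1 1 0).leadingCoeff.order -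
      -g.1.det.leadingCoeff.order) = _
  congr 2 <;> ring

end conc

end Pool.Agent.Lib.MP_e3aa0a_gt.FVL
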