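import Pool.Agent.Lib.MP_e3aa0a_gt.FVL.Ori14
import Pool.Agent.Lib.MP_e3aa0a_gt.FVL.TropG32
import Pool.Agent.Lib.MP_e3aa0a_gt.FVR.StarRow21

/-!
# FVR, existence of the representation in the orientable case, any coefficient field

All labels are in the torus of the matrices `(m 0; 1 - m 1)`.
-/

set_option autoImplicit false

namespace Pool.Agent.Lib.MP_e3aa0a_gt.FVL.OriG14

open Pool.Agent.Lib.FVol Pool.Agent.Lib.MP_e3aa0a_gt.FVL Matrix
open Pool.Agent.Lib.MP_e3aa0a_gt.FVR (wl)

section gen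

variable {K : Type*} [Field K]

/-- the torus `m ↦ (m 0; 1 - m 1)` -/
def tm (m : K) : Matrix (Fin 2) (Fin 2) K := !![m, 0; 1 - m, 1]

theorem tm_mul (m m' : K) : tm m * tm m' = tm (m * m') := by
  unfold tm
  rw [Matrix.mul_fin_two]
  have h1 : m * m' + 0 * (1 - m') = m * m' := by ring
  have h2 : m * 0 + 0 * 1 = (0 : K) := by ring
  have h3 : (1 - m) * m' + 1 * (1 - m') = 1 - m * m' := by ring
  have h4 : (1 - m) * 0 + 1 * 1 = (1 : K) := by ring
  rw [h1, h2, h3, h4]

theorem tm_one : tm (1 : K) = 1 := by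
  unfold tm
  rw [sub_self]
  exact Matrix.one_fin_two.symm

/-- the torus as a homomorphism -/
def tg : Kˣ →* GL (Fin 2) K where
  toFun m := ⟨tm (m : K), tm ((m⁻¹ : Kˣ) : K), by rw [tm_mul]; simp [tm_one],
    by rw [tm_mul]; simp [tm_one]⟩
  map_one' := Units.ext (by simp [tm_one])
  map_mul' a b := Units.ext (by simp [tm_mul])

theorem tg_val (m : Kˣ) : (tg m).1 = tm (m : K) := rfl

theorem tg_10 (m : Kˣ) : (tg m).1 1 0 = 1 - (m : K) := rfl

theorem tg_det (m : Kˣ) : (tg m).1.det = m := by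
  rw [tg_val]
  unfold tm
  rw [Matrix.det_fin_two_of]
  ring

variable {A V G : Type*} [DecidableEq A] [Group G]

/-- the labels -/
noncomputable def lb (d : Dat A V G) (w : A → Kˣ) (a : A) : GL (Fin 2) K :=
  if (a, true) ∈ d.row true then tg (w a) else tg (w a)⁻¹

theorem wpr_lb (d : Dat A V G) (w : A → Kˣ) (W : List (A × Bool))
    (h : ∀ x ∈ W, slab (lb d w) x = tg (w x.1)) :
    wpr (lb d w) W = tg (W.map fun x => w x.1).prod := by
  induction W with
  | nil => simp
  | cons x W ih =>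
    rw [wpr_cons, h x (by simp), ih (fun y hy => h y (by simp [hy])), List.map_cons,
      List.prod_cons, map_mul]

theorem mem_top {d : Dat A V G} (hd : Good d)
    (hno : ∀ (ρ : Bool) (a : A), ¬ ((a, true) ∈ d.row ρ ∧ (a, false) ∈ d.row ρ)) (σ : Bool)
    (x : A × Bool) (hx : x ∈ d.row σ) : x ∈ d.row true ∧ sinv x ∉ d.row true := by
  have h1 := hd.two x
  have h2 := hd.sgn x
  have h3 : ∀ ρ, occ x (d.row ρ) = 0 ∨ occ (sinv x) (d.row ρ) = 0 := by
    intro ρ
    by_contra hc
    rw [not_or] at hc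
    have c1 : x ∈ d.row ρ := by
      by_contra h7
      exact hc.1 (occ_eq_zero_iff.2 h7)
    have c2 : sinv x ∈ d.row ρ := by
      by_contra h7
      exact hc.2 (occ_eq_zero_iff.2 h7)
    rcases x with ⟨a, s⟩
    cases s
    · exact hno ρ a ⟨c2, c1⟩
    · exact hno ρ a ⟨c1, c2⟩
  have h4 : occ x (d.row σ) ≠ 0 := fun h => occ_eq_zero_iff.1 h hx
  have h5 := h3 true
  have h6 := h3 false
  have h7 : occ x (d.row true) ≠ 0 := by
    cases σ
    · omega
    · exact h4
  refine ⟨?_, occ_eq_zero_iff.1 (by omega)⟩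
  by_contra h8
  exact h7 (occ_eq_zero_iff.2 h8)

theorem slab_lb {d : Dat A V G} (hd : Good d)
    (hno : ∀ (ρ : Bool) (a : A), ¬ ((a, true) ∈ d.row ρ ∧ (a, false) ∈ d.row ρ))
    (w : A → Kˣ) (σ : Bool) (x : A × Bool) (hx : x ∈ d.row σ) :
    slab (lb d w) x = tg (w x.1) := by
  obtain ⟨h1, h2⟩ := mem_top hd hno σ x hx
  rcases x with ⟨a, s⟩
  cases s
  · have h3 : (a, true) ∉ d.row true := h2
    simp only [slab, Bool.false_eq_true, if_false, lb, h3]
    rw [← map_inv, inv_inv]
  · simp only [slab, if_true, lb, h1]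

/-- **existence in the orientable case over any field** -/
theorem rep_gen {d : Dat A V G} (hd : Good d)
    (hno : ∀ (ρ : Bool) (a : A), ¬ ((a, true) ∈ d.row ρ ∧ (a, false) ∈ d.row ρ))
    (w : A → Kˣ)
    (hw : ((d.row true).map fun x => w x.1).prod = ((d.row false).map fun x => w x.1).prod) :
    ∃ f : A → GL (Fin 2) K, wpr f (d.row true) = wpr f (d.row false) ∧
      ∀ σ P W S, d.row σ = P ++ (W ++ S) →
        (wpr f W).1 1 0 = 1 - ((W.map fun x => w x.1).prod : Kˣ) ∧
        (wpr f W).1.det = ((W.map fun x => w x.1).prod : Kˣ) := by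
  have hs := slab_lb hd hno w
  refine ⟨lb d w, ?_, ?_⟩
  · rw [wpr_lb d w _ (hs true), wpr_lb d w _ (hs false), hw]
  · intro σ P W S hW
    rw [wpr_lb d w W (fun x hx => hs σ x (by rw [hW]; simp [hx])), tg_10, tg_det]
    exact ⟨rfl, rfl⟩

end gen

section hahn

variable {F : Type*} [Field F] {A V G : Type*} [DecidableEq A] [Group G]

/-- the unit `t^r c` -/
noncomputable def un (r : ℝ) (c : F) (hc : c ≠ 0) : (HahnSeries ℝ F)ˣ :=
  Units.mk0 (HahnSeries.single r c) (by rwa [Ne, HahnSeries.single_eq_zero_iff])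

theorem prod_un (g : A → ℝ) (sg : A → F) (hsg : ∀ a, sg a ≠ 0) (W : List (A × Bool)) :
    (((W.map fun x => un (g x.1) (sg x.1) (hsg x.1)).prod : (HahnSeries ℝ F)ˣ) : HahnSeries ℝ F) =
      HahnSeries.single (wl g W) (W.map fun x => sg x.1).prod := by
  induction W with
  | nil => simp [FVR.wl]
  | cons x W ih =>
    rw [List.map_cons, List.prod_cons, Units.val_mul, ih, List.map_cons, List.prod_cons,
      FVR.wl_cons]
    unfold un
    rw [Units.val_mk0, HahnSeries.single_mul_single]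

theorem prod_ne (sg : A → F) (hsg : ∀ a, sg a ≠ 0) (W : List (A × Bool)) :
    (W.map fun x => sg x.1).prod ≠ 0 := by
  refine List.prod_ne_zero ?_
  intro h
  obtain ⟨x, -, hx⟩ := List.mem_map.1 h
  exact hsg x.1 hx

theorem one_sub_single {r : ℝ} (hr : 0 < r) (c : F) (hc : c ≠ 0) :
    (1 - HahnSeries.single r c : HahnSeries ℝ F) ≠ 0 ∧
      (1 - HahnSeries.single r c : HahnSeries ℝ F).order = 0 ∧
      (1 - HahnSeries.single r c : HahnSeries ℝ F).leadingCoeff = 1 := by
  have hlt : (1 : HahnSeries ℝ F).orderTop < (HahnSeries.single r c).orderTop := by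
    rw [HahnSeries.orderTop_one, HahnSeries.orderTop_single hc]
    exact_mod_cast hr
  have hot := HahnSeries.orderTop_sub hlt
  have hne : (1 - HahnSeries.single r c : HahnSeries ℝ F) ≠ 0 := by
    intro h
    rw [sub_eq_zero] at h
    rw [← h] at hlt
    exact lt_irrefl _ hlt
  refine ⟨hne, ?_, ?_⟩
  · have h1 := HahnSeries.order_eq_orderTop_of_ne_zero hne
    rw [hot, HahnSeries.orderTop_one] at h1
    exact_mod_cast h1
  · rw [HahnSeries.leadingCoeff_sub hlt]
    simp

/-- **existence, orientable case, Hahn series**: `(g)₁₀` has order `0` and leading coefficient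
`1`, the determinant is `t^(Σ g) ∏ sg`. -/
theorem rep_hahn {d : Dat A V G} (hd : Good d)
    (hno : ∀ (ρ : Bool) (a : A), ¬ ((a, true) ∈ d.row ρ ∧ (a, false) ∈ d.row ρ))
    (g : A → ℝ) (hg : ∀ a, 0 < g a) (sg : A → F) (hsg : ∀ a, sg a ≠ 0)
    (hgb : wl g (d.row true) = wl g (d.row false))
    (hsb : ((d.row true).map fun x => sg x.1).prod = ((d.row false).map fun x => sg x.1).prod) :
    ∃ f : A → GL (Fin 2) (HahnSeries ℝ F), wpr f (d.row true) = wpr f (d.row false) ∧
      ∀ σ P W S, d.row σ = P ++ (W ++ S) → W ≠ [] →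
        (wpr f W).1 1 0 ≠ 0 ∧ ((wpr f W).1 1 0).order = 0 ∧
        ((wpr f W).1 1 0).leadingCoeff = 1 ∧
        (wpr f W).1.det = HahnSeries.single (wl g W) (W.map fun x => sg x.1).prod := by
  obtain ⟨f, h1, h2⟩ := rep_gen hd hno (K := HahnSeries ℝ F)
    (fun a => un (g a) (sg a) (hsg a)) (by
      refine Units.ext ?_
      rw [prod_un, prod_un, hgb, hsb])
  refine ⟨f, h1, fun σ P W S hW hne => ?_⟩
  obtain ⟨h3, h4⟩ := h2 σ P W S hW
  rw [prod_un] at h3 h4
  have hpos : 0 < wl g W := by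
    cases W with
    | nil => exact absurd rfl hne
    | cons x W =>
      rw [FVR.wl_cons]
      have := hg x.1
      have := FVR.wl_nonneg hg W
      linarith
  obtain ⟨a1, a2, a3⟩ := one_sub_single hpos _ (prod_ne sg hsg W)
  exact ⟨by rw [h3]; exact a1, by rw [h3]; exact a2, by rw [h3]; exact a3, h4⟩

/-- **existence, orientable case, in the form of the rows STAR and VAL** -/
theorem rowAdd_ori14 {d : Dat A V G} (hd : Good d)
    (hno : ∀ (ρ : Bool) (a : A), ¬ ((a, true) ∈ d.row ρ ∧ (a, false) ∈ d.row ρ))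
    (hbal : wl d.lam (d.row true) = wl d.lam (d.row false)) (l : A → ℝ)
    (hl : wl l (d.row true) = wl l (d.row false)) :
    ∃ f : A → GL (Fin 2) (K32 F), wpr f (d.row true) = wpr f (d.row false) ∧
      ∀ σ P W S, d.row σ = P ++ (W ++ S) → W ≠ [] →
        LT32 (wpr f W) = e32 (wl d.lam W, wl l W) := by
  have hwl2 : ∀ (m : A → ℝ) (W : List (A × Bool)), wl (fun a => 2 * m a) W = 2 * wl m W := by
    intro m W
    induction W with
    | nil => simp
    | cons x W ih => rw [FVR.wl_cons, FVR.wl_cons, ih]; ring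
  have hsp : ∀ W : List (A × Bool), (W.map fun x => (HahnSeries.single (2 * l x.1) (1 : F))).prod =
      HahnSeries.single (2 * wl l W) (1 : F) := by
    intro W
    induction W with
    | nil => simp
    | cons x W ih =>
      rw [List.map_cons, List.prod_cons, ih, HahnSeries.single_mul_single, FVR.wl_cons, mul_one]
      congr 1
      ring
  obtain ⟨f, h1, h2⟩ := rep_hahn (F := HahnSeries ℝ F) hd hno (fun a => 2 * d.lam a)
    (fun a => by have := hd.pos a; positivity)
    (fun a => HahnSeries.single (2 * l a) (1 : F))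
    (fun a => by rw [Ne, HahnSeries.single_eq_zero_iff]; exact one_ne_zero)
    (by rw [hwl2, hwl2, hbal]) (by rw [hsp, hsp, hl])
  refine ⟨f, h1, fun σ P W S hW hne => ?_⟩
  obtain ⟨a1, a2, a3, a4⟩ := h2 σ P W S hW hne
  rw [hsp, hwl2] at a4
  have hne2 : (HahnSeries.single (2 * wl l W) (1 : F) : HahnSeries ℝ F) ≠ 0 := by
    rw [Ne, HahnSeries.single_eq_zero_iff]; exact one_ne_zero
  refine LT32_val a1 ?_ ?_
  · rw [a2, a4, HahnSeries.order_single hne2]
    ring
  · rw [a3, a4, HahnSeries.leadingCoeff_of_single, HahnSeries.order_single one_ne_zero,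
      HahnSeries.order_one]
    ring

end hahn

end Pool.Agent.Lib.MP_e3aa0a_gt.FVL.OriG14
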