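import Pool.Agent.Lib.MP_e3aa0a_gt.FVL.Chn65

/-!
# FVL, module Plc65: places (localisation at the kernel of a specialisation), generic vectors
-/

set_option autoImplicit false

namespace Pool.Agent.Lib.MP_e3aa0a_gt.FVL

open Matrix

/-- a domain `A` with a specialisation `f0` to a field and an embedding `j` in a field: all elements
that do not specialise to zero can be inverted -/
theorem place65 {A K K1 : Type} [CommRing A] [IsDomain A] [Field K] [Field K1] (f0 : A →+* K1)
    (j : A →+* K) (hj : Function.Injective j) :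
    ∃ (R : Type) (_ : CommRing R) (_ : IsDomain R) (i : A →+* R) (e : R →+* K) (f : R →+* K1),
      Function.Injective e ∧ e.comp i = j ∧ f.comp i = f0 ∧ ∀ x, f x ≠ 0 → IsUnit x := by
  have hP : (RingHom.ker f0).IsPrime := RingHom.ker_isPrime f0
  have hf : ∀ y : (RingHom.ker f0).primeCompl, IsUnit (f0 y) := by
    intro y
    refine isUnit_iff_ne_zero.2 fun h => y.2 ?_
    exact h
  have hjj : ∀ y : (RingHom.ker f0).primeCompl, IsUnit (j y) := by
    intro y
    refine isUnit_iff_ne_zero.2 fun h => y.2 ?_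
    have : (y : A) = 0 := hj (by rw [h, map_zero])
    rw [this]
    exact Ideal.zero_mem _
  refine ⟨Localization.AtPrime (RingHom.ker f0), inferInstance, inferInstance,
    algebraMap A _, IsLocalization.lift hjj, IsLocalization.lift hf, ?_, ?_, ?_, ?_⟩
  · rw [IsLocalization.lift_injective_iff]
    intro x y
    have hinj : Function.Injective (algebraMap A (Localization.AtPrime (RingHom.ker f0))) :=
      IsLocalization.injective _ (RingHom.ker f0).primeCompl_le_nonZeroDivisors
    rw [hinj.eq_iff, hj.eq_iff]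
  · exact IsLocalization.lift_comp hjj
  · exact IsLocalization.lift_comp hf
  · intro x hx
    obtain ⟨a, s, rfl⟩ := IsLocalization.exists_mk'_eq (RingHom.ker f0).primeCompl x
    rw [IsLocalization.AtPrime.isUnit_mk'_iff]
    intro ha
    apply hx
    rw [IsLocalization.lift_mk']
    have : f0 a = 0 := ha
    rw [this, zero_mul]

section quad

variable {K1 : Type} [Field K1]

/-- the polynomial `t ↦ dtv (1, t) (M (1, t))` -/
noncomputable def qp (A : SpecialLinearGroup (Fin 2) K1) : Polynomial K1 :=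
  Polynomial.C (A.1 1 0) + Polynomial.C (A.1 1 1 - A.1 0 0) * Polynomial.X -
    Polynomial.C (A.1 0 1) * Polynomial.X ^ 2

theorem qp_eval (A : SpecialLinearGroup (Fin 2) K1) (t : K1) :
    (qp A).eval t = dtv ![1, t] (ap A ![1, t]) := by
  simp only [qp, Polynomial.eval_sub, Polynomial.eval_add, Polynomial.eval_mul, Polynomial.eval_C,
    Polynomial.eval_X, Polynomial.eval_pow, dtv, ap_zero', ap_one', Matrix.cons_val_zero,
    Matrix.cons_val_one]
  ring

theorem qp_coeff_zero (A : SpecialLinearGroup (Fin 2) K1) : (qp A).coeff 0 = A.1 1 0 := by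
  simp [qp]

theorem qp_coeff_one (A : SpecialLinearGroup (Fin 2) K1) :
    (qp A).coeff 1 = A.1 1 1 - A.1 0 0 := by
  simp [qp, Polynomial.coeff_C, Polynomial.coeff_X_pow]

theorem qp_coeff_two (A : SpecialLinearGroup (Fin 2) K1) : (qp A).coeff 2 = -A.1 0 1 := by
  simp [qp, Polynomial.coeff_C, Polynomial.coeff_X]

theorem qp_ne_zero {A : SpecialLinearGroup (Fin 2) K1} (h : tra A ^ 2 ≠ 4) : qp A ≠ 0 := by
  intro h0
  have e0 : A.1 1 0 = 0 := by rw [← qp_coeff_zero, h0, Polynomial.coeff_zero]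
  have e1 : A.1 1 1 - A.1 0 0 = 0 := by rw [← qp_coeff_one, h0, Polynomial.coeff_zero]
  have hd := det_entries A
  rw [e0] at hd
  apply h
  have e2 : A.1 1 1 = A.1 0 0 := by linear_combination e1
  rw [e2] at hd
  rw [tra, e2]
  linear_combination 4 * hd

theorem qp_sub_ne_zero [CharZero K1] {A B : SpecialLinearGroup (Fin 2) K1} (ht : tra A = tra B)
    (h : A ≠ B) : qp A - qp B ≠ 0 := by
  intro h0
  have h1 : qp A = qp B := sub_eq_zero.1 h0
  apply h
  have e0 : A.1 1 0 = B.1 1 0 := by rw [← qp_coeff_zero, h1, qp_coeff_zero]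
  have e1 : A.1 1 1 - A.1 0 0 = B.1 1 1 - B.1 0 0 := by rw [← qp_coeff_one, h1, qp_coeff_one]
  have e2 : A.1 0 1 = B.1 0 1 := by
    have : -A.1 0 1 = -B.1 0 1 := by rw [← qp_coeff_two, h1, qp_coeff_two]
    exact neg_inj.1 this
  have e3 : A.1 0 0 + A.1 1 1 = B.1 0 0 + B.1 1 1 := ht
  have two : (2 : K1) ≠ 0 := two_ne_zero
  have e4 : A.1 0 0 = B.1 0 0 := by
    have : (2 : K1) * A.1 0 0 = 2 * B.1 0 0 := by linear_combination e3 - e1
    exact mul_left_cancel₀ two this
  have e5 : A.1 1 1 = B.1 1 1 := by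
    have : (2 : K1) * A.1 1 1 = 2 * B.1 1 1 := by linear_combination e3 + e1
    exact mul_left_cancel₀ two this
  ext i j
  fin_cases i <;> fin_cases j
  · exact e4
  · exact e2
  · exact e0
  · exact e5

/-- a vector with nonzero determinants for finitely many matrices -/
theorem exists_vec65 [CharZero K1] {ι : Type} [Fintype ι] (M : ι → SpecialLinearGroup (Fin 2) K1)
    (hM : ∀ i, tra (M i) ^ 2 ≠ 4) (A B : SpecialLinearGroup (Fin 2) K1) (ht : tra A = tra B)
    (h : A ≠ B) :
    ∃ v : Fin 2 → K1, (∀ i, dtv v (ap (M i) v) ≠ 0) ∧ dtv v (ap A v) ≠ dtv v (ap B v) := by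
  have hP : (∏ i, qp (M i)) * (qp A - qp B) ≠ 0 :=
    mul_ne_zero (Finset.prod_ne_zero_iff.2 fun i _ => qp_ne_zero (hM i)) (qp_sub_ne_zero ht h)
  obtain ⟨t, ht'⟩ : ∃ t, ((∏ i, qp (M i)) * (qp A - qp B)).eval t ≠ 0 := by
    by_contra hcon
    push Not at hcon
    exact hP (Polynomial.funext fun t => by rw [hcon t, Polynomial.eval_zero])
  rw [Polynomial.eval_mul, Polynomial.eval_prod, Polynomial.eval_sub] at ht'
  obtain ⟨h1, h2⟩ := mul_ne_zero_iff.1 ht'
  refine ⟨![1, t], fun i => ?_, ?_⟩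
  · rw [← qp_eval]
    exact Finset.prod_ne_zero_iff.1 h1 i (Finset.mem_univ i)
  · rw [← qp_eval, ← qp_eval]
    exact sub_ne_zero.1 h2

end quad

end Pool.Agent.Lib.MP_e3aa0a_gt.FVL
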