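import Mathlib

/-!
# FVL, module Poly65: matrices with prescribed determinants `det (u, g u)`

Over a commutative ring `R` the handles of a polygon are rebuilt from determinants.
-/

set_option autoImplicit false

namespace Pool.Agent.Lib.MP_e3aa0a_gt.FVL

open Matrix

section Vec

variable {R : Type*} [CommRing R]

/-- the determinant of two vectors -/
def dtv (x y : Fin 2 → R) : R := x 0 * y 1 - x 1 * y 0

/-- the action of a matrix of determinant one -/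
def ap (A : SpecialLinearGroup (Fin 2) R) (x : Fin 2 → R) : Fin 2 → R := A.1.mulVec x

theorem ap_zero' (A : SpecialLinearGroup (Fin 2) R) (x : Fin 2 → R) :
    ap A x 0 = A.1 0 0 * x 0 + A.1 0 1 * x 1 := by
  simp [ap, Matrix.mulVec, dotProduct, Fin.sum_univ_two]

theorem ap_one' (A : SpecialLinearGroup (Fin 2) R) (x : Fin 2 → R) :
    ap A x 1 = A.1 1 0 * x 0 + A.1 1 1 * x 1 := by
  simp [ap, Matrix.mulVec, dotProduct, Fin.sum_univ_two]

omit [CommRing R] in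
theorem vext {x y : Fin 2 → R} (h0 : x 0 = y 0) (h1 : x 1 = y 1) : x = y := by
  funext i
  fin_cases i
  · exact h0
  · exact h1

theorem ap_mul (A B : SpecialLinearGroup (Fin 2) R) (x : Fin 2 → R) :
    ap (A * B) x = ap A (ap B x) := by
  unfold ap
  rw [Matrix.SpecialLinearGroup.coe_mul, Matrix.mulVec_mulVec]

theorem ap_one (x : Fin 2 → R) : ap 1 x = x := by
  simp [ap]

theorem ap_inv_ap (A : SpecialLinearGroup (Fin 2) R) (x : Fin 2 → R) :
    ap A⁻¹ (ap A x) = x := by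
  rw [← ap_mul, inv_mul_cancel, ap_one]

theorem ap_ap_inv (A : SpecialLinearGroup (Fin 2) R) (x : Fin 2 → R) :
    ap A (ap A⁻¹ x) = x := by
  rw [← ap_mul, mul_inv_cancel, ap_one]

theorem det_entries (A : SpecialLinearGroup (Fin 2) R) :
    A.1 0 0 * A.1 1 1 - A.1 0 1 * A.1 1 0 = 1 := by
  have := A.2
  rwa [Matrix.det_fin_two] at this

theorem dt_ap (A : SpecialLinearGroup (Fin 2) R) (x y : Fin 2 → R) :
    dtv (ap A x) (ap A y) = dtv x y := by
  have h := det_entries A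
  simp only [dtv, ap_zero', ap_one']
  linear_combination (x 0 * y 1 - x 1 * y 0) * h

theorem dt_inv_left (A : SpecialLinearGroup (Fin 2) R) (x y : Fin 2 → R) :
    dtv (ap A⁻¹ x) y = dtv x (ap A y) := by
  rw [← dt_ap A, ap_ap_inv]

theorem dt_inv_right (A : SpecialLinearGroup (Fin 2) R) (x y : Fin 2 → R) :
    dtv x (ap A⁻¹ y) = dtv (ap A x) y := by
  rw [← dt_ap A, ap_ap_inv]

theorem dt_self (x : Fin 2 → R) : dtv x x = 0 := by simp only [dtv]; ring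

theorem dt_symm (x y : Fin 2 → R) : dtv x y = -dtv y x := by simp only [dtv]; ring

/-- two vectors with the same determinants with a frame are equal -/
theorem eq_of_dt {p q : Fin 2 → R} (h : IsUnit (dtv p q)) {x y : Fin 2 → R}
    (h1 : dtv p x = dtv p y) (h2 : dtv x q = dtv y q) : x = y := by
  obtain ⟨d, hd⟩ := h
  have key : ∀ z : Fin 2 → R, ∀ i, dtv p q * z i = dtv z q * p i + dtv p z * q i := by
    intro z i
    fin_cases i <;> simp only [dtv, Fin.zero_eta, Fin.mk_one] <;> ring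
  funext i
  have hx := key x i
  have hy := key y i
  rw [h1, h2, ← hy, ← hd] at hx
  exact d.isUnit.mul_left_cancel hx

/-- the matrix that sends the frame `x, y` to `x', y'`; `e` is the inverse of `dtv x y` -/
def fr (e : R) (x y x' y' : Fin 2 → R) : Matrix (Fin 2) (Fin 2) R :=
  !![e * (x' 0 * y 1 - y' 0 * x 1), e * (y' 0 * x 0 - x' 0 * y 0);
     e * (x' 1 * y 1 - y' 1 * x 1), e * (y' 1 * x 0 - x' 1 * y 0)]

theorem fr_det {e : R} {x y x' y' : Fin 2 → R} (h : e * dtv x y = 1) (h' : dtv x' y' = dtv x y) :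
    (fr e x y x' y').det = 1 := by
  have h2 : e * dtv x' y' = 1 := by rw [h', h]
  have : (fr e x y x' y').det = (e * dtv x' y') * (e * dtv x y) := by
    simp only [fr, Matrix.det_fin_two_of, dtv]
    ring
  rw [this, h, h2, one_mul]

/-- the same as an element of the group -/
def frm (e : R) (x y x' y' : Fin 2 → R) (h : e * dtv x y = 1) (h' : dtv x' y' = dtv x y) :
    SpecialLinearGroup (Fin 2) R := ⟨fr e x y x' y', fr_det h h'⟩

theorem frm_00 {e : R} {x y x' y' : Fin 2 → R} (h : e * dtv x y = 1) (h' : dtv x' y' = dtv x y) :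
    (frm e x y x' y' h h').1 0 0 = e * (x' 0 * y 1 - y' 0 * x 1) := rfl

theorem frm_01 {e : R} {x y x' y' : Fin 2 → R} (h : e * dtv x y = 1) (h' : dtv x' y' = dtv x y) :
    (frm e x y x' y' h h').1 0 1 = e * (y' 0 * x 0 - x' 0 * y 0) := rfl

theorem frm_10 {e : R} {x y x' y' : Fin 2 → R} (h : e * dtv x y = 1) (h' : dtv x' y' = dtv x y) :
    (frm e x y x' y' h h').1 1 0 = e * (x' 1 * y 1 - y' 1 * x 1) := rfl

theorem frm_11 {e : R} {x y x' y' : Fin 2 → R} (h : e * dtv x y = 1) (h' : dtv x' y' = dtv x y) :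
    (frm e x y x' y' h h').1 1 1 = e * (y' 1 * x 0 - x' 1 * y 0) := rfl

theorem frm_left {e : R} {x y x' y' : Fin 2 → R} (h : e * dtv x y = 1) (h' : dtv x' y' = dtv x y) :
    ap (frm e x y x' y' h h') x = x' := by
  have hh : e * (x 0 * y 1 - x 1 * y 0) = 1 := h
  refine vext ?_ ?_
  · rw [ap_zero', frm_00, frm_01]
    linear_combination x' 0 * hh
  · rw [ap_one', frm_10, frm_11]
    linear_combination x' 1 * hh

theorem frm_right {e : R} {x y x' y' : Fin 2 → R} (h : e * dtv x y = 1) (h' : dtv x' y' = dtv x y) :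
    ap (frm e x y x' y' h h') y = y' := by
  have hh : e * (x 0 * y 1 - x 1 * y 0) = 1 := h
  refine vext ?_ ?_
  · rw [ap_zero', frm_00, frm_01]
    linear_combination y' 0 * hh
  · rw [ap_one', frm_10, frm_11]
    linear_combination y' 1 * hh

/-- a matrix is determined by its values on a frame -/
theorem ap_ext {x y : Fin 2 → R} (h : IsUnit (dtv x y)) {A B : SpecialLinearGroup (Fin 2) R}
    (h1 : ap A x = ap B x) (h2 : ap A y = ap B y) : A = B := by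
  have key : ∀ z : Fin 2 → R, ap A z = ap B z := by
    intro z
    obtain ⟨d, hd⟩ := h
    have hA : dtv x y • ap A z = dtv z y • ap A x + dtv x z • ap A y := by
      refine vext ?_ ?_ <;> simp only [dtv, Pi.smul_apply, Pi.add_apply,
        smul_eq_mul, ap_zero', ap_one'] <;> ring
    have hB : dtv x y • ap B z = dtv z y • ap B x + dtv x z • ap B y := by
      refine vext ?_ ?_ <;> simp only [dtv, Pi.smul_apply, Pi.add_apply,
        smul_eq_mul, ap_zero', ap_one'] <;> ring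
    have : dtv x y • ap A z = dtv x y • ap B z := by rw [hA, hB, h1, h2]
    funext i
    have hi := congrFun this i
    simp only [Pi.smul_apply, smul_eq_mul, ← hd] at hi
    exact d.isUnit.mul_left_cancel hi
  ext i j
  have h0 := key ![1, 0]
  have h1' := key ![0, 1]
  have a0 := congrFun h0 0
  have a1 := congrFun h0 1
  have a2 := congrFun h1' 0
  have a3 := congrFun h1' 1
  simp only [ap_zero', ap_one', Matrix.cons_val_zero, Matrix.cons_val_one, mul_one,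
    mul_zero, add_zero, zero_add] at a0 a1 a2 a3
  fin_cases i <;> fin_cases j <;> assumption

theorem dt_add_left (x y z : Fin 2 → R) : dtv (x + y) z = dtv x z + dtv y z := by
  simp only [dtv, Pi.add_apply]; ring

theorem dt_add_right (x y z : Fin 2 → R) : dtv x (y + z) = dtv x y + dtv x z := by
  simp only [dtv, Pi.add_apply]; ring

theorem dt_sub_left (x y z : Fin 2 → R) : dtv (x - y) z = dtv x z - dtv y z := by
  simp only [dtv, Pi.sub_apply]; ring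

theorem dt_sub_right (x y z : Fin 2 → R) : dtv x (y - z) = dtv x y - dtv x z := by
  simp only [dtv, Pi.sub_apply]; ring

theorem dt_smul_left (c : R) (x y : Fin 2 → R) : dtv (c • x) y = c * dtv x y := by
  simp only [dtv, Pi.smul_apply, smul_eq_mul]; ring

theorem dt_smul_right (c : R) (x y : Fin 2 → R) : dtv x (c • y) = c * dtv x y := by
  simp only [dtv, Pi.smul_apply, smul_eq_mul]; ring

/-- the base vector -/
def u0 : Fin 2 → R := ![1, 0]

/-- the trace -/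
def tra (A : SpecialLinearGroup (Fin 2) R) : R := A.1 0 0 + A.1 1 1

theorem dt_mul_tra (A : SpecialLinearGroup (Fin 2) R) (x y : Fin 2 → R) :
    dtv x y * tra A = dtv (ap A x) y + dtv x (ap A y) := by
  simp only [dtv, tra, ap_zero', ap_one']
  ring

/-- the six determinants of a handle `a, b` in front of the product `D` -/
structure Hnd (D : SpecialLinearGroup (Fin 2) R) (α β y₁ y₂ y₃ y₄ : R)
    (a b : SpecialLinearGroup (Fin 2) R) : Prop where
  ha : dtv u0 (ap a u0) = α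
  hb : dtv u0 (ap b u0) = β
  h1 : dtv (ap b u0) (ap D u0) = y₁
  h2 : dtv (ap (b * a) u0) (ap D u0) = y₂
  h3 : dtv (ap (b * a * b⁻¹) u0) (ap D u0) = y₃
  h4 : dtv (ap (b * a * b⁻¹ * a⁻¹) u0) (ap D u0) = y₄

/-- existence of a handle with prescribed determinants -/
theorem step_exists (D : SpecialLinearGroup (Fin 2) R) (P : Fin 2 → R) (α β y₁ y₂ y₃ : Rˣ) (y₄ : R)
    (hP : dtv u0 P = β) (hY : dtv P (ap D u0) = y₁) :
    ∃ a b : SpecialLinearGroup (Fin 2) R, ap b u0 = P ∧ Hnd D α β y₁ y₂ y₃ y₄ a b := by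
  set Y := ap D u0 with hYdef
  obtain ⟨P2, hP2⟩ : ∃ P2 : Fin 2 → R, P2 = (↑(y₁⁻¹) : R) • ((y₂ : R) • P + (α : R) • Y) :=
    ⟨_, rfl⟩
  have e12 : dtv P P2 = α := by
    rw [hP2, dt_smul_right, dt_add_right, dt_smul_right, dt_smul_right, dt_self, hY]
    linear_combination (α : R) * y₁.inv_mul
  have e2 : dtv P2 Y = y₂ := by
    rw [hP2, dt_smul_left, dt_add_left, dt_smul_left, dt_smul_left, dt_self, hY]
    linear_combination (y₂ : R) * y₁.inv_mul
  obtain ⟨P3, hP3⟩ : ∃ P3 : Fin 2 → R, P3 = (↑(y₂⁻¹) : R) • ((y₃ : R) • P2 - (β : R) • Y) :=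
    ⟨_, rfl⟩
  have e32 : dtv P3 P2 = β := by
    rw [hP3, dt_smul_left, dt_sub_left, dt_smul_left, dt_smul_left, dt_self, dt_symm Y P2, e2]
    linear_combination (β : R) * y₂.inv_mul
  have e3 : dtv P3 Y = y₃ := by
    rw [hP3, dt_smul_left, dt_sub_left, dt_smul_left, dt_smul_left, dt_self, e2]
    linear_combination (y₃ : R) * y₂.inv_mul
  obtain ⟨P4, hP4⟩ : ∃ P4 : Fin 2 → R, P4 = (↑(y₃⁻¹) : R) • ((y₄ : R) • P3 - (α : R) • Y) :=
    ⟨_, rfl⟩
  have e43 : dtv P4 P3 = α := by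
    rw [hP4, dt_smul_left, dt_sub_left, dt_smul_left, dt_smul_left, dt_self, dt_symm Y P3, e3]
    linear_combination (α : R) * y₃.inv_mul
  have e4 : dtv P4 Y = y₄ := by
    rw [hP4, dt_smul_left, dt_sub_left, dt_smul_left, dt_smul_left, dt_self, e3]
    linear_combination (y₄ : R) * y₃.inv_mul
  have f1 : (↑(β⁻¹) : R) * dtv u0 P = 1 := by rw [hP]; exact β.inv_mul
  have f2 : dtv P3 P2 = dtv u0 P := by rw [e32, hP]
  have f3 : (↑(α⁻¹) : R) * dtv P P2 = 1 := by rw [e12]; exact α.inv_mul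
  have f4 : dtv P4 P3 = dtv P P2 := by rw [e43, e12]
  obtain ⟨m, hm1, hm2⟩ : ∃ m : SpecialLinearGroup (Fin 2) R, ap m u0 = P3 ∧ ap m P = P2 :=
    ⟨frm _ _ _ _ _ f1 f2, frm_left f1 f2, frm_right f1 f2⟩
  obtain ⟨n, hn1, hn2⟩ : ∃ n : SpecialLinearGroup (Fin 2) R, ap n P = P4 ∧ ap n P2 = P3 :=
    ⟨frm _ _ _ _ _ f3 f4, frm_left f3 f4, frm_right f3 f4⟩
  have m1 : ap m⁻¹ P3 = u0 := by rw [← hm1, ap_inv_ap]
  have m2 : ap m⁻¹ P2 = P := by rw [← hm2, ap_inv_ap]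
  have n1 : ap n⁻¹ P4 = P := by rw [← hn1, ap_inv_ap]
  have n2 : ap n⁻¹ P3 = P2 := by rw [← hn2, ap_inv_ap]
  refine ⟨(m⁻¹ * n⁻¹ * m)⁻¹ * (n⁻¹ * m), m⁻¹ * n⁻¹ * m, ?_, ?_⟩
  · rw [ap_mul, ap_mul, hm1, n2, m2]
  · have g1 : ap (m⁻¹ * n⁻¹ * m) u0 = P := by rw [ap_mul, ap_mul, hm1, n2, m2]
    have g2 : m⁻¹ * n⁻¹ * m * ((m⁻¹ * n⁻¹ * m)⁻¹ * (n⁻¹ * m)) = n⁻¹ * m := by group
    have g3 : ap (n⁻¹ * m) u0 = P2 := by rw [ap_mul, hm1, n2]
    refine ⟨?_, ?_, ?_, ?_, ?_, ?_⟩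
    · rw [← dt_ap (m⁻¹ * n⁻¹ * m), g1, ← ap_mul, g2, g3, e12]
    · rw [g1, hP]
    · rw [g1, hY]
    · rw [g2, g3, e2]
    · have : m⁻¹ * n⁻¹ * m * ((m⁻¹ * n⁻¹ * m)⁻¹ * (n⁻¹ * m)) * (m⁻¹ * n⁻¹ * m)⁻¹ = m := by group
      rw [this, hm1, e3]
    · have : m⁻¹ * n⁻¹ * m * ((m⁻¹ * n⁻¹ * m)⁻¹ * (n⁻¹ * m)) * (m⁻¹ * n⁻¹ * m)⁻¹ *
          ((m⁻¹ * n⁻¹ * m)⁻¹ * (n⁻¹ * m))⁻¹ = n * m⁻¹ * n⁻¹ * m := by group
      rw [this, ap_mul, ap_mul, ap_mul, hm1, n2, m2, hn1, e4]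

/-- uniqueness of a handle with prescribed determinants -/
theorem step_unique {D : SpecialLinearGroup (Fin 2) R} {α β y₁ y₂ y₃ y₄ : R}
    (hα : IsUnit α) (hβ : IsUnit β) (h₁ : IsUnit y₁) (h₂ : IsUnit y₂) (h₃ : IsUnit y₃)
    {a b a' b' : SpecialLinearGroup (Fin 2) R} (hb : ap b u0 = ap b' u0)
    (h : Hnd D α β y₁ y₂ y₃ y₄ a b) (h' : Hnd D α β y₁ y₂ y₃ y₄ a' b') : a = a' ∧ b = b' := by
  have key : ∀ {a b : SpecialLinearGroup (Fin 2) R}, Hnd D α β y₁ y₂ y₃ y₄ a b →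
      dtv (ap b u0) (ap (b * a) u0) = α ∧ dtv (ap (b * a) u0) (ap (b * a * b⁻¹) u0) = -β ∧
      dtv (ap (b * a * b⁻¹) u0) (ap (b * a * b⁻¹ * a⁻¹) u0) = -α := by
    intro a b h
    refine ⟨?_, ?_, ?_⟩
    · rw [ap_mul b a, dt_ap, h.ha]
    · rw [ap_mul (b * a) b⁻¹, dt_ap, ← dt_ap b, ap_ap_inv, dt_symm, h.hb]
    · rw [ap_mul (b * a * b⁻¹) a⁻¹, dt_ap, ← dt_ap a, ap_ap_inv, dt_symm, h.ha]
  obtain ⟨k1, k2, k3⟩ := key h
  obtain ⟨k1', k2', k3'⟩ := key h'
  have p2 : ap (b * a) u0 = ap (b' * a') u0 := by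
    refine eq_of_dt (p := ap b u0) (q := ap D u0) (by rw [h.h1]; exact h₁) ?_ ?_
    · rw [k1, hb, k1']
    · rw [h.h2, h'.h2]
  have p3 : ap (b * a * b⁻¹) u0 = ap (b' * a' * b'⁻¹) u0 := by
    refine eq_of_dt (p := ap (b * a) u0) (q := ap D u0) (by rw [h.h2]; exact h₂) ?_ ?_
    · rw [k2, p2, k2']
    · rw [h.h3, h'.h3]
  have p4 : ap (b * a * b⁻¹ * a⁻¹) u0 = ap (b' * a' * b'⁻¹ * a'⁻¹) u0 := by
    refine eq_of_dt (p := ap (b * a * b⁻¹) u0) (q := ap D u0) (by rw [h.h3]; exact h₃) ?_ ?_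
    · rw [k3, p3, k3']
    · rw [h.h4, h'.h4]
  have em : b * a * b⁻¹ = b' * a' * b'⁻¹ := by
    refine ap_ext (x := u0) (y := ap b u0) (by rw [h.hb]; exact hβ) p3 ?_
    have l1 : ap (b * a * b⁻¹) (ap b u0) = ap (b * a) u0 := by
      rw [ap_mul (b * a), ap_inv_ap]
    have l2 : ap (b' * a' * b'⁻¹) (ap b u0) = ap (b' * a') u0 := by
      rw [hb, ap_mul (b' * a'), ap_inv_ap]
    rw [l1, l2, p2]
  have en : b * a * b⁻¹ * a⁻¹ * b⁻¹ = b' * a' * b'⁻¹ * a'⁻¹ * b'⁻¹ := by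
    refine ap_ext (x := ap b u0) (y := ap (b * a) u0) (by rw [k1]; exact hα) ?_ ?_
    · have l1 : ap (b * a * b⁻¹ * a⁻¹ * b⁻¹) (ap b u0) = ap (b * a * b⁻¹ * a⁻¹) u0 := by
        rw [ap_mul (b * a * b⁻¹ * a⁻¹), ap_inv_ap]
      have l2 : ap (b' * a' * b'⁻¹ * a'⁻¹ * b'⁻¹) (ap b u0) = ap (b' * a' * b'⁻¹ * a'⁻¹) u0 := by
        rw [hb, ap_mul (b' * a' * b'⁻¹ * a'⁻¹), ap_inv_ap]
      rw [l1, l2, p4]
    · have l1 : ap (b * a * b⁻¹ * a⁻¹ * b⁻¹) (ap (b * a) u0) = ap (b * a * b⁻¹) u0 := by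
        rw [← ap_mul]
        congr 1
        group
      have l2 : ap (b' * a' * b'⁻¹ * a'⁻¹ * b'⁻¹) (ap (b * a) u0) = ap (b' * a' * b'⁻¹) u0 := by
        rw [p2, ← ap_mul]
        congr 1
        group
      rw [l1, l2, p3]
  have eb : ∀ a b : SpecialLinearGroup (Fin 2) R,
      (b * a * b⁻¹)⁻¹ * (b * a * b⁻¹ * a⁻¹ * b⁻¹)⁻¹ * (b * a * b⁻¹) = b := by
    intro a b
    group
  have hbb : b = b' := by rw [← eb a b, en, em, eb a' b']
  have ea : ∀ a b : SpecialLinearGroup (Fin 2) R, b⁻¹ * (b * a * b⁻¹) * b = a := by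
    intro a b
    group
  exact ⟨by rw [← ea a b, em, hbb, ea a' b'], hbb⟩

/-- the determinants of the last matrix `b`, with the linear trace condition -/
structure Lst (D : SpecialLinearGroup (Fin 2) R) (xb xc : R)
    (b : SpecialLinearGroup (Fin 2) R) : Prop where
  hb : dtv u0 (ap b u0) = xb
  hc : dtv (ap D u0) (ap b u0) = xc
  ht : tra b = tra (D⁻¹ * b)

theorem last_exists (D : SpecialLinearGroup (Fin 2) R) (y d : Rˣ) (xb xc : R)
    (hy : dtv u0 (ap D u0) = y) (hd : (d : R) = xb - xc) :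
    ∃ b : SpecialLinearGroup (Fin 2) R, Lst D xb xc b := by
  set Y := ap D u0 with hYdef
  obtain ⟨w, hw⟩ : ∃ w : Fin 2 → R, w = (↑(y⁻¹) : R) • (xb • Y - xc • u0) := ⟨_, rfl⟩
  have w1 : dtv u0 w = xb := by
    rw [hw, dt_smul_right, dt_sub_right, dt_smul_right, dt_smul_right, dt_self, hy]
    linear_combination xb * y.inv_mul
  have w2 : dtv Y w = xc := by
    rw [hw, dt_smul_right, dt_sub_right, dt_smul_right, dt_smul_right, dt_self, dt_symm Y u0, hy]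
    linear_combination xc * y.inv_mul
  have w3 : dtv (u0 - Y) w = d := by rw [dt_sub_left, w1, w2, hd]
  obtain ⟨kp, hkp⟩ : ∃ kp : R, kp = dtv w (ap D Y - Y) := ⟨_, rfl⟩
  obtain ⟨Z, hZ⟩ : ∃ Z : Fin 2 → R, Z = (↑(d⁻¹) : R) • (kp • w - (y : R) • (u0 - Y)) := ⟨_, rfl⟩
  have z1 : dtv w Z = y := by
    rw [hZ, dt_smul_right, dt_sub_right, dt_smul_right, dt_smul_right, dt_self,
      dt_symm w (u0 - Y), w3]
    linear_combination (y : R) * d.inv_mul
  have z2 : dtv (u0 - Y) Z = kp := by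
    rw [hZ, dt_smul_right, dt_sub_right, dt_smul_right, dt_smul_right, dt_self, w3]
    linear_combination kp * d.inv_mul
  have f1 : (↑(y⁻¹) : R) * dtv u0 Y = 1 := by rw [hy]; exact y.inv_mul
  have f2 : dtv w Z = dtv u0 Y := by rw [z1, hy]
  obtain ⟨b, hb1, hb2⟩ : ∃ b : SpecialLinearGroup (Fin 2) R, ap b u0 = w ∧ ap b Y = Z :=
    ⟨frm _ _ _ _ _ f1 f2, frm_left f1 f2, frm_right f1 f2⟩
  refine ⟨b, ?_, ?_, ?_⟩
  · rw [hb1, w1]
  · rw [hb1, w2]
  · have t1 := dt_mul_tra b u0 Y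
    have t2 := dt_mul_tra (D⁻¹ * b) u0 Y
    rw [hb1, hb2] at t1
    rw [ap_mul, ap_mul, hb1, hb2, dt_inv_left, dt_inv_right, ← hYdef] at t2
    rw [dt_sub_left] at z2
    rw [dt_sub_right] at hkp
    have : dtv u0 Y * tra b = dtv u0 Y * tra (D⁻¹ * b) := by
      rw [t1, t2]
      linear_combination z2 + hkp
    have h3 := congrArg (fun t => (↑(y⁻¹) : R) * t) this
    simp only [← mul_assoc, f1, one_mul] at h3
    exact h3

theorem last_unique {D : SpecialLinearGroup (Fin 2) R} {xb xc : R}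
    (hy : IsUnit (dtv u0 (ap D u0))) (hd : IsUnit (xb - xc)) {b b' : SpecialLinearGroup (Fin 2) R}
    (h : Lst D xb xc b) (h' : Lst D xb xc b') : b = b' := by
  have key : ∀ {b : SpecialLinearGroup (Fin 2) R}, Lst D xb xc b →
      dtv (u0 - ap D u0) (ap b (ap D u0)) =
        dtv (ap b u0) (ap D (ap D u0) - ap D u0) ∧
      dtv (ap b u0) (ap b (ap D u0)) = dtv u0 (ap D u0) := by
    intro b h
    refine ⟨?_, dt_ap _ _ _⟩
    have t1 := dt_mul_tra b u0 (ap D u0)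
    have t2 := dt_mul_tra (D⁻¹ * b) u0 (ap D u0)
    rw [ap_mul, ap_mul, dt_inv_left, dt_inv_right] at t2
    rw [dt_sub_left, dt_sub_right]
    rw [← h.ht, t1] at t2
    linear_combination t2
  have e1 : ap b u0 = ap b' u0 := by
    refine eq_of_dt hy ?_ ?_
    · rw [h.hb, h'.hb]
    · rw [dt_symm, h.hc, dt_symm, h'.hc]
  obtain ⟨k1, k2⟩ := key h
  obtain ⟨k1', k2'⟩ := key h'
  refine ap_ext hy e1 ?_
  refine eq_of_dt (p := u0 - ap D u0) (q := ap b u0) ?_ ?_ ?_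
  · rw [dt_sub_left, h.hb, h.hc]; exact hd
  · rw [k1, k1', e1]
  · have l1 := dt_symm (ap b (ap D u0)) (ap b u0)
    have l2 := dt_symm (ap b' (ap D u0)) (ap b' u0)
    rw [k2] at l1
    rw [k2'] at l2
    rw [l1, e1, l2]

end Vec

end Pool.Agent.Lib.MP_e3aa0a_gt.FVL
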