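import Pool.Agent.Lib.MP_e3aa0a_gt.FVL.Wrd65

/-!
# FVL, module Spc65: the generic representation with monomial determinants
-/

set_option autoImplicit false

namespace Pool.Agent.Lib.MP_e3aa0a_gt.FVL

open Matrix

section maps

theorem slmap_comp {R S T : Type*} [CommRing R] [CommRing S] [CommRing T] (f : S →+* T)
    (g : R →+* S) (A : SpecialLinearGroup (Fin 2) R) :
    SpecialLinearGroup.map f (SpecialLinearGroup.map g A) =
      SpecialLinearGroup.map (f.comp g) A := by
  ext i j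
  rfl

theorem slmap_inj {R S : Type*} [CommRing R] [CommRing S] {f : R →+* S}
    (hf : Function.Injective f) : Function.Injective (SpecialLinearGroup.map (n := Fin 2) f) := by
  intro A B h
  ext i j
  apply hf
  have := congrArg (fun M : SpecialLinearGroup (Fin 2) S => M.1 i j) h
  exact this

theorem dt_ap_map {R S : Type*} [CommRing R] [CommRing S] (f : R →+* S)
    (A : SpecialLinearGroup (Fin 2) R) :
    dtv u0 (ap (SpecialLinearGroup.map f A) u0) = f (dtv u0 (ap A u0)) := by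
  rw [ap_map_u0, ← u0_map f, dt_map]

/-- the formula for the trace of the last matrix -/
theorem Lst.trace {R : Type*} [CommRing R] {D b : SpecialLinearGroup (Fin 2) R} {xb xc y : R}
    (h : Lst D xb xc b) (hy : dtv u0 (ap D u0) = y) :
    y * (xb - xc) * tra b = xb ^ 2 + xc ^ 2 - xb * xc * tra D + y ^ 2 := by
  have hd := det_entries D
  have hdb := det_entries b
  have e1 := h.hb
  have e2 := h.hc
  have e3 := h.ht
  simp only [dtv, ap_zero', ap_one', u0, Matrix.cons_val_zero, Matrix.cons_val_one] at e1 e2 hy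
  have e3' : b.1 0 0 + b.1 1 1 = D.1 1 1 * b.1 0 0 - D.1 0 1 * b.1 1 0 +
      (-D.1 1 0 * b.1 0 1 + D.1 0 0 * b.1 1 1) := by
    rw [tra, tra, vmul, vinv] at e3
    rw [e3]
    simp only [Matrix.mul_apply, Fin.sum_univ_two, Matrix.of_apply, Matrix.cons_val', Matrix.cons_val_zero,
      Matrix.cons_val_one, Matrix.cons_val_fin_one]
    ring
  rw [tra, tra, ← e1, ← e2, ← hy]
  linear_combination ((D.1 1 0) ^ 2) * hdb + (D.1 1 0 * b.1 1 0) * e3' + (b.1 1 0) ^ 2 * hd

end maps

section laurent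

open HahnSeries

/-- the coefficients of the Laurent polynomial `p (T⁻¹)` -/
theorem lau_coeff {R F : Type*} [CommRing R] [Field F] (e : R →+* F) (p : Polynomial R) (m : ℕ) :
    (Polynomial.eval₂ ((HahnSeries.C (Γ := ℤ)).comp e) (HahnSeries.single (-1 : ℤ) (1 : F))
      p).coeff (-(m : ℤ)) = e (p.coeff m) := by
  induction p using Polynomial.induction_on' with
  | add p q hp hq => rw [Polynomial.eval₂_add, coeff_add, hp, hq, Polynomial.coeff_add, map_add]
  | monomial k a =>
    rw [Polynomial.eval₂_monomial, RingHom.comp_apply, HahnSeries.C_apply, single_pow,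
      single_mul_single, Polynomial.coeff_monomial]
    have hk : (0 : ℤ) + k • (-1 : ℤ) = -(k : ℤ) := by simp
    rw [hk, one_pow, mul_one, coeff_single]
    by_cases h : k = m
    · subst h
      simp
    · have h' : ¬ (-(m : ℤ) = -(k : ℤ)) := by
        intro h2
        apply h
        omega
      rw [if_neg h', if_neg h, map_zero]

theorem lau_inj {R F : Type*} [CommRing R] [Field F] {e : R →+* F} (he : Function.Injective e) :
    Function.Injective (Polynomial.eval₂RingHom ((HahnSeries.C (Γ := ℤ)).comp e)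
      (HahnSeries.single (-1 : ℤ) (1 : F))) := by
  rw [injective_iff_map_eq_zero]
  intro p hp
  ext m
  have := lau_coeff e p m
  rw [Polynomial.coe_eval₂RingHom] at hp
  rw [hp, coeff_zero] at this
  rw [Polynomial.coeff_zero]
  exact he (by rw [← this, map_zero])

end laurent

/-- **The generic representation**, for a representation in normal position -/
theorem spec_core65 {n : ℕ} (hn : 0 < n) {K1 Ka : Type} [Field K1] [Field Ka]
    (ρ1 : FreeGroup (Option (Gen n)) →* SpecialLinearGroup (Fin 2) K1)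
    (ht : tra (ρ1 bb) = tra (ρ1 (cc (relW n))))
    (cst : Option (Option (Fin 6 × Fin n)) → K1)
    (hc : ∀ e, dtv u0 (ap (ρ1 (labH n e)) u0) = cst e) (hc0 : ∀ e, cst e ≠ 0)
    (hbc : cst none ≠ cst (some none))
    (h0 : ap (ρ1 (up (bN n 0))) u0 = ![0, cst (some (some (1, ⟨0, hn⟩)))])
    (j : MvPolynomial (Option (Fin 6 × Fin n)) K1 →+* Ka) (hj : Function.Injective j) :
    ∃ (R : Type) (_ : CommRing R) (e : R →+* LaurentSeries Ka) (f : R →+* K1)
      (ρR : FreeGroup (Option (Gen n)) →* SpecialLinearGroup (Fin 2) R)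
      (ρa : FreeGroup (Gen n) →* SpecialLinearGroup (Fin 2) Ka),
      Function.Injective e ∧ (∀ h, SpecialLinearGroup.map f (ρR h) = ρ1 h) ∧
      (∀ h, SpecialLinearGroup.map e (ρR (up h)) =
        SpecialLinearGroup.map (HahnSeries.C (Γ := ℤ)) (ρa h)) ∧
      (∀ (s : Fin 6) (k : Fin n), ¬ (s = 2 ∧ k.1 = 0) →
        dtv u0 (ap (ρa (labF (aN n) (bN n) k.1 s)) u0) =
          j (MvPolynomial.C (cst (some (some (s, k)))) * MvPolynomial.X (some (s, k)))) ∧
      dtv u0 (ap (SpecialLinearGroup.map e (ρR bb)) u0) =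
        HahnSeries.single (-1 : ℤ) (j (MvPolynomial.C (cst none))) ∧
      dtv u0 (ap (SpecialLinearGroup.map e (ρR (cc (relW n)))) u0) =
        HahnSeries.C (j (MvPolynomial.C (cst (some none)) * MvPolynomial.X none)) ∧
      tra (ρR bb) = tra (ρR (cc (relW n))) := by
  classical
  -- the first ring
  obtain ⟨Ra, _, _, ia, ea, fa, hea, hia, hfa, hua⟩ :=
    place65 (MvPolynomial.eval (fun _ : Option (Fin 6 × Fin n) => (1 : K1))) j hj
  obtain ⟨xa, hxa⟩ : ∃ xa : Option (Fin 6 × Fin n) → Ra, ∀ i, xa i =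
      ia (MvPolynomial.C (cst (some i)) * MvPolynomial.X i) := ⟨_, fun _ => rfl⟩
  have hfx : ∀ i, fa (xa i) = cst (some i) := by
    intro i
    rw [hxa, ← RingHom.comp_apply, hfa]
    simp
  have hux : ∀ i, IsUnit (xa i) := fun i => hua _ (by rw [hfx]; exact hc0 _)
  choose ux hux using hux
  -- the units of the chain
  obtain ⟨U, hU⟩ : ∃ U : Fin 6 → ℕ → Raˣ, ∀ s k, U s k =
      if h : k < n then (if s = 2 ∧ k = 0 then -ux (some (1, ⟨k, h⟩)) else ux (some (s, ⟨k, h⟩)))
      else (if s = 2 ∧ k = 0 then -1 else 1) := ⟨_, fun _ _ => rfl⟩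
  have hU0 : U 2 0 = -U 1 0 := by
    rw [hU, hU, dif_pos hn, dif_pos hn]
    simp
  have hcneg : cst (some (some (2, ⟨0, hn⟩))) = -cst (some (some (1, ⟨0, hn⟩))) := by
    rw [← hc, labH]
    have : up (labF (aN n) (bN n) (⟨0, hn⟩ : Fin n).1 2) = (up (bN n 0))⁻¹ := by
      simp [labF, Dp, up]
    simp only
    rw [this, map_inv, dt_inv_right, h0]
    simp [dtv, u0]
  have hfU : ∀ s k (h : k < n), fa (U s k) = cst (some (some (s, ⟨k, h⟩))) := by
    intro s k h
    rw [hU, dif_pos h]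
    by_cases hs : s = 2 ∧ k = 0
    · obtain ⟨rfl, rfl⟩ := hs
      rw [if_pos ⟨rfl, rfl⟩, Units.val_neg, map_neg, hux, hfx, hcneg]
    · rw [if_neg hs, hux, hfx]
  have hlab : ∀ (s : Fin 6) (k : ℕ) (h : k < n),
      dtv u0 (ap (labF (fun i => ρ1 (up (aN n i))) (fun i => ρ1 (up (bN n i))) k s) u0) =
        cst (some (some (s, ⟨k, h⟩))) := by
    intro s k h
    rw [← hc, labH]
    simp only [up]
    rw [map_labF, map_labF]
  obtain ⟨a, b, hab, hm⟩ := chain_lift fa (fun i => ρ1 (up (aN n i))) (fun i => ρ1 (up (bN n i)))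
    (U 0) (U 1) (U 2) (U 3) (U 4) (U 5) hU0 (by rw [hfU 1 0 hn]; exact h0) n (by
      intro k hk
      rw [hfU 0 k hk, hfU 1 k hk, hfU 2 k hk, hfU 3 k hk, hfU 4 k hk, hfU 5 k hk]
      exact (hnd_iff _ _ k fun s => cst (some (some (s, ⟨k, hk⟩)))).2 fun s => hlab s k hk)
  have hab' : ∀ (s : Fin 6) (k : ℕ), k < n → dtv u0 (ap (labF a b k s) u0) = U s k := by
    intro s k hk
    exact (hnd_iff a b k fun s => (U s k : Ra)).1 (hab k hk) s
  -- the second ring
  obtain ⟨Rb, _, _, ib, eb, fb, heb, hib, hfb, hub⟩ :=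
    place65 (Polynomial.eval₂RingHom fa (1 : K1))
      (Polynomial.eval₂RingHom ((HahnSeries.C (Γ := ℤ)).comp ea) (HahnSeries.single (-1 : ℤ)
        (1 : Ka))) (lau_inj hea)
  obtain ⟨cb, hcb⟩ : ∃ cb : Ra →+* Rb, cb = ib.comp Polynomial.C := ⟨_, rfl⟩
  have hfc : fb.comp cb = fa := by
    rw [hcb, ← RingHom.comp_assoc, hfb]
    ext x
    simp
  have hec : eb.comp cb = (HahnSeries.C (Γ := ℤ)).comp ea := by
    rw [hcb, ← RingHom.comp_assoc, hib]
    ext x
    simp
  obtain ⟨m, rfl⟩ : ∃ m, n = m + 1 := ⟨n - 1, by omega⟩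
  have hy0 : dtv u0 (ap (Dp a b (m + 1)) u0) = U 5 m := hab' 5 m (Nat.lt_succ_self m)
  obtain ⟨Db, hDb⟩ : ∃ Db, Db = SpecialLinearGroup.map cb (Dp a b (m + 1)) := ⟨_, rfl⟩
  have hy1 : dtv u0 (ap Db u0) = (Units.map cb.toMonoidHom (U 5 m) : Rbˣ) := by
    rw [hDb, dt_ap_map, hy0]
    rfl
  obtain ⟨xb, hxb⟩ : ∃ xb, xb =
      ib (Polynomial.C (ia (MvPolynomial.C (cst none))) * Polynomial.X) := ⟨_, rfl⟩
  obtain ⟨xc, hxc⟩ : ∃ xc, xc = cb (xa none) := ⟨_, rfl⟩
  have hfxb : fb xb = cst none := by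
    rw [hxb, ← RingHom.comp_apply, hfb]
    simp only [Polynomial.coe_eval₂RingHom, Polynomial.eval₂_mul, Polynomial.eval₂_C,
      Polynomial.eval₂_X, mul_one]
    rw [← RingHom.comp_apply, hfa]
    simp
  have hfxc : fb xc = cst (some none) := by
    rw [hxc, ← RingHom.comp_apply, hfc, hfx]
  obtain ⟨d, hd⟩ : IsUnit (xb - xc) := hub _ (by
    rw [map_sub, hfxb, hfxc]
    exact sub_ne_zero.2 hbc)
  obtain ⟨bR, hbR⟩ := last_exists Db (Units.map cb.toMonoidHom (U 5 m)) d xb xc hy1 hd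
  -- the representations
  obtain ⟨g, hg⟩ : ∃ g : Gen (m + 1) → SpecialLinearGroup (Fin 2) Ra, g =
      Sum.elim (fun i => a (m + 1 - 1 - i.1)) (fun i => b (m + 1 - 1 - i.1)) := ⟨_, rfl⟩
  obtain ⟨ρRa, hρRa⟩ : ∃ ρRa : FreeGroup (Gen (m + 1)) →* SpecialLinearGroup (Fin 2) Ra,
      ρRa = FreeGroup.lift g := ⟨_, rfl⟩
  have hRa : ∀ k < m + 1, ρRa (aN (m + 1) k) = a k ∧ ρRa (bN (m + 1) k) = b k := by
    intro k hk
    rw [aN, bN, dif_pos hk, dif_pos hk, hρRa, FreeGroup.lift_apply_of, FreeGroup.lift_apply_of, hg]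
    have e : m + 1 - 1 - (m + 1 - 1 - k) = k := by omega
    simp only [Sum.elim_inl, Sum.elim_inr, e, and_self]
  have hRD : ∀ k ≤ m + 1, ρRa (Dp (aN (m + 1)) (bN (m + 1)) k) = Dp a b k := by
    intro k hk
    rw [map_Dp]
    exact Dp_congr k fun i hi => hRa i (lt_of_lt_of_le hi hk)
  have hRW : ρRa (relW (m + 1)) = Dp a b (m + 1) := by rw [← Dp_aN, hRD _ le_rfl]
  have hRl : ∀ (s : Fin 6) (k : ℕ), k < m + 1 →
      ρRa (labF (aN (m + 1)) (bN (m + 1)) k s) = labF a b k s := by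
    intro s k hk
    have h1 := hRD k hk.le
    obtain ⟨h2, h3⟩ := hRa k hk
    fin_cases s <;> simp [labF, h1, h2, h3]
  obtain ⟨ρR, hρR⟩ : ∃ ρR : FreeGroup (Option (Gen (m + 1))) →* SpecialLinearGroup (Fin 2) Rb,
      ρR = FreeGroup.lift (fun o => o.elim bR fun x => SpecialLinearGroup.map cb (g x)) := ⟨_, rfl⟩
  have hRup : ∀ h, ρR (up h) = SpecialLinearGroup.map cb (ρRa h) := by
    intro h
    have : ρR.comp (FreeGroup.map some) = (SpecialLinearGroup.map cb).comp ρRa := by
      rw [hρR, hρRa]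
      ext1 x
      simp
    exact DFunLike.congr_fun this h
  have hRbb : ρR bb = bR := by
    rw [hρR, bb, FreeGroup.lift_apply_of]
    rfl
  have hRcc : ρR (cc (relW (m + 1))) = Db⁻¹ * bR := by
    rw [cc, map_mul, map_inv, hRup, hRW, hRbb, hDb]
  have hf1 : ∀ h, SpecialLinearGroup.map fb (ρR (up h)) = SpecialLinearGroup.map fa (ρRa h) := by
    intro h
    rw [hRup, slmap_comp, hfc]
  have hfup : ∀ h, SpecialLinearGroup.map fb (ρR (up h)) = ρ1 (up h) := by
    intro h
    have : ((SpecialLinearGroup.map fb).comp ρR).comp (FreeGroup.map some) =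
        ρ1.comp (FreeGroup.map some) := by
      ext1 x
      have e1 : ((SpecialLinearGroup.map fb).comp ρR).comp (FreeGroup.map some)
          (FreeGroup.of x) = SpecialLinearGroup.map fa (ρRa (FreeGroup.of x)) := hf1 _
      rw [e1, hρRa, FreeGroup.lift_apply_of, hg]
      rcases x with i | i
      · have h1 := (hm (m + 1 - 1 - i.1) (by omega)).1
        rw [aN_rev] at h1
        exact h1
      · have h1 := (hm (m + 1 - 1 - i.1) (by omega)).2
        rw [bN_rev] at h1
        exact h1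
    exact DFunLike.congr_fun this h
  have hfD : SpecialLinearGroup.map fb Db = ρ1 (up (relW (m + 1))) := by
    rw [← hfup, hRup, hRW, hDb]
  have hL1 : Lst (ρ1 (up (relW (m + 1)))) (cst none) (cst (some none)) (ρ1 bb) := by
    refine ⟨hc none, ?_, ?_⟩
    · rw [← dt_inv_right, ← ap_mul, ← map_inv, ← map_mul]
      exact hc (some none)
    · rw [← map_inv, ← map_mul]
      exact ht
  have hL2 := hbR.map fb
  rw [hfD, hfxb, hfxc] at hL2
  have hfb1 : SpecialLinearGroup.map fb bR = ρ1 bb := by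
    refine last_unique ?_ ?_ hL2 hL1
    · have h1 := hc (some (some (5, ⟨m, Nat.lt_succ_self m⟩)))
      have h2 : labH (m + 1) (some (some (5, ⟨m, Nat.lt_succ_self m⟩))) =
          up (relW (m + 1)) := by
        rw [labH, ← Dp_aN]
        rfl
      rw [h2] at h1
      rw [h1]
      exact isUnit_iff_ne_zero.2 (hc0 _)
    · exact isUnit_iff_ne_zero.2 (sub_ne_zero.2 hbc)
  refine ⟨Rb, inferInstance, eb, fb, ρR, (SpecialLinearGroup.map ea).comp ρRa, heb, ?_, ?_, ?_,
    ?_, ?_, ?_⟩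
  · intro h
    have : (SpecialLinearGroup.map fb).comp ρR = ρ1 := by
      ext1 o
      rcases o with _ | x
      · show SpecialLinearGroup.map fb (ρR bb) = ρ1 bb
        rw [hRbb, hfb1]
      · have := hfup (FreeGroup.of x)
        rw [up, FreeGroup.map.of] at this
        exact this
    exact DFunLike.congr_fun this h
  · intro h
    rw [hRup, slmap_comp, hec, MonoidHom.comp_apply, slmap_comp]
  · intro s k hs
    rw [MonoidHom.comp_apply, hRl s k.1 k.2, dt_ap_map, hab' s k.1 k.2, hU, dif_pos k.2, if_neg hs,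
      hux, hxa, ← RingHom.comp_apply, hia]
  · rw [hRbb, dt_ap_map, hbR.hb, hxb, ← RingHom.comp_apply, hib]
    simp only [Polynomial.coe_eval₂RingHom, Polynomial.eval₂_mul, Polynomial.eval₂_C,
      Polynomial.eval₂_X, RingHom.comp_apply]
    rw [← RingHom.comp_apply ea ia, hia, HahnSeries.C_apply, HahnSeries.single_mul_single,
      zero_add, mul_one]
  · rw [hRcc, dt_ap_map, ap_mul, dt_inv_right, hbR.hc, hxc, ← RingHom.comp_apply, hec,
      RingHom.comp_apply, hxa, ← RingHom.comp_apply ea ia, hia]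
  · rw [hRbb, hRcc, hbR.ht]

end Pool.Agent.Lib.MP_e3aa0a_gt.FVL
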