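import Pool.Agent.Lib.MP_e3aa0a_gt.FVL.Hah65
import Pool.Agent.Lib.MP_e3aa0a_gt.FVL.Lbl10
import Pool.Agent.Lib.MP_e3aa0a_gt.FVL.Eig66
import Pool.Agent.Lib.MP_e3aa0a_gt.FVL.Fp2

/-!
# FVL, module Spe65: the representation of the vertex group with independent labels
-/

set_option autoImplicit false

namespace Pool.Agent.Lib.MP_e3aa0a_gt.FVL

open Matrix
open Ker21 (Lab)
open Fan21

section bridge

/-- prefixes and suffixes of the relator -/
theorem pref_mul_Dp (k : ℕ) : ∀ i : ℕ, i ≤ k →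
    pref (g := k) FreeGroup.of (4 * i) * Dp (aN k) (bN k) (k - i) = relW k
  | 0, _ => by rw [Nat.mul_zero, pref_zero, one_mul, Nat.sub_zero, Dp_aN]
  | i + 1, h => by
    have ih := pref_mul_Dp k i (by omega)
    have h4 := pref4 (g := k) (Γ := FreeGroup (Gen k)) FreeGroup.of ⟨i, h⟩
    simp only at h4
    obtain ⟨m, hm⟩ : ∃ m, k - i = m + 1 := ⟨k - i - 1, by omega⟩
    have hm2 : k - (i + 1) = m := by omega
    have hm3 : k - 1 - i = m := by omega
    rw [hm, Dp] at ih
    have ea := aN_rev (n := k) ⟨i, h⟩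
    have eb := bN_rev (n := k) ⟨i, h⟩
    simp only [hm3] at ea eb
    rw [ea, eb] at ih
    rw [show 4 * (i + 1) = 4 * i + 4 by ring, h4, hm2, ← ih, commutatorElement_def]
    group

/-- the suffix which belongs to the prefix number `4 i + r` -/
theorem pref_mul_labF (k : ℕ) (i : ℕ) (hi : i < k) :
    pref (g := k) FreeGroup.of (4 * i) * labF (aN k) (bN k) (k - 1 - i) 5 = relW k ∧
    pref (g := k) FreeGroup.of (4 * i + 1) * labF (aN k) (bN k) (k - 1 - i) 4 = relW k ∧
    pref (g := k) FreeGroup.of (4 * i + 2) * labF (aN k) (bN k) (k - 1 - i) 3 = relW k ∧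
    pref (g := k) FreeGroup.of (4 * i + 3) * labF (aN k) (bN k) (k - 1 - i) 2 = relW k := by
  have h0 := pref_mul_Dp k i hi.le
  obtain ⟨m, hm⟩ : ∃ m, k - i = m + 1 := ⟨k - i - 1, by omega⟩
  have hm3 : k - 1 - i = m := by omega
  have ea := aN_rev (n := k) ⟨i, hi⟩
  have eb := bN_rev (n := k) ⟨i, hi⟩
  have h1 := pref1 (g := k) (Γ := FreeGroup (Gen k)) FreeGroup.of ⟨i, hi⟩
  have h2 := pref2 (g := k) (Γ := FreeGroup (Gen k)) FreeGroup.of ⟨i, hi⟩
  have h3 := pref3 (g := k) (Γ := FreeGroup (Gen k)) FreeGroup.of ⟨i, hi⟩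
  simp only [hm3] at ea eb
  simp only at h1 h2 h3
  rw [hm, Dp, ea, eb] at h0
  rw [h1, h2, h3, hm3, ← h0]
  refine ⟨?_, ?_, ?_, ?_⟩
  · simp only [labF, ea, eb]
    rfl
  · simp only [labF, ea, eb]
    show _ * (FreeGroup.of (Sum.inr ⟨i, hi⟩) * (FreeGroup.of (Sum.inl ⟨i, hi⟩))⁻¹ *
      (FreeGroup.of (Sum.inr ⟨i, hi⟩))⁻¹ * Dp (aN k) (bN k) m) = _
    group
  · simp only [labF, ea, eb]
    show _ * ((FreeGroup.of (Sum.inl ⟨i, hi⟩))⁻¹ *
      (FreeGroup.of (Sum.inr ⟨i, hi⟩))⁻¹ * Dp (aN k) (bN k) m) = _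
    group
  · simp only [labF, ea, eb]
    show _ * ((FreeGroup.of (Sum.inr ⟨i, hi⟩))⁻¹ * Dp (aN k) (bN k) m) = _
    group

/-- the index of a label -/
def el65 {k : ℕ} (hk : 0 < k) : Lab (k + 1) → Option (Option (Fin 6 × Fin k))
  | Sum.inl i => Fin.cases none (fun i => some (some (0, ⟨k - 1 - i.1, by omega⟩))) i
  | Sum.inr (Sum.inl i) => Fin.cases none (fun i => some (some (1, ⟨k - 1 - i.1, by omega⟩))) i
  | Sum.inr (Sum.inr ⟨j, _⟩) =>
    match j with
    | 0 => none
    | 1 => some none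
    | m + 2 => some (some (⟨5 - m % 4, by omega⟩, ⟨k - 1 - m / 4, by omega⟩))

theorem el65_last {k : ℕ} (hk : 0 < k) (m : ℕ) (h : m + 2 < 4 * (k + 1) - 3) :
    el65 hk (Sum.inr (Sum.inr ⟨m + 2, h⟩)) =
      some (some (⟨5 - m % 4, by omega⟩, ⟨k - 1 - m / 4, by omega⟩)) := rfl

theorem hl10_last {k : ℕ} (m : ℕ) (h : m + 2 < 4 * (k + 1) - 3) :
    hl10 (k := k) (Sum.inr (Sum.inr ⟨m + 2, h⟩)) =
      (up (relW k))⁻¹ * up (pref (g := k) FreeGroup.of m) := rfl

/-- the labels in `H` are the labels of the polygon, up to inversion -/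
theorem hl_el {k : ℕ} (hk : 0 < k) (l : Lab (k + 1)) (h1 : l ≠ ka (Nat.succ_pos k))
    (h2 : l ≠ kab (Nat.succ_pos k)) :
    hl10 l = labH k (el65 hk l) ∨ hl10 l = (labH k (el65 hk l))⁻¹ := by
  rcases l with i | i | ⟨j, hj⟩
  · induction i using Fin.cases with
    | zero => exact absurd rfl h1
    | succ i =>
      left
      show FreeGroup.of (some (Sum.inl i)) = up (aN k (k - 1 - i.1))
      rw [aN_rev, up, FreeGroup.map.of]
  · induction i using Fin.cases with
    | zero => exact Or.inl rfl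
    | succ i =>
      left
      show FreeGroup.of (some (Sum.inr i)) = up (bN k (k - 1 - i.1))
      rw [bN_rev, up, FreeGroup.map.of]
  · match j, hj with
    | 0, hj => exact absurd rfl h2
    | 1, hj => exact Or.inl rfl
    | m + 2, hj =>
      right
      rw [hl10_last, el65_last]
      have hi : m / 4 < k := by omega
      obtain ⟨p0, p1, p2, p3⟩ := pref_mul_labF k (m / 4) hi
      have key : ∀ x y : FreeGroup (Gen k), x * y = relW k →
          (up (relW k))⁻¹ * up x = (up y)⁻¹ := by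
        intro x y hxy
        rw [← hxy]
        simp only [up, map_mul]
        group
      show (up (relW k))⁻¹ * up (pref (g := k) FreeGroup.of m) =
        (up (labF (aN k) (bN k) (k - 1 - m / 4) ⟨5 - m % 4, by omega⟩))⁻¹
      have hr : m % 4 = 0 ∨ m % 4 = 1 ∨ m % 4 = 2 ∨ m % 4 = 3 := by omega
      rcases hr with hr | hr | hr | hr
      · have e : pref (g := k) (Γ := FreeGroup (Gen k)) FreeGroup.of m =
            pref (g := k) FreeGroup.of (4 * (m / 4)) := congrArg _ (by omega)
        have e2 : (⟨5 - m % 4, by omega⟩ : Fin 6) = 5 := by apply Fin.ext; simp [hr]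
        rw [e2, e]
        exact key _ _ p0
      · have e : pref (g := k) (Γ := FreeGroup (Gen k)) FreeGroup.of m =
            pref (g := k) FreeGroup.of (4 * (m / 4) + 1) := congrArg _ (by omega)
        have e2 : (⟨5 - m % 4, by omega⟩ : Fin 6) = 4 := by apply Fin.ext; simp [hr]
        rw [e2, e]
        exact key _ _ p1
      · have e : pref (g := k) (Γ := FreeGroup (Gen k)) FreeGroup.of m =
            pref (g := k) FreeGroup.of (4 * (m / 4) + 2) := congrArg _ (by omega)
        have e2 : (⟨5 - m % 4, by omega⟩ : Fin 6) = 3 := by apply Fin.ext; simp [hr]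
        rw [e2, e]
        exact key _ _ p2
      · have e : pref (g := k) (Γ := FreeGroup (Gen k)) FreeGroup.of m =
            pref (g := k) FreeGroup.of (4 * (m / 4) + 3) := congrArg _ (by omega)
        have e2 : (⟨5 - m % 4, by omega⟩ : Fin 6) = 2 := by apply Fin.ext; simp [hr]
        rw [e2, e]
        exact key _ _ p3

theorem el65_ne {k : ℕ} (hk : 0 < k) (l : Lab (k + 1)) :
    ∀ j : Fin k, j.1 = 0 → el65 hk l ≠ some (some (2, j)) := by
  intro j hj h
  rcases l with i | i | ⟨q, hq⟩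
  · induction i using Fin.cases with
    | zero => exact absurd h (by simp [el65])
    | succ i => exact absurd h (by simp [el65])
  · induction i using Fin.cases with
    | zero => exact absurd h (by simp [el65])
    | succ i => exact absurd h (by simp [el65])
  · match q, hq with
    | 0, hq => exact absurd h (by simp [el65])
    | 1, hq => exact absurd h (by simp [el65])
    | m + 2, hq =>
      rw [el65_last] at h
      have h3 := Option.some.inj (Option.some.inj h)
      have h4 := congrArg (fun p : Fin 6 × Fin k => (p.1.1, p.2.1)) h3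
      simp only [Prod.mk.injEq] at h4
      have h5 : 5 - m % 4 = 2 := h4.1
      have h6 : k - 1 - m / 4 = 0 := by rw [h4.2, hj]
      omega

theorem el65_inj {k : ℕ} (hk : 0 < k) {l l' : Lab (k + 1)} (h1 : l ≠ ka (Nat.succ_pos k))
    (h2 : l ≠ kab (Nat.succ_pos k)) (h1' : l' ≠ ka (Nat.succ_pos k))
    (h2' : l' ≠ kab (Nat.succ_pos k)) (h : el65 hk l = el65 hk l') : l = l' := by
  -- a numerical invariant
  have key : ∀ l : Lab (k + 1), l ≠ ka (Nat.succ_pos k) → l ≠ kab (Nat.succ_pos k) →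
      l = (match el65 hk l with
        | none => kb (Nat.succ_pos k)
        | some none => Sum.inr (Sum.inr ⟨1, by omega⟩)
        | some (some (s, j)) =>
          if s.1 = 0 then Sum.inl ⟨k - j.1, by omega⟩
          else if s.1 = 1 then Sum.inr (Sum.inl ⟨k - j.1, by omega⟩)
          else if h : 4 * (k - 1 - j.1) + (5 - s.1) + 2 < 4 * (k + 1) - 3 then
            Sum.inr (Sum.inr ⟨4 * (k - 1 - j.1) + (5 - s.1) + 2, h⟩)
          else kb (Nat.succ_pos k)) := by
    intro l h1 h2
    rcases l with i | i | ⟨q, hq⟩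
    · induction i using Fin.cases with
      | zero => exact absurd rfl h1
      | succ i =>
        show _ = Sum.inl _
        congr 1
        apply Fin.ext
        show i.1 + 1 = k - (k - 1 - i.1)
        omega
    · induction i using Fin.cases with
      | zero => rfl
      | succ i =>
        show _ = Sum.inr (Sum.inl _)
        congr 2
        apply Fin.ext
        show i.1 + 1 = k - (k - 1 - i.1)
        omega
    · match q, hq with
      | 0, hq => exact absurd rfl h2
      | 1, hq => rfl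
      | m + 2, hq =>
        rw [el65_last]
        have e1 : ¬ (5 - m % 4 = 0) := by omega
        have e2 : ¬ (5 - m % 4 = 1) := by omega
        have e3 : 4 * (k - 1 - (k - 1 - m / 4)) + (5 - (5 - m % 4)) + 2 = m + 2 := by omega
        simp only [e1, e2, if_false, e3]
        rw [dif_pos hq]
  rw [key l h1 h2, key l' h1' h2', h]

end bridge

section output

theorem tra_eq_trace {R : Type*} [CommRing R] (A : SpecialLinearGroup (Fin 2) R) :
    tra A = Matrix.trace A.1 := by
  rw [Matrix.trace_fin_two]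
  rfl

/-- the input representation over a field of characteristic zero, from `fp2` -/
theorem input65 {k : ℕ} (hk : 0 < k) :
    ∃ (K1 : Type) (_ : Field K1) (_ : CharZero K1)
      (ρ1 : FreeGroup (Option (Gen k)) →* SpecialLinearGroup (Fin 2) K1),
      tra (ρ1 bb) = tra (ρ1 (cc (relW k))) ∧ ∀ h, h ≠ 1 → tra (ρ1 h) ^ 2 ≠ 4 := by
  obtain ⟨e⟩ : Nonempty (Gen k ≃ Fin (k + k)) := ⟨finSumFinEquiv⟩
  have hinj : Function.Injective (FreeGroup.map e : FreeGroup (Gen k) → FreeGroup (Fin (k + k))) := by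
    intro x y h
    have h2 := congrArg (FreeGroup.map e.symm) h
    have key : ∀ z, FreeGroup.map e.symm (FreeGroup.map e z) = z := by
      intro z
      rw [FreeGroup.map.comp]
      have : (e.symm : Fin (k + k) → Gen k) ∘ e = id := by
        funext x
        simp
      rw [this, FreeGroup.map.id]
    rw [key, key] at h2
    exact h2
  have hP : FreeGroup.map e (relW k) ≠ 1 := by
    intro h
    exact relW_ne_one hk (hinj (by rw [h, map_one]))
  obtain ⟨K1, _, _, ρ, hreg, htr⟩ := FP2.fp2 (k + k) (FreeGroup.map e (relW k)) hP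
  refine ⟨K1, inferInstance, inferInstance, ρ.comp (FreeGroup.map (Option.map e)), ?_, ?_⟩
  · rw [tra_eq_trace, tra_eq_trace, MonoidHom.comp_apply, MonoidHom.comp_apply, cc, bb, map_mul,
      map_inv, up, FreeGroup.map.comp, FreeGroup.map.of]
    have h1 : (Option.map e : Option (Gen k) → Option (Fin (k + k))) ∘ some = some ∘ e := by
      funext x
      rfl
    rw [h1, ← FreeGroup.map.comp]
    exact htr
  · intro h hh
    rw [tra_eq_trace]
    refine hreg _ ?_
    intro h2
    apply hh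
    have key : ∀ z, FreeGroup.map (Option.map e.symm) (FreeGroup.map (Option.map e) z) = z := by
      intro z
      rw [FreeGroup.map.comp]
      have : (Option.map e.symm : Option (Fin (k + k)) → Option (Gen k)) ∘ Option.map e = id := by
        funext x
        cases x <;> simp
      rw [this, FreeGroup.map.id]
    rw [← key h, h2, map_one]

/-- **Output of SPEC**: a field with valuations, a representation of the vertex group without
unipotents, and functionals dual to the labels. -/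
theorem out65 {k : ℕ} (hk : 0 < k) :
    ∃ (K : Type) (_ : Field K) (W : Set (K → ℝ)) (R : Rep K (Gen k))
      (f : Fin (6 * k + 1) → K → ℝ) (e : Fin (6 * k + 1) → Lab (k + 1)),
      TRI32 K W ∧ R.P = relW k ∧ (∀ i, f i ∈ W) ∧ Function.Injective e ∧
      (∀ i, e i ≠ ka (Nat.succ_pos k) ∧ e i ≠ kab (Nat.succ_pos k)) ∧
      (∀ l, l ≠ ka (Nat.succ_pos k) → l ≠ kab (Nat.succ_pos k) → ∃ i, e i = l) ∧
      (∀ l : Lab (k + 1), l ≠ ka (Nat.succ_pos k) → l ≠ kab (Nat.succ_pos k) →
        lab32 ![1, 0] (R.rho (hl10 l)) ≠ 0) ∧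
      ∀ i i', f i (lab32 ![1, 0] (R.rho (hl10 (e i')))) = if i = i' then 1 else 0 := by
  classical
  obtain ⟨K1, _, _, ρ1, ht1, hN1⟩ := input65 hk
  obtain ⟨c, ρ, hc0, hN, htr, h0, hord, d1, d2, d3⟩ := spec65 hk ρ1 ht1 hN1
    (monj (gam : Option (Fin 6 × Fin k) → Gmz (Option (Fin 6 × Fin k))))
    (monj_inj expo_inj)
  -- the eigenvalue and the eigenbases
  obtain ⟨m, hm, hmo⟩ := eig66 (tra (ρ bb)) h0 (by rw [hord]; norm_num)
  have hm2 : (m : LaurentSeries (Fm (Option (Fin 6 × Fin k)) K1)) ^ 2 ≠ 1 := by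
    intro h
    have h1 := congrArg HahnSeries.order h
    rw [HahnSeries.order_pow, HahnSeries.order_one, hmo, hord] at h1
    norm_num at h1
  obtain ⟨A, hA⟩ := diag66 (ρ bb) m hm2 (by rw [← tra_eq_trace]; exact hm)
  obtain ⟨B, hB⟩ := diag66 (ρ (cc (relW k))) m hm2 (by rw [← tra_eq_trace, ← htr]; exact hm)
  obtain ⟨R, hR1, hR2⟩ : ∃ R : Rep (LaurentSeries (Fm (Option (Fin 6 × Fin k)) K1)) (Gen k),
      R.P = relW k ∧ R.rho = ρ :=
    ⟨⟨relW k, ρ, m, A, B, hm2, hA, hB, fun h hh => by rw [← tra_eq_trace]; exact hN h hh⟩,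
      rfl, rfl⟩
  -- the values of the labels
  have hval : ∀ e e' : Option (Option (Fin 6 × Fin k)),
      (∀ j : Fin k, j.1 = 0 → e' ≠ some (some (2, j))) →
      dtv u0 (ap (ρ (labH k e')) u0) ≠ 0 ∧
        ff e (dtv u0 (ap (ρ (labH k e')) u0)) = if e = e' then 1 else 0 := by
    intro e e' he'
    rcases e' with _ | _ | ⟨s, j⟩
    · rw [d3, monj_C]
      exact ⟨HahnSeries.single_ne_zero (HahnSeries.single_ne_zero (hc0 _)), ff_T e (hc0 _)⟩
    · rw [d2, monj_CX]
      refine ⟨?_, ff_C e none (hc0 _)⟩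
      rw [Ne, map_eq_zero]
      exact HahnSeries.single_ne_zero (hc0 _)
    · have hs : ¬ (s = 2 ∧ j.1 = 0) := by
        rintro ⟨rfl, hj⟩
        exact he' j hj rfl
      rw [d1 s j hs, monj_CX]
      refine ⟨?_, ff_C e (some (s, j)) (hc0 _)⟩
      rw [Ne, map_eq_zero]
      exact HahnSeries.single_ne_zero (hc0 _)
  have hW := tri_WW (Option (Fin 6 × Fin k)) K1
  have hlab : ∀ l : Lab (k + 1), l ≠ ka (Nat.succ_pos k) → l ≠ kab (Nat.succ_pos k) →
      lab32 ![1, 0] (R.rho (hl10 l)) = dtv u0 (ap (ρ (labH k (el65 hk l))) u0) ∨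
      lab32 ![1, 0] (R.rho (hl10 l)) = -dtv u0 (ap (ρ (labH k (el65 hk l))) u0) := by
    intro l h1 h2
    rw [hR2]
    rcases hl_el hk l h1 h2 with h | h
    · left
      rw [h]
      rfl
    · right
      rw [h, map_inv, lab32_inv]
      rfl
  have hval2 : ∀ (e : Option (Option (Fin 6 × Fin k))) (l : Lab (k + 1)),
      l ≠ ka (Nat.succ_pos k) → l ≠ kab (Nat.succ_pos k) →
      lab32 ![1, 0] (R.rho (hl10 l)) ≠ 0 ∧
        ff e (lab32 ![1, 0] (R.rho (hl10 l))) = if e = el65 hk l then 1 else 0 := by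
    intro e l h1 h2
    obtain ⟨v1, v2⟩ := hval e (el65 hk l) (el65_ne hk l)
    rcases hlab l h1 h2 with h | h
    · rw [h]
      exact ⟨v1, v2⟩
    · rw [h, (hW.1 _ (ff_mem e)).neg]
      exact ⟨neg_ne_zero.2 v1, v2⟩
  -- the index set
  have hcard : Fintype.card {l : Lab (k + 1) // l ≠ ka (Nat.succ_pos k) ∧
      l ≠ kab (Nat.succ_pos k)} = 6 * k + 1 := by
    have h1 : (Finset.univ.filter fun l : Lab (k + 1) => l ≠ ka (Nat.succ_pos k) ∧
        l ≠ kab (Nat.succ_pos k)) =
        (Finset.univ.erase (ka (Nat.succ_pos k))).erase (kab (Nat.succ_pos k)) := by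
      ext l
      simp [and_comm]
    rw [Fintype.card_subtype, h1, Finset.card_erase_of_mem, Finset.card_erase_of_mem
      (Finset.mem_univ _), Finset.card_univ, card_Lab (Nat.succ_pos k)]
    · omega
    · rw [Finset.mem_erase]
      exact ⟨by simp [ka, kab], Finset.mem_univ _⟩
  obtain ⟨E⟩ : Nonempty (Fin (6 * k + 1) ≃ {l : Lab (k + 1) // l ≠ ka (Nat.succ_pos k) ∧
      l ≠ kab (Nat.succ_pos k)}) := ⟨(finCongr hcard.symm).trans (Fintype.equivFin _).symm⟩
  refine ⟨LaurentSeries (Fm (Option (Fin 6 × Fin k)) K1), inferInstance,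
    WW (Option (Fin 6 × Fin k)) K1, R, fun i => ff (el65 hk (E i).1), fun i => (E i).1, hW, hR1,
    fun i => ff_mem _, ?_, fun i => (E i).2, ?_, ?_, ?_⟩
  · intro i i' h
    exact E.injective (Subtype.ext h)
  · intro l h1 h2
    exact ⟨E.symm ⟨l, h1, h2⟩, by simp⟩
  · intro l h1 h2
    exact (hval2 none l h1 h2).1
  · intro i i'
    show ff (el65 hk (E i).1) (lab32 ![1, 0] (R.rho (hl10 (E i').1))) = _
    rw [(hval2 (el65 hk (E i).1) (E i').1 (E i').2.1 (E i').2.2).2]
    by_cases h : i = i'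
    · subst h
      simp
    · rw [if_neg h, if_neg]
      intro h2
      exact h (E.injective (Subtype.ext (el65_inj hk (E i).2.1 (E i).2.2 (E i').2.1 (E i').2.2 h2)))

end output

end Pool.Agent.Lib.MP_e3aa0a_gt.FVL
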