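import Pool.Agent.Lib.MP_e3aa0a_gt.FVL.Lbl10
import Pool.Agent.Lib.MP_e3aa0a_gt.FVL.Val32

/-!
# FVL, module Spec10: the data of the vertex group
-/

set_option autoImplicit false

namespace Pool.Agent.Lib.MP_e3aa0a_gt.FVL

open Matrix
open Ker21 (Lab)
open Fan21

/-- the labels of the fan triangulation which are in the vertex group -/
def SH10 (k : ℕ) : Set (Lab (k + 1)) :=
  {l | l ≠ ka (Nat.succ_pos k) ∧ l ≠ kab (Nat.succ_pos k)}

/-- a representation of the vertex group with independent labels -/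
structure Spec10 (k : ℕ) (K : Type*) [Field K] where
  /-- the family of valuations -/
  W : Set (K → ℝ)
  hW : TRI32 K W
  /-- the representation of the vertex group -/
  R : Rep K (Gen k)
  hP : R.P = relW k
  /-- the base vector -/
  u : Fin 2 → K
  hne : ∀ l ∈ SH10 k, lab32 u (R.rho (hl10 l)) ≠ 0
  /-- the functionals -/
  f : Fin (6 * k + 1) → K → ℝ
  hf : ∀ i, f i ∈ W
  hli : LinearIndependent ℝ (fun i => (fun l => f i (lab32 u (R.rho (hl10 l.1))) : SH10 k → ℝ))

end Pool.Agent.Lib.MP_e3aa0a_gt.FVL
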