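import Pool.Agent.Lib.MP_e3aa0a_gt.FVL.Spc65

/-!
# FVL, module Spn65: the generic representation, from any representation without unipotents
-/

set_option autoImplicit false

namespace Pool.Agent.Lib.MP_e3aa0a_gt.FVL

open Matrix

theorem tra_mul_comm {R : Type*} [CommRing R] (A B : SpecialLinearGroup (Fin 2) R) :
    tra (A * B) = tra (B * A) := by
  simp only [tra, vmul, Matrix.mul_apply, Fin.sum_univ_two]
  ring

theorem tra_conj {R : Type*} [CommRing R] (Q A : SpecialLinearGroup (Fin 2) R) :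
    tra (Q⁻¹ * A * Q) = tra A := by
  rw [mul_assoc, tra_mul_comm, mul_assoc, mul_inv_cancel, mul_one]

theorem tra_one {R : Type*} [CommRing R] : tra (1 : SpecialLinearGroup (Fin 2) R) = 2 := by
  simp [tra]
  norm_num

/-- the order of a Laurent series from its coefficients -/
theorem order_eq65 {F : Type*} [Field F] {z : LaurentSeries F} {m : ℤ} (h : z.coeff m ≠ 0)
    (h' : ∀ i < m, z.coeff i = 0) : z ≠ 0 ∧ z.order = m := by
  have hz : z ≠ 0 := by
    rintro rfl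
    exact h rfl
  refine ⟨hz, le_antisymm (HahnSeries.order_le_of_coeff_ne_zero h) ?_⟩
  by_contra hlt
  push Not at hlt
  exact (HahnSeries.coeff_order_eq_zero (x := z)).not.2 hz (h' _ hlt)

/-- the order of the trace -/
theorem order_tra65 {F : Type*} [Field F] {t : LaurentSeries F} {y b c s : F} (hy : y ≠ 0)
    (hb : b ≠ 0)
    (h : HahnSeries.C (Γ := ℤ) y * (HahnSeries.single (-1 : ℤ) b - HahnSeries.C c) * t =
      (HahnSeries.single (-1 : ℤ) b) ^ 2 + (HahnSeries.C c) ^ 2 -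
        HahnSeries.single (-1 : ℤ) b * HahnSeries.C c * HahnSeries.C s +
        (HahnSeries.C y) ^ 2) : t ≠ 0 ∧ t.order = -1 := by
  have e1 : HahnSeries.C (Γ := ℤ) y * (HahnSeries.single (-1 : ℤ) b - HahnSeries.C c) =
      HahnSeries.single (-1 : ℤ) (y * b) - HahnSeries.single (0 : ℤ) (y * c) := by
    rw [mul_sub, HahnSeries.C_apply, HahnSeries.C_apply, HahnSeries.single_mul_single,
      HahnSeries.single_mul_single, zero_add, zero_add]
  have e2 : (HahnSeries.single (-1 : ℤ) b) ^ 2 + (HahnSeries.C c) ^ 2 -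
        HahnSeries.single (-1 : ℤ) b * HahnSeries.C c * HahnSeries.C s +
        (HahnSeries.C y) ^ 2 =
      HahnSeries.single (-2 : ℤ) (b ^ 2) - HahnSeries.single (-1 : ℤ) (b * c * s) +
        HahnSeries.single (0 : ℤ) (c ^ 2 + y ^ 2) := by
    have hs : HahnSeries.single (0 : ℤ) (c ^ 2 + y ^ 2) =
        HahnSeries.single (0 : ℤ) (c ^ 2) + HahnSeries.single (0 : ℤ) (y ^ 2) := by
      rw [← HahnSeries.C_apply, ← HahnSeries.C_apply, ← HahnSeries.C_apply, map_add]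
    rw [hs, HahnSeries.C_apply, HahnSeries.C_apply, HahnSeries.C_apply, HahnSeries.single_pow,
      HahnSeries.single_pow, HahnSeries.single_pow, HahnSeries.single_mul_single,
      HahnSeries.single_mul_single]
    simp only [smul_zero, add_zero]
    have : (2 : ℕ) • (-1 : ℤ) = -2 := by norm_num
    rw [this]
    ring
  rw [e1, e2] at h
  obtain ⟨n1, o1⟩ : HahnSeries.single (-1 : ℤ) (y * b) - HahnSeries.single (0 : ℤ) (y * c) ≠ 0 ∧
      (HahnSeries.single (-1 : ℤ) (y * b) - HahnSeries.single (0 : ℤ) (y * c)).order = -1 := by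
    refine order_eq65 ?_ ?_
    · simp [HahnSeries.coeff_single, hy, hb]
    · intro i hi
      have h1 : ¬ (i = -1) := by omega
      have h2 : ¬ (i = 0) := by omega
      simp [HahnSeries.coeff_single, h1, h2]
  obtain ⟨n2, o2⟩ : HahnSeries.single (-2 : ℤ) (b ^ 2) - HahnSeries.single (-1 : ℤ) (b * c * s) +
        HahnSeries.single (0 : ℤ) (c ^ 2 + y ^ 2) ≠ 0 ∧
      (HahnSeries.single (-2 : ℤ) (b ^ 2) - HahnSeries.single (-1 : ℤ) (b * c * s) +
        HahnSeries.single (0 : ℤ) (c ^ 2 + y ^ 2)).order = -2 := by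
    refine order_eq65 ?_ ?_
    · simp [HahnSeries.coeff_single, hb]
    · intro i hi
      have h1 : ¬ (i = -1) := by omega
      have h2 : ¬ (i = 0) := by omega
      have h3 : ¬ (i = -2) := by omega
      simp [HahnSeries.coeff_single, h1, h2, h3]
  have ht : t ≠ 0 := by
    rintro rfl
    rw [mul_zero] at h
    exact n2 h.symm
  refine ⟨ht, ?_⟩
  have h3 := congrArg HahnSeries.order h
  rw [HahnSeries.order_mul n1 ht, o1, o2] at h3
  omega

/-- **The generic representation.** -/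
theorem spec65 {n : ℕ} (hn : 0 < n) {K1 Ka : Type} [Field K1] [CharZero K1] [Field Ka]
    (ρ1 : FreeGroup (Option (Gen n)) →* SpecialLinearGroup (Fin 2) K1)
    (ht : tra (ρ1 bb) = tra (ρ1 (cc (relW n)))) (hN : ∀ h, h ≠ 1 → tra (ρ1 h) ^ 2 ≠ 4)
    (j : MvPolynomial (Option (Fin 6 × Fin n)) K1 →+* Ka) (hj : Function.Injective j) :
    ∃ (c : Option (Option (Fin 6 × Fin n)) → K1)
      (ρ : FreeGroup (Option (Gen n)) →* SpecialLinearGroup (Fin 2) (LaurentSeries Ka)),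
      (∀ e, c e ≠ 0) ∧ (∀ h, h ≠ 1 → tra (ρ h) ^ 2 ≠ 4) ∧
      tra (ρ bb) = tra (ρ (cc (relW n))) ∧ tra (ρ bb) ≠ 0 ∧ (tra (ρ bb)).order = -1 ∧
      (∀ (s : Fin 6) (k : Fin n), ¬ (s = 2 ∧ k.1 = 0) →
        dtv u0 (ap (ρ (labH n (some (some (s, k))))) u0) = HahnSeries.C (Γ := ℤ)
          (j (MvPolynomial.C (c (some (some (s, k)))) * MvPolynomial.X (some (s, k))))) ∧
      dtv u0 (ap (ρ (labH n (some none))) u0) = HahnSeries.C (Γ := ℤ)
        (j (MvPolynomial.C (c (some none)) * MvPolynomial.X none)) ∧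
      dtv u0 (ap (ρ (labH n none)) u0) =
        HahnSeries.single (-1 : ℤ) (j (MvPolynomial.C (c none))) := by
  have hne : ρ1 bb ≠ ρ1 (cc (relW n)) := by
    intro h
    rw [cc, map_mul, map_inv] at h
    have h2 : ρ1 (up (relW n)) = 1 := by
      have h3 := congrArg (fun x => x * (ρ1 bb)⁻¹) h
      simp only [mul_inv_cancel, mul_assoc, mul_one] at h3
      exact inv_eq_one.1 h3.symm
    have h4 : up (relW n) ≠ 1 := by
      intro h5
      refine relW_ne_one hn (map_some_inj ?_)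
      rw [map_one]
      exact h5
    apply hN _ h4
    rw [h2, tra_one]
    norm_num
  obtain ⟨v, hv1, hv2⟩ := exists_vec65 (fun e => ρ1 (labH n e))
    (fun e => hN _ (labH_ne_one e)) (ρ1 bb) (ρ1 (cc (relW n))) ht hne
  obtain ⟨c, hc⟩ : ∃ c : Option (Option (Fin 6 × Fin n)) → K1, ∀ e,
      c e = dtv v (ap (ρ1 (labH n e)) v) := ⟨_, fun _ => rfl⟩
  have hc0 : ∀ e, c e ≠ 0 := fun e => by rw [hc]; exact hv1 e
  have hβ := hc0 (some (some (1, ⟨0, hn⟩)))
  have hl1 : labH n (some (some (1, ⟨0, hn⟩))) = up (bN n 0) := rfl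
  have hβ2 : c (some (some (1, ⟨0, hn⟩))) = dtv v (ap (ρ1 (up (bN n 0))) v) := by
    rw [hc, hl1]
  obtain ⟨Q, hQ1, hQ2⟩ : ∃ Q : SpecialLinearGroup (Fin 2) K1, ap Q u0 = v ∧
      ap Q ![0, c (some (some (1, ⟨0, hn⟩)))] = ap (ρ1 (up (bN n 0))) v := by
    have f1 : (c (some (some (1, ⟨0, hn⟩))))⁻¹ * dtv u0 ![0, c (some (some (1, ⟨0, hn⟩)))] = 1 := by
      have : dtv u0 ![0, c (some (some (1, ⟨0, hn⟩)))] = c (some (some (1, ⟨0, hn⟩))) := by
        simp [dtv, u0]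
      rw [this, inv_mul_cancel₀ hβ]
    have f2 : dtv v (ap (ρ1 (up (bN n 0))) v) = dtv u0 ![0, c (some (some (1, ⟨0, hn⟩)))] := by
      rw [← hβ2]
      simp [dtv, u0]
    exact ⟨frm _ _ _ _ _ f1 f2, frm_left f1 f2, frm_right f1 f2⟩
  obtain ⟨ρ2, hρ2⟩ : ∃ ρ2 : FreeGroup (Option (Gen n)) →* SpecialLinearGroup (Fin 2) K1,
      ∀ h, ρ2 h = Q⁻¹ * ρ1 h * Q :=
    ⟨(MulAut.conj Q⁻¹).toMonoidHom.comp ρ1, fun h => by simp⟩
  have hdt : ∀ h, dtv u0 (ap (ρ2 h) u0) = dtv v (ap (ρ1 h) v) := by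
    intro h
    rw [hρ2, ap_mul, ap_mul, dt_inv_right, hQ1]
  have htr : ∀ h, tra (ρ2 h) = tra (ρ1 h) := fun h => by rw [hρ2, tra_conj]
  obtain ⟨R, _, e, f, ρR, ρa, he, hf, heR, h1, h2, h3, h4⟩ := spec_core65 hn ρ2
    (by rw [htr, htr, ht]) c (fun e => by rw [hdt, hc]) hc0
    (by rw [hc, hc]; exact hv2) (by
      rw [hρ2, ap_mul, ap_mul, hQ1, ← hQ2, ap_inv_ap]) j hj
  obtain ⟨ρ, hρ⟩ : ∃ ρ : FreeGroup (Option (Gen n)) →*
      SpecialLinearGroup (Fin 2) (LaurentSeries Ka),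
      ∀ h, ρ h = SpecialLinearGroup.map e (ρR h) :=
    ⟨(SpecialLinearGroup.map e).comp ρR, fun h => rfl⟩
  have h1' : ∀ (s : Fin 6) (k : Fin n), ¬ (s = 2 ∧ k.1 = 0) →
        dtv u0 (ap (ρ (labH n (some (some (s, k))))) u0) = HahnSeries.C (Γ := ℤ)
          (j (MvPolynomial.C (c (some (some (s, k)))) * MvPolynomial.X (some (s, k)))) := by
    intro s k hs
    rw [hρ, labH, heR, dt_ap_map, h1 s k hs]
  have h4' : tra (ρ bb) = tra (ρ (cc (relW n))) := by
    rw [hρ, hρ, tra_map, tra_map, h4]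
  -- the determinant of the product of the handles
  obtain ⟨m, hm⟩ : ∃ m, n = m + 1 := ⟨n - 1, by omega⟩
  have hlD : labH n (some (some (5, ⟨m, by omega⟩))) = up (relW n) := by
    subst hm
    rw [labH, ← Dp_aN]
    rfl
  have hyD : dtv u0 (ap (ρ (up (relW n))) u0) = HahnSeries.C (Γ := ℤ)
      (j (MvPolynomial.C (c (some (some (5, ⟨m, by omega⟩)))) *
        MvPolynomial.X (some (5, ⟨m, by omega⟩)))) := by
    rw [← hlD]
    exact h1' 5 _ (by simp)
  have hLst : Lst (ρ (up (relW n))) (HahnSeries.single (-1 : ℤ) (j (MvPolynomial.C (c none))))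
      (HahnSeries.C (Γ := ℤ) (j (MvPolynomial.C (c (some none)) * MvPolynomial.X none)))
      (ρ bb) := by
    refine ⟨?_, ?_, ?_⟩
    · rw [hρ, h2]
    · rw [← dt_inv_right, ← ap_mul, ← map_inv, ← map_mul]
      rw [hρ]
      exact h3
    · rw [h4', cc, map_mul, map_inv]
  have hDa : tra (ρ (up (relW n))) = HahnSeries.C (Γ := ℤ) (tra (ρa (relW n))) := by
    rw [hρ, heR, tra_map]
  have htrace := hLst.trace hyD
  rw [hDa] at htrace
  have hor := order_tra65 (F := Ka) (t := tra (ρ bb)) (s := tra (ρa (relW n))) (by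
      rw [Ne, map_eq_zero_iff j hj]
      exact mul_ne_zero ((MvPolynomial.C_ne_zero).2 (hc0 _)) (MvPolynomial.X_ne_zero _)) (by
      rw [Ne, map_eq_zero_iff j hj]
      exact (MvPolynomial.C_ne_zero).2 (hc0 _)) htrace
  refine ⟨c, ρ, hc0, ?_, h4', hor.1, hor.2, h1', ?_, ?_⟩
  · intro h hh h5
    rw [hρ, tra_map, ← map_pow] at h5
    have h6 : tra (ρR h) ^ 2 = 4 := he (by rw [h5, map_ofNat])
    apply hN h hh
    rw [← htr, ← hf, tra_map, ← map_pow, h6, map_ofNat]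
  · rw [hρ]
    exact h3
  · rw [hρ]
    exact h2

end Pool.Agent.Lib.MP_e3aa0a_gt.FVL
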