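import Pool.Agent.Lib.MP_e3aa0a_gt.FVL.Spe65
import Pool.Agent.Lib.MP_e3aa0a_gt.FVL.Spec10

/-!
# FVL, module Spx65: the data `Spec10` exist
-/

set_option autoImplicit false

namespace Pool.Agent.Lib.MP_e3aa0a_gt.FVL

open Matrix
open Ker21 (Lab)
open Fan21

theorem spec10_65 {k : ℕ} (hk : 1 ≤ k) : ∃ (K : Type) (_ : Field K), Nonempty (Spec10 k K) := by
  obtain ⟨K, _, W, R, f, e, hW, hP, hf, hinj, he, -, hne, hδ⟩ := out65 hk
  refine ⟨K, inferInstance, ⟨⟨W, hW, R, hP, ![1, 0], fun l hl => hne l hl.1 hl.2, f, hf, ?_⟩⟩⟩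
  rw [Fintype.linearIndependent_iff]
  intro g hg i
  have h1 := congrFun hg (⟨e i, he i⟩ : SH10 k)
  rw [Finset.sum_apply] at h1
  simp only [Pi.smul_apply, smul_eq_mul, hδ, Pi.zero_apply] at h1
  rw [Finset.sum_eq_single i] at h1
  · simpa using h1
  · intro j _ hj
    rw [if_neg hj, mul_zero]
  · intro h
    exact absurd (Finset.mem_univ i) h

end Pool.Agent.Lib.MP_e3aa0a_gt.FVL
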