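import Pool.Agent.Lib.MP_e3aa0a_gt.FVL.Theta11
import Pool.Agent.Lib.MP_e3aa0a_gt.FVL.AsmF32
import Pool.Agent.Lib.MP_e3aa0a_gt.FVL.Defs29

/-!
# FVR, module ThetaB11: `Θ ≠ 0` in the forms of AsmF32 and Defs29
-/

set_option autoImplicit false

namespace Pool.Agent.Lib.MP_e3aa0a_gt.FVL

open Pool.Agent.Lib.FVol

namespace Theta11

theorem wlen_sm {A M : Type*} [AddCommMonoid M] (m : A → M) (W : List (A × Bool)) :
    wlen m W = sm m W := rfl

theorem sm_cast {A : Type*} (l : A → ℤ) (W : List (A × Bool)) :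
    sm (fun a => (l a : ℝ)) W = ((sm l W : ℤ) : ℝ) := by
  induction W with
  | nil => simp
  | cons x W ih =>
    rw [sm_cons, sm_cons, ih]
    push_cast
    ring

theorem thx_ths {A : Type*} (lam l : A → ℝ) (W : List (A × Bool)) : ∀ h k : ℝ,
    thx32 lam l h k W = (h + sm lam W) * (k + sm l W) - h * k - ths lam l h W := by
  induction W with
  | nil =>
    intro h k
    simp [thx32, ths]
  | cons x W ih =>
    intro h k
    rw [thx32, ths, ih, sm_cons, sm_cons]
    ring

theorem wom_thx {A : Type*} (lam : A → ℝ) (l : A → ℤ) (W : List (A × Bool)) :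
    wom lam l W = ths lam (fun a => (l a : ℝ)) 0 W - sm lam W * ((sm l W : ℤ) : ℝ) := by
  have shift : ∀ (W : List (A × Bool)) (p : ℝ), ths lam (fun a => (l a : ℝ)) p W =
      ths lam (fun a => (l a : ℝ)) 0 W + 2 * p * ((sm l W : ℤ) : ℝ) := by
    intro W
    induction W with
    | nil => intro p; simp [ths]
    | cons x W ih =>
      intro p
      rw [ths, ths, ih (p + lam x.1), ih (0 + lam x.1), sm_cons]
      push_cast
      ring
  induction W with
  | nil => simp [wom, ths]
  | cons x W ih =>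
    rw [wom, ths, ih, shift W (0 + lam x.1), wlen_sm, wlen_sm, sm_cons, sm_cons]
    push_cast
    ring

variable {A V G : Type*} [DecidableEq A] [Group G]

theorem theta32_11 {d : Dat A V G} (hd : Good d) (hT : d.row true ≠ [])
    (hs : sm d.lam (d.row true) = sm d.lam (d.row false))
    (h1 : ∀ x y, d.row true = [x] → d.row false = [y] → x.1 ≠ y.1)
    (hNC : ∀ P Q P' Q', d.row true = P ++ Q → d.row false = P' ++ Q' → P ≠ [] → Q ≠ [] →
      P' ≠ [] → Q' ≠ [] → sm d.lam P ≠ sm d.lam P') :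
    ∃ l : A → ℤ, sm l (d.row true) = sm l (d.row false) ∧
      Theta32 d.lam (fun a => (l a : ℝ)) d.row ≠ 0 := by
  obtain ⟨l, hl, hne⟩ := theta11 hd hT hs h1 hNC
  refine ⟨l, hl, fun h => hne ?_⟩
  rw [Theta32, thx_ths, thx_ths, sm_cast, sm_cast, hl, hs] at h
  linarith

theorem row_ne_nil {d : Dat A V G} [Nonempty A] (hd : Good d)
    (hs : sm d.lam (d.row true) = sm d.lam (d.row false)) : d.row true ≠ [] := by
  intro h
  have h2 : d.row false = [] := by
    by_contra h3
    have h4 := sm_pos hd.pos h3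
    rw [← hs, h, sm_nil] at h4
    exact lt_irrefl _ h4
  obtain ⟨a⟩ := ‹Nonempty A›
  have h5 := hd.two (a, true)
  rw [h, h2] at h5
  simp at h5

end Theta11

open Theta11 in
/-- ELL of Defs29 -/
theorem stEll_11 : StEll := by
  intro A V G _ _ _ _ d hd hb hn _ h1
  have hs : sm d.lam (d.row true) = sm d.lam (d.row false) := hb
  obtain ⟨l, hl, hne⟩ := theta11 hd (row_ne_nil hd hs) hs
    (fun x y hx hy => absurd (h1 x y hx hy) id) (by
      intro P Q P' Q' e e' hP hQ hP' hQ' hh
      refine hn P P' ⟨Q, e.symm⟩ ⟨Q', e'.symm⟩ hP hP' ?_ ?_ hh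
      · intro h
        rw [e] at h
        exact hQ (List.append_right_eq_self.1 h.symm)
      · intro h
        rw [e'] at h
        exact hQ' (List.append_right_eq_self.1 h.symm))
  refine ⟨l, hl, fun h => hne ?_⟩
  rw [wom_thx, wom_thx, hl, hs] at h
  linarith

end Pool.Agent.Lib.MP_e3aa0a_gt.FVL
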