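import Pool.Agent.Lib.MP_e3aa0a_gt.FVL.Spec10
import Pool.Agent.Lib.MP_e3aa0a_gt.FVL.Fin83T
import Pool.Agent.Lib.MP_e3aa0a_gt.FVL.Top66
import Pool.Agent.Lib.MP_e3aa0a_gt.FVL.NC66

/-!
# FVL, module Tow10: from the representation of the vertex group to the data of the inequality

The field is `LaurentSeries K`, the series in the parameter of the stable letter over the field `K`
of the representation of the vertex group.
-/

set_option autoImplicit false

namespace Pool.Agent.Lib.MP_e3aa0a_gt.FVL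

open Matrix HahnSeries
open Pool.Agent.Lib.FVol
open Ker21 (Lab)
open Fan21

/-! ### One more row -/

theorem ind10 {κ : Type*} {m : ℕ} (f : Fin m → κ → ℝ) (S : Set κ)
    (h : LinearIndependent ℝ (fun i => (fun e => f i e.1 : S → ℝ))) (t : κ → ℝ)
    (ht : ∀ e ∈ S, t e = 0) (k0 : κ) (hk0 : t k0 ≠ 0) :
    LinearIndependent ℝ (Fin.cons t f : Fin (m + 1) → κ → ℝ) := by
  rw [Fintype.linearIndependent_iff] at h ⊢
  intro g hg
  rw [Fin.sum_univ_succ] at hg
  simp only [Fin.cons_zero, Fin.cons_succ] at hg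
  have h1 : ∀ i, g (Fin.succ i) = 0 := by
    refine h (fun i => g i.succ) (funext fun e => ?_)
    have h2 := congrFun hg e.1
    simp only [Pi.add_apply, Pi.smul_apply, Finset.sum_apply, smul_eq_mul, Pi.zero_apply,
      ht e.1 e.2, mul_zero, zero_add] at h2
    simpa only [Finset.sum_apply, Pi.smul_apply, smul_eq_mul, Pi.zero_apply] using h2
  intro i
  refine Fin.cases ?_ h1 i
  have h3 := congrFun hg k0
  simp only [Pi.add_apply, Pi.smul_apply, Finset.sum_apply, smul_eq_mul, Pi.zero_apply, h1,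
    zero_mul, Finset.sum_const_zero, add_zero] at h3
  exact (mul_eq_zero.1 h3).resolve_right hk0

/-! ### Labels and ring homomorphisms -/

section maps

variable {K L : Type*} [Field K] [Field L]

theorem lab_map10 (f : K →+* L) (u : Fin 2 → K) (M : SpecialLinearGroup (Fin 2) K) :
    lab32 (fun i => f (u i)) (SpecialLinearGroup.map f M) = f (lab32 u M) := by
  simp only [lab32, det32, Matrix.mulVec, dotProduct, Fin.sum_univ_two,
    Matrix.SpecialLinearGroup.map_apply_coe, RingHom.mapMatrix_apply, Matrix.map_apply, map_add,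
    map_sub, map_mul]

theorem lc_C10 (x : K) : (HahnSeries.C x : HahnSeries ℤ K).leadingCoeff = x := by
  rw [leadingCoeff_eq, HahnSeries.order_C]
  simp

end maps

section tower

variable {k : ℕ} {K : Type*} [Field K] (D : Spec10 k K)

/-- the base vector over the field with the parameter of the stable letter -/
noncomputable def uG10 : Fin 2 → LaurentSeries K := fun i => HahnSeries.C (D.u i)

theorem labH10 (l : Lab (k + 1)) (hl : l ∈ SH10 k) :
    lab32 (uG10 D) (rhoG D.R D.hP (lb (gen83 (k + 1)) l)) =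
      HahnSeries.C (lab32 D.u (D.R.rho (hl10 l))) := by
  have e : lb (gen83 (k + 1)) l = iH (hl10 l) := (iH_hl10 l hl.1 hl.2).symm
  rw [e, rhoG_iH]
  exact lab_map10 (HahnSeries.C : K →+* LaurentSeries K) D.u _

theorem bb_mem10 (hk : 1 ≤ k) : lab32 D.u (D.R.rho bb) ≠ 0 ∧
    lab32 D.u (D.R.rho (cc D.R.P)) ≠ 0 := by
  constructor
  · exact D.hne (kb (Nat.succ_pos k)) ⟨by simp [ka, kb], by simp [kab, kb]⟩
  · have h := D.hne (kc (by omega : 1 < k + 1)) ⟨by simp [kc, ka], by simp [kc, kab]⟩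
    have e : hl10 (kc (by omega : 1 < k + 1)) = cc D.R.P := by
      rw [D.hP]
      rfl
    rw [e] at h
    exact h

theorem lab_ka10 (hk : 1 ≤ k) :
    lab32 (uG10 D) (rhoG D.R D.hP (lb (gen83 (k + 1)) (ka (Nat.succ_pos k)))) ≠ 0 ∧
    (lab32 (uG10 D) (rhoG D.R D.hP (lb (gen83 (k + 1)) (ka (Nat.succ_pos k))))).order = -1 :=
  lab_tG D.R D.hP D.u (bb_mem10 D hk).1 (bb_mem10 D hk).2

theorem lab_kab10 (hk : 1 ≤ k) :
    lab32 (uG10 D) (rhoG D.R D.hP (lb (gen83 (k + 1)) (kab (Nat.succ_pos k)))) ≠ 0 ∧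
    (lab32 (uG10 D) (rhoG D.R D.hP (lb (gen83 (k + 1)) (kab (Nat.succ_pos k))))).order = -1 := by
  have e : lb (gen83 (k + 1)) (kab (Nat.succ_pos k)) = tG * bG := by
    rw [lb_kab]
    rfl
  rw [e]
  exact lab_tb D.R D.hP D.u (bb_mem10 D hk).1 (bb_mem10 D hk).2

theorem labG_ne10 (hk : 1 ≤ k) (l : Lab (k + 1)) :
    lab32 (uG10 D) (rhoG D.R D.hP (lb (gen83 (k + 1)) l)) ≠ 0 := by
  by_cases h1 : l = ka (Nat.succ_pos k)
  · rw [h1]
    exact (lab_ka10 D hk).1
  by_cases h2 : l = kab (Nat.succ_pos k)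
  · rw [h2]
    exact (lab_kab10 D hk).1
  rw [labH10 D l ⟨h1, h2⟩]
  exact (map_ne_zero _).2 (D.hne l ⟨h1, h2⟩)

/-- the order of a series as a real number -/
noncomputable def ord10 (K : Type*) [Field K] : LaurentSeries K → ℝ := fun x => ((x.order : ℤ) : ℝ)

/-- the functionals over the field with the parameter of the stable letter -/
noncomputable def fG10 : Fin (6 * k + 1 + 1) → LaurentSeries K → ℝ :=
  Fin.cons (ord10 K) (fun i x => D.f i x.leadingCoeff)

theorem fG_mem10 (i : Fin (6 * k + 1 + 1)) : fG10 D i ∈ hahnW32 ℤ D.W := by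
  refine Fin.cases ?_ (fun j => ?_) i
  · exact Or.inr ⟨Int.castAddHom ℝ, rfl⟩
  · exact Or.inl ⟨D.f j, D.hf j, rfl⟩

theorem ord_H10 (l : Lab (k + 1)) (hl : l ∈ SH10 k) :
    ord10 K (lab32 (uG10 D) (rhoG D.R D.hP (lb (gen83 (k + 1)) l))) = 0 := by
  rw [ord10, labH10 D l hl, HahnSeries.order_C, Int.cast_zero]

theorem ord_ka10 (hk : 1 ≤ k) :
    ord10 K (lab32 (uG10 D) (rhoG D.R D.hP (lb (gen83 (k + 1)) (ka (Nat.succ_pos k))))) = -1 := by
  rw [ord10, (lab_ka10 D hk).2]
  norm_num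

theorem ord_kab10 (hk : 1 ≤ k) :
    ord10 K (lab32 (uG10 D) (rhoG D.R D.hP (lb (gen83 (k + 1)) (kab (Nat.succ_pos k))))) =
      -1 := by
  rw [ord10, (lab_kab10 D hk).2]
  norm_num

theorem sum_ord10 (hk : 1 ≤ k) :
    ∑ l, |ord10 K (lab32 (uG10 D) (rhoG D.R D.hP (lb (gen83 (k + 1)) l)))| ≤ 2 := by
  classical
  have h1 : ∀ l : Lab (k + 1),
      |ord10 K (lab32 (uG10 D) (rhoG D.R D.hP (lb (gen83 (k + 1)) l)))| ≤
      (if l = ka (Nat.succ_pos k) then 1 else 0) +
        (if l = kab (Nat.succ_pos k) then 1 else 0) := by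
    intro l
    by_cases h1 : l = ka (Nat.succ_pos k)
    · rw [if_pos h1, h1, ord_ka10 D hk]
      split_ifs <;> norm_num
    · by_cases h2 : l = kab (Nat.succ_pos k)
      · rw [if_pos h2, h2, ord_kab10 D hk]
        split_ifs <;> norm_num
      · rw [if_neg h1, if_neg h2, ord_H10 D l ⟨h1, h2⟩]
        norm_num
  refine (Finset.sum_le_sum fun l _ => h1 l).trans ?_
  rw [Finset.sum_add_distrib, Finset.sum_ite_eq', Finset.sum_ite_eq']
  simp only [Finset.mem_univ, if_true]
  norm_num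

theorem hli_G10 (hk : 1 ≤ k) : LinearIndependent ℝ (fun i =>
    (fun l => fG10 D i (lab32 (uG10 D) (rhoG D.R D.hP (lb (gen83 (k + 1)) l))) :
      Lab (k + 1) → ℝ)) := by
  have e : (fun i =>
      (fun l => fG10 D i (lab32 (uG10 D) (rhoG D.R D.hP (lb (gen83 (k + 1)) l))) :
        Lab (k + 1) → ℝ)) = (Fin.cons
      (fun l => ord10 K (lab32 (uG10 D) (rhoG D.R D.hP (lb (gen83 (k + 1)) l))))
      (fun i l => D.f i
        (lab32 (uG10 D) (rhoG D.R D.hP (lb (gen83 (k + 1)) l))).leadingCoeff) :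
          Fin (6 * k + 1 + 1) → Lab (k + 1) → ℝ) := by
    funext i
    refine Fin.cases ?_ (fun j => ?_) i
    · rfl
    · rfl
  rw [e]
  refine ind10 _ (SH10 k) ?_ _ (fun l hl => ord_H10 D l hl) (ka (Nat.succ_pos k))
    (by rw [ord_ka10 D hk]; norm_num)
  have e2 : (fun i => (fun l => D.f i
      (lab32 (uG10 D) (rhoG D.R D.hP (lb (gen83 (k + 1)) l.1))).leadingCoeff : SH10 k → ℝ)) =
      (fun i => (fun l => D.f i (lab32 D.u (D.R.rho (hl10 l.1))))) := by
    funext i l
    rw [labH10 D l.1 l.2, lc_C10]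
  rw [e2]
  exact D.hli

end tower

/-- **The data of the inequality** from the representation of the vertex group. -/
noncomputable def repT10 {k : ℕ} (hk : 1 ≤ k) {K : Type} [Field K] (D : Spec10 k K) :
    RepDataT83 k where
  K := LaurentSeries K
  fld := inferInstance
  W := hahnW32 ℤ D.W
  hW := tri_hahn32 D.hW
  ρ := rhoG D.R D.hP
  u := uG10 D
  hX := labG_ne10 D hk
  f := fun i => fG10 D (Fin.cast (by omega) i)
  hf := fun i => fG_mem10 D _
  hli := (hli_G10 D hk).comp (Fin.cast (by omega : 6 * (k + 1) - 4 = 6 * k + 1 + 1))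
    (Fin.cast_injective _)
  w := ord10 K
  hw := Or.inr ⟨Int.castAddHom ℝ, rfl⟩
  hw2 := sum_ord10 D hk
  eig := by
    intro θ hθ h0
    obtain ⟨ξ, μ, h1, -, h2, h3, h4⟩ := top66 D.R D.hP (θ (PresentedGroup.of (Sum.inr 0))) h0
    refine ⟨ξ, μ, h1, h2, fun l hl => h4 _ ?_, ?_⟩
    · intro h
      have h5 := NC66.nc66 hk l hl
      apply h5
      apply hθ
      rw [map_mul, map_mul]
      exact h
    · rw [ord10, h3]
      simp

/-- the inequality of the crossing number from the representation of the vertex group -/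
theorem bndA10 {k : ℕ} (hk : 1 ≤ k)
    (h : ∃ (K : Type) (_ : Field K), Nonempty (Spec10 k K)) : BndA k (cst83 k) := by
  obtain ⟨K, _, ⟨D⟩⟩ := h
  exact bndA83 hk (repT10 hk D)

end Pool.Agent.Lib.MP_e3aa0a_gt.FVL
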