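import Pool.Agent.Lib.MP_e3aa0a_gt.FVL.TropG32
import Pool.Agent.Lib.MP_e3aa0a_gt.FVL.FinR43

/-!
# FVR, module Trop29: the label function on `GL₂(K29)`
-/

set_option autoImplicit false

namespace Pool.Agent.Lib.MP_e3aa0a_gt.FVL

open Pool.Agent.Lib.FVol HahnSeries Matrix

/-- the degree is a size on the rational functions -/
theorem siz_deg29 : Siz32 (fun x : RatFunc ℚ => (x.intDegree : ℝ)) := by
  constructor
  · intro x y hx hy
    show ((x * y).intDegree : ℝ) = _
    rw [RatFunc.intDegree_mul hx hy]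
    push_cast
    rfl
  · intro x y z hx hy hz hs
    have key : ∀ a b c : RatFunc ℚ, a ≠ 0 → b ≠ 0 → c ≠ 0 → a + b + c = 0 →
        c.intDegree ≤ max a.intDegree b.intDegree := by
      intro a b c _ hb hc h
      have h1 : a + b = -c := eq_neg_of_add_eq_zero_left h
      have h2 := RatFunc.intDegree_add_le (x := a) hb (by rw [h1]; exact neg_ne_zero.2 hc)
      rwa [h1, RatFunc.intDegree_neg] at h2
    have h1 := key x y z hx hy hz hs
    have h2 := key y z x hy hz hx (by rw [← hs]; ring)
    have h3 := key z x y hz hx hy (by rw [← hs]; ring)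
    have h4 : Mx32 x.intDegree y.intDegree z.intDegree := by
      unfold Mx32
      rcases le_total x.intDegree y.intDegree with h | h
      · rcases le_total y.intDegree z.intDegree with h' | h'
        · rw [max_eq_right h] at h1
          omega
        · rcases le_total z.intDegree x.intDegree with h'' | h''
          · rw [max_eq_right h''] at h3
            omega
          · rw [max_eq_left h''] at h3
            omega
      · rcases le_total x.intDegree z.intDegree with h' | h'
        · rw [max_eq_left h] at h1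
          omega
        · rcases le_total y.intDegree z.intDegree with h'' | h''
          · rw [max_eq_right h''] at h2
            omega
          · rw [max_eq_left h''] at h2
            omega
    rcases h4 with ⟨e, h⟩ | ⟨e, h⟩ | ⟨e, h⟩
    · exact Or.inl ⟨by simp only [e], by exact_mod_cast h⟩
    · exact Or.inr (Or.inl ⟨by simp only [e], by exact_mod_cast h⟩)
    · exact Or.inr (Or.inr ⟨by simp only [e], by exact_mod_cast h⟩)

/-- **The label function** -/
noncomputable def LT29 (g : G29) : M32 :=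
  LG32 (hs32 (Γ := ℝ) (fun x : RatFunc ℚ => (x.intDegree : ℝ))) ![1, 0] ![0, 1] g

theorem ut_LT29 : UT32 LT29 :=
  ut_LG32 (siz_hahn32 siz_deg29) (by simp [det32])

theorem LT29_val {g : G29} {r : ℝ} {s : ℤ} (h : NV2 1 g r s) : LT29 g = e32 (r, (s : ℝ)) := by
  obtain ⟨⟨h0, h1⟩, h2⟩ := h
  have hdd : dd 1 g = g.1 1 0 := by simp [dd]
  have hdt : dt 1 = 1 := by simp [dt]
  have hdt' : dt g = g.1.det := rfl
  rw [hdd] at h0 h1 h2
  rw [hdt, hdt'] at h1 h2
  have hl : labG32 (![1, 0] : Fin 2 → K29) g ≠ 0 := by rw [labG32_e1]; exact h0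
  have e1 : (1 : K29).order = 0 := order_one
  have e2 : (1 : K29).leadingCoeff = 1 := leadingCoeff_one
  rw [e1] at h1
  rw [e2, RatFunc.intDegree_one] at h2
  rw [LT29, LG32_val _ hl, labG32_e1]
  show toLex ((0 : ℤ), _) = toLex ((0 : ℤ), toLex (2 * r, 2 * (s : ℝ)))
  congr 2
  show toLex (-(g.1 1 0).order + -(g.1 1 0).order - -g.1.det.order,
    ((g.1 1 0).leadingCoeff.intDegree : ℝ) + ((g.1 1 0).leadingCoeff.intDegree : ℝ) -
      (g.1.det.leadingCoeff.intDegree : ℝ)) = _
  congr 2
  · rw [← h1]; ring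
  · have h3 : ((2 * (g.1 1 0).leadingCoeff.intDegree - 0 - g.1.det.leadingCoeff.intDegree : ℤ) : ℝ)
        = ((2 * s : ℤ) : ℝ) := by rw [h2]
    push_cast at h3
    rw [← h3]; ring

theorem tropI29 : TropI43 LT29 e32 l1_32 l2_32 where
  four := ut_LT29.four
  inv := ut_LT29.inv
  one := ut_LT29.one
  ult := by
    intro a b c ha hc hab hbc hlt
    rw [ut_LT29.u1 a b c ha hc hab hbc hlt.ne, max_eq_right hlt.le]
  emb := by
    rintro ⟨h, k⟩ ⟨h', k'⟩ hlt
    exact e32_lt hlt
  c1 := by
    rintro ⟨h, k⟩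
    exact l1_e32 h k
  c2 := by
    rintro ⟨h, k⟩
    exact l2_e32 h k
  val := fun _ _ _ h => LT29_val h

end Pool.Agent.Lib.MP_e3aa0a_gt.FVL
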