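import Mathlib

/-!
Words in a subgroup and one more letter: minimal words, the leading matrix of a word.
-/

set_option autoImplicit false

open Matrix

namespace Pool.Agent.Lib.MP_e3aa0a_gt.FVL.W2

section words

variable {Γ G : Type*} [Group Γ] [Group G]

/-- `b` or its inverse. -/
def sg (b : G) (e : Bool) : G := if e then b else b⁻¹

theorem sg_not (b : G) (e : Bool) : sg b (!e) = (sg b e)⁻¹ := by
  cases e <;> simp [sg]

/-- The value of a word `b^± f₁ b^± f₂ ... b^± fₙ`. -/
def ev (j : Γ →* G) (b : G) : List (Bool × Γ) → G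
  | [] => 1
  | x :: l => sg b x.1 * j x.2 * ev j b l

variable (j : Γ →* G) (b : G)

@[simp] theorem ev_nil : ev j b [] = 1 := rfl

@[simp] theorem ev_cons (x : Bool × Γ) (l : List (Bool × Γ)) :
    ev j b (x :: l) = sg b x.1 * j x.2 * ev j b l := rfl

theorem ev_append (l m : List (Bool × Γ)) : ev j b (l ++ m) = ev j b l * ev j b m := by
  induction l with
  | nil => simp
  | cons x l ih => simp [ih, mul_assoc]

/-- Elements `f₀ b^± f₁ ... b^± fₙ` with `n` letters `b^±`. -/
def T (n : ℕ) : Set G :=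
  {g | ∃ (f : Γ) (l : List (Bool × Γ)), l.length = n ∧ g = j f * ev j b l}

theorem absorb (l : List (Bool × Γ)) (hl : l ≠ []) (f : Γ) :
    ∃ l' : List (Bool × Γ), l'.length = l.length ∧ ev j b l * j f = ev j b l' := by
  induction l with
  | nil => exact absurd rfl hl
  | cons x l ih =>
    by_cases h : l = []
    · subst h
      refine ⟨[(x.1, x.2 * f)], rfl, ?_⟩
      simp [mul_assoc]
    · obtain ⟨l', h1, h2⟩ := ih h
      refine ⟨x :: l', by simp [h1], ?_⟩
      simp only [ev_cons, mul_assoc, h2]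

theorem ev_mem_T (l : List (Bool × Γ)) : ev j b l ∈ T j b l.length :=
  ⟨1, l, rfl, by simp⟩

theorem j_mem_T (f : Γ) : j f ∈ T j b 0 := ⟨f, [], rfl, by simp⟩

theorem T_mul {m n : ℕ} {g h : G} (hg : g ∈ T j b m) (hh : h ∈ T j b n) :
    g * h ∈ T j b (m + n) := by
  obtain ⟨f, l, hl, rfl⟩ := hg
  obtain ⟨f', l', hl', rfl⟩ := hh
  by_cases h : l = []
  · subst h
    have hm : m = 0 := hl.symm
    refine ⟨f * f', l', by omega, ?_⟩
    simp [mul_assoc]
  · obtain ⟨m', h1, h2⟩ := absorb j b l h f'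
    refine ⟨f, m' ++ l', by simp [h1, hl, hl'], ?_⟩
    rw [ev_append, ← h2]
    simp only [mul_assoc]

theorem exists_T (hgen : Subgroup.closure (Set.range j ∪ {b}) = ⊤) (g : G) :
    ∃ n, g ∈ T j b n := by
  have hg : g ∈ Subgroup.closure (Set.range j ∪ {b}) := by rw [hgen]; trivial
  induction hg using Subgroup.closure_induction_left with
  | one => exact ⟨0, 1, [], rfl, by simp⟩
  | mul_left x hx y _ ih =>
    obtain ⟨n, hn⟩ := ih
    rcases hx with ⟨f, rfl⟩ | hx
    · exact ⟨0 + n, T_mul j b (j_mem_T j b f) hn⟩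
    · rw [Set.mem_singleton_iff] at hx
      subst hx
      exact ⟨1 + n, T_mul j x ⟨1, [(true, 1)], rfl, by simp [sg]⟩ hn⟩
  | inv_mul_cancel x hx y _ ih =>
    obtain ⟨n, hn⟩ := ih
    rcases hx with ⟨f, rfl⟩ | hx
    · rw [← map_inv]
      exact ⟨0 + n, T_mul j b (j_mem_T j b f⁻¹) hn⟩
    · rw [Set.mem_singleton_iff] at hx
      subst hx
      exact ⟨1 + n, T_mul j x ⟨1, [(false, 1)], rfl, by simp [sg]⟩ hn⟩

/-- A pair of neighbours that can be shortened. -/
def Bad (x y : Bool × Γ) : Prop :=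
  y.1 = !x.1 ∧ ∃ f : Γ, sg b x.1 * j x.2 * (sg b x.1)⁻¹ = j f

theorem bad_mem (x y : Bool × Γ) (h : Bad j b x y) :
    sg b x.1 * j x.2 * (sg b y.1 * j y.2) ∈ T j b 0 := by
  obtain ⟨h1, f, hf⟩ := h
  rw [h1, sg_not]
  refine ⟨f * y.2, [], rfl, ?_⟩
  simp only [ev_nil, mul_one, map_mul, ← hf, mul_assoc]

/-- The least number of letters `b^±` in a word for `g`. -/
noncomputable def len (g : G) : ℕ := sInf {n | g ∈ T j b n}

/-- The least number of letters `b^±` in a word for a conjugate of `g`. -/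
noncomputable def clen (g : G) : ℕ := sInf {n | ∃ x : G, x * g * x⁻¹ ∈ T j b n}

theorem exists_reduced (hgen : Subgroup.closure (Set.range j ∪ {b}) = ⊤) (g : G) :
    ∃ (f : Γ) (l : List (Bool × Γ)), g = j f * ev j b l ∧ l.length = len j b g ∧
      l.IsChain (fun x y => ¬ Bad j b x y) := by
  have hne : {n | g ∈ T j b n}.Nonempty := exists_T j b hgen g
  obtain ⟨f, l, hl, hg⟩ := Nat.sInf_mem hne
  refine ⟨f, l, hg, hl, ?_⟩
  rw [List.isChain_iff_forall_rel_of_append_cons_cons]
  intro x y l₁ l₂ h hbad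
  have h1 : g ∈ T j b (0 + (l₁.length + (0 + l₂.length))) := by
    rw [hg, h, ev_append, ev_cons, ev_cons]
    refine T_mul j b (j_mem_T j b f) (T_mul j b (ev_mem_T j b l₁) ?_)
    have := T_mul j b (bad_mem j b x y hbad) (ev_mem_T j b l₂)
    simpa only [mul_assoc] using this
  have h2 : len j b g ≤ 0 + (l₁.length + (0 + l₂.length)) := Nat.sInf_le h1
  have h3 : l.length = l₁.length + (l₂.length + 2) := by rw [h]; simp
  have h4 : l.length = len j b g := hl
  omega

theorem clen_le {g x : G} {n : ℕ} (h : x * g * x⁻¹ ∈ T j b n) : clen j b g ≤ n :=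
  Nat.sInf_le ⟨x, h⟩

theorem exists_creduced (hgen : Subgroup.closure (Set.range j ∪ {b}) = ⊤) (g : G) :
    (clen j b g = 0 ∧ ∃ (x : G) (f : Γ), x * g * x⁻¹ = j f) ∨
    ∃ (x : G) (l : List (Bool × Γ)) (hl : l ≠ []), x * g * x⁻¹ = ev j b l ∧
      l.length = clen j b g ∧ l.IsChain (fun x y => ¬ Bad j b x y) ∧
      ¬ Bad j b (l.getLast hl) (l.head hl) := by
  have hne : {n | ∃ x : G, x * g * x⁻¹ ∈ T j b n}.Nonempty := by
    obtain ⟨n, hn⟩ := exists_T j b hgen g
    exact ⟨n, 1, by simpa using hn⟩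
  obtain ⟨x, f, l, hl, hg⟩ := Nat.sInf_mem hne
  have hl' : l.length = clen j b g := hl
  by_cases h0 : l = []
  · subst h0
    left
    exact ⟨hl'.symm, x, f, by simpa using hg⟩
  · right
    obtain ⟨l', h1, h2⟩ := absorb j b l h0 f
    have hne' : l' ≠ [] := by
      intro h
      rw [h] at h1
      exact h0 (List.length_eq_zero_iff.1 h1.symm)
    have hx : ((j f)⁻¹ * x) * g * ((j f)⁻¹ * x)⁻¹ = ev j b l' := by
      rw [← h2]
      have : ((j f)⁻¹ * x) * g * ((j f)⁻¹ * x)⁻¹ = (j f)⁻¹ * (x * g * x⁻¹) * j f := by group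
      rw [this, hg]
      group
    refine ⟨(j f)⁻¹ * x, l', hne', hx, by rw [h1, hl'], ?_, ?_⟩
    · rw [List.isChain_iff_forall_rel_of_append_cons_cons]
      intro u v l₁ l₂ h hbad
      have h3 : ((j f)⁻¹ * x) * g * ((j f)⁻¹ * x)⁻¹ ∈ T j b (l₁.length + (0 + l₂.length)) := by
        rw [hx, h, ev_append, ev_cons, ev_cons]
        refine T_mul j b (ev_mem_T j b l₁) ?_
        have := T_mul j b (bad_mem j b u v hbad) (ev_mem_T j b l₂)
        simpa only [mul_assoc] using this
      have h4 := clen_le j b h3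
      have h5 : l'.length = l₁.length + (l₂.length + 2) := by rw [h]; simp
      omega
    · intro hbad
      obtain ⟨u, m, rfl⟩ := List.exists_cons_of_ne_nil hne'
      rcases List.eq_nil_or_concat m with h | ⟨m', v, h⟩
      · subst h
        have := hbad.1
        simp at this
      · rw [List.concat_eq_append] at h
        subst h
        have hu : (u :: (m' ++ [v])).head hne' = u := rfl
        have hv : (u :: (m' ++ [v])).getLast hne' = v := by simp
        rw [hu, hv] at hbad
        have h3 := T_mul j b (bad_mem j b v u hbad) (ev_mem_T j b m')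
        have h4 : (sg b v.1 * j v.2 * ((j f)⁻¹ * x)) * g * (sg b v.1 * j v.2 * ((j f)⁻¹ * x))⁻¹
            ∈ T j b (0 + m'.length) := by
          convert h3 using 1
          have : (sg b v.1 * j v.2 * ((j f)⁻¹ * x)) * g * (sg b v.1 * j v.2 * ((j f)⁻¹ * x))⁻¹
            = sg b v.1 * j v.2 * (((j f)⁻¹ * x) * g * ((j f)⁻¹ * x)⁻¹) * (sg b v.1 * j v.2)⁻¹ := by
            group
          rw [this, hx, ev_cons, ev_append]
          simp only [ev_cons, ev_nil]
          group
        have h5 := clen_le j b h4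
        have h6 : (u :: (m' ++ [v])).length = m'.length + 2 := by simp
        omega

end words

section lead

variable {k : Type*} [Field k]

/-- The row vector of the leading matrix of a word. -/
def rw2 (row : Bool → Fin 2 → k) {Γ : Type*} (r : Γ → Matrix (Fin 2) (Fin 2) k)
    (x : Bool × Γ) : Fin 2 → k := row x.1 ᵥ* r x.2

theorem lead_chain {Γ : Type*} (col row : Bool → Fin 2 → k)
    (r : Γ → Matrix (Fin 2) (Fin 2) k) (l : List (Bool × Γ)) (hl : l ≠ [])
    (h : l.IsChain (fun x y => rw2 row r x ⬝ᵥ col y.1 ≠ 0)) :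
    ∃ c : k, c ≠ 0 ∧ (l.map fun x => vecMulVec (col x.1) (row x.1) * r x.2).prod =
      c • vecMulVec (col (l.head hl).1) (rw2 row r (l.getLast hl)) := by
  induction l with
  | nil => exact absurd rfl hl
  | cons x l ih =>
    by_cases h0 : l = []
    · subst h0
      refine ⟨1, one_ne_zero, ?_⟩
      simp [rw2, vecMulVec_mul]
    · obtain ⟨y, m, rfl⟩ := List.exists_cons_of_ne_nil h0
      rw [List.isChain_cons_cons] at h
      obtain ⟨c, hc, h1⟩ := ih h0 h.2
      refine ⟨(rw2 row r x ⬝ᵥ col y.1) * c, mul_ne_zero h.1 hc, ?_⟩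
      rw [List.map_cons, List.prod_cons, h1]
      simp only [List.head_cons, List.getLast_cons h0]
      rw [vecMulVec_mul, mul_smul_comm, vecMulVec_mul_vecMulVec, vecMulVec_smul, smul_smul,
        mul_comm c]
      rfl

end lead

/-- The matrix of an element of `SL_2`. -/
def mt {R : Type*} [CommRing R] :
    SpecialLinearGroup (Fin 2) R →* Matrix (Fin 2) (Fin 2) R where
  toFun A := A.1
  map_one' := rfl
  map_mul' _ _ := rfl

theorem mt_inv {R : Type*} [CommRing R] (A : SpecialLinearGroup (Fin 2) R) :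
    mt A⁻¹ = adjugate (mt A) := rfl

theorem det_mt {R : Type*} [CommRing R] (A : SpecialLinearGroup (Fin 2) R) :
    (mt A).det = 1 := A.2

theorem mt_eq {R : Type*} [CommRing R] (A : SpecialLinearGroup (Fin 2) R) :
    mt A = A.1 := rfl

/-- The determinant of two vectors of the plane. -/
def det2 {R : Type*} [CommRing R] (u v : Fin 2 → R) : R := u 0 * v 1 - u 1 * v 0

theorem map_det2 {R S : Type*} [CommRing R] [CommRing S] (f : R →+* S) (u v : Fin 2 → R) :
    f (det2 u v) = det2 (f ∘ u) (f ∘ v) := by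
  simp [det2]

theorem map_mulVec2 {R S : Type*} [CommRing R] [CommRing S] (f : R →+* S)
    (M : Matrix (Fin 2) (Fin 2) R) (u : Fin 2 → R) : f ∘ (M *ᵥ u) = (M.map f) *ᵥ (f ∘ u) := by
  ext i
  fin_cases i <;> simp [mulVec, dotProduct, Fin.sum_univ_two]

/-- A representation `R` of `G` in `SL_2(K)`, a ring `O` with homomorphisms `pr : O → k` and
`io : O → K`, in which the words of `G` have leading matrices of rank one. -/
structure Lead {Γ G : Type*} [Group Γ] [Group G] (j : Γ →* G) (b : G)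
    (O k K : Type*) [CommRing O] [Field k] [Field K] where
  pr : O →+* k
  io : O →+* K
  s : O
  hs : pr s = 0
  hio : Function.Injective io
  r : Γ → Matrix (Fin 2) (Fin 2) O
  R : G →* SpecialLinearGroup (Fin 2) K
  hr : ∀ f, (r f).map io = mt (R (j f))
  A : Bool → Matrix (Fin 2) (Fin 2) O
  hA : ∀ e, (A e).map io = io s • mt (R (sg b e))
  col : Bool → Fin 2 → k
  row : Bool → Fin 2 → k
  hAp : ∀ e, (A e).map pr = vecMulVec (col e) (row e)
  hne : ∀ x y : Bool × Γ, ¬ Bad j b x y → (row x.1 ᵥ* (r x.2).map pr) ⬝ᵥ col y.1 ≠ 0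

namespace Lead

variable {Γ G : Type*} [Group Γ] [Group G] {j : Γ →* G} {b : G}
    {O k K : Type*} [CommRing O] [Field k] [Field K] (D : Lead j b O k K)

/-- The product of the matrices of a word over `O`. -/
def Q (l : List (Bool × Γ)) : Matrix (Fin 2) (Fin 2) O :=
  (l.map fun x => D.A x.1 * D.r x.2).prod

theorem Q_io (l : List (Bool × Γ)) :
    (D.Q l).map D.io = D.io D.s ^ l.length • mt (D.R (ev j b l)) := by
  induction l with
  | nil =>
    simp [Q, Matrix.map_one]
  | cons x l ih =>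
    have h1 : D.Q (x :: l) = D.A x.1 * D.r x.2 * D.Q l := by simp [Q]
    rw [h1, Matrix.map_mul, Matrix.map_mul, ih, D.hA, D.hr, ev_cons, map_mul, map_mul,
      map_mul, map_mul, List.length_cons, pow_succ']
    simp only [smul_mul_assoc, mul_smul_comm, smul_smul]
    rw [mul_comm]

theorem Q_pr (l : List (Bool × Γ)) (hl : l ≠ [])
    (h : l.IsChain (fun x y => ¬ Bad j b x y)) :
    ∃ c : k, c ≠ 0 ∧ (D.Q l).map D.pr = c • vecMulVec (D.col (l.head hl).1)
      (D.row (l.getLast hl).1 ᵥ* (D.r (l.getLast hl).2).map D.pr) := by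
  have h1 : (D.Q l).map D.pr =
      (l.map fun x => vecMulVec (D.col x.1) (D.row x.1) * (D.r x.2).map D.pr).prod := by
    clear h hl
    induction l with
    | nil => simp [Q, Matrix.map_one]
    | cons x l ih =>
      have h1 : D.Q (x :: l) = D.A x.1 * D.r x.2 * D.Q l := by simp [Q]
      rw [h1, Matrix.map_mul, Matrix.map_mul, ih, D.hAp, List.map_cons, List.prod_cons]
  obtain ⟨c, hc, h2⟩ := lead_chain D.col D.row (fun f => (D.r f).map D.pr) l hl
    (h.imp fun x y hxy => D.hne x y hxy)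
  exact ⟨c, hc, by rw [h1, h2]; rfl⟩

/-- The degree of the trace is the least number of letters in the conjugacy class. -/
theorem trace_deg (hgen : Subgroup.closure (Set.range j ∪ {b}) = ⊤) (g : G) :
    (clen j b g = 0 ∧ ∃ (x : G) (f : Γ), x * g * x⁻¹ = j f) ∨
    (0 < clen j b g ∧ ∃ q : O, D.pr q ≠ 0 ∧
      D.io q = D.io D.s ^ clen j b g * trace (mt (D.R g))) := by
  rcases exists_creduced j b hgen g with h | ⟨x, l, hl, hg, hlen, hch, hbad⟩
  · exact Or.inl h
  · right
    refine ⟨by rw [← hlen]; exact List.length_pos_of_ne_nil hl, trace (D.Q l), ?_, ?_⟩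
    · obtain ⟨c, hc, h1⟩ := D.Q_pr l hl hch
      have h2 : D.pr (trace (D.Q l)) = trace ((D.Q l).map D.pr) := by
        simp [trace_fin_two]
      rw [h2, h1, trace_smul, trace_vecMulVec, smul_eq_mul]
      refine mul_ne_zero hc ?_
      rw [dotProduct_comm]
      exact D.hne _ _ hbad
    · have h2 : D.io (trace (D.Q l)) = trace ((D.Q l).map D.io) := by
        simp [trace_fin_two]
      have h3 : mt (D.R x⁻¹) * mt (D.R x) = 1 := by
        rw [← map_mul mt, ← map_mul D.R, inv_mul_cancel, map_one, map_one]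
      rw [h2, Q_io, trace_smul, smul_eq_mul, hlen, ← hg, map_mul, map_mul, map_mul, map_mul,
        trace_mul_cycle, h3, one_mul]

/-- The degree of `det(u, g u)` is the least number of letters in a word for `g`. -/
theorem det_deg (hgen : Subgroup.closure (Set.range j ∪ {b}) = ⊤) (u : Fin 2 → O)
    (hu : ∀ (e : Bool) (f : Γ), (D.row e ᵥ* (D.r f).map D.pr) ⬝ᵥ (D.pr ∘ u) ≠ 0)
    (hu' : ∀ (e : Bool) (f : Γ), det2 (D.pr ∘ u) ((D.r f).map D.pr *ᵥ D.col e) ≠ 0) (g : G) :
    (len j b g = 0 ∧ ∃ f : Γ, g = j f) ∨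
    (0 < len j b g ∧ ∃ q : O, D.pr q ≠ 0 ∧
      D.io q = D.io D.s ^ len j b g * det2 (D.io ∘ u) (mt (D.R g) *ᵥ (D.io ∘ u))) := by
  obtain ⟨f, l, hg, hlen, hch⟩ := exists_reduced j b hgen g
  by_cases h0 : l = []
  · left
    subst h0
    exact ⟨hlen.symm, f, by simpa using hg⟩
  · right
    refine ⟨by rw [← hlen]; exact List.length_pos_of_ne_nil h0,
      det2 u ((D.r f * D.Q l) *ᵥ u), ?_, ?_⟩
    · obtain ⟨c, hc, h1⟩ := D.Q_pr l h0 hch
      have h2 : D.pr (det2 u ((D.r f * D.Q l) *ᵥ u)) =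
          det2 (D.pr ∘ u) (((D.r f).map D.pr * (D.Q l).map D.pr) *ᵥ (D.pr ∘ u)) := by
        rw [map_det2, map_mulVec2, Matrix.map_mul]
      have h3 := hu (l.getLast h0).1 (l.getLast h0).2
      have h4 := hu' (l.head h0).1 f
      rw [h2, h1]
      set rv := D.row (l.getLast h0).1 ᵥ* (D.r (l.getLast h0).2).map D.pr
      set cv := D.col (l.head h0).1
      set F := (D.r f).map D.pr
      have h5 : det2 (D.pr ∘ u) ((F * (c • vecMulVec cv rv)) *ᵥ (D.pr ∘ u)) =
          c * (rv ⬝ᵥ (D.pr ∘ u)) * det2 (D.pr ∘ u) (F *ᵥ cv) := by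
        simp only [det2, mulVec, dotProduct, vecMulVec, Matrix.mul_apply, Fin.sum_univ_two,
          Matrix.smul_apply, Matrix.of_apply, smul_eq_mul]
        ring
      rw [h5]
      exact mul_ne_zero (mul_ne_zero hc h3) h4
    · have h2 : D.io (det2 u ((D.r f * D.Q l) *ᵥ u)) =
          det2 (D.io ∘ u) (((D.r f).map D.io * (D.Q l).map D.io) *ᵥ (D.io ∘ u)) := by
        rw [map_det2, map_mulVec2, Matrix.map_mul]
      rw [h2, D.hr, Q_io, hlen, hg, map_mul, map_mul]
      simp only [det2, mulVec, dotProduct, Matrix.mul_apply, Fin.sum_univ_two,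
          Matrix.smul_apply, smul_eq_mul]
      ring

end Lead

/-- Every nontrivial element has distinct eigenvalues. -/
def Reg {Γ R : Type*} [Group Γ] [CommRing R] (ρ : Γ →* SpecialLinearGroup (Fin 2) R) : Prop :=
  ∀ h : Γ, h ≠ 1 → trace (mt (ρ h)) ^ 2 ≠ 4

theorem Lead.reg {Γ G : Type*} [Group Γ] [Group G] {j : Γ →* G} {b : G}
    {O k K : Type*} [CommRing O] [Field k] [Field K] (D : Lead j b O k K)
    (hgen : Subgroup.closure (Set.range j ∪ {b}) = ⊤)
    (hj : ∀ f : Γ, j f ≠ 1 → trace (mt (D.R (j f))) ^ 2 ≠ 4) : Reg D.R := by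
  intro g hg
  rcases D.trace_deg hgen g with ⟨_, x, f, hf⟩ | ⟨hpos, q, hq, hq'⟩
  · have h3 : mt (D.R x⁻¹) * mt (D.R x) = 1 := by
      rw [← map_mul mt, ← map_mul D.R, inv_mul_cancel, map_one, map_one]
    have h4 : trace (mt (D.R (j f))) = trace (mt (D.R g)) := by
      rw [← hf, map_mul, map_mul, map_mul, map_mul, trace_mul_cycle, h3, one_mul]
    rw [← h4]
    apply hj
    rintro h1
    apply hg
    rw [h1] at hf
    have : g = x⁻¹ * (x * g * x⁻¹) * x := by group
    rw [this, hf]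
    simp
  · intro h
    apply hq
    have h1 : D.io (q ^ 2) = D.io (D.s ^ (2 * clen j b g) * 4) := by
      rw [map_pow, hq', mul_pow, h, map_mul, map_pow, pow_mul', map_ofNat]
    have h2 := congrArg D.pr (D.hio h1)
    rw [map_pow, map_mul, map_pow, D.hs, zero_pow (by omega), zero_mul] at h2
    exact pow_eq_zero_iff (two_ne_zero) |>.1 h2

end Pool.Agent.Lib.MP_e3aa0a_gt.FVL.W2
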