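import Pool.Agent.Lib.MP_e3aa0a_gt.FVL.Plc65
import Pool.Agent.Lib.MP_e3aa0a_gt.FVL.DefsCR66
import Pool.Agent.Lib.MP_e3aa0a_gt.FVL.Star66

/-!
# FVL, module Wrd65: the labels of the handles as elements of a free group
-/

set_option autoImplicit false

namespace Pool.Agent.Lib.MP_e3aa0a_gt.FVL

open Matrix

theorem Dp_eq_prod {G : Type*} [Group G] (a b : ℕ → G) : ∀ n : ℕ,
    Dp a b n = (List.ofFn fun i : Fin n => a (n - 1 - i.1) * b (n - 1 - i.1) *
      (a (n - 1 - i.1))⁻¹ * (b (n - 1 - i.1))⁻¹).prod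
  | 0 => by simp [Dp]
  | n + 1 => by
    rw [List.ofFn_succ, List.prod_cons, Dp, Dp_eq_prod a b n]
    have e0 : n + 1 - 1 - (0 : Fin (n + 1)).1 = n := by simp
    have e : ∀ i : Fin n, n + 1 - 1 - (i.succ).1 = n - 1 - i.1 := by
      intro i
      rw [Fin.val_succ]
      omega
    rw [e0]
    simp only [e]

/-- the letters `a`, counted from the last handle -/
def aN (n : ℕ) (k : ℕ) : FreeGroup (Fin n ⊕ Fin n) :=
  if h : k < n then FreeGroup.of (Sum.inl ⟨n - 1 - k, by omega⟩) else 1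

/-- the letters `b`, counted from the last handle -/
def bN (n : ℕ) (k : ℕ) : FreeGroup (Fin n ⊕ Fin n) :=
  if h : k < n then FreeGroup.of (Sum.inr ⟨n - 1 - k, by omega⟩) else 1

theorem aN_rev {n : ℕ} (i : Fin n) : aN n (n - 1 - i.1) = FreeGroup.of (Sum.inl i) := by
  have h : n - 1 - i.1 < n := by omega
  rw [aN, dif_pos h]
  congr 2
  apply Fin.ext
  show n - 1 - (n - 1 - i.1) = i.1
  omega

theorem bN_rev {n : ℕ} (i : Fin n) : bN n (n - 1 - i.1) = FreeGroup.of (Sum.inr i) := by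
  have h : n - 1 - i.1 < n := by omega
  rw [bN, dif_pos h]
  congr 2
  apply Fin.ext
  show n - 1 - (n - 1 - i.1) = i.1
  omega

theorem Dp_aN (n : ℕ) : Dp (aN n) (bN n) n = relW n := by
  rw [Dp_eq_prod, relW]
  congr 2
  funext i
  rw [aN_rev, bN_rev, cm]

/-- the six labels of a handle -/
def labF {G : Type*} [Group G] (a b : ℕ → G) (k : ℕ) : Fin 6 → G :=
  ![a k, b k, (b k)⁻¹ * Dp a b k, (a k)⁻¹ * (b k)⁻¹ * Dp a b k,
    b k * (a k)⁻¹ * (b k)⁻¹ * Dp a b k, a k * b k * (a k)⁻¹ * (b k)⁻¹ * Dp a b k]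

theorem map_labF {G H : Type*} [Group G] [Group H] (f : G →* H) (a b : ℕ → G) (k : ℕ) (s : Fin 6) :
    f (labF a b k s) = labF (fun j => f (a j)) (fun j => f (b j)) k s := by
  fin_cases s <;> simp [labF, map_Dp]

/-- the six determinants of a handle are the determinants of its labels -/
theorem hnd_iff {R : Type*} [CommRing R] (a b : ℕ → SpecialLinearGroup (Fin 2) R) (k : ℕ)
    (x : Fin 6 → R) :
    Hnd (Dp a b k) (x 0) (x 1) (x 2) (x 3) (x 4) (x 5) (a k) (b k) ↔
      ∀ s, dtv u0 (ap (labF a b k s) u0) = x s := by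
  have e2 : dtv u0 (ap ((b k)⁻¹ * Dp a b k) u0) = dtv (ap (b k) u0) (ap (Dp a b k) u0) := by
    rw [ap_mul, dt_inv_right]
  have e3 : dtv u0 (ap ((a k)⁻¹ * (b k)⁻¹ * Dp a b k) u0) =
      dtv (ap (b k * a k) u0) (ap (Dp a b k) u0) := by
    have : (a k)⁻¹ * (b k)⁻¹ = (b k * a k)⁻¹ := by group
    rw [this, ap_mul, dt_inv_right]
  have e4 : dtv u0 (ap (b k * (a k)⁻¹ * (b k)⁻¹ * Dp a b k) u0) =
      dtv (ap (b k * a k * (b k)⁻¹) u0) (ap (Dp a b k) u0) := by
    have : b k * (a k)⁻¹ * (b k)⁻¹ = (b k * a k * (b k)⁻¹)⁻¹ := by group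
    rw [this, ap_mul, dt_inv_right]
  have e5 : dtv u0 (ap (a k * b k * (a k)⁻¹ * (b k)⁻¹ * Dp a b k) u0) =
      dtv (ap (b k * a k * (b k)⁻¹ * (a k)⁻¹) u0) (ap (Dp a b k) u0) := by
    have : a k * b k * (a k)⁻¹ * (b k)⁻¹ = (b k * a k * (b k)⁻¹ * (a k)⁻¹)⁻¹ := by group
    rw [this, ap_mul, dt_inv_right]
  constructor
  · intro h s
    fin_cases s
    · exact h.ha
    · exact h.hb
    · exact e2.trans h.h1
    · exact e3.trans h.h2
    · exact e4.trans h.h3
    · exact e5.trans h.h4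
  · intro h
    exact ⟨h 0, h 1, e2.symm.trans (h 2), e3.symm.trans (h 3), e4.symm.trans (h 4),
      e5.symm.trans (h 5)⟩

/-- the labels on the side of the free group: `none` is `b`, `some none` is `c = D⁻¹ b` -/
def labH (n : ℕ) : Option (Option (Fin 6 × Fin n)) → FreeGroup (Option (Gen n))
  | none => bb
  | some none => cc (relW n)
  | some (some e) => up (labF (aN n) (bN n) e.2.1 e.1)

theorem Dp_one {G : Type*} [Group G] (a b : ℕ → G) : ∀ k : ℕ, (∀ j < k, a j = 1 ∧ b j = 1) →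
    Dp a b k = 1
  | 0, _ => rfl
  | k + 1, h => by
    have h1 := h k (Nat.lt_succ_self k)
    rw [Dp, h1.1, h1.2, Dp_one a b k fun j hj => h j (hj.trans (Nat.lt_succ_self k))]
    group

/-- a homomorphism to a symmetric group that kills all but one handle -/
def chi (n k : ℕ) : FreeGroup (Fin n ⊕ Fin n) →* Equiv.Perm (Fin 3) :=
  FreeGroup.lift fun x => Sum.elim (fun i : Fin n => if i.1 = n - 1 - k then Equiv.swap 0 1 else 1)
    (fun i : Fin n => if i.1 = n - 1 - k then Equiv.swap 1 2 else 1) x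

theorem chi_aN {n k : ℕ} (hk : k < n) : chi n k (aN n k) = Equiv.swap 0 1 := by
  rw [aN, dif_pos hk, chi, FreeGroup.lift_apply_of]
  simp

theorem chi_bN {n k : ℕ} (hk : k < n) : chi n k (bN n k) = Equiv.swap 1 2 := by
  rw [bN, dif_pos hk, chi, FreeGroup.lift_apply_of]
  simp

theorem chi_aN_lt {n k j : ℕ} (hk : k < n) (hj : j < k) : chi n k (aN n j) = 1 := by
  have h : j < n := hj.trans hk
  rw [aN, dif_pos h, chi, FreeGroup.lift_apply_of]
  have : n - 1 - j ≠ n - 1 - k := by omega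
  simp [this]

theorem chi_bN_lt {n k j : ℕ} (hk : k < n) (hj : j < k) : chi n k (bN n j) = 1 := by
  have h : j < n := hj.trans hk
  rw [bN, dif_pos h, chi, FreeGroup.lift_apply_of]
  have : n - 1 - j ≠ n - 1 - k := by omega
  simp [this]

theorem labF_ne_one {n k : ℕ} (hk : k < n) (s : Fin 6) : labF (aN n) (bN n) k s ≠ 1 := by
  intro h
  have h2 := congrArg (chi n k) h
  rw [map_labF, map_one] at h2
  have hD : Dp (fun j => chi n k (aN n j)) (fun j => chi n k (bN n j)) k = 1 :=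
    Dp_one _ _ _ fun j hj => ⟨chi_aN_lt hk hj, chi_bN_lt hk hj⟩
  revert h2
  fin_cases s
  · simp only [labF, hD, chi_aN hk, chi_bN hk]
    decide
  · simp only [labF, hD, chi_aN hk, chi_bN hk]
    decide
  · simp only [labF, hD, chi_aN hk, chi_bN hk]
    decide
  · simp only [labF, hD, chi_aN hk, chi_bN hk]
    decide
  · simp only [labF, hD, chi_aN hk, chi_bN hk]
    decide
  · simp only [labF, hD, chi_aN hk, chi_bN hk]
    decide

theorem relW_ne_one {n : ℕ} (hn : 0 < n) : relW n ≠ 1 := by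
  obtain ⟨m, rfl⟩ : ∃ m, n = m + 1 := ⟨n - 1, by omega⟩
  rw [← Dp_aN]
  exact labF_ne_one (Nat.lt_succ_self m) 5

theorem map_some_inj {α : Type*} : Function.Injective (FreeGroup.map (some : α → Option α)) := by
  intro x y h
  have key : ∀ z : FreeGroup α,
      FreeGroup.lift (fun o : Option α => o.elim 1 FreeGroup.of) (FreeGroup.map some z) = z := by
    intro z
    have : (FreeGroup.lift (fun o : Option α => o.elim 1 FreeGroup.of)).comp
        (FreeGroup.map some) = MonoidHom.id (FreeGroup α) := by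
      ext x
      simp
    exact DFunLike.congr_fun this z
  rw [← key x, ← key y, h]

theorem labH_ne_one {n : ℕ} (e : Option (Option (Fin 6 × Fin n))) : labH n e ≠ 1 := by
  rcases e with _ | _ | e
  · exact FreeGroup.of_ne_one _
  · intro h
    have h2 := congrArg (FreeGroup.lift (fun o : Option (Fin n ⊕ Fin n) =>
      o.elim (Equiv.swap (0 : Fin 3) 1) fun _ => 1)) h
    rw [labH, cc, up, bb, map_mul, map_inv, map_one] at h2
    have h3 : (FreeGroup.lift (fun o : Option (Fin n ⊕ Fin n) =>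
        o.elim (Equiv.swap (0 : Fin 3) 1) fun _ => 1)) (FreeGroup.map some (relW n)) = 1 := by
      have : (FreeGroup.lift (fun o : Option (Fin n ⊕ Fin n) =>
          o.elim (Equiv.swap (0 : Fin 3) 1) fun _ => 1)).comp (FreeGroup.map some) = 1 := by
        ext x
        simp
      exact DFunLike.congr_fun this _
    rw [h3, FreeGroup.lift_apply_of, inv_one, one_mul] at h2
    revert h2
    simp only [Option.elim]
    decide
  · intro h
    refine labF_ne_one e.2.2 e.1 (map_some_inj ?_)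
    rw [map_one]
    exact h

end Pool.Agent.Lib.MP_e3aa0a_gt.FVL
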